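import Pool.Agent.W_eb6199.Defs

open MeasureTheory Complex Filter Topology
open scoped FourierTransform ComplexInnerProductSpace ENNReal NNReal

namespace Pool.Agent.W_eb6199

noncomputable section

variable {n : ℕ}

/-! T24: parabolic dyadic cubes. -/

theorem sc_pos (k : ℤ) (j : Fin (n + 1)) : 0 < sc k j := by
  unfold sc
  split_ifs <;> positivity

theorem sc_zero (k : ℤ) : sc (n := n) k 0 = (4 : ℝ) ^ k := by
  simp [sc]

theorem sc_succ (k : ℤ) (i : Fin n) : sc k i.succ = (2 : ℝ) ^ k := by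
  simp [sc, Fin.succ_ne_zero]

theorem qv_pos (n : ℕ) (k : ℤ) : 0 < qv n k := by
  unfold qv
  positivity

theorem mem_cube_iff {k : ℤ} {m : Fin (n + 1) → ℤ} {z : ST n} : z ∈ cube k m ↔ idx k z = m := by
  constructor
  · intro h
    funext j
    exact Int.floor_eq_iff.2 (h j)
  · intro h j
    exact Int.floor_eq_iff.1 (congrFun h j)

theorem mem_cube_idx (k : ℤ) (z : ST n) : z ∈ cube k (idx k z) :=
  mem_cube_iff.2 rfl

private theorem cubes_measurable_coord (k : ℤ) (j : Fin (n + 1)) :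
    Measurable (fun z : ST n => sc k j * z j) := by
  fun_prop

private theorem cubes_measurableSet_box (k : ℤ) (a b : Fin (n + 1) → ℝ) :
    MeasurableSet {z : ST n | ∀ j, a j ≤ sc k j * z j ∧ sc k j * z j < b j} := by
  have : {z : ST n | ∀ j, a j ≤ sc k j * z j ∧ sc k j * z j < b j} =
      ⋂ j, (fun z : ST n => sc k j * z j) ⁻¹' (Set.Ico (a j) (b j)) := by
    ext z; simp [Set.mem_iInter]
  rw [this]
  exact MeasurableSet.iInter fun j => (cubes_measurable_coord k j) measurableSet_Ico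

theorem measurableSet_cube (k : ℤ) (m : Fin (n + 1) → ℤ) : MeasurableSet (cube k m) :=
  cubes_measurableSet_box k (fun j => (m j : ℝ)) (fun j => (m j : ℝ) + 1)

theorem measurableSet_star (k : ℤ) (m : Fin (n + 1) → ℤ) : MeasurableSet (star k m) :=
  cubes_measurableSet_box k (fun j => (m j : ℝ) - 1) (fun j => (m j : ℝ) + 2)

theorem measurable_idx (k : ℤ) : Measurable (idx (n := n) k) := by
  refine measurable_pi_iff.2 fun j => ?_
  exact Int.measurable_floor.comp (cubes_measurable_coord k j)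

private theorem cubes_prod_sc (k : ℤ) : ∏ j : Fin (n + 1), (sc k j)⁻¹ = qv n k := by
  rw [Fin.prod_univ_succ, sc_zero]
  simp only [sc_succ, Finset.prod_const, Finset.card_univ, Fintype.card_fin]
  unfold qv
  have h4 : (4 : ℝ) ^ k = (2 : ℝ) ^ k * (2 : ℝ) ^ k := by
    rw [← mul_zpow]; norm_num
  rw [h4, mul_inv, pow_add, pow_two]
  ring

private theorem cubes_volume_box (k : ℤ) (a : Fin (n + 1) → ℝ) (c : ℝ) (hc : 0 ≤ c) :
    volume {z : ST n | ∀ j, a j ≤ sc k j * z j ∧ sc k j * z j < a j + c} =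
      ENNReal.ofReal (c ^ (n + 1) * qv n k) := by
  have h1 : {z : ST n | ∀ j, a j ≤ sc k j * z j ∧ sc k j * z j < a j + c} =
      (@WithLp.ofLp 2 (Fin (n + 1) → ℝ)) ⁻¹'
        (Set.pi Set.univ fun j => Set.Ico (a j / sc k j) ((a j + c) / sc k j)) := by
    ext z
    simp only [Set.mem_ofPred_eq, Set.mem_preimage, Set.mem_pi, Set.mem_univ, true_implies,
      Set.mem_Ico]
    refine forall_congr' fun j => ?_
    rw [div_le_iff₀ (sc_pos k j), lt_div_iff₀ (sc_pos k j), mul_comm (sc k j)]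
  rw [h1, (PiLp.volume_preserving_ofLp (Fin (n + 1))).measure_preimage
    (MeasurableSet.univ_pi fun j => measurableSet_Ico).nullMeasurableSet, Real.volume_pi_Ico]
  have h2 : ∀ j : Fin (n + 1), (a j + c) / sc k j - a j / sc k j = c * (sc k j)⁻¹ := by
    intro j
    rw [← sub_div, add_sub_cancel_left, div_eq_mul_inv]
  simp only [h2]
  rw [← ENNReal.ofReal_prod_of_nonneg fun j _ => mul_nonneg hc (inv_nonneg.2 (sc_pos k j).le),
    Finset.prod_mul_distrib, cubes_prod_sc]
  simp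

theorem volume_cube (k : ℤ) (m : Fin (n + 1) → ℤ) :
    volume (cube k m) = ENNReal.ofReal (qv n k) := by
  have := cubes_volume_box k (fun j => (m j : ℝ)) 1 zero_le_one
  rw [one_pow, one_mul] at this
  exact this

theorem volume_star (k : ℤ) (m : Fin (n + 1) → ℤ) :
    volume (star k m) = ENNReal.ofReal (3 ^ (n + 1) * qv n k) := by
  have := cubes_volume_box k (fun j => (m j : ℝ) - 1) 3 (by norm_num)
  rw [← this]
  congr 1
  ext z
  refine forall_congr' fun j => ?_
  rw [show (m j : ℝ) - 1 + 3 = m j + 2 by ring]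

theorem cube_nonempty (k : ℤ) (m : Fin (n + 1) → ℤ) : (cube k m).Nonempty := by
  refine ⟨WithLp.toLp 2 (fun j => (m j : ℝ) / sc k j), fun j => ?_⟩
  have : sc k j * ((m j : ℝ) / sc k j) = m j := by
    rw [mul_div_cancel₀ _ (sc_pos k j).ne']
  simp only [this]
  exact ⟨le_rfl, lt_add_one _⟩

theorem cube_disjoint {k : ℤ} {m m' : Fin (n + 1) → ℤ} (h : m ≠ m') :
    Disjoint (cube k m) (cube k m') := by
  rw [Set.disjoint_left]
  intro z hz hz'
  exact h ((mem_cube_iff.1 hz).symm.trans (mem_cube_iff.1 hz'))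

private theorem cubes_exists_ratio {k k' : ℤ} (h : k ≤ k') (j : Fin (n + 1)) :
    ∃ N : ℕ, 0 < N ∧ ∀ x : ℝ, sc k j * x = (sc k' j * x) / (N : ℝ) := by
  obtain ⟨a, rfl⟩ := Int.le.dest h
  by_cases hj : j = 0
  · refine ⟨4 ^ a, by positivity, fun x => ?_⟩
    subst hj
    rw [sc_zero, sc_zero, zpow_add₀ (by norm_num), zpow_natCast]
    push_cast
    field_simp
  · refine ⟨2 ^ a, by positivity, fun x => ?_⟩
    obtain ⟨i, rfl⟩ := Fin.exists_succ_eq.2 hj
    rw [sc_succ, sc_succ, zpow_add₀ (by norm_num), zpow_natCast]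
    push_cast
    field_simp

private theorem cubes_floor {k k' : ℤ} (h : k ≤ k') (j : Fin (n + 1)) :
    ∃ N : ℕ, 0 < N ∧ ∀ z : ST n, idx k z j = idx k' z j / (N : ℤ) := by
  obtain ⟨N, hN, hx⟩ := cubes_exists_ratio h j
  refine ⟨N, hN, fun z => ?_⟩
  unfold idx
  rw [hx, Int.floor_div_natCast]

theorem idx_eq_of_le {k k' : ℤ} (h : k ≤ k') {z z' : ST n} (hz : idx k' z = idx k' z') :
    idx k z = idx k z' := by
  funext j
  obtain ⟨N, _, hx⟩ := cubes_floor (n := n) h j
  rw [hx, hx, hz]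

theorem cube_subset_or_disjoint {k k' : ℤ} (h : k ≤ k') (m m' : Fin (n + 1) → ℤ) :
    cube k' m' ⊆ cube k m ∨ Disjoint (cube k' m') (cube k m) := by
  by_cases hd : Disjoint (cube k' m') (cube k m)
  · exact Or.inr hd
  · left
    rw [Set.not_disjoint_iff] at hd
    obtain ⟨z, hz', hz⟩ := hd
    intro y hy
    rw [mem_cube_iff] at hy hz hz' ⊢
    rw [← hz]
    exact idx_eq_of_le h (hy.trans hz'.symm)

/-- the set of subcubes of generation `k'` of a given cube of generation `k ≤ k'` is finite -/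
theorem finite_subcubes {k k' : ℤ} (h : k ≤ k') (m : Fin (n + 1) → ℤ) :
    {m' : Fin (n + 1) → ℤ | cube k' m' ⊆ cube k m}.Finite := by
  choose N hN hx using fun j => cubes_floor (n := n) h j
  refine (Set.finite_Icc (fun j => m j * (N j : ℤ)) (fun j => (m j + 1) * (N j : ℤ))).subset ?_
  intro m' hm'
  obtain ⟨z, hz⟩ := cube_nonempty (n := n) k' m'
  have h1 := mem_cube_iff.1 (hm' hz)
  have h2 := mem_cube_iff.1 hz
  have h3 : ∀ j, m j = m' j / (N j : ℤ) := by
    intro j
    rw [← h1, ← h2]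
    exact hx j z
  constructor
  · intro j
    have hNj : (0 : ℤ) < N j := by exact_mod_cast hN j
    show m j * (N j : ℤ) ≤ m' j
    rw [h3 j]
    exact Int.ediv_mul_le _ hNj.ne'
  · intro j
    have hNj : (0 : ℤ) < N j := by exact_mod_cast hN j
    show m' j ≤ (m j + 1) * (N j : ℤ)
    rw [h3 j]
    exact (Int.lt_ediv_add_one_mul_self _ hNj).le

theorem cube_eq_biUnion_subcubes {k k' : ℤ} (h : k ≤ k') (m : Fin (n + 1) → ℤ) :
    cube k m = ⋃ m' ∈ {m' : Fin (n + 1) → ℤ | cube k' m' ⊆ cube k m}, cube k' m' := by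
  ext z
  simp only [Set.mem_iUnion, Set.mem_ofPred_eq, exists_prop]
  constructor
  · intro hz
    refine ⟨idx k' z, ?_, mem_cube_idx k' z⟩
    intro y hy
    rw [mem_cube_iff] at hy hz ⊢
    rw [← hz]
    exact idx_eq_of_le h hy
  · rintro ⟨m', hm', hz⟩
    exact hm' hz

theorem qv_succ (n : ℕ) (k : ℤ) : qv n k = 2 ^ (n + 2) * qv n (k + 1) := by
  unfold qv
  rw [← mul_pow, zpow_add₀ (by norm_num), zpow_one, mul_inv]
  congr 1
  field_simp

theorem lintegral_eq_tsum_cubes (k : ℤ) (f : ST n → ℝ≥0∞) :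
    ∫⁻ z, f z = ∑' m : Fin (n + 1) → ℤ, ∫⁻ z in cube k m, f z := by
  rw [← lintegral_iUnion (fun m => measurableSet_cube k m)
    (fun m m' hmm => cube_disjoint hmm) f]
  have : (⋃ m : Fin (n + 1) → ℤ, cube k m) = (Set.univ : Set (ST n)) := by
    rw [Set.eq_univ_iff_forall]
    intro z
    exact Set.mem_iUnion.2 ⟨idx k z, mem_cube_idx k z⟩
  rw [this, Measure.restrict_univ]

end

end Pool.Agent.W_eb6199
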