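import Pool.Agent.W_eb6199.Defs

open MeasureTheory Complex Filter Topology
open scoped FourierTransform ComplexInnerProductSpace ENNReal NNReal

namespace Pool.Agent.W_eb6199

noncomputable section

variable {n : ℕ}

/-! integral of the exponential weight. -/

theorem integral_exp_neg_mul_abs_sub {a : ℝ} (ha : 0 < a) (x₀ : ℝ) :
    ∫ x : ℝ, Real.exp (-(a * |x - x₀|)) = 2 / a := by
  have h1 : ∫ x : ℝ, Real.exp (-(a * |x - x₀|)) = ∫ x : ℝ, Real.exp (-(a * |x|)) :=
    integral_sub_right_eq_self (fun x => Real.exp (-(a * |x|))) x₀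
  have h2 : ∫ x : ℝ, Real.exp (-(a * |x|)) = 2 * ∫ x in Set.Ioi (0 : ℝ), Real.exp (-(a * x)) :=
    integral_comp_abs (f := fun x => Real.exp (-(a * x)))
  have h3 : ∫ x in Set.Ioi (0 : ℝ), Real.exp (-(a * x)) = 1 / a := by
    have := integral_exp_mul_Ioi (a := -a) (by linarith) 0
    simp only [neg_mul, mul_zero, neg_zero, Real.exp_zero] at this
    rw [this]
    field_simp
  rw [h1, h2, h3]
  ring

theorem integrable_exp_neg_mul_abs_sub {a : ℝ} (ha : 0 < a) (x₀ : ℝ) :
    Integrable (fun x : ℝ => Real.exp (-(a * |x - x₀|))) := by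
  refine Integrable.of_integral_ne_zero ?_
  rw [integral_exp_neg_mul_abs_sub ha]
  positivity

/-- the scales of the coordinates -/
def dwS (l : ℝ) (j : Fin (n + 1)) : ℝ := if j = 0 then l ^ 2 else l

theorem dwS_pos {l : ℝ} (hl : 0 < l) (j : Fin (n + 1)) : 0 < dwS l j := by
  unfold dwS
  split_ifs <;> positivity

theorem Dw_lower {l : ℝ} (hl : 0 < l) (z₀ z : ST n) :
    ∑ j, (1 / ((n + 1 : ℝ) * dwS l j)) * |z j - z₀ j| ≤ Dw l z₀ z / l := by
  have hn : (0 : ℝ) < n + 1 := by positivity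
  rw [Fin.sum_univ_succ]
  have h0 : dwS l (0 : Fin (n + 1)) = l ^ 2 := by simp [dwS]
  have hs : ∀ i : Fin n, dwS l i.succ = l := by intro i; simp [dwS, Fin.succ_ne_zero]
  simp only [h0, hs]
  set A := Real.sqrt (l ^ 2 + ∑ i : Fin n, (z i.succ - z₀ i.succ) ^ 2) with hA
  set B := Real.sqrt (l ^ 4 + (z 0 - z₀ 0) ^ 2) with hB
  have hA0 : 0 ≤ A := Real.sqrt_nonneg _
  have hAi : ∀ i : Fin n, |z i.succ - z₀ i.succ| ≤ A := by
    intro i
    refine Real.abs_le_sqrt ?_
    have := Finset.single_le_sum (f := fun i : Fin n => (z i.succ - z₀ i.succ) ^ 2)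
      (fun _ _ => sq_nonneg _) (Finset.mem_univ i)
    simp only at this
    nlinarith [sq_nonneg l]
  have hB' : |z 0 - z₀ 0| ≤ B := by
    refine Real.abs_le_sqrt ?_
    nlinarith [pow_nonneg hl.le 4]
  have hsum : ∑ i : Fin n, |z i.succ - z₀ i.succ| ≤ (n + 1) * A := by
    calc ∑ i : Fin n, |z i.succ - z₀ i.succ| ≤ ∑ _i : Fin n, A :=
          Finset.sum_le_sum fun i _ => hAi i
      _ = n * A := by simp
      _ ≤ (n + 1) * A := by nlinarith
  have e1 : Dw l z₀ z / l = A / l + B / l ^ 2 := by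
    unfold Dw
    rw [← hA, ← hB]
    field_simp
  rw [e1, ← Finset.mul_sum, add_comm (A / l)]
  refine add_le_add ?_ ?_
  · rw [div_mul_eq_mul_div, one_mul, div_le_div_iff₀ (by positivity) (by positivity)]
    have : |z 0 - z₀ 0| ≤ (n + 1) * B := by
      nlinarith [abs_nonneg (z 0 - z₀ 0), (Nat.cast_nonneg n : (0 : ℝ) ≤ n)]
    nlinarith [sq_nonneg l]
  · rw [div_mul_eq_mul_div, one_mul, div_le_div_iff₀ (by positivity) (by positivity)]
    nlinarith

/-- Gaussian type integral: `∫ exp(-c Dw/l) ≤ C l^{n+2}` -/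
theorem exists_lintegral_exp_Dw (n : ℕ) {c : ℝ} (hc : 0 < c) : ∃ C : ℝ, 0 < C ∧ ∀ l : ℝ, 0 < l →
    ∀ z₀ : ST n, ∫⁻ z, ENNReal.ofReal (Real.exp (-(c * (Dw l z₀ z / l))))
      ≤ ENNReal.ofReal (C * l ^ (n + 2)) := by
  refine ⟨(2 * (n + 1) / c) ^ (n + 1), by positivity, fun l hl z₀ => ?_⟩
  have hn : (0 : ℝ) < n + 1 := by positivity
  set a : Fin (n + 1) → ℝ := fun j => c / ((n + 1 : ℝ) * dwS l j) with ha
  have hapos : ∀ j, 0 < a j := fun j => div_pos hc (mul_pos hn (dwS_pos hl j))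
  set f : (Fin (n + 1) → ℝ) → ℝ := fun y => ∏ j, Real.exp (-(a j * |y j - z₀ j|)) with hf
  have hint : Integrable f := by
    exact Integrable.fintype_prod fun j => integrable_exp_neg_mul_abs_sub (hapos j) (z₀ j)
  have hval : ∫ y, f y = (2 * (n + 1) / c) ^ (n + 1) * l ^ (n + 2) := by
    rw [hf, integral_fintype_prod_volume_eq_prod
      (fun (j : Fin (n + 1)) (x : ℝ) => Real.exp (-(a j * |x - z₀ j|)))]
    simp_rw [integral_exp_neg_mul_abs_sub (hapos _)]
    have h0 : a 0 = c / ((n + 1 : ℝ) * l ^ 2) := by simp [ha, dwS]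
    have hs : ∀ i : Fin n, a i.succ = c / ((n + 1 : ℝ) * l) := by
      intro i; simp [ha, dwS, Fin.succ_ne_zero]
    rw [Fin.prod_univ_succ]
    simp only [h0, hs, Finset.prod_const, Finset.card_univ, Fintype.card_fin]
    have e0 : 2 / (c / ((n + 1 : ℝ) * l ^ 2)) = (2 * (n + 1) / c) * l ^ 2 := by
      field_simp
    have e1 : 2 / (c / ((n + 1 : ℝ) * l)) = (2 * (n + 1) / c) * l := by
      field_simp
    rw [e0, e1, mul_pow]
    ring
  have hmp := PiLp.volume_preserving_ofLp (Fin (n + 1))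
  have hint' : Integrable (fun z : ST n => f (WithLp.ofLp z)) :=
    hmp.integrable_comp_of_integrable hint
  calc ∫⁻ z, ENNReal.ofReal (Real.exp (-(c * (Dw l z₀ z / l))))
      ≤ ∫⁻ z : ST n, ENNReal.ofReal (f (WithLp.ofLp z)) := by
        refine lintegral_mono fun z => ENNReal.ofReal_le_ofReal ?_
        rw [hf]
        simp only
        rw [← Real.exp_sum]
        refine Real.exp_le_exp.2 ?_
        rw [Finset.sum_neg_distrib, neg_le_neg_iff]
        have h := mul_le_mul_of_nonneg_left (Dw_lower hl z₀ z) hc.le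
        refine le_trans (le_of_eq ?_) h
        rw [Finset.mul_sum]
        refine Finset.sum_congr rfl fun j _ => ?_
        simp only [ha]
        ring
    _ = ENNReal.ofReal (∫ z : ST n, f (WithLp.ofLp z)) := by
        rw [ofReal_integral_eq_lintegral_ofReal hint']
        exact Filter.Eventually.of_forall fun z =>
          Finset.prod_nonneg fun j _ => (Real.exp_pos _).le
    _ = ENNReal.ofReal ((2 * (n + 1) / c) ^ (n + 1) * l ^ (n + 2)) := by
        rw [← hval]
        congr 1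
        exact hmp.integral_comp (MeasurableEquiv.toLp 2 (Fin (n + 1) → ℝ)).symm.measurableEmbedding f
    _ ≤ _ := le_rfl

end

end Pool.Agent.W_eb6199
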