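import Pool.Agent.W_eb6199.Defs

open MeasureTheory Complex Filter Topology
open scoped FourierTransform ComplexInnerProductSpace ENNReal NNReal

namespace Pool.Agent.W_eb6199

noncomputable section

variable {n : ℕ}

/-! T18: the parabolic weight function `Dw`. -/

theorem dw_contDiff_coord (j : Fin (n + 1)) : ContDiff ℝ 1 (fun z : ST n => z j) :=
  (EuclideanSpace.proj j : ST n →L[ℝ] ℝ).contDiff

theorem contDiff_Dw {l : ℝ} (hl : 0 < l) (z₀ : ST n) : ContDiff ℝ 1 (Dw l z₀) := by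
  unfold Dw
  have h1 : ContDiff ℝ 1 (fun z : ST n => l ^ 2 + ∑ i : Fin n, (z i.succ - z₀ i.succ) ^ 2) := by
    refine contDiff_const.add (ContDiff.sum fun i _ => ?_)
    exact ((dw_contDiff_coord _).sub contDiff_const).pow 2
  have h2 : ContDiff ℝ 1 (fun z : ST n => l ^ 4 + (z 0 - z₀ 0) ^ 2) :=
    contDiff_const.add (((dw_contDiff_coord _).sub contDiff_const).pow 2)
  refine (h1.sqrt fun z => ?_).add ((h2.sqrt fun z => ?_).div_const l)
  · have : 0 ≤ ∑ i : Fin n, (z i.succ - z₀ i.succ) ^ 2 := Finset.sum_nonneg fun _ _ => sq_nonneg _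
    positivity
  · positivity

/-- the space part of `Dw` -/
def dwX (l : ℝ) (w : Fin n → ℝ) : ℝ := Real.sqrt (l ^ 2 + ∑ i, w i ^ 2)

/-- the time part of `Dw` -/
def dwT (l : ℝ) (s : ℝ) : ℝ := Real.sqrt (l ^ 4 + s ^ 2)

theorem Dw_eq (l : ℝ) (z₀ z : ST n) :
    Dw l z₀ z = dwX l (fun i => z i.succ - z₀ i.succ) + dwT l (z 0 - z₀ 0) / l := rfl

theorem dwX_eq_norm (l : ℝ) (w : Fin n → ℝ) :
    dwX l w = ‖(WithLp.toLp 2 (Fin.cons l w : Fin (n + 1) → ℝ) : EuclideanSpace ℝ (Fin (n + 1)))‖ := by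
  rw [EuclideanSpace.norm_eq, Fin.sum_univ_succ]
  simp [dwX]

theorem dwX_le (l : ℝ) (w w' : Fin n → ℝ) :
    dwX l w ≤ dwX l w' + Real.sqrt (∑ i, (w i - w' i) ^ 2) := by
  have h : dwX 0 (fun i => w i - w' i) = Real.sqrt (∑ i, (w i - w' i) ^ 2) := by
    simp [dwX]
  rw [← h, dwX_eq_norm, dwX_eq_norm, dwX_eq_norm]
  refine le_trans (le_of_eq ?_) (norm_add_le _ _)
  congr 1
  ext j
  refine Fin.cases ?_ (fun i => ?_) j
  · simp
  · simp

theorem dwT_le (l : ℝ) (s s' : ℝ) : dwT l s ≤ dwT l s' + |s - s'| := by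
  have h := dwX_le (n := 1) (l ^ 2) (fun _ => s) (fun _ => s')
  simp only [dwX, Finset.univ_unique, Finset.sum_const, Finset.card_singleton, one_smul,
    Real.sqrt_sq_eq_abs] at h
  have e : (l ^ 2) ^ 2 = l ^ 4 := by ring
  rw [e] at h
  exact h

theorem abs_dwT_sub_le (l : ℝ) (s s' : ℝ) : |dwT l s - dwT l s'| ≤ |s - s'| := by
  rw [abs_sub_le_iff]
  constructor
  · linarith [dwT_le l s s']
  · have := dwT_le l s' s
    rw [abs_sub_comm] at this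
    linarith

theorem le_dwX {l : ℝ} (_hl : 0 < l) (w : Fin n → ℝ) : l ≤ dwX l w := by
  refine Real.le_sqrt_of_sq_le ?_
  have : 0 ≤ ∑ i : Fin n, w i ^ 2 := Finset.sum_nonneg fun _ _ => sq_nonneg _
  linarith

theorem abs_le_dwX (l : ℝ) (w : Fin n → ℝ) (i : Fin n) : |w i| ≤ dwX l w := by
  refine Real.abs_le_sqrt ?_
  have := Finset.single_le_sum (f := fun i : Fin n => w i ^ 2)
    (fun _ _ => sq_nonneg _) (Finset.mem_univ i)
  nlinarith [sq_nonneg l]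

theorem sq_le_dwT (l : ℝ) (s : ℝ) : l ^ 2 ≤ dwT l s := by
  refine Real.le_sqrt_of_sq_le ?_
  nlinarith [sq_nonneg s]

theorem abs_le_dwT (l : ℝ) (s : ℝ) : |s| ≤ dwT l s := by
  refine Real.abs_le_sqrt ?_
  nlinarith [sq_nonneg (l ^ 2)]

theorem two_mul_le_Dw {l : ℝ} (hl : 0 < l) (z₀ z : ST n) : 2 * l ≤ Dw l z₀ z := by
  rw [Dw_eq]
  have h1 := le_dwX hl (fun i => z i.succ - z₀ i.succ)
  have h2 : l ≤ dwT l (z 0 - z₀ 0) / l := by
    rw [le_div_iff₀ hl]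
    nlinarith [sq_le_dwT l (z 0 - z₀ 0)]
  linarith

theorem Dw_nonneg {l : ℝ} (hl : 0 < l) (z₀ z : ST n) : 0 ≤ Dw l z₀ z := by
  linarith [two_mul_le_Dw hl z₀ z]

theorem Dw_comm (l : ℝ) (z₀ z : ST n) : Dw l z₀ z = Dw l z z₀ := by
  have h1 : ∑ i : Fin n, (z i.succ - z₀ i.succ) ^ 2 = ∑ i : Fin n, (z₀ i.succ - z i.succ) ^ 2 :=
    Finset.sum_congr rfl fun i _ => by ring
  have h2 : (z 0 - z₀ 0) ^ 2 = (z₀ 0 - z 0) ^ 2 := by ring
  unfold Dw
  rw [h1, h2]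

theorem dw_abs_fderiv_le {f : ST n → ℝ} {z v : ST n} {K : ℝ} (hK : 0 ≤ K)
    (hf : DifferentiableAt ℝ f z) (h : ∀ t : ℝ, |f (z + t • v) - f z| ≤ K * |t|) :
    |fderiv ℝ f z v| ≤ K := by
  have h1 : HasDerivAt (fun t : ℝ => f (z + t • v)) (fderiv ℝ f z v) 0 := by
    have h2 : HasDerivAt (fun t : ℝ => z + t • v) v 0 := by
      simpa using ((hasDerivAt_id (0 : ℝ)).smul_const v).const_add z
    have h3 : HasFDerivAt f (fderiv ℝ f z) (z + (0 : ℝ) • v) := by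
      simpa using hf.hasFDerivAt
    exact h3.comp_hasDerivAt 0 h2
  rw [← Real.norm_eq_abs]
  refine h1.le_of_lip' hK (Filter.Eventually.of_forall fun t => ?_)
  simpa [Real.norm_eq_abs] using h t

theorem dw_ev_self (j : Fin (n + 1)) : (ev j : ST n) j = 1 := by
  simp [ev]

theorem dw_ev_ne {j k : Fin (n + 1)} (h : k ≠ j) : (ev j : ST n) k = 0 := by
  simp [ev, h]

theorem abs_Dw_add_succ (l : ℝ) (z₀ z : ST n) (i : Fin n) (t : ℝ) :
    |Dw l z₀ (z + t • ev i.succ) - Dw l z₀ z| ≤ |t| := by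
  have h0 : (z + t • ev i.succ : ST n) 0 = z 0 := by
    simp [dw_ev_ne (Fin.succ_ne_zero i).symm]
  have hs : Real.sqrt (∑ k : Fin n, (((z + t • ev i.succ : ST n) k.succ - z₀ k.succ) -
      (z k.succ - z₀ k.succ)) ^ 2) = |t| := by
    rw [← Real.sqrt_sq_eq_abs]
    congr 1
    rw [Finset.sum_eq_single i]
    · simp [dw_ev_self]
    · intro k _ hk
      have : (ev i.succ : ST n) k.succ = 0 := dw_ev_ne (fun h => hk (Fin.succ_injective _ h))
      simp [this]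
    · simp
  have hs' : Real.sqrt (∑ k : Fin n, ((z k.succ - z₀ k.succ) -
      ((z + t • ev i.succ : ST n) k.succ - z₀ k.succ)) ^ 2) = |t| := by
    rw [← hs]
    congr 1
    refine Finset.sum_congr rfl fun k _ => ?_
    ring
  rw [Dw_eq, Dw_eq, h0, abs_sub_le_iff]
  have h1 := dwX_le l (fun k => (z + t • ev i.succ : ST n) k.succ - z₀ k.succ)
    (fun k => z k.succ - z₀ k.succ)
  have h2 := dwX_le l (fun k => z k.succ - z₀ k.succ)
    (fun k => (z + t • ev i.succ : ST n) k.succ - z₀ k.succ)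
  rw [hs] at h1
  rw [hs'] at h2
  constructor <;> linarith

theorem abs_Dw_add_zero {l : ℝ} (hl : 0 < l) (z₀ z : ST n) (t : ℝ) :
    |Dw l z₀ (z + t • ev 0) - Dw l z₀ z| ≤ 1 / l * |t| := by
  have h0 : (z + t • ev 0 : ST n) 0 = z 0 + t := by
    simp [dw_ev_self]
  have hs : ∀ k : Fin n, (z + t • ev 0 : ST n) k.succ = z k.succ := by
    intro k
    simp [dw_ev_ne (Fin.succ_ne_zero k)]
  rw [Dw_eq, Dw_eq, h0]
  simp only [hs]
  have h := abs_dwT_sub_le l (z 0 + t - z₀ 0) (z 0 - z₀ 0)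
  have e : z 0 + t - z₀ 0 - (z 0 - z₀ 0) = t := by ring
  rw [e] at h
  have e2 : dwX l (fun i => z i.succ - z₀ i.succ) + dwT l (z 0 + t - z₀ 0) / l -
      (dwX l (fun i => z i.succ - z₀ i.succ) + dwT l (z 0 - z₀ 0) / l) =
      (dwT l (z 0 + t - z₀ 0) - dwT l (z 0 - z₀ 0)) / l := by ring
  rw [e2, abs_div, abs_of_pos hl, div_mul_eq_mul_div, one_mul]
  gcongr

theorem abs_fderiv_Dw_succ {l : ℝ} (hl : 0 < l) (z₀ z : ST n) (i : Fin n) :
    |fderiv ℝ (Dw l z₀) z (ev i.succ)| ≤ 1 := by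
  refine dw_abs_fderiv_le zero_le_one ((contDiff_Dw hl z₀).differentiable (by norm_num) z) ?_
  intro t
  rw [one_mul]
  exact abs_Dw_add_succ l z₀ z i t

theorem abs_fderiv_Dw_zero {l : ℝ} (hl : 0 < l) (z₀ z : ST n) :
    |fderiv ℝ (Dw l z₀) z (ev 0)| ≤ 1 / l := by
  refine dw_abs_fderiv_le (by positivity) ((contDiff_Dw hl z₀).differentiable (by norm_num) z) ?_
  intro t
  exact abs_Dw_add_zero hl z₀ z t

theorem Dw_triangle {l : ℝ} (hl : 0 < l) (z₀ z₁ z : ST n) :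
    Dw l z₀ z ≤ Dw l z₁ z + Dw l z₀ z₁ := by
  rw [Dw_eq, Dw_eq, Dw_eq]
  have h1 := dwX_le l (fun i => z i.succ - z₀ i.succ) (fun i => z i.succ - z₁ i.succ)
  have h2 : Real.sqrt (∑ i : Fin n, (z i.succ - z₀ i.succ - (z i.succ - z₁ i.succ)) ^ 2) ≤
      dwX l (fun i => z₁ i.succ - z₀ i.succ) := by
    unfold dwX
    refine Real.sqrt_le_sqrt ?_
    have : ∑ i : Fin n, (z i.succ - z₀ i.succ - (z i.succ - z₁ i.succ)) ^ 2 =
        ∑ i : Fin n, (z₁ i.succ - z₀ i.succ) ^ 2 :=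
      Finset.sum_congr rfl fun i _ => by ring
    rw [this]
    nlinarith [sq_nonneg l]
  have h3 := dwT_le l (z 0 - z₀ 0) (z 0 - z₁ 0)
  have h4 : |z 0 - z₀ 0 - (z 0 - z₁ 0)| ≤ dwT l (z₁ 0 - z₀ 0) := by
    have e : z 0 - z₀ 0 - (z 0 - z₁ 0) = z₁ 0 - z₀ 0 := by ring
    rw [e]
    exact abs_le_dwT l _
  have h5 : dwT l (z 0 - z₀ 0) / l ≤ dwT l (z 0 - z₁ 0) / l + dwT l (z₁ 0 - z₀ 0) / l := by
    rw [← add_div]
    gcongr
    linarith
  linarith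

theorem abs_Dw_sub_time {l : ℝ} (hl : 0 < l) (z₀ z : ST n) (s : ℝ) :
    |Dw l z₀ z - Dw l z₀ (z - s • ev 0)| ≤ |s| / l := by
  have h := abs_Dw_add_zero hl z₀ z (-s)
  rw [abs_neg, neg_smul, ← sub_eq_add_neg, abs_sub_comm] at h
  rw [div_eq_inv_mul, ← one_div]
  exact h

theorem dw_abs_frac_sub_le {c δ s s' : ℝ} (hc : 0 ≤ c) (hδ : 0 < δ) (hs : 0 ≤ s) (hs' : 0 ≤ s') :
    |c * s / (1 + δ * s) - c * s' / (1 + δ * s')| ≤ c * |s - s'| := by
  have h1 : 0 < 1 + δ * s := by positivity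
  have h2 : 0 < 1 + δ * s' := by positivity
  have e : c * s / (1 + δ * s) - c * s' / (1 + δ * s') =
      c * (s - s') / ((1 + δ * s) * (1 + δ * s')) := by
    field_simp
    ring
  rw [e, abs_div, abs_mul, abs_of_nonneg hc, abs_of_pos (mul_pos h1 h2)]
  refine div_le_self (by positivity) ?_
  have : 1 ≤ 1 + δ * s := by nlinarith [mul_nonneg hδ.le hs]
  have : 1 ≤ 1 + δ * s' := by nlinarith [mul_nonneg hδ.le hs']
  nlinarith

theorem abs_wt_sub_le' {c l δ : ℝ} (hc : 0 ≤ c) (hl : 0 < l) (hδ : 0 < δ) (z₀ z z' : ST n) :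
    |wt c l δ z₀ z - wt c l δ z₀ z'| ≤ c / l * |Dw l z₀ z - Dw l z₀ z'| := by
  unfold wt
  refine (dw_abs_frac_sub_le hc hδ (div_nonneg (Dw_nonneg hl _ _) hl.le)
    (div_nonneg (Dw_nonneg hl _ _) hl.le)).trans (le_of_eq ?_)
  rw [← sub_div, abs_div, abs_of_pos hl]
  ring

theorem wt_nonneg {c l δ : ℝ} (hc : 0 ≤ c) (hl : 0 < l) (hδ : 0 < δ) (z₀ z : ST n) :
    0 ≤ wt c l δ z₀ z := by
  have := Dw_nonneg hl z₀ z
  unfold wt
  positivity

theorem wt_le {c l δ : ℝ} (hc : 0 ≤ c) (hl : 0 < l) (hδ : 0 < δ) (z₀ z : ST n) :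
    wt c l δ z₀ z ≤ c * (Dw l z₀ z / l) := by
  have := Dw_nonneg hl z₀ z
  unfold wt
  refine div_le_self (by positivity) ?_
  have : 0 ≤ δ * (Dw l z₀ z / l) := by positivity
  linarith

theorem contDiff_wt {c l δ : ℝ} (hl : 0 < l) (hδ : 0 < δ) (z₀ : ST n) :
    ContDiff ℝ 1 (wt c l δ z₀) := by
  unfold wt
  have h := (contDiff_Dw hl z₀).div_const l
  refine (contDiff_const.mul h).div (contDiff_const.add (contDiff_const.mul h)) fun z => ?_
  have := Dw_nonneg hl z₀ z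
  positivity

theorem wt_le_div {c l δ : ℝ} (hc : 0 ≤ c) (hl : 0 < l) (hδ : 0 < δ) (z₀ z : ST n) :
    wt c l δ z₀ z ≤ c / δ := by
  have := Dw_nonneg hl z₀ z
  unfold wt
  rw [div_le_div_iff₀ (by positivity) hδ]
  nlinarith [mul_nonneg hc (div_nonneg this hl.le)]

/-- truncated weights are admissible at all smaller scales -/
theorem Wt_wt {κ μ l δ : ℝ} (hκ : 0 ≤ κ) (hμ : 0 < μ) (hμl : μ ≤ l) (hδ : 0 < δ) (z₀ : ST n) :
    Wt κ μ (wt (κ * l / μ) l δ z₀) := by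
  have hl : 0 < l := lt_of_lt_of_le hμ hμl
  have hc : 0 ≤ κ * l / μ := by positivity
  have hcl : κ * l / μ / l = κ / μ := by field_simp
  refine ⟨contDiff_wt hl hδ z₀, ⟨κ * l / μ / δ, fun z => ?_⟩, fun z i => ?_, fun z => ?_⟩
  · rw [abs_of_nonneg (wt_nonneg hc hl hδ z₀ z)]
    exact wt_le_div hc hl hδ z₀ z
  · refine dw_abs_fderiv_le (by positivity) ((contDiff_wt hl hδ z₀).differentiable (by norm_num) z) ?_
    intro t
    refine (abs_wt_sub_le' hc hl hδ z₀ _ _).trans ?_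
    rw [hcl]
    exact mul_le_mul_of_nonneg_left (abs_Dw_add_succ l z₀ z i t) (by positivity)
  · refine dw_abs_fderiv_le (by positivity) ((contDiff_wt hl hδ z₀).differentiable (by norm_num) z) ?_
    intro t
    refine (abs_wt_sub_le' hc hl hδ z₀ _ _).trans ?_
    rw [hcl]
    calc κ / μ * |Dw l z₀ (z + t • ev 0) - Dw l z₀ z| ≤ κ / μ * (1 / l * |t|) :=
          mul_le_mul_of_nonneg_left (abs_Dw_add_zero hl z₀ z t) (by positivity)
      _ ≤ κ / μ * (1 / μ * |t|) := by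
          gcongr
      _ = κ / μ ^ 2 * |t| := by
          field_simp

theorem Wt_wt_self {κ l δ : ℝ} (hκ : 0 ≤ κ) (hl : 0 < l) (hδ : 0 < δ) (z₀ : ST n) :
    Wt κ l (wt κ l δ z₀) := by
  have h := Wt_wt hκ hl le_rfl hδ z₀
  have e : κ * l / l = κ := by field_simp
  rwa [e] at h

theorem tendsto_wt {c l : ℝ} (hl : 0 < l) (z₀ z : ST n) :
    Tendsto (fun δ => wt c l δ z₀ z) (𝓝[>] 0) (𝓝 (c * (Dw l z₀ z / l))) := by
  unfold wt
  have h : ContinuousAt (fun δ : ℝ => c * (Dw l z₀ z / l) / (1 + δ * (Dw l z₀ z / l))) 0 := by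
    refine ContinuousAt.div continuousAt_const (by fun_prop) (by simp)
  have h2 := h.tendsto
  simp only [zero_mul, add_zero, div_one] at h2
  exact h2.mono_left nhdsWithin_le_nhds

/-- the truncated weight is `c`-Lipschitz with respect to `Dw / l` -/
theorem abs_wt_sub_le {c l δ : ℝ} (hc : 0 ≤ c) (hl : 0 < l) (hδ : 0 < δ) (z₀ z z' : ST n) :
    |wt c l δ z₀ z - wt c l δ z₀ z'| ≤ c * (Dw l z z' / l) := by
  refine (abs_wt_sub_le' hc hl hδ z₀ z z').trans ?_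
  have h : |Dw l z₀ z - Dw l z₀ z'| ≤ Dw l z z' := by
    rw [abs_sub_le_iff]
    constructor
    · have := Dw_triangle hl z₀ z' z
      rw [Dw_comm l z' z] at this
      linarith
    · have := Dw_triangle hl z₀ z z'
      linarith
  calc c / l * |Dw l z₀ z - Dw l z₀ z'| ≤ c / l * Dw l z z' := by gcongr
    _ = c * (Dw l z z' / l) := by ring

theorem dw_sc_zero (k : ℤ) : sc k (0 : Fin (n + 1)) = (4 : ℝ) ^ k := by simp [sc]

theorem dw_sc_succ (k : ℤ) (i : Fin n) : sc k i.succ = (2 : ℝ) ^ k := by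
  simp [sc, Fin.succ_ne_zero]

theorem dw_four_zpow (k : ℤ) : (4 : ℝ) ^ k = ((2 : ℝ) ^ k) ^ 2 := by
  rw [show (4 : ℝ) = 2 ^ 2 by norm_num, ← zpow_natCast, ← zpow_natCast, ← zpow_mul, ← zpow_mul,
    mul_comm]

theorem Dw_le_of_mem_cube {k : ℤ} {m : Fin (n + 1) → ℤ} {l : ℝ} (hl : ((2 : ℝ) ^ k)⁻¹ ≤ l)
    {z z₀ : ST n} (hz : z ∈ cube k m) (hz₀ : z₀ ∈ cube k m) : Dw l z₀ z ≤ (n + 3) * l := by
  have hp : (0 : ℝ) < 2 ^ k := by positivity
  have hl0 : 0 < l := lt_of_lt_of_le (inv_pos.2 hp) hl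
  have hpl : 1 ≤ 2 ^ k * l := by
    rw [inv_le_iff_one_le_mul₀' hp] at hl
    linarith
  have hx : ∀ i : Fin n, |z i.succ - z₀ i.succ| ≤ l := by
    intro i
    have h1 := hz i.succ
    have h2 := hz₀ i.succ
    rw [dw_sc_succ] at h1 h2
    have h3 : |(2 : ℝ) ^ k * (z i.succ - z₀ i.succ)| ≤ 1 := by
      rw [abs_le]
      constructor <;> linarith
    rw [abs_mul, abs_of_pos hp] at h3
    nlinarith [abs_nonneg (z i.succ - z₀ i.succ)]
  have ht : |z 0 - z₀ 0| ≤ l ^ 2 := by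
    have h1 := hz 0
    have h2 := hz₀ 0
    rw [dw_sc_zero] at h1 h2
    have hp4 : (0 : ℝ) < 4 ^ k := by positivity
    have h3 : |(4 : ℝ) ^ k * (z 0 - z₀ 0)| ≤ 1 := by
      rw [abs_le]
      constructor <;> linarith
    rw [abs_mul, abs_of_pos hp4] at h3
    have h4 : 1 ≤ 4 ^ k * l ^ 2 := by
      rw [dw_four_zpow, ← mul_pow]
      exact one_le_pow₀ hpl
    by_contra hcon
    push Not at hcon
    nlinarith [mul_lt_mul_of_pos_left hcon hp4]
  rw [Dw_eq]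
  have h1 : dwX l (fun i => z i.succ - z₀ i.succ) ≤ (n + 1) * l := by
    unfold dwX
    rw [Real.sqrt_le_iff]
    refine ⟨by positivity, ?_⟩
    have : ∑ i : Fin n, (z i.succ - z₀ i.succ) ^ 2 ≤ ∑ _i : Fin n, l ^ 2 := by
      refine Finset.sum_le_sum fun i _ => ?_
      rw [← sq_abs]
      exact pow_le_pow_left₀ (abs_nonneg _) (hx i) 2
    simp only [Finset.sum_const, Finset.card_univ, Fintype.card_fin, nsmul_eq_mul] at this
    have hn : (0 : ℝ) ≤ n := Nat.cast_nonneg n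
    nlinarith [sq_nonneg l, mul_nonneg hn (sq_nonneg l), mul_nonneg (mul_nonneg hn hn) (sq_nonneg l)]
  have h2 : dwT l (z 0 - z₀ 0) / l ≤ 2 * l := by
    rw [div_le_iff₀ hl0]
    unfold dwT
    rw [Real.sqrt_le_iff]
    refine ⟨by positivity, ?_⟩
    have : (z 0 - z₀ 0) ^ 2 ≤ (l ^ 2) ^ 2 := by
      rw [← sq_abs]
      exact pow_le_pow_left₀ (abs_nonneg _) ht 2
    nlinarith [sq_nonneg (l ^ 2)]
  linarith

/-- points outside `3Q`, shifted slightly in time, are far from `Q` -/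
theorem Dw_ge_of_not_mem_star {k : ℤ} {m : Fin (n + 1) → ℤ} {l : ℝ} (hl0 : 0 < l)
    (hl : l ≤ ((2 : ℝ) ^ k)⁻¹) {z z₀ : ST n} (hz : z ∉ star k m) (hz₀ : z₀ ∈ cube k m)
    {s : ℝ} (hs : |s| ≤ (1 / 2) * ((4 : ℝ) ^ k)⁻¹) :
    (1 / 2) * ((2 : ℝ) ^ k)⁻¹ ≤ Dw l z₀ (z - s • ev 0) := by
  have hp : (0 : ℝ) < 2 ^ k := by positivity
  have hp4 : (0 : ℝ) < 4 ^ k := by positivity
  have hfar : ∃ j, (sc k j)⁻¹ ≤ |z j - z₀ j| := by
    have hz' : ¬ ∀ j, (m j : ℝ) - 1 ≤ sc k j * z j ∧ sc k j * z j < m j + 2 := hz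
    rw [not_forall] at hz'
    obtain ⟨j, hj⟩ := hz'
    refine ⟨j, ?_⟩
    have hsc : 0 < sc k j := by
      unfold sc; split_ifs <;> positivity
    have h0 := hz₀ j
    rw [inv_le_iff_one_le_mul₀' hsc]
    have e : sc k j * |z j - z₀ j| = |sc k j * z j - sc k j * z₀ j| := by
      rw [← mul_sub, abs_mul, abs_of_pos hsc]
    rw [e, le_abs]
    by_cases h1 : (m j : ℝ) - 1 ≤ sc k j * z j
    · have h2 : ¬ sc k j * z j < m j + 2 := fun h => hj ⟨h1, h⟩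
      push Not at h2
      left
      linarith [h0.2]
    · push Not at h1
      right
      linarith [h0.1]
  obtain ⟨j, hj⟩ := hfar
  rcases Fin.eq_zero_or_eq_succ j with rfl | ⟨i, rfl⟩
  · rw [dw_sc_zero] at hj
    have h0 : (z - s • ev 0 : ST n) 0 = z 0 - s := by simp [dw_ev_self]
    have h1 : (1 / 2) * ((4 : ℝ) ^ k)⁻¹ ≤ |z 0 - s - z₀ 0| := by
      have : |z 0 - z₀ 0| ≤ |z 0 - s - z₀ 0| + |s| := by
        have := abs_add_le (z 0 - s - z₀ 0) s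
        have e : z 0 - s - z₀ 0 + s = z 0 - z₀ 0 := by ring
        rwa [e] at this
      linarith
    rw [Dw_eq, h0]
    have h2 := le_dwX hl0 (fun i => (z - s • ev 0 : ST n) i.succ - z₀ i.succ)
    have h3 : (1 / 2) * ((2 : ℝ) ^ k)⁻¹ ≤ dwT l (z 0 - s - z₀ 0) / l := by
      rw [le_div_iff₀ hl0]
      have h4 := abs_le_dwT l (z 0 - s - z₀ 0)
      calc (1 / 2) * ((2 : ℝ) ^ k)⁻¹ * l ≤ (1 / 2) * ((2 : ℝ) ^ k)⁻¹ * ((2 : ℝ) ^ k)⁻¹ := by gcongr
        _ = (1 / 2) * ((4 : ℝ) ^ k)⁻¹ := by rw [dw_four_zpow]; ring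
        _ ≤ dwT l (z 0 - s - z₀ 0) := h1.trans h4
    linarith
  · rw [dw_sc_succ] at hj
    have h0 : (z - s • ev 0 : ST n) i.succ = z i.succ := by
      simp [dw_ev_ne (Fin.succ_ne_zero i)]
    rw [Dw_eq]
    have h2 := abs_le_dwX l (fun i => (z - s • ev 0 : ST n) i.succ - z₀ i.succ) i
    simp only [h0] at h2
    have h3 : 0 ≤ dwT l ((z - s • ev 0 : ST n) 0 - z₀ 0) / l :=
      div_nonneg (Real.sqrt_nonneg _) hl0.le
    have h4 : 0 < ((2 : ℝ) ^ k)⁻¹ := by positivity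
    linarith

end

end Pool.Agent.W_eb6199
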