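import Pool.Agent.W_eb6199.Linf
import Pool.Agent.W_eb6199.DwInt
import Pool.Agent.W_eb6199.DwLemmas
import Pool.Agent.W_eb6199.Cubes

open MeasureTheory Complex Filter Topology
open scoped FourierTransform ComplexInnerProductSpace ENNReal NNReal

namespace Pool.Agent.W_eb6199

noncomputable section

variable {n : ℕ}

/-! T24: almost orthogonality of `J_{r_Q}^m b_Q` for disjoint cubes. -/

private theorem ao_sqrt_div {l : ℝ} (hl : 0 < l) (s : ℝ) :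
    Real.sqrt (l ^ 2 + s) / l = Real.sqrt (1 + s / l ^ 2) := by
  have h : 1 + s / l ^ 2 = (l ^ 2 + s) / l ^ 2 := by field_simp
  rw [h, Real.sqrt_div' _ (by positivity), Real.sqrt_sq hl.le]

private theorem ao_sqrt_div' {l : ℝ} (hl : 0 < l) (s : ℝ) :
    Real.sqrt (l ^ 4 + s) / l / l = Real.sqrt (1 + s / l ^ 4) := by
  have h : 1 + s / l ^ 4 = (l ^ 4 + s) / (l ^ 2) ^ 2 := by field_simp
  rw [h, Real.sqrt_div' _ (by positivity), Real.sqrt_sq (by positivity)]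
  field_simp

private theorem ao_Dw_anti {r' r : ℝ} (hr' : 0 < r') (hr : r' ≤ r) (z₀ z : ST n) :
    Dw r z₀ z / r ≤ Dw r' z₀ z / r' := by
  have hr0 : 0 < r := hr'.trans_le hr
  unfold Dw
  rw [add_div, add_div, ao_sqrt_div hr0, ao_sqrt_div hr', ao_sqrt_div' hr0, ao_sqrt_div' hr']
  have hs : 0 ≤ ∑ i : Fin n, (z i.succ - z₀ i.succ) ^ 2 :=
    Finset.sum_nonneg fun i _ => sq_nonneg _
  gcongr

private def ao_w (c : ℝ) (k : ℤ) (z₀ z : ST n) : ℝ≥0∞ :=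
  ENNReal.ofReal (Real.exp (-(c * (Dw ((2 : ℝ) ^ k)⁻¹ z₀ z * (2 : ℝ) ^ k))))

private theorem ao_measurable_Dw (l : ℝ) (z₀ : ST n) : Measurable (Dw l z₀) := by
  unfold Dw
  fun_prop

private theorem ao_measurable_w (c : ℝ) (k : ℤ) (z₀ : ST n) : Measurable (ao_w c k z₀) := by
  unfold ao_w
  have := ao_measurable_Dw ((2 : ℝ) ^ k)⁻¹ z₀
  fun_prop

private theorem ao_lintegral_w (n : ℕ) {c : ℝ} (hc : 0 < c) : ∃ C : ℝ, 0 < C ∧ ∀ (k : ℤ)
    (z₀ : ST n), ∫⁻ z, ao_w c k z₀ z ≤ ENNReal.ofReal (C * qv n k) := by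
  obtain ⟨C, hC, h⟩ := exists_lintegral_exp_Dw n hc
  refine ⟨C, hC, fun k z₀ => ?_⟩
  have h1 := h ((2 : ℝ) ^ k)⁻¹ (by positivity) z₀
  simpa only [ao_w, qv, div_inv_eq_mul] using h1

private theorem ao_pair (n : ℕ) {c : ℝ} (hc : 0 < c) : ∃ C : ℝ, 0 < C ∧ ∀ (k k' : ℤ), k ≤ k' →
    ∀ (m' : Fin (n + 1) → ℤ) (z₀ z₁ : ST n), z₁ ∈ cube k' m' →
    ∫⁻ z, ao_w c k z₀ z * ao_w c k' z₁ z
      ≤ ENNReal.ofReal C * ∫⁻ z in cube k' m', ao_w (c / 2) k z₀ z := by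
  obtain ⟨C₁, hC₁, h₁⟩ := ao_lintegral_w n (half_pos hc)
  refine ⟨C₁ * Real.exp (c / 2 * (n + 3)), by positivity, fun k k' hk m' z₀ z₁ hz₁ => ?_⟩
  have h2k : (0 : ℝ) < 2 ^ k := by positivity
  have h2k' : (0 : ℝ) < 2 ^ k' := by positivity
  have hle : ((2 : ℝ) ^ k')⁻¹ ≤ ((2 : ℝ) ^ k)⁻¹ := by
    gcongr
    · norm_num
  have hr : (0 : ℝ) < ((2 : ℝ) ^ k)⁻¹ := by positivity
  have hr' : (0 : ℝ) < ((2 : ℝ) ^ k')⁻¹ := by positivity
  set E : ℝ := Real.exp (-(c / 2 * (Dw ((2 : ℝ) ^ k)⁻¹ z₀ z₁ * (2 : ℝ) ^ k))) with hE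
  have hup : ∀ z, ao_w c k z₀ z * ao_w c k' z₁ z ≤ ENNReal.ofReal E * ao_w (c / 2) k' z₁ z := by
    intro z
    have ht := Dw_triangle hr z₀ z z₁
    have ha := ao_Dw_anti hr' hle z₁ z
    rw [Dw_comm _ z z₁] at ht
    rw [div_inv_eq_mul, div_inv_eq_mul] at ha
    have hn : 0 ≤ Dw ((2 : ℝ) ^ k)⁻¹ z₀ z * 2 ^ k :=
      mul_nonneg (Dw_nonneg hr _ _) h2k.le
    have ht' : Dw ((2 : ℝ) ^ k)⁻¹ z₀ z₁ * 2 ^ k
        ≤ Dw ((2 : ℝ) ^ k')⁻¹ z₁ z * 2 ^ k' + Dw ((2 : ℝ) ^ k)⁻¹ z₀ z * 2 ^ k := by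
      calc Dw ((2 : ℝ) ^ k)⁻¹ z₀ z₁ * 2 ^ k
          ≤ (Dw ((2 : ℝ) ^ k)⁻¹ z₁ z + Dw ((2 : ℝ) ^ k)⁻¹ z₀ z) * 2 ^ k := by gcongr
        _ = Dw ((2 : ℝ) ^ k)⁻¹ z₁ z * 2 ^ k + Dw ((2 : ℝ) ^ k)⁻¹ z₀ z * 2 ^ k := by ring
        _ ≤ _ := by gcongr
    unfold ao_w
    rw [← ENNReal.ofReal_mul (Real.exp_pos _).le, ← ENNReal.ofReal_mul (Real.exp_pos _).le,
      ← Real.exp_add, ← Real.exp_add]
    apply ENNReal.ofReal_le_ofReal
    apply Real.exp_le_exp.mpr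
    nlinarith [mul_le_mul_of_nonneg_left ht' hc.le, mul_nonneg hc.le hn]
  have hlow : ∀ z ∈ cube k' m',
      ENNReal.ofReal (E * Real.exp (-(c / 2 * (n + 3)))) ≤ ao_w (c / 2) k z₀ z := by
    intro z hz
    have ht := Dw_triangle hr z₀ z₁ z
    have hd := Dw_le_of_mem_cube (n := n) hle hz hz₁
    have ht' : Dw ((2 : ℝ) ^ k)⁻¹ z₀ z * 2 ^ k
        ≤ (n + 3) + Dw ((2 : ℝ) ^ k)⁻¹ z₀ z₁ * 2 ^ k := by
      calc Dw ((2 : ℝ) ^ k)⁻¹ z₀ z * 2 ^ k
          ≤ ((n + 3) * ((2 : ℝ) ^ k)⁻¹ + Dw ((2 : ℝ) ^ k)⁻¹ z₀ z₁) * 2 ^ k := by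
            gcongr
            linarith
        _ = _ := by field_simp
    unfold ao_w
    apply ENNReal.ofReal_le_ofReal
    rw [hE, ← Real.exp_add]
    apply Real.exp_le_exp.mpr
    nlinarith [mul_le_mul_of_nonneg_left ht' (half_pos hc).le]
  have hI : ENNReal.ofReal (E * Real.exp (-(c / 2 * (n + 3)))) * ENNReal.ofReal (qv n k')
      ≤ ∫⁻ z in cube k' m', ao_w (c / 2) k z₀ z := by
    calc ENNReal.ofReal (E * Real.exp (-(c / 2 * (n + 3)))) * ENNReal.ofReal (qv n k')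
        = ∫⁻ z in cube k' m', ENNReal.ofReal (E * Real.exp (-(c / 2 * (n + 3)))) := by
          rw [lintegral_const, Measure.restrict_apply MeasurableSet.univ, Set.univ_inter,
            volume_cube]
      _ ≤ _ := by
          apply setLIntegral_mono' (measurableSet_cube _ _)
          exact hlow
  have hq : 0 < qv n k' := by unfold qv; positivity
  calc ∫⁻ z, ao_w c k z₀ z * ao_w c k' z₁ z
      ≤ ∫⁻ z, ENNReal.ofReal E * ao_w (c / 2) k' z₁ z := lintegral_mono hup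
    _ = ENNReal.ofReal E * ∫⁻ z, ao_w (c / 2) k' z₁ z := by
        rw [lintegral_const_mul _ (ao_measurable_w _ _ _)]
    _ ≤ ENNReal.ofReal E * ENNReal.ofReal (C₁ * qv n k') := by
        gcongr
        exact h₁ k' z₁
    _ = ENNReal.ofReal (C₁ * Real.exp (c / 2 * (n + 3))) *
          (ENNReal.ofReal (E * Real.exp (-(c / 2 * (n + 3)))) * ENNReal.ofReal (qv n k')) := by
        rw [← ENNReal.ofReal_mul (by positivity), ← ENNReal.ofReal_mul (by positivity),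
          ← ENNReal.ofReal_mul (by positivity)]
        congr 1
        have : Real.exp (c / 2 * (n + 3)) * Real.exp (-(c / 2 * (n + 3))) = 1 := by
          rw [← Real.exp_add]; simp
        linear_combination (-(E * C₁ * qv n k')) * this
    _ ≤ _ := by gcongr

private theorem ao_norm_sq (u : L2 n) : ENNReal.ofReal (‖u‖ ^ 2) = ∫⁻ z, ‖u z‖ₑ ^ 2 := by
  rw [ENNReal.ofReal_pow (norm_nonneg _), ofReal_norm, Lp.enorm_def,
    eLpNorm_eq_lintegral_rpow_enorm_toReal (by norm_num) (by norm_num)]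
  rw [← ENNReal.rpow_natCast, ← ENNReal.rpow_mul]
  simp

private theorem ao_coe_sum {ι : Type*} (s : Finset ι) (v : ι → L2 n) :
    ((∑ q ∈ s, v q : L2 n) : ST n → ℂ) =ᵐ[volume] fun z => ∑ q ∈ s, v q z := by
  classical
  induction s using Finset.induction_on with
  | empty =>
    simp only [Finset.sum_empty]
    exact Lp.coeFn_zero _ _ _
  | insert a s ha ih =>
    rw [Finset.sum_insert ha]
    filter_upwards [Lp.coeFn_add (v a) (∑ q ∈ s, v q), ih] with z h1 h2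
    rw [h1, Pi.add_apply, h2, Finset.sum_insert ha]

theorem exists_almost_orth (A : Coef n) : ∃ m₁ : ℕ, ∀ m : ℕ, m₁ ≤ m → ∃ C : ℝ, 0 < C ∧
    ∀ (F : Finset (ℤ × (Fin (n + 1) → ℤ))),
    (F : Set (ℤ × (Fin (n + 1) → ℤ))).PairwiseDisjoint (fun q => cube q.1 q.2) →
    ∀ (b : ℤ × (Fin (n + 1) → ℤ) → L2 n) (α : ℝ), 0 ≤ α →
    (∀ q ∈ F, SuppIn (b q) (cube q.1 q.2) ∧ N1 (b q) ≤ ENNReal.ofReal (α * qv n q.1)) →
    ‖∑ q ∈ F, (J A ((2 : ℝ) ^ q.1)⁻¹ ^ m) (b q)‖ ^ 2 ≤ C * α ^ 2 * ∑ q ∈ F, qv n q.1 := by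
  obtain ⟨m₁, c, hc, H⟩ := exists_Linf A
  refine ⟨m₁, fun m hm => ?_⟩
  obtain ⟨C, hC, HC⟩ := H m hm
  obtain ⟨C₂, hC₂, h₂⟩ := ao_pair n hc
  obtain ⟨C₁, hC₁, h₁⟩ := ao_lintegral_w n (half_pos hc)
  refine ⟨C ^ 2 * (2 * (C₂ * C₁)), by positivity, fun F hF b α hα hb => ?_⟩
  have hz : ∀ q : ℤ × (Fin (n + 1) → ℤ), ∃ z : ST n, z ∈ cube q.1 q.2 := fun q =>
    cube_nonempty q.1 q.2
  choose zc hzc using hz
  set v : ℤ × (Fin (n + 1) → ℤ) → L2 n := fun q => (J A ((2 : ℝ) ^ q.1)⁻¹ ^ m) (b q) with hv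
  let w : ℤ × (Fin (n + 1) → ℤ) → ST n → ℝ≥0∞ := fun q => ao_w c q.1 (zc q)
  have hw : w = fun q => ao_w c q.1 (zc q) := rfl
  have hq0 : ∀ k : ℤ, 0 < qv n k := fun k => by unfold qv; positivity
  -- pointwise bounds
  have hvw : ∀ q ∈ F, ∀ᵐ z ∂(volume : Measure (ST n)),
      ‖v q z‖ₑ ≤ ENNReal.ofReal (C * α) * w q z := by
    intro q hq
    obtain ⟨hs, hN⟩ := hb q hq
    filter_upwards [HC q.1 q.2 (zc q) (hzc q) (b q) hs] with z hz
    have hN' : (N1 (b q)).toReal ≤ α * qv n q.1 :=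
      ENNReal.toReal_le_of_le_ofReal (mul_nonneg hα (hq0 _).le) hN
    rw [← ofReal_norm]
    simp only [hw, ao_w]
    rw [← ENNReal.ofReal_mul (by positivity)]
    apply ENNReal.ofReal_le_ofReal
    refine hz.trans ?_
    have hqp := hq0 q.1
    have h3 : C / qv n q.1 * (N1 (b q)).toReal ≤ C * α := by
      rw [div_mul_eq_mul_div, div_le_iff₀ hqp]
      nlinarith
    exact mul_le_mul_of_nonneg_right h3 (Real.exp_pos _).le
  have hsum : ∀ᵐ z ∂(volume : Measure (ST n)),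
      ‖(∑ q ∈ F, v q : L2 n) z‖ₑ ≤ ENNReal.ofReal (C * α) * ∑ q ∈ F, w q z := by
    have hall : ∀ᵐ z ∂(volume : Measure (ST n)), ∀ q ∈ F,
        ‖v q z‖ₑ ≤ ENNReal.ofReal (C * α) * w q z := (eventually_all_finset F).2 hvw
    filter_upwards [hall, ao_coe_sum F v] with z h1 h2
    rw [h2, Finset.mul_sum]
    exact (enorm_sum_le _ _).trans (Finset.sum_le_sum h1)
  have hwm : ∀ q, Measurable (w q) := fun q => ao_measurable_w _ _ _
  have hsq : ∀ z, (∑ q ∈ F, w q z) ^ 2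
      ≤ 2 * ∑ q ∈ F, ∑ q' ∈ F.filter (fun q' => q.1 ≤ q'.1), w q z * w q' z := by
    intro z
    rw [sq, Finset.sum_mul_sum]
    calc ∑ q ∈ F, ∑ q' ∈ F, w q z * w q' z
        ≤ ∑ q ∈ F, ∑ q' ∈ F, ((if q.1 ≤ q'.1 then w q z * w q' z else 0)
            + (if q'.1 ≤ q.1 then w q' z * w q z else 0)) := by
          refine Finset.sum_le_sum fun q _ => Finset.sum_le_sum fun q' _ => ?_
          rcases le_total q.1 q'.1 with h | h
          · rw [if_pos h]; exact le_self_add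
          · rw [if_pos h, mul_comm (w q' z)]; exact le_add_self
      _ = ∑ q ∈ F, ∑ q' ∈ F, (if q.1 ≤ q'.1 then w q z * w q' z else 0)
            + ∑ q ∈ F, ∑ q' ∈ F, (if q'.1 ≤ q.1 then w q' z * w q z else 0) := by
          simp only [Finset.sum_add_distrib]
      _ = 2 * ∑ q ∈ F, ∑ q' ∈ F.filter (fun q' => q.1 ≤ q'.1), w q z * w q' z := by
          rw [Finset.sum_comm (f := fun q q' => if q'.1 ≤ q.1 then w q' z * w q z else 0),
            two_mul]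
          simp only [Finset.sum_filter]
  have hint : ∫⁻ z, (∑ q ∈ F, w q z) ^ 2
      ≤ ENNReal.ofReal (2 * (C₂ * C₁) * ∑ q ∈ F, qv n q.1) := by
    calc ∫⁻ z, (∑ q ∈ F, w q z) ^ 2
        ≤ ∫⁻ z, 2 * ∑ q ∈ F, ∑ q' ∈ F.filter (fun q' => q.1 ≤ q'.1), w q z * w q' z :=
          lintegral_mono hsq
      _ = 2 * ∑ q ∈ F, ∑ q' ∈ F.filter (fun q' => q.1 ≤ q'.1), ∫⁻ z, w q z * w q' z := by
          rw [lintegral_const_mul _ (by fun_prop), lintegral_finsetSum _ (by fun_prop)]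
          congr 1
          refine Finset.sum_congr rfl fun q _ => ?_
          rw [lintegral_finsetSum _ (by fun_prop)]
      _ ≤ 2 * ∑ q ∈ F, ENNReal.ofReal (C₂ * C₁ * qv n q.1) := by
          gcongr with q hq
          calc ∑ q' ∈ F.filter (fun q' => q.1 ≤ q'.1), ∫⁻ z, w q z * w q' z
              ≤ ∑ q' ∈ F.filter (fun q' => q.1 ≤ q'.1), ENNReal.ofReal C₂ *
                  ∫⁻ z in cube q'.1 q'.2, ao_w (c / 2) q.1 (zc q) z := by
                refine Finset.sum_le_sum fun q' hq' => ?_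
                exact h₂ q.1 q'.1 (Finset.mem_filter.1 hq').2 q'.2 (zc q) (zc q') (hzc q')
            _ = ENNReal.ofReal C₂ * ∑ q' ∈ F.filter (fun q' => q.1 ≤ q'.1),
                  ∫⁻ z in cube q'.1 q'.2, ao_w (c / 2) q.1 (zc q) z := by
                rw [Finset.mul_sum]
            _ = ENNReal.ofReal C₂ * ∫⁻ z in ⋃ q' ∈ F.filter (fun q' => q.1 ≤ q'.1),
                  cube q'.1 q'.2, ao_w (c / 2) q.1 (zc q) z := by
                rw [lintegral_biUnion_finset (t := fun q' : ℤ × (Fin (n + 1) → ℤ) =>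
                  cube q'.1 q'.2)]
                · refine hF.subset ?_
                  intro q' hq'
                  exact (Finset.mem_filter.1 (Finset.mem_coe.1 hq')).1
                · intro q' _
                  exact measurableSet_cube _ _
            _ ≤ ENNReal.ofReal C₂ * ∫⁻ z, ao_w (c / 2) q.1 (zc q) z := by
                gcongr
                exact Measure.restrict_le_self
            _ ≤ ENNReal.ofReal C₂ * ENNReal.ofReal (C₁ * qv n q.1) := by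
                gcongr
                exact h₁ q.1 (zc q)
            _ = ENNReal.ofReal (C₂ * C₁ * qv n q.1) := by
                rw [← ENNReal.ofReal_mul hC₂.le, mul_assoc]
      _ = ENNReal.ofReal (2 * (C₂ * C₁) * ∑ q ∈ F, qv n q.1) := by
          rw [← ENNReal.ofReal_sum_of_nonneg
            (fun q _ => mul_nonneg (by positivity) (hq0 q.1).le), ← Finset.mul_sum,
            mul_assoc 2 (C₂ * C₁), ENNReal.ofReal_mul (by norm_num : (0 : ℝ) ≤ 2)]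
          norm_num
  have hfin : ENNReal.ofReal (‖∑ q ∈ F, v q‖ ^ 2)
      ≤ ENNReal.ofReal (C ^ 2 * (2 * (C₂ * C₁)) * α ^ 2 * ∑ q ∈ F, qv n q.1) := by
    rw [ao_norm_sq]
    calc ∫⁻ z, ‖(∑ q ∈ F, v q : L2 n) z‖ₑ ^ 2
        ≤ ∫⁻ z, ENNReal.ofReal (C * α) ^ 2 * (∑ q ∈ F, w q z) ^ 2 := by
          apply lintegral_mono_ae
          filter_upwards [hsum] with z hz
          rw [← mul_pow]
          gcongr
      _ = ENNReal.ofReal (C * α) ^ 2 * ∫⁻ z, (∑ q ∈ F, w q z) ^ 2 := by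
          rw [lintegral_const_mul _ (by fun_prop)]
      _ ≤ ENNReal.ofReal (C * α) ^ 2
            * ENNReal.ofReal (2 * (C₂ * C₁) * ∑ q ∈ F, qv n q.1) := by gcongr
      _ = _ := by
          rw [← ENNReal.ofReal_pow (by positivity), ← ENNReal.ofReal_mul (by positivity)]
          congr 1
          ring
  have hS : 0 ≤ ∑ q ∈ F, qv n q.1 := Finset.sum_nonneg fun q _ => (hq0 q.1).le
  exact (ENNReal.ofReal_le_ofReal_iff (by positivity)).1 hfin

end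

end Pool.Agent.W_eb6199
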