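import Pool.Agent.W_eb6199.Defs

open MeasureTheory Complex Filter Topology
open scoped FourierTransform ComplexInnerProductSpace ENNReal NNReal

namespace Pool.Agent.W_eb6199

noncomputable section

variable {n : ℕ}

/-! T01: multiplication operators. -/

theorem norm_mulOp_le {m : ST n → ℂ} (hm : Measurable m) {C : ℝ} (hC : ∀ z, ‖m z‖ ≤ C)
    (u : L2 n) : ‖mulOp m u‖ ≤ C * ‖u‖ := by
  refine Lp.norm_le_mul_norm_of_ae_le_mul ?_
  filter_upwards [mulOp_coe ⟨hm, C, hC⟩ u] with z h1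
  rw [h1, norm_mul]
  exact mul_le_mul_of_nonneg_right (hC z) (norm_nonneg _)

theorem norm_mulOp_mono {m m' : ST n → ℂ} (hm : BM m) (hm' : BM m')
    (h : ∀ z, ‖m z‖ ≤ ‖m' z‖) (u : L2 n) : ‖mulOp m u‖ ≤ ‖mulOp m' u‖ := by
  refine Lp.norm_le_norm_of_ae_le ?_
  filter_upwards [mulOp_coe hm u, mulOp_coe hm' u] with z h1 h2
  rw [h1, h2, norm_mul, norm_mul]
  exact mul_le_mul_of_nonneg_right (h z) (norm_nonneg _)

theorem BM.mul {m m' : ST n → ℂ} (hm : BM m) (hm' : BM m') : BM fun z => m z * m' z := by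
  obtain ⟨C, hC⟩ := hm.bdd
  obtain ⟨C', hC'⟩ := hm'.bdd
  refine ⟨hm.meas.mul hm'.meas, C * C', fun z => ?_⟩
  rw [norm_mul]
  exact mul_le_mul (hC z) (hC' z) (norm_nonneg _) ((norm_nonneg _).trans (hC z))

theorem BM.add {m m' : ST n → ℂ} (hm : BM m) (hm' : BM m') : BM fun z => m z + m' z := by
  obtain ⟨C, hC⟩ := hm.bdd
  obtain ⟨C', hC'⟩ := hm'.bdd
  refine ⟨hm.meas.add hm'.meas, C + C', fun z => ?_⟩
  exact (norm_add_le _ _).trans (add_le_add (hC z) (hC' z))

theorem BM.conj {m : ST n → ℂ} (hm : BM m) : BM fun z => (starRingEnd ℂ) (m z) := by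
  obtain ⟨C, hC⟩ := hm.bdd
  refine ⟨Complex.continuous_conj.measurable.comp hm.meas, C, fun z => ?_⟩
  rw [RCLike.norm_conj]
  exact hC z

theorem BM.const (c : ℂ) : BM (fun _ : ST n => c) :=
  ⟨measurable_const, ‖c‖, fun _ => le_rfl⟩

theorem BM.ind {s : Set (ST n)} (hs : MeasurableSet s) : BM (ind s) := by
  refine ⟨measurable_const.indicator hs, 1, fun z => ?_⟩
  by_cases hz : z ∈ s
  · simp [Pool.Agent.W_eb6199.ind, Set.indicator_of_mem hz]
  · simp [Pool.Agent.W_eb6199.ind, Set.indicator_of_notMem hz]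

theorem mulOp_mulOp {m m' : ST n → ℂ} (hm : BM m) (hm' : BM m') (u : L2 n) :
    mulOp m (mulOp m' u) = mulOp (fun z => m z * m' z) u := by
  ext1
  filter_upwards [mulOp_coe hm (mulOp m' u), mulOp_coe hm' u, mulOp_coe (hm.mul hm') u]
    with z h1 h2 h3
  rw [h1, h2, h3, mul_assoc]

theorem mulOp_comm {m m' : ST n → ℂ} (hm : BM m) (hm' : BM m') (u : L2 n) :
    mulOp m (mulOp m' u) = mulOp m' (mulOp m u) := by
  rw [mulOp_mulOp hm hm', mulOp_mulOp hm' hm]
  congr 2
  funext z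
  exact mul_comm _ _

theorem inner_mulOp {m : ST n → ℂ} (hm : BM m) (u v : L2 n) :
    ⟪mulOp m u, v⟫ = ⟪u, mulOp (fun z => (starRingEnd ℂ) (m z)) v⟫ := by
  rw [L2.inner_def, L2.inner_def]
  refine integral_congr_ae ?_
  filter_upwards [mulOp_coe hm u, mulOp_coe hm.conj v] with z h1 h2
  rw [h1, h2, RCLike.inner_apply, RCLike.inner_apply, map_mul]
  ring

theorem inner_mulOp_right {m : ST n → ℂ} (hm : BM m) (u v : L2 n) :
    ⟪u, mulOp m v⟫ = ⟪mulOp (fun z => (starRingEnd ℂ) (m z)) u, v⟫ := by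
  rw [inner_mulOp hm.conj]
  have h : (fun z => (starRingEnd ℂ) ((starRingEnd ℂ) (m z))) = m := by
    funext z
    exact Complex.conj_conj _
  rw [h]

/-- for real valued symbols the operator is self-adjoint -/
theorem inner_mulOp_real {m : ST n → ℝ} (hm : BM fun z => (m z : ℂ)) (u v : L2 n) :
    ⟪mulOp (fun z => (m z : ℂ)) u, v⟫ = ⟪u, mulOp (fun z => (m z : ℂ)) v⟫ := by
  rw [inner_mulOp hm]
  have h : (fun z => (starRingEnd ℂ) (m z : ℂ)) = fun z => (m z : ℂ) := by
    funext z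
    exact Complex.conj_ofReal _
  rw [h]

theorem mulOp_add {m m' : ST n → ℂ} (hm : BM m) (hm' : BM m') (u : L2 n) :
    mulOp (fun z => m z + m' z) u = mulOp m u + mulOp m' u := by
  ext1
  filter_upwards [mulOp_coe hm u, mulOp_coe hm' u, mulOp_coe (hm.add hm') u,
    Lp.coeFn_add (mulOp m u) (mulOp m' u)] with z h1 h2 h3 h4
  rw [h3, h4, Pi.add_apply, h1, h2, add_mul]

theorem mulOp_const_mul {m : ST n → ℂ} (hm : BM m) (c : ℂ) (u : L2 n) :
    mulOp (fun z => c * m z) u = c • mulOp m u := by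
  ext1
  filter_upwards [mulOp_coe hm u, mulOp_coe ((BM.const c).mul hm) u,
    Lp.coeFn_smul c (mulOp m u)] with z h1 h2 h3
  rw [h2, h3, Pi.smul_apply, h1, smul_eq_mul, mul_assoc]

theorem mulOp_const (c : ℂ) (u : L2 n) : mulOp (fun _ => c) u = c • u := by
  ext1
  filter_upwards [mulOp_coe (BM.const c) u, Lp.coeFn_smul c u] with z h1 h2
  rw [h1, h2, Pi.smul_apply, smul_eq_mul]

theorem integrable_norm_sq (u : L2 n) : Integrable (fun z => ‖u z‖ ^ 2) := by
  have h := (Lp.memLp u).integrable_norm_pow (by norm_num : (2 : ℕ) ≠ 0)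
  simpa using h

theorem norm_sq_eq_integral (u : L2 n) : ‖u‖ ^ 2 = ∫ z, ‖u z‖ ^ 2 := by
  have h : (‖u‖ ^ 2 : ℝ) = RCLike.re (⟪u, u⟫ : ℂ) := by
    rw [inner_self_eq_norm_sq_to_K]
    norm_cast
  rw [h, L2.inner_def, ← integral_re (L2.integrable_inner u u)]
  refine integral_congr_ae (Eventually.of_forall fun z => ?_)
  simp only
  rw [inner_self_eq_norm_sq_to_K]
  norm_cast

theorem ofReal_norm_sq (u : L2 n) : ENNReal.ofReal (‖u‖ ^ 2) = ∫⁻ z, ‖u z‖ₑ ^ 2 := by
  rw [norm_sq_eq_integral, ofReal_integral_eq_lintegral_ofReal (integrable_norm_sq u)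
    (Eventually.of_forall fun z => by positivity)]
  refine lintegral_congr fun z => ?_
  rw [ENNReal.ofReal_pow (norm_nonneg _), ofReal_norm]

/-- dominated convergence for multiplication operators -/
theorem tendsto_mulOp {ι : Type*} {l : Filter ι} [l.IsCountablyGenerated]
    {m : ι → ST n → ℂ} {m₀ : ST n → ℂ} (hm : ∀ k, Measurable (m k)) (hm₀ : Measurable m₀)
    {C : ℝ} (hC : ∀ k z, ‖m k z‖ ≤ C)
    (hlim : ∀ᵐ z ∂(volume : Measure (ST n)), Tendsto (fun k => m k z) l (𝓝 (m₀ z)))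
    (hC₀ : ∀ z, ‖m₀ z‖ ≤ C) (u : L2 n) :
    Tendsto (fun k => mulOp (m k) u) l (𝓝 (mulOp m₀ u)) := by
  rw [tendsto_iff_norm_sub_tendsto_zero]
  have key : Tendsto (fun k => ‖mulOp (m k) u - mulOp m₀ u‖ ^ 2) l (𝓝 0) := by
    have h1 : ∀ k, ‖mulOp (m k) u - mulOp m₀ u‖ ^ 2 = ∫ z, ‖(m k z - m₀ z) * u z‖ ^ 2 := by
      intro k
      rw [norm_sq_eq_integral]
      refine integral_congr_ae ?_
      filter_upwards [mulOp_coe ⟨hm k, C, hC k⟩ u, mulOp_coe ⟨hm₀, C, hC₀⟩ u,
        Lp.coeFn_sub (mulOp (m k) u) (mulOp m₀ u)] with z h1 h2 h3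
      rw [h3, Pi.sub_apply, h1, h2, sub_mul]
    simp_rw [h1]
    have h0 : (0 : ℝ) = ∫ _ : ST n, (0 : ℝ) := by simp
    rw [h0]
    refine tendsto_integral_filter_of_dominated_convergence
      (fun z => (2 * C) ^ 2 * ‖u z‖ ^ 2) ?_ ?_ ((integrable_norm_sq u).const_mul _) ?_
    · refine Eventually.of_forall fun k => ?_
      exact (((hm k).sub hm₀).aestronglyMeasurable.mul (Lp.aestronglyMeasurable u)).norm.pow 2
    · refine Eventually.of_forall fun k => Eventually.of_forall fun z => ?_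
      rw [Real.norm_eq_abs, abs_of_nonneg (by positivity), norm_mul, mul_pow]
      refine mul_le_mul_of_nonneg_right ?_ (by positivity)
      refine pow_le_pow_left₀ (norm_nonneg _) ?_ 2
      calc ‖m k z - m₀ z‖ ≤ ‖m k z‖ + ‖m₀ z‖ := norm_sub_le _ _
        _ ≤ C + C := add_le_add (hC k z) (hC₀ z)
        _ = 2 * C := by ring
    · filter_upwards [hlim] with z hz
      have h2 : Tendsto (fun k => ‖(m k z - m₀ z) * u z‖ ^ 2) l
          (𝓝 (‖(m₀ z - m₀ z) * u z‖ ^ 2)) :=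
        (((hz.sub_const _).mul_const _).norm).pow 2
      simpa using h2
  have h3 := key.sqrt
  simpa using h3

/-- cutting off: `u = 1_s u` iff `u` is supported in `s` -/
theorem mulOp_ind_of_suppIn {s : Set (ST n)} (hs : MeasurableSet s) {u : L2 n}
    (hu : SuppIn u s) : mulOp (ind s) u = u := by
  ext1
  filter_upwards [mulOp_coe (BM.ind hs) u, hu] with z h1 h2
  rw [h1]
  by_cases hz : z ∈ s
  · simp [Pool.Agent.W_eb6199.ind, Set.indicator_of_mem hz]
  · simp [h2 hz]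

theorem suppIn_mulOp_ind {s : Set (ST n)} (hs : MeasurableSet s) (u : L2 n) :
    SuppIn (mulOp (ind s) u) s := by
  filter_upwards [mulOp_coe (BM.ind hs) u] with z h1 hz
  rw [h1]
  simp [Pool.Agent.W_eb6199.ind, Set.indicator_of_notMem hz]

/-- Hölder / Cauchy-Schwarz bounds with the `L¹` norm `N1` -/
theorem inner_le_N1 {u g : L2 n} {C : ℝ} (hC : 0 ≤ C) (hg : ∀ᵐ z ∂(volume : Measure (ST n)), ‖g z‖ ≤ C) :
    ENNReal.ofReal ‖⟪g, u⟫‖ ≤ ENNReal.ofReal C * N1 u := by
  rw [L2.inner_def, ofReal_norm]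
  refine (enorm_integral_le_lintegral_enorm _).trans ?_
  unfold N1
  rw [← lintegral_const_mul' _ _ ENNReal.ofReal_ne_top]
  refine lintegral_mono_ae ?_
  filter_upwards [hg] with z hz
  rw [RCLike.inner_apply, enorm_mul, mul_comm]
  gcongr
  rw [← ofReal_norm, RCLike.norm_conj]
  exact ENNReal.ofReal_le_ofReal hz

theorem toL2_coe {g : ST n → ℂ} (hg : MemLp g 2 (volume : Measure (ST n))) :
    (toL2 g : ST n → ℂ) =ᵐ[volume] g := by
  unfold toL2
  rw [dif_pos hg]
  exact hg.coeFn_toLp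

/-- the unimodular factor `w / |w|` (`0` at `0`) is measurable and bounded by one -/
theorem measurable_div_norm : Measurable (fun w : ℂ => w / (‖w‖ : ℂ)) :=
  measurable_id.div (Complex.measurable_ofReal.comp measurable_norm)

theorem norm_div_norm_le (w : ℂ) : ‖w / (‖w‖ : ℂ)‖ ≤ 1 := by
  rw [norm_div, Complex.norm_real, norm_norm]
  exact div_self_le_one _

theorem conj_div_norm_mul (w : ℂ) : w * (starRingEnd ℂ) (w / (‖w‖ : ℂ)) = (‖w‖ : ℂ) := by
  rw [map_div₀, Complex.conj_ofReal, mul_div_assoc', Complex.mul_conj, Complex.normSq_eq_norm_sq]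
  by_cases hw : ‖w‖ = 0
  · simp [hw]
  · have : (‖w‖ : ℂ) ≠ 0 := by exact_mod_cast hw
    push_cast
    field_simp

/-- duality: `‖u‖_{L¹(s)} ≤ K` if `|⟨g,u⟩| ≤ K` for all bounded `g ∈ L²` supported in `s`, `|g| ≤ 1` -/
theorem lintegral_le_of_dual {s : Set (ST n)} (hs : MeasurableSet s) {u : L2 n} {K : ℝ}
    (hK : 0 ≤ K)
    (h : ∀ g : L2 n, (∀ᵐ z ∂(volume : Measure (ST n)), ‖g z‖ ≤ 1) → SuppIn g s → N1 g ≠ ∞ →
      ‖⟪g, u⟫‖ ≤ K) :
    ∫⁻ z in s, ‖u z‖ₑ ≤ ENNReal.ofReal K := by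
  -- the truncated sets
  set t : ℕ → Set (ST n) := fun N => s ∩ Metric.ball 0 N with ht
  have htm : ∀ N, MeasurableSet (t N) := fun N => hs.inter measurableSet_ball
  have htf : ∀ N, volume (t N) < ∞ := fun N =>
    (measure_mono Set.inter_subset_right).trans_lt measure_ball_lt_top
  have hmono : Monotone t := fun a b hab =>
    Set.inter_subset_inter_right _ (Metric.ball_subset_ball (by exact_mod_cast hab))
  have hU : ⋃ N, t N = s := by
    rw [ht, ← Set.inter_iUnion]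
    rw [Metric.iUnion_ball_nat]
    simp
  have hbound : ∀ N, ∫⁻ z in t N, ‖u z‖ₑ ≤ ENNReal.ofReal K := by
    intro N
    set g₀ : ST n → ℂ := (t N).indicator (fun z => u z / (‖u z‖ : ℂ)) with hg₀
    have hg₀m : AEStronglyMeasurable g₀ (volume : Measure (ST n)) := by
      refine AEStronglyMeasurable.indicator ?_ (htm N)
      exact (measurable_div_norm.comp_aemeasurable
        (Lp.aestronglyMeasurable u).aemeasurable).aestronglyMeasurable
    have hg₀b : ∀ z, ‖g₀ z‖ ≤ (t N).indicator (fun _ => (1 : ℝ)) z := by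
      intro z
      by_cases hz : z ∈ t N
      · simp only [hg₀, Set.indicator_of_mem hz]
        exact norm_div_norm_le _
      · simp [hg₀, Set.indicator_of_notMem hz]
    have hone : ∀ p : ℝ≥0∞, MemLp ((t N).indicator (fun _ => (1 : ℝ))) p
        (volume : Measure (ST n)) := fun p =>
      memLp_indicator_const p (htm N) 1 (Or.inr (htf N).ne)
    have hgp : ∀ p : ℝ≥0∞, MemLp g₀ p (volume : Measure (ST n)) := fun p =>
      (hone p).mono hg₀m (Eventually.of_forall fun z => by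
        rw [Real.norm_eq_abs, abs_of_nonneg ((norm_nonneg _).trans (hg₀b z))]
        exact hg₀b z)
    have hgc := toL2_coe (hgp 2)
    have h1 := h (toL2 g₀) ?_ ?_ ?_
    · -- compute the inner product
      have hint : ⟪toL2 g₀, u⟫ = ((∫ z in t N, ‖u z‖ : ℝ) : ℂ) := by
        rw [L2.inner_def, ← integral_indicator (htm N), ← integral_complex_ofReal]
        refine integral_congr_ae ?_
        filter_upwards [hgc] with z hz
        rw [hz, RCLike.inner_apply]
        by_cases hz' : z ∈ t N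
        · simp only [hg₀, Set.indicator_of_mem hz']
          exact conj_div_norm_mul _
        · simp [hg₀, Set.indicator_of_notMem hz']
      have hui : IntegrableOn (fun z => ‖u z‖) (t N) := by
        have : IsFiniteMeasure ((volume : Measure (ST n)).restrict (t N)) := ⟨by
          rw [Measure.restrict_apply_univ]; exact htf N⟩
        exact ((Lp.memLp u).restrict (t N)).integrable (by norm_num) |>.norm
      rw [hint, Complex.norm_real, Real.norm_eq_abs,
        abs_of_nonneg (integral_nonneg fun z => norm_nonneg _)] at h1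
      calc ∫⁻ z in t N, ‖u z‖ₑ = ENNReal.ofReal (∫ z in t N, ‖u z‖) := by
            rw [ofReal_integral_eq_lintegral_ofReal hui
              (Eventually.of_forall fun z => norm_nonneg _)]
            refine lintegral_congr fun z => ?_
            rw [ofReal_norm]
        _ ≤ ENNReal.ofReal K := ENNReal.ofReal_le_ofReal h1
    · filter_upwards [hgc] with z hz
      rw [hz]
      refine (hg₀b z).trans ?_
      exact Set.indicator_le_self' (fun _ _ => zero_le_one) z
    · filter_upwards [hgc] with z hz hzs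
      rw [hz]
      exact Set.indicator_of_notMem (fun h' => hzs h'.1) _
    · have h2 : N1 (toL2 g₀) = N1 g₀ := by
        unfold N1
        refine lintegral_congr_ae ?_
        filter_upwards [hgc] with z hz
        rw [hz]
      rw [h2]
      have h3 : MemLp g₀ 1 (volume : Measure (ST n)) := hgp 1
      have h4 := (memLp_one_iff_integrable.1 h3).2
      unfold N1
      exact h4.ne
  have hlim : Tendsto (fun N => ∫⁻ z in t N, ‖u z‖ₑ) atTop (𝓝 (∫⁻ z in s, ‖u z‖ₑ)) := by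
    rw [← hU, setLIntegral_iUnion_of_directed _ (Monotone.directed_le hmono)]
    exact tendsto_atTop_iSup fun a b hab => lintegral_mono_set (hmono hab)
  exact le_of_tendsto hlim (Eventually.of_forall hbound)

/-- Cauchy-Schwarz: `∫_s |m u| ≤ ‖m 1_s‖₂ ‖u‖₂` -/
theorem lintegral_mul_le {s : Set (ST n)} (hs : MeasurableSet s) {m : ST n → ℂ}
    (hm : Measurable m) (u : L2 n) :
    ∫⁻ z in s, ‖m z * u z‖ₑ ≤ (∫⁻ z in s, ‖m z‖ₑ ^ 2) ^ (1 / 2 : ℝ) * ENNReal.ofReal ‖u‖ := by
  have h1 := ENNReal.lintegral_mul_le_Lp_mul_Lq ((volume : Measure (ST n)).restrict s)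
    (p := 2) (q := 2) (by constructor <;> norm_num)
    (f := fun z => ‖m z‖ₑ) (g := fun z => ‖u z‖ₑ) hm.enorm.aemeasurable
    ((Lp.aestronglyMeasurable u).enorm.restrict)
  have h2 : ∫⁻ z in s, ‖m z * u z‖ₑ = ∫⁻ z in s, (fun z => ‖m z‖ₑ) z * (fun z => ‖u z‖ₑ) z := by
    refine lintegral_congr fun z => ?_
    rw [enorm_mul]
  have h3 : (∫⁻ z in s, ‖u z‖ₑ ^ (2 : ℝ)) ^ (1 / 2 : ℝ) ≤ ENNReal.ofReal ‖u‖ := by
    have h4 : ∫⁻ z in s, ‖u z‖ₑ ^ (2 : ℝ) ≤ ENNReal.ofReal (‖u‖ ^ 2) := by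
      rw [ofReal_norm_sq]
      refine (setLIntegral_le_lintegral _ _).trans (le_of_eq ?_)
      refine lintegral_congr fun z => ?_
      rw [← ENNReal.rpow_natCast]
      norm_num
    calc (∫⁻ z in s, ‖u z‖ₑ ^ (2 : ℝ)) ^ (1 / 2 : ℝ) ≤ (ENNReal.ofReal (‖u‖ ^ 2)) ^ (1 / 2 : ℝ) :=
          ENNReal.rpow_le_rpow h4 (by norm_num)
      _ = ENNReal.ofReal ‖u‖ := by
          rw [ENNReal.ofReal_rpow_of_nonneg (by positivity) (by norm_num), ← Real.sqrt_eq_rpow,
            Real.sqrt_sq (norm_nonneg _)]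
  rw [h2]
  refine h1.trans ?_
  refine mul_le_mul' (le_of_eq ?_) h3
  congr 1
  refine lintegral_congr fun z => ?_
  rw [← ENNReal.rpow_natCast]
  norm_num

end

end Pool.Agent.W_eb6199
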