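import Pool.Agent.W_eb6199.Cubes
import Pool.Agent.W_eb6199.Mul

open MeasureTheory Complex Filter Topology
open scoped FourierTransform ComplexInnerProductSpace ENNReal NNReal

namespace Pool.Agent.W_eb6199

noncomputable section

variable {n : ℕ}

/-! T25: decomposition into cubes. -/

private theorem decomp_ind_eq (k : ℤ) (m : Fin (n + 1) → ℤ) (z : ST n) :
    ind (cube k m) z = if idx k z = m then 1 else 0 := by
  unfold ind
  by_cases h : idx k z = m
  · rw [if_pos h, Set.indicator_of_mem (mem_cube_iff.2 h)]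
  · rw [if_neg h, Set.indicator_of_notMem (fun h' => h (mem_cube_iff.1 h'))]

private theorem decomp_sum_ind (k : ℤ) (s : Finset (Fin (n + 1) → ℤ)) (z : ST n) :
    ∑ m ∈ s, ind (cube k m) z = if idx k z ∈ s then 1 else 0 := by
  simp only [decomp_ind_eq]
  rw [Finset.sum_ite_eq]

private theorem decomp_sum_mulOp (k : ℤ) (u : L2 n) (s : Finset (Fin (n + 1) → ℤ)) :
    ∑ m ∈ s, mulOp (ind (cube k m)) u = mulOp (fun z => ∑ m ∈ s, ind (cube k m) z) u := by
  classical
  have hb : ∀ s : Finset (Fin (n + 1) → ℤ), BM (fun z : ST n => ∑ m ∈ s, ind (cube k m) z) := by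
    intro s
    refine ⟨Finset.measurable_sum _ fun m _ => (BM.ind (measurableSet_cube k m)).meas, 1, ?_⟩
    intro z
    rw [decomp_sum_ind]
    split_ifs <;> simp
  induction s using Finset.induction_on with
  | empty =>
    simp only [Finset.sum_empty]
    rw [mulOp_const, zero_smul]
  | insert a s ha ih =>
    simp only [Finset.sum_insert ha]
    rw [mulOp_add (BM.ind (measurableSet_cube k a)) (hb s), ih]

theorem hasSum_ind_cube (k : ℤ) (u : L2 n) :
    HasSum (fun m : Fin (n + 1) → ℤ => mulOp (ind (cube k m)) u) u := by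
  classical
  have key : Tendsto (fun s : Finset (Fin (n + 1) → ℤ) =>
      mulOp (fun z => ∑ m ∈ s, ind (cube k m) z) u) atTop (𝓝 (mulOp (fun _ : ST n => (1 : ℂ)) u)) := by
    refine tendsto_mulOp (C := 1) ?_ measurable_const ?_ ?_ ?_ u
    · intro s
      exact Finset.measurable_sum _ fun m _ => (BM.ind (measurableSet_cube k m)).meas
    · intro s z
      rw [decomp_sum_ind]
      split_ifs <;> simp
    · refine Filter.Eventually.of_forall fun z => ?_
      refine tendsto_const_nhds.congr' ?_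
      filter_upwards [eventually_ge_atTop ({idx k z} : Finset (Fin (n + 1) → ℤ))] with s hs
      rw [decomp_sum_ind, if_pos (hs (Finset.mem_singleton_self _))]
    · intro z
      simp
  rw [mulOp_const, one_smul] at key
  refine Tendsto.congr (fun s => (decomp_sum_mulOp k u s).symm) key

private theorem decomp_N1_mulOp_ind {s : Set (ST n)} (hs : MeasurableSet s) (u : L2 n) :
    N1 (mulOp (ind s) u) = ∫⁻ z in s, ‖u z‖ₑ := by
  unfold N1
  rw [← lintegral_indicator hs]
  refine lintegral_congr_ae ?_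
  filter_upwards [mulOp_coe (BM.ind hs) u] with z hz
  rw [hz]
  unfold ind
  by_cases h : z ∈ s
  · rw [Set.indicator_of_mem h, Set.indicator_of_mem h, one_mul]
  · rw [Set.indicator_of_notMem h, Set.indicator_of_notMem h, zero_mul, enorm_zero]

theorem N1_eq_tsum (k : ℤ) (u : L2 n) :
    N1 u = ∑' m : Fin (n + 1) → ℤ, N1 (mulOp (ind (cube k m)) u) := by
  simp only [decomp_N1_mulOp_ind (measurableSet_cube k _)]
  exact lintegral_eq_tsum_cubes k _

private theorem decomp_coeFn_sum {ι : Type*} (f : ι → L2 n) (s : Finset ι) :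
    ((∑ i ∈ s, f i : L2 n) : ST n → ℂ) =ᵐ[volume] fun z => ∑ i ∈ s, f i z := by
  classical
  induction s using Finset.induction_on with
  | empty =>
    simp only [Finset.sum_empty]
    exact Lp.coeFn_zero ℂ 2 (volume : Measure (ST n))
  | insert a s ha ih =>
    rw [Finset.sum_insert ha]
    filter_upwards [Lp.coeFn_add (f a) (∑ i ∈ s, f i), ih] with z h1 h2
    rw [h1, Pi.add_apply, h2, Finset.sum_insert ha]

private theorem decomp_lintegral_le_tsum {ι : Type*} [Countable ι] {f : ι → L2 n} {u : L2 n}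
    (hf : HasSum f u) (s : Set (ST n)) :
    ∫⁻ z in s, ‖u z‖ₑ ≤ ∑' i, ∫⁻ z in s, ‖f i z‖ₑ := by
  classical
  have h1 : TendstoInMeasure (volume : Measure (ST n))
      (fun t : Finset ι => ((∑ i ∈ t, f i : L2 n) : ST n → ℂ)) atTop (u : ST n → ℂ) :=
    tendstoInMeasure_of_tendsto_Lp hf
  obtain ⟨ns, -, hns⟩ := h1.exists_seq_tendsto_ae'
  have h2 : ∫⁻ z in s, ‖u z‖ₑ =
      ∫⁻ z in s, liminf (fun i => ‖((∑ j ∈ ns i, f j : L2 n) : ST n → ℂ) z‖ₑ) atTop := by
    refine lintegral_congr_ae (ae_restrict_of_ae ?_)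
    filter_upwards [hns] with z hz
    exact (Tendsto.liminf_eq (hz.enorm)).symm
  rw [h2]
  refine (lintegral_liminf_le' fun i => ?_).trans ?_
  · exact ((Lp.aestronglyMeasurable _).enorm).restrict
  refine Filter.liminf_le_of_le (by isBoundedDefault) ?_
  intro b hb
  obtain ⟨i, hi⟩ := hb.exists
  refine hi.trans ?_
  have h3 : ∫⁻ z in s, ‖((∑ j ∈ ns i, f j : L2 n) : ST n → ℂ) z‖ₑ ≤
      ∑ j ∈ ns i, ∫⁻ z in s, ‖f j z‖ₑ := by
    rw [← lintegral_finsetSum' _ (fun j _ => (Lp.aestronglyMeasurable (f j)).enorm.restrict)]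
    refine lintegral_mono_ae (ae_restrict_of_ae ?_)
    filter_upwards [decomp_coeFn_sum f (ns i)] with z hz
    rw [hz]
    exact enorm_sum_le _ _
  exact h3.trans (ENNReal.sum_le_tsum _)

/-- `L¹(s)` bounds from bounds on functions supported in small cubes -/
theorem lintegral_le_of_cubes (k : ℤ) {Q₀ : Set (ST n)}
    (hQ₀ : ∀ m : Fin (n + 1) → ℤ, cube k m ⊆ Q₀ ∨ Disjoint (cube k m) Q₀)
    (T : L2 n →L[ℂ] L2 n) {s : Set (ST n)} (hs : MeasurableSet s) {K : ℝ≥0∞}
    (h : ∀ m, cube k m ⊆ Q₀ → ∀ g : L2 n, SuppIn g (cube k m) →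
      ∫⁻ z in s, ‖T g z‖ₑ ≤ K * N1 g) :
    ∀ g : L2 n, SuppIn g Q₀ → ∫⁻ z in s, ‖T g z‖ₑ ≤ K * N1 g := by
  intro g hg
  have h1 : HasSum (fun m : Fin (n + 1) → ℤ => T (mulOp (ind (cube k m)) g)) (T g) :=
    T.hasSum (hasSum_ind_cube k g)
  refine (decomp_lintegral_le_tsum h1 s).trans ?_
  rw [N1_eq_tsum k g, ← ENNReal.tsum_mul_left]
  refine ENNReal.tsum_le_tsum fun m => ?_
  rcases hQ₀ m with hm | hm
  · exact h m hm _ (suppIn_mulOp_ind (measurableSet_cube k m) g)
  · have h0 : mulOp (ind (cube k m)) g = 0 := by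
      ext1
      filter_upwards [mulOp_coe (BM.ind (measurableSet_cube k m)) g, hg,
        Lp.coeFn_zero ℂ 2 (volume : Measure (ST n))] with z h2 h3 h4
      rw [h2, h4]
      by_cases hz : z ∈ cube k m
      · rw [h3 (Set.disjoint_left.1 hm hz), mul_zero]
        rfl
      · rw [ind, Set.indicator_of_notMem hz, zero_mul]
        rfl
    rw [h0, map_zero]
    refine le_trans (le_of_eq ?_) bot_le
    have : ∫⁻ z in s, ‖((0 : L2 n) : ST n → ℂ) z‖ₑ = ∫⁻ z in s, 0 := by
      refine lintegral_congr_ae (ae_restrict_of_ae ?_)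
      filter_upwards [Lp.coeFn_zero ℂ 2 (volume : Measure (ST n))] with z h4
      rw [h4]
      simp
    rw [this, lintegral_zero]
    rfl

/-- `L¹ → L²` bounds from bounds on functions supported in small cubes -/
theorem norm_le_of_cubes (k : ℤ) (T : L2 n →L[ℂ] L2 n) {K : ℝ} (hK : 0 ≤ K)
    (h : ∀ (m : Fin (n + 1) → ℤ) (g : L2 n), SuppIn g (cube k m) → N1 g ≠ ∞ →
      ‖T g‖ ≤ K * (N1 g).toReal) :
    ∀ g : L2 n, N1 g ≠ ∞ → ‖T g‖ ≤ K * (N1 g).toReal := by
  intro g hg
  have h1 : HasSum (fun m : Fin (n + 1) → ℤ => T (mulOp (ind (cube k m)) g)) (T g) :=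
    T.hasSum (hasSum_ind_cube k g)
  have hsum : ∑' m : Fin (n + 1) → ℤ, N1 (mulOp (ind (cube k m)) g) ≠ ∞ := by
    rw [← N1_eq_tsum]; exact hg
  have h2 : HasSum (fun m : Fin (n + 1) → ℤ => (N1 (mulOp (ind (cube k m)) g)).toReal)
      (N1 g).toReal := by
    rw [N1_eq_tsum k g, ENNReal.tsum_toReal_eq (fun m => ENNReal.ne_top_of_tsum_ne_top hsum m)]
    exact ENNReal.hasSum_toReal hsum
  refine h1.norm_le_of_bounded (h2.mul_left K) fun m => ?_
  exact h m _ (suppIn_mulOp_ind (measurableSet_cube k m) g) (ENNReal.ne_top_of_tsum_ne_top hsum m)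

/-- functions supported in a cube are integrable -/
theorem N1_ne_top_of_suppIn {k : ℤ} {m : Fin (n + 1) → ℤ} {u : L2 n} (hu : SuppIn u (cube k m)) :
    N1 u ≠ ∞ := by
  have h1 : N1 u = ∫⁻ z in cube k m, ‖u z‖ₑ := by
    rw [← decomp_N1_mulOp_ind (measurableSet_cube k m),
      mulOp_ind_of_suppIn (measurableSet_cube k m) hu]
  rw [h1]
  have hfin : volume (cube (n := n) k m) ≠ ∞ := by
    rw [volume_cube]; exact ENNReal.ofReal_ne_top
  have : IsFiniteMeasure ((volume : Measure (ST n)).restrict (cube k m)) :=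
    ⟨by rw [Measure.restrict_apply_univ]; exact hfin.lt_top⟩
  have h2 : MemLp (u : ST n → ℂ) 2 ((volume : Measure (ST n)).restrict (cube k m)) :=
    (Lp.memLp u).restrict _
  have h3 : Integrable (u : ST n → ℂ) ((volume : Measure (ST n)).restrict (cube k m)) :=
    h2.integrable one_le_two
  exact h3.2.ne

end

end Pool.Agent.W_eb6199
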