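import Pool.Agent.W_eb6199.CZcubes
import Pool.Agent.W_eb6199.Decomp

open MeasureTheory Complex Filter Topology
open scoped FourierTransform ComplexInnerProductSpace ENNReal NNReal

namespace Pool.Agent.W_eb6199

noncomputable section

variable {n : ℕ}

/-! T40: abstract Calderon-Zygmund theorem (Duong-McIntosh / Blunck-Kunstmann type). -/

/-- Chebyshev in `L²` -/
theorem CZ_cheb2 (u : L2 n) {t : ℝ} (ht : 0 < t) :
    volume {z | t < ‖u z‖} ≤ ENNReal.ofReal (‖u‖ ^ 2 / t ^ 2) := by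
  have h1 : volume {z | t < ‖u z‖} ≤ volume {z | ENNReal.ofReal (t ^ 2) ≤ ‖u z‖ₑ ^ 2} := by
    apply measure_mono
    intro z hz
    simp only [Set.mem_ofPred_eq] at hz ⊢
    rw [← ofReal_norm, ← ENNReal.ofReal_pow (norm_nonneg _)]
    exact ENNReal.ofReal_le_ofReal (pow_le_pow_left₀ ht.le hz.le 2)
  have hm : AEMeasurable (fun z => ‖u z‖ₑ ^ 2) (volume : Measure (ST n)) :=
    ((Lp.aestronglyMeasurable u).enorm).pow_const 2
  have ht2 : 0 < t ^ 2 := by positivity
  refine h1.trans ((meas_ge_le_lintegral_div hm (by positivity) ENNReal.ofReal_ne_top).trans ?_)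
  rw [← ofReal_norm_sq, ← ENNReal.ofReal_div_of_pos ht2]

/-- Chebyshev in `L¹(s)` -/
theorem CZ_cheb1 (u : L2 n) {s : Set (ST n)} (hs : MeasurableSet s) {t : ℝ} (ht : 0 < t) :
    volume {z | z ∈ s ∧ t < ‖u z‖} ≤ (∫⁻ z in s, ‖u z‖ₑ) / ENNReal.ofReal t := by
  have hm : AEMeasurable (fun z => ‖u z‖ₑ) ((volume : Measure (ST n)).restrict s) :=
    ((Lp.aestronglyMeasurable u).enorm).restrict
  have h0 : ENNReal.ofReal t ≠ 0 := by simpa using ht
  refine le_trans ?_ (meas_ge_le_lintegral_div hm h0 ENNReal.ofReal_ne_top)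
  rw [Measure.restrict_apply₀']
  · apply measure_mono
    intro z hz
    refine ⟨?_, hz.1⟩
    simp only [Set.mem_ofPred_eq]
    rw [← ofReal_norm]
    exact ENNReal.ofReal_le_ofReal hz.2.le
  · exact hs.nullMeasurableSet

theorem CZ_N1_ind {s : Set (ST n)} (hs : MeasurableSet s) (f : L2 n) :
    N1 (mulOp (ind s) f) = ∫⁻ z in s, ‖f z‖ₑ := by
  unfold N1
  rw [← lintegral_indicator hs]
  apply lintegral_congr_ae
  filter_upwards [mulOp_coe (BM.ind hs) f] with z hz
  rw [hz, ind]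
  by_cases h : z ∈ s
  · simp [h]
  · simp [h]

theorem CZ_split_gen {E ι : Type*} [AddCommGroup E] (T : E →+ E) (g : E) (F : Finset ι)
    (b c : ι → E) :
    T (g + ∑ q ∈ F, b q) = T g + ∑ q ∈ F, T (b q - c q) + T (∑ q ∈ F, c q) := by
  have e1 : T (∑ q ∈ F, (b q - c q)) = ∑ q ∈ F, T (b q - c q) := map_sum T _ F
  have e2 : ∑ q ∈ F, b q = ∑ q ∈ F, (b q - c q) + ∑ q ∈ F, c q := by
    rw [← Finset.sum_add_distrib]
    exact Finset.sum_congr rfl fun q _ => (sub_add_cancel _ _).symm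
  rw [map_add, e2, map_add, e1, add_assoc]

theorem CZ_split {ι : Type*} (T : L2 n →L[ℂ] L2 n) (g : L2 n) (F : Finset ι) (b c : ι → L2 n) :
    T (g + ∑ q ∈ F, b q) = T g + ∑ q ∈ F, T (b q - c q) + T (∑ q ∈ F, c q) :=
  CZ_split_gen (T : L2 n →ₗ[ℂ] L2 n).toAddMonoidHom g F b c

theorem CZ_map_insert {E ι κ : Type*} [AddCommGroup E] [DecidableEq ι] [DecidableEq κ] (e : ι ↪ κ)
    (g : E) (F : Finset ι) (a : ι) (ha : a ∉ F) (b : κ → E) {X Y : E}
    (ih : X = g + ∑ q ∈ F.map e, b q) (hY : Y = b (e a) + X) :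
    Y = g + ∑ q ∈ (insert a F).map e, b q := by
  rw [Finset.map_insert, Finset.sum_insert (by simpa using ha), add_left_comm, ← ih, hY]

theorem weak_type_of (T : L2 n →L[ℂ] L2 n) (P : ℤ → L2 n →L[ℂ] L2 n) {C₁ C₂ : ℝ}
    (h1 : ∀ (k : ℤ) (m : Fin (n + 1) → ℤ) (b : L2 n), SuppIn b (cube k m) →
      ∫⁻ z in (star k m)ᶜ, ‖T (b - P k b) z‖ₑ ≤ ENNReal.ofReal C₁ * N1 b)
    (h2 : ∀ (F : Finset (ℤ × (Fin (n + 1) → ℤ))),
      (F : Set (ℤ × (Fin (n + 1) → ℤ))).PairwiseDisjoint (fun q => cube q.1 q.2) →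
      ∀ (b : ℤ × (Fin (n + 1) → ℤ) → L2 n) (α : ℝ), 0 ≤ α →
      (∀ q ∈ F, SuppIn (b q) (cube q.1 q.2) ∧ N1 (b q) ≤ ENNReal.ofReal (α * qv n q.1)) →
      ‖∑ q ∈ F, P q.1 (b q)‖ ^ 2 ≤ C₂ * α ^ 2 * ∑ q ∈ F, qv n q.1) :
    ∃ C : ℝ, 0 < C ∧ ∀ f : L2 n, ∀ α : ℝ, 0 < α →
      volume {z | α < ‖T f z‖} ≤ ENNReal.ofReal (C / α) * N1 f := by
  classical
  set c1 : ℝ := max C₁ 0 with hc1
  set c2 : ℝ := max C₂ 0 with hc2
  have hc1' : 0 ≤ c1 := le_max_right _ _
  have hc2' : 0 ≤ c2 := le_max_right _ _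
  obtain ⟨K, hK⟩ : ∃ K : ℝ,
      K = 3 ^ (n + 1) + 9 * ‖T‖ ^ 2 + 3 * c1 + 9 * ‖T‖ ^ 2 * c2 * (2 ^ (n + 2)) ^ 2 := ⟨_, rfl⟩
  have hK0 : 0 < K := by rw [hK]; positivity
  refine ⟨2 * K, by positivity, ?_⟩
  intro f α hα
  by_cases hf : N1 f = ∞
  · rw [hf, ENNReal.mul_top]
    · exact le_top
    · have : 0 < 2 * K / α := by positivity
      simpa using this
  set N : ℝ := (N1 f).toReal with hN
  have hNf : N1 f = ENNReal.ofReal N := (ENNReal.ofReal_toReal hf).symm
  have hN0 : 0 ≤ N := ENNReal.toReal_nonneg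
  set β : ℝ := α / 2 with hβ
  have hβ0 : 0 < β := by positivity
  obtain ⟨Q, hQd, hQ, hg⟩ := exists_cz f hf hβ0
  -- measurability
  have hmc : ∀ q : ℤ × (Fin (n + 1) → ℤ), MeasurableSet (cube q.1 q.2) :=
    fun q => measurableSet_cube _ _
  set U : Set (ST n) := ⋃ q ∈ Q, cube q.1 q.2 with hU
  have hUm : MeasurableSet U := MeasurableSet.biUnion (Set.to_countable Q) (fun q _ => hmc q)
  -- the pieces
  set b : ℤ × (Fin (n + 1) → ℤ) → L2 n := fun q => mulOp (ind (cube q.1 q.2)) f with hb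
  set g : L2 n := mulOp (ind Uᶜ) f with hgdef
  have hbs : ∀ q, SuppIn (b q) (cube q.1 q.2) := fun q => suppIn_mulOp_ind (hmc q) f
  have hbN : ∀ q, N1 (b q) = ∫⁻ z in cube q.1 q.2, ‖f z‖ₑ := fun q => CZ_N1_ind (hmc q) f
  have hsumN : ∀ F : Finset (ℤ × (Fin (n + 1) → ℤ)), (F : Set _) ⊆ Q →
      ∑ q ∈ F, N1 (b q) ≤ N1 f := by
    intro F hF
    have : ∑ q ∈ F, N1 (b q) = ∫⁻ z in ⋃ q ∈ F, cube q.1 q.2, ‖f z‖ₑ := by
      rw [lintegral_biUnion_finset (hQd.subset hF) (fun q _ => hmc q)]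
      exact Finset.sum_congr rfl fun q _ => hbN q
    rw [this]
    exact setLIntegral_le_lintegral _ _
  have hsumqv : ∀ F : Finset (ℤ × (Fin (n + 1) → ℤ)), (F : Set _) ⊆ Q →
      ∑ q ∈ F, qv n q.1 ≤ N / β := by
    intro F hF
    have h3 : ENNReal.ofReal (∑ q ∈ F, β * qv n q.1) ≤ ENNReal.ofReal N := by
      rw [ENNReal.ofReal_sum_of_nonneg (fun q _ => by have := qv_pos n q.1; positivity), ← hNf]
      refine le_trans (Finset.sum_le_sum fun q hq => ?_) (hsumN F hF)
      rw [hbN q]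
      exact (hQ q (hF hq)).1.le
    have h4 := (ENNReal.ofReal_le_ofReal_iff hN0).mp h3
    rw [← Finset.mul_sum] at h4
    rw [le_div_iff₀ hβ0]
    linarith only [h4]
  -- the good part
  have hgle : ∀ᵐ z ∂(volume : Measure (ST n)), ‖g z‖ ≤ β ∧ ‖g z‖ ≤ ‖f z‖ := by
    filter_upwards [mulOp_coe (BM.ind hUm.compl) f, hg] with z hz hz2
    have hz' : g z = ind Uᶜ z * f z := hz
    rw [hz', ind]
    by_cases h : z ∈ Uᶜ
    · rw [Set.indicator_of_mem h, one_mul]
      refine ⟨hz2 ?_, le_rfl⟩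
      intro q hq hzq
      exact h (Set.mem_biUnion hq hzq)
    · rw [Set.indicator_of_notMem h, zero_mul, norm_zero]
      exact ⟨hβ0.le, norm_nonneg _⟩
  have hgnorm : ‖g‖ ^ 2 ≤ β * N := by
    have : ENNReal.ofReal (‖g‖ ^ 2) ≤ ENNReal.ofReal (β * N) := by
      have e2 : ENNReal.ofReal (β * N) =
          ∫⁻ z, ENNReal.ofReal β * ‖f z‖ₑ ∂(volume : Measure (ST n)) := by
        rw [ENNReal.ofReal_mul hβ0.le, ← hNf]
        exact (lintegral_const_mul' _ _ ENNReal.ofReal_ne_top).symm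
      refine (ofReal_norm_sq g).trans_le (le_trans ?_ e2.ge)
      apply lintegral_mono_ae
      filter_upwards [hgle] with z hz
      rw [pow_two]
      apply mul_le_mul'
      · rw [← ofReal_norm]; exact ENNReal.ofReal_le_ofReal hz.1
      · rw [← ofReal_norm, ← ofReal_norm]; exact ENNReal.ofReal_le_ofReal hz.2
    exact (ENNReal.ofReal_le_ofReal_iff (by positivity)).mp this
  -- bound for finite parts
  have hfin : ∀ F : Finset (ℤ × (Fin (n + 1) → ℤ)), (F : Set _) ⊆ Q →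
      volume {z | β < ‖T (g + ∑ q ∈ F, b q) z‖} ≤ ENNReal.ofReal (K * (N / β)) := by
    intro F hF
    have hst : MeasurableSet (⋃ q ∈ F, star (n := n) q.1 q.2) :=
      Finset.measurableSet_biUnion _ (fun q _ => measurableSet_star _ _)
    set S : Set (ST n) := ⋃ q ∈ F, star (n := n) q.1 q.2 with hS
    set w : L2 n := ∑ q ∈ F, T (b q - P q.1 (b q)) with hw
    set v : L2 n := ∑ q ∈ F, P q.1 (b q) with hv
    have hdec : T (g + ∑ q ∈ F, b q) = T g + w + T v := by
      exact CZ_split T g F b (fun q => P q.1 (b q))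
    have hcoe : ∀ᵐ z ∂(volume : Measure (ST n)),
        T (g + ∑ q ∈ F, b q) z = T g z + w z + T v z := by
      filter_upwards [Lp.coeFn_add (T g + w) (T v), Lp.coeFn_add (T g) w] with z h3 h4
      have h3' : (T g + w + T v) z = (T g + w) z + T v z := h3
      have h4' : (T g + w) z = T g z + w z := h4
      exact (congrArg (fun u : L2 n => u z) hdec).trans
        (h3'.trans (congrArg (fun x : ℂ => x + T v z) h4'))
    have hβ3 : 0 < β / 3 := by positivity
    have hsub : volume {z | β < ‖T (g + ∑ q ∈ F, b q) z‖} ≤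
        volume (S ∪ {z | β / 3 < ‖T g z‖} ∪ {z | z ∈ Sᶜ ∧ β / 3 < ‖w z‖}
          ∪ {z | β / 3 < ‖T v z‖}) := by
      apply measure_mono_ae
      filter_upwards [hcoe] with z hz hz2
      change β < ‖T (g + ∑ q ∈ F, b q) z‖ at hz2
      rw [hz] at hz2
      by_contra hcon
      have hn1 : z ∉ S := fun h => hcon (Or.inl (Or.inl (Or.inl h)))
      have hn2 : ¬ (β / 3 < ‖T g z‖) := fun h => hcon (Or.inl (Or.inl (Or.inr h)))
      have hn3 : ¬ (β / 3 < ‖w z‖) := fun h => hcon (Or.inl (Or.inr ⟨hn1, h⟩))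
      have hn4 : ¬ (β / 3 < ‖T v z‖) := fun h => hcon (Or.inr h)
      have := norm_add₃_le (a := T g z) (b := w z) (c := T v z)
      push Not at hn2 hn3 hn4
      linarith only [hz2, this, hn2, hn3, hn4]
    refine hsub.trans ?_
    have hA : volume S ≤ ENNReal.ofReal (3 ^ (n + 1) * (N / β)) := by
      refine (measure_biUnion_finset_le _ _).trans ?_
      have : ∀ q ∈ F, volume (star (n := n) q.1 q.2) = ENNReal.ofReal (3 ^ (n + 1) * qv n q.1) :=
        fun q _ => volume_star _ _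
      rw [Finset.sum_congr rfl this, ← ENNReal.ofReal_sum_of_nonneg
        (fun q _ => by have := qv_pos n q.1; positivity), ← Finset.mul_sum]
      exact ENNReal.ofReal_le_ofReal (mul_le_mul_of_nonneg_left (hsumqv F hF) (by positivity))
    have hB : volume {z | β / 3 < ‖T g z‖} ≤ ENNReal.ofReal (9 * ‖T‖ ^ 2 * (N / β)) := by
      refine (CZ_cheb2 (T g) hβ3).trans (ENNReal.ofReal_le_ofReal ?_)
      have h5 : ‖T g‖ ^ 2 ≤ ‖T‖ ^ 2 * (β * N) := by
        calc ‖T g‖ ^ 2 ≤ (‖T‖ * ‖g‖) ^ 2 := pow_le_pow_left₀ (norm_nonneg _) (T.le_opNorm g) 2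
          _ = ‖T‖ ^ 2 * ‖g‖ ^ 2 := by ring
          _ ≤ ‖T‖ ^ 2 * (β * N) := mul_le_mul_of_nonneg_left hgnorm (by positivity)
      rw [div_le_iff₀ (by positivity)]
      calc ‖T g‖ ^ 2 ≤ ‖T‖ ^ 2 * (β * N) := h5
        _ = 9 * ‖T‖ ^ 2 * (N / β) * (β / 3) ^ 2 := by field_simp; ring
    have hC : volume {z | z ∈ Sᶜ ∧ β / 3 < ‖w z‖} ≤ ENNReal.ofReal (3 * c1 * (N / β)) := by
      refine (CZ_cheb1 w hst.compl hβ3).trans ?_
      have h6 : ∫⁻ z in Sᶜ, ‖w z‖ₑ ≤ ENNReal.ofReal (c1 * N) := by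
        have hwc : ∀ᵐ z ∂(volume : Measure (ST n)), w z = ∑ q ∈ F, T (b q - P q.1 (b q)) z := by
          rw [hw]
          have := Lp.coeFn_finsetSum F (fun q => T (b q - P q.1 (b q)))
          filter_upwards [this] with z hz
          rw [hz, Finset.sum_apply]
        calc ∫⁻ z in Sᶜ, ‖w z‖ₑ ≤ ∫⁻ z in Sᶜ, ∑ q ∈ F, ‖T (b q - P q.1 (b q)) z‖ₑ := by
              apply lintegral_mono_ae
              filter_upwards [ae_restrict_of_ae hwc] with z hz
              rw [hz]
              exact enorm_sum_le _ _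
          _ = ∑ q ∈ F, ∫⁻ z in Sᶜ, ‖T (b q - P q.1 (b q)) z‖ₑ := by
              rw [lintegral_finsetSum']
              intro q _
              exact ((Lp.aestronglyMeasurable _).enorm).restrict
          _ ≤ ∑ q ∈ F, ENNReal.ofReal c1 * N1 (b q) := by
              apply Finset.sum_le_sum
              intro q hq
              have hsub2 : Sᶜ ⊆ (star (n := n) q.1 q.2)ᶜ := by
                apply Set.compl_subset_compl.mpr
                exact Set.subset_biUnion_of_mem (u := fun q : ℤ × (Fin (n + 1) → ℤ) =>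
                  star (n := n) q.1 q.2) hq
              refine (lintegral_mono_set hsub2).trans ((h1 q.1 q.2 (b q) (hbs q)).trans ?_)
              gcongr
              exact le_max_left _ _
          _ = ENNReal.ofReal c1 * ∑ q ∈ F, N1 (b q) := by rw [Finset.mul_sum]
          _ ≤ ENNReal.ofReal c1 * N1 f := by gcongr; exact hsumN F hF
          _ = ENNReal.ofReal (c1 * N) := by rw [ENNReal.ofReal_mul hc1', ← hNf]
      calc (∫⁻ z in Sᶜ, ‖w z‖ₑ) / ENNReal.ofReal (β / 3)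
          ≤ ENNReal.ofReal (c1 * N) / ENNReal.ofReal (β / 3) := by gcongr
        _ = ENNReal.ofReal (c1 * N / (β / 3)) := (ENNReal.ofReal_div_of_pos hβ3).symm
        _ = ENNReal.ofReal (3 * c1 * (N / β)) := by congr 1; field_simp
    have hD : volume {z | β / 3 < ‖T v z‖} ≤
        ENNReal.ofReal (9 * ‖T‖ ^ 2 * c2 * (2 ^ (n + 2)) ^ 2 * (N / β)) := by
      refine (CZ_cheb2 (T v) hβ3).trans (ENNReal.ofReal_le_ofReal ?_)
      have h7 : ‖v‖ ^ 2 ≤ C₂ * (2 ^ (n + 2) * β) ^ 2 * ∑ q ∈ F, qv n q.1 := by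
        apply h2 F (hQd.subset hF) b (2 ^ (n + 2) * β) (by positivity)
        intro q hq
        refine ⟨hbs q, ?_⟩
        rw [hbN q]
        exact (hQ q (hF hq)).2
      have hsq : 0 ≤ ∑ q ∈ F, qv n q.1 := Finset.sum_nonneg fun q _ => (qv_pos n q.1).le
      have h8 : ‖v‖ ^ 2 ≤ c2 * (2 ^ (n + 2) * β) ^ 2 * (N / β) := by
        refine h7.trans ?_
        have h9 : C₂ * (2 ^ (n + 2) * β) ^ 2 * ∑ q ∈ F, qv n q.1 ≤
            c2 * (2 ^ (n + 2) * β) ^ 2 * ∑ q ∈ F, qv n q.1 := by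
          apply mul_le_mul_of_nonneg_right _ hsq
          exact mul_le_mul_of_nonneg_right (le_max_left _ _) (by positivity)
        refine h9.trans ?_
        exact mul_le_mul_of_nonneg_left (hsumqv F hF) (by positivity)
      have h10 : ‖T v‖ ^ 2 ≤ ‖T‖ ^ 2 * (c2 * (2 ^ (n + 2) * β) ^ 2 * (N / β)) := by
        calc ‖T v‖ ^ 2 ≤ (‖T‖ * ‖v‖) ^ 2 := pow_le_pow_left₀ (norm_nonneg _) (T.le_opNorm v) 2
          _ = ‖T‖ ^ 2 * ‖v‖ ^ 2 := by ring
          _ ≤ _ := mul_le_mul_of_nonneg_left h8 (by positivity)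
      rw [div_le_iff₀ (by positivity)]
      refine h10.trans (le_of_eq ?_)
      field_simp
      ring
    calc volume (S ∪ {z | β / 3 < ‖T g z‖} ∪ {z | z ∈ Sᶜ ∧ β / 3 < ‖w z‖}
          ∪ {z | β / 3 < ‖T v z‖})
        ≤ volume S + volume {z | β / 3 < ‖T g z‖} + volume {z | z ∈ Sᶜ ∧ β / 3 < ‖w z‖}
          + volume {z | β / 3 < ‖T v z‖} := by
          refine (measure_union_le _ _).trans ?_
          gcongr
          refine (measure_union_le _ _).trans ?_
          gcongr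
          exact measure_union_le _ _
      _ ≤ ENNReal.ofReal (3 ^ (n + 1) * (N / β)) + ENNReal.ofReal (9 * ‖T‖ ^ 2 * (N / β))
          + ENNReal.ofReal (3 * c1 * (N / β))
          + ENNReal.ofReal (9 * ‖T‖ ^ 2 * c2 * (2 ^ (n + 2)) ^ 2 * (N / β)) := by gcongr
      _ = ENNReal.ofReal (K * (N / β)) := by
          rw [← ENNReal.ofReal_add (by positivity) (by positivity),
            ← ENNReal.ofReal_add (by positivity) (by positivity),
            ← ENNReal.ofReal_add (by positivity) (by positivity)]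
          congr 1
          rw [hK]; ring
  -- passage to the limit
  have hlim : Tendsto (fun F : Finset Q => mulOp (ind (Uᶜ ∪ ⋃ q ∈ F, cube (n := n) q.1.1 q.1.2)) f)
      atTop (𝓝 (mulOp (ind (Set.univ : Set (ST n))) f)) := by
    apply tendsto_mulOp (C := 1)
    · intro F
      have : MeasurableSet (Uᶜ ∪ ⋃ q ∈ F, cube (n := n) q.1.1 q.1.2) :=
        hUm.compl.union (Finset.measurableSet_biUnion _ (fun q _ => hmc q.1))
      exact (BM.ind this).meas
    · exact (BM.ind MeasurableSet.univ).meas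
    · intro F z
      unfold ind
      by_cases h : z ∈ (Uᶜ ∪ ⋃ q ∈ F, cube (n := n) q.1.1 q.1.2)
      · rw [Set.indicator_of_mem h]; simp
      · rw [Set.indicator_of_notMem h]; simp
    · refine Filter.Eventually.of_forall fun z => ?_
      have h11 : ind (Set.univ : Set (ST n)) z = 1 := by simp [ind]
      rw [h11]
      apply tendsto_nhds_of_eventually_eq
      by_cases hz : z ∈ U
      · obtain ⟨q, hq, hzq⟩ := Set.mem_iUnion₂.mp hz
        filter_upwards [eventually_ge_atTop ({⟨q, hq⟩} : Finset Q)] with F hF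
        unfold ind
        rw [Set.indicator_of_mem]
        right
        exact Set.mem_iUnion₂.mpr ⟨⟨q, hq⟩, Finset.singleton_subset_iff.mp hF, hzq⟩
      · refine Filter.Eventually.of_forall fun F => ?_
        unfold ind
        rw [Set.indicator_of_mem]
        left; exact hz
    · intro z
      simp [ind]
  have huniv : mulOp (ind (Set.univ : Set (ST n))) f = f := by
    apply mulOp_ind_of_suppIn MeasurableSet.univ
    exact Filter.Eventually.of_forall fun z hz => absurd (Set.mem_univ z) hz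
  rw [huniv] at hlim
  have hform : ∀ F : Finset Q, mulOp (ind (Uᶜ ∪ ⋃ q ∈ F, cube (n := n) q.1.1 q.1.2)) f =
      g + ∑ q ∈ F.map ⟨Subtype.val, Subtype.val_injective⟩, b q := by
    intro F
    induction F using Finset.induction_on with
    | empty => simp [hgdef]
    | insert a F ha ih =>
      have hmeasF : MeasurableSet (Uᶜ ∪ ⋃ q ∈ F, cube (n := n) q.1.1 q.1.2) :=
        hUm.compl.union (Finset.measurableSet_biUnion _ (fun q _ => hmc q.1))
      refine CZ_map_insert _ g F a ha b ih ?_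
      refine Eq.trans ?_ (mulOp_add (BM.ind (hmc a.1)) (BM.ind hmeasF) f)
      congr 1
      congr 1
      funext z
      unfold ind
      have hset : (Uᶜ ∪ ⋃ q ∈ insert a F, cube (n := n) q.1.1 q.1.2) =
          cube (n := n) a.1.1 a.1.2 ∪ (Uᶜ ∪ ⋃ q ∈ F, cube (n := n) q.1.1 q.1.2) := by
        rw [Finset.set_biUnion_insert]
        ext z; simp only [Set.mem_union]; tauto
      have hdisj : Disjoint (cube (n := n) a.1.1 a.1.2) (Uᶜ ∪ ⋃ q ∈ F, cube (n := n) q.1.1 q.1.2) := by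
        rw [Set.disjoint_union_right]
        constructor
        · rw [Set.disjoint_compl_right_iff_subset]
          exact Set.subset_biUnion_of_mem (u := fun q : ℤ × (Fin (n + 1) → ℤ) =>
            cube (n := n) q.1 q.2) a.2
        · rw [Set.disjoint_iUnion₂_right]
          intro q hq
          apply hQd a.2 q.2
          intro h
          exact ha (by rwa [Subtype.ext h])
      rw [hset, Set.indicator_union_of_disjoint hdisj]
  have hTlim : Tendsto (fun F : Finset Q =>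
      ‖T f - T (g + ∑ q ∈ F.map ⟨Subtype.val, Subtype.val_injective⟩, b q)‖) atTop (𝓝 0) := by
    have h12 : Tendsto (fun F : Finset Q =>
        T f - T (g + ∑ q ∈ F.map ⟨Subtype.val, Subtype.val_injective⟩, b q)) atTop (𝓝 (T f - T f)) := by
      apply Tendsto.const_sub
      apply (T.continuous.tendsto f).comp
      refine hlim.congr fun F => hform F
    rw [sub_self] at h12
    simpa using h12.norm
  have hfinal : ∀ ε : ℝ, 0 < ε → volume {z | α < ‖T f z‖} ≤
      ENNReal.ofReal (K * (N / β)) + ENNReal.ofReal (ε ^ 2 / β ^ 2) := by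
    intro ε hε
    obtain ⟨F, hF⟩ := (hTlim.eventually (gt_mem_nhds hε)).exists
    set F' : Finset (ℤ × (Fin (n + 1) → ℤ)) := F.map ⟨Subtype.val, Subtype.val_injective⟩ with hF'
    have hF'Q : (F' : Set _) ⊆ Q := by
      intro q hq
      simp only [hF', Finset.coe_map, Function.Embedding.coeFn_mk, Set.mem_image] at hq
      obtain ⟨a, -, rfl⟩ := hq
      exact a.2
    set y : L2 n := T (g + ∑ q ∈ F', b q) with hy
    have hsub : volume {z | α < ‖T f z‖} ≤
        volume ({z | β < ‖y z‖} ∪ {z | β < ‖(T f - y) z‖}) := by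
      apply measure_mono_ae
      filter_upwards [Lp.coeFn_sub (T f) y] with z hz hz2
      change α < ‖T f z‖ at hz2
      by_contra hcon
      have hn1 : ¬ (β < ‖y z‖) := fun h => hcon (Or.inl h)
      have hn2 : ¬ (β < ‖(T f - y) z‖) := fun h => hcon (Or.inr h)
      push Not at hn1 hn2
      rw [hz, Pi.sub_apply] at hn2
      have := norm_add_le (y z) (T f z - y z)
      rw [add_sub_cancel] at this
      have : α = 2 * β := by rw [hβ]; ring
      linarith
    refine hsub.trans ((measure_union_le _ _).trans (add_le_add (hfin F' hF'Q) ?_))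
    refine (CZ_cheb2 (T f - y) hβ0).trans (ENNReal.ofReal_le_ofReal ?_)
    gcongr
  have hres : volume {z | α < ‖T f z‖} ≤ ENNReal.ofReal (K * (N / β)) := by
    have h13 : Tendsto (fun ε : ℝ => ENNReal.ofReal (K * (N / β)) + ENNReal.ofReal (ε ^ 2 / β ^ 2))
        (𝓝[>] 0) (𝓝 (ENNReal.ofReal (K * (N / β)) + ENNReal.ofReal (0 ^ 2 / β ^ 2))) := by
      apply Tendsto.mono_left _ nhdsWithin_le_nhds
      apply Tendsto.const_add
      apply ENNReal.tendsto_ofReal
      apply Tendsto.div_const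
      exact (continuous_pow 2).tendsto 0
    have h14 := ge_of_tendsto h13 (eventually_nhdsWithin_of_forall fun ε hε => hfinal ε hε)
    simpa using h14
  refine hres.trans (le_of_eq ?_)
  rw [hNf, ← ENNReal.ofReal_mul (by positivity)]
  congr 1
  rw [hβ]; field_simp

end

end Pool.Agent.W_eb6199
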