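import Pool.Agent.W_eb6199.EkLim

open MeasureTheory Complex Filter Topology
open scoped FourierTransform ComplexInnerProductSpace ENNReal NNReal

namespace Pool.Agent.W_eb6199

noncomputable section

variable {n : ℕ}

/-! T29: Calderon-Zygmund stopping cubes. -/

/-- the cube has large average -/
private def Big (f : L2 n) (α : ℝ) (k : ℤ) (m : Fin (n + 1) → ℤ) : Prop :=
  ENNReal.ofReal (α * qv n k) < ∫⁻ z in cube k m, ‖f z‖ₑ

private theorem exists_not_big (f : L2 n) (hf : N1 f ≠ ∞) {α : ℝ} (hα : 0 < α) :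
    ∃ K : ℤ, ∀ k, k ≤ K → ∀ m, ¬ Big f α k m := by
  obtain ⟨j, hj⟩ := exists_nat_gt ((N1 f).toReal / α)
  refine ⟨-(j : ℤ), fun k hk m hB => ?_⟩
  have h1 : (j : ℝ) ≤ qv n k := by
    obtain ⟨i, hi⟩ : ∃ i : ℕ, k = -(i : ℤ) := by
      refine ⟨(-k).toNat, ?_⟩
      have : 0 ≤ -k := by omega
      rw [Int.toNat_of_nonneg this]; ring
    have hij : j ≤ i := by omega
    have h2 : qv n k = ((2 : ℝ) ^ i) ^ (n + 2) := by
      unfold qv
      rw [hi, zpow_neg, inv_inv, zpow_natCast]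
    rw [h2]
    have h3 : (1 : ℝ) ≤ 2 ^ i := one_le_pow₀ (by norm_num)
    have h4 : ((2 : ℝ) ^ i) ^ 1 ≤ ((2 : ℝ) ^ i) ^ (n + 2) := pow_le_pow_right₀ h3 (by omega)
    have h5 : (i : ℝ) < 2 ^ i := by exact_mod_cast Nat.lt_two_pow_self
    have h6 : (j : ℝ) ≤ i := by exact_mod_cast hij
    rw [pow_one] at h4
    linarith
  have h2 : (N1 f) ≤ ENNReal.ofReal (α * qv n k) := by
    rw [← ENNReal.ofReal_toReal hf]
    refine ENNReal.ofReal_le_ofReal ?_
    have h3 := (div_lt_iff₀ hα).1 hj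
    nlinarith
  have h3 : ∫⁻ z in cube k m, ‖f z‖ₑ ≤ N1 f := setLIntegral_le_lintegral _ _
  exact absurd (lt_of_lt_of_le hB h3) (not_lt.2 h2)

theorem exists_cz (f : L2 n) (hf : N1 f ≠ ∞) {α : ℝ} (hα : 0 < α) :
    ∃ Q : Set (ℤ × (Fin (n + 1) → ℤ)), Q.PairwiseDisjoint (fun q => cube q.1 q.2) ∧
      (∀ q ∈ Q, ENNReal.ofReal (α * qv n q.1) < ∫⁻ z in cube q.1 q.2, ‖f z‖ₑ ∧
        ∫⁻ z in cube q.1 q.2, ‖f z‖ₑ ≤ ENNReal.ofReal (2 ^ (n + 2) * α * qv n q.1)) ∧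
      ∀ᵐ z ∂(volume : Measure (ST n)), (∀ q ∈ Q, z ∉ cube q.1 q.2) → ‖f z‖ ≤ α := by
  classical
  set Q : Set (ℤ × (Fin (n + 1) → ℤ)) := {q | Big f α q.1 q.2 ∧
    ∀ k' < q.1, ∀ m', cube q.1 q.2 ⊆ cube k' m' → ¬ Big f α k' m'} with hQ
  refine ⟨Q, ?_, ?_, ?_⟩
  · -- disjointness
    have key : ∀ q ∈ Q, ∀ q' ∈ Q, q ≠ q' → q.1 ≤ q'.1 →
        Disjoint (cube q.1 q.2) (cube q'.1 q'.2) := by
      rintro ⟨k, m⟩ hq ⟨k', m'⟩ hq' hne (hle : k ≤ k')
      rcases hle.lt_or_eq with hlt | heq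
      · rcases cube_subset_or_disjoint hle m m' with h | h
        · exact absurd hq.1 (hq'.2 k hlt m h)
        · exact h.symm
      · subst heq
        refine cube_disjoint ?_
        rintro rfl
        exact hne rfl
    intro q hq q' hq' hne
    rcases le_total q.1 q'.1 with h | h
    · exact key q hq q' hq' hne h
    · exact (key q' hq' q hq hne.symm h).symm
  · rintro ⟨k, m⟩ hq
    refine ⟨hq.1, ?_⟩
    obtain ⟨z, hz⟩ := cube_nonempty k m
    have hsub : cube k m ⊆ cube (k - 1) (idx (k - 1) z) := by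
      rcases cube_subset_or_disjoint (k := k - 1) (k' := k) (by omega) (idx (k - 1) z) m with h | h
      · exact h
      · exact absurd (Set.disjoint_left.1 h hz) (not_not.2 (mem_cube_idx (k - 1) z))
    have h1 := hq.2 (k - 1) (by simp) _ hsub
    have h2 : ∫⁻ z in cube k m, ‖f z‖ₑ ≤ ∫⁻ z in cube (k - 1) (idx (k - 1) z), ‖f z‖ₑ :=
      lintegral_mono_set hsub
    refine h2.trans ((not_lt.1 h1).trans (le_of_eq ?_))
    congr 1
    have h3 := qv_succ n (k - 1)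
    rw [show k - 1 + 1 = k by ring] at h3
    rw [h3]
    ring
  · refine (by
      first
        | exact fun h => ae_le_of_avg_le f hα.le (s := {z | ∀ q ∈ Q, z ∉ cube q.1 q.2}) h
        | exact fun h => ae_le_of_avg_le f (s := {z | ∀ q ∈ Q, z ∉ cube q.1 q.2}) h :
      (∀ z ∈ {z : ST n | ∀ q ∈ Q, z ∉ cube q.1 q.2}, ∀ k : ℤ, 0 ≤ k →
        ∫⁻ w in cube k (idx k z), ‖f w‖ₑ ≤ ENNReal.ofReal (α * qv n k)) →
      ∀ᵐ z ∂(volume : Measure (ST n)), z ∈ {z : ST n | ∀ q ∈ Q, z ∉ cube q.1 q.2} →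
        ‖f z‖ ≤ α) ?_
    intro z hz k _
    by_contra hcon
    have hbig : Big f α k (idx k z) := not_le.1 hcon
    obtain ⟨K, hK⟩ := exists_not_big f hf hα
    obtain ⟨k₀, hk₀, hmin⟩ := Int.exists_least_of_bdd (P := fun k => Big f α k (idx k z))
      ⟨K, fun j hj => by
        by_contra hlt
        exact hK j (by omega) _ hj⟩ ⟨k, hbig⟩
    refine hz (k₀, idx k₀ z) ⟨hk₀, ?_⟩ (mem_cube_idx k₀ z)
    intro k' hk' m' hsub hB
    have h1 : idx k' z = m' := mem_cube_iff.1 (hsub (mem_cube_idx k₀ z))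
    have h2 := hmin k' (by rw [h1]; exact hB)
    simp only at hk'
    omega

end

end Pool.Agent.W_eb6199
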