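import Pool.Agent.W_eb6199.EkBasic

open MeasureTheory Complex Filter Topology
open scoped FourierTransform ComplexInnerProductSpace ENNReal NNReal

namespace Pool.Agent.W_eb6199

noncomputable section

variable {n : ℕ}

/-! T30: dyadic Carleson embedding.  (Bellman function `4 (F - f²/(1+A))`.) -/

/-- the children of a cube -/
def chil (k : ℤ) (m : Fin (n + 1) → ℤ) : Finset (Fin (n + 1) → ℤ) :=
  (finite_subcubes (k := k) (k' := k + 1) (by omega) m).toFinset

theorem mem_chil {k : ℤ} {m m' : Fin (n + 1) → ℤ} :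
    m' ∈ chil k m ↔ cube (k + 1) m' ⊆ cube k m := by
  simp [chil]

theorem lintegral_chil (k : ℤ) (m : Fin (n + 1) → ℤ) (f : ST n → ℝ≥0∞) :
    ∫⁻ z in cube k m, f z = ∑ m' ∈ chil k m, ∫⁻ z in cube (k + 1) m', f z := by
  have h := cube_eq_biUnion_subcubes (k := k) (k' := k + 1) (by omega) m
  have h2 : cube k m = ⋃ m' ∈ chil k m, cube (k + 1) m' := by
    rw [h]
    ext z
    simp only [Set.mem_iUnion, Set.mem_ofPred_eq, mem_chil]
  rw [h2, lintegral_biUnion_finset]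
  · intro a _ b _ hab
    exact cube_disjoint hab
  · intro b _
    exact measurableSet_cube _ _

theorem chil_unique {k : ℤ} {m₁ m₂ m' : Fin (n + 1) → ℤ} (h1 : m' ∈ chil k m₁)
    (h2 : m' ∈ chil k m₂) : m₁ = m₂ := by
  by_contra hne
  rw [mem_chil] at h1 h2
  obtain ⟨z, hz⟩ := cube_nonempty (k + 1) m'
  exact (Set.disjoint_left.mp (cube_disjoint (k := k) hne)) (h1 hz) (h2 hz)

theorem tsum_chil_le (k : ℤ) (a : (Fin (n + 1) → ℤ) → ℝ≥0∞) :
    ∑' m, ∑ m' ∈ chil k m, a m' ≤ ∑' m', a m' := by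
  classical
  have h1 : ∀ m, ∑ m' ∈ chil k m, a m' = ∑' m', if m' ∈ chil k m then a m' else 0 := by
    intro m
    rw [tsum_eq_sum (s := chil k m)]
    · exact Finset.sum_congr rfl fun m' hm' => by rw [if_pos hm']
    · intro m' hm'
      rw [if_neg hm']
  simp_rw [h1]
  rw [ENNReal.tsum_comm]
  refine ENNReal.tsum_le_tsum fun m' => ?_
  by_cases hex : ∃ m, m' ∈ chil k m
  · obtain ⟨m, hm⟩ := hex
    rw [tsum_eq_single m]
    · rw [if_pos hm]
    · intro m₂ hne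
      rw [if_neg]
      intro h2
      exact hne (chil_unique h2 hm)
  · push Not at hex
    have : ∀ m, (if m' ∈ chil k m then a m' else 0) = 0 := fun m => if_neg (hex m)
    simp_rw [this]
    simp

theorem cs_cube (k : ℤ) (m : Fin (n + 1) → ℤ) (u : L2 n) :
    (∫⁻ z in cube k m, ‖u z‖ₑ) ^ 2 ≤
      ENNReal.ofReal (qv n k) * ∫⁻ z in cube k m, ‖u z‖ₑ ^ 2 := by
  have hmeas : AEMeasurable (fun z => ‖u z‖ₑ) (volume.restrict (cube k m)) :=
    (Lp.aestronglyMeasurable u).enorm.restrict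
  have h := ENNReal.lintegral_mul_le_Lp_mul_Lq (volume.restrict (cube k m))
    (p := 2) (q := 2) (Real.HolderConjugate.two_two) (f := fun _ => 1) (g := fun z => ‖u z‖ₑ)
    aemeasurable_const hmeas
  simp only [Pi.mul_apply, one_mul] at h
  have h2 : ∫⁻ _ in cube k m, (1 : ℝ≥0∞) ^ (2 : ℝ) =
      ENNReal.ofReal (qv n k) := by
    simp [volume_cube]
  rw [h2] at h
  have h3 : ∀ x : ℝ≥0∞, x ^ (2 : ℝ) = x ^ 2 := fun x => by
    rw [← ENNReal.rpow_natCast]; norm_num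
  simp_rw [h3] at h
  calc (∫⁻ z in cube k m, ‖u z‖ₑ) ^ 2
      ≤ (ENNReal.ofReal (qv n k) ^ (1 / 2 : ℝ) *
        (∫⁻ z in cube k m, ‖u z‖ₑ ^ 2) ^ (1 / 2 : ℝ)) ^ 2 := by gcongr
    _ = _ := by
      rw [mul_pow, ← ENNReal.rpow_natCast, ← ENNReal.rpow_natCast, ← ENNReal.rpow_mul,
        ← ENNReal.rpow_mul]
      norm_num

theorem lintegral_cube_ne_top (k : ℤ) (m : Fin (n + 1) → ℤ) (u : L2 n) :
    ∫⁻ z in cube k m, ‖u z‖ₑ ≠ ∞ := by
  intro htop
  have h := cs_cube k m u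
  rw [htop] at h
  have h2 : ∫⁻ z in cube k m, ‖u z‖ₑ ^ 2 ≠ ∞ := by
    refine ne_top_of_le_ne_top ?_ (setLIntegral_le_lintegral _ _)
    rw [← ofReal_norm_sq]
    exact ENNReal.ofReal_ne_top
  have h3 : ENNReal.ofReal (qv n k) * ∫⁻ z in cube k m, ‖u z‖ₑ ^ 2 ≠ ∞ :=
    ENNReal.mul_ne_top ENNReal.ofReal_ne_top h2
  apply h3
  rw [eq_top_iff]
  refine le_trans ?_ h
  simp

/-- the local inequality of the Bellman function argument -/
theorem bellman {ι : Type*} (s : Finset ι) (x b : ι → ℝ) (hb : ∀ i ∈ s, 0 < b i)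
    {X B g c : ℝ} (hs : s.Nonempty) (hX : ∑ i ∈ s, x i = X) (hB : ∑ i ∈ s, b i = B - g)
    (hg : 0 ≤ g) (hc : 0 < c) (hBc : B ≤ 2 * c) :
    X ^ 2 / B + g * X ^ 2 / (4 * c ^ 2) ≤ ∑ i ∈ s, x i ^ 2 / b i := by
  have h1 := Finset.sq_sum_div_le_sum_sq_div s x (g := b) hb
  rw [hX, hB] at h1
  refine le_trans ?_ h1
  have hpos : 0 < B - g := by
    rw [← hB]
    exact Finset.sum_pos hb hs
  have hBpos : 0 < B := by linarith
  have h2 : X ^ 2 / (B - g) - X ^ 2 / B = g * X ^ 2 / (B * (B - g)) := by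
    field_simp
    ring
  have h3 : g * X ^ 2 / (4 * c ^ 2) ≤ g * X ^ 2 / (B * (B - g)) := by
    apply div_le_div_of_nonneg_left (by positivity) (by positivity)
    nlinarith
  linarith

theorem carleson_embedding {G : ℤ → ST n → ℝ≥0∞} (hG : ∀ k, Measurable (G k)) {C : ℝ≥0} {K : ℤ}
    (h : ∀ (k₀ : ℤ) (m : Fin (n + 1) → ℤ),
      ∑ k ∈ Finset.Icc k₀ K, ∫⁻ z in cube k₀ m, G k z ≤ C * ENNReal.ofReal (qv n k₀))
    (u : L2 n) (k₁ : ℤ) :
    ∑ k ∈ Finset.Icc k₁ K, ∫⁻ z, G k z * ‖Ek k u z‖ₑ ^ 2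
      ≤ 4 * C * ENNReal.ofReal (‖u‖ ^ 2) := by
  classical
  -- each integral over a cube is finite
  have hfin : ∀ k ≤ K, ∀ k' ∈ Finset.Icc k K, ∀ m,
      ∫⁻ z in cube k m, G k' z ≤ C * ENNReal.ofReal (qv n k) := by
    intro k _ k' hk' m
    exact (Finset.single_le_sum (f := fun k' => ∫⁻ z in cube k m, G k' z)
      (fun _ _ => zero_le) hk').trans (h k m)
  rcases eq_or_ne C 0 with hC | hC
  · subst hC
    have : ∀ k ∈ Finset.Icc k₁ K, ∫⁻ z, G k z * ‖Ek k u z‖ₑ ^ 2 = 0 := by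
      intro k hk
      rw [Finset.mem_Icc] at hk
      rw [lintegral_norm_sq_Ek k u _ (hG k), ENNReal.tsum_eq_zero]
      intro m
      have h0 := hfin k hk.2 k (Finset.mem_Icc.mpr ⟨le_refl _, hk.2⟩) m
      simp only [ENNReal.coe_zero, zero_mul, nonpos_iff_eq_zero] at h0
      rw [h0, zero_mul]
    rw [Finset.sum_eq_zero this]
    exact zero_le
  have hCpos : (0 : ℝ) < C := by
    rw [NNReal.coe_pos]; exact pos_iff_ne_zero.mpr hC
  -- real quantities
  let x : ℤ → (Fin (n + 1) → ℤ) → ℝ := fun k m => (∫⁻ z in cube k m, ‖u z‖ₑ).toReal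
  let gg : ℤ → ℤ → (Fin (n + 1) → ℤ) → ℝ := fun k' k m => (∫⁻ z in cube k m, G k' z).toReal
  let s : ℤ → (Fin (n + 1) → ℤ) → ℝ := fun k m => ∑ k' ∈ Finset.Icc k K, gg k' k m
  let B : ℤ → (Fin (n + 1) → ℤ) → ℝ := fun k m => C * qv n k + s k m
  let a : ℤ → (Fin (n + 1) → ℤ) → ℝ≥0∞ := fun k m => ENNReal.ofReal (x k m ^ 2 / B k m)
  let b : ℤ → (Fin (n + 1) → ℤ) → ℝ≥0∞ := fun k m =>
    ENNReal.ofReal (gg k k m * x k m ^ 2 / (4 * (C * qv n k) ^ 2))
  have hq : ∀ k, 0 < qv n k := qv_pos n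
  have hgg0 : ∀ k' k m, 0 ≤ gg k' k m := fun _ _ _ => ENNReal.toReal_nonneg
  have hs0 : ∀ k m, 0 ≤ s k m := fun k m => Finset.sum_nonneg fun _ _ => hgg0 _ _ _
  have hBpos : ∀ k m, 0 < B k m := fun k m => by
    have := mul_pos hCpos (hq k)
    have := hs0 k m
    simp only [B]
    linarith
  have hsle : ∀ k ≤ K, ∀ m, s k m ≤ C * qv n k := by
    intro k hk m
    have h1 := h k m
    have h2 : ∑ k' ∈ Finset.Icc k K, ∫⁻ z in cube k m, G k' z =
        ENNReal.ofReal (s k m) := by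
      simp only [s, gg]
      rw [ENNReal.ofReal_sum_of_nonneg (fun _ _ => ENNReal.toReal_nonneg)]
      refine Finset.sum_congr rfl fun k' hk' => ?_
      rw [ENNReal.ofReal_toReal]
      exact ne_top_of_le_ne_top (by finiteness) (hfin k hk k' hk' m)
    rw [h2] at h1
    have h3 : (C : ℝ≥0∞) * ENNReal.ofReal (qv n k) = ENNReal.ofReal (C * qv n k) := by
      rw [ENNReal.ofReal_mul C.coe_nonneg, ENNReal.ofReal_coe_nnreal]
    rw [h3] at h1
    exact (ENNReal.ofReal_le_ofReal_iff (mul_nonneg C.coe_nonneg (hq k).le)).mp h1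
  have hxsum : ∀ k m, ∑ m' ∈ chil k m, x (k + 1) m' = x k m := by
    intro k m
    simp only [x]
    rw [lintegral_chil k m, ENNReal.toReal_sum]
    intro m' _
    exact lintegral_cube_ne_top _ _ _
  have hggsum : ∀ k ≤ K, ∀ k' ∈ Finset.Icc k K, ∀ m,
      ∑ m' ∈ chil k m, gg k' (k + 1) m' = gg k' k m := by
    intro k hk k' hk' m
    simp only [gg]
    have h1 := lintegral_chil k m (G k')
    have h2 : ∫⁻ z in cube k m, G k' z ≠ ∞ :=
      ne_top_of_le_ne_top (by finiteness) (hfin k hk k' hk' m)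
    rw [h1, ENNReal.toReal_sum]
    intro m' hm'
    rw [h1] at h2
    exact (ENNReal.sum_ne_top.mp h2) m' hm'
  have hqsum : ∀ (k : ℤ) (m : Fin (n + 1) → ℤ), ∑ _m' ∈ chil k m, qv n (k + 1) = qv n k := by
    intro k m
    have h1 := lintegral_chil k m (fun _ => 1)
    simp only [lintegral_const, one_mul, Measure.restrict_apply MeasurableSet.univ,
      Set.univ_inter, volume_cube] at h1
    rw [← ENNReal.ofReal_sum_of_nonneg (fun _ _ => (hq _).le)] at h1
    have h2 := congrArg ENNReal.toReal h1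
    rw [ENNReal.toReal_ofReal (hq k).le,
      ENNReal.toReal_ofReal (Finset.sum_nonneg fun _ _ => (hq _).le)] at h2
    exact h2.symm
  have hne : ∀ (k : ℤ) (m : Fin (n + 1) → ℤ), (chil k m).Nonempty := by
    intro k m
    by_contra hemp
    rw [Finset.not_nonempty_iff_eq_empty] at hemp
    have := hqsum k m
    rw [hemp, Finset.sum_empty] at this
    exact (hq k).ne this
  -- the local inequality
  have hloc : ∀ k ≤ K, ∀ m, x k m ^ 2 / B k m + gg k k m * x k m ^ 2 / (4 * (C * qv n k) ^ 2) ≤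
      ∑ m' ∈ chil k m, x (k + 1) m' ^ 2 / B (k + 1) m' := by
    intro k hk m
    refine bellman (chil k m) _ _ (fun m' _ => hBpos _ m') (hne k m) (hxsum k m) ?_
      (hgg0 k k m) (mul_pos hCpos (hq k)) ?_
    · simp only [B]
      rw [Finset.sum_add_distrib, ← Finset.mul_sum, hqsum k m]
      have h1 : ∑ m' ∈ chil k m, s (k + 1) m' = s k m - gg k k m := by
        simp only [s]
        rw [Finset.sum_comm]
        have h2 : Finset.Icc k K = insert k (Finset.Icc (k + 1) K) := by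
          ext i
          simp only [Finset.mem_insert, Finset.mem_Icc]
          omega
        have h3 : k ∉ Finset.Icc (k + 1) K := by simp
        rw [h2, Finset.sum_insert h3, add_sub_cancel_left]
        refine Finset.sum_congr rfl fun k' hk' => ?_
        refine hggsum k hk k' ?_ m
        rw [h2]
        exact Finset.mem_insert_of_mem hk'
      rw [h1]
      ring
    · have := hsle k hk m
      simp only [B]
      linarith
  -- sum over all cubes
  have hstep : ∀ k ≤ K, ∑' m, a k m + ∑' m, b k m ≤ ∑' m, a (k + 1) m := by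
    intro k hk
    rw [← ENNReal.tsum_add]
    refine le_trans (ENNReal.tsum_le_tsum fun m => ?_) (tsum_chil_le k (a (k + 1)))
    simp only [a, b]
    rw [← ENNReal.ofReal_add (by have := hBpos k m; positivity)
      (by have := hgg0 k k m; have := hq k; positivity),
      ← ENNReal.ofReal_sum_of_nonneg (fun m' _ => by have := hBpos (k + 1) m'; positivity)]
    exact ENNReal.ofReal_le_ofReal (hloc k hk m)
  have htel : ∀ N : ℕ, ∑' m, a (K + 1 - N) m +
      ∑ k ∈ Finset.Icc (K + 1 - N) K, ∑' m, b k m ≤ ∑' m, a (K + 1) m := by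
    intro N
    induction N with
    | zero => simp
    | succ N ih =>
      have h1 : Finset.Icc (K + 1 - ((N + 1 : ℕ) : ℤ)) K =
          insert (K + 1 - ((N + 1 : ℕ) : ℤ)) (Finset.Icc (K + 1 - (N : ℤ)) K) := by
        ext i
        simp only [Finset.mem_insert, Finset.mem_Icc]
        push_cast
        omega
      have h2 : (K + 1 - ((N + 1 : ℕ) : ℤ)) ∉ Finset.Icc (K + 1 - (N : ℤ)) K := by
        simp only [Finset.mem_Icc]
        push_cast
        omega
      rw [h1, Finset.sum_insert h2, ← add_assoc]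
      have h3 := hstep (K + 1 - ((N + 1 : ℕ) : ℤ)) (by push_cast; omega)
      have h4 : K + 1 - ((N + 1 : ℕ) : ℤ) + 1 = K + 1 - (N : ℤ) := by push_cast; ring
      rw [h4] at h3
      exact (add_le_add_left h3 _).trans ih
  -- the last generation
  have hlast : ∑' m, a (K + 1) m ≤ (C : ℝ≥0∞)⁻¹ * ENNReal.ofReal (‖u‖ ^ 2) := by
    rw [ofReal_norm_sq, lintegral_eq_tsum_cubes (K + 1) (fun z => ‖u z‖ₑ ^ 2), ← ENNReal.tsum_mul_left]
    refine ENNReal.tsum_le_tsum fun m => ?_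
    have hBK : B (K + 1) m = C * qv n (K + 1) := by
      simp only [B, s]
      rw [Finset.Icc_eq_empty (by omega), Finset.sum_empty, add_zero]
    simp only [a]
    rw [hBK]
    have hx2 : ENNReal.ofReal (x (K + 1) m ^ 2) = (∫⁻ z in cube (K + 1) m, ‖u z‖ₑ) ^ 2 := by
      simp only [x]
      rw [ENNReal.ofReal_pow ENNReal.toReal_nonneg, ENNReal.ofReal_toReal
        (lintegral_cube_ne_top _ _ _)]
    rw [ENNReal.ofReal_div_of_pos (mul_pos hCpos (hq _)), hx2,
      ENNReal.ofReal_mul C.coe_nonneg, ENNReal.ofReal_coe_nnreal]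
    have hq0 : ENNReal.ofReal (qv n (K + 1)) ≠ 0 := by
      rw [Ne, ENNReal.ofReal_eq_zero, not_le]; exact hq _
    have hC0 : (C : ℝ≥0∞) ≠ 0 := by exact_mod_cast hC
    refine ENNReal.div_le_of_le_mul ?_
    refine (cs_cube (K + 1) m u).trans (le_of_eq ?_)
    have h5 : (C : ℝ≥0∞)⁻¹ * (∫⁻ z in cube (K + 1) m, ‖u z‖ₑ ^ 2) *
        (C * ENNReal.ofReal (qv n (K + 1))) =
        ((C : ℝ≥0∞)⁻¹ * C) * (ENNReal.ofReal (qv n (K + 1)) *
          (∫⁻ z in cube (K + 1) m, ‖u z‖ₑ ^ 2)) := by ring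
    rw [h5, ENNReal.inv_mul_cancel hC0 ENNReal.coe_ne_top, one_mul]
  -- comparison of the left hand side with `b`
  have hcomp : ∀ k ∈ Finset.Icc k₁ K, ∫⁻ z, G k z * ‖Ek k u z‖ₑ ^ 2 ≤
      4 * (C : ℝ≥0∞) ^ 2 * ∑' m, b k m := by
    intro k hk
    rw [Finset.mem_Icc] at hk
    rw [lintegral_norm_sq_Ek k u _ (hG k), ← ENNReal.tsum_mul_left]
    refine ENNReal.tsum_le_tsum fun m => ?_
    have hgk : ∫⁻ z in cube k m, G k z = ENNReal.ofReal (gg k k m) := by
      simp only [gg]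
      rw [ENNReal.ofReal_toReal]
      exact ne_top_of_le_ne_top (by finiteness)
        (hfin k hk.2 k (Finset.mem_Icc.mpr ⟨le_refl _, hk.2⟩) m)
    have havg : ‖avg k m u‖ₑ ≤ ENNReal.ofReal (x k m / qv n k) := by
      rw [← ofReal_norm]
      apply ENNReal.ofReal_le_ofReal
      rw [avg, norm_smul, Real.norm_of_nonneg (inv_nonneg.mpr (hq k).le), div_eq_inv_mul]
      apply mul_le_mul_of_nonneg_left _ (inv_nonneg.mpr (hq k).le)
      simp only [x]
      refine (norm_integral_le_lintegral_norm _).trans (le_of_eq ?_)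
      simp_rw [ofReal_norm]
    rw [hgk]
    calc ENNReal.ofReal (gg k k m) * ‖avg k m u‖ₑ ^ 2
        ≤ ENNReal.ofReal (gg k k m) * ENNReal.ofReal (x k m / qv n k) ^ 2 := by gcongr
      _ = ENNReal.ofReal (gg k k m * (x k m / qv n k) ^ 2) := by
          rw [← ENNReal.ofReal_pow (div_nonneg ENNReal.toReal_nonneg (hq k).le),
            ← ENNReal.ofReal_mul (hgg0 k k m)]
      _ = ENNReal.ofReal (4 * (C : ℝ) ^ 2 *
            (gg k k m * x k m ^ 2 / (4 * (C * qv n k) ^ 2))) := by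
          congr 1
          have := (hq k).ne'
          field_simp
      _ = 4 * (C : ℝ≥0∞) ^ 2 * b k m := by
          rw [ENNReal.ofReal_mul (by positivity), ENNReal.ofReal_mul (by norm_num),
            ENNReal.ofReal_pow C.coe_nonneg, ENNReal.ofReal_coe_nnreal, ENNReal.ofReal_ofNat]
  rcases le_or_gt k₁ (K + 1) with hk | hk
  swap
  · rw [Finset.Icc_eq_empty (by omega), Finset.sum_empty]
    exact zero_le
  obtain ⟨N, hN⟩ : ∃ N : ℕ, K + 1 - (N : ℤ) = k₁ := ⟨(K + 1 - k₁).toNat, by omega⟩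
  have ht := htel N
  rw [hN] at ht
  have hC0 : (C : ℝ≥0∞) ≠ 0 := by exact_mod_cast hC
  calc ∑ k ∈ Finset.Icc k₁ K, ∫⁻ z, G k z * ‖Ek k u z‖ₑ ^ 2
      ≤ ∑ k ∈ Finset.Icc k₁ K, 4 * (C : ℝ≥0∞) ^ 2 * ∑' m, b k m := Finset.sum_le_sum hcomp
    _ = 4 * (C : ℝ≥0∞) ^ 2 * ∑ k ∈ Finset.Icc k₁ K, ∑' m, b k m := by rw [Finset.mul_sum]
    _ ≤ 4 * (C : ℝ≥0∞) ^ 2 * ((C : ℝ≥0∞)⁻¹ * ENNReal.ofReal (‖u‖ ^ 2)) := by
        gcongr
        exact (le_add_self.trans ht).trans hlast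
    _ = 4 * C * ENNReal.ofReal (‖u‖ ^ 2) := by
        have h6 : 4 * (C : ℝ≥0∞) ^ 2 * ((C : ℝ≥0∞)⁻¹ * ENNReal.ofReal (‖u‖ ^ 2)) =
          4 * C * (C * (C : ℝ≥0∞)⁻¹) * ENNReal.ofReal (‖u‖ ^ 2) := by ring
        rw [h6, ENNReal.mul_inv_cancel hC0 ENNReal.coe_ne_top, mul_one]

end

end Pool.Agent.W_eb6199
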