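import Pool.Agent.W_eb6199.Defs

open MeasureTheory Complex Filter Topology
open scoped FourierTransform ComplexInnerProductSpace ENNReal NNReal

namespace Pool.Agent.W_eb6199

noncomputable section

variable {n : ℕ}

/-! auxiliary pointwise facts for the truncation `Phi δ`. -/

/-- `sqrt (|a|² + δ²)` -/
def Rr (δ : ℝ) (a : ℂ) : ℝ := Real.sqrt (‖a‖ ^ 2 + δ ^ 2)

theorem Rr_sq (δ : ℝ) (a : ℂ) : Rr δ a ^ 2 = ‖a‖ ^ 2 + δ ^ 2 :=
  Real.sq_sqrt (by positivity)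

theorem Rr_pos {δ : ℝ} (hδ : 0 < δ) (a : ℂ) : 0 < Rr δ a :=
  Real.sqrt_pos.2 (by positivity)

theorem le_Rr {δ : ℝ} (_hδ : 0 < δ) (a : ℂ) : δ ≤ Rr δ a :=
  Real.le_sqrt_of_sq_le (by nlinarith [sq_nonneg ‖a‖])

theorem norm_le_Rr (δ : ℝ) (a : ℂ) : ‖a‖ ≤ Rr δ a :=
  Real.le_sqrt_of_sq_le (by nlinarith [sq_nonneg δ])

theorem continuous_Rr (δ : ℝ) : Continuous (Rr δ) := by
  unfold Rr
  fun_prop

theorem continuous_Phi {δ : ℝ} (hδ : 0 < δ) : Continuous (Phi δ) := by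
  unfold Phi
  refine continuous_id.div ?_ ?_
  · exact Complex.continuous_ofReal.comp (continuous_Rr δ)
  · intro a
    exact_mod_cast (Rr_pos hδ a).ne'

theorem norm_Phi_le {δ : ℝ} (hδ : 0 < δ) (a : ℂ) : ‖Phi δ a‖ ≤ δ⁻¹ * ‖a‖ := by
  unfold Phi
  rw [norm_div, Complex.norm_real, Real.norm_eq_abs]
  change ‖a‖ / |Rr δ a| ≤ _
  rw [abs_of_pos (Rr_pos hδ a), div_eq_inv_mul]
  exact mul_le_mul_of_nonneg_right (inv_anti₀ hδ (le_Rr hδ a)) (norm_nonneg _)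

/-- the real-linear map `w ↦ L(a,b,w)` with `Phi a - Phi b = L(a,b,a-b)` -/
def Lf (δ : ℝ) (a b w : ℂ) : ℂ :=
  w / (Rr δ a : ℂ) -
    ((((starRingEnd ℂ) (a + b) * w).re / (Rr δ a * Rr δ b * (Rr δ a + Rr δ b)) : ℝ) : ℂ) * b

theorem re_conj_add_mul_sub (a b : ℂ) :
    ((starRingEnd ℂ) (a + b) * (a - b)).re = ‖a‖ ^ 2 - ‖b‖ ^ 2 := by
  rw [← Complex.normSq_eq_norm_sq, ← Complex.normSq_eq_norm_sq, Complex.normSq_apply,
    Complex.normSq_apply]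
  simp
  ring

theorem Phi_sub {δ : ℝ} (hδ : 0 < δ) (a b : ℂ) : Phi δ a - Phi δ b = Lf δ a b (a - b) := by
  unfold Lf
  rw [re_conj_add_mul_sub]
  have h1 : ‖a‖ ^ 2 - ‖b‖ ^ 2 = Rr δ a ^ 2 - Rr δ b ^ 2 := by
    rw [Rr_sq, Rr_sq]; ring
  have ha := Rr_pos hδ a
  have hb := Rr_pos hδ b
  have h2 : (Rr δ a ^ 2 - Rr δ b ^ 2) / (Rr δ a * Rr δ b * (Rr δ a + Rr δ b)) =
      (Rr δ b)⁻¹ - (Rr δ a)⁻¹ := by
    field_simp
    ring
  rw [h1, h2]
  change a / (Rr δ a : ℂ) - b / (Rr δ b : ℂ) = _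
  push_cast
  have ha' : (Rr δ a : ℂ) ≠ 0 := by exact_mod_cast ha.ne'
  have hb' : (Rr δ b : ℂ) ≠ 0 := by exact_mod_cast hb.ne'
  field_simp
  ring

theorem norm_Lf_le {δ : ℝ} (hδ : 0 < δ) (a b w : ℂ) : ‖Lf δ a b w‖ ≤ 2 * δ⁻¹ * ‖w‖ := by
  unfold Lf
  have ha := Rr_pos hδ a
  have hb := Rr_pos hδ b
  have h1 : ‖w / (Rr δ a : ℂ)‖ ≤ δ⁻¹ * ‖w‖ := by
    rw [norm_div, Complex.norm_real, Real.norm_eq_abs, abs_of_pos ha, div_eq_inv_mul]
    exact mul_le_mul_of_nonneg_right (inv_anti₀ hδ (le_Rr hδ a)) (norm_nonneg _)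
  have h2 : ‖((((starRingEnd ℂ) (a + b) * w).re /
      (Rr δ a * Rr δ b * (Rr δ a + Rr δ b)) : ℝ) : ℂ) * b‖ ≤ δ⁻¹ * ‖w‖ := by
    rw [norm_mul, Complex.norm_real, Real.norm_eq_abs, abs_div,
      abs_of_pos (by positivity : 0 < Rr δ a * Rr δ b * (Rr δ a + Rr δ b))]
    have h3 : |((starRingEnd ℂ) (a + b) * w).re| ≤ (Rr δ a + Rr δ b) * ‖w‖ := by
      refine (Complex.abs_re_le_norm _).trans ?_
      rw [norm_mul, Complex.norm_conj]
      refine mul_le_mul_of_nonneg_right ?_ (norm_nonneg _)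
      exact (norm_add_le _ _).trans (add_le_add (norm_le_Rr δ a) (norm_le_Rr δ b))
    calc |((starRingEnd ℂ) (a + b) * w).re| / (Rr δ a * Rr δ b * (Rr δ a + Rr δ b)) * ‖b‖
        ≤ ((Rr δ a + Rr δ b) * ‖w‖) / (Rr δ a * Rr δ b * (Rr δ a + Rr δ b)) * Rr δ b := by
          gcongr
          exact norm_le_Rr δ b
      _ = (Rr δ a)⁻¹ * ‖w‖ := by
          field_simp
      _ ≤ δ⁻¹ * ‖w‖ :=
          mul_le_mul_of_nonneg_right (inv_anti₀ hδ (le_Rr hδ a)) (norm_nonneg _)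
  calc _ ≤ _ := norm_sub_le _ _
    _ ≤ δ⁻¹ * ‖w‖ + δ⁻¹ * ‖w‖ := add_le_add h1 h2
    _ = _ := by ring

theorem Lf_sub (δ : ℝ) (a b w w' : ℂ) : Lf δ a b (w - w') = Lf δ a b w - Lf δ a b w' := by
  unfold Lf
  rw [mul_sub, Complex.sub_re, sub_div, sub_div]
  push_cast
  ring

theorem Lf_real_mul (δ : ℝ) (a b w : ℂ) (s : ℝ) :
    Lf δ a b ((s : ℂ)⁻¹ * w) = (s : ℂ)⁻¹ * Lf δ a b w := by
  unfold Lf
  have h : ((starRingEnd ℂ) (a + b) * ((s : ℂ)⁻¹ * w)).re =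
      s⁻¹ * ((starRingEnd ℂ) (a + b) * w).re := by
    rw [show (starRingEnd ℂ) (a + b) * ((s : ℂ)⁻¹ * w) =
      ((s⁻¹ : ℝ) : ℂ) * ((starRingEnd ℂ) (a + b) * w) by push_cast; ring,
      Complex.re_ofReal_mul]
  rw [h]
  push_cast
  ring

theorem continuous_Lf {δ : ℝ} (hδ : 0 < δ) :
    Continuous fun p : ℂ × ℂ × ℂ => Lf δ p.1 p.2.1 p.2.2 := by
  unfold Lf
  have hR1 : Continuous fun p : ℂ × ℂ × ℂ => Rr δ p.1 := (continuous_Rr δ).comp continuous_fst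
  have hR2 : Continuous fun p : ℂ × ℂ × ℂ => Rr δ p.2.1 :=
    (continuous_Rr δ).comp (continuous_fst.comp continuous_snd)
  refine Continuous.sub ?_ (Continuous.mul ?_ (by fun_prop))
  · refine Continuous.div (by fun_prop) (Complex.continuous_ofReal.comp hR1) ?_
    intro p
    exact_mod_cast (Rr_pos hδ p.1).ne'
  · refine Complex.continuous_ofReal.comp ?_
    refine Continuous.div ?_ ((hR1.mul hR2).mul (hR1.add hR2)) ?_
    · refine Complex.continuous_re.comp ?_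
      refine Continuous.mul ?_ (by fun_prop)
      exact Complex.continuous_conj.comp (by fun_prop)
    · intro p
      have ha := Rr_pos hδ p.1
      have hb := Rr_pos hδ p.2.1
      positivity

theorem Lf_self {δ : ℝ} (hδ : 0 < δ) (a w : ℂ) :
    Lf δ a a w = ((Rr δ a)⁻¹ : ℂ) * w -
      ((Rr δ a)⁻¹ : ℂ) ^ 3 * (((starRingEnd ℂ) a * w).re : ℂ) * a := by
  unfold Lf
  have ha := Rr_pos hδ a
  have ha' : (Rr δ a : ℂ) ≠ 0 := by exact_mod_cast ha.ne'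
  have h1 : ((starRingEnd ℂ) (a + a) * w).re = 2 * ((starRingEnd ℂ) a * w).re := by
    rw [map_add, add_mul, Complex.add_re]; ring
  rw [h1]
  push_cast
  field_simp
  ring

/-- convexity of `sqrt(|a|²+δ²)` -/
theorem convex_Rr {δ : ℝ} (hδ : 0 < δ) (a b : ℂ) :
    Rr δ a - Rr δ b ≤ ((starRingEnd ℂ) (Phi δ a) * (a - b)).re := by
  have ha := Rr_pos hδ a
  have hb := Rr_pos hδ b
  have h1 : ((starRingEnd ℂ) (Phi δ a) * (a - b)).re =
      (Rr δ a)⁻¹ * (‖a‖ ^ 2 - ((starRingEnd ℂ) a * b).re) := by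
    unfold Phi
    rw [map_div₀, Complex.conj_ofReal]
    change (((starRingEnd ℂ) a / (Rr δ a : ℂ)) * (a - b)).re = _
    rw [show (starRingEnd ℂ) a / (Rr δ a : ℂ) * (a - b) =
      (((Rr δ a)⁻¹ : ℝ) : ℂ) * ((starRingEnd ℂ) a * a - (starRingEnd ℂ) a * b) by
        push_cast; ring, Complex.re_ofReal_mul, Complex.sub_re]
    congr 2
    rw [← Complex.normSq_eq_conj_mul_self, Complex.ofReal_re, Complex.normSq_eq_norm_sq]
  rw [h1]
  have h2 : ((starRingEnd ℂ) a * b).re ≤ ‖a‖ * ‖b‖ := by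
    refine (Complex.re_le_norm _).trans ?_
    rw [norm_mul, Complex.norm_conj]
  have h3 : ‖a‖ * ‖b‖ + δ ^ 2 ≤ Rr δ a * Rr δ b := by
    have h4 : (‖a‖ * ‖b‖ + δ ^ 2) ^ 2 ≤ (Rr δ a * Rr δ b) ^ 2 := by
      rw [mul_pow, Rr_sq, Rr_sq]
      nlinarith [sq_nonneg (‖a‖ - ‖b‖), mul_nonneg (sq_nonneg δ) (sq_nonneg (‖a‖ - ‖b‖))]
    exact (abs_le_of_sq_le_sq' h4 (by positivity)).2
  have h5 : Rr δ a - Rr δ b = (Rr δ a)⁻¹ * (Rr δ a ^ 2 - Rr δ a * Rr δ b) := by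
    field_simp
  rw [h5]
  refine mul_le_mul_of_nonneg_left ?_ (inv_nonneg.2 ha.le)
  rw [Rr_sq]
  linarith

theorem Rr_sub_le {δ : ℝ} (hδ : 0 < δ) (a : ℂ) : Rr δ a - δ ≤ δ⁻¹ * ‖a‖ ^ 2 := by
  have ha := Rr_pos hδ a
  have h1 := Rr_sq δ a
  have h2 := le_Rr hδ a
  have h3 : (Rr δ a - δ) * δ ≤ ‖a‖ ^ 2 := by nlinarith
  rw [← le_div_iff₀ hδ] at h3
  rw [inv_mul_eq_div]
  exact h3

/-- dominated convergence in `L²` -/
theorem tendsto_L2_of_dominated {f : ℕ → L2 n} {g h : L2 n} {C : ℝ}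
    (hdom : ∀ k, ∀ᵐ z ∂(volume : Measure (ST n)), ‖f k z - g z‖ ≤ C * ‖h z‖)
    (hlim : ∀ᵐ z ∂(volume : Measure (ST n)), Tendsto (fun k => f k z) atTop (𝓝 (g z))) :
    Tendsto f atTop (𝓝 g) := by
  rw [Lp.tendsto_Lp_iff_tendsto_eLpNorm']
  have h1 : ∀ k, eLpNorm (⇑(f k) - ⇑g) 2 (volume : Measure (ST n)) =
      (∫⁻ z, ‖f k z - g z‖ₑ ^ (2 : ℝ)) ^ (1 / 2 : ℝ) := by
    intro k
    rw [eLpNorm_eq_lintegral_rpow_enorm_toReal (by norm_num) (by norm_num)]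
    simp
  simp_rw [h1]
  have h2 : Tendsto (fun k => ∫⁻ z, ‖f k z - g z‖ₑ ^ (2 : ℝ)) atTop
      (𝓝 (∫⁻ z : ST n, 0)) := by
    refine tendsto_lintegral_of_dominated_convergence'
      (fun z => (ENNReal.ofReal C * ‖h z‖ₑ) ^ (2 : ℝ)) ?_ ?_ ?_ ?_
    · intro k
      have := ((Lp.aestronglyMeasurable (f k)).sub (Lp.aestronglyMeasurable g)).enorm
      exact this.pow_const _
    · intro k
      filter_upwards [hdom k] with z hz
      refine ENNReal.rpow_le_rpow ?_ (by norm_num)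
      rw [← ofReal_norm, ← ofReal_norm,
        ← ENNReal.ofReal_mul' (norm_nonneg _)]
      exact ENNReal.ofReal_le_ofReal hz
    · have h3 : ∀ z, (ENNReal.ofReal C * ‖h z‖ₑ) ^ (2 : ℝ) =
          ENNReal.ofReal C ^ (2 : ℝ) * ‖h z‖ₑ ^ (2 : ℝ) := by
        intro z
        rw [ENNReal.mul_rpow_of_nonneg _ _ (by norm_num)]
      simp_rw [h3]
      rw [lintegral_const_mul' _ _ (by
        exact (ENNReal.rpow_lt_top_of_nonneg (by norm_num) ENNReal.ofReal_ne_top).ne)]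
      refine ENNReal.mul_ne_top
        (ENNReal.rpow_lt_top_of_nonneg (by norm_num) ENNReal.ofReal_ne_top).ne ?_
      have h4 := (Lp.memLp h).eLpNorm_ne_top
      rw [eLpNorm_eq_lintegral_rpow_enorm_toReal (by norm_num) (by norm_num)] at h4
      intro h5
      apply h4
      simp only [ENNReal.toReal_ofNat]
      rw [h5]
      simp
    · filter_upwards [hlim] with z hz
      have h5 : Tendsto (fun k => ‖f k z - g z‖ₑ) atTop (𝓝 0) := by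
        have := (hz.sub_const (g z)).enorm
        simpa using this
      have h6 := (ENNReal.continuous_rpow_const (y := (2 : ℝ))).tendsto 0
      rw [ENNReal.zero_rpow_of_pos (by norm_num)] at h6
      exact h6.comp h5
  rw [lintegral_zero] at h2
  have h6 := (ENNReal.continuous_rpow_const (y := (1 / 2 : ℝ))).tendsto 0
  rw [ENNReal.zero_rpow_of_pos (by norm_num)] at h6
  exact h6.comp h2

/-- a convergent sequence in `L²` has an a.e. convergent subsequence -/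
theorem exists_subseq_ae {f : ℕ → L2 n} {g : L2 n} (h : Tendsto f atTop (𝓝 g)) :
    ∃ φ : ℕ → ℕ, StrictMono φ ∧
      ∀ᵐ z ∂(volume : Measure (ST n)), Tendsto (fun k => f (φ k) z) atTop (𝓝 (g z)) :=
  (tendstoInMeasure_of_tendsto_Lp h).exists_seq_tendsto_ae

end

end Pool.Agent.W_eb6199
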