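import Pool.Agent.W_eb6199.Mul

open MeasureTheory Complex Filter Topology
open scoped FourierTransform ComplexInnerProductSpace ENNReal NNReal

namespace Pool.Agent.W_eb6199

noncomputable section

variable {n : ℕ}

/-! T02: translations. -/

theorem tr_zero (u : L2 n) : tr 0 u = u := by
  apply Lp.ext
  filter_upwards [tr_coe 0 u] with z hz
  rw [hz, sub_zero]

theorem tr_add (h h' : ST n) (u : L2 n) : tr (h + h') u = tr h (tr h' u) := by
  apply Lp.ext
  have h1 : ∀ᵐ z ∂(volume : Measure (ST n)), (tr h' u : ST n → ℂ) (z - h) = u (z - h - h') :=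
    (measurePreserving_sub_right volume h).quasiMeasurePreserving.ae (tr_coe h' u)
  filter_upwards [tr_coe (h + h') u, tr_coe h (tr h' u), h1] with z hz hz' hz1
  rw [hz, hz', hz1]
  congr 1
  abel

theorem tr_neg_tr (h : ST n) (u : L2 n) : tr (-h) (tr h u) = u := by
  rw [← tr_add, show (-h + h : ST n) = 0 from neg_add_cancel h, tr_zero]

theorem tr_tr_neg (h : ST n) (u : L2 n) : tr h (tr (-h) u) = u := by
  rw [← tr_add, show (h + -h : ST n) = 0 from add_neg_cancel h, tr_zero]

theorem continuous_tr (u : L2 n) : Continuous fun h : ST n => tr h u := by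
  have hg : Continuous (fun h : ST n => (⟨fun z => z - h, by fun_prop⟩ : C(ST n, ST n))) := by
    refine ContinuousMap.continuous_of_continuous_uncurry _ ?_
    simp only [Function.uncurry_def, ContinuousMap.coe_mk]
    fun_prop
  exact Continuous.compMeasurePreservingLp (f := fun _ : ST n => u) continuous_const hg
    (fun h => measurePreserving_sub_right volume h) ENNReal.ofNat_ne_top

theorem continuous_tr_ev (j : Fin (n + 1)) (u : L2 n) :
    Continuous fun s : ℝ => tr (s • ev j) u :=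
  (continuous_tr u).comp (continuous_id.smul continuous_const)

theorem tr_mulOp {m : ST n → ℂ} (hm : BM m) (h : ST n) (u : L2 n) :
    tr h (mulOp m u) = mulOp (fun z => m (z - h)) (tr h u) := by
  have hm' : BM fun z => m (z - h) :=
    ⟨hm.meas.comp (measurable_id.sub_const h), hm.bdd.imp fun C hC z => hC _⟩
  apply Lp.ext
  have h1 : ∀ᵐ z ∂(volume : Measure (ST n)),
      (mulOp m u : ST n → ℂ) (z - h) = m (z - h) * u (z - h) :=
    (measurePreserving_sub_right volume h).quasiMeasurePreserving.ae (mulOp_coe hm u)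
  filter_upwards [tr_coe h (mulOp m u), mulOp_coe hm' (tr h u), tr_coe h u, h1] with z a b c d
  rw [a, b, c, d]

theorem inner_tr_tr (h : ST n) (u v : L2 n) : ⟪tr h u, tr h v⟫ = ⟪u, v⟫ :=
  (tr h).inner_map_map u v

theorem inner_tr_left (h : ST n) (u v : L2 n) : ⟪tr h u, v⟫ = ⟪u, tr (-h) v⟫ := by
  rw [← inner_tr_tr h u (tr (-h) v), tr_tr_neg]

theorem norm_tr_sub_neg (h : ST n) (u : L2 n) : ‖u - tr (-h) u‖ = ‖u - tr h u‖ := by
  rw [← (tr h).norm_map (u - tr (-h) u), map_sub, tr_tr_neg, norm_sub_rev]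

theorem lintegral_tr (h : ST n) (u : L2 n) (s : Set (ST n)) (hs : MeasurableSet s) :
    ∫⁻ z in s, ‖tr h u z‖ₑ = ∫⁻ z in {z | z + h ∈ s}, ‖u z‖ₑ := by
  have h1 : ∫⁻ z in s, ‖tr h u z‖ₑ = ∫⁻ z in s, ‖u (z - h)‖ₑ := by
    refine lintegral_congr_ae (ae_restrict_of_ae ?_)
    filter_upwards [tr_coe h u] with z hz
    rw [hz]
  have hs' : MeasurableSet {z | z + h ∈ s} := (measurable_id.add_const h) hs
  rw [h1, ← lintegral_indicator hs, ← lintegral_indicator hs',
    ← lintegral_sub_right_eq_self (μ := volume) (fun z => Set.indicator {z | z + h ∈ s} (fun z => ‖u z‖ₑ) z) h]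
  refine lintegral_congr fun z => ?_
  by_cases hz : z ∈ s
  · rw [Set.indicator_of_mem hz, Set.indicator_of_mem (by simpa using hz)]
  · rw [Set.indicator_of_notMem hz, Set.indicator_of_notMem (by simpa using hz)]

theorem N1_tr (h : ST n) (u : L2 n) : N1 (tr h u) = N1 u := by
  have := lintegral_tr h u Set.univ MeasurableSet.univ
  simpa [N1] using this

/-- the unimodular symbol of a translation -/
theorem BM_phase (s : ℝ) (j : Fin (n + 1)) :
    BM fun ζ : ST n => Complex.exp (-(2 * Real.pi * I * (s * ζ j : ℝ))) := by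
  refine ⟨?_, 1, fun z => ?_⟩
  · apply Continuous.measurable
    fun_prop
  · rw [Complex.norm_exp]
    simp

theorem fourier_tr_aux (s : ℝ) (j : Fin (n + 1)) (f : SchwartzMap (ST n) ℂ) :
    𝓕 (tr (s • ev j) (f.toLp 2)) =
      mulOp (fun ζ : ST n => Complex.exp (-(2 * Real.pi * I * (s * ζ j : ℝ)))) (𝓕 (f.toLp 2)) := by
  have h1 : tr (s • ev j) (f.toLp 2) = (f.compSubConstCLM ℂ (s • ev j)).toLp 2 := by
    apply Lp.ext
    have h2 : ∀ᵐ z ∂(volume : Measure (ST n)), (f.toLp 2 : ST n → ℂ) (z - s • ev j) = f (z - s • ev j) :=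
      (measurePreserving_sub_right volume (s • ev j)).quasiMeasurePreserving.ae (f.coeFn_toLp 2 volume)
    filter_upwards [tr_coe (s • ev j) (f.toLp 2), h2, (f.compSubConstCLM ℂ (s • ev j)).coeFn_toLp 2 volume] with z a b c
    rw [a, b, c, SchwartzMap.compSubConstCLM_apply]
  rw [h1, SchwartzMap.toLp_fourier_eq, SchwartzMap.toLp_fourier_eq]
  apply Lp.ext
  filter_upwards [(𝓕 (f.compSubConstCLM ℂ (s • ev j))).coeFn_toLp 2 volume,
    (𝓕 f).coeFn_toLp 2 volume, mulOp_coe (BM_phase s j) ((𝓕 f).toLp 2)] with z a b c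
  rw [a, c, b]
  rw [SchwartzMap.fourier_coe, SchwartzMap.fourier_coe]
  have h3 : (⇑(f.compSubConstCLM ℂ (s • ev j)) : ST n → ℂ) = (⇑f) ∘ fun v => v + (-(s • ev j)) := by
    funext v
    rw [SchwartzMap.compSubConstCLM_apply, Function.comp_apply, sub_eq_add_neg]
  rw [h3, Real.fourier_eq', Real.fourier_eq']
  have h4 := congrFun (VectorFourier.fourierIntegral_comp_add_right Real.fourierChar volume
    (innerₗ (ST n)) (⇑f) (-(s • ev j))) z
  simp only [VectorFourier.fourierIntegral, Circle.smul_def, Real.fourierChar_apply, smul_eq_mul] at h4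
  have h5 : (innerₗ (ST n)) (-(s • ev j)) z = -(s * z j) := by
    rw [innerₗ_apply_apply, inner_neg_left, real_inner_smul_left, ev,
      EuclideanSpace.inner_single_left]
    simp
  rw [h5] at h4
  have h6 : ∀ g : ST n → ℂ, (∫ (v : ST n), cexp (↑(-2 * Real.pi * inner ℝ v z) * I) • g v) =
      ∫ (v : ST n), cexp (↑(2 * Real.pi * -((innerₗ (ST n)) v) z) * I) * g v := by
    intro g
    refine integral_congr_ae (Eventually.of_forall fun v => ?_)
    simp only [smul_eq_mul, innerₗ_apply_apply]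
    congr 4
    ring
  rw [h6, h6, h4]
  congr 2
  push_cast
  ring

/-- translation along a coordinate axis on the Fourier side -/
theorem fourier_tr_ev (s : ℝ) (j : Fin (n + 1)) (u : L2 n) :
    ((𝓕 (tr (s • ev j) u) : L2 n) : ST n → ℂ) =ᵐ[volume]
      fun ζ => Complex.exp (-(2 * Real.pi * I * (s * ζ j : ℝ))) * (𝓕 u : L2 n) ζ := by
  have key : 𝓕 (tr (s • ev j) u) =
      mulOp (fun ζ : ST n => Complex.exp (-(2 * Real.pi * I * (s * ζ j : ℝ)))) (𝓕 u) := by
    have hd : DenseRange (SchwartzMap.toLpCLM ℝ ℂ 2 (volume : Measure (ST n))) :=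
      SchwartzMap.denseRange_toLpCLM ENNReal.ofNat_ne_top
    refine DenseRange.induction_on hd u ?_ fun f => fourier_tr_aux s j f
    refine isClosed_eq ?_ ?_
    · exact (Lp.fourierTransformₗᵢ (ST n) ℂ).continuous.comp (tr (s • ev j)).continuous
    · exact (mulOp _).continuous.comp (Lp.fourierTransformₗᵢ (ST n) ℂ).continuous
  rw [key]
  exact mulOp_coe (BM_phase s j) _

end

end Pool.Agent.W_eb6199
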