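import Pool.Agent.W_eb6199.Energy
import Pool.Agent.W_eb6199.Trans

open MeasureTheory Complex Filter Topology
open scoped FourierTransform ComplexInnerProductSpace ENNReal NNReal

namespace Pool.Agent.W_eb6199

noncomputable section

variable {n : ℕ}

/-! T06: the half derivative `D 0 = D_t^{1/2}` and time differences. -/

/-- the profile `|1 - e^{-iy}|² / y²` -/
def tdqF (y : ℝ) : ℝ≥0∞ :=
  ENNReal.ofReal (‖(1 : ℂ) - Complex.exp (-(I * (y : ℂ)))‖ ^ 2 * (y ^ 2)⁻¹)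

theorem tdqF_measurable : Measurable tdqF := by
  unfold tdqF
  fun_prop

theorem tdq_norm_le (y : ℝ) : ‖(1 : ℂ) - Complex.exp (-(I * (y : ℂ)))‖ ≤ |y| := by
  have h := Real.norm_exp_I_mul_ofReal_sub_one_le (x := -y)
  rw [norm_sub_rev]
  have e : -(I * (y : ℂ)) = I * ((-y : ℝ) : ℂ) := by push_cast; ring
  rw [e]
  simpa using h

theorem tdq_norm_le_two (y : ℝ) : ‖(1 : ℂ) - Complex.exp (-(I * (y : ℂ)))‖ ≤ 2 := by
  refine (norm_sub_le _ _).trans ?_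
  have e : -(I * (y : ℂ)) = ((-y : ℝ) : ℂ) * I := by push_cast; ring
  rw [e, Complex.norm_exp_ofReal_mul_I]
  norm_num

theorem tdqF_le (y : ℝ) : tdqF y ≤ ENNReal.ofReal (8 * (1 + y ^ 2)⁻¹) := by
  unfold tdqF
  refine ENNReal.ofReal_le_ofReal ?_
  have h1 := tdq_norm_le y
  have h2 := tdq_norm_le_two y
  have h0 := norm_nonneg ((1 : ℂ) - Complex.exp (-(I * (y : ℂ))))
  set a := ‖(1 : ℂ) - Complex.exp (-(I * (y : ℂ)))‖
  have ha1 : a ^ 2 ≤ y ^ 2 := by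
    rw [← sq_abs y]; exact pow_le_pow_left₀ h0 h1 2
  have ha2 : a ^ 2 ≤ 4 := by nlinarith
  rcases eq_or_ne y 0 with rfl | hy
  · simp
  have hy2 : 0 < y ^ 2 := by positivity
  rw [← div_eq_mul_inv, ← div_eq_mul_inv, div_le_div_iff₀ hy2 (by positivity)]
  nlinarith

theorem tdqF_lintegral_lt_top : ∫⁻ y, tdqF y < ∞ := by
  refine lt_of_le_of_lt (lintegral_mono tdqF_le) ?_
  have h : Integrable (fun y : ℝ => 8 * (1 + y ^ 2)⁻¹) := integrable_inv_one_add_sq.const_mul 8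
  exact h.lintegral_lt_top

theorem tdqF_lintegral_pos : 0 < ∫⁻ y, tdqF y := by
  rw [lintegral_pos_iff_support tdqF_measurable]
  refine lt_of_lt_of_le ?_ (measure_mono (show Set.Ioo (0 : ℝ) Real.pi ⊆ _ from ?_))
  · rw [Real.volume_Ioo]
    simp [Real.pi_pos]
  · intro y hy
    rw [Function.mem_support]
    unfold tdqF
    have h1 : (1 : ℂ) - Complex.exp (-(I * (y : ℂ))) ≠ 0 := by
      intro h
      have h2 := congrArg Complex.im h
      have e : -(I * (y : ℂ)) = ((-y : ℝ) : ℂ) * I := by push_cast; ring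
      rw [e, Complex.sub_im, Complex.exp_ofReal_mul_I_im] at h2
      simp only [Complex.one_im, Real.sin_neg, sub_neg_eq_add, zero_add, Complex.zero_im] at h2
      exact (Real.sin_pos_of_pos_of_lt_pi hy.1 hy.2).ne' h2
    have h3 : 0 < y ^ 2 := by have := hy.1; positivity
    have h4 : 0 < ‖(1 : ℂ) - Complex.exp (-(I * (y : ℂ)))‖ := norm_pos_iff.2 h1
    exact (ENNReal.ofReal_pos.2 (by positivity)).ne'

/-- the constant -/
def tdqK : ℝ≥0∞ := ∫⁻ y, tdqF y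

theorem tdqK_ne_zero : tdqK ≠ 0 := tdqF_lintegral_pos.ne'

theorem tdqK_ne_top : tdqK ≠ ∞ := tdqF_lintegral_lt_top.ne

theorem tdq_scale (τ : ℝ) : ∫⁻ s : ℝ, ENNReal.ofReal
    (‖(1 : ℂ) - Complex.exp (-(2 * Real.pi * I * (s * τ : ℝ)))‖ ^ 2 * (s ^ 2)⁻¹) =
      ENNReal.ofReal (2 * Real.pi * |τ|) * tdqK := by
  rcases eq_or_ne τ 0 with rfl | hτ
  · simp
  obtain ⟨a, ha⟩ : ∃ a : ℝ, a = 2 * Real.pi * τ := ⟨_, rfl⟩
  have ha0 : a ≠ 0 := by
    rw [ha]; have := Real.pi_pos; positivity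
  have h1 : ∀ s : ℝ, ENNReal.ofReal
      (‖(1 : ℂ) - Complex.exp (-(2 * Real.pi * I * (s * τ : ℝ)))‖ ^ 2 * (s ^ 2)⁻¹) =
      ENNReal.ofReal (a ^ 2) * tdqF (a * s) := by
    intro s
    unfold tdqF
    rw [← ENNReal.ofReal_mul (by positivity)]
    congr 1
    have e : -(2 * Real.pi * I * (s * τ : ℝ) : ℂ) = -(I * ((a * s : ℝ) : ℂ)) := by
      rw [ha]; push_cast; ring
    rw [e, mul_pow a s, mul_inv]
    field_simp
  simp only [h1]
  rw [lintegral_const_mul' _ _ ENNReal.ofReal_ne_top]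
  have h2 : ∫⁻ s : ℝ, tdqF (a * s) = ENNReal.ofReal |a⁻¹| * tdqK := by
    rw [← lintegral_map (μ := volume) tdqF_measurable (measurable_const_mul a),
      Real.map_volume_mul_left ha0, lintegral_smul_measure]
    rfl
  rw [h2, ← mul_assoc, ← ENNReal.ofReal_mul (by positivity)]
  congr 2
  have : |a| = 2 * Real.pi * |τ| := by
    rw [ha, abs_mul, abs_of_pos (by have := Real.pi_pos; positivity)]
  rw [← this, abs_inv, ← sq_abs]
  have : |a| ≠ 0 := abs_ne_zero.2 ha0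
  field_simp

theorem tdq_FMul (u : L2 n) (s : ℝ) :
    FMul (fun ζ => (1 : ℂ) - Complex.exp (-(2 * Real.pi * I * (s * ζ 0 : ℝ)))) u
      (u - tr (s • ev 0) u) := by
  have h1 := fourier_tr_ev s 0 u
  unfold FMul
  have h2 : (𝓕 (u - tr (s • ev 0) u) : L2 n) = 𝓕 u - 𝓕 (tr (s • ev 0) u) := by
    exact map_sub (Lp.fourierTransformₗᵢ (ST n) ℂ) _ _
  rw [h2]
  filter_upwards [h1, Lp.coeFn_sub (𝓕 u : L2 n) (𝓕 (tr (s • ev 0) u) : L2 n)] with ζ h3 h4
  rw [h4, Pi.sub_apply, h3]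
  ring

theorem tdq_enorm_gsym (ζ : ST n) : ‖gsym 0 ζ‖ₑ ^ 2 = ENNReal.ofReal (2 * Real.pi * |ζ 0|) := by
  have h0 : 0 ≤ 2 * Real.pi * |ζ 0| := by have := Real.pi_pos; positivity
  rw [gsym_zero, ← ofReal_norm, ← ENNReal.ofReal_pow (norm_nonneg _)]
  rw [Complex.norm_real, Real.norm_eq_abs, sq_abs, Real.sq_sqrt h0]

theorem tdq_main (u : L2 n) :
    ∫⁻ s : ℝ, ENNReal.ofReal (‖u - tr (s • ev 0) u‖ ^ 2 / s ^ 2) =
      tdqK * ∫⁻ ζ, ‖gsym 0 ζ‖ₑ ^ 2 * ‖(𝓕 u : L2 n) ζ‖ₑ ^ 2 := by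
  have h1 : ∀ s : ℝ, ENNReal.ofReal (‖u - tr (s • ev 0) u‖ ^ 2 / s ^ 2) =
      ∫⁻ ζ : ST n, ENNReal.ofReal
        (‖(1 : ℂ) - Complex.exp (-(2 * Real.pi * I * (s * ζ 0 : ℝ)))‖ ^ 2 * (s ^ 2)⁻¹) *
        ‖(𝓕 u : L2 n) ζ‖ₑ ^ 2 := by
    intro s
    rw [div_eq_mul_inv, ENNReal.ofReal_mul (by positivity), ofReal_norm_sq_FMul (tdq_FMul u s),
      ← lintegral_mul_const' _ _ ENNReal.ofReal_ne_top]
    refine lintegral_congr fun ζ => ?_
    rw [ENNReal.ofReal_mul (by positivity), ENNReal.ofReal_pow (norm_nonneg _),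
      ofReal_norm]
    ring
  simp only [h1]
  have hm : Measurable fun ζ => ((𝓕 u : L2 n) : ST n → ℂ) ζ :=
    (Lp.stronglyMeasurable (𝓕 u : L2 n)).measurable
  rw [lintegral_lintegral_swap]
  · rw [← lintegral_const_mul _ (by
      have := measurable_gsym (n := n) 0
      fun_prop)]
    refine lintegral_congr fun ζ => ?_
    rw [lintegral_mul_const' _ _ (by
      exact ENNReal.pow_ne_top enorm_ne_top), tdq_scale, tdq_enorm_gsym]
    ring
  · refine Measurable.aemeasurable ?_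
    have hm' : Measurable fun p : ℝ × ST n => ((𝓕 u : L2 n) : ST n → ℂ) p.2 :=
      hm.comp measurable_snd
    have h0 : Measurable fun p : ℝ × ST n => p.2 0 := by fun_prop
    unfold Function.uncurry
    fun_prop

/-- `∫ |1 - e^{-iy}|² y^{-2} dy < ∞` gives the Gagliardo formula for `‖D_t^{1/2} u‖²` -/
theorem exists_ct : ∃ c : ℝ, 0 < c ∧ ∀ (n : ℕ) (u w : L2 n), FMul (gsym 0) u w →
    ∫⁻ s : ℝ, ENNReal.ofReal (‖u - tr (s • ev 0) u‖ ^ 2 / s ^ 2)
      = ENNReal.ofReal (c * ‖w‖ ^ 2) := by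
  refine ⟨tdqK.toReal, ENNReal.toReal_pos tdqK_ne_zero tdqK_ne_top, ?_⟩
  intro n u w h
  rw [tdq_main, ← ofReal_norm_sq_FMul h, ENNReal.ofReal_mul ENNReal.toReal_nonneg,
    ENNReal.ofReal_toReal tdqK_ne_top]

theorem FMul_of_lintegral {u : L2 n}
    (h : ∫⁻ s : ℝ, ENNReal.ofReal (‖u - tr (s • ev 0) u‖ ^ 2 / s ^ 2) < ∞) :
    ∃ w, FMul (gsym 0) u w := by
  rw [tdq_main] at h
  rw [FMul_exists_iff]
  have hm : Measurable fun ζ => ((𝓕 u : L2 n) : ST n → ℂ) ζ :=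
    (Lp.stronglyMeasurable (𝓕 u : L2 n)).measurable
  refine ⟨((measurable_gsym 0).mul hm).aestronglyMeasurable, ?_⟩
  rw [eLpNorm_lt_top_iff_lintegral_rpow_enorm_lt_top (by norm_num) (by norm_num)]
  have h2 : ∫⁻ ζ, ‖gsym 0 ζ‖ₑ ^ 2 * ‖(𝓕 u : L2 n) ζ‖ₑ ^ 2 < ∞ := by
    by_contra hc
    rw [not_lt, top_le_iff] at hc
    rw [hc, ENNReal.mul_top tdqK_ne_zero] at h
    exact lt_irrefl _ h
  refine lt_of_le_of_lt (le_of_eq ?_) h2
  refine lintegral_congr fun ζ => ?_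
  rw [enorm_mul]
  simp only [ENNReal.toReal_ofNat, ENNReal.rpow_ofNat]
  rw [mul_pow]

/-- the time part of the form as a limit of difference quotients (two sided limit) -/
theorem tendsto_time_form {u v : L2 n} (hu : u ∈ En n) (hv : v ∈ En n) :
    Tendsto (fun s : ℝ => ⟪v, ((s : ℂ)⁻¹) • (u - tr (s • ev 0) u)⟫) (𝓝[≠] 0)
      (𝓝 ⟪D 0 v, Ht (D 0 u)⟫) := by
  have hDu := FMul_D hu 0
  have hDv := FMul_D hv 0
  have hsgn : BM (fun ζ : ST n => I * (Real.sign (ζ 0) : ℂ)) := by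
    refine ⟨?_, 1, ?_⟩
    · have : Measurable fun ζ : ST n => Real.sign (ζ 0) := by
        have h1 : Measurable Real.sign := by
          have : Real.sign = fun r : ℝ => if r < 0 then (-1 : ℝ) else if 0 < r then 1 else 0 := rfl
          rw [this]
          refine Measurable.ite measurableSet_Iio measurable_const ?_
          exact Measurable.ite measurableSet_Ioi measurable_const measurable_const
        exact h1.comp (by fun_prop)
      fun_prop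
    · intro z
      rw [norm_mul, Complex.norm_I, one_mul, Complex.norm_real]
      rcases Real.sign_apply_eq (z 0) with h | h | h <;> rw [h] <;> norm_num
  have hHt : FMul (fun ζ => I * (Real.sign (ζ 0) : ℂ) * gsym 0 ζ) u (Ht (D 0 u)) :=
    hDu.comp (FMul_fOp hsgn (D 0 u))
  have hone : FMul (fun _ : ST n => (1 : ℂ)) v v := by
    unfold FMul
    filter_upwards with ζ
    rw [one_mul]
  have hlim := inner_FMul hHt hDv
  rw [hlim]
  have hdq : ∀ s : ℝ, FMul (fun ζ : ST n => (s : ℂ)⁻¹ *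
      ((1 : ℂ) - Complex.exp (-(2 * Real.pi * I * (s * ζ 0 : ℝ))))) u
      (((s : ℂ)⁻¹) • (u - tr (s • ev 0) u)) := by
    intro s
    have h1 := tdq_FMul u s
    unfold FMul at h1 ⊢
    have h2 : (𝓕 (((s : ℂ)⁻¹) • (u - tr (s • ev 0) u)) : L2 n) =
        ((s : ℂ)⁻¹) • 𝓕 (u - tr (s • ev 0) u) :=
      map_smul (Lp.fourierTransformₗᵢ (ST n) ℂ) _ _
    rw [h2]
    filter_upwards [h1, Lp.coeFn_smul ((s : ℂ)⁻¹) (𝓕 (u - tr (s • ev 0) u) : L2 n)] with ζ h3 h4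
    rw [h4, Pi.smul_apply, h3, smul_eq_mul]
    ring
  have hint : ∀ s : ℝ, ⟪v, ((s : ℂ)⁻¹) • (u - tr (s • ev 0) u)⟫ =
      ∫ ζ : ST n, (starRingEnd ℂ) 1 * ((s : ℂ)⁻¹ *
      ((1 : ℂ) - Complex.exp (-(2 * Real.pi * I * (s * ζ 0 : ℝ))))) *
      ((starRingEnd ℂ) ((𝓕 v : L2 n) ζ) * (𝓕 u : L2 n) ζ) := by
    intro s
    exact inner_FMul (hdq s) hone
  simp only [hint]
  have hmu : Measurable fun ζ => ((𝓕 u : L2 n) : ST n → ℂ) ζ :=
    (Lp.stronglyMeasurable (𝓕 u : L2 n)).measurable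
  have hmv : Measurable fun ζ => ((𝓕 v : L2 n) : ST n → ℂ) ζ :=
    (Lp.stronglyMeasurable (𝓕 v : L2 n)).measurable
  have hLu : MemLp (fun ζ => gsym 0 ζ * (𝓕 u : L2 n) ζ) 2 (volume : Measure (ST n)) :=
    (FMul_exists_iff u).1 ⟨_, hDu⟩
  have hLv : MemLp (fun ζ => gsym 0 ζ * (𝓕 v : L2 n) ζ) 2 (volume : Measure (ST n)) :=
    (FMul_exists_iff v).1 ⟨_, hDv⟩
  refine tendsto_integral_filter_of_dominated_convergence
    (fun ζ => ‖gsym 0 ζ * (𝓕 v : L2 n) ζ‖ * ‖gsym 0 ζ * (𝓕 u : L2 n) ζ‖) ?_ ?_ ?_ ?_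
  · refine Eventually.of_forall fun s => Measurable.aestronglyMeasurable ?_
    have h0 : Measurable fun ζ : ST n => ζ 0 := by fun_prop
    have hc : Measurable fun ζ : ST n => (starRingEnd ℂ) ((𝓕 v : L2 n) ζ) :=
      Complex.continuous_conj.measurable.comp hmv
    fun_prop
  · refine Eventually.of_forall fun s => Eventually.of_forall fun ζ => ?_
    have h0 : 0 ≤ 2 * Real.pi * |ζ 0| := by have := Real.pi_pos; positivity
    have hg : ‖gsym 0 ζ‖ * ‖gsym 0 ζ‖ = 2 * Real.pi * |ζ 0| := by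
      rw [gsym_zero, Complex.norm_real, Real.norm_eq_abs, ← abs_mul, Real.mul_self_sqrt h0,
        abs_of_nonneg h0]
    have hs : ‖(s : ℂ)⁻¹ * ((1 : ℂ) - Complex.exp (-(2 * Real.pi * I * (s * ζ 0 : ℝ))))‖ ≤
        2 * Real.pi * |ζ 0| := by
      rcases eq_or_ne s 0 with rfl | hs0
      · simpa using h0
      have e : -(2 * Real.pi * I * (s * ζ 0 : ℝ) : ℂ) =
          -(I * ((2 * Real.pi * (s * ζ 0) : ℝ) : ℂ)) := by
        push_cast; ring
      rw [e, norm_mul, norm_inv, Complex.norm_real, Real.norm_eq_abs]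
      have h1 := tdq_norm_le (2 * Real.pi * (s * ζ 0))
      have h2 : |2 * Real.pi * (s * ζ 0)| = |s| * (2 * Real.pi * |ζ 0|) := by
        rw [abs_mul (2 * Real.pi), abs_mul s,
          abs_of_pos (by have := Real.pi_pos; positivity : 0 < 2 * Real.pi)]
        ring
      rw [h2] at h1
      have hs1 : 0 < |s| := abs_pos.2 hs0
      rw [inv_mul_le_iff₀ hs1]
      exact h1
    rw [map_one, one_mul, norm_mul _ (_ * _), norm_mul ((starRingEnd ℂ) _), RCLike.norm_conj,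
      norm_mul (gsym 0 ζ), norm_mul (gsym 0 ζ)]
    calc _ ≤ (2 * Real.pi * |ζ 0|) * (‖((𝓕 v : L2 n) : ST n → ℂ) ζ‖ *
          ‖((𝓕 u : L2 n) : ST n → ℂ) ζ‖) :=
          mul_le_mul_of_nonneg_right hs (by positivity)
      _ = _ := by rw [← hg]; ring
  · exact hLv.norm.integrable_mul hLu.norm
  · refine Eventually.of_forall fun ζ => ?_
    refine Tendsto.mul_const _ ?_
    have hd : HasDerivAt (fun s : ℝ => Complex.exp (-(2 * Real.pi * I * (s * ζ 0 : ℝ))))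
        (-(2 * Real.pi * I * (ζ 0 : ℝ))) 0 := by
      have h1 : HasDerivAt (fun s : ℝ => (-(2 * Real.pi * I * (s * ζ 0 : ℝ)) : ℂ))
          (-(2 * Real.pi * I * (ζ 0 : ℝ))) 0 := by
        have h2 : HasDerivAt (fun s : ℝ => ((s : ℝ) : ℂ)) 1 0 := Complex.ofRealCLM.hasDerivAt
        have h3 := (h2.mul_const (ζ 0 : ℂ)).const_mul (-(2 * Real.pi * I) : ℂ)
        have e1 : (fun s : ℝ => (-(2 * Real.pi * I * (s * ζ 0 : ℝ)) : ℂ)) =
            fun s : ℝ => (-(2 * Real.pi * I) : ℂ) * ((s : ℂ) * (ζ 0 : ℂ)) := by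
          funext s; push_cast; ring
        have e2 : (-(2 * Real.pi * I * (ζ 0 : ℝ)) : ℂ) = -(2 * Real.pi * I) * (1 * (ζ 0 : ℂ)) := by
          ring
        rw [e1, e2]
        exact h3
      have h4 := h1.cexp
      simpa using h4
    rw [hasDerivAt_iff_tendsto_slope] at hd
    have h5 := hd.neg
    have h6 : (starRingEnd ℂ) (gsym 0 ζ) * (I * (Real.sign (ζ 0) : ℂ) * gsym 0 ζ) =
        -(-(2 * Real.pi * I * (ζ 0 : ℝ))) := by
      have h0 : 0 ≤ 2 * Real.pi * |ζ 0| := by have := Real.pi_pos; positivity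
      have hg : ((Real.sqrt (2 * Real.pi * |ζ 0|) : ℝ) : ℂ) * (Real.sqrt (2 * Real.pi * |ζ 0|) : ℝ)
          = 2 * Real.pi * (|ζ 0| : ℝ) := by
        rw [← Complex.ofReal_mul, Real.mul_self_sqrt h0]; push_cast; ring
      have hsg : ((|ζ 0| : ℝ) : ℂ) * (Real.sign (ζ 0) : ℂ) = (ζ 0 : ℂ) := by
        rw [← Complex.ofReal_mul]
        congr 1
        rcases lt_trichotomy (ζ 0) 0 with h | h | h
        · rw [Real.sign_of_neg h, abs_of_neg h]; ring
        · rw [h]; simp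
        · rw [Real.sign_of_pos h, abs_of_pos h]; ring
      rw [gsym_zero, Complex.conj_ofReal]
      calc _ = ((Real.sqrt (2 * Real.pi * |ζ 0|) : ℝ) : ℂ) *
            (Real.sqrt (2 * Real.pi * |ζ 0|) : ℝ) * I * (Real.sign (ζ 0) : ℂ) := by ring
        _ = 2 * Real.pi * I * (((|ζ 0| : ℝ) : ℂ) * (Real.sign (ζ 0) : ℂ)) := by rw [hg]; ring
        _ = _ := by rw [hsg]; ring
    rw [h6]
    refine h5.congr' ?_
    filter_upwards with s
    rw [slope_def_module, map_one, one_mul]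
    simp
    ring

end

end Pool.Agent.W_eb6199
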