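import Pool.Agent.W_eb6199.DQ
import Pool.Agent.W_eb6199.TimeDQ
import Pool.Agent.W_eb6199.ChainAux

open MeasureTheory Complex Filter Topology
open scoped FourierTransform ComplexInnerProductSpace ENNReal NNReal

namespace Pool.Agent.W_eb6199

noncomputable section

variable {n : ℕ}

/-! T10: the truncation `u / sqrt(|u|²+δ²)`: chain rule and positivity of the form. -/

private theorem ae_sub' {P : ST n → Prop} (h : ST n)
    (hP : ∀ᵐ z ∂(volume : Measure (ST n)), P z) :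
    ∀ᵐ z ∂(volume : Measure (ST n)), P (z - h) :=
  (measurePreserving_sub_right (volume : Measure (ST n)) h).quasiMeasurePreserving.ae hP

theorem trunc_coe {δ : ℝ} (hδ : 0 < δ) (u : L2 n) :
    (trunc δ u : ST n → ℂ) =ᵐ[volume] fun z => Phi δ (u z) := by
  have h : MemLp (fun z => Phi δ (u z)) 2 (volume : Measure (ST n)) := by
    refine ((Lp.memLp u).const_mul ((δ⁻¹ : ℝ) : ℂ)).mono
      ((continuous_Phi hδ).comp_aestronglyMeasurable (Lp.aestronglyMeasurable u)) ?_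
    refine Filter.Eventually.of_forall fun z => ?_
    rw [norm_mul, Complex.norm_real, Real.norm_eq_abs, abs_of_pos (inv_pos.2 hδ)]
    exact norm_Phi_le hδ (u z)
  unfold trunc
  rw [dif_pos h]
  exact h.coeFn_toLp

/-- difference of truncations -/
private theorem trunc_sub_tr {δ : ℝ} (hδ : 0 < δ) (u : L2 n) (h : ST n) :
    ((trunc δ u - tr h (trunc δ u) : L2 n) : ST n → ℂ) =ᵐ[volume] fun z =>
      Lf δ (u z) (tr h u z) ((u - tr h u : L2 n) z) := by
  filter_upwards [Lp.coeFn_sub (trunc δ u) (tr h (trunc δ u)), trunc_coe hδ u,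
    tr_coe h (trunc δ u), ae_sub' h (trunc_coe hδ u), tr_coe h u,
    Lp.coeFn_sub u (tr h u)] with z h1 h2 h3 h4 h5 h6
  rw [h1, h6, Pi.sub_apply, Pi.sub_apply, h2, h3, h4, h5, Phi_sub hδ]

private theorem norm_trunc_sub_tr_le {δ : ℝ} (hδ : 0 < δ) (u : L2 n) (h : ST n) :
    ‖trunc δ u - tr h (trunc δ u)‖ ≤ 2 * δ⁻¹ * ‖u - tr h u‖ := by
  refine Lp.norm_le_mul_norm_of_ae_le_mul ?_
  filter_upwards [trunc_sub_tr hδ u h] with z hz
  rw [hz]
  exact norm_Lf_le hδ _ _ _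

theorem En_trunc {δ : ℝ} (hδ : 0 < δ) {u : L2 n} (hu : u ∈ En n) : trunc δ u ∈ En n := by
  intro j
  refine Fin.cases ?_ (fun i => ?_) j
  · refine FMul_of_lintegral ?_
    obtain ⟨c, hc, hct⟩ := exists_ct
    have h1 := hct n u (D 0 u) (FMul_D hu 0)
    calc ∫⁻ s : ℝ, ENNReal.ofReal (‖trunc δ u - tr (s • ev 0) (trunc δ u)‖ ^ 2 / s ^ 2)
        ≤ ∫⁻ s : ℝ, ENNReal.ofReal ((2 * δ⁻¹) ^ 2) *
            ENNReal.ofReal (‖u - tr (s • ev 0) u‖ ^ 2 / s ^ 2) := by
          refine lintegral_mono fun s => ?_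
          rw [← ENNReal.ofReal_mul (by positivity)]
          refine ENNReal.ofReal_le_ofReal ?_
          rw [← mul_div_assoc, ← mul_pow]
          refine div_le_div_of_nonneg_right ?_ (sq_nonneg s)
          exact pow_le_pow_left₀ (norm_nonneg _) (norm_trunc_sub_tr_le hδ u _) 2
      _ = ENNReal.ofReal ((2 * δ⁻¹) ^ 2) *
            ∫⁻ s : ℝ, ENNReal.ofReal (‖u - tr (s • ev 0) u‖ ^ 2 / s ^ 2) := by
          rw [lintegral_const_mul' _ _ ENNReal.ofReal_ne_top]
      _ < ∞ := by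
          rw [h1]
          exact ENNReal.mul_lt_top ENNReal.ofReal_lt_top ENNReal.ofReal_lt_top
  · obtain ⟨w, hw, -⟩ := FMul_of_dq_bdd (j := i.succ) (u := trunc δ u)
      (C := 2 * δ⁻¹ * ‖D i.succ u‖) (fun s hs _ => by
        refine (norm_trunc_sub_tr_le hδ u _).trans ?_
        have h1 := norm_tr_sub_le_D hu i s
        rw [abs_of_pos hs] at h1
        calc _ ≤ 2 * δ⁻¹ * (s * ‖D i.succ u‖) := by gcongr
          _ = _ := by ring)
    refine ⟨w, ?_⟩
    rw [gsym_succ']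
    exact hw

/-- chain rule for `Phi δ` : with `ρ = (|u|²+δ²)^{-1/2}`,
`∂_i (Phi δ u) = ρ ∂_i u - ρ³ Re(ū ∂_i u) u` -/
theorem D_succ_trunc {δ : ℝ} (hδ : 0 < δ) {u : L2 n} (hu : u ∈ En n) (i : Fin n) :
    (D i.succ (trunc δ u) : ST n → ℂ) =ᵐ[volume] fun z =>
      ((Real.sqrt (‖u z‖ ^ 2 + δ ^ 2))⁻¹ : ℂ) * D i.succ u z
        - ((Real.sqrt (‖u z‖ ^ 2 + δ ^ 2))⁻¹ : ℂ) ^ 3 *
          (((starRingEnd ℂ) (u z) * D i.succ u z).re : ℂ) * u z := by
  set w : L2 n := D i.succ u with hw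
  -- the limit function
  have hGm : MemLp (fun z => Lf δ (u z) (u z) (w z)) 2 (volume : Measure (ST n)) := by
    refine ((Lp.memLp w).const_mul ((2 * δ⁻¹ : ℝ) : ℂ)).mono ?_ ?_
    · exact (continuous_Lf hδ).comp_aestronglyMeasurable
        ((Lp.aestronglyMeasurable u).prodMk ((Lp.aestronglyMeasurable u).prodMk
          (Lp.aestronglyMeasurable w)))
    · refine Filter.Eventually.of_forall fun z => ?_
      rw [norm_mul, Complex.norm_real, Real.norm_eq_abs,
        abs_of_pos (by positivity : (0 : ℝ) < 2 * δ⁻¹)]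
      exact norm_Lf_le hδ _ _ _
  set G : L2 n := hGm.toLp _ with hG
  have hGc : (G : ST n → ℂ) =ᵐ[volume] fun z => Lf δ (u z) (u z) (w z) := hGm.coeFn_toLp
  -- the sequence
  have hs0' : Tendsto (fun k : ℕ => (1 : ℝ) / ((k : ℝ) + 1)) atTop (𝓝 0) :=
    tendsto_one_div_add_atTop_nhds_zero_nat
  have hs1' : ∀ k : ℕ, (1 : ℝ) / ((k : ℝ) + 1) ≠ 0 := fun k => by positivity
  have htr : Tendsto (fun k : ℕ => tr (((1 : ℝ) / ((k : ℝ) + 1)) • ev i.succ) u) atTop
      (𝓝 u) := by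
    have h1 := ((continuous_tr_ev i.succ u).tendsto 0).comp hs0'
    simpa [tr_zero, Function.comp_def] using h1
  obtain ⟨φ, hφ, hae⟩ := exists_subseq_ae htr
  set s : ℕ → ℝ := fun k => (1 : ℝ) / ((φ k : ℝ) + 1) with hsdef
  have hs : ∀ k, s k ≠ 0 := fun k => hs1' (φ k)
  have hs0 : Tendsto s atTop (𝓝 0) := hs0'.comp hφ.tendsto_atTop
  -- the difference quotients of `u`
  set W : ℕ → L2 n := fun k => ((s k : ℂ)⁻¹) • (u - tr (s k • ev i.succ) u) with hW
  have hWlim : Tendsto W atTop (𝓝 w) :=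
    (tendsto_dq_D hu i).comp (tendsto_nhdsWithin_iff.2 ⟨hs0, Filter.Eventually.of_forall hs⟩)
  -- the intermediate functions
  have hLm : ∀ k, MemLp (fun z => Lf δ (u z) (tr (s k • ev i.succ) u z) (w z)) 2
      (volume : Measure (ST n)) := by
    intro k
    refine ((Lp.memLp w).const_mul ((2 * δ⁻¹ : ℝ) : ℂ)).mono ?_ ?_
    · exact (continuous_Lf hδ).comp_aestronglyMeasurable
        ((Lp.aestronglyMeasurable u).prodMk ((Lp.aestronglyMeasurable _).prodMk
          (Lp.aestronglyMeasurable w)))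
    · refine Filter.Eventually.of_forall fun z => ?_
      rw [norm_mul, Complex.norm_real, Real.norm_eq_abs,
        abs_of_pos (by positivity : (0 : ℝ) < 2 * δ⁻¹)]
      exact norm_Lf_le hδ _ _ _
  set L : ℕ → L2 n := fun k => (hLm k).toLp _ with hL
  have hLc : ∀ k, (L k : ST n → ℂ) =ᵐ[volume]
      fun z => Lf δ (u z) (tr (s k • ev i.succ) u z) (w z) := fun k => (hLm k).coeFn_toLp
  have hLlim : Tendsto L atTop (𝓝 G) := by
    refine tendsto_L2_of_dominated (C := 4 * δ⁻¹) (h := w) ?_ ?_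
    · intro k
      filter_upwards [hLc k, hGc] with z h1 h2
      rw [h1, h2]
      refine (norm_sub_le _ _).trans ?_
      have h3 := norm_Lf_le hδ (u z) (tr (s k • ev i.succ) u z) (w z)
      have h4 := norm_Lf_le hδ (u z) (u z) (w z)
      linarith only [h3, h4]
    · filter_upwards [ae_all_iff.2 hLc, hGc, hae] with z h1 h2 h3
      rw [h2]
      simp_rw [h1]
      have h4 : Tendsto (fun k => ((u z, tr (s k • ev i.succ) u z, w z) : ℂ × ℂ × ℂ)) atTop
          (𝓝 (u z, u z, w z)) :=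
        tendsto_const_nhds.prodMk_nhds (h3.prodMk_nhds tendsto_const_nhds)
      exact ((continuous_Lf hδ).tendsto _).comp h4
  -- difference quotients of the truncation
  set Q : ℕ → L2 n := fun k => ((s k : ℂ)⁻¹) •
    (trunc δ u - tr (s k • ev i.succ) (trunc δ u)) with hQ
  have hQc : ∀ k, (Q k : ST n → ℂ) =ᵐ[volume]
      fun z => Lf δ (u z) (tr (s k • ev i.succ) u z) (W k z) := by
    intro k
    filter_upwards [Lp.coeFn_smul ((s k : ℂ)⁻¹)
      (trunc δ u - tr (s k • ev i.succ) (trunc δ u)), trunc_sub_tr hδ u (s k • ev i.succ),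
      Lp.coeFn_smul ((s k : ℂ)⁻¹) (u - tr (s k • ev i.succ) u)] with z h1 h2 h3
    rw [hQ, hW]
    dsimp only
    rw [h1, h3, Pi.smul_apply, Pi.smul_apply, h2, smul_eq_mul, smul_eq_mul, Lf_real_mul]
  have hQL : ∀ k, ‖Q k - L k‖ ≤ 2 * δ⁻¹ * ‖W k - w‖ := by
    intro k
    refine Lp.norm_le_mul_norm_of_ae_le_mul ?_
    filter_upwards [Lp.coeFn_sub (Q k) (L k), Lp.coeFn_sub (W k) w, hQc k, hLc k]
      with z h1 h2 h3 h4
    rw [h1, h2, Pi.sub_apply, Pi.sub_apply, h3, h4, ← Lf_sub]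
    exact norm_Lf_le hδ _ _ _
  have hQlim : Tendsto Q atTop (𝓝 G) := by
    have h1 : Tendsto (fun k => Q k - L k) atTop (𝓝 0) := by
      refine squeeze_zero_norm hQL ?_
      have h2 : Tendsto (fun k => ‖W k - w‖) atTop (𝓝 0) := by
        have := (hWlim.sub_const w).norm
        simpa using this
      simpa using h2.const_mul (2 * δ⁻¹)
    have h3 := h1.add hLlim
    simpa using h3
  have hF : FMul (dsym i.succ) (trunc δ u) G :=
    FMul_of_dq_weak hs hs0 fun y => (continuous_const.inner continuous_id).tendsto G |>.comp hQlim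
  have hD : D i.succ (trunc δ u) = G := by
    refine D_eq ?_
    rw [gsym_succ']
    exact hF
  rw [hD]
  filter_upwards [hGc] with z hz
  rw [hz, Lf_self hδ]
  rfl

/-- the time part of the form vanishes (real part) -/
theorem re_time_trunc {δ : ℝ} (hδ : 0 < δ) {u : L2 n} (hu : u ∈ En n) :
    (⟪D 0 (trunc δ u), Ht (D 0 u)⟫ : ℂ).re = 0 := by
  -- positivity for every translation
  have key : ∀ h : ST n, 0 ≤ (⟪trunc δ u, u - tr h u⟫ : ℂ).re := by
    intro h
    rw [L2.inner_def]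
    have hint : Integrable (fun z => (⟪trunc δ u z, (u - tr h u : L2 n) z⟫ : ℂ))
      (volume : Measure (ST n)) := L2.integrable_inner _ _
    have hR : Integrable (fun z => Rr δ (u z) - δ) (volume : Measure (ST n)) := by
      refine Integrable.mono' (g := fun z => δ⁻¹ * ‖u z‖ ^ 2) ?_ ?_ ?_
      · exact (integrable_norm_sq u).const_mul _
      · exact ((continuous_Rr δ).comp_aestronglyMeasurable
          (Lp.aestronglyMeasurable u)).sub aestronglyMeasurable_const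
      · refine Filter.Eventually.of_forall fun z => ?_
        rw [Real.norm_eq_abs, abs_of_nonneg (sub_nonneg.2 (le_Rr hδ _))]
        exact Rr_sub_le hδ _
    have hR' : Integrable (fun z => Rr δ (u (z - h)) - δ) (volume : Measure (ST n)) :=
      hR.comp_sub_right h
    have h1 : (∫ z, (⟪trunc δ u z, (u - tr h u : L2 n) z⟫ : ℂ)).re =
        ∫ z, (⟪trunc δ u z, (u - tr h u : L2 n) z⟫ : ℂ).re :=
      (integral_re hint).symm
    rw [h1]
    have h2 : ∫ z, ((Rr δ (u z) - δ) - (Rr δ (u (z - h)) - δ)) = 0 := by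
      rw [integral_sub hR hR', integral_sub_right_eq_self (fun z => Rr δ (u z) - δ) h, sub_self]
    rw [← h2]
    refine integral_mono_ae (hR.sub hR') hint.re ?_
    filter_upwards [trunc_coe hδ u, Lp.coeFn_sub u (tr h u), tr_coe h u] with z h3 h4 h5
    rw [h3, h4, Pi.sub_apply, h5]
    have h6 := convex_Rr hδ (u z) (u (z - h))
    have h7 : (⟪Phi δ (u z), u z - u (z - h)⟫ : ℂ) =
        (starRingEnd ℂ) (Phi δ (u z)) * (u z - u (z - h)) := by
      rw [RCLike.inner_apply, mul_comm]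
    change _ ≤ (⟪Phi δ (u z), u z - u (z - h)⟫ : ℂ).re
    rw [h7]
    linarith only [h6]
  have hlim := tendsto_time_form hu (En_trunc hδ hu)
  have hre : Tendsto (fun s : ℝ => (⟪trunc δ u, ((s : ℂ)⁻¹) • (u - tr (s • ev 0) u)⟫ : ℂ).re)
      (𝓝[≠] 0) (𝓝 (⟪D 0 (trunc δ u), Ht (D 0 u)⟫ : ℂ).re) :=
    (Complex.continuous_re.tendsto _).comp hlim
  have hval : ∀ s : ℝ, (⟪trunc δ u, ((s : ℂ)⁻¹) • (u - tr (s • ev 0) u)⟫ : ℂ).re =
      s⁻¹ * (⟪trunc δ u, u - tr (s • ev 0) u⟫ : ℂ).re := by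
    intro s
    rw [inner_smul_right, show ((s : ℂ)⁻¹) = ((s⁻¹ : ℝ) : ℂ) by push_cast; rfl,
      Complex.re_ofReal_mul]
  simp_rw [hval] at hre
  refine le_antisymm ?_ ?_
  · have h1 : Tendsto (fun s : ℝ => s⁻¹ * (⟪trunc δ u, u - tr (s • ev 0) u⟫ : ℂ).re)
        (𝓝[<] 0) (𝓝 (⟪D 0 (trunc δ u), Ht (D 0 u)⟫ : ℂ).re) :=
      hre.mono_left (nhdsWithin_mono _ fun x hx => ne_of_lt hx)
    refine le_of_tendsto h1 ?_
    filter_upwards [self_mem_nhdsWithin] with s hs
    exact mul_nonpos_of_nonpos_of_nonneg (inv_nonpos.2 (le_of_lt hs)) (key _)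
  · have h1 : Tendsto (fun s : ℝ => s⁻¹ * (⟪trunc δ u, u - tr (s • ev 0) u⟫ : ℂ).re)
        (𝓝[>] 0) (𝓝 (⟪D 0 (trunc δ u), Ht (D 0 u)⟫ : ℂ).re) :=
      hre.mono_left (nhdsWithin_mono _ fun x hx => ne_of_gt hx)
    refine ge_of_tendsto h1 ?_
    filter_upwards [self_mem_nhdsWithin] with s hs
    exact mul_nonneg (inv_nonneg.2 (le_of_lt hs)) (key _)

/-- the pointwise algebra -/
private theorem pointwise_alg (A : Coef n) (z : ST n) {δ : ℝ} (hδ : 0 < δ) (a : ℂ)
    (p : Fin n → ℂ) :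
    0 ≤ ∑ i, ∑ j, ((starRingEnd ℂ) (((Rr δ a)⁻¹ : ℂ) * p i -
      ((Rr δ a)⁻¹ : ℂ) ^ 3 * (((starRingEnd ℂ) a * p i).re : ℂ) * a) *
        ((A.a i j z : ℂ) * p j)).re := by
  set R := Rr δ a with hRdef
  have hR : 0 < R := Rr_pos hδ a
  have hterm : ∀ i j, ((starRingEnd ℂ) (((R)⁻¹ : ℂ) * p i -
      ((R)⁻¹ : ℂ) ^ 3 * (((starRingEnd ℂ) a * p i).re : ℂ) * a) *
        ((A.a i j z : ℂ) * p j)).re =
      R⁻¹ * (A.a i j z * (p j).re * (p i).re + A.a i j z * (p j).im * (p i).im) -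
        R⁻¹ ^ 3 * (A.a i j z * (a.re * (p j).re + a.im * (p j).im) *
          (a.re * (p i).re + a.im * (p i).im)) := by
    intro i j
    rw [show ((R : ℂ))⁻¹ = ((R⁻¹ : ℝ) : ℂ) by push_cast; rfl]
    simp only [map_sub, map_mul, Complex.conj_ofReal, Complex.mul_re, Complex.sub_re,
      Complex.mul_im, Complex.sub_im, Complex.ofReal_re, Complex.ofReal_im, Complex.conj_re,
      Complex.conj_im, ← Complex.ofReal_pow]
    ring
  simp_rw [hterm]
  set q : (Fin n → ℝ) → ℝ := fun ξ => ∑ i, ∑ j, A.a i j z * ξ j * ξ i with hq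
  have hq0 : ∀ ξ, 0 ≤ q ξ := by
    intro ξ
    refine le_trans ?_ (A.ell z ξ)
    exact mul_nonneg A.ν_pos.le (Finset.sum_nonneg fun i _ => sq_nonneg _)
  have hsum : ∑ i, ∑ j, (R⁻¹ * (A.a i j z * (p j).re * (p i).re + A.a i j z * (p j).im * (p i).im) -
        R⁻¹ ^ 3 * (A.a i j z * (a.re * (p j).re + a.im * (p j).im) *
          (a.re * (p i).re + a.im * (p i).im))) =
      R⁻¹ * (q (fun i => (p i).re) + q (fun i => (p i).im)) -
        R⁻¹ ^ 3 * q (fun i => a.re * (p i).re + a.im * (p i).im) := by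
    simp only [hq, Finset.sum_sub_distrib, ← Finset.mul_sum, Finset.sum_add_distrib]
  rw [hsum]
  have hid : q (fun i => a.re * (p i).re + a.im * (p i).im) +
      q (fun i => a.im * (p i).re - a.re * (p i).im) =
      (a.re ^ 2 + a.im ^ 2) * (q (fun i => (p i).re) + q (fun i => (p i).im)) := by
    simp only [hq, ← Finset.sum_add_distrib, Finset.mul_sum]
    refine Finset.sum_congr rfl fun i _ => Finset.sum_congr rfl fun j _ => ?_
    ring
  have hle : q (fun i => a.re * (p i).re + a.im * (p i).im) ≤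
      ‖a‖ ^ 2 * (q (fun i => (p i).re) + q (fun i => (p i).im)) := by
    have h1 : ‖a‖ ^ 2 = a.re ^ 2 + a.im ^ 2 := by
      rw [← Complex.normSq_eq_norm_sq, Complex.normSq_apply]; ring
    rw [h1, ← hid]
    have := hq0 (fun i => a.im * (p i).re - a.re * (p i).im)
    linarith only [this]
  set Q := q (fun i => (p i).re) + q (fun i => (p i).im) with hQ
  have hQ0 : 0 ≤ Q := add_nonneg (hq0 _) (hq0 _)
  have h2 : R⁻¹ ^ 3 * q (fun i => a.re * (p i).re + a.im * (p i).im) ≤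
      R⁻¹ ^ 3 * (R ^ 2 * Q) := by
    refine mul_le_mul_of_nonneg_left (hle.trans ?_) (by positivity)
    refine mul_le_mul_of_nonneg_right ?_ hQ0
    rw [hRdef, Rr_sq]
    nlinarith only
  have h3 : R⁻¹ ^ 3 * (R ^ 2 * Q) = R⁻¹ * Q := by
    field_simp
  linarith only [h2, h3]

theorem re_form_trunc_nonneg (A : Coef n) {δ : ℝ} (hδ : 0 < δ) {u : L2 n} (hu : u ∈ En n) :
    0 ≤ (form A u (trunc δ u)).re := by
  unfold form
  rw [Complex.add_re, Complex.re_ofReal_mul, re_time_trunc hδ hu, mul_zero, zero_add]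
  have hint : ∀ i : Fin n, Integrable (fun z => (⟪D i.succ (trunc δ u) z,
      A.app (fun j => D j.succ u) i z⟫ : ℂ)) (volume : Measure (ST n)) :=
    fun i => L2.integrable_inner _ _
  have h1 : (∑ i : Fin n, ⟪D i.succ (trunc δ u), A.app (fun j => D j.succ u) i⟫ : ℂ) =
      ∫ z, ∑ i : Fin n, (⟪D i.succ (trunc δ u) z, A.app (fun j => D j.succ u) i z⟫ : ℂ) := by
    rw [integral_finsetSum _ fun i _ => hint i]
    refine Finset.sum_congr rfl fun i _ => ?_
    rw [L2.inner_def]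
  rw [h1]
  have hint' : Integrable (fun z => ∑ i : Fin n, (⟪D i.succ (trunc δ u) z,
      A.app (fun j => D j.succ u) i z⟫ : ℂ)) (volume : Measure (ST n)) :=
    integrable_finsetSum _ fun i _ => hint i
  rw [show (∫ z, ∑ i : Fin n, (⟪D i.succ (trunc δ u) z,
      A.app (fun j => D j.succ u) i z⟫ : ℂ)).re = ∫ z, (∑ i : Fin n,
        (⟪D i.succ (trunc δ u) z, A.app (fun j => D j.succ u) i z⟫ : ℂ)).re from
    (integral_re hint').symm]
  refine integral_nonneg_of_ae ?_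
  have happ : ∀ i : Fin n, (A.app (fun j => D j.succ u) i : ST n → ℂ) =ᵐ[volume]
      fun z => ∑ j, (A.a i j z : ℂ) * D j.succ u z := by
    intro i
    have hb : ∀ j : Fin n, (A.mul i j (D j.succ u) : ST n → ℂ) =ᵐ[volume]
        fun z => (A.a i j z : ℂ) * D j.succ u z := by
      intro j
      refine mulOp_coe ⟨?_, A.M, fun z => ?_⟩ _
      · exact Complex.measurable_ofReal.comp (A.meas i j)
      · rw [Complex.norm_real]
        exact A.bd i j z
    unfold Coef.app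
    have hc : ((∑ j, A.mul i j (D j.succ u) : L2 n) : ST n → ℂ) =ᵐ[volume]
        ∑ j, (A.mul i j (D j.succ u) : ST n → ℂ) := Lp.coeFn_finsetSum _ _
    filter_upwards [hc, ae_all_iff.2 hb] with z h1 h2
    rw [h1, Finset.sum_apply]
    exact Finset.sum_congr rfl fun j _ => h2 j
  filter_upwards [ae_all_iff.2 happ, ae_all_iff.2 fun i : Fin n => D_succ_trunc hδ hu i]
    with z h2 h3
  have h4 := pointwise_alg A z hδ (u z) (fun i => D i.succ u z)
  have h5 : (∑ i : Fin n, (⟪D i.succ (trunc δ u) z,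
      A.app (fun j => D j.succ u) i z⟫ : ℂ)).re = ∑ i, ∑ j,
      ((starRingEnd ℂ) (((Rr δ (u z))⁻¹ : ℂ) * D i.succ u z -
      ((Rr δ (u z))⁻¹ : ℂ) ^ 3 * (((starRingEnd ℂ) (u z) * D i.succ u z).re : ℂ) * u z) *
        ((A.a i j z : ℂ) * D j.succ u z)).re := by
    rw [Complex.re_sum]
    refine Finset.sum_congr rfl fun i _ => ?_
    rw [h2 i, h3 i, RCLike.inner_apply, mul_comm, Finset.mul_sum, Complex.re_sum]
    rfl
  show 0 ≤ (∑ i : Fin n, (⟪D i.succ (trunc δ u) z,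
      A.app (fun j => D j.succ u) i z⟫ : ℂ)).re
  rw [h5]
  exact h4

end

end Pool.Agent.W_eb6199
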