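import Pool.Agent.W_eb6199.Prod

open MeasureTheory Complex Filter Topology
open scoped FourierTransform ComplexInnerProductSpace ENNReal NNReal

namespace Pool.Agent.W_eb6199

noncomputable section

variable {n : ℕ}

/-! T09: classical `C¹` functions with compact support. -/

theorem memLp_of_compact {g : ST n → ℂ} (hg : Continuous g) (hc : HasCompactSupport g) :
    MemLp g 2 (volume : Measure (ST n)) :=
  hg.memLp_of_hasCompactSupport hc

theorem norm_ev (j : Fin (n + 1)) : ‖(ev j : ST n)‖ = 1 := by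
  unfold ev
  rw [EuclideanSpace.norm_single, norm_one]

theorem continuous_pd {g : ST n → ℂ} (hg : ContDiff ℝ 1 g) (j : Fin (n + 1)) :
    Continuous (pd j g) := by
  unfold pd
  exact (hg.continuous_fderiv one_ne_zero).clm_apply continuous_const

theorem hasCompactSupport_pd {g : ST n → ℂ} (hc : HasCompactSupport g) (j : Fin (n + 1)) :
    HasCompactSupport (pd j g) := by
  have h := hc.fderiv (𝕜 := ℝ)
  exact h.comp_left (g := fun L : ST n →L[ℝ] ℂ => L (ev j)) (by simp)

theorem tendsto_pd {g : ST n → ℂ} (hg : ContDiff ℝ 1 g) (j : Fin (n + 1)) (z : ST n) :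
    Tendsto (fun s : ℝ => ((s : ℂ)⁻¹) * (g z - g (z - s • ev j))) (𝓝[≠] 0) (𝓝 (pd j g z)) := by
  have h1 : HasFDerivAt g (fderiv ℝ g z) z :=
    (hg.differentiable one_ne_zero z).hasFDerivAt
  have h2 : HasDerivAt (fun t : ℝ => g (z + t • ev j)) (fderiv ℝ g z (ev j)) 0 :=
    h1.hasLineDerivAt (ev j)
  rw [hasDerivAt_iff_tendsto_slope] at h2
  have h3 : Tendsto (fun s : ℝ => -s) (𝓝[≠] 0) (𝓝[≠] 0) := by
    rw [tendsto_nhdsWithin_iff]
    refine ⟨?_, ?_⟩
    · have : Tendsto (fun s : ℝ => -s) (𝓝 0) (𝓝 (-0)) := continuous_neg.tendsto 0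
      rw [neg_zero] at this
      exact this.mono_left nhdsWithin_le_nhds
    · filter_upwards [self_mem_nhdsWithin] with s hs
      simpa using hs
  refine (h2.comp h3).congr fun s => ?_
  simp only [Function.comp_apply]
  rw [slope_def_module, sub_zero, zero_smul, add_zero, neg_smul, ← sub_eq_add_neg,
    Complex.real_smul, Complex.ofReal_inv, Complex.ofReal_neg, inv_neg, neg_mul_comm, neg_sub]

theorem exists_fderiv_bound {g : ST n → ℂ} (hg : ContDiff ℝ 1 g) (hc : HasCompactSupport g) :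
    ∃ C : ℝ, 0 ≤ C ∧ (∀ z, ‖fderiv ℝ g z‖ ≤ C) ∧ ∀ z w, ‖g z - g w‖ ≤ C * ‖z - w‖ := by
  obtain ⟨C, hC⟩ := (hc.fderiv (𝕜 := ℝ)).exists_bound_of_continuous
    (hg.continuous_fderiv one_ne_zero)
  have hC0 : 0 ≤ C := (norm_nonneg _).trans (hC 0)
  refine ⟨C, hC0, hC, fun z w => ?_⟩
  exact Convex.norm_image_sub_le_of_norm_fderiv_le (𝕜 := ℝ) (s := Set.univ)
    (fun x _ => hg.differentiable one_ne_zero x) (fun x _ => hC x) convex_univ
    (Set.mem_univ w) (Set.mem_univ z)

theorem FMul_of_contDiff {g : ST n → ℂ} (hg : ContDiff ℝ 1 g) (hc : HasCompactSupport g)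
    (j : Fin (n + 1)) : FMul (dsym j) (toL2 g) (toL2 (pd j g)) := by
  obtain ⟨C, hC0, hC, hlip⟩ := exists_fderiv_bound hg hc
  obtain ⟨R, hR⟩ := hc.isCompact.isBounded.subset_closedBall (0 : ST n)
  set K : Set (ST n) := Metric.closedBall 0 (R + 1) with hK
  have hKm : MeasurableSet K := measurableSet_closedBall
  have hout : ∀ z, z ∉ K → ∀ w : ST n, ‖z - w‖ ≤ 1 → g w = 0 := by
    intro z hz w hw
    apply image_eq_zero_of_notMem_tsupport
    intro hmem
    apply hz
    have h1 := hR hmem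
    rw [mem_closedBall_zero_iff] at h1
    rw [hK, mem_closedBall_zero_iff]
    calc ‖z‖ = ‖(z - w) + w‖ := by rw [sub_add_cancel]
      _ ≤ ‖z - w‖ + ‖w‖ := norm_add_le _ _
      _ ≤ R + 1 := by linarith
  have hgL := memLp_of_compact hg.continuous hc
  have hpL := memLp_of_compact (continuous_pd hg j) (hasCompactSupport_pd hc j)
  have hind : MemLp (ind K) 2 (volume : Measure (ST n)) := by
    refine memLp_indicator_const 2 hKm 1 ?_
    right
    exact (measure_closedBall_lt_top).ne
  set s : ℕ → ℝ := fun k => 1 / ((k : ℝ) + 1) with hs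
  have hs0 : ∀ k, 0 < s k := fun k => by rw [hs]; positivity
  have hs1 : ∀ k, s k ≤ 1 := fun k => by
    rw [hs]
    simp only
    rw [div_le_one (by positivity)]
    have : (0 : ℝ) ≤ k := Nat.cast_nonneg k
    linarith
  have hslim : Tendsto s atTop (𝓝 0) := tendsto_one_div_add_atTop_nhds_zero_nat
  have hslim' : Tendsto s atTop (𝓝[≠] 0) := by
    rw [tendsto_nhdsWithin_iff]
    exact ⟨hslim, Filter.Eventually.of_forall fun k => (hs0 k).ne'⟩
  set f : ℕ → ST n → ℂ := fun k z => ((s k : ℂ)⁻¹) * (g z - g (z - s k • ev j)) with hf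
  have hfm : ∀ k, Measurable (f k) := by
    intro k
    have : Continuous (f k) := by
      rw [hf]
      exact continuous_const.mul (hg.continuous.sub
        (hg.continuous.comp (continuous_id.sub continuous_const)))
    exact this.measurable
  have hsm : ∀ k, ‖s k • (ev j : ST n)‖ = s k := by
    intro k
    rw [norm_smul, norm_ev, mul_one, Real.norm_eq_abs, abs_of_pos (hs0 k)]
  have hfbd : ∀ k z, ‖f k z‖ ≤ C := by
    intro k z
    simp only [hf]
    rw [norm_mul, norm_inv, Complex.norm_real, Real.norm_eq_abs, abs_of_pos (hs0 k),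
      inv_mul_le_iff₀ (hs0 k)]
    refine (hlip _ _).trans (le_of_eq ?_)
    rw [sub_sub_cancel, hsm, mul_comm]
  have hpbd : ∀ z, ‖pd j g z‖ ≤ C := by
    intro z
    unfold pd
    refine (ContinuousLinearMap.le_opNorm _ _).trans ?_
    rw [norm_ev, mul_one]
    exact hC z
  have hlim : Tendsto (fun k => mulOp (f k) (toL2 (ind K))) atTop
      (𝓝 (mulOp (pd j g) (toL2 (ind K)))) := by
    refine tendsto_mulOp hfm (continuous_pd hg j).measurable hfbd ?_ hpbd _
    exact Filter.Eventually.of_forall fun z => (tendsto_pd hg j z).comp hslim'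
  have e1 : ∀ k, mulOp (f k) (toL2 (ind K)) =
      ((s k : ℂ)⁻¹) • (toL2 g - tr (s k • ev j) (toL2 g)) := by
    intro k
    ext1
    have hq : ∀ᵐ z ∂(volume : Measure (ST n)), (toL2 g : ST n → ℂ) (z - s k • ev j) =
        g (z - s k • ev j) :=
      (measurePreserving_sub_right volume (s k • ev j)).quasiMeasurePreserving.ae
        (toL2_coe hgL)
    filter_upwards [mulOp_coe ⟨hfm k, C, hfbd k⟩ (toL2 (ind K)), toL2_coe hind, toL2_coe hgL,
      Lp.coeFn_smul ((s k : ℂ)⁻¹) (toL2 g - tr (s k • ev j) (toL2 g)),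
      Lp.coeFn_sub (toL2 g) (tr (s k • ev j) (toL2 g)), tr_coe (s k • ev j) (toL2 g), hq]
      with z h1 h2 h3 h4 h5 h6 h7
    rw [h1, h2, h4, Pi.smul_apply, h5, Pi.sub_apply, h3, h6, h7, smul_eq_mul]
    simp only [hf]
    unfold ind
    by_cases hz : z ∈ K
    · rw [Set.indicator_of_mem hz, mul_one]
    · rw [Set.indicator_of_notMem hz, mul_zero, hout z hz z (by simp),
        hout z hz (z - s k • ev j) (by rw [sub_sub_cancel, hsm]; exact hs1 k)]
      ring
  have e2 : mulOp (pd j g) (toL2 (ind K)) = toL2 (pd j g) := by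
    ext1
    filter_upwards [mulOp_coe ⟨(continuous_pd hg j).measurable, C, hpbd⟩ (toL2 (ind K)),
      toL2_coe hind, toL2_coe hpL] with z h1 h2 h3
    rw [h1, h2, h3]
    unfold ind
    by_cases hz : z ∈ K
    · rw [Set.indicator_of_mem hz, mul_one]
    · rw [Set.indicator_of_notMem hz, mul_zero]
      symm
      unfold pd
      have : fderiv ℝ g z = 0 := by
        apply image_eq_zero_of_notMem_tsupport
        intro hmem
        apply hz
        have h1 := hR (tsupport_fderiv_subset ℝ hmem)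
        rw [mem_closedBall_zero_iff] at h1
        rw [hK, mem_closedBall_zero_iff]
        linarith
      rw [this]
      simp
  rw [e2] at hlim
  refine FMul_of_dq_weak (fun k => (hs0 k).ne') hslim fun y => ?_
  refine Filter.Tendsto.inner tendsto_const_nhds ?_
  exact hlim.congr e1

theorem En_of_contDiff {g : ST n → ℂ} (hg : ContDiff ℝ 1 g) (hc : HasCompactSupport g) :
    toL2 g ∈ En n ∧ (∀ i : Fin n, D i.succ (toL2 g) = toL2 (pd i.succ g)) ∧
      ‖D 0 (toL2 g)‖ ^ 2 ≤ ‖toL2 g‖ * ‖toL2 (pd 0 g)‖ := by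
  obtain ⟨x, hx, hx2⟩ := norm_D0_sq_le (FMul_of_contDiff hg hc 0)
  have hsucc : ∀ i : Fin n, FMul (gsym i.succ) (toL2 g) (toL2 (pd i.succ g)) := by
    intro i
    rw [gsym_succ']
    exact FMul_of_contDiff hg hc i.succ
  refine ⟨?_, fun i => D_eq (hsucc i), ?_⟩
  · intro j
    refine Fin.cases ⟨x, hx⟩ (fun i => ⟨_, hsucc i⟩) j
  · rw [D_eq hx]
    exact hx2

theorem FMul_one (u : L2 n) : FMul (fun _ => 1) u u := by
  unfold FMul
  exact Filter.Eventually.of_forall fun ζ => (one_mul _).symm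

theorem toL2_inner {g : ST n → ℂ} (hg : MemLp g 2 (volume : Measure (ST n))) (u : L2 n) :
    ⟪toL2 g, u⟫ = ∫ z, (starRingEnd ℂ) (g z) * u z := by
  rw [L2.inner_def]
  refine integral_congr_ae ?_
  filter_upwards [toL2_coe hg] with z hz
  rw [hz, RCLike.inner_apply, mul_comm]

theorem pd_conj {g : ST n → ℂ} (hg : ContDiff ℝ 1 g) (j : Fin (n + 1)) :
    pd j (fun z => (starRingEnd ℂ) (g z)) = fun z => (starRingEnd ℂ) (pd j g z) := by
  funext z
  unfold pd
  have h1 : HasFDerivAt g (fderiv ℝ g z) z := (hg.differentiable one_ne_zero z).hasFDerivAt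
  have h2 : HasFDerivAt (fun z => (starRingEnd ℂ) (g z))
      ((Complex.conjCLE : ℂ →L[ℝ] ℂ).comp (fderiv ℝ g z)) z :=
    (Complex.conjCLE : ℂ →L[ℝ] ℂ).hasFDerivAt.comp z h1
  rw [h2.fderiv]
  rfl

/-- integration by parts against a `C¹` compactly supported function -/
theorem integral_mul_D {χ : ST n → ℂ} (hχ : ContDiff ℝ 1 χ) (hc : HasCompactSupport χ)
    {u : L2 n} (hu : u ∈ En n) (i : Fin n) :
    ∫ z, χ z * D i.succ u z = -∫ z, pd i.succ χ z * u z := by
  set χ' : ST n → ℂ := fun z => (starRingEnd ℂ) (χ z) with hχ'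
  have h1 : ContDiff ℝ 1 χ' := Complex.conjCLE.contDiff.comp hχ
  have h2 : HasCompactSupport χ' := hc.comp_left (g := fun w : ℂ => (starRingEnd ℂ) w) (map_zero _)
  have hL := memLp_of_compact h1.continuous h2
  have hL' := memLp_of_compact (continuous_pd h1 i.succ) (hasCompactSupport_pd h2 i.succ)
  have hF := FMul_of_contDiff h1 h2 i.succ
  have hD : FMul (dsym i.succ) u (D i.succ u) := by
    rw [← gsym_succ']
    exact FMul_D hu i.succ
  have e1 := inner_FMul hD (FMul_one (toL2 χ'))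
  have e2 := inner_FMul (FMul_one u) hF
  have e3 : ⟪toL2 χ', D i.succ u⟫ = -⟪toL2 (pd i.succ χ'), u⟫ := by
    rw [e1, e2, ← integral_neg]
    refine integral_congr_ae (Filter.Eventually.of_forall fun ζ => ?_)
    simp only [map_one, one_mul, mul_one]
    have : (starRingEnd ℂ) (dsym i.succ ζ) = -dsym i.succ ζ := by
      unfold dsym
      simp only [map_mul, Complex.conj_ofReal, Complex.conj_I, map_ofNat]
      ring
    rw [this]
    ring
  rw [toL2_inner hL, toL2_inner hL'] at e3
  rw [pd_conj hχ] at e3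
  simp only [hχ', Complex.conj_conj] at e3
  exact e3

end

end Pool.Agent.W_eb6199
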