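import Pool.Agent.W_eb6199.OffDiag

open MeasureTheory Complex Filter Topology
open scoped FourierTransform ComplexInnerProductSpace ENNReal NNReal

namespace Pool.Agent.W_eb6199

noncomputable section

variable {n : ℕ}

/-! T20: the core lemma: `w = e^{c Dw/l} J^m f` belongs to `E` with good bounds. -/

theorem core_bound_nonneg {c l K : ℝ} {z₀ : ST n} {u : L2 n} (h : WB c l z₀ u K) : 0 ≤ K :=
  (norm_nonneg _).trans (h 1 one_pos)

theorem core_wt_mono_slope {κ κ' l : ℝ} (hl : 0 < l) (h : κ ≤ κ') {ψ : ST n → ℝ}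
    (hψ : Wt κ l ψ) : Wt κ' l ψ where
  cd := hψ.cd
  bdd := hψ.bdd
  dx := fun z i => (hψ.dx z i).trans (by gcongr)
  dt := fun z => (hψ.dt z).trans (by gcongr)

/-- the sequence `1/(k+1)` tends to zero from the right -/
theorem core_seq : Tendsto (fun k : ℕ => (1 : ℝ) / ((k : ℝ) + 1)) atTop (𝓝[>] 0) := by
  refine tendsto_nhdsWithin_iff.mpr ⟨tendsto_one_div_add_atTop_nhds_zero_nat, ?_⟩
  exact Filter.Eventually.of_forall fun k => by
    simp only [Set.mem_Ioi]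
    positivity

/-- untruncated weighted functions -/
theorem WB.exists_L2 {c l K : ℝ} (hc : 0 ≤ c) (hl : 0 < l) {z₀ : ST n} {u : L2 n}
    (h : WB c l z₀ u K) :
    ∃ w : L2 n, ((w : ST n → ℂ) =ᵐ[volume] fun z => (Real.exp (c * (Dw l z₀ z / l)) : ℂ) * u z) ∧
      ‖w‖ ≤ K := by
  have hK : 0 ≤ K := core_bound_nonneg h
  have hDw : Continuous (Dw l z₀) := (contDiff_Dw hl z₀).continuous
  set F : ST n → ℂ := fun z => (Real.exp (c * (Dw l z₀ z / l)) : ℂ) * u z with hF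
  have hwc : Continuous fun z : ST n => (Real.exp (c * (Dw l z₀ z / l)) : ℂ) :=
    Complex.continuous_ofReal.comp (Real.continuous_exp.comp (continuous_const.mul
      (hDw.div_const l)))
  have hFm : AEStronglyMeasurable F (volume : Measure (ST n)) :=
    hwc.aestronglyMeasurable.mul (Lp.aestronglyMeasurable u)
  -- the truncated functions
  set δ : ℕ → ℝ := fun k => (1 : ℝ) / ((k : ℝ) + 1) with hδ
  have hδ0 : ∀ k, 0 < δ k := fun k => by rw [hδ]; positivity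
  have hbm : ∀ k, BM (ew (wt c l (δ k) z₀)) := fun k =>
    (Wt_wt_self hc hl (hδ0 k) z₀).bm_ew hl
  have hint : ∀ k, ∫⁻ z, ‖ew (wt c l (δ k) z₀) z * u z‖ₑ ^ 2 ≤ ENNReal.ofReal (K ^ 2) := by
    intro k
    have e1 : ∫⁻ z, ‖ew (wt c l (δ k) z₀) z * u z‖ₑ ^ 2
        = ∫⁻ z, ‖(mulOp (ew (wt c l (δ k) z₀)) u) z‖ₑ ^ 2 := by
      apply lintegral_congr_ae
      filter_upwards [mulOp_coe (hbm k) u] with z hz
      rw [hz]
    rw [e1, ← ofReal_norm_sq]
    apply ENNReal.ofReal_le_ofReal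
    exact pow_le_pow_left₀ (norm_nonneg _) (h _ (hδ0 k)) 2
  have hlim : ∀ z, Tendsto (fun k => ‖ew (wt c l (δ k) z₀) z * u z‖ₑ ^ 2) atTop
      (𝓝 (‖F z‖ₑ ^ 2)) := by
    intro z
    have h1 : Tendsto (fun k => wt c l (δ k) z₀ z) atTop (𝓝 (c * (Dw l z₀ z / l))) :=
      (tendsto_wt hl z₀ z).comp core_seq
    have h2 : Tendsto (fun k => ew (wt c l (δ k) z₀) z * u z) atTop (𝓝 (F z)) := by
      apply Tendsto.mul_const
      exact (Complex.continuous_ofReal.tendsto _).comp ((Real.continuous_exp.tendsto _).comp h1)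
    exact (ENNReal.continuous_pow 2).tendsto _ |>.comp ((continuous_enorm.tendsto _).comp h2)
  have hmeas : ∀ k, AEMeasurable (fun z => ‖ew (wt c l (δ k) z₀) z * u z‖ₑ ^ 2)
      (volume : Measure (ST n)) := by
    intro k
    exact (((hbm k).meas.aestronglyMeasurable.mul (Lp.aestronglyMeasurable u)).enorm).pow_const 2
  have hfat : ∫⁻ z, ‖F z‖ₑ ^ 2 ≤ ENNReal.ofReal (K ^ 2) := by
    calc ∫⁻ z, ‖F z‖ₑ ^ 2
        = ∫⁻ z, liminf (fun k => ‖ew (wt c l (δ k) z₀) z * u z‖ₑ ^ 2) atTop := by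
          apply lintegral_congr
          intro z
          exact ((hlim z).liminf_eq).symm
      _ ≤ liminf (fun k => ∫⁻ z, ‖ew (wt c l (δ k) z₀) z * u z‖ₑ ^ 2) atTop :=
          lintegral_liminf_le' hmeas
      _ ≤ ENNReal.ofReal (K ^ 2) := by
          apply Filter.liminf_le_of_le
          · isBoundedDefault
          · intro b hb
            obtain ⟨k, hk⟩ := hb.exists
            exact hk.trans (hint k)
  have hmem : MemLp F 2 (volume : Measure (ST n)) := by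
    refine ⟨hFm, ?_⟩
    rw [eLpNorm_lt_top_iff_lintegral_rpow_enorm_lt_top (by norm_num) (by norm_num)]
    have : ∀ z, ‖F z‖ₑ ^ (2 : ℝ≥0∞).toReal = ‖F z‖ₑ ^ 2 := by
      intro z
      rw [ENNReal.toReal_ofNat, ENNReal.rpow_ofNat]
    simp_rw [this]
    exact hfat.trans_lt ENNReal.ofReal_lt_top
  refine ⟨hmem.toLp F, hmem.coeFn_toLp, ?_⟩
  have h3 : ENNReal.ofReal (‖hmem.toLp F‖ ^ 2) ≤ ENNReal.ofReal (K ^ 2) := by
    rw [ofReal_norm_sq]
    refine le_trans (le_of_eq ?_) hfat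
    apply lintegral_congr_ae
    filter_upwards [hmem.coeFn_toLp] with z hz
    rw [hz]
  have h4 : ‖hmem.toLp F‖ ^ 2 ≤ K ^ 2 :=
    (ENNReal.ofReal_le_ofReal_iff (by positivity)).mp h3
  exact (pow_le_pow_iff_left₀ (norm_nonneg _) hK (by norm_num)).mp h4

/-- passage to the limit in the truncation parameter -/
theorem core_limit {c l K L : ℝ} (hc : 0 ≤ c) (hl : 0 < l) {z₀ : ST n} {u : L2 n}
    (hu : u ∈ En n) (h : WB c l z₀ u K)
    (hD : ∀ δ : ℝ, 0 < δ → ∀ j, ‖D j (mulOp (ew (wt c l δ z₀)) u)‖ ≤ L) :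
    ∃ w ∈ En n, ((w : ST n → ℂ) =ᵐ[volume]
        fun z => (Real.exp (c * (Dw l z₀ z / l)) : ℂ) * u z) ∧
      ‖w‖ ≤ K ∧ ∀ j, ‖D j w‖ ≤ L := by
  obtain ⟨w, hw, hwK⟩ := h.exists_L2 hc hl
  have hDw : Continuous (Dw l z₀) := (contDiff_Dw hl z₀).continuous
  set δ : ℕ → ℝ := fun k => (1 : ℝ) / ((k : ℝ) + 1) with hδ
  have hδ0 : ∀ k, 0 < δ k := fun k => by rw [hδ]; positivity
  have hbm : ∀ k, BM (ew (wt c l (δ k) z₀)) := fun k =>
    (Wt_wt_self hc hl (hδ0 k) z₀).bm_ew hl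
  -- the quotient weights
  set q : ℕ → ST n → ℂ := fun k z =>
    (Real.exp (wt c l (δ k) z₀ z - c * (Dw l z₀ z / l)) : ℂ) with hq
  have hqm : ∀ k, Measurable (q k) := by
    intro k
    have h1 : Continuous (wt c l (δ k) z₀) := (Wt_wt_self hc hl (hδ0 k) z₀).cd.continuous
    exact (Complex.continuous_ofReal.comp (Real.continuous_exp.comp
      (h1.sub (continuous_const.mul (hDw.div_const l))))).measurable
  have hq1 : ∀ k z, ‖q k z‖ ≤ 1 := by
    intro k z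
    rw [hq]
    simp only
    rw [Complex.norm_real, Real.norm_eq_abs, abs_of_pos (Real.exp_pos _), Real.exp_le_one_iff]
    have := wt_le hc hl (hδ0 k) z₀ z
    linarith
  have hqbm : ∀ k, BM (q k) := fun k => ⟨hqm k, 1, hq1 k⟩
  have heq : ∀ k, mulOp (ew (wt c l (δ k) z₀)) u = mulOp (q k) w := by
    intro k
    ext1
    filter_upwards [mulOp_coe (hbm k) u, mulOp_coe (hqbm k) w, hw] with z h1 h2 h3
    rw [h1, h2, h3, ← mul_assoc]
    congr 1
    rw [hq, ew]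
    simp only
    rw [← Complex.ofReal_mul, ← Real.exp_add]
    congr 2
    ring
  have hlim : Tendsto (fun k => mulOp (ew (wt c l (δ k) z₀)) u) atTop (𝓝 w) := by
    simp_rw [heq]
    have h1 : Tendsto (fun k => mulOp (q k) w) atTop (𝓝 (mulOp (fun _ => (1 : ℂ)) w)) := by
      refine tendsto_mulOp hqm measurable_const hq1 (Filter.Eventually.of_forall fun z => ?_)
        (fun z => by simp) w
      have h2 : Tendsto (fun k => wt c l (δ k) z₀ z) atTop (𝓝 (c * (Dw l z₀ z / l))) :=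
        (tendsto_wt hl z₀ z).comp core_seq
      have h3 : Tendsto (fun k => wt c l (δ k) z₀ z - c * (Dw l z₀ z / l)) atTop (𝓝 0) := by
        have := h2.sub_const (c * (Dw l z₀ z / l))
        rwa [sub_self] at this
      have h4 := (Complex.continuous_ofReal.tendsto _).comp
        ((Real.continuous_exp.tendsto _).comp h3)
      rw [Real.exp_zero, Complex.ofReal_one] at h4
      exact h4
    rwa [mulOp_const, one_smul] at h1
  obtain ⟨h1, h2, -⟩ := En_closed (C := fun _ => L)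
    (fun k => En_mulOp ((Wt_wt_self hc hl (hδ0 k) z₀).C1b_ew hl) hu) hlim
    (fun j k => hD _ (hδ0 k) j)
  exact ⟨w, h1, hw, hwK, h2⟩

theorem exists_core (A : Coef n) : ∃ m₁ : ℕ, ∃ c : ℝ, 0 < c ∧ c ≤ 1 ∧ ∀ m : ℕ, m₁ ≤ m → ∃ C : ℝ, 0 < C ∧
    ∀ l : ℝ, 0 < l → ∀ (z₀ : ST n) (f : L2 n), N1 f ≠ ∞ →
    SuppIn f {z | Dw l z₀ z ≤ (n + 3) * l} →
    ∃ w ∈ En n, ((w : ST n → ℂ) =ᵐ[volume]
        fun z => (Real.exp (c * (Dw l z₀ z / l)) : ℂ) * (J A l ^ m) f z) ∧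
      ‖w‖ ≤ C / Real.sqrt (l ^ (n + 2)) * (N1 f).toReal ∧
      ∀ j, l * ‖D j w‖ ≤ C / Real.sqrt (l ^ (n + 2)) * (N1 f).toReal := by
  obtain ⟨m₀, c₁, hc₁, hoff⟩ := exists_offdiag A
  obtain ⟨κ₀, Cw, hκ₀, hκ₁, hCw, hwt⟩ := exists_weighted A
  refine ⟨m₀ + 1, min (min κ₀ c₁) 1, by positivity, min_le_right _ _, fun m hm => ?_⟩
  set c : ℝ := min (min κ₀ c₁) 1 with hc
  have hc0 : 0 < c := by rw [hc]; positivity
  have hcκ : c ≤ κ₀ := (min_le_left _ _).trans (min_le_left _ _)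
  have hcc : c ≤ c₁ := (min_le_left _ _).trans (min_le_right _ _)
  obtain ⟨C', hC', hoff'⟩ := hoff (m - 1) (by omega)
  refine ⟨Real.sqrt Cw * C', by positivity, fun l hl z₀ f hf hsupp => ?_⟩
  set K : ℝ := C' / Real.sqrt (l ^ (n + 2)) * (N1 f).toReal with hK
  have hK0 : 0 ≤ K := by positivity
  set g : L2 n := (J A l ^ (m - 1)) f with hg
  have hgWB : WB c l z₀ g K := (hoff' l hl z₀ f hf hsupp).mono hl hc0.le hcc le_rfl
  have hu : (J A l ^ m) f = J A l g := by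
    have : m = (m - 1) + 1 := by omega
    rw [this, pow_succ']
    rfl
  have hR : IsRes A l g 0 (J A l g) := J_spec A hl g
  have hE : ∀ δ : ℝ, 0 < δ → ‖mulOp (ew (wt c l δ z₀)) (J A l g)‖ ^ 2
      + l ^ 2 * eD (mulOp (ew (wt c l δ z₀)) (J A l g)) ≤ Cw * K ^ 2 := by
    intro δ hδ
    have h1 := hwt l hl (wt c l δ z₀)
      (core_wt_mono_slope hl hcκ (Wt_wt_self hc0.le hl hδ z₀)) g 0 _ hR
    refine h1.trans ?_
    have h2 : ∑ i : Fin n, ‖mulOp (ew (wt c l δ z₀)) ((0 : Fin n → L2 n) i)‖ ^ 2 = 0 := by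
      simp
    rw [h2, add_zero]
    have h3 : ‖mulOp (ew (wt c l δ z₀)) g‖ ^ 2 ≤ K ^ 2 :=
      pow_le_pow_left₀ (norm_nonneg _) (hgWB δ hδ) 2
    exact mul_le_mul_of_nonneg_left h3 (by linarith)
  have hsq : (Real.sqrt Cw * K) ^ 2 = Cw * K ^ 2 := by
    rw [mul_pow, Real.sq_sqrt (by linarith)]
  have hM0 : 0 ≤ Real.sqrt Cw * K := by positivity
  have hWBu : WB c l z₀ (J A l g) (Real.sqrt Cw * K) := by
    intro δ hδ
    have h1 := hE δ hδ
    have h2 := eD_nonneg (mulOp (ew (wt c l δ z₀)) (J A l g))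
    rw [← hsq] at h1
    have h3 : ‖mulOp (ew (wt c l δ z₀)) (J A l g)‖ ^ 2 ≤ (Real.sqrt Cw * K) ^ 2 := by
      have : 0 ≤ l ^ 2 * eD (mulOp (ew (wt c l δ z₀)) (J A l g)) := by positivity
      linarith
    exact (pow_le_pow_iff_left₀ (norm_nonneg _) hM0 (by norm_num)).mp h3
  have hDu : ∀ δ : ℝ, 0 < δ → ∀ j,
      ‖D j (mulOp (ew (wt c l δ z₀)) (J A l g))‖ ≤ Real.sqrt Cw * K / l := by
    intro δ hδ j
    have h1 := hE δ hδ
    have h2 := norm_D_sq_le j (mulOp (ew (wt c l δ z₀)) (J A l g))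
    rw [← hsq] at h1
    have h3 : (l * ‖D j (mulOp (ew (wt c l δ z₀)) (J A l g))‖) ^ 2
        ≤ (Real.sqrt Cw * K) ^ 2 := by
      have h4 : 0 ≤ ‖mulOp (ew (wt c l δ z₀)) (J A l g)‖ ^ 2 := by positivity
      have h5 : l ^ 2 * ‖D j (mulOp (ew (wt c l δ z₀)) (J A l g))‖ ^ 2
          ≤ l ^ 2 * eD (mulOp (ew (wt c l δ z₀)) (J A l g)) :=
        mul_le_mul_of_nonneg_left h2 (by positivity)
      rw [mul_pow]
      linarith
    have h6 := (pow_le_pow_iff_left₀ (by positivity) hM0 (by norm_num)).mp h3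
    rw [le_div_iff₀ hl]
    linarith
  obtain ⟨w, hw1, hw2, hw3, hw4⟩ := core_limit hc0.le hl (J_mem A hl g) hWBu hDu
  have hfin : Real.sqrt Cw * C' / Real.sqrt (l ^ (n + 2)) * (N1 f).toReal = Real.sqrt Cw * K := by
    rw [hK]; ring
  refine ⟨w, hw1, ?_, ?_, ?_⟩
  · rw [hu]; exact hw2
  · rw [hfin]; exact hw3
  · intro j
    rw [hfin]
    have h7 := mul_le_mul_of_nonneg_left (hw4 j) hl.le
    have h8 : l * (Real.sqrt Cw * K / l) = Real.sqrt Cw * K := by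
      field_simp
    linarith

end

end Pool.Agent.W_eb6199
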