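import Pool.Agent.W_eb6199.Energy
import Pool.Agent.W_eb6199.Trans

open MeasureTheory Complex Filter Topology
open scoped FourierTransform ComplexInnerProductSpace ENNReal NNReal

namespace Pool.Agent.W_eb6199

noncomputable section

variable {n : ℕ}

/-! T07: the singular integral formula for `D_t^{1/2}`. -/

namespace DHalfAux

/-- the kernel `|s|^{-3/2}` -/
def kq (s : ℝ) : ℝ := (|s| ^ (3 / 2 : ℝ))⁻¹

theorem kq_nonneg (s : ℝ) : 0 ≤ kq s := inv_nonneg.2 (Real.rpow_nonneg (abs_nonneg _) _)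

theorem kq_neg (s : ℝ) : kq (-s) = kq s := by unfold kq; rw [abs_neg]

theorem measurable_kq : Measurable kq := by
  unfold kq
  fun_prop

theorem kq_mul (a s : ℝ) : kq (a * s) = kq a * kq s := by
  unfold kq
  rw [abs_mul, Real.mul_rpow (abs_nonneg _) (abs_nonneg _), mul_inv]

theorem kq_of_pos {s : ℝ} (hs : 0 < s) : kq s = s ^ (-(3 / 2) : ℝ) := by
  unfold kq
  rw [abs_of_pos hs, Real.rpow_neg hs.le]

theorem integrable_of_even {f : ℝ → ℝ} (hf : IntegrableOn f (Set.Ioi 0))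
    (he : ∀ x, f (-x) = f x) : Integrable f := by
  have int_Iic : IntegrableOn f (Set.Iic 0) := by
    rw [← Measure.map_neg_eq_self (volume : Measure ℝ)]
    let m : MeasurableEmbedding fun x : ℝ => -x := (Homeomorph.neg ℝ).measurableEmbedding
    rw [m.integrableOn_map_iff]
    simp_rw [Function.comp_def, he, Set.neg_preimage, Set.neg_Iic, neg_zero]
    exact Iff.mpr integrableOn_Ici_iff_integrableOn_Ioi hf
  rw [← integrableOn_univ, ← Set.Iic_union_Ioi (a := (0 : ℝ)), integrableOn_union]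
  exact ⟨int_Iic, hf⟩

theorem integrable_kq_min {a b : ℝ} (ha : 0 ≤ a) (hb : 0 ≤ b) :
    Integrable (fun s => kq s * min a (b * |s|)) := by
  have hmeas : Measurable (fun s => kq s * min a (b * |s|)) := by
    refine measurable_kq.mul ?_
    fun_prop
  refine integrable_of_even ?_ (fun x => by rw [kq_neg, abs_neg])
  have hU : Set.Ioi (0 : ℝ) = Set.Ioc 0 1 ∪ Set.Ioi 1 :=
    (Set.Ioc_union_Ioi_eq_Ioi zero_le_one).symm
  rw [hU, integrableOn_union]
  constructor
  · have h1 : IntegrableOn (fun s : ℝ => b * s ^ (-(1 / 2) : ℝ)) (Set.Ioc 0 1) := by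
      have := (intervalIntegral.intervalIntegrable_rpow' (a := 0) (b := 1)
        (r := (-(1 / 2) : ℝ)) (by norm_num))
      rw [intervalIntegrable_iff_integrableOn_Ioc_of_le zero_le_one] at this
      exact this.const_mul b
    refine Integrable.mono' h1 hmeas.aestronglyMeasurable ?_
    refine (ae_restrict_iff' measurableSet_Ioc).2 (Eventually.of_forall fun s hs => ?_)
    have hs0 : 0 < s := hs.1
    rw [Real.norm_eq_abs, abs_of_nonneg (mul_nonneg (kq_nonneg s) (by positivity)), kq_of_pos hs0,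
      abs_of_pos hs0]
    have h2 : s ^ (-(3 / 2) : ℝ) * (b * s) = b * s ^ (-(1 / 2) : ℝ) := by
      have : s ^ (-(1 / 2) : ℝ) = s ^ (-(3 / 2) : ℝ) * s := by
        conv_rhs => rw [← Real.rpow_one s, ← Real.rpow_mul hs0.le, ← Real.rpow_add hs0]
        norm_num
      rw [this]; ring
    rw [← h2]
    exact mul_le_mul_of_nonneg_left (min_le_right _ _) (Real.rpow_nonneg hs0.le _)
  · have h1 : IntegrableOn (fun s : ℝ => a * s ^ (-(3 / 2) : ℝ)) (Set.Ioi 1) :=
      (integrableOn_Ioi_rpow_of_lt (by norm_num) zero_lt_one).const_mul a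
    refine Integrable.mono' h1 hmeas.aestronglyMeasurable ?_
    refine (ae_restrict_iff' measurableSet_Ioi).2 (Eventually.of_forall fun s hs => ?_)
    have hs0 : 0 < s := lt_trans zero_lt_one hs
    rw [Real.norm_eq_abs, abs_of_nonneg (mul_nonneg (kq_nonneg s) (by positivity)), kq_of_pos hs0,
      mul_comm]
    exact mul_le_mul_of_nonneg_right (min_le_left _ _) (Real.rpow_nonneg hs0.le _)

theorem measurableSet_abs (ε : ℝ) : MeasurableSet {s : ℝ | ε < |s|} :=
  measurableSet_lt measurable_const measurable_norm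

theorem integrableOn_kq {ε : ℝ} (hε : 0 < ε) : IntegrableOn kq {s : ℝ | ε < |s|} := by
  have h := integrable_kq_min (a := 1) (b := ε⁻¹) zero_le_one (inv_nonneg.2 hε.le)
  refine (h.integrableOn (s := {s : ℝ | ε < |s|})).congr_fun ?_ (measurableSet_abs ε)
  intro s hs
  have : (1 : ℝ) ≤ ε⁻¹ * |s| := by
    rw [inv_mul_eq_div, le_div_iff₀ hε, one_mul]
    exact le_of_lt hs
  simp [min_eq_left this]

theorem tendsto_setIntegral_abs {E : Type*} [NormedAddCommGroup E] [NormedSpace ℝ E] {f : ℝ → E}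
    (hf : Integrable f) :
    Tendsto (fun ε : ℝ => ∫ s in {s : ℝ | ε < |s|}, f s) (𝓝[>] 0) (𝓝 (∫ s, f s)) := by
  have h : ∀ ε : ℝ, ∫ s in {s : ℝ | ε < |s|}, f s = ∫ s, ({s : ℝ | ε < |s|}).indicator f s :=
    fun ε => (integral_indicator (measurableSet_abs ε)).symm
  simp_rw [h]
  refine tendsto_integral_filter_of_dominated_convergence (fun s => ‖f s‖) ?_ ?_ hf.norm ?_
  · exact Eventually.of_forall fun ε => hf.1.indicator (measurableSet_abs ε)
  · exact Eventually.of_forall fun ε => Eventually.of_forall fun s => norm_indicator_le_norm_self _ _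
  · have h0 : ∀ᵐ s : ℝ, s ≠ 0 := by
      rw [ae_iff]; simp
    filter_upwards [h0] with s hs
    refine tendsto_const_nhds.congr' ?_
    have : ∀ᶠ ε : ℝ in 𝓝[>] 0, ε < |s| := by
      apply Filter.Eventually.filter_mono nhdsWithin_le_nhds
      exact eventually_lt_nhds (abs_pos.2 hs)
    filter_upwards [this] with ε hε
    rw [Set.indicator_of_mem]
    exact hε

/-- `κ = ∫ (1 - cos y) |y|^{-3/2} dy` -/
def kap : ℝ := ∫ y : ℝ, kq y * (1 - Real.cos y)

theorem one_sub_cos_le (y : ℝ) : 1 - Real.cos y ≤ min 2 (1 * |y|) := by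
  refine le_min ?_ ?_
  · linarith [Real.neg_one_le_cos y]
  · rw [one_mul]
    by_cases hy : |y| ≤ 2
    · have h1 := Real.one_sub_sq_div_two_le_cos (x := y)
      have h2 : y ^ 2 = |y| ^ 2 := (sq_abs y).symm
      nlinarith [abs_nonneg y]
    · have := Real.neg_one_le_cos y
      push Not at hy
      linarith

theorem integrable_kq_cos_one : Integrable fun y : ℝ => kq y * (1 - Real.cos y) := by
  refine Integrable.mono' (integrable_kq_min (a := 2) (b := 1) (by norm_num) zero_le_one)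
    ((measurable_kq.mul (by fun_prop)).aestronglyMeasurable) ?_
  refine Eventually.of_forall fun s => ?_
  have h0 : 0 ≤ 1 - Real.cos s := by linarith [Real.cos_le_one s]
  rw [Real.norm_eq_abs, abs_of_nonneg (mul_nonneg (kq_nonneg s) h0)]
  exact mul_le_mul_of_nonneg_left (one_sub_cos_le s) (kq_nonneg s)

theorem kap_pos : 0 < kap := by
  unfold kap
  rw [integral_pos_iff_support_of_nonneg _ integrable_kq_cos_one]
  · refine lt_of_lt_of_le ?_ (measure_mono (s := Set.Ioo (0 : ℝ) 1) ?_)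
    · simp
    · intro y hy
      have h1 : Real.cos y < Real.cos 0 :=
        Real.cos_lt_cos_of_nonneg_of_le_pi le_rfl (by linarith [hy.2, Real.pi_gt_three]) hy.1
      rw [Real.cos_zero] at h1
      have h2 : 0 < kq y := by
        rw [kq_of_pos hy.1]; exact Real.rpow_pos_of_pos hy.1 _
      exact (mul_pos h2 (by linarith)).ne'
  · intro y
    exact mul_nonneg (kq_nonneg y) (by linarith [Real.cos_le_one y])

theorem integrable_kq_cos (a : ℝ) : Integrable fun y : ℝ => kq y * (1 - Real.cos (a * y)) := by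
  refine Integrable.mono' (integrable_kq_min (a := 2) (b := |a|) (by norm_num) (abs_nonneg a))
    ((measurable_kq.mul (by fun_prop)).aestronglyMeasurable) ?_
  refine Eventually.of_forall fun s => ?_
  have h0 : 0 ≤ 1 - Real.cos (a * s) := by linarith [Real.cos_le_one (a * s)]
  rw [Real.norm_eq_abs, abs_of_nonneg (mul_nonneg (kq_nonneg s) h0)]
  refine mul_le_mul_of_nonneg_left ?_ (kq_nonneg s)
  have := one_sub_cos_le (a * s)
  rwa [one_mul, abs_mul] at this

theorem integral_kq_cos (a : ℝ) :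
    ∫ y : ℝ, kq y * (1 - Real.cos (a * y)) = kap * Real.sqrt |a| := by
  by_cases ha : a = 0
  · subst ha; simp
  · have h := Measure.integral_comp_mul_left (fun y : ℝ => kq y * (1 - Real.cos y)) a
    have h1 : ∀ y, kq (a * y) * (1 - Real.cos (a * y)) = kq a * (kq y * (1 - Real.cos (a * y))) := by
      intro y; rw [kq_mul]; ring
    simp_rw [h1] at h
    rw [integral_const_mul] at h
    have ha' : 0 < |a| := abs_pos.2 ha
    have h2 : kq a * (|a| * Real.sqrt |a|) = 1 := by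
      unfold kq
      rw [Real.sqrt_eq_rpow]
      nth_rewrite 2 [← Real.rpow_one |a|]
      rw [← Real.rpow_add ha']
      norm_num
      exact inv_mul_cancel₀ (Real.rpow_pos_of_pos ha' _).ne'
    have h3 : kq a ≠ 0 := by
      intro h; rw [h, zero_mul] at h2; exact zero_ne_one h2
    have h4 : kq a * ∫ y : ℝ, kq y * (1 - Real.cos (a * y)) = kq a * (kap * Real.sqrt |a|) := by
      rw [h, smul_eq_mul, abs_inv]
      have : kq a * (kap * Real.sqrt |a|) = |a|⁻¹ * kap * (kq a * (|a| * Real.sqrt |a|)) := by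
        field_simp
      rw [this, h2, mul_one]
      rfl
    exact mul_left_cancel₀ h3 h4

/-- the truncated symbol -/
def Phs (ε τ : ℝ) : ℂ := ∫ s in {s : ℝ | ε < |s|},
  (kq s : ℂ) * (1 - Complex.exp (-(2 * Real.pi * I * (s * τ : ℝ))))

theorem exp_aux (s τ : ℝ) : (1 - Complex.exp (-(2 * Real.pi * I * (s * τ : ℝ)))) =
    ((1 - Real.cos ((2 * Real.pi * τ) * s) : ℝ) : ℂ)
      + I * ((Real.sin ((2 * Real.pi * τ) * s) : ℝ) : ℂ) := by
  have h : -(2 * Real.pi * I * (s * τ : ℝ)) = ((-((2 * Real.pi * τ) * s) : ℝ) : ℂ) * I := by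
    push_cast; ring
  rw [h, Complex.exp_mul_I, ← Complex.ofReal_cos, ← Complex.ofReal_sin, Real.cos_neg,
    Real.sin_neg]
  push_cast
  ring

theorem Phs_eq {ε : ℝ} (hε : 0 < ε) (τ : ℝ) :
    Phs ε τ = ((∫ s in {s : ℝ | ε < |s|}, kq s * (1 - Real.cos ((2 * Real.pi * τ) * s)) : ℝ) : ℂ) := by
  have hS := measurableSet_abs ε
  have i1 : IntegrableOn (fun s => kq s * (1 - Real.cos ((2 * Real.pi * τ) * s)))
      {s : ℝ | ε < |s|} := (integrable_kq_cos _).integrableOn
  have i2 : IntegrableOn (fun s => kq s * Real.sin ((2 * Real.pi * τ) * s))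
      {s : ℝ | ε < |s|} := by
    refine Integrable.mono' (integrableOn_kq hε)
      ((measurable_kq.mul (by fun_prop)).aestronglyMeasurable) ?_
    refine Eventually.of_forall fun s => ?_
    rw [norm_mul, Real.norm_eq_abs, Real.norm_eq_abs, abs_of_nonneg (kq_nonneg s)]
    exact mul_le_of_le_one_right (kq_nonneg s) (Real.abs_sin_le_one _)
  have h0 : ∫ s in {s : ℝ | ε < |s|}, kq s * Real.sin ((2 * Real.pi * τ) * s) = 0 := by
    rw [← integral_indicator hS]
    have h1 := integral_neg_eq_self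
      (fun s => ({s : ℝ | ε < |s|}).indicator (fun s => kq s * Real.sin ((2 * Real.pi * τ) * s)) s)
      volume
    have h2 : ∀ s : ℝ, ({s : ℝ | ε < |s|}).indicator
        (fun s => kq s * Real.sin ((2 * Real.pi * τ) * s)) (-s) =
        -({s : ℝ | ε < |s|}).indicator (fun s => kq s * Real.sin ((2 * Real.pi * τ) * s)) s := by
      intro s
      by_cases hs : ε < |s|
      · rw [Set.indicator_of_mem (show -s ∈ {s : ℝ | ε < |s|} by simpa using hs),
          Set.indicator_of_mem (show s ∈ {s : ℝ | ε < |s|} from hs), kq_neg, mul_neg,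
          Real.sin_neg, mul_neg]
      · rw [Set.indicator_of_notMem (show -s ∉ {s : ℝ | ε < |s|} by simpa using hs),
          Set.indicator_of_notMem (show s ∉ {s : ℝ | ε < |s|} from hs), neg_zero]
    simp_rw [h2] at h1
    rw [integral_neg] at h1
    linarith
  unfold Phs
  have h3 : ∀ s : ℝ, (kq s : ℂ) * (1 - Complex.exp (-(2 * Real.pi * I * (s * τ : ℝ)))) =
      ((kq s * (1 - Real.cos ((2 * Real.pi * τ) * s)) : ℝ) : ℂ)
        + I * ((kq s * Real.sin ((2 * Real.pi * τ) * s) : ℝ) : ℂ) := by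
    intro s
    rw [exp_aux]
    push_cast
    ring
  simp_rw [h3]
  have i1c : Integrable (fun s => ((kq s * (1 - Real.cos ((2 * Real.pi * τ) * s)) : ℝ) : ℂ))
      (volume.restrict {s : ℝ | ε < |s|}) := i1.ofReal
  have i2c : Integrable (fun s => I * ((kq s * Real.sin ((2 * Real.pi * τ) * s) : ℝ) : ℂ))
      (volume.restrict {s : ℝ | ε < |s|}) := i2.ofReal.const_mul I
  rw [integral_add i1c i2c, integral_const_mul, integral_complex_ofReal,
    integral_complex_ofReal, h0]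
  simp

theorem norm_Phs_le {ε : ℝ} (hε : 0 < ε) (τ : ℝ) :
    ‖Phs ε τ‖ ≤ kap * Real.sqrt (2 * Real.pi * |τ|) := by
  rw [Phs_eq hε, Complex.norm_real, Real.norm_eq_abs]
  have h0 : ∀ s, 0 ≤ kq s * (1 - Real.cos ((2 * Real.pi * τ) * s)) := fun s =>
    mul_nonneg (kq_nonneg s) (by linarith [Real.cos_le_one ((2 * Real.pi * τ) * s)])
  rw [abs_of_nonneg (integral_nonneg h0)]
  have h1 : |2 * Real.pi * τ| = 2 * Real.pi * |τ| := by
    rw [abs_mul, abs_of_pos Real.two_pi_pos]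
  rw [← h1, ← integral_kq_cos]
  exact setIntegral_le_integral (integrable_kq_cos _) (Eventually.of_forall h0)

theorem tendsto_Phs (τ : ℝ) :
    Tendsto (fun ε => Phs ε τ) (𝓝[>] 0) (𝓝 ((kap * Real.sqrt (2 * Real.pi * |τ|) : ℝ) : ℂ)) := by
  have h1 : |2 * Real.pi * τ| = 2 * Real.pi * |τ| := by
    rw [abs_mul, abs_of_pos Real.two_pi_pos]
  rw [← h1, ← integral_kq_cos]
  have h2 := tendsto_setIntegral_abs (integrable_kq_cos (2 * Real.pi * τ))
  have h3 := (Complex.continuous_ofReal.tendsto _).comp h2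
  refine h3.congr' ?_
  filter_upwards [self_mem_nhdsWithin] with ε hε
  exact (Phs_eq hε τ).symm


/-- the symbol of `u - tr (s e_0) u` -/
theorem FMul_sub_tr (u : L2 n) (s : ℝ) :
    FMul (fun ζ => 1 - Complex.exp (-(2 * Real.pi * I * (s * ζ 0 : ℝ)))) u
      (u - tr (s • ev 0) u) := by
  have h1 : FMul (fun _ : ST n => (1 : ℂ)) u u := by
    unfold FMul
    simp
  have h2 : FMul (fun ζ => Complex.exp (-(2 * Real.pi * I * (s * ζ 0 : ℝ)))) u
      (tr (s • ev 0) u) := fourier_tr_ev s 0 u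
  unfold FMul at h1 h2 ⊢
  have h3 : 𝓕 (u - tr (s • ev 0) u) = 𝓕 u - 𝓕 (tr (s • ev 0) u) :=
    map_sub (Lp.fourierTransformₗᵢ (ST n) ℂ) u (tr (s • ev 0) u)
  rw [h3]
  filter_upwards [Lp.coeFn_sub (𝓕 u) (𝓕 (tr (s • ev 0) u)), h2] with ζ h4 h5
  rw [h4, Pi.sub_apply, h5]
  ring

theorem inner_sub_tr (g u : L2 n) (s : ℝ) :
    ⟪g, u - tr (s • ev 0) u⟫ = ∫ ζ, (1 - Complex.exp (-(2 * Real.pi * I * (s * ζ 0 : ℝ)))) *
      ((starRingEnd ℂ) ((𝓕 g : L2 n) ζ) * (𝓕 u : L2 n) ζ) := by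
  have h1 : FMul (fun _ : ST n => (1 : ℂ)) g g := by
    unfold FMul
    simp
  rw [inner_FMul (FMul_sub_tr u s) h1]
  simp

theorem integrable_inner (g u : L2 n) :
    Integrable (fun ζ => (starRingEnd ℂ) (g ζ) * u ζ) (volume : Measure (ST n)) := by
  have := L2.integrable_inner (𝕜 := ℂ) g u
  refine this.congr (Eventually.of_forall fun ζ => ?_)
  simp [mul_comm]

theorem integral_kq_inner {ε : ℝ} (hε : 0 < ε) (g u : L2 n) :
    ∫ s in {s : ℝ | ε < |s|}, (kq s : ℂ) * ⟪g, u - tr (s • ev 0) u⟫ =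
      ∫ ζ, Phs ε (ζ 0) * ((starRingEnd ℂ) ((𝓕 g : L2 n) ζ) * (𝓕 u : L2 n) ζ) := by
  have hk : Integrable (fun s => (kq s : ℂ)) (volume.restrict {s : ℝ | ε < |s|}) :=
    (integrableOn_kq hε).ofReal
  have hgu := integrable_inner (𝓕 g : L2 n) (𝓕 u : L2 n)
  have hprod := hk.mul_prod hgu
  have hint : Integrable (fun p : ℝ × ST n =>
      (1 - Complex.exp (-(2 * Real.pi * I * (p.1 * p.2 0 : ℝ)))) *
      ((kq p.1 : ℂ) * ((starRingEnd ℂ) ((𝓕 g : L2 n) p.2) * (𝓕 u : L2 n) p.2)))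
      ((volume.restrict {s : ℝ | ε < |s|}).prod volume) := by
    refine hprod.bdd_mul (c := 2) ?_ ?_
    · refine Continuous.aestronglyMeasurable ?_
      fun_prop
    · refine Eventually.of_forall fun p => ?_
      refine (norm_sub_le _ _).trans ?_
      have : -(2 * Real.pi * I * (p.1 * p.2 0 : ℝ)) = ((-(2 * Real.pi * (p.1 * p.2 0)) : ℝ) : ℂ) * I := by
        push_cast; ring
      rw [this, Complex.norm_exp_ofReal_mul_I, norm_one]
      norm_num
  have h1 : ∀ s : ℝ, (kq s : ℂ) * ⟪g, u - tr (s • ev 0) u⟫ =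
      ∫ ζ, (1 - Complex.exp (-(2 * Real.pi * I * (s * ζ 0 : ℝ)))) *
      ((kq s : ℂ) * ((starRingEnd ℂ) ((𝓕 g : L2 n) ζ) * (𝓕 u : L2 n) ζ)) := by
    intro s
    rw [inner_sub_tr, ← integral_const_mul]
    refine integral_congr_ae (Eventually.of_forall fun ζ => ?_)
    simp only
    ring
  simp_rw [h1]
  rw [integral_integral_swap hint]
  refine integral_congr_ae (Eventually.of_forall fun ζ => ?_)
  simp only [Phs]
  rw [← integral_mul_const]
  refine integral_congr_ae (Eventually.of_forall fun s => ?_)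
  simp only
  ring

end DHalfAux

open DHalfAux

/-- `D_t^{1/2} u = c ∫ (u - τ_s u) |s|^{-3/2} ds` in the weak sense -/
theorem exists_ch : ∃ c : ℝ, 0 < c ∧ ∀ (n : ℕ) (u w g : L2 n), FMul (gsym 0) u w →
    Tendsto (fun ε : ℝ => (c : ℂ) * ∫ s in {s : ℝ | ε < |s|},
      (((|s| ^ (3 / 2 : ℝ))⁻¹ : ℝ) : ℂ) * ⟪g, u - tr (s • ev 0) u⟫) (𝓝[>] 0) (𝓝 ⟪g, w⟫) := by
  refine ⟨kap⁻¹, inv_pos.2 kap_pos, ?_⟩
  intro n u w g hw
  have hg1 : FMul (fun _ : ST n => (1 : ℂ)) g g := by
    unfold FMul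
    simp
  have hin : ⟪g, w⟫ = ∫ ζ, gsym 0 ζ *
      ((starRingEnd ℂ) ((𝓕 g : L2 n) ζ) * (𝓕 u : L2 n) ζ) := by
    rw [inner_FMul hw hg1]
    simp
  have hI : Integrable (fun ζ => gsym 0 ζ *
      ((starRingEnd ℂ) ((𝓕 g : L2 n) ζ) * (𝓕 u : L2 n) ζ)) (volume : Measure (ST n)) := by
    refine (integrable_inner (𝓕 g : L2 n) (𝓕 w : L2 n)).congr ?_
    filter_upwards [hw] with ζ h
    rw [h]; ring
  have key : Tendsto (fun ε : ℝ => ∫ ζ, Phs ε (ζ 0) *
      ((starRingEnd ℂ) ((𝓕 g : L2 n) ζ) * (𝓕 u : L2 n) ζ)) (𝓝[>] 0)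
      (𝓝 (∫ ζ : ST n, ((kap * Real.sqrt (2 * Real.pi * |ζ 0|) : ℝ) : ℂ) *
      ((starRingEnd ℂ) ((𝓕 g : L2 n) ζ) * (𝓕 u : L2 n) ζ))) := by
    refine tendsto_integral_filter_of_dominated_convergence
      (fun ζ => kap * ‖gsym 0 ζ *
      ((starRingEnd ℂ) ((𝓕 g : L2 n) ζ) * (𝓕 u : L2 n) ζ)‖) ?_ ?_ (hI.norm.const_mul kap) ?_
    · filter_upwards [self_mem_nhdsWithin] with ε hε
      have hm : StronglyMeasurable (fun τ : ℝ => Phs ε τ) := by
        unfold Phs
        refine StronglyMeasurable.integral_prod_right (f := fun τ s : ℝ =>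
          (kq s : ℂ) * (1 - Complex.exp (-(2 * Real.pi * I * (s * τ : ℝ))))) ?_
        refine Measurable.stronglyMeasurable ?_
        refine Measurable.mul ?_ (Continuous.measurable (by fun_prop))
        exact (Complex.measurable_ofReal.comp measurable_kq).comp measurable_snd
      refine AEStronglyMeasurable.mul ?_
        (integrable_inner (𝓕 g : L2 n) (𝓕 u : L2 n)).aestronglyMeasurable
      refine (hm.measurable.comp (g := fun τ : ℝ => Phs ε τ) (f := fun ζ : ST n => ζ 0) ?_).aestronglyMeasurable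
      fun_prop
    · filter_upwards [self_mem_nhdsWithin] with ε hε
      refine Eventually.of_forall fun ζ => ?_
      rw [norm_mul, norm_mul (gsym 0 ζ), ← mul_assoc]
      refine mul_le_mul_of_nonneg_right ?_ (norm_nonneg _)
      refine (norm_Phs_le hε (ζ 0)).trans (le_of_eq ?_)
      rw [gsym_zero, Complex.norm_real, Real.norm_eq_abs, abs_of_nonneg (Real.sqrt_nonneg _)]
    · exact Eventually.of_forall fun ζ => (tendsto_Phs (ζ 0)).mul_const _
  have key2 := key.const_mul ((kap⁻¹ : ℝ) : ℂ)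
  have hlim : ((kap⁻¹ : ℝ) : ℂ) * ∫ ζ : ST n, ((kap * Real.sqrt (2 * Real.pi * |ζ 0|) : ℝ) : ℂ) *
      ((starRingEnd ℂ) ((𝓕 g : L2 n) ζ) * (𝓕 u : L2 n) ζ) = ⟪g, w⟫ := by
    rw [hin, ← integral_const_mul]
    refine integral_congr_ae (Eventually.of_forall fun ζ => ?_)
    simp only
    rw [gsym_zero, ← mul_assoc, ← Complex.ofReal_mul, inv_mul_cancel_left₀ kap_pos.ne']
  rw [hlim] at key2
  refine key2.congr' ?_
  filter_upwards [self_mem_nhdsWithin] with ε hε
  rw [← integral_kq_inner hε]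
  rfl

theorem DHalfAux.C1b_bm {m : ST n → ℂ} (hm : C1b m) : BM m := ⟨hm.cd.continuous.measurable, hm.bdd⟩

theorem DHalfAux.continuous_inner_sub_tr (g u : L2 n) :
    Continuous fun s : ℝ => (⟪g, u - tr (s • ev 0) u⟫ : ℂ) := by
  have := continuous_tr_ev (n := n) 0 u
  fun_prop

theorem DHalfAux.integrableOn_kq_mul {ε : ℝ} (hε : 0 < ε) (g u : L2 n) :
    IntegrableOn (fun s : ℝ => (kq s : ℂ) * ⟪g, u - tr (s • ev 0) u⟫) {s : ℝ | ε < |s|} := by
  have hk : Integrable (fun s => (kq s : ℂ)) (volume.restrict {s : ℝ | ε < |s|}) :=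
    (integrableOn_kq hε).ofReal
  have h : Integrable (fun s : ℝ => ⟪g, u - tr (s • ev 0) u⟫ * (kq s : ℂ))
      (volume.restrict {s : ℝ | ε < |s|}) := by
    refine hk.bdd_mul (c := ‖g‖ * (‖u‖ + ‖u‖)) (continuous_inner_sub_tr g u).aestronglyMeasurable ?_
    refine Eventually.of_forall fun s => ?_
    refine (norm_inner_le_norm _ _).trans ?_
    refine mul_le_mul_of_nonneg_left ((norm_sub_le _ _).trans (le_of_eq ?_)) (norm_nonneg _)
    rw [LinearIsometry.norm_map]
  refine h.congr (Eventually.of_forall fun s => ?_)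
  simp only
  ring

/-- commutator formula: for `m` bounded `C¹` with bounded `∂_t m`,
`⟨g, D_t^{1/2}(m u)⟩ = ⟨m̄ g, D_t^{1/2} u⟩ + c ∫ |s|^{-3/2} ⟨g, (m - m(· - s e_0)) τ_s u⟩ ds`
with an absolutely convergent integral.  (The constant `c` is the one of `exists_ch`.) -/
theorem exists_comm : ∃ c : ℝ, 0 < c ∧ ∀ (n : ℕ) (m : ST n → ℂ), C1b m →
    ∀ (u w x g : L2 n), FMul (gsym 0) u w → FMul (gsym 0) (mulOp m u) x →
    Integrable (fun s : ℝ => (((|s| ^ (3 / 2 : ℝ))⁻¹ : ℝ) : ℂ) *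
      ⟪g, mulOp (fun z => m z - m (z - s • ev 0)) (tr (s • ev 0) u)⟫) ∧
    ⟪g, x⟫ = ⟪mulOp (fun z => (starRingEnd ℂ) (m z)) g, w⟫
      + (c : ℂ) * ∫ s : ℝ, (((|s| ^ (3 / 2 : ℝ))⁻¹ : ℝ) : ℂ) *
        ⟪g, mulOp (fun z => m z - m (z - s • ev 0)) (tr (s • ev 0) u)⟫ := by
  obtain ⟨c, hc, H⟩ := exists_ch
  refine ⟨c, hc, ?_⟩
  intro n m hm u w x g hw hx
  have hbm := C1b_bm hm
  obtain ⟨C, hC⟩ := hm.bdd
  obtain ⟨C', hC'⟩ := hm.dbdd
  have hC0 : 0 ≤ C := (norm_nonneg _).trans (hC 0)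
  have hC'0 : 0 ≤ C' := (norm_nonneg _).trans (hC' 0)
  have hsh : ∀ s : ℝ, BM fun z => m (z - s • ev 0) := fun s =>
    ⟨(hm.cd.continuous.comp (continuous_id.sub continuous_const)).measurable,
      C, fun z => hC _⟩
  have hshn : ∀ s : ℝ, BM fun z => (-1 : ℂ) * m (z - s • ev 0) := fun s =>
    (BM.const (-1)).mul (hsh s)
  have hdiff : ∀ s : ℝ, BM fun z => m z - m (z - s • ev 0) := fun s => by
    have := hbm.add (hshn s)
    have e : (fun z => m z - m (z - s • ev 0)) = fun z => m z + (-1 : ℂ) * m (z - s • ev 0) := by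
      funext z; ring
    rw [e]; exact this
  have hdec : ∀ s : ℝ, (⟪g, mulOp (fun z => m z - m (z - s • ev 0)) (tr (s • ev 0) u)⟫ : ℂ) =
      ⟪g, mulOp m u - tr (s • ev 0) (mulOp m u)⟫
        - ⟪mulOp (fun z => (starRingEnd ℂ) (m z)) g, u - tr (s • ev 0) u⟫ := by
    intro s
    have e : (fun z => m z - m (z - s • ev 0)) = fun z => m z + (-1 : ℂ) * m (z - s • ev 0) := by
      funext z; ring
    have e1 : mulOp (fun z => m z + (-1 : ℂ) * m (z - s • ev 0)) (tr (s • ev 0) u) =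
        mulOp m (tr (s • ev 0) u)
          + mulOp (fun z => (-1 : ℂ) * m (z - s • ev 0)) (tr (s • ev 0) u) :=
      mulOp_add hbm (hshn s) _
    have e2 : mulOp (fun z => (-1 : ℂ) * m (z - s • ev 0)) (tr (s • ev 0) u) =
        (-1 : ℂ) • mulOp (fun z => m (z - s • ev 0)) (tr (s • ev 0) u) :=
      mulOp_const_mul (hsh s) (-1) _
    have e3 : tr (s • ev 0) (mulOp m u) =
        mulOp (fun z => m (z - s • ev 0)) (tr (s • ev 0) u) := tr_mulOp hbm _ u
    have e4 : (⟪mulOp (fun z => (starRingEnd ℂ) (m z)) g, u - tr (s • ev 0) u⟫ : ℂ) =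
        ⟪g, mulOp m (u - tr (s • ev 0) u)⟫ := (inner_mulOp_right hbm _ _).symm
    have e0 : mulOp (fun z => m z - m (z - s • ev 0)) (tr (s • ev 0) u) =
        mulOp (fun z => m z + (-1 : ℂ) * m (z - s • ev 0)) (tr (s • ev 0) u) :=
      congrArg (fun f : ST n → ℂ => mulOp f (tr (s • ev 0) u)) e
    have e5 : mulOp m (u - tr (s • ev 0) u) = mulOp m u - mulOp m (tr (s • ev 0) u) :=
      map_sub _ _ _
    have hX := e0.trans (e1.trans (congrArg (fun v => mulOp m (tr (s • ev 0) u) + v) e2))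
    rw [e4, ← inner_sub_right]
    refine congrArg (fun v => (⟪g, v⟫ : ℂ)) ?_
    refine hX.trans ?_
    rw [e5]
    refine Eq.trans ?_ (congrArg (fun v => mulOp m u - v -
      (mulOp m u - mulOp m (tr (s • ev 0) u))) e3.symm)
    generalize mulOp (fun z => m (z - s • ev 0)) (tr (s • ev 0) u) = p
    generalize mulOp m (tr (s • ev 0) u) = q
    generalize mulOp m u = r
    module
  have hbound : ∀ s : ℝ, ‖(⟪g, mulOp (fun z => m z - m (z - s • ev 0)) (tr (s • ev 0) u)⟫ : ℂ)‖ ≤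
      (‖g‖ * ‖u‖) * min (2 * C) (C' * |s|) := by
    intro s
    have hpt : ∀ z, ‖m z - m (z - s • ev 0)‖ ≤ min (2 * C) (C' * |s|) := by
      intro z
      refine le_min ?_ ?_
      · refine (norm_sub_le _ _).trans ?_
        linarith [hC z, hC (z - s • ev 0)]
      · have h1 := Convex.norm_image_sub_le_of_norm_fderiv_le (𝕜 := ℝ) (f := m) (s := Set.univ)
          (C := C') (x := z - s • ev 0) (y := z)
          (fun z _ => (hm.cd.differentiable one_ne_zero) z) (fun z _ => hC' z) convex_univ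
          (Set.mem_univ _) (Set.mem_univ _)
        refine h1.trans (mul_le_mul_of_nonneg_left (le_of_eq ?_) hC'0)
        rw [sub_sub_cancel, norm_smul, Real.norm_eq_abs]
        unfold ev
        rw [PiLp.norm_single, norm_one, mul_one]
    refine (norm_inner_le_norm _ _).trans ?_
    refine le_trans ?_ (le_of_eq (mul_assoc _ _ _).symm)
    refine mul_le_mul_of_nonneg_left ?_ (norm_nonneg _)
    refine (norm_mulOp_le (hdiff s).meas hpt _).trans (le_of_eq ?_)
    exact (congrArg (fun v => min (2 * C) (C' * |s|) * v)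
      (LinearIsometry.norm_map (tr (s • ev 0)) u)).trans (mul_comm _ _)
  have hcont : Continuous fun s : ℝ =>
      (⟪g, mulOp (fun z => m z - m (z - s • ev 0)) (tr (s • ev 0) u)⟫ : ℂ) := by
    have : (fun s : ℝ =>
      (⟪g, mulOp (fun z => m z - m (z - s • ev 0)) (tr (s • ev 0) u)⟫ : ℂ)) = fun s =>
      ⟪g, mulOp m u - tr (s • ev 0) (mulOp m u)⟫
        - ⟪mulOp (fun z => (starRingEnd ℂ) (m z)) g, u - tr (s • ev 0) u⟫ := funext hdec
    rw [this]
    exact (continuous_inner_sub_tr _ _).sub (continuous_inner_sub_tr _ _)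
  have hint : Integrable (fun s : ℝ => (kq s : ℂ) *
      ⟪g, mulOp (fun z => m z - m (z - s • ev 0)) (tr (s • ev 0) u)⟫) := by
    have hbi : Integrable (fun s : ℝ => (‖g‖ * ‖u‖) * (kq s * min (2 * C) (C' * |s|))) :=
      (integrable_kq_min (a := 2 * C) (b := C') (mul_nonneg zero_le_two hC0) hC'0).const_mul
        (‖g‖ * ‖u‖)
    have hkm : AEStronglyMeasurable (fun s : ℝ => (kq s : ℂ)) volume :=
      (Complex.measurable_ofReal.comp measurable_kq).aestronglyMeasurable
    generalize hF : (fun s : ℝ =>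
      (⟪g, mulOp (fun z => m z - m (z - s • ev 0)) (tr (s • ev 0) u)⟫ : ℂ)) = F at hcont
    have hF' : ∀ s, (⟪g, mulOp (fun z => m z - m (z - s • ev 0)) (tr (s • ev 0) u)⟫ : ℂ) = F s :=
      fun s => congrFun hF s
    have hFb : ∀ s, ‖F s‖ ≤ (‖g‖ * ‖u‖) * min (2 * C) (C' * |s|) := by
      intro s; rw [← hF' s]; exact hbound s
    simp_rw [hF']
    refine Integrable.mono' hbi (hkm.mul hcont.aestronglyMeasurable) ?_
    refine Eventually.of_forall fun s => ?_
    rw [norm_mul, Complex.norm_real, Real.norm_eq_abs, abs_of_nonneg (kq_nonneg s)]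
    refine (mul_le_mul_of_nonneg_left (hFb s) (kq_nonneg s)).trans (le_of_eq ?_)
    ring
  refine ⟨hint, ?_⟩
  have h1 := H n (mulOp m u) x g hx
  have h2 := H n u w (mulOp (fun z => (starRingEnd ℂ) (m z)) g) hw
  have h3 := (tendsto_setIntegral_abs hint).const_mul (c : ℂ)
  have h4 := h2.add h3
  refine tendsto_nhds_unique h1 (h4.congr' ?_)
  filter_upwards [self_mem_nhdsWithin] with ε hε
  refine (mul_add _ _ _).symm.trans (congrArg (fun v => (c : ℂ) * v) ?_)
  have i1 := integrableOn_kq_mul hε (mulOp (fun z => (starRingEnd ℂ) (m z)) g) u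
  have i2 : IntegrableOn (fun s : ℝ => (kq s : ℂ) *
      ⟪g, mulOp (fun z => m z - m (z - s • ev 0)) (tr (s • ev 0) u)⟫) {s : ℝ | ε < |s|} :=
    hint.integrableOn
  have h5 := integral_add i1 i2
  refine Eq.trans ?_ (h5.symm.trans ?_)
  · rfl
  · refine integral_congr_ae (Eventually.of_forall fun s => ?_)
    simp only
    rw [hdec s]
    unfold kq
    ring

end

end Pool.Agent.W_eb6199
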