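import Pool.Agent.W_eb6199.Energy
import Pool.Agent.W_eb6199.Trans

open MeasureTheory Complex Filter Topology
open scoped FourierTransform ComplexInnerProductSpace ENNReal NNReal

namespace Pool.Agent.W_eb6199

noncomputable section

variable {n : ℕ}

/-! T05: difference quotients and the derivatives `∂_j` (symbol `dsym j = 2πiζ_j`). -/

/-- the symbol of the difference quotient -/
def qsym (j : Fin (n + 1)) (s : ℝ) (ζ : ST n) : ℂ :=
  (s : ℂ)⁻¹ * (1 - Complex.exp (-(2 * Real.pi * I * (s * ζ j : ℝ))))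

/-- the function `(1 - e^{-2πix})/(2πix)` -/
def gq (x : ℝ) : ℂ :=
  if x = 0 then 1 else (1 - Complex.exp (-(2 * Real.pi * I * (x : ℝ)))) / (2 * Real.pi * I * (x : ℝ))

theorem norm_one_sub_exp_le (x : ℝ) :
    ‖1 - Complex.exp (-(2 * Real.pi * I * (x : ℝ)))‖ ≤ 2 * Real.pi * |x| := by
  have h := Real.norm_exp_I_mul_ofReal_sub_one_le (x := -(2 * Real.pi * x))
  rw [norm_sub_rev]
  have e1 : I * ((-(2 * Real.pi * x) : ℝ) : ℂ) = -(2 * Real.pi * I * (x : ℝ)) := by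
    push_cast
    ring
  rw [e1] at h
  refine h.trans (le_of_eq ?_)
  rw [Real.norm_eq_abs, abs_neg, abs_mul, abs_of_pos Real.two_pi_pos]

theorem norm_one_sub_exp_le_two (x : ℝ) :
    ‖1 - Complex.exp (-(2 * Real.pi * I * (x : ℝ)))‖ ≤ 2 := by
  have e1 : (-(2 * Real.pi * I * (x : ℝ)) : ℂ) = ((-(2 * Real.pi * x) : ℝ) : ℂ) * I := by
    push_cast
    ring
  refine (norm_sub_le _ _).trans ?_
  rw [e1, Complex.norm_exp_ofReal_mul_I, norm_one]
  norm_num

theorem norm_two_pi_I_mul (x : ℝ) : ‖(2 * Real.pi * I * (x : ℝ) : ℂ)‖ = 2 * Real.pi * |x| := by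
  rw [norm_mul, norm_mul, norm_mul, Complex.norm_I, Complex.norm_real, Complex.norm_real,
    Real.norm_eq_abs, Real.norm_eq_abs, abs_of_pos Real.pi_pos]
  norm_num

theorem norm_gq_le (x : ℝ) : ‖gq x‖ ≤ 1 := by
  unfold gq
  split_ifs with h
  · simp
  · rw [norm_div, norm_two_pi_I_mul]
    refine div_le_one_of_le₀ (norm_one_sub_exp_le x) ?_
    positivity

theorem measurable_gq : Measurable gq := by
  unfold gq
  refine Measurable.ite (measurableSet_singleton 0) measurable_const ?_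
  fun_prop

theorem tendsto_gq : Tendsto gq (𝓝 0) (𝓝 1) := by
  have hne : (2 * Real.pi * I : ℂ) ≠ 0 := by
    simp [Real.pi_ne_zero]
  have hd : HasDerivAt (fun x : ℝ => Complex.exp (-(2 * Real.pi * I * (x : ℝ))))
      (-(2 * Real.pi * I)) 0 := by
    have h1 : HasDerivAt (fun x : ℝ => (-(2 * Real.pi * I * ((x : ℝ) : ℂ)) : ℂ))
        (-(2 * Real.pi * I)) 0 := by
      have := ((Complex.ofRealCLM.hasDerivAt (x := (0 : ℝ))).const_mul
        (2 * Real.pi * I : ℂ)).fun_neg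
      simpa using this
    have h2 := h1.cexp
    simpa using h2
  rw [hasDerivAt_iff_tendsto_slope] at hd
  have h3 : Tendsto gq (𝓝[≠] 0) (𝓝 1) := by
    have h4 : Tendsto (fun x : ℝ => -(2 * Real.pi * I : ℂ)⁻¹ *
        slope (fun x : ℝ => Complex.exp (-(2 * Real.pi * I * (x : ℝ)))) 0 x) (𝓝[≠] 0)
        (𝓝 (-(2 * Real.pi * I : ℂ)⁻¹ * (-(2 * Real.pi * I)))) := hd.const_mul _
    rw [neg_mul_neg, inv_mul_cancel₀ hne] at h4
    refine h4.congr' ?_
    filter_upwards [self_mem_nhdsWithin] with x hx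
    have hx' : x ≠ 0 := hx
    have hxc : (x : ℂ) ≠ 0 := by exact_mod_cast hx'
    unfold gq
    rw [if_neg hx', slope_def_module, sub_zero]
    simp only [Complex.ofReal_zero, mul_zero, neg_zero, Complex.exp_zero, Complex.real_smul]
    push_cast
    field_simp
    ring
  have h5 : gq 0 = 1 := by simp [gq]
  rw [← nhdsNE_sup_pure]
  refine Tendsto.sup h3 ?_
  rw [tendsto_pure_left]
  intro s hs
  rw [h5]
  exact mem_of_mem_nhds hs

theorem qsym_eq (j : Fin (n + 1)) {s : ℝ} (hs : s ≠ 0) (ζ : ST n) :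
    qsym j s ζ = gq (s * ζ j) * dsym j ζ := by
  have hsc : (s : ℂ) ≠ 0 := by exact_mod_cast hs
  unfold qsym gq dsym
  by_cases h : ζ j = 0
  · simp [h]
  · have hζ : (ζ j : ℂ) ≠ 0 := by exact_mod_cast h
    have hπ : (Real.pi : ℂ) ≠ 0 := by exact_mod_cast Real.pi_ne_zero
    rw [if_neg (mul_ne_zero hs h)]
    push_cast
    field_simp [Complex.I_ne_zero]

theorem measurable_qsym (j : Fin (n + 1)) (s : ℝ) : Measurable (qsym j s : ST n → ℂ) := by
  unfold qsym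
  fun_prop

theorem BM_qsym (j : Fin (n + 1)) (s : ℝ) : BM (qsym j s : ST n → ℂ) := by
  refine ⟨measurable_qsym j s, ‖(s : ℂ)⁻¹‖ * 2, fun ζ => ?_⟩
  unfold qsym
  rw [norm_mul]
  exact mul_le_mul_of_nonneg_left (norm_one_sub_exp_le_two _) (norm_nonneg _)

theorem norm_qsym_le (j : Fin (n + 1)) (s : ℝ) (ζ : ST n) : ‖qsym j s ζ‖ ≤ ‖dsym j ζ‖ := by
  by_cases hs : s = 0
  · simp [qsym, hs]
  · rw [qsym_eq j hs, norm_mul]
    exact mul_le_of_le_one_left (norm_nonneg _) (norm_gq_le _)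

theorem tendsto_gq_mul (x : ℝ) : Tendsto (fun s : ℝ => gq (s * x)) (𝓝[≠] 0) (𝓝 1) := by
  refine tendsto_gq.comp ?_
  have : Tendsto (fun s : ℝ => s * x) (𝓝 0) (𝓝 (0 * x)) := (continuous_mul_const x).tendsto 0
  rw [zero_mul] at this
  exact this.mono_left nhdsWithin_le_nhds

theorem FMul_dq (j : Fin (n + 1)) (u : L2 n) (s : ℝ) :
    FMul (qsym j s) u (((s : ℂ)⁻¹) • (u - tr (s • ev j) u)) := by
  unfold FMul
  have h1 : (𝓕 (((s : ℂ)⁻¹) • (u - tr (s • ev j) u)) : L2 n) =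
      ((s : ℂ)⁻¹) • ((𝓕 u : L2 n) - (𝓕 (tr (s • ev j) u) : L2 n)) := by
    have e : (𝓕 (((s : ℂ)⁻¹) • (u - tr (s • ev j) u)) : L2 n) =
        (Lp.fourierTransformₗᵢ (ST n) ℂ) (((s : ℂ)⁻¹) • (u - tr (s • ev j) u)) := rfl
    rw [e, map_smul, map_sub]
    rfl
  rw [h1]
  filter_upwards [Lp.coeFn_smul ((s : ℂ)⁻¹) ((𝓕 u : L2 n) - (𝓕 (tr (s • ev j) u) : L2 n)),
    Lp.coeFn_sub (𝓕 u : L2 n) (𝓕 (tr (s • ev j) u) : L2 n), fourier_tr_ev s j u] with ζ h2 h3 h4
  rw [h2, Pi.smul_apply, h3, Pi.sub_apply, h4, smul_eq_mul]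
  unfold qsym
  ring

theorem norm_tr_sub_le_of_FMul {j : Fin (n + 1)} {u w : L2 n} (h : FMul (dsym j) u w) (s : ℝ) :
    ‖u - tr (s • ev j) u‖ ≤ |s| * ‖w‖ := by
  by_cases hs : s = 0
  · rw [hs, zero_smul, tr_zero, sub_self, norm_zero, abs_zero, zero_mul]
  · obtain ⟨w', hw', hle⟩ := FMul_exists_of_le (measurable_qsym j s) (norm_qsym_le j s) h
    have := FMul.unique hw' (FMul_dq j u s)
    rw [this, norm_smul, norm_inv, Complex.norm_real, Real.norm_eq_abs,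
      inv_mul_le_iff₀ (abs_pos.2 hs)] at hle
    exact hle

theorem dq_eq_fOp {j : Fin (n + 1)} {u w : L2 n} (h : FMul (dsym j) u w) {s : ℝ} (hs : s ≠ 0) :
    ((s : ℂ)⁻¹) • (u - tr (s • ev j) u) = fOp (fun ζ => gq (s * ζ j)) w := by
  have hq : (fun ζ : ST n => gq (s * ζ j) * dsym j ζ) = qsym j s := by
    funext ζ
    rw [qsym_eq j hs]
  have hp : BM (fun ζ : ST n => gq (s * ζ j)) :=
    ⟨measurable_gq.comp (by fun_prop), 1, fun ζ => norm_gq_le _⟩
  rw [FMul.fOp_mul hp (by rw [hq]; exact BM_qsym j s) h, hq]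
  exact FMul.unique (FMul_dq j u s) (FMul_fOp (BM_qsym j s) u)

theorem tendsto_dq_of_FMul {j : Fin (n + 1)} {u w : L2 n} (h : FMul (dsym j) u w) :
    Tendsto (fun s : ℝ => ((s : ℂ)⁻¹) • (u - tr (s • ev j) u)) (𝓝[≠] 0) (𝓝 w) := by
  have h1 : Tendsto (fun s : ℝ => mulOp (fun ζ : ST n => gq (s * ζ j)) (𝓕 w : L2 n)) (𝓝[≠] 0)
      (𝓝 (mulOp (fun _ : ST n => (1 : ℂ)) (𝓕 w : L2 n))) := by
    refine tendsto_mulOp (C := 1) (fun s => measurable_gq.comp (by fun_prop)) measurable_const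
      (fun s ζ => norm_gq_le _) ?_ (fun _ => by simp) _
    exact Filter.Eventually.of_forall fun ζ => tendsto_gq_mul (ζ j)
  rw [mulOp_const, one_smul] at h1
  have h2 : Tendsto (fun s : ℝ => fOp (fun ζ : ST n => gq (s * ζ j)) w) (𝓝[≠] 0) (𝓝 w) := by
    have h3 := ((Lp.fourierTransformₗᵢ (ST n) ℂ).symm.continuous.tendsto (𝓕 w : L2 n)).comp h1
    have h4 : (Lp.fourierTransformₗᵢ (ST n) ℂ).symm (𝓕 w : L2 n) = w :=
      (Lp.fourierTransformₗᵢ (ST n) ℂ).symm_apply_apply w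
    rw [h4] at h3
    exact h3
  refine h2.congr' ?_
  filter_upwards [self_mem_nhdsWithin] with s hs
  exact (dq_eq_fOp h hs).symm

/-- a bounded difference quotient gives a derivative -/
theorem FMul_of_dq_bdd {j : Fin (n + 1)} {u : L2 n} {C : ℝ}
    (h : ∀ s : ℝ, 0 < s → s < 1 → ‖u - tr (s • ev j) u‖ ≤ C * s) :
    ∃ w, FMul (dsym j) u w ∧ ‖w‖ ≤ C := by
  have hdq : ∀ s : ℝ, 0 < s → s < 1 → ‖((s : ℂ)⁻¹) • (u - tr (s • ev j) u)‖ ≤ C := by
    intro s hs hs1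
    rw [norm_smul, norm_inv, Complex.norm_real, Real.norm_eq_abs, abs_of_pos hs,
      inv_mul_le_iff₀ hs, mul_comm]
    exact h s hs hs1
  have hC : 0 ≤ C := (norm_nonneg _).trans (hdq (1 / 2) (by norm_num) (by norm_num))
  set s : ℕ → ℝ := fun k => 1 / ((k : ℝ) + 2) with hs
  have hs0 : ∀ k, 0 < s k := fun k => by rw [hs]; positivity
  have hs1 : ∀ k, s k < 1 := fun k => by
    rw [hs]
    simp only
    rw [div_lt_one (by positivity)]
    have : (0 : ℝ) ≤ k := Nat.cast_nonneg k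
    linarith
  have hslim : Tendsto s atTop (𝓝 0) := by
    have h1 := (tendsto_one_div_add_atTop_nhds_zero_nat (𝕜 := ℝ)).comp (tendsto_add_atTop_nat 1)
    refine h1.congr fun k => ?_
    simp only [Function.comp_apply, hs]
    push_cast
    ring
  have hslim' : Tendsto s atTop (𝓝[≠] 0) := by
    rw [tendsto_nhdsWithin_iff]
    exact ⟨hslim, Filter.Eventually.of_forall fun k => (hs0 k).ne'⟩
  have hex : ∃ w, FMul (dsym j) u w := by
    rw [FMul_exists_iff]
    have hmeas : AEStronglyMeasurable (fun ζ : ST n => dsym j ζ * (𝓕 u : L2 n) ζ) volume :=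
      (measurable_dsym j).aestronglyMeasurable.mul (Lp.aestronglyMeasurable _)
    refine ⟨hmeas, ?_⟩
    rw [eLpNorm_lt_top_iff_lintegral_rpow_enorm_lt_top (by norm_num) (by norm_num)]
    have hfatou : ∫⁻ ζ : ST n, liminf (fun k => ‖qsym j (s k) ζ‖ₑ ^ 2 *
        ‖(𝓕 u : L2 n) ζ‖ₑ ^ 2) atTop ≤ liminf (fun k => ∫⁻ ζ : ST n, ‖qsym j (s k) ζ‖ₑ ^ 2 *
        ‖(𝓕 u : L2 n) ζ‖ₑ ^ 2) atTop := by
      refine lintegral_liminf_le' fun k => ?_
      have m1 : AEMeasurable (fun ζ : ST n => ‖qsym j (s k) ζ‖ₑ ^ 2) volume :=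
        ((measurable_qsym j (s k)).enorm.pow_const 2).aemeasurable
      have m2 : AEMeasurable (fun ζ : ST n => ‖(𝓕 u : L2 n) ζ‖ₑ ^ 2) volume :=
        (Lp.aestronglyMeasurable (𝓕 u : L2 n)).enorm.pow_const 2
      exact m1.mul m2
    have hle : ∀ ζ : ST n, ‖dsym j ζ * (𝓕 u : L2 n) ζ‖ₑ ^ (2 : ℝ≥0∞).toReal ≤
        liminf (fun k => ‖qsym j (s k) ζ‖ₑ ^ 2 * ‖(𝓕 u : L2 n) ζ‖ₑ ^ 2) atTop := by
      intro ζ
      have hq : Tendsto (fun k => qsym j (s k) ζ) atTop (𝓝 (dsym j ζ)) := by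
        have h1 : Tendsto (fun k => gq (s k * ζ j) * dsym j ζ) atTop (𝓝 (1 * dsym j ζ)) :=
          ((tendsto_gq_mul (ζ j)).comp hslim').mul_const _
        rw [one_mul] at h1
        refine h1.congr fun k => ?_
        rw [qsym_eq j (hs0 k).ne']
      have hq2 : Tendsto (fun k => ‖qsym j (s k) ζ‖ₑ ^ 2 * ‖(𝓕 u : L2 n) ζ‖ₑ ^ 2) atTop
          (𝓝 (‖dsym j ζ‖ₑ ^ 2 * ‖(𝓕 u : L2 n) ζ‖ₑ ^ 2)) := by
        refine ENNReal.Tendsto.mul_const ?_ ?_
        · exact (ENNReal.continuous_pow 2).continuousAt.tendsto.comp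
            ((continuous_enorm.tendsto _).comp hq)
        · right
          exact ENNReal.pow_ne_top enorm_ne_top
      rw [hq2.liminf_eq, ENNReal.toReal_ofNat, ENNReal.rpow_ofNat, enorm_mul, mul_pow]
    refine lt_of_le_of_lt (lintegral_mono hle) (lt_of_le_of_lt hfatou ?_)
    refine lt_of_le_of_lt (b := ENNReal.ofReal (C ^ 2)) ?_ ENNReal.ofReal_lt_top
    refine liminf_le_of_le (by isBoundedDefault) ?_
    intro b hb
    obtain ⟨k, hk⟩ := hb.exists
    refine hk.trans ?_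
    rw [← ofReal_norm_sq_FMul (FMul_dq j u (s k))]
    exact ENNReal.ofReal_le_ofReal (pow_le_pow_left₀ (norm_nonneg _) (hdq _ (hs0 k) (hs1 k)) 2)
  obtain ⟨w, hw⟩ := hex
  refine ⟨w, hw, ?_⟩
  have hlim := ((tendsto_dq_of_FMul hw).comp hslim').norm
  exact le_of_tendsto hlim (Filter.Eventually.of_forall fun k => hdq _ (hs0 k) (hs1 k))

/-- identification of the derivative by weak convergence along a sequence -/
theorem FMul_of_dq_weak {j : Fin (n + 1)} {u w : L2 n} {s : ℕ → ℝ} (hs : ∀ k, s k ≠ 0)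
    (hs0 : Tendsto s atTop (𝓝 0))
    (h : ∀ y, Tendsto (fun k => ⟪y, ((s k : ℂ)⁻¹) • (u - tr (s k • ev j) u)⟫) atTop
      (𝓝 ⟪y, w⟫)) : FMul (dsym j) u w := by
  have hslim' : Tendsto s atTop (𝓝[≠] 0) := by
    rw [tendsto_nhdsWithin_iff]
    exact ⟨hs0, Filter.Eventually.of_forall fun k => hs k⟩
  -- cut off to balls
  have key : ∀ R : ℕ, ∀ᵐ ζ ∂(volume : Measure (ST n)), ζ ∈ Metric.closedBall (0 : ST n) (R : ℝ) →
      (𝓕 w : L2 n) ζ = dsym j ζ * (𝓕 u : L2 n) ζ := by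
    intro R
    set B : Set (ST n) := Metric.closedBall (0 : ST n) (R : ℝ) with hB
    have hBm : MeasurableSet B := measurableSet_closedBall
    have hχ : BM (ind B) := BM.ind hBm
    have hnorm : ∀ ζ : ST n, ‖ind B ζ‖ ≤ 1 := by
      intro ζ
      unfold ind
      by_cases hζ : ζ ∈ B
      · rw [Set.indicator_of_mem hζ]
        simp
      · rw [Set.indicator_of_notMem hζ]
        simp
    have hdbd : ∀ ζ : ST n, ‖ind B ζ * dsym j ζ‖ ≤ 2 * Real.pi * R := by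
      intro ζ
      unfold ind
      by_cases hζ : ζ ∈ B
      · rw [Set.indicator_of_mem hζ, one_mul]
        unfold dsym
        rw [norm_two_pi_I_mul]
        have h1 : |ζ j| ≤ ‖ζ‖ := by
          have := EuclideanSpace.norm_eq ζ
          have h2 : ‖ζ j‖ ≤ ‖ζ‖ := PiLp.norm_apply_le ζ j
          rwa [Real.norm_eq_abs] at h2
        have h2 : ‖ζ‖ ≤ R := by
          rw [hB, mem_closedBall_zero_iff] at hζ
          exact hζ
        exact mul_le_mul_of_nonneg_left (h1.trans h2) (by positivity)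
      · rw [Set.indicator_of_notMem hζ, zero_mul, norm_zero]
        positivity
    have hqbd : ∀ (k : ℕ) (ζ : ST n), ‖ind B ζ * qsym j (s k) ζ‖ ≤ 2 * Real.pi * R := by
      intro k ζ
      refine le_trans ?_ (hdbd ζ)
      rw [norm_mul, norm_mul]
      exact mul_le_mul_of_nonneg_left (norm_qsym_le j (s k) ζ) (norm_nonneg _)
    have hm1 : ∀ k, Measurable fun ζ : ST n => ind B ζ * qsym j (s k) ζ := fun k =>
      hχ.meas.mul (measurable_qsym j (s k))
    have hm2 : Measurable fun ζ : ST n => ind B ζ * dsym j ζ := hχ.meas.mul (measurable_dsym j)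
    have hbm2 : BM fun ζ : ST n => ind B ζ * dsym j ζ := ⟨hm2, _, hdbd⟩
    have hstrong : Tendsto (fun k => fOp (fun ζ : ST n => ind B ζ * qsym j (s k) ζ) u) atTop
        (𝓝 (fOp (fun ζ : ST n => ind B ζ * dsym j ζ) u)) := by
      have h1 : Tendsto (fun k => mulOp (fun ζ : ST n => ind B ζ * qsym j (s k) ζ)
          (𝓕 u : L2 n)) atTop (𝓝 (mulOp (fun ζ : ST n => ind B ζ * dsym j ζ) (𝓕 u : L2 n))) := by
        refine tendsto_mulOp hm1 hm2 hqbd ?_ hdbd _
        refine Filter.Eventually.of_forall fun ζ => ?_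
        have h1 : Tendsto (fun k => gq (s k * ζ j) * dsym j ζ) atTop (𝓝 (1 * dsym j ζ)) :=
          ((tendsto_gq_mul (ζ j)).comp hslim').mul_const _
        rw [one_mul] at h1
        refine Tendsto.const_mul _ (h1.congr fun k => ?_)
        rw [qsym_eq j (hs k)]
      exact ((Lp.fourierTransformₗᵢ (ST n) ℂ).symm.continuous.tendsto _).comp h1
    have hconj : (fun ζ : ST n => (starRingEnd ℂ) (ind B ζ)) = ind B := by
      funext ζ
      unfold ind
      by_cases hζ : ζ ∈ B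
      · rw [Set.indicator_of_mem hζ, map_one]
      · rw [Set.indicator_of_notMem hζ, map_zero]
    have hself : ∀ a b : L2 n, ⟪fOp (ind B) a, b⟫ = ⟪a, fOp (ind B) b⟫ := by
      intro a b
      rw [inner_fOp hχ, hconj]
    have heq : fOp (ind B) w = fOp (fun ζ : ST n => ind B ζ * dsym j ζ) u := by
      refine ext_inner_left ℂ fun y => ?_
      have t1 := h (fOp (ind B) y)
      have t2 : Tendsto (fun k => ⟪y, fOp (fun ζ : ST n => ind B ζ * qsym j (s k) ζ) u⟫) atTop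
          (𝓝 ⟪y, fOp (fun ζ : ST n => ind B ζ * dsym j ζ) u⟫) :=
        (Filter.Tendsto.inner tendsto_const_nhds hstrong)
      have t3 : (fun k => ⟪fOp (ind B) y, ((s k : ℂ)⁻¹) • (u - tr (s k • ev j) u)⟫) =
          fun k => ⟪y, fOp (fun ζ : ST n => ind B ζ * qsym j (s k) ζ) u⟫ := by
        funext k
        rw [hself, FMul.fOp_mul hχ ⟨hm1 k, _, hqbd k⟩ (FMul_dq j u (s k))]
      rw [t3, hself] at t1
      exact tendsto_nhds_unique t1 t2
    have e1 := fourier_fOp_coe hχ w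
    have e2 := fourier_fOp_coe hbm2 u
    rw [heq] at e1
    filter_upwards [e1, e2] with ζ h1 h2 hζ
    rw [h1] at h2
    unfold ind at h2
    rw [Set.indicator_of_mem hζ, one_mul, one_mul] at h2
    exact h2
  have hall := ae_all_iff.2 key
  unfold FMul
  filter_upwards [hall] with ζ hζ
  obtain ⟨R, hR⟩ := exists_nat_ge ‖ζ‖
  exact hζ R (by rw [mem_closedBall_zero_iff]; exact hR)

theorem norm_tr_sub_le_D {u : L2 n} (hu : u ∈ En n) (i : Fin n) (s : ℝ) :
    ‖u - tr (s • ev i.succ) u‖ ≤ |s| * ‖D i.succ u‖ := by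
  have h := FMul_D hu i.succ
  rw [gsym_succ'] at h
  exact norm_tr_sub_le_of_FMul h s

theorem tendsto_dq_D {u : L2 n} (hu : u ∈ En n) (i : Fin n) :
    Tendsto (fun s : ℝ => ((s : ℂ)⁻¹) • (u - tr (s • ev i.succ) u)) (𝓝[≠] 0)
      (𝓝 (D i.succ u)) := by
  have h := FMul_D hu i.succ
  rw [gsym_succ'] at h
  exact tendsto_dq_of_FMul h

end

end Pool.Agent.W_eb6199
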