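import Mathlib

/-!
# MP_eb6199_an : definitions

Space-time is `ST n = ℝ^{1+n}`; the coordinate `0` is the time variable, the coordinates
`i.succ` (`i : Fin n`) are the space variables.
-/

open MeasureTheory Complex
open scoped FourierTransform ComplexInnerProductSpace ENNReal NNReal

namespace Pool.Agent.W_eb6199

noncomputable section

/-- space-time `ℝ^{1+n}` -/
abbrev ST (n : ℕ) := EuclideanSpace ℝ (Fin (n + 1))

/-- `L²(ℝ^{1+n}; ℂ)` -/
abbrev L2 (n : ℕ) := Lp (α := ST n) ℂ 2 (volume : Measure (ST n))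

variable {n : ℕ}

/-- unit coordinate vectors -/
def ev (j : Fin (n + 1)) : ST n := EuclideanSpace.single j (1 : ℝ)

/-- bounded measurable functions -/
structure BM (m : ST n → ℂ) : Prop where
  meas : Measurable m
  bdd : ∃ C : ℝ, ∀ z, ‖m z‖ ≤ C

theorem BM.memLp {m : ST n → ℂ} (hm : BM m) (u : L2 n) :
    MemLp (fun z => m z * u z) 2 (volume : Measure (ST n)) := by
  obtain ⟨C, hC⟩ := hm.bdd
  have h1 : MemLp (fun z => u z) 2 (volume : Measure (ST n)) := Lp.memLp u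
  refine (h1.const_mul (C : ℂ)).mono (hm.meas.aestronglyMeasurable.mul h1.1) ?_
  refine Filter.Eventually.of_forall fun z => ?_
  have hC0 : 0 ≤ C := (norm_nonneg _).trans (hC 0)
  rw [norm_mul, norm_mul]
  refine mul_le_mul_of_nonneg_right ?_ (norm_nonneg _)
  rw [Complex.norm_real, Real.norm_eq_abs, abs_of_nonneg hC0]
  exact hC z

/-- multiplication by a bounded measurable function, as a bounded operator on `L²`
(`0` if `m` is not bounded measurable). -/
def mulOp (m : ST n → ℂ) : L2 n →L[ℂ] L2 n := by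
  classical
  exact if hm : BM m then
    LinearMap.mkContinuous
      { toFun := fun u => (hm.memLp u).toLp _
        map_add' := by
          intro u v
          ext1
          filter_upwards [(hm.memLp (u + v)).coeFn_toLp, (hm.memLp u).coeFn_toLp,
            (hm.memLp v).coeFn_toLp, Lp.coeFn_add u v,
            Lp.coeFn_add ((hm.memLp u).toLp _) ((hm.memLp v).toLp _)] with z h1 h2 h3 h4 h5
          rw [h1, h5, Pi.add_apply, h2, h3, h4, Pi.add_apply, mul_add]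
        map_smul' := by
          intro c u
          ext1
          filter_upwards [(hm.memLp (c • u)).coeFn_toLp, (hm.memLp u).coeFn_toLp,
            Lp.coeFn_smul c u, Lp.coeFn_smul c ((hm.memLp u).toLp _)] with z h1 h2 h3 h4
          rw [h1, RingHom.id_apply, h4, Pi.smul_apply, h2, h3, Pi.smul_apply, smul_eq_mul,
            smul_eq_mul]
          ring }
      (max hm.bdd.choose 0) (by
        intro u
        refine Lp.norm_le_mul_norm_of_ae_le_mul ?_
        filter_upwards [(hm.memLp u).coeFn_toLp] with z h1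
        simp only [LinearMap.coe_mk, AddHom.coe_mk, h1, norm_mul]
        exact mul_le_mul_of_nonneg_right ((hm.bdd.choose_spec z).trans (le_max_left _ _))
          (norm_nonneg _))
  else 0

theorem mulOp_coe {m : ST n → ℂ} (hm : BM m) (u : L2 n) :
    (mulOp m u : ST n → ℂ) =ᵐ[volume] fun z => m z * u z := by
  unfold mulOp
  rw [dif_pos hm]
  exact (hm.memLp u).coeFn_toLp

/-- translation by `h` : `(tr h u)(z) = u (z - h)` -/
def tr (h : ST n) : L2 n →ₗᵢ[ℂ] L2 n :=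
  Lp.compMeasurePreservingₗᵢ ℂ (fun z => z - h) (measurePreserving_sub_right volume h)

theorem tr_coe (h : ST n) (u : L2 n) :
    (tr h u : ST n → ℂ) =ᵐ[volume] fun z => u (z - h) :=
  Lp.coeFn_compMeasurePreserving u (measurePreserving_sub_right volume h)

/-- bounded Fourier multiplier with symbol `m` -/
def fOp (m : ST n → ℂ) : L2 n →L[ℂ] L2 n :=
  ((Lp.fourierTransformₗᵢ (ST n) ℂ).symm.toContinuousLinearEquiv :
      L2 n →L[ℂ] L2 n).comp ((mulOp m).comp
    ((Lp.fourierTransformₗᵢ (ST n) ℂ).toContinuousLinearEquiv : L2 n →L[ℂ] L2 n))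

/-- `w` is the image of `u` under the (possibly unbounded) Fourier multiplier with symbol `m` -/
def FMul (m : ST n → ℂ) (u w : L2 n) : Prop :=
  ((𝓕 w : L2 n) : ST n → ℂ) =ᵐ[volume] fun ζ => m ζ * (𝓕 u : L2 n) ζ

/-- the symbols of the parabolic gradient: `gsym 0` is the symbol `|2πτ|^{1/2}` of `D_t^{1/2}`
(`τ = ζ 0`) and `gsym i.succ` is the symbol `2πi ξ_i` of `∂_{x_i}`. -/
def gsym (j : Fin (n + 1)) (ζ : ST n) : ℂ :=
  if j = 0 then (Real.sqrt (2 * Real.pi * |ζ 0|) : ℂ) else 2 * Real.pi * I * (ζ j : ℂ)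

/-- the energy space `E` -/
def En (n : ℕ) : Set (L2 n) := {u | ∀ j, ∃ w, FMul (gsym j) u w}

open Classical in
/-- the components of the parabolic gradient: `D 0 = D_t^{1/2}`, `D i.succ = ∂_{x_i}` -/
def D (j : Fin (n + 1)) (u : L2 n) : L2 n :=
  if h : ∃ w, FMul (gsym j) u w then h.choose else 0

/-- the Hilbert transform in time, symbol `i sgn τ` -/
def Ht : L2 n →L[ℂ] L2 n := fOp (fun ζ => I * (Real.sign (ζ 0) : ℂ))

/-- real bounded elliptic coefficients together with the sign of `∂_t` -/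
structure Coef (n : ℕ) where
  a : Fin n → Fin n → ST n → ℝ
  meas : ∀ i j, Measurable (a i j)
  M : ℝ
  one_le_M : 1 ≤ M
  bd : ∀ i j z, |a i j z| ≤ M
  ν : ℝ
  ν_pos : 0 < ν
  ell : ∀ z (ξ : Fin n → ℝ), ν * ∑ i, ξ i ^ 2 ≤ ∑ i, ∑ j, a i j z * ξ j * ξ i
  sg : ℝ
  sg_eq : sg = 1 ∨ sg = -1

/-- the adjoint coefficients: transposed matrix, opposite sign of `∂_t` -/
def Coef.adj (A : Coef n) : Coef n where
  a i j := A.a j i
  meas i j := A.meas j i
  M := A.M
  one_le_M := A.one_le_M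
  bd i j z := A.bd j i z
  ν := A.ν
  ν_pos := A.ν_pos
  ell z ξ := by
    have h := A.ell z ξ
    rw [Finset.sum_comm] at h
    refine h.trans (le_of_eq ?_)
    refine Finset.sum_congr rfl fun i _ => Finset.sum_congr rfl fun j _ => ?_
    ring
  sg := -A.sg
  sg_eq := by
    rcases A.sg_eq with h | h
    · right; rw [h]
    · left; rw [h]; norm_num

/-- multiplication by the coefficient `a i j` -/
def Coef.mul (A : Coef n) (i j : Fin n) : L2 n →L[ℂ] L2 n :=
  mulOp fun z => (A.a i j z : ℂ)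

/-- the matrix `A` applied to a vector field -/
def Coef.app (A : Coef n) (F : Fin n → L2 n) (i : Fin n) : L2 n := ∑ j, A.mul i j (F j)

/-- the sesquilinear form `B(u,v) = sg ⟨∂_t u, v⟩ + ∫ A ∇u · conj(∇v)`,
linear in `u` and conjugate linear in `v` -/
def form (A : Coef n) (u v : L2 n) : ℂ :=
  (A.sg : ℂ) * ⟪D 0 v, Ht (D 0 u)⟫
    + ∑ i : Fin n, ⟪D i.succ v, A.app (fun j => D j.succ u) i⟫

/-- `u ∈ D(H)` and `H u = f` -/
def InDom (A : Coef n) (u f : L2 n) : Prop :=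
  u ∈ En n ∧ ∀ v ∈ En n, form A u v = ⟪v, f⟫

/-- `u` solves `u + l² H u = f - l div F` weakly -/
def IsRes (A : Coef n) (l : ℝ) (f : L2 n) (F : Fin n → L2 n) (u : L2 n) : Prop :=
  u ∈ En n ∧ ∀ v ∈ En n,
    ⟪v, u⟫ + (l : ℂ) ^ 2 * form A u v = ⟪v, f⟫ + (l : ℂ) * ∑ i : Fin n, ⟪D i.succ v, F i⟫

open Classical in
/-- the resolvent `J A l = (1 + l² H)^{-1}` -/
def J (A : Coef n) (l : ℝ) : L2 n →L[ℂ] L2 n :=
  if h : ∃ T : L2 n →L[ℂ] L2 n, ∀ f, IsRes A l f 0 (T f) then h.choose else 0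

open Classical in
/-- `S A l F = - l (1 + l² H)^{-1} div F` -/
def S (A : Coef n) (l : ℝ) : (Fin n → L2 n) →ₗ[ℂ] L2 n :=
  if h : ∃ T : (Fin n → L2 n) →ₗ[ℂ] L2 n, ∀ F, IsRes A l 0 F (T F) then h.choose else 0

/-- total squared norm of the parabolic gradient -/
def eD (u : L2 n) : ℝ := ∑ j : Fin (n + 1), ‖D j u‖ ^ 2

/-- squared norm of the spatial gradient -/
def gD (u : L2 n) : ℝ := ∑ i : Fin n, ‖D i.succ u‖ ^ 2

/-- bounded `C¹` functions with bounded differential -/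
structure C1b (m : ST n → ℂ) : Prop where
  cd : ContDiff ℝ 1 m
  bdd : ∃ C : ℝ, ∀ z, ‖m z‖ ≤ C
  dbdd : ∃ C : ℝ, ∀ z, ‖fderiv ℝ m z‖ ≤ C

/-- partial derivative (classical) -/
def pd (j : Fin (n + 1)) (m : ST n → ℂ) (z : ST n) : ℂ := fderiv ℝ m z (ev j)

/-- admissible weights at scale `l` with slope `κ` -/
structure Wt (κ l : ℝ) (ψ : ST n → ℝ) : Prop where
  cd : ContDiff ℝ 1 ψ
  bdd : ∃ C : ℝ, ∀ z, |ψ z| ≤ C
  dx : ∀ z (i : Fin n), |fderiv ℝ ψ z (ev i.succ)| ≤ κ / l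
  dt : ∀ z, |fderiv ℝ ψ z (ev 0)| ≤ κ / l ^ 2

/-- the exponential weight `e^ψ` -/
def ew (ψ : ST n → ℝ) (z : ST n) : ℂ := (Real.exp (ψ z) : ℂ)

/-- the parabolic distance function at scale `l` centred at `z₀` -/
def Dw (l : ℝ) (z₀ z : ST n) : ℝ :=
  Real.sqrt (l ^ 2 + ∑ i : Fin n, (z i.succ - z₀ i.succ) ^ 2)
    + Real.sqrt (l ^ 4 + (z 0 - z₀ 0) ^ 2) / l

/-- inverse side lengths of the parabolic dyadic cubes of generation `k` -/
def sc (k : ℤ) (j : Fin (n + 1)) : ℝ := if j = 0 then (4 : ℝ) ^ k else (2 : ℝ) ^ k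

/-- the parabolic dyadic cube of generation `k` and index `m` -/
def cube (k : ℤ) (m : Fin (n + 1) → ℤ) : Set (ST n) :=
  {z | ∀ j, (m j : ℝ) ≤ sc k j * z j ∧ sc k j * z j < m j + 1}

/-- index of the cube of generation `k` containing `z` -/
def idx (k : ℤ) (z : ST n) : Fin (n + 1) → ℤ := fun j => ⌊sc k j * z j⌋

/-- volume of the cubes of generation `k` : `2^{-k(n+2)}` -/
def qv (n : ℕ) (k : ℤ) : ℝ := ((2 : ℝ) ^ k)⁻¹ ^ (n + 2)

/-- the neighbourhood `3Q` of a cube -/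
def star (k : ℤ) (m : Fin (n + 1) → ℤ) : Set (ST n) :=
  {z | ∀ j, (m j : ℝ) - 1 ≤ sc k j * z j ∧ sc k j * z j < m j + 2}

/-- average over a cube -/
def avg (k : ℤ) (m : Fin (n + 1) → ℤ) (u : ST n → ℂ) : ℂ :=
  ((qv n k)⁻¹ : ℝ) • ∫ z in cube k m, u z

/-- the function `E_k u` -/
def Ef (k : ℤ) (u : ST n → ℂ) (z : ST n) : ℂ := avg k (idx k z) u

open Classical in
/-- the dyadic averaging operator on `L²` -/
def Ek (k : ℤ) : L2 n →L[ℂ] L2 n :=
  if h : ∃ T : L2 n →L[ℂ] L2 n, ∀ u : L2 n, (T u : ST n → ℂ) =ᵐ[volume] Ef k u then h.choose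
  else 0

/-- the symbol of the Gaussian smoothing operator at scale `2^{-k}` -/
def psym (k : ℤ) (ζ : ST n) : ℂ := (Real.exp (-Real.pi * ∑ j, (ζ j / sc k j) ^ 2) : ℂ)

/-- Gaussian smoothing at (parabolic) scale `2^{-k}` -/
def Pk (k : ℤ) : L2 n →L[ℂ] L2 n := fOp (psym k)

/-- the `L¹` norm with values in `[0,∞]` -/
def N1 (u : ST n → ℂ) : ℝ≥0∞ := ∫⁻ z, ‖u z‖ₑ

/-- `u` vanishes a.e. outside `s` -/
def SuppIn (u : L2 n) (s : Set (ST n)) : Prop := ∀ᵐ z ∂(volume : Measure (ST n)), z ∉ s → u z = 0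

/-- the indicator function of `s` -/
def ind (s : Set (ST n)) : ST n → ℂ := s.indicator (fun _ => (1 : ℂ))

/-- the bounded (truncated) weight `c ρ/(1+δρ)`, `ρ = Dw l z₀ / l` -/
def wt (c l δ : ℝ) (z₀ z : ST n) : ℝ := c * (Dw l z₀ z / l) / (1 + δ * (Dw l z₀ z / l))

/-- weighted `L²` bound: `‖exp (c Dw l z₀ / l) u‖₂ ≤ K` (expressed by truncated weights) -/
def WB (c l : ℝ) (z₀ : ST n) (u : L2 n) (K : ℝ) : Prop :=
  ∀ δ : ℝ, 0 < δ → ‖mulOp (ew (wt c l δ z₀)) u‖ ≤ K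

/-- the symbol `2π i ζ_j` of `∂_j` (also for `j = 0`) -/
def dsym (j : Fin (n + 1)) (ζ : ST n) : ℂ := 2 * Real.pi * I * (ζ j : ℂ)

/-- the bounded nonlinear truncation `u / sqrt(|u|²+δ²)` -/
def Phi (δ : ℝ) (w : ℂ) : ℂ := w / (Real.sqrt (‖w‖ ^ 2 + δ ^ 2) : ℂ)

open Classical in
/-- `Phi δ ∘ u` as an element of `L²` -/
def trunc (δ : ℝ) (u : L2 n) : L2 n :=
  if h : MemLp (fun z => Phi δ (u z)) 2 (volume : Measure (ST n)) then h.toLp _ else 0

open Classical in
/-- embedding of square integrable functions in `L²` (`0` if not square integrable) -/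
def toL2 (g : ST n → ℂ) : L2 n :=
  if h : MemLp g 2 (volume : Measure (ST n)) then h.toLp g else 0

end

end Pool.Agent.W_eb6199
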