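import Pool.Agent.W_eb6199.Cubes
import Pool.Agent.W_eb6199.Mul
import Pool.Agent.W_eb6199.Trans

open MeasureTheory Complex Filter Topology
open scoped FourierTransform ComplexInnerProductSpace ENNReal NNReal

namespace Pool.Agent.W_eb6199

noncomputable section

variable {n : ℕ}

/-! T26: the averaging operators `Ek`. -/

/-- Cauchy–Schwarz with the constant function `1` -/
theorem sq_lintegral_le_measure_mul {α : Type*} [MeasurableSpace α] (μ : Measure α)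
    {f : α → ℝ≥0∞} (hf : AEMeasurable f μ) :
    (∫⁻ x, f x ∂μ) ^ 2 ≤ μ Set.univ * ∫⁻ x, f x ^ 2 ∂μ := by
  have h := ENNReal.lintegral_mul_le_Lp_mul_Lq μ Real.HolderConjugate.two_two hf
    (aemeasurable_const (b := (1 : ℝ≥0∞)))
  simp only [Pi.mul_apply, mul_one, ENNReal.one_rpow, lintegral_const, one_mul] at h
  have h2 : (∫⁻ x, f x ∂μ) ^ 2 ≤
      ((∫⁻ x, f x ^ (2 : ℝ) ∂μ) ^ (1 / 2 : ℝ) * μ Set.univ ^ (1 / 2 : ℝ)) ^ 2 :=
    pow_le_pow_left₀ zero_le h 2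
  refine h2.trans (le_of_eq ?_)
  rw [mul_pow, ← ENNReal.rpow_natCast, ← ENNReal.rpow_natCast, ← ENNReal.rpow_mul,
    ← ENNReal.rpow_mul]
  norm_num
  rw [mul_comm]

theorem integrableOn_cube (k : ℤ) (m : Fin (n + 1) → ℤ) (u : L2 n) :
    IntegrableOn (fun z => u z) (cube k m) volume := by
  have h1 : MemLp (fun z => u z) 2 (volume.restrict (cube k m)) := (Lp.memLp u).restrict _
  have hfin : IsFiniteMeasure (volume.restrict (cube k m)) := by
    refine ⟨?_⟩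
    rw [Measure.restrict_apply_univ, volume_cube]
    exact ENNReal.ofReal_lt_top
  exact h1.integrable (by norm_num)

theorem enorm_avg_le (k : ℤ) (m : Fin (n + 1) → ℤ) (u : ST n → ℂ) :
    ‖avg k m u‖ₑ ≤ (ENNReal.ofReal (qv n k))⁻¹ * ∫⁻ z in cube k m, ‖u z‖ₑ := by
  unfold avg
  rw [enorm_smul]
  have h : ‖(qv n k)⁻¹‖ₑ = (ENNReal.ofReal (qv n k))⁻¹ := by
    rw [Real.enorm_eq_ofReal (inv_nonneg.2 (qv_pos n k).le), ENNReal.ofReal_inv_of_pos (qv_pos n k)]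
  rw [h]
  gcongr
  exact enorm_integral_le_lintegral_enorm _

theorem ofReal_qv_ne_zero (n : ℕ) (k : ℤ) : ENNReal.ofReal (qv n k) ≠ 0 := by
  simpa using qv_pos n k

theorem enorm_avg_sq_le (k : ℤ) (m : Fin (n + 1) → ℤ) {u : ST n → ℂ}
    (hu : AEStronglyMeasurable u (volume.restrict (cube k m))) :
    ‖avg k m u‖ₑ ^ 2 ≤ (ENNReal.ofReal (qv n k))⁻¹ * ∫⁻ z in cube k m, ‖u z‖ₑ ^ 2 := by
  have h1 := enorm_avg_le k m u
  have h2 := sq_lintegral_le_measure_mul (volume.restrict (cube k m)) hu.enorm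
  rw [Measure.restrict_apply_univ, volume_cube] at h2
  have hq0 := ofReal_qv_ne_zero n k
  have hqt : ENNReal.ofReal (qv n k) ≠ ∞ := ENNReal.ofReal_ne_top
  calc ‖avg k m u‖ₑ ^ 2
      ≤ ((ENNReal.ofReal (qv n k))⁻¹ * ∫⁻ z in cube k m, ‖u z‖ₑ) ^ 2 :=
        pow_le_pow_left₀ zero_le h1 2
    _ = (ENNReal.ofReal (qv n k))⁻¹ * ((ENNReal.ofReal (qv n k))⁻¹ *
          (∫⁻ z in cube k m, ‖u z‖ₑ) ^ 2) := by ring
    _ ≤ (ENNReal.ofReal (qv n k))⁻¹ * ((ENNReal.ofReal (qv n k))⁻¹ *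
          (ENNReal.ofReal (qv n k) * ∫⁻ z in cube k m, ‖u z‖ₑ ^ 2)) := by gcongr
    _ = (ENNReal.ofReal (qv n k))⁻¹ * ∫⁻ z in cube k m, ‖u z‖ₑ ^ 2 := by
        rw [← mul_assoc (ENNReal.ofReal (qv n k))⁻¹ (ENNReal.ofReal (qv n k)),
          ENNReal.inv_mul_cancel hq0 hqt, one_mul]

theorem aesm_cube (k : ℤ) (m : Fin (n + 1) → ℤ) (u : L2 n) :
    AEStronglyMeasurable (fun z => u z) (volume.restrict (cube k m)) :=
  (Lp.aestronglyMeasurable u).restrict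

theorem ofReal_qv_mul_enorm_avg_sq_le (k : ℤ) (m : Fin (n + 1) → ℤ) (u : L2 n) :
    ENNReal.ofReal (qv n k) * ‖avg k m u‖ₑ ^ 2 ≤ ∫⁻ z in cube k m, ‖u z‖ₑ ^ 2 := by
  have h := enorm_avg_sq_le k m (aesm_cube k m u)
  calc ENNReal.ofReal (qv n k) * ‖avg k m u‖ₑ ^ 2
      ≤ ENNReal.ofReal (qv n k) *
        ((ENNReal.ofReal (qv n k))⁻¹ * ∫⁻ z in cube k m, ‖u z‖ₑ ^ 2) := by gcongr
    _ = _ := by
        rw [← mul_assoc, ENNReal.mul_inv_cancel (ofReal_qv_ne_zero n k) ENNReal.ofReal_ne_top,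
          one_mul]

theorem avg_congr_ae (k : ℤ) (m : Fin (n + 1) → ℤ) {u v : ST n → ℂ} (h : u =ᵐ[volume] v) :
    avg k m u = avg k m v := by
  unfold avg
  rw [integral_congr_ae (ae_restrict_of_ae h)]

theorem avg_add (k : ℤ) (m : Fin (n + 1) → ℤ) (u v : L2 n) :
    avg k m (u + v : L2 n) = avg k m u + avg k m v := by
  rw [avg_congr_ae k m (Lp.coeFn_add u v)]
  unfold avg
  simp only [Pi.add_apply]
  rw [integral_add (integrableOn_cube k m u) (integrableOn_cube k m v), smul_add]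

theorem avg_smul (k : ℤ) (m : Fin (n + 1) → ℤ) (c : ℂ) (u : L2 n) :
    avg k m (c • u : L2 n) = c * avg k m u := by
  rw [avg_congr_ae k m (Lp.coeFn_smul c u)]
  unfold avg
  simp only [Pi.smul_apply, smul_eq_mul]
  rw [integral_const_mul, mul_smul_comm]

theorem measurable_Ef (k : ℤ) (u : ST n → ℂ) : Measurable (Ef k u) := by
  have h : Measurable (fun m : Fin (n + 1) → ℤ => avg k m u) := measurable_of_countable _
  exact h.comp (measurable_idx k)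

/-- integrating a function which is constant on cubes against a weight -/
theorem lintegral_mul_comp_idx (k : ℤ) (g : ST n → ℝ≥0∞) (hg : Measurable g)
    (F : (Fin (n + 1) → ℤ) → ℝ≥0∞) :
    ∫⁻ z, g z * F (idx k z) = ∑' m : Fin (n + 1) → ℤ, (∫⁻ z in cube k m, g z) * F m := by
  rw [lintegral_eq_tsum_cubes k]
  congr 1
  ext m
  rw [← lintegral_mul_const _ hg]
  refine setLIntegral_congr_fun (measurableSet_cube k m) fun z hz => ?_
  simp only [mem_cube_iff.1 hz]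

theorem lintegral_enorm_Ef (k : ℤ) (u : ST n → ℂ) :
    ∫⁻ z, ‖Ef k u z‖ₑ ^ 2
      = ∑' m : Fin (n + 1) → ℤ, ENNReal.ofReal (qv n k) * ‖avg k m u‖ₑ ^ 2 := by
  have h := lintegral_mul_comp_idx (n := n) k (fun _ => 1) measurable_const
    (fun m => ‖avg k m u‖ₑ ^ 2)
  simp only [one_mul, lintegral_const, Measure.restrict_apply_univ, volume_cube] at h
  exact h

theorem lintegral_enorm_Ef_le (k : ℤ) (u : L2 n) :
    ∫⁻ z, ‖Ef k u z‖ₑ ^ 2 ≤ ∫⁻ z, ‖u z‖ₑ ^ 2 := by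
  rw [lintegral_enorm_Ef, lintegral_eq_tsum_cubes k]
  exact ENNReal.tsum_le_tsum fun m => ofReal_qv_mul_enorm_avg_sq_le k m u

theorem memLp_two_of_lintegral {f : ST n → ℂ} (hf : AEStronglyMeasurable f volume)
    (h : ∫⁻ z, ‖f z‖ₑ ^ 2 ≠ ∞) : MemLp f 2 (volume : Measure (ST n)) := by
  refine ⟨hf, ?_⟩
  rw [eLpNorm_lt_top_iff_lintegral_rpow_enorm_lt_top (by norm_num) (by norm_num)]
  simp only [ENNReal.toReal_ofNat, ENNReal.rpow_ofNat]
  exact lt_top_iff_ne_top.2 h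

theorem memLp_Ef (k : ℤ) (u : L2 n) : MemLp (Ef k u) 2 (volume : Measure (ST n)) := by
  refine memLp_two_of_lintegral (measurable_Ef k u).aestronglyMeasurable ?_
  refine ne_top_of_le_ne_top ?_ (lintegral_enorm_Ef_le k u)
  rw [← ofReal_norm_sq]
  exact ENNReal.ofReal_ne_top

theorem norm_toLp_Ef_le (k : ℤ) (u : L2 n) : ‖(memLp_Ef k u).toLp _‖ ≤ ‖u‖ := by
  have h1 : ENNReal.ofReal (‖(memLp_Ef k u).toLp _‖ ^ 2) ≤ ENNReal.ofReal (‖u‖ ^ 2) := by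
    rw [ofReal_norm_sq, ofReal_norm_sq]
    refine le_trans (le_of_eq ?_) (lintegral_enorm_Ef_le k u)
    refine lintegral_congr_ae ?_
    filter_upwards [(memLp_Ef k u).coeFn_toLp] with z hz
    rw [hz]
  rw [ENNReal.ofReal_le_ofReal_iff (by positivity)] at h1
  exact (pow_le_pow_iff_left₀ (norm_nonneg _) (norm_nonneg _) two_ne_zero).1 h1

/-- the averaging operator as a continuous linear map -/
def EkAux (k : ℤ) : L2 n →L[ℂ] L2 n :=
  LinearMap.mkContinuous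
    { toFun := fun u => (memLp_Ef k u).toLp _
      map_add' := by
        intro u v
        ext1
        filter_upwards [(memLp_Ef k (u + v)).coeFn_toLp, (memLp_Ef k u).coeFn_toLp,
          (memLp_Ef k v).coeFn_toLp,
          Lp.coeFn_add ((memLp_Ef k u).toLp _) ((memLp_Ef k v).toLp _)] with z h1 h2 h3 h4
        rw [h1, h4, Pi.add_apply, h2, h3]
        exact avg_add k _ u v
      map_smul' := by
        intro c u
        ext1
        filter_upwards [(memLp_Ef k (c • u)).coeFn_toLp, (memLp_Ef k u).coeFn_toLp,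
          Lp.coeFn_smul c ((memLp_Ef k u).toLp _)] with z h1 h2 h4
        rw [h1, RingHom.id_apply, h4, Pi.smul_apply, h2, smul_eq_mul]
        exact avg_smul k _ c u }
    1 (by
      intro u
      rw [one_mul]
      exact norm_toLp_Ef_le k u)

theorem Ek_coe (k : ℤ) (u : L2 n) : (Ek k u : ST n → ℂ) =ᵐ[volume] Ef k u := by
  have h : ∃ T : L2 n →L[ℂ] L2 n, ∀ u : L2 n, (T u : ST n → ℂ) =ᵐ[volume] Ef k u :=
    ⟨EkAux k, fun u => (memLp_Ef k u).coeFn_toLp⟩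
  unfold Ek
  rw [dif_pos h]
  exact h.choose_spec u

theorem qv_mul_norm_avg_sq_le (k : ℤ) (m : Fin (n + 1) → ℤ) (u : L2 n) :
    qv n k * ‖avg k m u‖ ^ 2 ≤ ∫ z in cube k m, ‖u z‖ ^ 2 := by
  have h := ofReal_qv_mul_enorm_avg_sq_le k m u
  have h1 : ENNReal.ofReal (∫ z in cube k m, ‖u z‖ ^ 2) = ∫⁻ z in cube k m, ‖u z‖ₑ ^ 2 := by
    rw [ofReal_integral_eq_lintegral_ofReal (integrable_norm_sq u).integrableOn
      (Eventually.of_forall fun z => by positivity)]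
    refine lintegral_congr fun z => ?_
    rw [ENNReal.ofReal_pow (norm_nonneg _), ofReal_norm]
  have h2 : ENNReal.ofReal (qv n k * ‖avg k m u‖ ^ 2)
      = ENNReal.ofReal (qv n k) * ‖avg k m u‖ₑ ^ 2 := by
    rw [ENNReal.ofReal_mul (qv_pos n k).le, ENNReal.ofReal_pow (norm_nonneg _), ofReal_norm]
  rw [← h1, ← h2, ENNReal.ofReal_le_ofReal_iff (integral_nonneg fun z => by positivity)] at h
  exact h

theorem norm_Ek_le (k : ℤ) (u : L2 n) : ‖Ek k u‖ ≤ ‖u‖ := by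
  have h : Ek k u = (memLp_Ef k u).toLp _ := by
    ext1
    exact (Ek_coe k u).trans (memLp_Ef k u).coeFn_toLp.symm
  rw [h]
  exact norm_toLp_Ef_le k u

theorem Ek_Ek_of_le {j k : ℤ} (h : j ≤ k) (u : L2 n) : Ek k (Ek j u) = Ek j u := by
  ext1
  refine (Ek_coe k _).trans (EventuallyEq.trans ?_ (Ek_coe j u).symm)
  refine Eventually.of_forall fun z => ?_
  change avg k (idx k z) (Ek j u) = Ef j u z
  rw [avg_congr_ae k _ (Ek_coe j u)]
  unfold avg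
  have h1 : ∫ w in cube k (idx k z), Ef j u w = ∫ w in cube k (idx k z), Ef j u z := by
    refine setIntegral_congr_fun (measurableSet_cube k _) fun w hw => ?_
    have h2 : idx j w = idx j z := idx_eq_of_le h (mem_cube_iff.1 hw)
    change avg j (idx j w) u = avg j (idx j z) u
    rw [h2]
  rw [h1, setIntegral_const, measureReal_def, volume_cube, ENNReal.toReal_ofReal (qv_pos n k).le,
    smul_smul, inv_mul_cancel₀ (qv_pos n k).ne', one_smul]

theorem Ek_Ek_self (k : ℤ) (u : L2 n) : Ek k (Ek k u) = Ek k u := Ek_Ek_of_le le_rfl u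

/-- an idempotent contraction is orthogonal -/
theorem inner_ker_range_eq_zero {P : L2 n →L[ℂ] L2 n} (hP : ∀ u, ‖P u‖ ≤ ‖u‖) {x y : L2 n}
    (hx : P x = 0) (hy : P y = y) : ⟪x, y⟫ = 0 := by
  set c : ℂ := ⟪x, y⟫ with hc
  by_contra hne
  set ε : ℝ := 1 / (‖x‖ ^ 2 + 1) with hε
  have hε0 : 0 < ε := by positivity
  set t : ℂ := -((ε : ℂ) * c) with ht
  have h1 : ‖y‖ ≤ ‖y + t • x‖ := by
    have h := hP (y + t • x)
    rwa [map_add, map_smul, hx, smul_zero, add_zero, hy] at h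
  have h2 : ‖y‖ ^ 2 ≤ ‖y + t • x‖ ^ 2 := pow_le_pow_left₀ (norm_nonneg _) h1 2
  have h3 : ‖y + t • x‖ ^ 2 = ‖y‖ ^ 2 + 2 * (⟪y, t • x⟫ : ℂ).re + ‖t • x‖ ^ 2 := by
    have := @norm_add_sq ℂ (L2 n) _ _ _ y (t • x)
    simpa using this
  have h4 : (⟪y, t • x⟫ : ℂ).re = -(ε * ‖c‖ ^ 2) := by
    rw [inner_smul_right, ← inner_conj_symm y x, ← hc, ht]
    have : -((ε : ℂ) * c) * (starRingEnd ℂ) c = ((-(ε * ‖c‖ ^ 2) : ℝ) : ℂ) := by
      have h5 : c * (starRingEnd ℂ) c = ((‖c‖ ^ 2 : ℝ) : ℂ) := by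
        rw [Complex.mul_conj, Complex.normSq_eq_norm_sq]
      push_cast at h5 ⊢
      rw [← h5]
      ring
    rw [this, Complex.ofReal_re]
  have h6 : ‖t • x‖ ^ 2 = ε ^ 2 * ‖c‖ ^ 2 * ‖x‖ ^ 2 := by
    rw [norm_smul, ht, norm_neg, norm_mul, Complex.norm_real, Real.norm_eq_abs,
      abs_of_pos hε0]
    ring
  rw [h3, h4, h6] at h2
  have hcpos : 0 < ‖c‖ ^ 2 := by
    have : 0 < ‖c‖ := norm_pos_iff.2 hne
    positivity
  have hex : ε * ‖x‖ ^ 2 ≤ 1 := by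
    rw [hε, one_div, inv_mul_le_iff₀ (by positivity)]
    linarith only
  have h7 : ε ^ 2 * ‖c‖ ^ 2 * ‖x‖ ^ 2 ≤ ε * ‖c‖ ^ 2 := by
    calc ε ^ 2 * ‖c‖ ^ 2 * ‖x‖ ^ 2 = (ε * ‖c‖ ^ 2) * (ε * ‖x‖ ^ 2) := by ring
      _ ≤ (ε * ‖c‖ ^ 2) * 1 := by gcongr
      _ = ε * ‖c‖ ^ 2 := mul_one _
  have h8 : 0 < ε * ‖c‖ ^ 2 := by positivity
  linarith only [h2, h7, h8]

theorem Ek_sub_Ek (k : ℤ) (u : L2 n) : Ek k (u - Ek k u) = 0 := by
  rw [map_sub, Ek_Ek_self, sub_self]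

theorem inner_sub_Ek_Ek (k : ℤ) (u v : L2 n) : ⟪u - Ek k u, Ek k v⟫ = 0 :=
  inner_ker_range_eq_zero (norm_Ek_le k) (Ek_sub_Ek k u) (Ek_Ek_self k v)

theorem inner_Ek (k : ℤ) (u v : L2 n) : ⟪Ek k u, v⟫ = ⟪u, Ek k v⟫ := by
  have h1 : ⟪u, Ek k v⟫ = ⟪Ek k u, Ek k v⟫ := by
    have h := inner_sub_Ek_Ek k u v
    rw [inner_sub_left, sub_eq_zero] at h
    exact h
  have h2 : ⟪Ek k u, v⟫ = ⟪Ek k u, Ek k v⟫ := by
    have h := inner_sub_Ek_Ek k v u
    rw [← inner_conj_symm, map_eq_zero, inner_sub_right, sub_eq_zero] at h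
    exact h
  rw [h1, h2]

theorem Ek_Ek_of_ge {j k : ℤ} (h : j ≤ k) (u : L2 n) : Ek j (Ek k u) = Ek j u := by
  refine ext_inner_right ℂ fun v => ?_
  rw [inner_Ek, inner_Ek, inner_Ek, Ek_Ek_of_le h]

/-- best approximation -/
theorem norm_sub_Ek_le (k : ℤ) (u v : L2 n) (hv : Ek k v = v) : ‖u - Ek k u‖ ≤ ‖u - v‖ := by
  have h1 : u - v = (u - Ek k u) + Ek k (u - v) := by
    rw [map_sub, hv]; abel
  have h2 : ‖u - v‖ ^ 2 = ‖u - Ek k u‖ ^ 2 + ‖Ek k (u - v)‖ ^ 2 := by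
    have h3 := norm_add_sq_eq_norm_sq_add_norm_sq_of_inner_eq_zero (u - Ek k u) (Ek k (u - v))
      (𝕜 := ℂ) (inner_sub_Ek_Ek k u (u - v))
    rw [← h1] at h3
    simpa [sq] using h3
  refine (pow_le_pow_iff_left₀ (norm_nonneg _) (norm_nonneg _) two_ne_zero).1 ?_
  rw [h2]
  linarith only [sq_nonneg ‖Ek k (u - v)‖]

theorem enorm_sub_avg_sq_le (k : ℤ) (m : Fin (n + 1) → ℤ) (u : L2 n) (c : ℂ) :
    ‖c - avg k m u‖ₑ ^ 2
      ≤ (ENNReal.ofReal (qv n k))⁻¹ * ∫⁻ w in cube k m, ‖c - u w‖ₑ ^ 2 := by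
  have hfin : IsFiniteMeasure (volume.restrict (cube k m)) := by
    refine ⟨?_⟩
    rw [Measure.restrict_apply_univ, volume_cube]
    exact ENNReal.ofReal_lt_top
  have h1 : c - avg k m u = avg k m (fun w => c - u w) := by
    unfold avg
    rw [integral_sub (integrable_const c) (integrableOn_cube k m u), smul_sub, integral_const,
      measureReal_def, Measure.restrict_apply_univ, volume_cube,
      ENNReal.toReal_ofReal (qv_pos n k).le, smul_smul, inv_mul_cancel₀ (qv_pos n k).ne', one_smul]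
  rw [h1]
  exact enorm_avg_sq_le k m (aestronglyMeasurable_const.sub (aesm_cube k m u))

/-- averages minimise: `∫_Q |u - avg|² ≤ ∫_Q |u - c|²`, and the double integral bound -/
theorem lintegral_sub_avg_le (k : ℤ) (m m' : Fin (n + 1) → ℤ) (u : L2 n) :
    ∫⁻ z in cube k m', ‖u z - avg k m u‖ₑ ^ 2
      ≤ (ENNReal.ofReal (qv n k))⁻¹ * ∫⁻ z in cube k m', ∫⁻ w in cube k m, ‖u z - u w‖ₑ ^ 2 := by
  rw [← lintegral_const_mul' _ _ (ENNReal.inv_ne_top.2 (ofReal_qv_ne_zero n k))]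
  exact lintegral_mono fun z => enorm_sub_avg_sq_le k m u (u z)

theorem lintegral_norm_sq_Ek (k : ℤ) (u : L2 n) (g : ST n → ℝ≥0∞) (hg : Measurable g) :
    ∫⁻ z, g z * ‖Ek k u z‖ₑ ^ 2
      = ∑' m : Fin (n + 1) → ℤ, (∫⁻ z in cube k m, g z) * ‖avg k m u‖ₑ ^ 2 := by
  rw [← lintegral_mul_comp_idx k g hg (fun m => ‖avg k m u‖ₑ ^ 2)]
  refine lintegral_congr_ae ?_
  filter_upwards [Ek_coe k u] with z hz
  rw [hz]
  rfl

end

end Pool.Agent.W_eb6199
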