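import Pool.Agent.W_eb6199.EkBasic

open MeasureTheory Complex Filter Topology
open scoped FourierTransform ComplexInnerProductSpace ENNReal NNReal

namespace Pool.Agent.W_eb6199

noncomputable section

variable {n : ℕ}

/-! T28: Poincaré inequalities by translations. -/

/-- the difference set of the cubes `Q + v` and `Q` -/
private def poinH (k : ℤ) (v : Fin (n + 1) → ℤ) : Set (ST n) :=
  {h | ∀ j, (v j : ℝ) - 1 ≤ sc k j * h j ∧ sc k j * h j < v j + 1}

private theorem poinH_meas (k : ℤ) (v : Fin (n + 1) → ℤ) : MeasurableSet (poinH (n := n) k v) := by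
  have : poinH (n := n) k v = ⋂ j, {h : ST n | (v j : ℝ) - 1 ≤ sc k j * h j ∧
      sc k j * h j < v j + 1} := by
    ext h
    simp [poinH]
  rw [this]
  refine MeasurableSet.iInter fun j => ?_
  have hm : Measurable fun h : ST n => sc k j * h j := by fun_prop
  exact (measurableSet_le measurable_const hm).inter (measurableSet_lt hm measurable_const)

private theorem poinH_vol (k : ℤ) (v : Fin (n + 1) → ℤ) :
    volume (poinH (n := n) k v) ≤ ENNReal.ofReal (3 ^ (n + 1) * qv n k) := by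
  rw [← volume_star k v]
  refine measure_mono fun h hh j => ⟨(hh j).1, (hh j).2.trans (by linarith only)⟩

private theorem poin_lint_tr (u : L2 n) (h : ST n) :
    ∫⁻ z, ‖u z - u (z - h)‖ₑ ^ 2 = ENNReal.ofReal (‖u - tr h u‖ ^ 2) := by
  rw [ofReal_norm_sq]
  refine lintegral_congr_ae ?_
  filter_upwards [Lp.coeFn_sub u (tr h u), tr_coe h u] with z h1 h2
  rw [h1, Pi.sub_apply, h2]

private theorem poin_meas (u : L2 n) : Measurable (u : ST n → ℂ) :=
  (Lp.stronglyMeasurable u).measurable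

private theorem poin_pointwise (k : ℤ) (v : Fin (n + 1) → ℤ) (z : ST n) (F : ST n → ℝ≥0∞) :
    ∫⁻ w in cube k (idx k z - v), F w ≤ ∫⁻ h in poinH k v, F (z - h) := by
  rw [← lintegral_indicator (poinH_meas k v), ← lintegral_indicator (measurableSet_cube _ _),
    ← lintegral_sub_left_eq_self _ z]
  refine lintegral_mono fun h => ?_
  by_cases hh : z - h ∈ cube k (idx k z - v)
  · rw [Set.indicator_of_mem hh]
    have : h ∈ poinH k v := by
      intro j
      have h1 := hh j
      have h2 := mem_cube_idx k z j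
      simp only [Pi.sub_apply, Int.cast_sub, PiLp.sub_apply] at h1
      constructor <;> nlinarith only [h1.1, h1.2, h2.1, h2.2]
    rw [Set.indicator_of_mem this]
  · rw [Set.indicator_of_notMem hh]
    exact zero_le

private theorem poin_cross (k : ℤ) (v : Fin (n + 1) → ℤ) (u : L2 n) :
    ∑' m : Fin (n + 1) → ℤ, ∫⁻ z in cube k (m + v), ∫⁻ w in cube k m, ‖u z - u w‖ₑ ^ 2
      ≤ ∫⁻ h in poinH k v, ENNReal.ofReal (‖u - tr h u‖ ^ 2) := by
  have e1 : ∑' m : Fin (n + 1) → ℤ, ∫⁻ z in cube k (m + v), ∫⁻ w in cube k m, ‖u z - u w‖ₑ ^ 2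
      = ∫⁻ z, ∫⁻ w in cube k (idx k z - v), ‖u z - u w‖ₑ ^ 2 := by
    rw [lintegral_eq_tsum_cubes k, ← (Equiv.addRight v).tsum_eq (fun m => ∫⁻ z in cube k m,
      ∫⁻ w in cube k (idx k z - v), ‖u z - u w‖ₑ ^ 2)]
    refine tsum_congr fun m => ?_
    refine setLIntegral_congr_fun (measurableSet_cube _ _) fun z hz => ?_
    have hz' : idx k z = m + v := mem_cube_iff.1 hz
    simp only [hz', add_sub_cancel_right]
  rw [e1]
  calc ∫⁻ z, ∫⁻ w in cube k (idx k z - v), ‖u z - u w‖ₑ ^ 2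
      ≤ ∫⁻ z, ∫⁻ h in poinH k v, ‖u z - u (z - h)‖ₑ ^ 2 :=
        lintegral_mono fun z => poin_pointwise k v z fun w => ‖u z - u w‖ₑ ^ 2
    _ = ∫⁻ h in poinH k v, ∫⁻ z, ‖u z - u (z - h)‖ₑ ^ 2 := by
        refine lintegral_lintegral_swap ?_
        refine Measurable.aemeasurable ?_
        have hu := poin_meas u
        have h1 : Measurable fun p : ST n × ST n => u p.1 := hu.comp measurable_fst
        have h2 : Measurable fun p : ST n × ST n => u (p.1 - p.2) :=
          hu.comp (measurable_fst.sub measurable_snd)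
        exact ((h1.sub h2).enorm).pow_const 2
    _ = _ := by
        refine lintegral_congr fun h => ?_
        exact poin_lint_tr u h

private theorem poin_master (k : ℤ) (v : Fin (n + 1) → ℤ) (u : L2 n) {ω : ℝ}
    (hω : ∀ h ∈ poinH k v, ‖u - tr h u‖ ≤ ω) :
    ∑' m : Fin (n + 1) → ℤ, ∫⁻ z in cube k (m + v), ‖u z - avg k m u‖ₑ ^ 2
      ≤ ENNReal.ofReal (3 ^ (n + 1) * ω ^ 2) := by
  have hq := qv_pos n k
  have hq' : ENNReal.ofReal (qv n k) ≠ 0 := by
    simpa using hq
  calc ∑' m : Fin (n + 1) → ℤ, ∫⁻ z in cube k (m + v), ‖u z - avg k m u‖ₑ ^ 2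
      ≤ ∑' m : Fin (n + 1) → ℤ, (ENNReal.ofReal (qv n k))⁻¹ *
          ∫⁻ z in cube k (m + v), ∫⁻ w in cube k m, ‖u z - u w‖ₑ ^ 2 :=
        ENNReal.tsum_le_tsum fun m => lintegral_sub_avg_le k m (m + v) u
    _ = (ENNReal.ofReal (qv n k))⁻¹ * ∑' m : Fin (n + 1) → ℤ,
          ∫⁻ z in cube k (m + v), ∫⁻ w in cube k m, ‖u z - u w‖ₑ ^ 2 := ENNReal.tsum_mul_left
    _ ≤ (ENNReal.ofReal (qv n k))⁻¹ * ∫⁻ h in poinH k v, ENNReal.ofReal (‖u - tr h u‖ ^ 2) := by
        gcongr
        exact poin_cross k v u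
    _ ≤ (ENNReal.ofReal (qv n k))⁻¹ * ∫⁻ h in poinH (n := n) k v, ENNReal.ofReal (ω ^ 2) := by
        refine mul_le_mul' le_rfl ?_
        refine setLIntegral_mono' (poinH_meas k v) fun h hh => ?_
        refine ENNReal.ofReal_le_ofReal ?_
        exact pow_le_pow_left₀ (norm_nonneg _) (hω h hh) 2
    _ ≤ (ENNReal.ofReal (qv n k))⁻¹ *
          (ENNReal.ofReal (ω ^ 2) * ENNReal.ofReal (3 ^ (n + 1) * qv n k)) := by
        rw [setLIntegral_const]
        gcongr
        exact poinH_vol k v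
    _ = _ := by
        rw [← ENNReal.ofReal_inv_of_pos hq, ← ENNReal.ofReal_mul (by positivity),
          ← ENNReal.ofReal_mul (by positivity)]
        congr 1
        field_simp

private theorem poin_norm_sub_Ek (k : ℤ) (u : L2 n) :
    ENNReal.ofReal (‖u - Ek k u‖ ^ 2)
      = ∑' m : Fin (n + 1) → ℤ, ∫⁻ z in cube k (m + 0), ‖u z - avg k m u‖ₑ ^ 2 := by
  rw [ofReal_norm_sq]
  have e1 : ∫⁻ z, ‖(u - Ek k u : L2 n) z‖ₑ ^ 2 = ∫⁻ z, ‖u z - Ef k u z‖ₑ ^ 2 := by
    refine lintegral_congr_ae ?_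
    filter_upwards [Lp.coeFn_sub u (Ek k u), Ek_coe k u] with z h1 h2
    rw [h1, Pi.sub_apply, h2]
  rw [e1, lintegral_eq_tsum_cubes k]
  refine tsum_congr fun m => ?_
  rw [add_zero]
  refine setLIntegral_congr_fun (measurableSet_cube _ _) fun z hz => ?_
  have hz' : idx k z = m := mem_cube_iff.1 hz
  simp only [Ef, hz']

private theorem poin_Ek_le (k : ℤ) (u : L2 n) {ω : ℝ} (hω0 : 0 ≤ ω)
    (hω : ∀ h ∈ poinH k 0, ‖u - tr h u‖ ≤ ω) :
    ‖u - Ek k u‖ ≤ 3 ^ (n + 1) * ω := by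
  have h1 := poin_master k 0 u hω
  rw [← poin_norm_sub_Ek] at h1
  have h2 : ‖u - Ek k u‖ ^ 2 ≤ 3 ^ (n + 1) * ω ^ 2 :=
    (ENNReal.ofReal_le_ofReal_iff (by positivity)).1 h1
  have h3 : (1 : ℝ) ≤ 3 ^ (n + 1) := one_le_pow₀ (by norm_num)
  refine le_of_sq_le_sq ?_ (by positivity)
  calc ‖u - Ek k u‖ ^ 2 ≤ 3 ^ (n + 1) * ω ^ 2 := h2
    _ ≤ 3 ^ (n + 1) * (3 ^ (n + 1) * ω ^ 2) := by
        have : 0 ≤ (3 : ℝ) ^ (n + 1) * ω ^ 2 := by positivity
        nlinarith only [h3, this]
    _ = (3 ^ (n + 1) * ω) ^ 2 := by ring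

/-- `‖u - E_k u‖ ≤ C sup_h ‖u - τ_h u‖`, sup over `|h_j| ≤ 1/sc k j` -/
theorem exists_norm_sub_Ek_le_sup (n : ℕ) : ∃ C : ℝ, 0 < C ∧ ∀ (k : ℤ) (u : L2 n) (ω : ℝ),
    (∀ h : ST n, (∀ j, |h j| ≤ (sc k j)⁻¹) → ‖u - tr h u‖ ≤ ω) → ‖u - Ek k u‖ ≤ C * ω := by
  refine ⟨3 ^ (n + 1), by positivity, fun k u ω hω => ?_⟩
  have h0 : 0 ≤ ω := by
    refine (norm_nonneg _).trans (hω 0 fun j => ?_)
    simpa using (sc_pos k j).le
  refine poin_Ek_le k u h0 fun h hh => hω h fun j => ?_
  have h1 := hh j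
  simp only [Pi.zero_apply, Int.cast_zero, zero_sub, zero_add] at h1
  have hs := sc_pos k j
  rw [abs_le, inv_eq_one_div, ← neg_div, div_le_iff₀ hs, le_div_iff₀ hs]
  constructor <;> linarith only [h1.1, h1.2]

private theorem poin_tr_le (u : L2 n) (N : Fin (n + 1) → ℝ)
    (hN : ∀ j (s : ℝ), ‖u - tr (s • ev j) u‖ ≤ |s| * N j) (h : ST n) :
    ‖u - tr h u‖ ≤ ∑ j, |h j| * N j := by
  have key : ∀ s : Finset (Fin (n + 1)),
      ‖u - tr (∑ j ∈ s, h j • ev j) u‖ ≤ ∑ j ∈ s, |h j| * N j := by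
    intro s
    induction s using Finset.induction_on with
    | empty => simp [tr_zero]
    | insert a s ha ih =>
      rw [Finset.sum_insert ha, Finset.sum_insert ha, tr_add]
      have e : u - tr (h a • ev a) (tr (∑ j ∈ s, h j • ev j) u)
          = (u - tr (h a • ev a) u) + tr (h a • ev a) (u - tr (∑ j ∈ s, h j • ev j) u) := by
        rw [map_sub]; abel
      rw [e]
      refine (norm_add_le _ _).trans ?_
      rw [LinearIsometry.norm_map]
      exact add_le_add (hN a (h a)) ih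
  have e : (∑ j, h j • ev j) = h := by
    ext i
    simp [ev, Pi.single_apply]
  have := key Finset.univ
  rwa [e] at this

private theorem poin_N_nonneg (u : L2 n) (N : Fin (n + 1) → ℝ)
    (hN : ∀ j (s : ℝ), ‖u - tr (s • ev j) u‖ ≤ |s| * N j) (j : Fin (n + 1)) : 0 ≤ N j := by
  have := (norm_nonneg _).trans (hN j 1)
  simpa using this

private theorem poin_H_le (k : ℤ) (u : L2 n) (N : Fin (n + 1) → ℝ)
    (hN : ∀ j (s : ℝ), ‖u - tr (s • ev j) u‖ ≤ |s| * N j) (v : Fin (n + 1) → ℤ) (h : ST n)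
    (hh : h ∈ poinH k v) :
    ‖u - tr h u‖ ≤ (1 + ∑ j, |(v j : ℝ)|) * ∑ j, N j / sc k j := by
  refine (poin_tr_le u N hN h).trans ?_
  rw [Finset.mul_sum]
  refine Finset.sum_le_sum fun j _ => ?_
  have hs := sc_pos k j
  have hNj := poin_N_nonneg u N hN j
  have h1 : |(v j : ℝ)| ≤ ∑ j, |(v j : ℝ)| :=
    Finset.single_le_sum (f := fun j => |(v j : ℝ)|) (fun i _ => abs_nonneg _) (Finset.mem_univ j)
  have h2 : |h j| * sc k j ≤ 1 + ∑ j, |(v j : ℝ)| := by
    refine le_trans ?_ (add_le_add_right h1 1)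
    rw [show |h j| * sc k j = |h j * sc k j| by rw [abs_mul, abs_of_pos hs]]
    have h3 := hh j
    rw [abs_le]
    constructor
    · linarith only [h3.1, neg_abs_le (v j : ℝ)]
    · linarith only [h3.2, le_abs_self (v j : ℝ)]
  calc |h j| * N j = (|h j| * sc k j) * (N j / sc k j) := by field_simp
    _ ≤ _ := mul_le_mul_of_nonneg_right h2 (div_nonneg hNj hs.le)

/-- `‖u - E_k u‖ ≤ C ∑_j N_j / sc k j` if `‖u - τ_{s e_j} u‖ ≤ |s| N_j` -/
theorem exists_norm_sub_Ek_le (n : ℕ) : ∃ C : ℝ, 0 < C ∧ ∀ (k : ℤ) (u : L2 n)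
    (N : Fin (n + 1) → ℝ), (∀ j (s : ℝ), ‖u - tr (s • ev j) u‖ ≤ |s| * N j) →
    ‖u - Ek k u‖ ≤ C * ∑ j, N j / sc k j := by
  refine ⟨3 ^ (n + 1), by positivity, fun k u N hN => ?_⟩
  have h0 : 0 ≤ ∑ j, N j / sc k j :=
    Finset.sum_nonneg fun j _ => div_nonneg (poin_N_nonneg u N hN j) (sc_pos k j).le
  refine poin_Ek_le k u h0 fun h hh => ?_
  have := poin_H_le k u N hN 0 h hh
  simpa using this

/-- the same for cubes `Q` and `Q + v` -/
theorem exists_tsum_cross_le (n : ℕ) : ∃ C : ℝ, 0 < C ∧ ∀ (k : ℤ) (u : L2 n)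
    (N : Fin (n + 1) → ℝ), (∀ j (s : ℝ), ‖u - tr (s • ev j) u‖ ≤ |s| * N j) →
    ∀ v : Fin (n + 1) → ℤ,
    ∑' m : Fin (n + 1) → ℤ, ∫⁻ z in cube k (m + v), ‖u z - avg k m u‖ₑ ^ 2
      ≤ ENNReal.ofReal ((C * (1 + ∑ j, |(v j : ℝ)|) * ∑ j, N j / sc k j) ^ 2) := by
  refine ⟨3 ^ (n + 1), by positivity, fun k u N hN v => ?_⟩
  refine (poin_master k v u (poin_H_le k u N hN v)).trans (ENNReal.ofReal_le_ofReal ?_)
  have h3 : (1 : ℝ) ≤ 3 ^ (n + 1) := one_le_pow₀ (by norm_num)
  set ω := (1 + ∑ j, |(v j : ℝ)|) * ∑ j, N j / sc k j with hω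
  calc (3 : ℝ) ^ (n + 1) * ω ^ 2 ≤ 3 ^ (n + 1) * (3 ^ (n + 1) * ω ^ 2) := by
        have : 0 ≤ (3 : ℝ) ^ (n + 1) * ω ^ 2 := by positivity
        nlinarith only [h3, this]
    _ = _ := by rw [hω]; ring

private theorem poin_prod (k : ℤ) : ∏ i : Fin (n + 1), (sc k i)⁻¹ = qv n k := by
  rw [Fin.prod_univ_succ]
  simp only [sc_zero, sc_succ, Finset.prod_const, Finset.card_univ, Fintype.card_fin]
  have : (4 : ℝ) ^ k = (2 : ℝ) ^ k * (2 : ℝ) ^ k := by
    rw [← mul_zpow]; norm_num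
  rw [this, qv]
  ring

private theorem poin_vol_box (a b : Fin (n + 1) → ℝ) (hab : ∀ i, a i ≤ b i) :
    volume {z : ST n | ∀ i, a i ≤ z i ∧ z i < b i} = ENNReal.ofReal (∏ i, (b i - a i)) := by
  have e : {z : ST n | ∀ i, a i ≤ z i ∧ z i < b i}
      = (MeasurableEquiv.toLp 2 (Fin (n + 1) → ℝ)).symm ⁻¹'
        (Set.univ.pi fun i => Set.Ico (a i) (b i)) := by
    ext z
    simp [Set.mem_pi]
  have hmeas : MeasurableSet (Set.univ.pi fun i => Set.Ico (a i) (b i)) :=
    MeasurableSet.univ_pi fun i => measurableSet_Ico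
  rw [e, (EuclideanSpace.volume_preserving_symm_measurableEquiv_toLp
    (Fin (n + 1))).measure_preimage hmeas.nullMeasurableSet, Real.volume_pi_Ico,
    ENNReal.ofReal_prod_of_nonneg fun i _ => sub_nonneg.2 (hab i)]

private theorem poin_bad (k : ℤ) (m : Fin (n + 1) → ℤ) (j : Fin (n + 1)) (s : ℝ) :
    volume {z : ST n | z ∈ cube k m ∧ idx k (z - s • ev j) ≠ idx k z}
      ≤ ENNReal.ofReal (|s| * sc k j * qv n k) := by
  have hs := sc_pos k j
  have hprod : ∏ i : Fin (n + 1), (if i = j then |s| else (sc k i)⁻¹) = |s| * sc k j * qv n k := by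
    rw [← poin_prod, ← Finset.mul_prod_erase _ _ (Finset.mem_univ j),
      ← Finset.mul_prod_erase _ (fun i => (sc k i)⁻¹) (Finset.mem_univ j), if_pos rfl]
    have : ∏ x ∈ Finset.univ.erase j, (if x = j then |s| else (sc k x)⁻¹)
        = ∏ x ∈ Finset.univ.erase j, (sc k x)⁻¹ :=
      Finset.prod_congr rfl fun x hx => if_neg (Finset.ne_of_mem_erase hx)
    rw [this]
    field_simp
  have hev : ∀ (z : ST n) i, (z - s • ev j) i = z i - (if i = j then s else 0) := by
    intro z i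
    simp [ev, Pi.single_apply]
  -- the index of the coordinates is unchanged except for the coordinate `j`
  have hne : ∀ z : ST n, z ∈ cube k m → idx k (z - s • ev j) ≠ idx k z →
      ¬ ((m j : ℝ) ≤ sc k j * (z j - s) ∧ sc k j * (z j - s) < m j + 1) := by
    intro z hz hidx hcon
    apply hidx
    rw [mem_cube_iff.1 hz, ← mem_cube_iff]
    intro i
    rw [hev]
    by_cases hi : i = j
    · subst hi
      rw [if_pos rfl]
      exact hcon
    · rw [if_neg hi, sub_zero]
      exact hz i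
  rcases le_total 0 s with h0 | h0
  · have hsub : {z : ST n | z ∈ cube k m ∧ idx k (z - s • ev j) ≠ idx k z}
        ⊆ {z : ST n | ∀ i, (m i : ℝ) / sc k i ≤ z i ∧
          z i < (m i : ℝ) / sc k i + (if i = j then |s| else (sc k i)⁻¹)} := by
      intro z hz i
      have hz1 := hz.1 i
      have hsi := sc_pos k i
      refine ⟨by rw [div_le_iff₀ hsi]; linarith only [hz1.1], ?_⟩
      by_cases hi : i = j
      · subst hi
        rw [if_pos rfl, abs_of_nonneg h0]
        by_contra hcon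
        push Not at hcon
        apply hne z hz.1 hz.2
        have h3 : (m i : ℝ) ≤ sc k i * (z i - s) := by
          have : (m i : ℝ) / sc k i ≤ z i - s := by linarith only [hcon]
          rw [div_le_iff₀ hsi] at this
          linarith only [this]
        refine ⟨h3, ?_⟩
        have : sc k i * (z i - s) ≤ sc k i * z i := by
          apply mul_le_mul_of_nonneg_left _ hsi.le
          linarith only [h0]
        linarith only [hz1.2, this]
      · rw [if_neg hi, ← one_div, ← add_div, lt_div_iff₀ hsi]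
        linarith only [hz1.2]
    refine (measure_mono hsub).trans (le_of_eq ?_)
    rw [poin_vol_box _ _ fun i => ?_]
    · congr 1
      rw [← hprod]
      refine Finset.prod_congr rfl fun i _ => ?_
      ring
    · have : 0 ≤ (if i = j then |s| else (sc k i)⁻¹) := by
        split_ifs
        · exact abs_nonneg _
        · exact inv_nonneg.2 (sc_pos k i).le
      linarith only [this]
  · have hsub : {z : ST n | z ∈ cube k m ∧ idx k (z - s • ev j) ≠ idx k z}
        ⊆ {z : ST n | ∀ i, ((m i : ℝ) + 1) / sc k i - (if i = j then |s| else (sc k i)⁻¹) ≤ z i ∧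
          z i < ((m i : ℝ) + 1) / sc k i} := by
      intro z hz i
      have hz1 := hz.1 i
      have hsi := sc_pos k i
      refine ⟨?_, by rw [lt_div_iff₀ hsi]; linarith only [hz1.2]⟩
      by_cases hi : i = j
      · subst hi
        rw [if_pos rfl, abs_of_nonpos h0]
        by_contra hcon
        push Not at hcon
        apply hne z hz.1 hz.2
        have h3 : sc k i * (z i - s) < (m i : ℝ) + 1 := by
          have : z i - s < ((m i : ℝ) + 1) / sc k i := by linarith only [hcon]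
          rw [lt_div_iff₀ hsi] at this
          linarith only [this]
        refine ⟨?_, h3⟩
        have : sc k i * z i ≤ sc k i * (z i - s) := by
          apply mul_le_mul_of_nonneg_left _ hsi.le
          linarith only [h0]
        linarith only [hz1.1, this]
      · rw [if_neg hi, ← one_div, ← sub_div, div_le_iff₀ hsi]
        linarith only [hz1.1]
    refine (measure_mono hsub).trans (le_of_eq ?_)
    rw [poin_vol_box _ _ fun i => ?_]
    · congr 1
      rw [← hprod]
      refine Finset.prod_congr rfl fun i _ => ?_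
      ring
    · have : 0 ≤ (if i = j then |s| else (sc k i)⁻¹) := by
        split_ifs
        · exact abs_nonneg _
        · exact inv_nonneg.2 (sc_pos k i).le
      linarith only [this]

/-- the set of points whose translate lies in another cube -/
private def poinB (k : ℤ) (j : Fin (n + 1)) (s : ℝ) : Set (ST n) :=
  {z | idx k (z - s • ev j) ≠ idx k z}

private theorem poinB_meas (k : ℤ) (j : Fin (n + 1)) (s : ℝ) :
    MeasurableSet (poinB (n := n) k j s) := by
  have h1 : Measurable fun z : ST n => idx k (z - s • ev j) :=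
    (measurable_idx k).comp (measurable_id.sub_const _)
  have h2 : Measurable fun z : ST n => idx k z := measurable_idx k
  exact (measurableSet_eq_fun h1 h2).compl

private theorem poinB_int (k : ℤ) (j : Fin (n + 1)) (s : ℝ) (u : L2 n) :
    ∫⁻ z, (poinB k j s).indicator (fun _ => (1 : ℝ≥0∞)) z * ‖Ef k u z‖ₑ ^ 2
      ≤ ENNReal.ofReal (|s| * sc k j) * ENNReal.ofReal (‖Ek k u‖ ^ 2) := by
  have e1 : ∀ g : ST n → ℝ≥0∞, Measurable g → ∫⁻ z, g z * ‖Ef k u z‖ₑ ^ 2
      = ∑' m : Fin (n + 1) → ℤ, (∫⁻ z in cube k m, g z) * ‖avg k m u‖ₑ ^ 2 := by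
    intro g hg
    rw [← lintegral_norm_sq_Ek k u g hg]
    refine lintegral_congr_ae ?_
    filter_upwards [Ek_coe k u] with z hz
    rw [hz]
  have e2 : ENNReal.ofReal (‖Ek k u‖ ^ 2)
      = ∑' m : Fin (n + 1) → ℤ, ENNReal.ofReal (qv n k) * ‖avg k m u‖ₑ ^ 2 := by
    rw [ofReal_norm_sq]
    have := lintegral_norm_sq_Ek k u (fun _ => 1) measurable_const
    simp only [one_mul] at this
    rw [this]
    refine tsum_congr fun m => ?_
    rw [setLIntegral_const, one_mul, volume_cube]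
  rw [e1 _ (measurable_const.indicator (poinB_meas k j s)), e2, ← ENNReal.tsum_mul_left]
  refine ENNReal.tsum_le_tsum fun m => ?_
  rw [← mul_assoc]
  gcongr ?_ * _
  rw [lintegral_indicator_const (poinB_meas k j s), one_mul,
    Measure.restrict_apply (poinB_meas k j s),
    ← ENNReal.ofReal_mul (mul_nonneg (abs_nonneg _) (sc_pos k j).le)]
  refine le_trans (measure_mono ?_) (poin_bad k m j s)
  intro z hz
  exact ⟨hz.2, hz.1⟩

/-- boundary estimate for functions constant on the cubes of generation `k` -/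
theorem norm_sq_sub_tr_le (k : ℤ) {u : L2 n} (hu : Ek k u = u) (j : Fin (n + 1)) (s : ℝ) :
    ‖u - tr (s • ev j) u‖ ^ 2 ≤ 4 * (|s| * sc k j) * ‖u‖ ^ 2 := by
  have hs := sc_pos k j
  have hG : (u : ST n → ℂ) =ᵐ[volume] Ef k u := by
    have := Ek_coe k u
    rwa [hu] at this
  have hGt : (fun z => u (z - s • ev j)) =ᵐ[volume] fun z => Ef k u (z - s • ev j) :=
    (measurePreserving_sub_right volume (s • ev j)).quasiMeasurePreserving.ae_eq_comp hG
  have hI : ∀ s : ℝ, ∫⁻ z, (poinB k j s).indicator (fun _ => (1 : ℝ≥0∞)) z * ‖Ef k u z‖ₑ ^ 2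
      ≤ ENNReal.ofReal (|s| * sc k j) * ENNReal.ofReal (‖u‖ ^ 2) := by
    intro s
    have := poinB_int k j s u
    rwa [hu] at this
  have hshift : ∫⁻ z, (poinB k j s).indicator (fun _ => (1 : ℝ≥0∞)) z *
        ‖Ef k u (z - s • ev j)‖ₑ ^ 2
      = ∫⁻ z, (poinB k j (-s)).indicator (fun _ => (1 : ℝ≥0∞)) z * ‖Ef k u z‖ₑ ^ 2 := by
    rw [← lintegral_sub_right_eq_self
      (fun z => (poinB k j (-s)).indicator (fun _ => (1 : ℝ≥0∞)) z * ‖Ef k u z‖ₑ ^ 2) (s • ev j)]
    refine lintegral_congr fun z => ?_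
    congr 1
    have : z ∈ poinB k j s ↔ z - s • ev j ∈ poinB k j (-s) := by
      simp only [poinB, Set.mem_ofPred_eq, neg_smul, sub_neg_eq_add, sub_add_cancel]
      exact ne_comm
    by_cases hz : z ∈ poinB k j s
    · rw [Set.indicator_of_mem hz, Set.indicator_of_mem (this.1 hz)]
    · rw [Set.indicator_of_notMem hz, Set.indicator_of_notMem fun h => hz (this.2 h)]
  have hpt : ∀ z, ‖Ef k u z - Ef k u (z - s • ev j)‖ₑ ^ 2
      ≤ 2 * ((poinB k j s).indicator (fun _ => (1 : ℝ≥0∞)) z * ‖Ef k u z‖ₑ ^ 2)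
        + 2 * ((poinB k j s).indicator (fun _ => (1 : ℝ≥0∞)) z *
          ‖Ef k u (z - s • ev j)‖ₑ ^ 2) := by
    intro z
    by_cases hz : z ∈ poinB k j s
    · simp only [Set.indicator_of_mem hz, one_mul]
      set a := Ef k u z
      set b := Ef k u (z - s • ev j)
      have h1 : ‖a - b‖ ^ 2 ≤ 2 * ‖a‖ ^ 2 + 2 * ‖b‖ ^ 2 := by
        have h2 := norm_sub_le a b
        have h3 := norm_nonneg (a - b)
        nlinarith only [sq_nonneg (‖a‖ - ‖b‖), h2, h3]
      have h4 : ∀ c : ℂ, ‖c‖ₑ ^ 2 = ENNReal.ofReal (‖c‖ ^ 2) := by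
        intro c
        rw [ENNReal.ofReal_pow (norm_nonneg _), ofReal_norm]
      rw [h4, h4, h4]
      refine (ENNReal.ofReal_le_ofReal h1).trans (le_of_eq ?_)
      rw [ENNReal.ofReal_add (by positivity) (by positivity), ENNReal.ofReal_mul (by norm_num),
        ENNReal.ofReal_mul (by norm_num)]
      simp
    · have : idx k (z - s • ev j) = idx k z := by
        simpa [poinB] using hz
      have h0 : Ef k u z - Ef k u (z - s • ev j) = 0 := by
        simp only [Ef, this, sub_self]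
      rw [h0]
      simp
  have hfin : ENNReal.ofReal (‖u - tr (s • ev j) u‖ ^ 2)
      ≤ ENNReal.ofReal (4 * (|s| * sc k j) * ‖u‖ ^ 2) := by
    have hmeasEf : Measurable (Ef k (u : ST n → ℂ)) := by
      have : Ef k (u : ST n → ℂ) = (fun m => avg k m u) ∘ idx k := rfl
      rw [this]
      exact (measurable_of_countable _).comp (measurable_idx k)
    rw [← poin_lint_tr]
    calc ∫⁻ z, ‖u z - u (z - s • ev j)‖ₑ ^ 2
        = ∫⁻ z, ‖Ef k u z - Ef k u (z - s • ev j)‖ₑ ^ 2 := by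
          refine lintegral_congr_ae ?_
          filter_upwards [hG, hGt] with z h1 h2
          rw [h1, h2]
      _ ≤ ∫⁻ z, (2 * ((poinB k j s).indicator (fun _ => (1 : ℝ≥0∞)) z * ‖Ef k u z‖ₑ ^ 2)
          + 2 * ((poinB k j s).indicator (fun _ => (1 : ℝ≥0∞)) z *
          ‖Ef k u (z - s • ev j)‖ₑ ^ 2)) := lintegral_mono hpt
      _ = 2 * (∫⁻ z, (poinB k j s).indicator (fun _ => (1 : ℝ≥0∞)) z * ‖Ef k u z‖ₑ ^ 2)
          + 2 * (∫⁻ z, (poinB k j s).indicator (fun _ => (1 : ℝ≥0∞)) z *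
            ‖Ef k u (z - s • ev j)‖ₑ ^ 2) := by
          have hm1 : Measurable fun z => (poinB k j s).indicator (fun _ => (1 : ℝ≥0∞)) z *
              ‖Ef k u z‖ₑ ^ 2 :=
            (measurable_const.indicator (poinB_meas k j s)).mul (hmeasEf.enorm.pow_const 2)
          have hm2 : Measurable fun z => (poinB k j s).indicator (fun _ => (1 : ℝ≥0∞)) z *
              ‖Ef k u (z - s • ev j)‖ₑ ^ 2 :=
            (measurable_const.indicator (poinB_meas k j s)).mul
              ((hmeasEf.comp (measurable_id.sub_const _)).enorm.pow_const 2)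
          rw [lintegral_add_left (hm1.const_mul 2), lintegral_const_mul _ hm1,
            lintegral_const_mul _ hm2]
      _ ≤ 2 * (ENNReal.ofReal (|s| * sc k j) * ENNReal.ofReal (‖u‖ ^ 2))
          + 2 * (ENNReal.ofReal (|s| * sc k j) * ENNReal.ofReal (‖u‖ ^ 2)) := by
          rw [hshift]
          gcongr
          · exact hI s
          · have := hI (-s)
            rwa [abs_neg] at this
      _ = _ := by
          have h2 : ∀ x : ℝ, (2 : ℝ≥0∞) * ENNReal.ofReal x = ENNReal.ofReal (2 * x) := by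
            intro x
            rw [ENNReal.ofReal_mul (by norm_num)]
            simp
          rw [← ENNReal.ofReal_mul (by positivity), h2,
            ← ENNReal.ofReal_add (by positivity) (by positivity)]
          congr 1
          ring
  exact (ENNReal.ofReal_le_ofReal_iff (by positivity)).1 hfin

end

end Pool.Agent.W_eb6199
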