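import Pool.Agent.W_eb6199.EkBasic
import Pool.Agent.W_eb6199.Poincare

open MeasureTheory Complex Filter Topology
open scoped FourierTransform ComplexInnerProductSpace ENNReal NNReal

namespace Pool.Agent.W_eb6199

noncomputable section

variable {n : ℕ}

attribute [local irreducible] Ek

/-! T27: convergence of `Ek` and the square function of martingale differences. -/

theorem norm_le_of_contr {E : Type*} [NormedAddCommGroup E] [NormedSpace ℂ E] (T : E →L[ℂ] E)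
    (hT : ∀ u, ‖T u‖ ≤ ‖u‖) (u g : E) : ‖T u‖ ≤ ‖u - g‖ + ‖T g‖ := by
  have hadd : T u = T (u - g) + T g := by
    rw [← T.map_add, sub_add_cancel]
  rw [hadd]
  exact (norm_add_le _ _).trans (add_le_add (hT _) le_rfl)

/-- for `k ≥ 0` all the side lengths of the cubes are at most `2^{-k}` -/
theorem inv_sc_le {k : ℤ} (hk : 0 ≤ k) (j : Fin (n + 1)) : (sc k j)⁻¹ ≤ ((2 : ℝ) ^ k)⁻¹ := by
  have h2 : (0 : ℝ) < (2 : ℝ) ^ k := by positivity
  refine inv_anti₀ h2 ?_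
  unfold sc
  split_ifs
  · obtain ⟨m, rfl⟩ := Int.eq_ofNat_of_zero_le hk
    simp only [zpow_natCast]
    exact pow_le_pow_left₀ (by norm_num) (by norm_num) m
  · exact le_rfl

theorem tendsto_inv_two_zpow : Tendsto (fun k : ℤ => ((2 : ℝ) ^ k)⁻¹) atTop (𝓝 0) := by
  have h : Tendsto (fun k : ℤ => (2 : ℝ) ^ k) atTop atTop := by
    refine tendsto_atTop_atTop_of_monotone
      (fun a b hab => zpow_le_zpow_right₀ (by norm_num) hab) fun b => ?_
    obtain ⟨m, hm⟩ := pow_unbounded_of_one_lt b (by norm_num : (1 : ℝ) < 2)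
    exact ⟨(m : ℤ), by rw [zpow_natCast]; exact hm.le⟩
  exact h.inv_tendsto_atTop

theorem tendsto_Ek_atTop (u : L2 n) : Tendsto (fun k : ℤ => Ek k u) atTop (𝓝 u) := by
  obtain ⟨C, hC, hE⟩ := exists_norm_sub_Ek_le_sup n
  rw [Metric.tendsto_atTop']
  intro ε hε
  have hcont := (continuous_tr u).tendsto 0
  rw [Metric.tendsto_nhds] at hcont
  have hcont' := hcont (ε / (2 * C)) (by positivity)
  rw [Metric.eventually_nhds_iff] at hcont'
  obtain ⟨δ, hδ, hball⟩ := hcont'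
  have hlim : Tendsto (fun k : ℤ => ((n : ℝ) + 1) * ((2 : ℝ) ^ k)⁻¹) atTop (𝓝 0) := by
    have := tendsto_inv_two_zpow.const_mul ((n : ℝ) + 1)
    simpa using this
  have hev := (hlim.eventually (gt_mem_nhds hδ)).and (eventually_ge_atTop (0 : ℤ))
  obtain ⟨K, hK⟩ := hev.exists_forall_of_atTop
  refine ⟨K, fun k hk => ?_⟩
  obtain ⟨h1, h2⟩ := hK k hk.le
  have h3 : ‖u - Ek k u‖ ≤ C * (ε / (2 * C)) := by
    refine hE k u _ fun h hh => ?_
    have hn : ‖h‖ < δ := by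
      refine lt_of_le_of_lt ?_ h1
      have h4 : ‖h‖ ≤ ∑ j, |h j| := by
        have h5 : h = ∑ j, (h j) • (EuclideanSpace.single j (1 : ℝ) : ST n) := by
          ext i
          simp [Pi.single_apply]
        calc ‖h‖ = ‖∑ j, (h j) • (EuclideanSpace.single j (1 : ℝ) : ST n)‖ := by rw [← h5]
          _ ≤ ∑ j, ‖(h j) • (EuclideanSpace.single j (1 : ℝ) : ST n)‖ := norm_sum_le _ _
          _ = ∑ j, |h j| := by
              refine Finset.sum_congr rfl fun j _ => ?_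
              rw [norm_smul, PiLp.norm_single, Real.norm_eq_abs]
              simp
      calc ‖h‖ ≤ ∑ j, |h j| := h4
        _ ≤ ∑ _j : Fin (n + 1), ((2 : ℝ) ^ k)⁻¹ :=
            Finset.sum_le_sum fun j _ => (hh j).trans (inv_sc_le h2 j)
        _ = ((n : ℝ) + 1) * ((2 : ℝ) ^ k)⁻¹ := by
            rw [Finset.sum_const, Finset.card_univ, Fintype.card_fin, nsmul_eq_mul]
            push_cast
            ring
    have h6 := hball (by rwa [dist_zero_right] : dist h 0 < δ)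
    rw [tr_zero, dist_eq_norm] at h6
    rw [← norm_neg, neg_sub]
    exact h6.le
  rw [dist_eq_norm, ← norm_neg, neg_sub]
  calc ‖u - Ek k u‖ ≤ C * (ε / (2 * C)) := h3
    _ = ε / 2 := by field_simp
    _ < ε := by linarith

theorem norm_avg_le (k : ℤ) (m : Fin (n + 1) → ℤ) (u : ST n → ℂ) :
    ENNReal.ofReal (qv n k * ‖avg k m u‖) ≤ ∫⁻ w in cube k m, ‖u w‖ₑ := by
  unfold avg
  rw [norm_smul, Real.norm_eq_abs, abs_of_pos (inv_pos.2 (qv_pos n k)), ← mul_assoc,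
    mul_inv_cancel₀ (qv_pos n k).ne', one_mul, ofReal_norm]
  exact enorm_integral_le_lintegral_enorm _

theorem norm_sq_Ek_le (k : ℤ) (u : L2 n) (hu : N1 u ≠ ∞) :
    ‖Ek k u‖ ^ 2 ≤ (qv n k)⁻¹ * (N1 u).toReal ^ 2 := by
  have hq := qv_pos n k
  have h1 : ∀ᵐ z ∂(volume : Measure (ST n)), ‖Ek k u z‖ ≤ (qv n k)⁻¹ * (N1 u).toReal := by
    filter_upwards [Ek_coe k u] with z hz
    rw [hz]
    have h2 : ENNReal.ofReal (qv n k * ‖Ef k u z‖) ≤ N1 u :=
      (norm_avg_le k (idx k z) u).trans (setLIntegral_le_lintegral _ _)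
    have h3 := (ENNReal.ofReal_le_iff_le_toReal hu).1 h2
    rw [inv_mul_eq_div, le_div_iff₀ hq, mul_comm]
    exact h3
  have h4 : ‖Ek k u‖ ^ 2 = ‖(⟪Ek k u, u⟫ : ℂ)‖ := by
    have h5 : (⟪Ek k u, u⟫ : ℂ) = ⟪Ek k u, Ek k u⟫ := by
      rw [← inner_Ek, Ek_Ek_of_le le_rfl]
    rw [h5, inner_self_eq_norm_sq_to_K]
    simp
  have h6 := inner_le_N1 (u := u) (g := Ek k u) (by positivity) h1
  rw [h4]
  have h7 : ENNReal.ofReal ((qv n k)⁻¹ * (N1 u).toReal) * N1 u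
      = ENNReal.ofReal ((qv n k)⁻¹ * (N1 u).toReal ^ 2) := by
    conv_lhs => rw [← ENNReal.ofReal_toReal hu]
    rw [ENNReal.toReal_ofReal ENNReal.toReal_nonneg, ← ENNReal.ofReal_mul (by positivity)]
    congr 1
    ring
  rw [h7] at h6
  exact (ENNReal.ofReal_le_ofReal_iff (by positivity)).1 h6

theorem tendsto_inv_qv_atBot (n : ℕ) : Tendsto (fun k : ℤ => (qv n k)⁻¹) atBot (𝓝 0) := by
  have h : Tendsto (fun k : ℤ => (2 : ℝ) ^ k) atBot (𝓝 0) := by
    have h1 := (tendsto_inv_two_zpow).comp (tendsto_neg_atBot_atTop (G := ℤ))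
    refine h1.congr fun k => ?_
    simp
  have h2 := h.pow (n + 2)
  rw [zero_pow (by omega)] at h2
  refine h2.congr fun k => ?_
  unfold qv
  rw [inv_pow, inv_inv]

theorem tendsto_Ek_atBot (u : L2 n) : Tendsto (fun k : ℤ => Ek k u) atBot (𝓝 0) := by
  rw [tendsto_zero_iff_norm_tendsto_zero]
  rw [Metric.tendsto_nhds]
  intro ε hε
  -- approximation by an integrable function
  have happ : ∃ g : L2 n, N1 g ≠ ∞ ∧ ‖u - g‖ < ε / 2 := by
    have hlim : Tendsto (fun N : ℕ => mulOp (ind (Metric.ball (0 : ST n) N)) u) atTop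
        (𝓝 (mulOp (fun _ => (1 : ℂ)) u)) := by
      refine tendsto_mulOp (fun N => (BM.ind measurableSet_ball).meas) measurable_const (C := 1)
        (fun N z => ?_) ?_ (fun z => by simp) u
      · unfold ind
        by_cases hz : z ∈ Metric.ball (0 : ST n) N
        · simp [Set.indicator_of_mem hz]
        · simp [Set.indicator_of_notMem hz]
      · refine Eventually.of_forall fun z => ?_
        refine tendsto_const_nhds.congr' ?_
        filter_upwards [eventually_gt_atTop ⌈‖z‖⌉₊] with N hN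
        have hz : z ∈ Metric.ball (0 : ST n) N := by
          rw [mem_ball_zero_iff]
          exact (Nat.le_ceil _).trans_lt (by exact_mod_cast hN)
        simp [ind, Set.indicator_of_mem hz]
    rw [mulOp_const, one_smul] at hlim
    rw [Metric.tendsto_atTop] at hlim
    obtain ⟨N, hN⟩ := hlim (ε / 2) (by positivity)
    refine ⟨mulOp (ind (Metric.ball (0 : ST n) N)) u, ?_, ?_⟩
    · have hs : MeasurableSet (Metric.ball (0 : ST n) N) := measurableSet_ball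
      have h1 : N1 (mulOp (ind (Metric.ball (0 : ST n) N)) u)
          = ∫⁻ z in Metric.ball (0 : ST n) N, ‖ind (Metric.ball (0 : ST n) N) z * u z‖ₑ := by
        unfold N1
        rw [← lintegral_indicator hs]
        refine lintegral_congr_ae ?_
        filter_upwards [mulOp_coe (BM.ind hs) u] with z hz
        rw [hz]
        by_cases hz' : z ∈ Metric.ball (0 : ST n) N
        · rw [Set.indicator_of_mem hz']
        · rw [Set.indicator_of_notMem hz']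
          simp [ind, Set.indicator_of_notMem hz']
      rw [h1]
      refine ne_top_of_le_ne_top ?_ (lintegral_mul_le hs (BM.ind hs).meas u)
      refine ENNReal.mul_ne_top ?_ ENNReal.ofReal_ne_top
      refine ENNReal.rpow_ne_top_of_nonneg (by norm_num) ?_
      refine ne_top_of_le_ne_top (measure_ball_lt_top (μ := (volume : Measure (ST n)))
        (x := (0 : ST n)) (r := (N : ℝ))).ne ?_
      calc ∫⁻ z in Metric.ball (0 : ST n) N, ‖ind (Metric.ball (0 : ST n) N) z‖ₑ ^ 2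
          ≤ ∫⁻ _z in Metric.ball (0 : ST n) N, 1 := by
            refine lintegral_mono fun z => ?_
            unfold ind
            by_cases hz : z ∈ Metric.ball (0 : ST n) N
            · simp [Set.indicator_of_mem hz]
            · simp [Set.indicator_of_notMem hz]
        _ = volume (Metric.ball (0 : ST n) N) := by simp
    · have := hN N le_rfl
      rw [dist_eq_norm] at this
      rw [← norm_neg, neg_sub]
      exact this
  obtain ⟨g, hg1, hg2⟩ := happ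
  have hlim2 : Tendsto (fun k : ℤ => (qv n k)⁻¹ * (N1 g).toReal ^ 2) atBot (𝓝 0) := by
    have := (tendsto_inv_qv_atBot n).mul_const ((N1 g).toReal ^ 2)
    simpa using this
  have hev := hlim2.eventually (gt_mem_nhds (show (0 : ℝ) < (ε / 2) ^ 2 by positivity))
  filter_upwards [hev] with k hk
  rw [dist_zero_right, norm_norm]
  have h1 : ‖Ek k g‖ < ε / 2 := by
    have h2 := (norm_sq_Ek_le k g hg1).trans_lt hk
    exact lt_of_pow_lt_pow_left₀ 2 (by positivity) h2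
  calc ‖Ek k u‖ ≤ ‖u - g‖ + ‖Ek k g‖ := norm_le_of_contr (Ek k) (norm_Ek_le k) u g
    _ < ε / 2 + ε / 2 := add_lt_add hg2 h1
    _ = ε := by ring

theorem inner_Ek_Ek {i j : ℤ} (h : i ≤ j) (u : L2 n) :
    (⟪Ek i u, Ek j u⟫ : ℂ) = ⟪Ek i u, u⟫ := by
  rw [← inner_Ek, Ek_Ek_of_le h]

theorem inner_Ek_Ek' {i j : ℤ} (h : i ≤ j) (u : L2 n) :
    (⟪Ek j u, Ek i u⟫ : ℂ) = ⟪Ek i u, u⟫ := by
  rw [inner_Ek, Ek_Ek_of_le h, ← inner_Ek]

theorem inner_diff_diff {j k : ℤ} (h : j < k) (u : L2 n) :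
    (⟪Ek (j + 1) u - Ek j u, Ek (k + 1) u - Ek k u⟫ : ℂ) = 0 := by
  have e1 : (⟪Ek (j + 1) u, Ek (k + 1) u⟫ : ℂ) = ⟪Ek (j + 1) u, u⟫ := inner_Ek_Ek (i := j + 1) (j := k + 1) (by omega) u
  have e2 : (⟪Ek (j + 1) u, Ek k u⟫ : ℂ) = ⟪Ek (j + 1) u, u⟫ := inner_Ek_Ek (by omega) u
  have e3 : (⟪Ek j u, Ek (k + 1) u⟫ : ℂ) = ⟪Ek j u, u⟫ := inner_Ek_Ek (by omega) u
  have e4 : (⟪Ek j u, Ek k u⟫ : ℂ) = ⟪Ek j u, u⟫ := inner_Ek_Ek (by omega) u
  rw [inner_sub_left, inner_sub_right, inner_sub_right, e1, e2, e3, e4]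
  ring

theorem inner_diff_self_aux {E : Type*} [NormedAddCommGroup E] [InnerProductSpace ℂ E]
    (a b u : E) (h1 : (⟪a, a⟫ : ℂ) = ⟪a, u⟫) (h2 : (⟪a, b⟫ : ℂ) = ⟪b, u⟫)
    (h3 : (⟪b, a⟫ : ℂ) = ⟪b, u⟫) (h4 : (⟪b, b⟫ : ℂ) = ⟪b, u⟫) :
    (⟪a - b, u⟫ : ℂ) = ⟪a - b, a - b⟫ := by
  rw [inner_sub_left, inner_sub_left, inner_sub_right, inner_sub_right, h1, h2, h3, h4]
  ring

theorem inner_diff_self (k : ℤ) (u : L2 n) :
    (⟪Ek (k + 1) u - Ek k u, u⟫ : ℂ)
      = ⟪Ek (k + 1) u - Ek k u, Ek (k + 1) u - Ek k u⟫ := by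
  have e1 : (⟪Ek (k + 1) u, Ek (k + 1) u⟫ : ℂ) = ⟪Ek (k + 1) u, u⟫ := by
    exact inner_Ek_Ek (i := k + 1) (j := k + 1) le_rfl u
  have e2 : (⟪Ek (k + 1) u, Ek k u⟫ : ℂ) = ⟪Ek k u, u⟫ := by
    exact inner_Ek_Ek' (i := k) (j := k + 1) (by omega) u
  have e3 : (⟪Ek k u, Ek (k + 1) u⟫ : ℂ) = ⟪Ek k u, u⟫ := by
    exact inner_Ek_Ek (i := k) (j := k + 1) (by omega) u
  have e4 : (⟪Ek k u, Ek k u⟫ : ℂ) = ⟪Ek k u, u⟫ := by
    exact inner_Ek_Ek (i := k) (j := k) le_rfl u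
  exact inner_diff_self_aux (Ek (k + 1) u) (Ek k u) u e1 e2 e3 e4

theorem sum_norm_sq_diff_le (s : Finset ℤ) (u : L2 n) :
    ∑ k ∈ s, ‖Ek (k + 1) u - Ek k u‖ ^ 2 ≤ ‖u‖ ^ 2 := by
  set d : ℤ → L2 n := fun k => Ek (k + 1) u - Ek k u with hd
  set v : L2 n := ∑ k ∈ s, d k with hv
  have horth : ∀ j k, j ≠ k → (⟪d j, d k⟫ : ℂ) = 0 := by
    intro j k hjk
    rcases lt_or_gt_of_ne hjk with h | h
    · exact inner_diff_diff h u
    · exact inner_eq_zero_symm.1 (inner_diff_diff h u)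
  have hself : ∀ k, (⟪d k, d k⟫ : ℂ) = ((‖d k‖ ^ 2 : ℝ) : ℂ) := by
    intro k
    rw [inner_self_eq_norm_sq_to_K]
    norm_cast
  have h1 : (⟪v, v⟫ : ℂ) = ((∑ k ∈ s, ‖d k‖ ^ 2 : ℝ) : ℂ) := by
    rw [hv, sum_inner]
    push_cast
    refine Finset.sum_congr rfl fun j hj => ?_
    rw [inner_sum, Finset.sum_eq_single j]
    · rw [hself]; norm_cast
    · intro k _ hkj
      exact horth j k (Ne.symm hkj)
    · intro hj'
      exact absurd hj hj'
  have h2 : (⟪v, u⟫ : ℂ) = ((∑ k ∈ s, ‖d k‖ ^ 2 : ℝ) : ℂ) := by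
    rw [hv, sum_inner]
    push_cast
    refine Finset.sum_congr rfl fun j _ => ?_
    have := inner_diff_self j u
    rw [show Ek (j + 1) u - Ek j u = d j from rfl] at this
    rw [this, hself]
    norm_cast
  have h3 : ‖v‖ ^ 2 = ∑ k ∈ s, ‖d k‖ ^ 2 := by
    have h4 : (⟪v, v⟫ : ℂ) = ((‖v‖ ^ 2 : ℝ) : ℂ) := by
      rw [inner_self_eq_norm_sq_to_K]
      norm_cast
    rw [h1] at h4
    exact_mod_cast h4.symm
  have h5 : ‖v‖ ^ 2 ≤ ‖v‖ * ‖u‖ := by
    have h6 := norm_inner_le_norm (𝕜 := ℂ) v u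
    rw [h2, Complex.norm_real, Real.norm_eq_abs, abs_of_nonneg
      (Finset.sum_nonneg fun _ _ => by positivity), ← h3] at h6
    exact h6
  have h7 : ‖v‖ ≤ ‖u‖ := by
    by_cases hv0 : ‖v‖ = 0
    · rw [hv0]; exact norm_nonneg _
    · have : 0 < ‖v‖ := lt_of_le_of_ne (norm_nonneg _) (Ne.symm hv0)
      rw [sq] at h5
      exact le_of_mul_le_mul_left h5 this
  rw [← h3]
  exact pow_le_pow_left₀ (norm_nonneg _) h7 2

/-- almost everywhere convergence along a subsequence, for the moduli -/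
theorem ae_le_of_avg_le (u : L2 n) {α : ℝ} (hα : 0 ≤ α) {s : Set (ST n)}
    (h : ∀ z ∈ s, ∀ k : ℤ, 0 ≤ k →
      ∫⁻ w in cube k (idx k z), ‖u w‖ₑ ≤ ENNReal.ofReal (α * qv n k)) :
    ∀ᵐ z ∂(volume : Measure (ST n)), z ∈ s → ‖u z‖ ≤ α := by
  have h1 : Tendsto (fun k : ℕ => Ek (k : ℤ) u) atTop (𝓝 u) :=
    (tendsto_Ek_atTop u).comp tendsto_natCast_atTop_atTop
  obtain ⟨φ, -, hφ⟩ := (tendstoInMeasure_of_tendsto_Lp h1).exists_seq_tendsto_ae
  have h2 : ∀ᵐ z ∂(volume : Measure (ST n)), ∀ k : ℕ, Ek (k : ℤ) u z = Ef (k : ℤ) u z :=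
    ae_all_iff.2 fun k => Ek_coe (k : ℤ) u
  filter_upwards [hφ, h2] with z hz hz2 hzs
  refine le_of_tendsto hz.norm (Eventually.of_forall fun i => ?_)
  rw [hz2]
  have h3 := (norm_avg_le (φ i : ℤ) (idx (φ i : ℤ) z) u).trans
    (h z hzs (φ i : ℤ) (Int.natCast_nonneg _))
  have hq := qv_pos n (φ i : ℤ)
  have h4 := (ENNReal.ofReal_le_ofReal_iff (by positivity)).1 h3
  rw [mul_comm] at h4
  exact le_of_mul_le_mul_right h4 hq

end

end Pool.Agent.W_eb6199
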