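import Pool.Agent.W_eb6199.ResCont

open MeasureTheory Complex Filter Topology
open scoped FourierTransform ComplexInnerProductSpace ENNReal NNReal

namespace Pool.Agent.W_eb6199

noncomputable section

variable {n : ℕ}

/-! T16: the elementary square function estimate
`∫_a^b ‖J_l g - J_l² g‖² dl/l ≤ ¼ ‖g‖²`  (`-l d/dl ‖J_l g‖² = 4 Re⟨J g - J² g, J g⟩ ≥ 4 ‖Jg-J²g‖²`). -/

theorem elemSF_re_inner_self {E : Type*} [NormedAddCommGroup E] [InnerProductSpace ℂ E] (x : E) :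
    (⟪x, x⟫ : ℂ).re = ‖x‖ ^ 2 := by
  have := inner_self_eq_norm_sq (𝕜 := ℂ) x
  simpa using this

theorem elemSF_re_inner_comm {E : Type*} [NormedAddCommGroup E] [InnerProductSpace ℂ E]
    (x y : E) : (⟪x, y⟫ : ℂ).re = (⟪y, x⟫ : ℂ).re := by
  rw [← inner_conj_symm x y, Complex.conj_re]

theorem elemSF_re_inner_sub {E : Type*} [NormedAddCommGroup E] [InnerProductSpace ℂ E]
    (w h : E) : (⟪w - h, w⟫ : ℂ).re = ‖w - h‖ ^ 2 + (⟪h, w - h⟫ : ℂ).re := by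
  have h5 : (⟪w - h, w⟫ : ℂ) = ⟪w - h, w - h⟫ + ⟪w - h, h⟫ := by
    rw [← inner_add_right, sub_add_cancel]
  rw [h5, Complex.add_re, elemSF_re_inner_self, elemSF_re_inner_comm (w - h) h]

/-- `4 ‖J^k g - J^{k+1} g‖²`-type inequality used in the Nash argument:
with `h = J^{k+1} f`, `a = Re ⟪J^k f - J^{k+1} f, J^k f⟫` one has
`‖J^k f - h‖² + ν l² gD h ≤ a` -/
theorem re_inner_ge (A : Coef n) {l : ℝ} (hl : 0 < l) (k : ℕ) (f : L2 n) :
    ‖(J A l ^ k) f - (J A l ^ (k + 1)) f‖ ^ 2 + A.ν * l ^ 2 * gD ((J A l ^ (k + 1)) f)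
      ≤ (⟪(J A l ^ k) f - (J A l ^ (k + 1)) f, (J A l ^ k) f⟫ : ℂ).re := by
  have hJ : (J A l ^ (k + 1)) f = J A l ((J A l ^ k) f) := by
    rw [pow_succ']; rfl
  rw [hJ]
  set w := (J A l ^ k) f with hw
  set h := J A l w with hh
  obtain ⟨hE, hform⟩ := InDom_J A hl w
  have h1 := hform h hE
  have h2 := re_form_self A hE
  rw [← hh] at h1 h2
  rw [h1, inner_smul_right] at h2
  have h3 : (((l : ℂ) ^ 2)⁻¹ * ⟪h, w - h⟫ : ℂ).re = (l ^ 2)⁻¹ * (⟪h, w - h⟫ : ℂ).re := by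
    rw [← Complex.ofReal_pow, ← Complex.ofReal_inv, Complex.re_ofReal_mul]
  rw [h3] at h2
  have h4 : A.ν * l ^ 2 * gD h ≤ (⟪h, w - h⟫ : ℂ).re := by
    have hl2 : 0 < l ^ 2 := by positivity
    have h5 := mul_le_mul_of_nonneg_left h2 hl2.le
    have h6 : l ^ 2 * ((l ^ 2)⁻¹ * (⟪h, w - h⟫ : ℂ).re) = (⟪h, w - h⟫ : ℂ).re := by
      rw [← mul_assoc, mul_inv_cancel₀ hl2.ne', one_mul]
    rw [h6] at h5
    calc A.ν * l ^ 2 * gD h = l ^ 2 * (A.ν * gD h) := by ring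
      _ ≤ _ := h5
  rw [elemSF_re_inner_sub]
  linarith

theorem elemSF_hasDerivAt_norm_sq {E : Type*} [NormedAddCommGroup E] [InnerProductSpace ℂ E]
    {F : ℝ → E} {d : E} {c l : ℝ} (h : HasDerivAt F (-(c : ℂ) • d) l) :
    HasDerivAt (fun t : ℝ => ‖F t‖ ^ 2) (-(2 * c) * (⟪d, F l⟫ : ℂ).re) l := by
  have h1 := HasDerivAt.inner ℂ h h
  have h2 : HasDerivAt (fun t : ℝ => (⟪F t, F t⟫ : ℂ).re)
      ((⟪F l, -(c : ℂ) • d⟫ + ⟪-(c : ℂ) • d, F l⟫ : ℂ).re) l :=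
    (Complex.reCLM.hasFDerivAt).comp_hasDerivAt l h1
  have h3 : (fun t : ℝ => ‖F t‖ ^ 2) = fun t : ℝ => (⟪F t, F t⟫ : ℂ).re := by
    funext t
    exact (elemSF_re_inner_self (F t)).symm
  rw [h3]
  refine h2.congr_deriv ?_
  rw [inner_smul_right, inner_smul_left, Complex.add_re, map_neg, Complex.conj_ofReal,
    neg_mul, neg_mul, Complex.neg_re, Complex.neg_re, Complex.re_ofReal_mul,
    Complex.re_ofReal_mul, elemSF_re_inner_comm (F l) d]
  ring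

theorem elem_sf_hasDerivAt (A : Coef n) {l : ℝ} (hl : 0 < l) (g : L2 n) :
    HasDerivAt (fun l : ℝ => ‖J A l g‖ ^ 2)
      (-(4 / l) * (⟪J A l g - J A l (J A l g), J A l g⟫ : ℂ).re) l := by
  refine (elemSF_hasDerivAt_norm_sq (hasDerivAt_J A hl g)).congr_deriv ?_
  ring

theorem elem_sf (A : Coef n) {a b : ℝ} (ha : 0 < a) (hab : a ≤ b) (g : L2 n) :
    ∫ l in a..b, ‖J A l g - J A l (J A l g)‖ ^ 2 / l ≤ (1 / 4) * ‖g‖ ^ 2 := by
  have hsub : Set.uIcc a b ⊆ Set.Ioi 0 := by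
    rw [Set.uIcc_of_le hab]
    intro x hx
    exact lt_of_lt_of_le ha hx.1
  have hc1 : ContinuousOn (fun l : ℝ => J A l g) (Set.Ioi 0) := by
    have := continuousOn_Jpow A 1 g
    simpa using this
  have hc2 : ContinuousOn (fun l : ℝ => J A l (J A l g)) (Set.Ioi 0) := by
    have := continuousOn_Jpow A 2 g
    refine this.congr fun l _ => ?_
    change J A l (J A l g) = (J A l ^ 2) g
    rw [pow_two]; rfl
  have hc3 : ContinuousOn (fun l : ℝ => (⟪J A l g - J A l (J A l g), J A l g⟫ : ℂ).re)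
      (Set.Ioi 0) :=
    Complex.continuous_re.comp_continuousOn (ContinuousOn.inner (𝕜 := ℂ) (hc1.sub hc2) hc1)
  have hc4 : ContinuousOn (fun l : ℝ => -(4 / l) * (⟪J A l g - J A l (J A l g), J A l g⟫ : ℂ).re)
      (Set.Ioi 0) := by
    refine ContinuousOn.mul ?_ hc3
    exact (continuousOn_const.div continuousOn_id fun x hx => (ne_of_gt hx)).neg
  have hc5 : ContinuousOn (fun l : ℝ => ‖J A l g - J A l (J A l g)‖ ^ 2 / l) (Set.Ioi 0) :=
    (((hc1.sub hc2).norm).pow 2).div continuousOn_id fun x hx => (ne_of_gt hx)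
  have hint := intervalIntegral.integral_eq_sub_of_hasDerivAt
    (f := fun l : ℝ => ‖J A l g‖ ^ 2)
    (f' := fun l : ℝ => -(4 / l) * (⟪J A l g - J A l (J A l g), J A l g⟫ : ℂ).re)
    (a := a) (b := b) (fun x hx => elem_sf_hasDerivAt A (hsub hx) g)
    ((hc4.mono hsub).intervalIntegrable)
  have hmono : ∫ l in a..b, ‖J A l g - J A l (J A l g)‖ ^ 2 / l
      ≤ ∫ l in a..b, (-(1 / 4)) * (-(4 / l) * (⟪J A l g - J A l (J A l g), J A l g⟫ : ℂ).re) := by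
    refine intervalIntegral.integral_mono_on hab ((hc5.mono hsub).intervalIntegrable)
      (((hc4.mono hsub).const_smul (-(1 / 4 : ℝ))).intervalIntegrable) fun x hx => ?_
    have hx0 : 0 < x := lt_of_lt_of_le ha hx.1
    have h1 := re_inner_ge A hx0 1 g
    have e1 : (J A x ^ 1) g = J A x g := by rw [pow_one]
    have e2 : (J A x ^ (1 + 1)) g = J A x (J A x g) := by rw [pow_succ, pow_one]; rfl
    rw [e1, e2] at h1
    have h2 : 0 ≤ A.ν * x ^ 2 * gD (J A x (J A x g)) :=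
      mul_nonneg (mul_nonneg A.ν_pos.le (sq_nonneg _)) (gD_nonneg _)
    have h3 : ‖J A x g - J A x (J A x g)‖ ^ 2
        ≤ (⟪J A x g - J A x (J A x g), J A x g⟫ : ℂ).re := by linarith
    have h4 : (-(1 / 4)) * (-(4 / x) * (⟪J A x g - J A x (J A x g), J A x g⟫ : ℂ).re)
        = (⟪J A x g - J A x (J A x g), J A x g⟫ : ℂ).re / x := by ring
    rw [h4]
    exact div_le_div_of_nonneg_right h3 hx0.le
  rw [intervalIntegral.integral_const_mul, hint] at hmono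
  refine hmono.trans ?_
  have h1 : ‖J A a g‖ ^ 2 ≤ ‖g‖ ^ 2 := pow_le_pow_left₀ (norm_nonneg _) (norm_J_le A ha g) 2
  have h2 : 0 ≤ ‖J A b g‖ ^ 2 := sq_nonneg _
  linarith

end

end Pool.Agent.W_eb6199
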