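import Pool.Agent.W_eb6199.Fou

open MeasureTheory Complex Filter Topology
open scoped FourierTransform ComplexInnerProductSpace ENNReal NNReal

namespace Pool.Agent.W_eb6199

noncomputable section

variable {n : ℕ}

/-! T04: the energy space and the parabolic gradient. -/

theorem gsym_zero (ζ : ST n) : gsym 0 ζ = (Real.sqrt (2 * Real.pi * |ζ 0|) : ℂ) := by
  simp [gsym]

theorem gsym_succ (i : Fin n) (ζ : ST n) : gsym i.succ ζ = 2 * Real.pi * I * (ζ i.succ : ℂ) := by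
  simp [gsym, Fin.succ_ne_zero]

theorem gsym_succ' (i : Fin n) : (gsym i.succ : ST n → ℂ) = dsym i.succ := by
  funext ζ
  rw [gsym_succ]
  rfl

private theorem measurable_coord (j : Fin (n + 1)) : Measurable (fun ζ : ST n => ζ j) := by
  fun_prop

theorem measurable_dsym (j : Fin (n + 1)) : Measurable (dsym j : ST n → ℂ) := by
  unfold dsym
  exact (Complex.measurable_ofReal.comp (measurable_coord j)).const_mul _

theorem measurable_gsym (j : Fin (n + 1)) : Measurable (gsym j : ST n → ℂ) := by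
  refine Fin.cases ?_ (fun i => ?_) j
  · have : (gsym 0 : ST n → ℂ) = fun ζ => ((Real.sqrt (2 * Real.pi * |ζ 0|) : ℝ) : ℂ) := by
      funext ζ
      exact gsym_zero ζ
    rw [this]
    have h : Continuous (fun ζ : ST n => ((Real.sqrt (2 * Real.pi * |ζ 0|) : ℝ) : ℂ)) := by
      fun_prop
    exact h.measurable
  · rw [gsym_succ']
    exact measurable_dsym _

theorem FMul_D {u : L2 n} (hu : u ∈ En n) (j : Fin (n + 1)) : FMul (gsym j) u (D j u) := by
  unfold D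
  rw [dif_pos (hu j)]
  exact (hu j).choose_spec

theorem D_eq {j : Fin (n + 1)} {u w : L2 n} (h : FMul (gsym j) u w) : D j u = w := by
  have hex : ∃ w, FMul (gsym j) u w := ⟨w, h⟩
  unfold D
  rw [dif_pos hex]
  exact FMul.unique hex.choose_spec h

private theorem fourier_zero_ae : ((𝓕 (0 : L2 n) : L2 n) : ST n → ℂ) =ᵐ[volume] fun _ => (0 : ℂ) := by
  have h : (𝓕 (0 : L2 n) : L2 n) = 0 := by
    have := fourier_fOp (m := fun _ : ST n => (0 : ℂ)) (0 : L2 n)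
    rw [map_zero] at this
    rw [this, mulOp_const, zero_smul]
  rw [h]
  exact Lp.coeFn_zero _ _ _

private theorem FMul_zero (m : ST n → ℂ) : FMul m (0 : L2 n) 0 := by
  unfold FMul
  filter_upwards [fourier_zero_ae (n := n)] with ζ h
  rw [h, mul_zero]

theorem En_zero : (0 : L2 n) ∈ En n := fun j => ⟨0, FMul_zero _⟩

theorem En_add {u v : L2 n} (hu : u ∈ En n) (hv : v ∈ En n) : u + v ∈ En n := fun j =>
  ⟨_, (FMul_D hu j).add (FMul_D hv j)⟩

theorem En_smul (c : ℂ) {u : L2 n} (hu : u ∈ En n) : c • u ∈ En n := fun j =>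
  ⟨_, (FMul_D hu j).smul c⟩

theorem En_sub {u v : L2 n} (hu : u ∈ En n) (hv : v ∈ En n) : u - v ∈ En n := fun j =>
  ⟨_, (FMul_D hu j).sub (FMul_D hv j)⟩

theorem En_sum {ι : Type*} (s : Finset ι) {u : ι → L2 n} (hu : ∀ k ∈ s, u k ∈ En n) :
    ∑ k ∈ s, u k ∈ En n := by
  classical
  induction s using Finset.induction_on with
  | empty => simpa using En_zero
  | insert a s ha ih =>
    rw [Finset.sum_insert ha]
    exact En_add (hu a (Finset.mem_insert_self a s))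
      (ih fun k hk => hu k (Finset.mem_insert_of_mem hk))

theorem D_zero (j : Fin (n + 1)) : D j (0 : L2 n) = 0 := D_eq (FMul_zero _)

theorem D_add (j : Fin (n + 1)) {u v : L2 n} (hu : u ∈ En n) (hv : v ∈ En n) :
    D j (u + v) = D j u + D j v := D_eq ((FMul_D hu j).add (FMul_D hv j))

theorem D_smul (j : Fin (n + 1)) (c : ℂ) {u : L2 n} (hu : u ∈ En n) :
    D j (c • u) = c • D j u := D_eq ((FMul_D hu j).smul c)

theorem D_sub (j : Fin (n + 1)) {u v : L2 n} (hu : u ∈ En n) (hv : v ∈ En n) :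
    D j (u - v) = D j u - D j v := D_eq ((FMul_D hu j).sub (FMul_D hv j))

theorem D_sum (j : Fin (n + 1)) {ι : Type*} (s : Finset ι) {u : ι → L2 n}
    (hu : ∀ k ∈ s, u k ∈ En n) : D j (∑ k ∈ s, u k) = ∑ k ∈ s, D j (u k) := by
  classical
  induction s using Finset.induction_on with
  | empty => simpa using D_zero j
  | insert a s ha ih =>
    rw [Finset.sum_insert ha, Finset.sum_insert ha,
      D_add j (hu a (Finset.mem_insert_self a s))
        (En_sum s fun k hk => hu k (Finset.mem_insert_of_mem hk)),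
      ih fun k hk => hu k (Finset.mem_insert_of_mem hk)]

theorem En_fOp {m : ST n → ℂ} (hm : BM m) {u : L2 n} (hu : u ∈ En n) : fOp m u ∈ En n :=
  fun j => ⟨_, (FMul_D hu j).map_fOp hm⟩

theorem D_fOp {m : ST n → ℂ} (hm : BM m) (j : Fin (n + 1)) {u : L2 n} (hu : u ∈ En n) :
    D j (fOp m u) = fOp m (D j u) := D_eq ((FMul_D hu j).map_fOp hm)

/-- smoothing: if all the products `gsym j * m` are bounded then `fOp m u ∈ En` -/
theorem En_fOp_of_bdd {m : ST n → ℂ} (hm : BM m) (h : ∀ j, BM fun ζ => gsym j ζ * m ζ)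
    (u : L2 n) : fOp m u ∈ En n := fun j => ⟨_, FMul_fOp_of_bdd hm (h j) u⟩

theorem En_closed {u : ℕ → L2 n} {v : L2 n} (hu : ∀ k, u k ∈ En n)
    (hlim : Tendsto u atTop (𝓝 v)) {C : Fin (n + 1) → ℝ} (hC : ∀ j k, ‖D j (u k)‖ ≤ C j) :
    v ∈ En n ∧ (∀ j, ‖D j v‖ ≤ C j) ∧
      ∀ j y, Tendsto (fun k => ⟪y, D j (u k)⟫) atTop (𝓝 ⟪y, D j v⟫) := by
  have key : ∀ j : Fin (n + 1), ∃ x, FMul (gsym j) v x ∧ ‖x‖ ≤ C j ∧
      ∀ y, Tendsto (fun k => ⟪y, D j (u k)⟫) atTop (𝓝 ⟪y, x⟫) := fun j =>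
    FMul_closed (measurable_gsym j) (fun k => FMul_D (hu k) j) hlim (fun k => hC j k)
  refine ⟨fun j => ⟨_, (key j).choose_spec.1⟩, fun j => ?_, fun j y => ?_⟩
  · obtain ⟨x, h1, h2, h3⟩ := key j
    rw [D_eq h1]
    exact h2
  · obtain ⟨x, h1, h2, h3⟩ := key j
    rw [D_eq h1]
    exact h3 y

theorem En_of_tendsto {ι : Type*} {l : Filter ι} [l.NeBot] {u : ι → L2 n} {v : L2 n}
    {w : Fin (n + 1) → L2 n} (hu : ∀ᶠ k in l, u k ∈ En n) (hlim : Tendsto u l (𝓝 v))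
    (hw : ∀ j, Tendsto (fun k => D j (u k)) l (𝓝 (w j))) : v ∈ En n ∧ ∀ j, D j v = w j := by
  have key : ∀ j : Fin (n + 1), FMul (gsym j) v (w j) := fun j =>
    FMul_of_tendsto (measurable_gsym j) (hu.mono fun k hk => FMul_D hk j) hlim (hw j)
  exact ⟨fun j => ⟨_, key j⟩, fun j => D_eq (key j)⟩

theorem norm_gsym_le (j : Fin (n + 1)) (ζ : ST n) :
    ‖gsym j ζ‖ ≤ 2 * Real.pi * ‖ζ‖ + 2 * Real.pi := by
  have hpi := Real.pi_pos
  have hc : ∀ i : Fin (n + 1), |ζ i| ≤ ‖ζ‖ := fun i => by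
    have := EuclideanSpace.norm_eq ζ
    have h2 := PiLp.norm_apply_le ζ i
    simpa [Real.norm_eq_abs] using h2
  refine Fin.cases ?_ (fun i => ?_) j
  · rw [gsym_zero, Complex.norm_real, Real.norm_eq_abs, abs_of_nonneg (Real.sqrt_nonneg _)]
    have h1 : Real.sqrt (2 * Real.pi * |ζ 0|) ≤ 2 * Real.pi * |ζ 0| + 1 := by
      rw [Real.sqrt_le_left (by positivity)]
      have : 0 ≤ 2 * Real.pi * |ζ 0| := by positivity
      nlinarith
    have h2 : 2 * Real.pi * |ζ 0| ≤ 2 * Real.pi * ‖ζ‖ :=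
      mul_le_mul_of_nonneg_left (hc 0) (by positivity)
    have h3 : (1 : ℝ) ≤ 2 * Real.pi := by
      have := Real.pi_gt_three
      linarith
    linarith
  · rw [gsym_succ]
    have h1 : ‖(2 * Real.pi * I * (ζ i.succ : ℂ) : ℂ)‖ = 2 * Real.pi * |ζ i.succ| := by
      simp [abs_of_pos hpi]
    rw [h1]
    have h2 : 2 * Real.pi * |ζ i.succ| ≤ 2 * Real.pi * ‖ζ‖ :=
      mul_le_mul_of_nonneg_left (hc _) (by positivity)
    linarith

/-- the bounded symbols `1_{|ζ| ≤ R}` -/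
theorem En_fOp_ind_ball (R : ℝ) (u : L2 n) : fOp (ind (Metric.closedBall 0 R)) u ∈ En n := by
  refine En_fOp_of_bdd (BM.ind measurableSet_closedBall) (fun j => ?_) u
  refine ⟨(measurable_gsym j).mul (BM.ind measurableSet_closedBall).meas, ?_⟩
  refine ⟨2 * Real.pi * |R| + 2 * Real.pi, fun ζ => ?_⟩
  have hpi := Real.pi_pos
  by_cases hz : ζ ∈ Metric.closedBall (0 : ST n) R
  · have h1 : ‖ζ‖ ≤ |R| := (by simpa using hz : ‖ζ‖ ≤ R).trans (le_abs_self R)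
    have h2 : ind (Metric.closedBall (0 : ST n) R) ζ = 1 := by simp [ind, Set.indicator_of_mem hz]
    rw [h2, mul_one]
    refine (norm_gsym_le j ζ).trans ?_
    have : 2 * Real.pi * ‖ζ‖ ≤ 2 * Real.pi * |R| := mul_le_mul_of_nonneg_left h1 (by positivity)
    linarith
  · have h2 : ind (Metric.closedBall (0 : ST n) R) ζ = 0 := by
      simp [ind, Set.indicator_of_notMem hz]
    rw [h2, mul_zero, norm_zero]
    positivity

theorem tendsto_fOp_ind_ball (u : L2 n) :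
    Tendsto (fun k : ℕ => fOp (ind (Metric.closedBall 0 (k : ℝ))) u) atTop (𝓝 u) := by
  have h1 : Tendsto (fun k : ℕ => mulOp (ind (Metric.closedBall (0 : ST n) (k : ℝ))) (𝓕 u : L2 n))
      atTop (𝓝 (mulOp (fun _ => 1) (𝓕 u : L2 n))) := by
    refine tendsto_mulOp (C := 1) (fun k => (BM.ind measurableSet_closedBall).meas)
      measurable_const (fun k z => ?_) (Eventually.of_forall fun z => ?_) (fun z => by simp) _
    · unfold ind
      by_cases hz : z ∈ Metric.closedBall (0 : ST n) (k : ℝ)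
      · simp [Set.indicator_of_mem hz]
      · simp [Set.indicator_of_notMem hz]
    · refine tendsto_const_nhds.congr' ?_
      obtain ⟨N, hN⟩ := exists_nat_ge ‖z‖
      filter_upwards [eventually_ge_atTop N] with k hk
      have hz : z ∈ Metric.closedBall (0 : ST n) (k : ℝ) := by
        simp only [mem_closedBall_zero_iff]
        exact hN.trans (by exact_mod_cast hk)
      simp [ind, Set.indicator_of_mem hz]
  rw [mulOp_const, one_smul] at h1
  have h2 := ((Lp.fourierTransformₗᵢ (ST n) ℂ).symm.continuous.tendsto _).comp h1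
  have h3 : (Lp.fourierTransformₗᵢ (ST n) ℂ).symm (𝓕 u : L2 n) = u :=
    (Lp.fourierTransformₗᵢ (ST n) ℂ).symm_apply_apply u
  rw [h3] at h2
  exact h2

theorem dense_En : Dense (En n) := by
  intro u
  rw [mem_closure_iff_seq_limit]
  exact ⟨_, fun k => En_fOp_ind_ball (k : ℝ) u, tendsto_fOp_ind_ball u⟩

theorem BM_Ht : BM (fun ζ : ST n => I * (Real.sign (ζ 0) : ℂ)) := by
  constructor
  · have h : Measurable (fun x : ℝ => Real.sign x) := by
      unfold Real.sign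
      exact Measurable.ite measurableSet_Iio measurable_const
        (Measurable.ite measurableSet_Ioi measurable_const measurable_const)
    exact (Complex.measurable_ofReal.comp (h.comp (measurable_coord 0))).const_mul _
  · refine ⟨1, fun z => ?_⟩
    rw [norm_mul, Complex.norm_I, one_mul, Complex.norm_real]
    rcases Real.sign_apply_eq (z 0) with h | h | h <;> rw [h] <;> simp

private theorem norm_Ht_symb_le (z : ST n) : ‖I * (Real.sign (z 0) : ℂ)‖ ≤ 1 := by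
  rw [norm_mul, Complex.norm_I, one_mul, Complex.norm_real]
  rcases Real.sign_apply_eq (z 0) with h | h | h <;> rw [h] <;> simp

theorem norm_Ht_le (u : L2 n) : ‖Ht u‖ ≤ ‖u‖ := by
  have := norm_fOp_le (BM_Ht (n := n)).meas norm_Ht_symb_le u
  rwa [one_mul] at this

theorem inner_Ht (u v : L2 n) : ⟪Ht u, v⟫ = -⟪u, Ht v⟫ := by
  unfold Ht
  rw [inner_fOp BM_Ht]
  have h1 : (fun z : ST n => (starRingEnd ℂ) (I * (Real.sign (z 0) : ℂ)))
      = fun z => (-1 : ℂ) * (I * (Real.sign (z 0) : ℂ)) := by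
    funext z
    rw [map_mul, Complex.conj_I, Complex.conj_ofReal]
    ring
  have h0 : ∀ m : ST n → ℂ, fOp m v
      = (Lp.fourierTransformₗᵢ (ST n) ℂ).symm (mulOp m (𝓕 v : L2 n)) := fun m => rfl
  have h2 : fOp (fun z : ST n => (-1 : ℂ) * (I * (Real.sign (z 0) : ℂ))) v
      = -fOp (fun z : ST n => I * (Real.sign (z 0) : ℂ)) v := by
    rw [h0, h0, mulOp_const_mul BM_Ht (-1), neg_one_smul, map_neg]
  rw [h1, h2, inner_neg_right]

theorem En_Ht {u : L2 n} (hu : u ∈ En n) : Ht u ∈ En n := En_fOp BM_Ht hu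

theorem D_Ht (j : Fin (n + 1)) {u : L2 n} (hu : u ∈ En n) : D j (Ht u) = Ht (D j u) :=
  D_fOp BM_Ht j hu

theorem ae_coord_zero_ne : ∀ᵐ ζ ∂(volume : Measure (ST n)), ζ 0 ≠ 0 := by
  have h : volume {ζ : ST n | ζ 0 = 0} = 0 := by
    have h1 : {ζ : ST n | ζ 0 = 0} = ((LinearMap.ker
        ((EuclideanSpace.proj (0 : Fin (n + 1)) : ST n →L[ℝ] ℝ) : ST n →ₗ[ℝ] ℝ) :
          Submodule ℝ (ST n)) : Set (ST n)) := by
      ext ζ
      simp
    rw [h1]
    refine Measure.addHaar_submodule _ _ ?_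
    intro htop
    have h2 : (ev 0 : ST n) ∈ (LinearMap.ker
        ((EuclideanSpace.proj (0 : Fin (n + 1)) : ST n →L[ℝ] ℝ) : ST n →ₗ[ℝ] ℝ) :
          Submodule ℝ (ST n)) := by
      rw [htop]; trivial
    simp [ev] at h2
  rw [ae_iff]
  simpa using h

theorem Ht_Ht (u : L2 n) : Ht (Ht u) = -u := by
  have h1 : FMul (fun ζ : ST n => (I * (Real.sign (ζ 0) : ℂ)) * (I * (Real.sign (ζ 0) : ℂ))) u
      (Ht (Ht u)) := by
    unfold Ht
    exact (FMul_fOp BM_Ht u).comp (FMul_fOp BM_Ht _)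
  apply (Lp.fourierTransformₗᵢ (ST n) ℂ).injective
  rw [map_neg]
  change (𝓕 (Ht (Ht u)) : L2 n) = -(𝓕 u : L2 n)
  ext1
  filter_upwards [h1, ae_coord_zero_ne (n := n), Lp.coeFn_neg (𝓕 u : L2 n)] with ζ h2 h3 h4
  rw [h2, h4, Pi.neg_apply]
  rcases lt_or_gt_of_ne h3 with h | h
  · rw [Real.sign_of_neg h]
    push_cast
    linear_combination ((𝓕 u : L2 n) ζ) * Complex.I_mul_I
  · rw [Real.sign_of_pos h]
    push_cast
    linear_combination ((𝓕 u : L2 n) ζ) * Complex.I_mul_I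

theorem re_inner_Ht_self (u : L2 n) : (⟪u, Ht u⟫ : ℂ).re = 0 := by
  have h1 := inner_Ht u u
  have h2 : (⟪Ht u, u⟫ : ℂ).re = (⟪u, Ht u⟫ : ℂ).re := by
    rw [← inner_conj_symm, Complex.conj_re]
  rw [h1, Complex.neg_re] at h2
  linarith

theorem norm_gsym_zero_sq (ζ : ST n) : ‖gsym 0 ζ‖ ^ 2 = ‖dsym 0 ζ‖ := by
  have hpi := Real.pi_pos
  rw [gsym_zero, Complex.norm_real, Real.norm_eq_abs, sq_abs, Real.sq_sqrt (by positivity)]
  unfold dsym
  simp [abs_of_pos hpi]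

theorem norm_D0_sq_le {u w : L2 n} (hw : FMul (dsym 0) u w) :
    ∃ x, FMul (gsym 0) u x ∧ ‖x‖ ^ 2 ≤ ‖u‖ * ‖w‖ := by
  have hex : ∃ x, FMul (gsym 0) u x := by
    rw [FMul_exists_iff]
    have h1 : MemLp (fun ζ => ‖(𝓕 u : L2 n) ζ‖ + ‖(𝓕 w : L2 n) ζ‖) 2
        (volume : Measure (ST n)) :=
      (Lp.memLp (𝓕 u : L2 n)).norm.add (Lp.memLp (𝓕 w : L2 n)).norm
    refine h1.mono ((measurable_gsym 0).aestronglyMeasurable.mul (Lp.memLp (𝓕 u : L2 n)).1) ?_
    filter_upwards [hw] with ζ h2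
    rw [h2, norm_mul, norm_mul, Real.norm_eq_abs, abs_of_nonneg (by positivity),
      ← norm_gsym_zero_sq]
    have h3 : ‖gsym 0 ζ‖ ≤ 1 + ‖gsym 0 ζ‖ ^ 2 := by nlinarith [sq_nonneg (‖gsym 0 ζ‖ - 1)]
    calc ‖gsym 0 ζ‖ * ‖(𝓕 u : L2 n) ζ‖ ≤ (1 + ‖gsym 0 ζ‖ ^ 2) * ‖(𝓕 u : L2 n) ζ‖ :=
          mul_le_mul_of_nonneg_right h3 (norm_nonneg _)
      _ = _ := by ring
  obtain ⟨x, hx⟩ := hex
  refine ⟨x, hx, ?_⟩
  have h1 : ‖x‖ ^ 2 = ‖(𝓕 x : L2 n)‖ ^ 2 := by
    rw [Lp.norm_fourier_eq]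
  have h2 : ‖(𝓕 x : L2 n)‖ ^ 2 = ∫ ζ, ‖(𝓕 x : L2 n) ζ‖ ^ 2 := norm_sq_eq_integral _
  have h3 : ∫ ζ, ‖(𝓕 x : L2 n) ζ‖ ^ 2 = ∫ ζ, ‖(𝓕 u : L2 n) ζ‖ * ‖(𝓕 w : L2 n) ζ‖ := by
    refine integral_congr_ae ?_
    filter_upwards [hx, hw] with ζ h4 h5
    rw [h4, h5, norm_mul, norm_mul, mul_pow, norm_gsym_zero_sq]
    ring
  have h4 : ∫ ζ, ‖(𝓕 u : L2 n) ζ‖ * ‖(𝓕 w : L2 n) ζ‖ ≤ ‖(𝓕 u : L2 n)‖ * ‖(𝓕 w : L2 n)‖ := by
    have h5 := integral_mul_norm_le_Lp_mul_Lq (μ := (volume : Measure (ST n)))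
      (f := fun ζ => (𝓕 u : L2 n) ζ) (g := fun ζ => (𝓕 w : L2 n) ζ)
      (p := 2) (q := 2) (by
        rw [Real.holderConjugate_iff]; norm_num)
      (by simpa using Lp.memLp (𝓕 u : L2 n)) (by simpa using Lp.memLp (𝓕 w : L2 n))
    refine h5.trans (le_of_eq ?_)
    have h6 : ∀ v : L2 n, (∫ a, ‖v a‖ ^ (2 : ℝ)) ^ (1 / 2 : ℝ) = ‖v‖ := fun v => by
      have h7 : ∫ a, ‖v a‖ ^ (2 : ℝ) = ‖v‖ ^ 2 := by
        rw [norm_sq_eq_integral]
        refine integral_congr_ae (Eventually.of_forall fun a => ?_)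
        simp
      rw [h7, ← Real.sqrt_eq_rpow, Real.sqrt_sq (norm_nonneg _)]
    rw [h6, h6]
  rw [h1, h2, h3]
  refine h4.trans (le_of_eq ?_)
  rw [Lp.norm_fourier_eq, Lp.norm_fourier_eq]

/-- `⟪D 0 v, Ht (D 0 u)⟫ = ⟪v, ∂_t u⟫` if `∂_t u ∈ L²` -/
theorem time_form_of_FMul {u v w : L2 n} (hu : u ∈ En n) (hv : v ∈ En n)
    (hw : FMul (dsym 0) u w) : ⟪D 0 v, Ht (D 0 u)⟫ = ⟪v, w⟫ := by
  have h1 : FMul (fun ζ : ST n => (I * (Real.sign (ζ 0) : ℂ)) * gsym 0 ζ) u (Ht (D 0 u)) :=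
    (FMul_D hu 0).comp (FMul_fOp BM_Ht _)
  have h2 : FMul (fun _ : ST n => (1 : ℂ)) v v := by
    unfold FMul
    exact Eventually.of_forall fun ζ => by simp
  rw [inner_FMul h1 (FMul_D hv 0), inner_FMul hw h2]
  refine integral_congr_ae (Eventually.of_forall fun ζ => ?_)
  have h3 : (starRingEnd ℂ) (gsym 0 ζ) * ((I * (Real.sign (ζ 0) : ℂ)) * gsym 0 ζ) = dsym 0 ζ := by
    rw [gsym_zero, Complex.conj_ofReal]
    have h4 : (Real.sqrt (2 * Real.pi * |ζ 0|) : ℂ) * (Real.sqrt (2 * Real.pi * |ζ 0|) : ℂ)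
        = ((2 * Real.pi * |ζ 0| : ℝ) : ℂ) := by
      rw [← Complex.ofReal_mul, Real.mul_self_sqrt (by positivity)]
    have h5 : ((|ζ 0| : ℝ) : ℂ) * (Real.sign (ζ 0) : ℂ) = (ζ 0 : ℂ) := by
      rw [← Complex.ofReal_mul]
      congr 1
      rcases lt_trichotomy (ζ 0) 0 with h | h | h
      · rw [Real.sign_of_neg h, abs_of_neg h]; ring
      · rw [h]; simp
      · rw [Real.sign_of_pos h, abs_of_pos h]; ring
    unfold dsym
    push_cast at h4
    linear_combination (I * (Real.sign (ζ 0) : ℂ)) * h4 + (2 * Real.pi * I) * h5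
  simp only [map_one, one_mul]
  rw [h3]

theorem eD_nonneg (u : L2 n) : 0 ≤ eD u := Finset.sum_nonneg fun _ _ => by positivity

theorem gD_nonneg (u : L2 n) : 0 ≤ gD u := Finset.sum_nonneg fun _ _ => by positivity

theorem eD_eq (u : L2 n) : eD u = ‖D 0 u‖ ^ 2 + gD u := by
  unfold eD gD
  rw [Fin.sum_univ_succ]

theorem norm_D_sq_le (j : Fin (n + 1)) (u : L2 n) : ‖D j u‖ ^ 2 ≤ eD u :=
  Finset.single_le_sum (f := fun j => ‖D j u‖ ^ 2) (fun _ _ => by positivity) (Finset.mem_univ j)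

end

end Pool.Agent.W_eb6199
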