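import Pool.Agent.W_eb6199.WeakInputs
import Pool.Agent.W_eb6199.CZ
import Pool.Agent.W_eb6199.AlmostOrth

open MeasureTheory Complex Filter Topology
open scoped FourierTransform ComplexInnerProductSpace ENNReal NNReal

namespace Pool.Agent.W_eb6199

noncomputable section

variable {n : ℕ}

/-! T43: assembly. -/

theorem weak_type_R (hn : 0 < n) (A : Coef n) {R : Fin (n + 1) → L2 n →L[ℂ] L2 n}
    (hR : ∀ j f, Tendsto (fun p : ℝ × ℝ => D j (((2 / Real.pi : ℝ) : ℂ) • ∫ l in p.1..p.2, J A l f))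
      (𝓝[>] 0 ×ˢ atTop) (𝓝 (R j f))) :
    ∃ C : ℝ, 0 < C ∧ ∀ (j : Fin (n + 1)) (f : L2 n) (α : ℝ), 0 < α →
      volume {z | α < ‖R j f z‖} ≤ ENNReal.ofReal (C / α) * N1 f := by
  obtain ⟨m₁, h1⟩ := exists_weak_input hn A hR
  obtain ⟨m₂, h2⟩ := exists_almost_orth A
  obtain ⟨C₁, hC₁, h1⟩ := h1 (max m₁ m₂) (le_max_left _ _)
  obtain ⟨C₂, hC₂, h2⟩ := h2 (max m₁ m₂) (le_max_right _ _)
  have h3 : ∀ j : Fin (n + 1), ∃ C : ℝ, 0 < C ∧ ∀ f : L2 n, ∀ α : ℝ, 0 < α →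
      volume {z | α < ‖R j f z‖} ≤ ENNReal.ofReal (C / α) * N1 f := by
    intro j
    refine weak_type_of (R j) (fun k => J A ((2 : ℝ) ^ k)⁻¹ ^ (max m₁ m₂)) (C₁ := C₁)
      (C₂ := C₂) (fun k i₀ b hb => h1 j k i₀ b hb) ?_
    intro F hF b α hα hb
    exact h2 F hF b α hα hb
  choose C hC0 hC using h3
  refine ⟨∑ j, C j, Finset.sum_pos (fun j _ => hC0 j) Finset.univ_nonempty,
    fun j f α hα => (hC j f α hα).trans ?_⟩
  refine mul_le_mul_left (ENNReal.ofReal_le_ofReal ?_) _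
  refine div_le_div_of_nonneg_right ?_ hα.le
  exact Finset.single_le_sum (f := C) (fun i _ => (hC0 i).le) (Finset.mem_univ j)

end

end Pool.Agent.W_eb6199
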