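import Mathlib

open MeasureTheory Filter Topology Set

namespace Pool.Agent.W_eb6199

noncomputable section

/-! Abstract form of the identity `(2/π ∫ J_l dl)² H u = u`. -/

/-- the constant `∫_0^∞ log s / (s²-1) ds` -/
def kap : ℝ := ∫ s in Ioi (0 : ℝ), Real.log s * (s ^ 2 - 1)⁻¹

theorem abs_log_le_aux {s : ℝ} (hs : 0 < s) :
    |Real.log s| ≤ |s - 1| * s ^ (-(1 / 2) : ℝ) := by
  obtain ⟨x, rfl⟩ : ∃ x, s = Real.exp (2 * x) := ⟨Real.log s / 2, by
    rw [mul_div_cancel₀ _ (two_ne_zero), Real.exp_log hs]⟩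
  rw [Real.log_exp, ← Real.exp_mul]
  have h1 : |Real.exp (2 * x) - 1| * Real.exp (2 * x * -(1 / 2)) = 2 * |Real.sinh x| := by
    rw [Real.sinh_eq, show (2 : ℝ) * x * -(1/2) = -x by ring]
    rw [← abs_of_pos (Real.exp_pos (-x)), ← abs_mul, abs_of_pos (Real.exp_pos (-x)),
      sub_mul, ← Real.exp_add, show 2 * x + -x = x by ring, one_mul, abs_div, abs_two]
    ring
  rw [h1, abs_mul, abs_two]
  have : |x| ≤ |Real.sinh x| := by
    rw [Real.abs_sinh]
    exact Real.self_le_sinh_iff.2 (abs_nonneg _)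
  linarith

theorem abs_logdiv_le {s : ℝ} (hs : 0 < s) :
    |(s ^ 2 - 1)⁻¹| * |Real.log s| ≤ s ^ (-(1 / 2) : ℝ) / (s + 1) := by
  have h1 := abs_log_le_aux hs
  have h2 : |s ^ 2 - 1| = |s - 1| * (s + 1) := by
    rw [show s ^ 2 - 1 = (s - 1) * (s + 1) by ring, abs_mul, abs_of_pos (by linarith : 0 < s + 1)]
  rcases eq_or_ne s 1 with rfl | h3
  · norm_num
  have h4 : 0 < |s - 1| := abs_pos.2 (sub_ne_zero.2 h3)
  rw [mul_comm, abs_inv, h2, mul_inv, ← mul_assoc, ← div_eq_mul_inv, ← div_eq_mul_inv]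
  have h5 : |Real.log s| / |s - 1| ≤ s ^ (-(1 / 2) : ℝ) := by
    rw [div_le_iff₀ h4]; linarith
  exact div_le_div_of_nonneg_right h5 (by linarith)

theorem integrableOn_aux :
    IntegrableOn (fun s : ℝ => s ^ (-(1 / 2) : ℝ) / (s + 1)) (Ioi 0) := by
  have hm : Measurable (fun s : ℝ => s ^ (-(1 / 2) : ℝ) / (s + 1)) := by fun_prop
  rw [← Ioc_union_Ioi_eq_Ioi (zero_le_one' ℝ)]
  refine IntegrableOn.union ?_ ?_
  · have h := (intervalIntegral.intervalIntegrable_rpow' (a := 0) (b := 1) (r := -(1/2)) (by norm_num))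
    rw [intervalIntegrable_iff_integrableOn_Ioc_of_le zero_le_one] at h
    refine h.mono' hm.aestronglyMeasurable ?_
    refine (ae_restrict_iff' measurableSet_Ioc).2 (Eventually.of_forall fun s hs => ?_)
    have h1 : 0 < s ^ (-(1 / 2) : ℝ) := Real.rpow_pos_of_pos hs.1 _
    rw [Real.norm_eq_abs, abs_of_nonneg (div_nonneg h1.le (by linarith [hs.1]))]
    exact div_le_self h1.le (by linarith [hs.1])
  · have h := integrableOn_Ioi_rpow_of_lt (a := -(3/2)) (by norm_num) (c := 1) one_pos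
    refine h.mono' hm.aestronglyMeasurable ?_
    refine (ae_restrict_iff' measurableSet_Ioi).2 (Eventually.of_forall fun s hs => ?_)
    have hs0 : (0:ℝ) < s := lt_trans one_pos hs
    have h1 : 0 < s ^ (-(1 / 2) : ℝ) := Real.rpow_pos_of_pos hs0 _
    rw [Real.norm_eq_abs, abs_of_nonneg (div_nonneg h1.le (by linarith))]
    rw [show (-(3/2) : ℝ) = -(1/2) - 1 by norm_num, Real.rpow_sub_one hs0.ne']
    exact div_le_div_of_nonneg_left h1.le hs0 (by linarith)

variable {E : Type*} [NormedAddCommGroup E] [NormedSpace ℝ E] [CompleteSpace E]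

/-- the abstract resolvent family -/
structure Fam (J : ℝ → E →L[ℝ] E) (u f : E) : Prop where
  le : ∀ l, 0 < l → ∀ x, ‖J l x‖ ≤ ‖x‖
  cont : ∀ x, ContinuousOn (fun l => J l x) (Ioi 0)
  eqf : ∀ l, 0 < l → l ^ 2 • J l f = u - J l u
  res : ∀ l μ, 0 < l → 0 < μ → (l ^ 2 - μ ^ 2) • J l (J μ f) = J μ u - J l u
  zero : Tendsto (fun l => J l u) (𝓝[>] 0) (𝓝 u)
  inf : Tendsto (fun l => J l u) atTop (𝓝 0)

variable {J : ℝ → E →L[ℝ] E} {u f : E}

omit [CompleteSpace E] in
theorem Fam.bound (h : Fam J u f) {l : ℝ} (hl : 0 < l) :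
    ‖J l f‖ ≤ (‖f‖ + 2 * ‖u‖) * (1 + l ^ 2)⁻¹ := by
  have h1 := h.le l hl f
  have h2 : l ^ 2 * ‖J l f‖ ≤ 2 * ‖u‖ := by
    have h3 := h.eqf l hl
    calc l ^ 2 * ‖J l f‖ = ‖l ^ 2 • J l f‖ := by
          rw [norm_smul, Real.norm_of_nonneg (sq_nonneg l)]
      _ = ‖u - J l u‖ := by rw [h3]
      _ ≤ ‖u‖ + ‖J l u‖ := norm_sub_le _ _
      _ ≤ 2 * ‖u‖ := by linarith [h.le l hl u]
  rw [← div_eq_mul_inv, le_div_iff₀ (by positivity)]
  linarith

omit [CompleteSpace E] in
theorem Fam.cont_comp (h : Fam J u f) {X : Type*} [TopologicalSpace X] {s : Set X}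
    {p : X → ℝ} {g : X → E} (hp : ContinuousOn p s) (hp0 : ∀ x ∈ s, 0 < p x)
    (hg : ContinuousOn g s) : ContinuousOn (fun x => J (p x) (g x)) s := by
  intro x₀ hx₀
  have h1 : Tendsto (fun x => J (p x) (g x₀)) (𝓝[s] x₀) (𝓝 (J (p x₀) (g x₀))) := by
    have h2 : ContinuousOn (fun x => J (p x) (g x₀)) s :=
      (h.cont (g x₀)).comp hp (fun x hx => hp0 x hx)
    exact h2 x₀ hx₀
  have h2 : Tendsto (fun x => J (p x) (g x - g x₀)) (𝓝[s] x₀) (𝓝 0) := by
    have h3 : Tendsto (fun x => ‖g x - g x₀‖) (𝓝[s] x₀) (𝓝 0) := by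
      have := (hg x₀ hx₀).sub_const (g x₀)
      rw [sub_self] at this
      simpa using this.norm
    refine squeeze_zero_norm' ?_ h3
    filter_upwards [self_mem_nhdsWithin] with x hx
    exact h.le _ (hp0 x hx) _
  have h3 := h1.add h2
  simp only [map_sub, add_zero] at h3
  refine h3.congr fun x => ?_
  abel

omit [CompleteSpace E] in
theorem Fam.integrableOn (h : Fam J u f) : IntegrableOn (fun l => J l f) (Ioi 0) := by
  have h1 : IntegrableOn (fun l : ℝ => (‖f‖ + 2 * ‖u‖) * (1 + l ^ 2)⁻¹) (Ioi 0) :=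
    (integrable_inv_one_add_sq.const_mul _).integrableOn
  refine h1.mono' ((h.cont f).aestronglyMeasurable measurableSet_Ioi) ?_
  exact (ae_restrict_iff' measurableSet_Ioi).2 (Eventually.of_forall fun s hs => h.bound hs)

/-- the integrand in the variables `(μ, s)` -/
def FF (J : ℝ → E →L[ℝ] E) (f : E) (p : ℝ × ℝ) : E := p.1 • J p.1 (J (p.1 * p.2) f)

omit [CompleteSpace E] in
theorem Fam.integrable_FF (h : Fam J u f) {a b : ℝ} (ha : 0 < a) (hab : a ≤ b) :
    Integrable (FF J f) ((volume.restrict (Ioc a b)).prod (volume.restrict (Ioi 0))) := by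
  have hb : 0 < b := lt_of_lt_of_le ha hab
  have hmeas : AEStronglyMeasurable (FF J f)
      ((volume.restrict (Ioc a b)).prod (volume.restrict (Ioi 0))) := by
    rw [Measure.prod_restrict]
    refine ContinuousOn.aestronglyMeasurable ?_ (measurableSet_Ioc.prod measurableSet_Ioi)
    have hpos : ∀ x ∈ Ioc a b ×ˢ Ioi (0 : ℝ), 0 < x.1 := fun x hx => ha.trans hx.1.1
    unfold FF
    refine continuousOn_fst.smul (h.cont_comp continuousOn_fst hpos ?_)
    exact h.cont_comp (continuousOn_fst.mul continuousOn_snd)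
      (fun x hx => mul_pos (hpos x hx) hx.2) continuousOn_const
  have h2 : Integrable (fun p : ℝ × ℝ => b * ((1 + a ^ 2) / a ^ 2 *
      (‖f‖ + 2 * ‖u‖)) * (1 + p.2 ^ 2)⁻¹)
      ((volume.restrict (Ioc a b)).prod (volume.restrict (Ioi 0))) := by
    have h3 : Integrable (fun _ : ℝ => b * ((1 + a ^ 2) / a ^ 2 * (‖f‖ + 2 * ‖u‖)))
        (volume.restrict (Ioc a b)) := integrable_const _
    have h4 : Integrable (fun s : ℝ => (1 + s ^ 2)⁻¹) (volume.restrict (Ioi 0)) :=
      integrable_inv_one_add_sq.integrableOn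
    exact h3.mul_prod h4
  refine h2.mono' hmeas ?_
  rw [Measure.prod_restrict, ae_restrict_iff' (measurableSet_Ioc.prod measurableSet_Ioi)]
  refine Eventually.of_forall fun p hp => ?_
  obtain ⟨hp1, hp2⟩ := hp
  obtain ⟨hp1, hp1'⟩ := hp1
  have hp2 : 0 < p.2 := hp2
  have hp0 : 0 < p.1 := ha.trans hp1
  unfold FF
  rw [norm_smul, Real.norm_of_nonneg hp0.le]
  have h3 : ‖J p.1 (J (p.1 * p.2) f)‖ ≤ (‖f‖ + 2 * ‖u‖) * (1 + (p.1 * p.2) ^ 2)⁻¹ :=
    (h.le _ hp0 _).trans (h.bound (mul_pos hp0 hp2))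
  have h4 : (1 + (p.1 * p.2) ^ 2)⁻¹ ≤ (1 + a ^ 2) / a ^ 2 * (1 + p.2 ^ 2)⁻¹ := by
    rw [← div_eq_mul_inv, div_div, ← one_div, div_le_div_iff₀ (by positivity) (by positivity)]
    have h5 : a ^ 2 ≤ p.1 ^ 2 := by gcongr
    have h6 : a ^ 2 * p.2 ^ 2 ≤ (p.1 * p.2) ^ 2 := by
      rw [mul_pow]; gcongr
    nlinarith [sq_nonneg a, sq_nonneg p.2, mul_nonneg (sq_nonneg a) (sq_nonneg (p.1 * p.2))]
  have hK : 0 ≤ ‖f‖ + 2 * ‖u‖ := by positivity
  calc p.1 * ‖J p.1 (J (p.1 * p.2) f)‖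
      ≤ b * ((‖f‖ + 2 * ‖u‖) * ((1 + a ^ 2) / a ^ 2 * (1 + p.2 ^ 2)⁻¹)) := by
        refine mul_le_mul hp1' (h3.trans ?_) (norm_nonneg _) hb.le
        exact mul_le_mul_of_nonneg_left h4 hK
    _ = _ := by ring

/-- `W c s = ∫_1^s x⁻¹ J_{cx} u dx` -/
def WW (J : ℝ → E →L[ℝ] E) (u : E) (c s : ℝ) : E := ∫ x in (1 : ℝ)..s, x⁻¹ • J (c * x) u

theorem pos_of_mem_uIcc {s x : ℝ} (hs : 0 < s) (hx : x ∈ uIcc 1 s) : 0 < x := by
  rcases le_total 1 s with h | h
  · rw [uIcc_of_le h] at hx; linarith [hx.1]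
  · rw [uIcc_of_ge h] at hx; linarith [hx.1]

theorem pos_of_mem_uIoc {s x : ℝ} (hs : 0 < s) (hx : x ∈ uIoc 1 s) : 0 < x :=
  pos_of_mem_uIcc hs (uIoc_subset_uIcc hx)

omit [CompleteSpace E] in
theorem Fam.norm_WW_le (h : Fam J u f) {c s : ℝ} (hc : 0 < c) (hs : 0 < s) :
    ‖WW J u c s‖ ≤ |Real.log s| * ‖u‖ := by
  unfold WW
  have h1 : ∀ x ∈ uIoc 1 s, ‖x⁻¹ • J (c * x) u‖ ≤ x⁻¹ * ‖u‖ := by
    intro x hx
    have hx0 := pos_of_mem_uIoc hs hx
    rw [norm_smul, norm_inv, Real.norm_of_nonneg hx0.le]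
    exact mul_le_mul_of_nonneg_left (h.le _ (mul_pos hc hx0) _) (inv_nonneg.2 hx0.le)
  have h2 : IntervalIntegrable (fun x : ℝ => x⁻¹ * ‖u‖) volume 1 s := by
    refine ContinuousOn.intervalIntegrable ?_
    exact (continuousOn_inv₀.mono fun x hx => (pos_of_mem_uIcc hs hx).ne').mul_const _
  refine (intervalIntegral.norm_integral_le_abs_of_norm_le
    ((ae_restrict_iff' measurableSet_uIoc).2 (Eventually.of_forall h1)) h2).trans ?_
  rw [intervalIntegral.integral_mul_const, abs_mul, abs_norm,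
    integral_inv_of_pos one_pos hs, div_one]

omit [CompleteSpace E] in
theorem Fam.cont_WW_aux (h : Fam J u f) {c s : ℝ} (hc : 0 < c) (hs : 0 < s) :
    ContinuousOn (fun x : ℝ => x⁻¹ • J (c * x) u) (uIcc 1 s) := by
  refine (continuousOn_inv₀.mono fun x hx => (pos_of_mem_uIcc hs hx).ne').smul ?_
  exact h.cont_comp (continuousOn_const.mul continuousOn_id)
    (fun x hx => mul_pos hc (pos_of_mem_uIcc hs hx)) continuousOn_const

theorem Fam.tendsto_WW (h : Fam J u f) {s : ℝ} (hs : 0 < s) {L : Filter ℝ}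
    [L.IsCountablyGenerated] {v : E} (hL : ∀ᶠ c in L, 0 < c)
    (hL' : ∀ x : ℝ, 0 < x → Tendsto (fun c : ℝ => c * x) L L)
    (hlim : Tendsto (fun l => J l u) L (𝓝 v)) :
    Tendsto (fun c => WW J u c s) L (𝓝 (Real.log s • v)) := by
  have hlog : Real.log s • v = ∫ x in (1 : ℝ)..s, x⁻¹ • v := by
    rw [intervalIntegral.integral_smul_const, integral_inv_of_pos one_pos hs, div_one]
  rw [hlog]
  unfold WW
  have h2 : IntervalIntegrable (fun x : ℝ => x⁻¹ * ‖u‖) volume 1 s := by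
    refine ContinuousOn.intervalIntegrable ?_
    exact (continuousOn_inv₀.mono fun x hx => (pos_of_mem_uIcc hs hx).ne').mul_const _
  refine intervalIntegral.tendsto_integral_filter_of_dominated_convergence
    (fun x : ℝ => x⁻¹ * ‖u‖) ?_ ?_ h2 ?_
  · filter_upwards [hL] with c hc
    exact ((h.cont_WW_aux hc hs).mono uIoc_subset_uIcc).aestronglyMeasurable measurableSet_uIoc
  · filter_upwards [hL] with c hc
    refine Eventually.of_forall fun x hx => ?_
    have hx0 := pos_of_mem_uIoc hs hx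
    rw [norm_smul, norm_inv, Real.norm_of_nonneg hx0.le]
    exact mul_le_mul_of_nonneg_left (h.le _ (mul_pos hc hx0) _) (inv_nonneg.2 hx0.le)
  · refine Eventually.of_forall fun x hx => ?_
    have hx0 := pos_of_mem_uIoc hs hx
    exact tendsto_const_nhds.smul (hlim.comp (hL' x hx0))

omit [CompleteSpace E] in
theorem Fam.inner_eq (h : Fam J u f) {a b s : ℝ} (ha : 0 < a) (hab : a ≤ b) (hs : 0 < s)
    (hs1 : s ≠ 1) :
    ∫ μ in a..b, FF J f (μ, s) = (s ^ 2 - 1)⁻¹ • (WW J u a s - WW J u b s) := by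
  have hb : 0 < b := lt_of_lt_of_le ha hab
  have hs2 : s ^ 2 - 1 ≠ 0 := by
    intro h0
    have : (s - 1) * (s + 1) = 0 := by linarith
    rcases mul_eq_zero.1 this with h1 | h1
    · exact hs1 (by linarith)
    · linarith
  have hpos : ∀ {c d x : ℝ}, 0 < c → 0 < d → x ∈ uIcc c d → 0 < x := by
    intro c d x hc hd hx
    rcases le_total c d with h | h
    · rw [uIcc_of_le h] at hx; linarith [hx.1]
    · rw [uIcc_of_ge h] at hx; linarith [hx.1]
  have hint : ∀ {c d : ℝ}, 0 < c → 0 < d → IntervalIntegrable (fun m : ℝ => m⁻¹ • J m u)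
      volume c d := by
    intro c d hc hd
    refine ContinuousOn.intervalIntegrable ?_
    refine (continuousOn_inv₀.mono fun x hx => (hpos hc hd hx).ne').smul ?_
    exact (h.cont u).mono fun x hx => hpos hc hd hx
  have hW : ∀ {c : ℝ}, 0 < c → WW J u c s = ∫ m in c..(s * c), m⁻¹ • J m u := by
    intro c hc
    have h1 := intervalIntegral.smul_integral_comp_mul_left (a := 1) (b := s)
      (fun m : ℝ => m⁻¹ • J m u) c
    rw [mul_one, mul_comm c s] at h1
    rw [← h1]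
    unfold WW
    rw [← intervalIntegral.integral_smul]
    refine intervalIntegral.integral_congr fun x hx => ?_
    have hx0 := pos_of_mem_uIcc hs hx
    simp only [smul_smul]
    congr 1
    field_simp
  have h1 : ∀ μ ∈ uIcc a b, FF J f (μ, s)
      = (s ^ 2 - 1)⁻¹ • (μ⁻¹ • J μ u - s • ((s * μ)⁻¹ • J (s * μ) u)) := by
    intro μ hμ
    have hμ0 := hpos ha hb hμ
    have h2 := h.res μ (s * μ) hμ0 (mul_pos hs hμ0)
    have h3 : J μ u - J (s * μ) u = ((s ^ 2 - 1) * μ ^ 2) • J μ (J (s * μ) f) := by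
      rw [← neg_sub, ← h2, ← neg_smul]
      congr 1
      ring
    have h4 : μ⁻¹ • J μ u - s • ((s * μ)⁻¹ • J (s * μ) u) = μ⁻¹ • (J μ u - J (s * μ) u) := by
      rw [smul_sub, smul_smul]
      congr 2
      field_simp
    rw [h4, h3, smul_smul, smul_smul]
    unfold FF
    rw [mul_comm μ s]
    congr 1
    field_simp
  rw [intervalIntegral.integral_congr h1, intervalIntegral.integral_smul,
    intervalIntegral.integral_sub (hint ha hb), intervalIntegral.integral_smul,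
    intervalIntegral.smul_integral_comp_mul_left (fun m : ℝ => m⁻¹ • J m u) s,
    intervalIntegral.integral_interval_sub_interval_comm (hint ha hb)
      (hint (mul_pos hs ha) (mul_pos hs hb)) (hint ha (mul_pos hs ha)), hW ha, hW hb]
  have h5 : ContinuousOn (fun μ : ℝ => s • ((s * μ)⁻¹ • J (s * μ) u)) (uIcc a b) := by
    refine continuousOn_const.smul ?_
    refine ContinuousOn.smul ?_ ?_
    · refine ContinuousOn.inv₀ (continuousOn_const.mul continuousOn_id) fun x hx => ?_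
      exact (mul_pos hs (hpos ha hb hx)).ne'
    · exact h.cont_comp (continuousOn_const.mul continuousOn_id)
        (fun x hx => mul_pos hs (hpos ha hb hx)) continuousOn_const
  exact h5.intervalIntegrable

theorem Fam.swap (h : Fam J u f) {a b : ℝ} (ha : 0 < a) (hab : a ≤ b) :
    ∫ μ in a..b, J μ (∫ l in Ioi (0 : ℝ), J l f)
      = ∫ s in Ioi (0 : ℝ), ∫ μ in a..b, FF J f (μ, s) := by
  have h1 := h.integrable_FF ha hab
  have h2 : ∀ μ ∈ uIcc a b, J μ (∫ l in Ioi (0 : ℝ), J l f)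
      = ∫ s in Ioi (0 : ℝ), FF J f (μ, s) := by
    intro μ hμ
    rw [uIcc_of_le hab] at hμ
    have hμ0 : 0 < μ := ha.trans_le hμ.1
    rw [← ContinuousLinearMap.integral_comp_comm _ h.integrableOn]
    have h3 := integral_comp_mul_left_Ioi' (fun l => J μ (J l f)) 0 hμ0
    rw [mul_zero] at h3
    rw [← h3, ← integral_smul]
    rfl
  rw [intervalIntegral.integral_congr h2]
  simp only [intervalIntegral.integral_of_le hab]
  exact integral_integral_swap (f := fun μ s => FF J f (μ, s)) h1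

theorem Fam.main (h : Fam J u f) :
    Tendsto (fun p : ℝ × ℝ => ∫ μ in p.1..p.2, J μ (∫ l in Ioi (0 : ℝ), J l f))
      (𝓝[>] 0 ×ˢ atTop) (𝓝 (kap • u)) := by
  have hev : ∀ᶠ p : ℝ × ℝ in 𝓝[>] (0 : ℝ) ×ˢ atTop, 0 < p.1 ∧ p.1 ≤ p.2 := by
    have h1 : ∀ᶠ a : ℝ in 𝓝[>] (0 : ℝ), a ∈ Ioo (0 : ℝ) 1 := Ioo_mem_nhdsGT one_pos
    have h2 : ∀ᶠ b : ℝ in atTop, (1 : ℝ) ≤ b := eventually_ge_atTop 1
    filter_upwards [h1.prod_mk h2] with p hp
    exact ⟨hp.1.1, hp.1.2.le.trans hp.2⟩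
  have h3 : Tendsto (fun p : ℝ × ℝ => ∫ s in Ioi (0 : ℝ), ∫ μ in p.1..p.2, FF J f (μ, s))
      (𝓝[>] 0 ×ˢ atTop) (𝓝 (∫ s in Ioi (0 : ℝ), (Real.log s * (s ^ 2 - 1)⁻¹) • u)) := by
    refine tendsto_integral_filter_of_dominated_convergence
      (fun s : ℝ => s ^ (-(1 / 2) : ℝ) / (s + 1) * (2 * ‖u‖)) ?_ ?_
      (integrableOn_aux.mul_const _) ?_
    · filter_upwards [hev] with p hp
      have h4 := (h.integrable_FF hp.1 hp.2).integral_prod_right.aestronglyMeasurable
      simpa only [intervalIntegral.integral_of_le hp.2] using h4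
    · filter_upwards [hev] with p hp
      have hne : ∀ᵐ s ∂(volume.restrict (Ioi (0 : ℝ))), s ≠ 1 :=
        ae_restrict_of_ae (Measure.ae_ne volume 1)
      filter_upwards [hne, ae_restrict_mem measurableSet_Ioi] with s hs1 hs
      have hs : 0 < s := hs
      rw [h.inner_eq hp.1 hp.2 hs hs1, norm_smul, Real.norm_eq_abs]
      have h5 : ‖WW J u p.1 s - WW J u p.2 s‖ ≤ |Real.log s| * (2 * ‖u‖) := by
        refine (norm_sub_le _ _).trans ?_
        linarith [h.norm_WW_le hp.1 hs, h.norm_WW_le (hp.1.trans_le hp.2) hs]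
      calc |(s ^ 2 - 1)⁻¹| * ‖WW J u p.1 s - WW J u p.2 s‖
          ≤ |(s ^ 2 - 1)⁻¹| * (|Real.log s| * (2 * ‖u‖)) :=
            mul_le_mul_of_nonneg_left h5 (abs_nonneg _)
        _ = |(s ^ 2 - 1)⁻¹| * |Real.log s| * (2 * ‖u‖) := by ring
        _ ≤ _ := mul_le_mul_of_nonneg_right (abs_logdiv_le hs) (by positivity)
    · have hne : ∀ᵐ s ∂(volume.restrict (Ioi (0 : ℝ))), s ≠ 1 :=
        ae_restrict_of_ae (Measure.ae_ne volume 1)
      filter_upwards [hne, ae_restrict_mem measurableSet_Ioi] with s hs1 hs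
      have hs : 0 < s := hs
      have h6 : Tendsto (fun c => WW J u c s) (𝓝[>] 0) (𝓝 (Real.log s • u)) := by
        refine h.tendsto_WW hs self_mem_nhdsWithin (fun x hx => ?_) h.zero
        refine tendsto_nhdsWithin_iff.2 ⟨?_, ?_⟩
        · have : Tendsto (fun c : ℝ => c * x) (𝓝 0) (𝓝 (0 * x)) :=
            tendsto_id.mul_const x
          rw [zero_mul] at this
          exact this.mono_left nhdsWithin_le_nhds
        · filter_upwards [self_mem_nhdsWithin] with c hc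
          exact mul_pos hc hx
      have h7 : Tendsto (fun c => WW J u c s) atTop (𝓝 (Real.log s • (0 : E))) := by
        refine h.tendsto_WW hs (eventually_gt_atTop 0) (fun x hx => ?_) h.inf
        exact tendsto_id.atTop_mul_const hx
      have h8 : Tendsto (fun p : ℝ × ℝ => (s ^ 2 - 1)⁻¹ • (WW J u p.1 s - WW J u p.2 s))
          (𝓝[>] 0 ×ˢ atTop) (𝓝 ((s ^ 2 - 1)⁻¹ • (Real.log s • u - Real.log s • (0 : E)))) :=
        tendsto_const_nhds.smul ((h6.comp tendsto_fst).sub (h7.comp tendsto_snd))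
      rw [smul_zero, sub_zero, smul_smul, mul_comm] at h8
      refine h8.congr' ?_
      filter_upwards [hev] with p hp
      rw [h.inner_eq hp.1 hp.2 hs hs1]
  rw [integral_smul_const] at h3
  refine h3.congr' ?_
  filter_upwards [hev] with p hp
  rw [h.swap hp.1 hp.2]

/-- the scalar model -/
theorem fam_scalar : Fam (E := ℝ) (fun l => (1 + l ^ 2)⁻¹ • ContinuousLinearMap.id ℝ ℝ) 1 1 := by
  refine ⟨?_, ?_, ?_, ?_, ?_, ?_⟩
  · intro l hl x
    simp only [_root_.smul_apply, ContinuousLinearMap.id_apply, norm_smul, norm_inv]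
    refine mul_le_of_le_one_left (norm_nonneg _) ?_
    rw [Real.norm_of_nonneg (by positivity)]
    exact inv_le_one_of_one_le₀ (by nlinarith [sq_nonneg l])
  · intro x
    simp only [_root_.smul_apply, ContinuousLinearMap.id_apply, smul_eq_mul]
    refine Continuous.continuousOn ?_
    refine Continuous.mul (Continuous.inv₀ (by fun_prop) fun l => by positivity) continuous_const
  · intro l hl
    simp only [_root_.smul_apply, ContinuousLinearMap.id_apply, smul_eq_mul]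
    field_simp
    ring
  · intro l μ hl hμ
    simp only [_root_.smul_apply, ContinuousLinearMap.id_apply, smul_eq_mul]
    field_simp
    ring
  · simp only [_root_.smul_apply, ContinuousLinearMap.id_apply, smul_eq_mul, mul_one]
    have : Continuous fun l : ℝ => (1 + l ^ 2)⁻¹ :=
      Continuous.inv₀ (by fun_prop) fun l => by positivity
    have h := this.tendsto 0
    simp only [ne_eq, OfNat.ofNat_ne_zero, not_false_eq_true, zero_pow, add_zero, inv_one] at h
    exact h.mono_left nhdsWithin_le_nhds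
  · simp only [_root_.smul_apply, ContinuousLinearMap.id_apply, smul_eq_mul, mul_one]
    refine tendsto_inv_atTop_zero.comp ?_
    exact tendsto_atTop_add_const_left _ _ (tendsto_pow_atTop two_ne_zero)

theorem kap_eq : kap = Real.pi / 2 * (Real.pi / 2) := by
  have h := fam_scalar.main
  simp only [_root_.smul_apply, ContinuousLinearMap.id_apply, smul_eq_mul, mul_one]
    at h
  rw [integral_Ioi_inv_one_add_sq, Real.arctan_zero, sub_zero] at h
  have h2 : Tendsto (fun p : ℝ × ℝ => ∫ μ in p.1..p.2, (1 + μ ^ 2)⁻¹ * (Real.pi / 2))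
      (𝓝[>] 0 ×ˢ atTop) (𝓝 (Real.pi / 2 * (Real.pi / 2))) := by
    simp only [intervalIntegral.integral_mul_const, integral_inv_one_add_sq]
    refine Tendsto.mul_const _ ?_
    have h3 : Tendsto Real.arctan (𝓝[>] 0) (𝓝 0) := by
      have := Real.continuous_arctan.tendsto 0
      rw [Real.arctan_zero] at this
      exact this.mono_left nhdsWithin_le_nhds
    have h4 : Tendsto Real.arctan atTop (𝓝 (Real.pi / 2)) :=
      Real.tendsto_arctan_atTop.mono_right nhdsWithin_le_nhds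
    have h5 := (h4.comp (tendsto_snd (f := 𝓝[>] (0:ℝ)))).sub (h3.comp (tendsto_fst (g := (atTop : Filter ℝ))))
    rw [sub_zero] at h5
    exact h5
  exact tendsto_nhds_unique h h2

end

end Pool.Agent.W_eb6199
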