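import Pool.Agent.W_eb6199.RLimit
import Pool.Agent.W_eb6199.SqrtIdAbs

open MeasureTheory Complex Filter Topology
open scoped FourierTransform ComplexInnerProductSpace ENNReal NNReal

namespace Pool.Agent.W_eb6199

noncomputable section

variable {n : ℕ}

/-! T42: `R j (H^{1/2} u) = D j u`, where `H^{1/2} u = (2/π) ∫_0^∞ (1+l²H)^{-1} H u dl`
(Balakrishnan's formula for `u ∈ D(H)`). -/

theorem sq_real_smul_L2 (r : ℝ) (x : L2 n) : r • x = (r : ℂ) • x := by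
  ext1
  filter_upwards [Lp.coeFn_smul r x, Lp.coeFn_smul (r : ℂ) x] with z h1 h2
  rw [h1, h2, Pi.smul_apply, Pi.smul_apply, Complex.coe_smul]

theorem sq_smul_J_of_InDom (A : Coef n) {l : ℝ} (hl : 0 < l) {u f : L2 n} (h : InDom A u f) :
    (l : ℂ) ^ 2 • J A l f = u - J A l u := by
  have hl' : (l : ℂ) ^ 2 ≠ 0 := pow_ne_zero _ (by exact_mod_cast hl.ne')
  rw [J_of_InDom A hl h, smul_smul, mul_inv_cancel₀ hl', one_smul]

theorem bound_J_InDom (A : Coef n) {l : ℝ} (hl : 0 < l) {u f : L2 n} (h : InDom A u f) :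
    ‖J A l f‖ ≤ (‖f‖ + 2 * ‖u‖) * (1 + l ^ 2)⁻¹ := by
  have h1 := norm_J_le A hl f
  have h2 : l ^ 2 * ‖J A l f‖ ≤ 2 * ‖u‖ := by
    calc l ^ 2 * ‖J A l f‖ = ‖(l : ℂ) ^ 2 • J A l f‖ := by
          rw [norm_smul, norm_pow, Complex.norm_real, Real.norm_of_nonneg hl.le]
      _ = ‖u - J A l u‖ := by rw [sq_smul_J_of_InDom A hl h]
      _ ≤ ‖u‖ + ‖J A l u‖ := norm_sub_le _ _
      _ ≤ 2 * ‖u‖ := by linarith [norm_J_le A hl u]
  rw [← div_eq_mul_inv, le_div_iff₀ (by positivity)]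
  linarith

theorem continuousOn_J (A : Coef n) (f : L2 n) :
    ContinuousOn (fun l : ℝ => J A l f) (Set.Ioi 0) := by
  simpa only [pow_one] using continuousOn_Jpow A 1 f

theorem integrableOn_J_InDom (A : Coef n) {u f : L2 n} (h : InDom A u f) :
    IntegrableOn (fun l : ℝ => J A l f) (Set.Ioi 0) := by
  have h1 : IntegrableOn (fun l : ℝ => (‖f‖ + 2 * ‖u‖) * (1 + l ^ 2)⁻¹) (Set.Ioi 0) :=
    (integrable_inv_one_add_sq.const_mul _).integrableOn
  refine h1.mono' ((continuousOn_J A f).aestronglyMeasurable measurableSet_Ioi) ?_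
  exact (ae_restrict_iff' measurableSet_Ioi).2
    (Eventually.of_forall fun s hs => bound_J_InDom A hs h)

theorem fam_J (hn : 0 < n) (A : Coef n) {u f : L2 n} (h : InDom A u f) :
    Fam (fun l => (J A l).restrictScalars ℝ) u f := by
  refine ⟨?_, ?_, ?_, ?_, ?_, ?_⟩
  · intro l hl x
    exact norm_J_le A hl x
  · intro x
    exact continuousOn_J A x
  · intro l hl
    have h2 := sq_smul_J_of_InDom A hl h
    rw [← Complex.ofReal_pow, ← sq_real_smul_L2] at h2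
    exact h2
  · intro l μ hl hμ
    have h1 := J_J A hl hμ f
    rw [sq_smul_J_of_InDom A hl h, sq_smul_J_of_InDom A hμ h] at h1
    have h2 : ((l ^ 2 - μ ^ 2 : ℝ) : ℂ) • J A l (J A μ f) = J A μ u - J A l u := by
      rw [Complex.ofReal_sub, Complex.ofReal_pow, Complex.ofReal_pow, h1]
      abel
    rw [← sq_real_smul_L2] at h2
    exact h2
  · exact tendsto_J_zero A u
  · exact tendsto_J_atTop hn A u

theorem R_sqrt (hn : 0 < n) (A : Coef n) {R : Fin (n + 1) → L2 n →L[ℂ] L2 n}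
    (hR : ∀ j f, Tendsto (fun p : ℝ × ℝ => D j (((2 / Real.pi : ℝ) : ℂ) • ∫ l in p.1..p.2, J A l f))
      (𝓝[>] 0 ×ˢ atTop) (𝓝 (R j f))) {u f : L2 n} (h : InDom A u f) (j : Fin (n + 1)) :
    R j (((2 / Real.pi : ℝ) : ℂ) • ∫ l in Set.Ioi (0 : ℝ), J A l f) = D j u := by
  set g : L2 n := ((2 / Real.pi : ℝ) : ℂ) • ∫ l in Set.Ioi (0 : ℝ), J A l f with hg
  have hmain := (fam_J hn A h).main
  simp only [ContinuousLinearMap.coe_restrictScalars'] at hmain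
  have hev : ∀ᶠ p : ℝ × ℝ in 𝓝[>] (0 : ℝ) ×ˢ atTop, 0 < p.1 ∧ p.1 ≤ p.2 := by
    have h1 : ∀ᶠ a : ℝ in 𝓝[>] (0 : ℝ), a ∈ Set.Ioo (0 : ℝ) 1 := Ioo_mem_nhdsGT one_pos
    have h2 : ∀ᶠ b : ℝ in atTop, (1 : ℝ) ≤ b := eventually_ge_atTop 1
    filter_upwards [h1.prod_mk h2] with p hp
    exact ⟨hp.1.1, hp.1.2.le.trans hp.2⟩
  have hlim : Tendsto (fun p : ℝ × ℝ => ((2 / Real.pi : ℝ) : ℂ) • ∫ l in p.1..p.2, J A l g)
      (𝓝[>] 0 ×ˢ atTop) (𝓝 u) := by
    have h1 : Tendsto (fun p : ℝ × ℝ => ((2 / Real.pi : ℝ) : ℂ) • ((2 / Real.pi : ℝ) : ℂ) •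
        ∫ l in p.1..p.2, J A l (∫ l in Set.Ioi (0 : ℝ), J A l f))
        (𝓝[>] 0 ×ˢ atTop)
        (𝓝 (((2 / Real.pi : ℝ) : ℂ) • ((2 / Real.pi : ℝ) : ℂ) • (kap • u))) :=
      (hmain.const_smul _).const_smul _
    have h2 : ((2 / Real.pi : ℝ) : ℂ) • ((2 / Real.pi : ℝ) : ℂ) • (kap • u) = u := by
      rw [sq_real_smul_L2, smul_smul, smul_smul, kap_eq]
      have : ((2 / Real.pi : ℝ) : ℂ) * ((2 / Real.pi : ℝ) : ℂ)
          * ((Real.pi / 2 * (Real.pi / 2) : ℝ) : ℂ) = 1 := by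
        rw [← Complex.ofReal_mul, ← Complex.ofReal_mul]
        norm_cast
        have := Real.pi_ne_zero
        field_simp
      rw [this, one_smul]
    rw [h2] at h1
    refine h1.congr fun p => ?_
    rw [hg]
    simp only [map_smul]
    rw [intervalIntegral.integral_smul]
  have h3 := En_of_tendsto (u := fun p : ℝ × ℝ =>
    ((2 / Real.pi : ℝ) : ℂ) • ∫ l in p.1..p.2, J A l g) (w := fun j => R j g)
    (l := 𝓝[>] (0 : ℝ) ×ˢ (atTop : Filter ℝ)) (v := u) ?_ hlim (fun j => hR j g)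
  · exact (h3.2 j).symm
  · filter_upwards [hev] with p hp
    refine En_smul _ ?_
    have := (integral_J_mem A hp.1 hp.2 1 one_ne_zero g).1
    simpa only [pow_one] using this

end

end Pool.Agent.W_eb6199
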