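import Pool.Agent.W_eb6199.Statement
import Pool.Agent.W_eb6199.FinalAux
import Pool.Agent.W_eb6199.SqrtId

open MeasureTheory Complex Filter Topology
open scoped FourierTransform ComplexInnerProductSpace ENNReal NNReal

namespace Pool.Agent.W_eb6199

noncomputable section

variable {n : ℕ}

/-! Final assembly: from `Coef` to the formulation in `Statement`. -/

theorem exists_coef {a : Fin n → Fin n → ST n → ℝ} (ha : IsCoeff a) :
    ∃ A : Coef n, A.sg = 1 ∧ ∀ᵐ z ∂(volume : Measure (ST n)), ∀ i j, A.a i j z = a i j z := by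
  classical
  obtain ⟨M, ν, hM, hν, hae⟩ := ha.bounds
  set P : ST n → Prop := fun z => (∀ ξ ζ : EuclideanSpace ℂ (Fin n),
      ‖∑ i, (∑ j, (a i j z : ℂ) * ξ j) * ζ i‖ ≤ M * ‖ξ‖ * ‖ζ‖) ∧
    (∀ ξ : EuclideanSpace ℂ (Fin n),
      ν * ‖ξ‖ ^ 2 ≤ (∑ i, (∑ j, (a i j z : ℂ) * ξ j) * (starRingEnd ℂ) (ξ i)).re) with hP
  have hnull : volume {z | ¬ P z} = 0 := hae
  set G : Set (ST n) := (toMeasurable volume {z | ¬ P z})ᶜ with hG
  have hGm : MeasurableSet G := (measurableSet_toMeasurable _ _).compl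
  have hGP : ∀ z ∈ G, P z := by
    intro z hz
    by_contra hcon
    exact hz (subset_toMeasurable _ _ hcon)
  have hGae : ∀ᵐ z ∂(volume : Measure (ST n)), z ∈ G := by
    rw [ae_iff]
    have : {z | z ∉ G} = toMeasurable volume {z | ¬ P z} := by
      ext z
      simp [hG]
    rw [this, measure_toMeasurable, hnull]
  refine ⟨{ a := fun i j z => if z ∈ G then a i j z else if i = j then 1 else 0
            meas := fun i j => Measurable.ite hGm (ha.meas i j) measurable_const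
            M := max M 1
            one_le_M := le_max_right _ _
            bd := ?_
            ν := min ν 1
            ν_pos := lt_min hν one_pos
            ell := ?_
            sg := 1
            sg_eq := Or.inl rfl }, rfl, ?_⟩
  · intro i j z
    by_cases hz : z ∈ G
    · simp only [if_pos hz]
      have h1 := (hGP z hz).1 (EuclideanSpace.single j 1) (EuclideanSpace.single i 1)
      have h2 : ∑ i', (∑ j', (a i' j' z : ℂ) * (EuclideanSpace.single j (1 : ℂ)) j')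
          * (EuclideanSpace.single i (1 : ℂ)) i' = (a i j z : ℂ) := by
        simp
      rw [h2, Complex.norm_real, Real.norm_eq_abs] at h1
      simp only [PiLp.norm_single, norm_one, mul_one] at h1
      exact h1.trans (le_max_left _ _)
    · simp only [if_neg hz]
      split_ifs
      · simp
      · simp
  · intro z ξ
    by_cases hz : z ∈ G
    · simp only [if_pos hz]
      have h1 := (hGP z hz).2 (WithLp.toLp 2 fun i => (ξ i : ℂ))
      have h2 : ‖(WithLp.toLp 2 fun i => (ξ i : ℂ) : EuclideanSpace ℂ (Fin n))‖ ^ 2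
          = ∑ i, ξ i ^ 2 := by
        rw [EuclideanSpace.norm_sq_eq]
        refine Finset.sum_congr rfl fun i _ => ?_
        simp
      have h3 : (∑ i, (∑ j, (a i j z : ℂ) * (WithLp.toLp 2 fun i => (ξ i : ℂ) :
          EuclideanSpace ℂ (Fin n)) j) * (starRingEnd ℂ) ((WithLp.toLp 2 fun i => (ξ i : ℂ) :
          EuclideanSpace ℂ (Fin n)) i)).re = ∑ i, ∑ j, a i j z * ξ j * ξ i := by
        rw [Complex.re_sum]
        refine Finset.sum_congr rfl fun i _ => ?_
        simp only [Complex.conj_ofReal]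
        rw [Finset.sum_mul, Complex.re_sum]
        refine Finset.sum_congr rfl fun j _ => ?_
        norm_cast
      rw [h2, h3] at h1
      refine le_trans ?_ h1
      have h4 : 0 ≤ ∑ i, ξ i ^ 2 := Finset.sum_nonneg fun _ _ => sq_nonneg _
      exact mul_le_mul_of_nonneg_right (min_le_left _ _) h4
    · simp only [if_neg hz]
      have h4 : 0 ≤ ∑ i, ξ i ^ 2 := Finset.sum_nonneg fun _ _ => sq_nonneg _
      calc min ν 1 * ∑ i, ξ i ^ 2 ≤ 1 * ∑ i, ξ i ^ 2 :=
            mul_le_mul_of_nonneg_right (min_le_right _ _) h4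
        _ = _ := by
            rw [one_mul]
            refine Finset.sum_congr rfl fun i _ => ?_
            rw [Finset.sum_eq_single i]
            · simp [sq]
            · intro j _ hj
              simp [hj.symm]
            · simp
  · filter_upwards [hGae] with z hz i j
    simp only [if_pos hz]

theorem inner_eq_integral (f v : L2 n) :
    (⟪v, f⟫ : ℂ) = ∫ z, f z * (starRingEnd ℂ) (v z) := by
  rw [L2.inner_def]
  refine integral_congr_ae (Filter.Eventually.of_forall fun z => ?_)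
  simp only [RCLike.inner_apply]

theorem integrable_mul_conj (f v : L2 n) :
    Integrable (fun z => f z * (starRingEnd ℂ) (v z)) (volume : Measure (ST n)) := by
  have h := L2.integrable_inner (𝕜 := ℂ) v f
  simpa only [RCLike.inner_apply] using h

theorem app_coe (A : Coef n) (F : Fin n → L2 n) (i : Fin n) :
    (A.app F i : ST n → ℂ) =ᵐ[volume] fun z => ∑ j, (A.a i j z : ℂ) * F j z := by
  have h1 : (A.app F i : ST n → ℂ) =ᵐ[volume] fun z => ∑ j, (A.mul i j (F j) : L2 n) z := by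
    unfold Coef.app
    have h := Lp.coeFn_fun_finsetSum (Finset.univ : Finset (Fin n)) fun j => A.mul i j (F j)
    exact h
  have h2 : ∀ᵐ z ∂(volume : Measure (ST n)), ∀ j, (A.mul i j (F j) : L2 n) z
      = (A.a i j z : ℂ) * F j z := by
    rw [ae_all_iff]
    intro j
    exact mulOp_coe (A.bm i j) (F j)
  filter_upwards [h1, h2] with z hz1 hz2
  rw [hz1]
  exact Finset.sum_congr rfl fun j _ => hz2 j

theorem formH_eq {a : Fin n → Fin n → ST n → ℝ} {A : Coef n} (hs : A.sg = 1)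
    (hA : ∀ᵐ z ∂(volume : Measure (ST n)), ∀ i j, A.a i j z = a i j z) (u v : L2 n) :
    formH a u v = form A u v := by
  unfold formH form
  rw [hs, Complex.ofReal_one, one_mul, inner_eq_integral]
  have h1 : ∀ i : Fin n, (⟪D i.succ v, A.app (fun j => D j.succ u) i⟫ : ℂ)
      = ∫ z, (A.app (fun j => D j.succ u) i : L2 n) z * (starRingEnd ℂ) ((D i.succ v) z) :=
    fun i => inner_eq_integral _ _
  simp_rw [h1]
  rw [← integral_finsetSum _ fun i _ => integrable_mul_conj _ _,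
    ← integral_add (integrable_mul_conj _ _)
      (integrable_finsetSum _ fun i _ => integrable_mul_conj _ _)]
  have h2 : ∀ᵐ z ∂(volume : Measure (ST n)), ∀ i : Fin n,
      (A.app (fun j => D j.succ u) i : L2 n) z = ∑ j, (A.a i j z : ℂ) * (D j.succ u : L2 n) z := by
    rw [ae_all_iff]
    intro i
    exact app_coe A _ i
  refine integral_congr_ae ?_
  filter_upwards [hA, h2] with z hz1 hz2
  congr 1
  refine Finset.sum_congr rfl fun i _ => ?_
  rw [hz2 i]
  congr 1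
  refine Finset.sum_congr rfl fun j _ => ?_
  rw [hz1 i j]

theorem isH_iff {a : Fin n → Fin n → ST n → ℝ} {A : Coef n} (hs : A.sg = 1)
    (hA : ∀ᵐ z ∂(volume : Measure (ST n)), ∀ i j, A.a i j z = a i j z) (u f : L2 n) :
    IsH a u f ↔ InDom A u f := by
  unfold IsH InDom
  refine and_congr_right fun _ => forall_congr' fun v => imp_congr_right fun _ => ?_
  rw [formH_eq hs hA, inner_eq_integral]

theorem eq_J_of_InDom (A : Coef n) {l : ℝ} (hl : 0 < l) {u f : L2 n}
    (h : InDom A u (((l : ℂ) ^ 2)⁻¹ • (f - u))) : u = J A l f := by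
  have hl' : ((l : ℂ) ^ 2) ≠ 0 := by exact_mod_cast pow_ne_zero 2 hl.ne'
  have h1 := J_of_InDom A hl h
  have h2 : J A l (((l : ℂ) ^ 2)⁻¹ • (f - u)) = ((l : ℂ) ^ 2)⁻¹ • (J A l f - J A l u) :=
    (map_smul (J A l) _ _).trans (congrArg _ (map_sub (J A l) _ _))
  have h3 : ((l : ℂ) ^ 2)⁻¹ • (J A l f - J A l u) = ((l : ℂ) ^ 2)⁻¹ • (u - J A l u) :=
    h2.symm.trans h1
  have h4 : J A l f - J A l u = u - J A l u := by
    have := congrArg (fun x : L2 n => ((l : ℂ) ^ 2) • x) h3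
    simpa only [smul_smul, mul_inv_cancel₀ hl', one_smul] using this
  exact (sub_left_injective h4).symm

theorem resH_eq {a : Fin n → Fin n → ST n → ℝ} {A : Coef n} (hs : A.sg = 1)
    (hA : ∀ᵐ z ∂(volume : Measure (ST n)), ∀ i j, A.a i j z = a i j z) {l : ℝ} (hl : 0 < l)
    (f : L2 n) : resH a l f = J A l f := by
  have hex : ∃ u : L2 n, IsH a u (((l : ℂ) ^ 2)⁻¹ • (f - u)) :=
    ⟨J A l f, (isH_iff hs hA _ _).2 (InDom_J A hl f)⟩
  unfold resH
  rw [dif_pos hex]
  exact eq_J_of_InDom A hl ((isH_iff hs hA _ _).1 hex.choose_spec)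

theorem isMAccretive_of {a : Fin n → Fin n → ST n → ℝ} {A : Coef n} (hs : A.sg = 1)
    (hA : ∀ᵐ z ∂(volume : Measure (ST n)), ∀ i j, A.a i j z = a i j z) : IsMAccretive a := by
  refine ⟨?_, ?_⟩
  · intro u f hf
    have h1 := hf.2 u hf.1
    rw [← h1, formH_eq hs hA]
    exact (mul_nonneg A.ν_pos.le (gD_nonneg u)).trans (re_form_self A hf.1)
  · intro l hl f
    refine ⟨J A l f, (isH_iff hs hA _ _).2 (InDom_J A hl f), ?_⟩
    intro u hu
    exact eq_J_of_InDom A hl ((isH_iff hs hA _ _).1 hu)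

theorem isSqrtH_iff {a : Fin n → Fin n → ST n → ℝ} {A : Coef n} (hs : A.sg = 1)
    (hA : ∀ᵐ z ∂(volume : Measure (ST n)), ∀ i j, A.a i j z = a i j z) (u g : L2 n) :
    IsSqrtH a u g ↔ ∃ f, InDom A u f ∧
      g = ((2 / Real.pi : ℝ) : ℂ) • ∫ l in Set.Ioi (0 : ℝ), J A l f := by
  have hint : ∀ f : L2 n, ∫ l in Set.Ioi (0 : ℝ), resH a l f = ∫ l in Set.Ioi (0 : ℝ), J A l f :=
    fun f => setIntegral_congr_fun measurableSet_Ioi fun l hl => resH_eq hs hA hl f
  constructor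
  · rintro ⟨f, h1, -, h3⟩
    exact ⟨f, (isH_iff hs hA _ _).1 h1, h3.trans (by rw [hint f])⟩
  · rintro ⟨f, h1, h3⟩
    refine ⟨f, (isH_iff hs hA _ _).2 h1, ?_, h3.trans (by rw [hint f])⟩
    refine (integrableOn_J_InDom A h1).congr_fun ?_ measurableSet_Ioi
    intro l hl
    exact (resH_eq hs hA hl f).symm

theorem InDom_J_comm (A : Coef n) {μ : ℝ} (hμ : 0 < μ) {u f : L2 n} (h : InDom A u f) :
    InDom A (J A μ u) (J A μ f) := by
  rw [J_of_InDom A hμ h]
  exact InDom_J A hμ u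

theorem tendsto_T_sqrt (hn : 0 < n) (A : Coef n) {u f : L2 n} (h : InDom A u f) :
    Tendsto (fun p : ℝ × ℝ => ((2 / Real.pi : ℝ) : ℂ) • ∫ l in p.1..p.2,
      J A l (((2 / Real.pi : ℝ) : ℂ) • ∫ l in Set.Ioi (0 : ℝ), J A l f))
      (𝓝[>] 0 ×ˢ atTop) (𝓝 u) := by
  have hmain := (fam_J hn A h).main
  simp only [ContinuousLinearMap.coe_restrictScalars'] at hmain
  have h1 : Tendsto (fun p : ℝ × ℝ => ((2 / Real.pi : ℝ) : ℂ) • ((2 / Real.pi : ℝ) : ℂ) •
      ∫ l in p.1..p.2, J A l (∫ l in Set.Ioi (0 : ℝ), J A l f))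
      (𝓝[>] 0 ×ˢ atTop)
      (𝓝 (((2 / Real.pi : ℝ) : ℂ) • ((2 / Real.pi : ℝ) : ℂ) • (kap • u))) :=
    (hmain.const_smul _).const_smul _
  have h2 : ((2 / Real.pi : ℝ) : ℂ) • ((2 / Real.pi : ℝ) : ℂ) • (kap • u) = u := by
    rw [sq_real_smul_L2, smul_smul, smul_smul, kap_eq]
    have : ((2 / Real.pi : ℝ) : ℂ) * ((2 / Real.pi : ℝ) : ℂ)
        * ((Real.pi / 2 * (Real.pi / 2) : ℝ) : ℂ) = 1 := by
      rw [← Complex.ofReal_mul, ← Complex.ofReal_mul]
      norm_cast
      have := Real.pi_ne_zero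
      field_simp
    rw [this, one_smul]
  rw [h2] at h1
  refine h1.congr fun p => ?_
  simp only [map_smul]
  rw [intervalIntegral.integral_smul]

/-- the range of `H^{1/2}` on `D(H)` is dense -/
theorem eq_zero_of_orth_sqrt (hn : 0 < n) (A : Coef n) {y : L2 n}
    (h : ∀ u f, InDom A u f →
      (⟪y, ((2 / Real.pi : ℝ) : ℂ) • ∫ l in Set.Ioi (0 : ℝ), J A l f⟫ : ℂ) = 0) : y = 0 := by
  have h0 : ∀ u f, InDom A u f → (⟪y, ∫ l in Set.Ioi (0 : ℝ), J A l f⟫ : ℂ) = 0 := by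
    intro u f hu
    have h1 := h u f hu
    rw [inner_smul_right] at h1
    have hpi : ((2 / Real.pi : ℝ) : ℂ) ≠ 0 := by
      exact_mod_cast (div_pos two_pos Real.pi_pos).ne'
    exact (mul_eq_zero.1 h1).resolve_left hpi
  have hstep : ∀ u f, InDom A u f → ∀ μ : ℝ, 0 < μ →
      (⟪y, J A μ (∫ l in Set.Ioi (0 : ℝ), J A l f)⟫ : ℂ) = 0 := by
    intro u f hu μ hμ
    have h1 := h0 _ _ (InDom_J_comm A hμ hu)
    have h2 : J A μ (∫ l in Set.Ioi (0 : ℝ), J A l f)
        = ∫ l in Set.Ioi (0 : ℝ), J A l (J A μ f) := by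
      have h3 := ContinuousLinearMap.integral_comp_comm (J A μ) (integrableOn_J_InDom A hu)
      rw [← h3]
      refine setIntegral_congr_fun measurableSet_Ioi fun l hl => ?_
      exact J_comm A hμ hl f
    rw [h2]
    exact h1
  have hall : ∀ u f, InDom A u f → (⟪y, u⟫ : ℂ) = 0 := by
    intro u f hu
    have hlim := tendsto_T_sqrt hn A hu
    have hlim2 : Tendsto (fun p : ℝ × ℝ => (⟪y, ((2 / Real.pi : ℝ) : ℂ) • ∫ l in p.1..p.2,
        J A l (((2 / Real.pi : ℝ) : ℂ) • ∫ l in Set.Ioi (0 : ℝ), J A l f)⟫ : ℂ))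
        (𝓝[>] 0 ×ˢ atTop) (𝓝 ⟪y, u⟫) :=
      ((innerSL ℂ y).continuous.tendsto u).comp hlim
    have hzero : ∀ᶠ p : ℝ × ℝ in 𝓝[>] (0 : ℝ) ×ˢ atTop,
        (⟪y, ((2 / Real.pi : ℝ) : ℂ) • ∫ l in p.1..p.2,
        J A l (((2 / Real.pi : ℝ) : ℂ) • ∫ l in Set.Ioi (0 : ℝ), J A l f)⟫ : ℂ) = 0 := by
      have h1 : ∀ᶠ a : ℝ in 𝓝[>] (0 : ℝ), a ∈ Set.Ioo (0 : ℝ) 1 := Ioo_mem_nhdsGT one_pos
      have h2 : ∀ᶠ b : ℝ in atTop, (1 : ℝ) ≤ b := eventually_ge_atTop 1
      filter_upwards [h1.prod_mk h2] with p hp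
      have ha : 0 < p.1 := hp.1.1
      have hab : p.1 ≤ p.2 := hp.1.2.le.trans hp.2
      set g : L2 n := ((2 / Real.pi : ℝ) : ℂ) • ∫ l in Set.Ioi (0 : ℝ), J A l f with hg
      have hci : IntervalIntegrable (fun l => J A l g) volume p.1 p.2 := by
        refine ContinuousOn.intervalIntegrable ?_
        refine (continuousOn_J A g).mono ?_
        intro x hx
        rw [Set.uIcc_of_le hab] at hx
        exact lt_of_lt_of_le ha hx.1
      have h3 : (⟪y, ∫ l in p.1..p.2, J A l g⟫ : ℂ) = ∫ l in p.1..p.2, (⟪y, J A l g⟫ : ℂ) :=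
        ((innerSL ℂ y).intervalIntegral_comp_comm hci).symm
      rw [inner_smul_right, h3]
      have h4 : ∫ l in p.1..p.2, (⟪y, J A l g⟫ : ℂ) = ∫ l in p.1..p.2, (0 : ℂ) := by
        refine intervalIntegral.integral_congr fun l hl => ?_
        rw [Set.uIcc_of_le hab] at hl
        have hl0 : 0 < l := lt_of_lt_of_le ha hl.1
        have h5 : J A l g = ((2 / Real.pi : ℝ) : ℂ) • J A l (∫ l in Set.Ioi (0 : ℝ), J A l f) :=
          map_smul (J A l) _ _
        change (⟪y, J A l g⟫ : ℂ) = 0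
        rw [h5, inner_smul_right, hstep u f hu l hl0, mul_zero]
      rw [h4]
      simp
    have hlim3 := hlim2.congr' hzero
    exact tendsto_nhds_unique hlim3 tendsto_const_nhds
  -- the domain is dense
  have hd := denseRange_J A
  have h1 : ∀ v : L2 n, (⟪y, v⟫ : ℂ) = 0 := by
    have hc : IsClosed {v : L2 n | (⟪y, v⟫ : ℂ) = 0} :=
      isClosed_eq (innerSL ℂ y).continuous continuous_const
    intro v
    have hsub : Set.range (J A 1) ⊆ {v : L2 n | (⟪y, v⟫ : ℂ) = 0} := by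
      rintro _ ⟨g, rfl⟩
      exact hall _ _ (InDom_J A one_pos g)
    exact (hc.closure_subset_iff.mpr hsub) (hd v)
  exact inner_self_eq_zero.mp (h1 y)

theorem sqrt_sum_le {x : Fin (n + 1) → ℝ} (hx : ∀ j, 0 ≤ x j) {β : ℝ} (hβ : 0 ≤ β)
    (h : ∀ j, x j ≤ β) : Real.sqrt (∑ j, x j ^ 2) ≤ (n + 1) * β := by
  refine Real.sqrt_le_iff.2 ⟨by positivity, ?_⟩
  calc ∑ j, x j ^ 2 ≤ ∑ _j : Fin (n + 1), β ^ 2 :=
        Finset.sum_le_sum fun j _ => pow_le_pow_left₀ (hx j) (h j) 2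
    _ = (n + 1) * β ^ 2 := by simp
    _ ≤ ((n + 1) * β) ^ 2 := by
        have h1 : (0 : ℝ) ≤ n := Nat.cast_nonneg n
        have h2 : 0 ≤ β ^ 2 := sq_nonneg β
        nlinarith [mul_nonneg h1 h2, mul_nonneg (mul_nonneg h1 h1) h2]

theorem weakType11_of (hn : 0 < n) (A : Coef n) {R : Fin (n + 1) → L2 n →L[ℂ] L2 n}
    (hR : ∀ j f, Tendsto (fun p : ℝ × ℝ => D j (((2 / Real.pi : ℝ) : ℂ) • ∫ l in p.1..p.2, J A l f))
      (𝓝[>] 0 ×ˢ atTop) (𝓝 (R j f))) : WeakType11 R := by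
  obtain ⟨C, hC, hw⟩ := weak_type_R hn A hR
  refine ⟨(n + 1) * (n + 1) * C, by positivity, ?_⟩
  intro f hf α hα
  have hn1 : (0 : ℝ) < (n : ℝ) + 1 := by positivity
  have hsub : {z | α < Real.sqrt (∑ j, ‖(R j f) z‖ ^ 2)}
      ⊆ ⋃ j : Fin (n + 1), {z | α / (n + 1) < ‖(R j f) z‖} := by
    intro z hz
    by_contra hcon
    simp only [Set.mem_iUnion, Set.mem_ofPred_eq, not_exists, not_lt] at hcon
    have h1 := sqrt_sum_le (x := fun j => ‖(R j f) z‖) (fun j => norm_nonneg _)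
      (β := α / (n + 1)) (by positivity) hcon
    have h2 : ((n : ℝ) + 1) * (α / (n + 1)) = α := by field_simp
    rw [h2] at h1
    exact absurd hz (not_lt.2 h1)
  have hN : N1 f = ENNReal.ofReal (∫ z, ‖f z‖) := by
    unfold N1
    rw [← ofReal_integral_norm_eq_lintegral_enorm hf]
  calc volume {z | α < Real.sqrt (∑ j, ‖(R j f) z‖ ^ 2)}
      ≤ volume (⋃ j : Fin (n + 1), {z | α / (n + 1) < ‖(R j f) z‖}) := measure_mono hsub
    _ ≤ ∑ j : Fin (n + 1), volume {z | α / (n + 1) < ‖(R j f) z‖} :=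
        measure_iUnion_fintype_le _ _
    _ ≤ ∑ _j : Fin (n + 1), ENNReal.ofReal (C / (α / (n + 1))) * N1 f :=
        Finset.sum_le_sum fun j _ => hw j f _ (by positivity)
    _ = ENNReal.ofReal ((n + 1) * (n + 1) * C * α⁻¹ * ∫ z, ‖f z‖) := by
        rw [Finset.sum_const, Finset.card_univ, Fintype.card_fin, nsmul_eq_mul, hN,
          ← ENNReal.ofReal_mul (by positivity), ← ENNReal.ofReal_natCast,
          ← ENNReal.ofReal_mul (by positivity)]
        congr 1
        push_cast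
        field_simp

theorem main_theorem (n : ℕ) (hn : 1 ≤ n) (a : Fin n → Fin n → ST n → ℝ) (ha : IsCoeff a) :
    IsMAccretive a ∧ (∀ u f, IsH a u f → ∃ g, IsSqrtH a u g) ∧
      (∃! R : Fin (n + 1) → L2 n →L[ℂ] L2 n, IsRiesz a R) ∧
      ∀ R : Fin (n + 1) → L2 n →L[ℂ] L2 n, IsRiesz a R → WeakType11 R := by
  obtain ⟨A, hs, hA⟩ := exists_coef ha
  obtain ⟨R, hR⟩ := exists_R hn A
  have hRiesz : IsRiesz a R := by
    intro u g hg j
    obtain ⟨f, hf, rfl⟩ := (isSqrtH_iff hs hA u g).1 hg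
    exact R_sqrt hn A hR hf j
  have huniq : ∀ R' : Fin (n + 1) → L2 n →L[ℂ] L2 n, IsRiesz a R' → R' = R := by
    intro R' hR'
    funext j
    refine ContinuousLinearMap.ext fun x => ?_
    rw [← sub_eq_zero]
    -- the difference vanishes on a dense set
    have hT : ∀ u f, InDom A u f →
        (R' j - R j) (((2 / Real.pi : ℝ) : ℂ) • ∫ l in Set.Ioi (0 : ℝ), J A l f) = 0 := by
      intro u f hf
      have hg : IsSqrtH a u (((2 / Real.pi : ℝ) : ℂ) • ∫ l in Set.Ioi (0 : ℝ), J A l f) :=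
        (isSqrtH_iff hs hA _ _).2 ⟨f, hf, rfl⟩
      rw [sub_apply, hR' u _ hg j, hRiesz u _ hg j, sub_self]
    have hadj : ∀ y : L2 n, (ContinuousLinearMap.adjoint (R' j - R j)) y = 0 := by
      intro y
      refine eq_zero_of_orth_sqrt hn A ?_
      intro u f hf
      rw [ContinuousLinearMap.adjoint_inner_left, hT u f hf, inner_zero_right]
    have h1 : (⟪(R' j - R j) x, (R' j - R j) x⟫ : ℂ) = 0 := by
      rw [← ContinuousLinearMap.adjoint_inner_left, hadj, inner_zero_left]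
    have h2 := inner_self_eq_zero.mp h1
    rwa [sub_apply] at h2
  refine ⟨isMAccretive_of hs hA, ?_, ⟨R, hRiesz, huniq⟩, ?_⟩
  · intro u f hf
    exact ⟨_, (isSqrtH_iff hs hA _ _).2 ⟨f, (isH_iff hs hA _ _).1 hf, rfl⟩⟩
  · intro R' hR'
    rw [huniq R' hR']
    exact weakType11_of hn A hR

end

end Pool.Agent.W_eb6199
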