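import Pool.Agent.W_eb6199.Energy

open MeasureTheory Complex Filter Topology
open scoped FourierTransform ComplexInnerProductSpace ENNReal NNReal

namespace Pool.Agent.W_eb6199

noncomputable section

variable {n : ℕ}

/-! T11: the form: algebra, bounds, coercivity, adjoint. -/

theorem Coef.bm (A : Coef n) (i j : Fin n) : BM fun z => (A.a i j z : ℂ) := by
  refine ⟨Complex.measurable_ofReal.comp (A.meas i j), A.M, fun z => ?_⟩
  rw [Complex.norm_real, Real.norm_eq_abs]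
  exact A.bd i j z

theorem Coef.norm_mul_le (A : Coef n) (i j : Fin n) (u : L2 n) : ‖A.mul i j u‖ ≤ A.M * ‖u‖ := by
  refine norm_mulOp_le (A.bm i j).meas (fun z => ?_) u
  rw [Complex.norm_real, Real.norm_eq_abs]
  exact A.bd i j z

theorem Coef.M_nonneg (A : Coef n) : 0 ≤ A.M := zero_le_one.trans A.one_le_M

/-- `Re ∫ A F · conj F ≥ ν ‖F‖²` -/
theorem Coef.re_app_ge (A : Coef n) (F : Fin n → L2 n) :
    A.ν * ∑ i, ‖F i‖ ^ 2 ≤ (∑ i, ⟪F i, A.app F i⟫ : ℂ).re := by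
  have h1 : ∀ i : Fin n, ‖F i‖ ^ 2 = ∫ z, ‖F i z‖ ^ 2 := fun i => norm_sq_eq_integral (F i)
  have hint : ∀ i j : Fin n, Integrable (fun z => ⟪F i z, A.mul i j (F j) z⟫) := fun i j =>
    L2.integrable_inner (𝕜 := ℂ) (F i) (A.mul i j (F j))
  have h2 : (∑ i, ⟪F i, A.app F i⟫ : ℂ) = ∫ z, ∑ i, ∑ j, ⟪F i z, A.mul i j (F j) z⟫ := by
    rw [integral_finsetSum]
    · refine Finset.sum_congr rfl fun i _ => ?_
      rw [integral_finsetSum]
      · rw [Coef.app, inner_sum]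
        refine Finset.sum_congr rfl fun j _ => ?_
        rw [L2.inner_def]
      · exact fun j _ => hint i j
    · exact fun i _ => integrable_finsetSum _ fun j _ => hint i j
  have hI : Integrable (fun z => ∑ i, ∑ j, ⟪F i z, A.mul i j (F j) z⟫) :=
    integrable_finsetSum _ fun i _ => integrable_finsetSum _ fun j _ => hint i j
  have h3 : (∑ i, ⟪F i, A.app F i⟫ : ℂ).re
      = ∫ z, (∑ i, ∑ j, ⟪F i z, A.mul i j (F j) z⟫ : ℂ).re := by
    rw [h2]
    exact (integral_re hI).symm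
  rw [h3]
  have h4 : A.ν * ∑ i, ‖F i‖ ^ 2 = ∫ z, A.ν * ∑ i, ‖F i z‖ ^ 2 := by
    rw [integral_const_mul, integral_finsetSum]
    · simp only [h1]
    · exact fun i _ => integrable_norm_sq (F i)
  rw [h4]
  refine integral_mono_ae ?_ hI.re ?_
  · exact (integrable_finsetSum _ fun i _ => integrable_norm_sq (F i)).const_mul _
  · have hae : ∀ᵐ z ∂(volume : Measure (ST n)), ∀ i j : Fin n,
        A.mul i j (F j) z = (A.a i j z : ℂ) * F j z := by
      rw [ae_all_iff]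
      intro i
      rw [ae_all_iff]
      intro j
      exact mulOp_coe (A.bm i j) (F j)
    filter_upwards [hae] with z hz
    have e1 : (∑ i, ∑ j, ⟪F i z, A.mul i j (F j) z⟫ : ℂ).re
        = (∑ i, ∑ j, A.a i j z * (F j z).re * (F i z).re)
          + ∑ i, ∑ j, A.a i j z * (F j z).im * (F i z).im := by
      rw [Complex.re_sum, ← Finset.sum_add_distrib]
      refine Finset.sum_congr rfl fun i _ => ?_
      rw [Complex.re_sum, ← Finset.sum_add_distrib]
      refine Finset.sum_congr rfl fun j _ => ?_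
      rw [hz i j]
      simp only [RCLike.inner_apply, Complex.mul_re, Complex.mul_im, Complex.conj_re,
        Complex.conj_im, Complex.ofReal_re, Complex.ofReal_im]
      ring
    have e2 : ∑ i, ‖F i z‖ ^ 2 = (∑ i, (F i z).re ^ 2) + ∑ i, (F i z).im ^ 2 := by
      rw [← Finset.sum_add_distrib]
      refine Finset.sum_congr rfl fun i _ => ?_
      rw [Complex.sq_norm, Complex.normSq_apply]
      ring
    change A.ν * ∑ i, ‖F i z‖ ^ 2 ≤ (∑ i, ∑ j, ⟪F i z, A.mul i j (F j) z⟫ : ℂ).re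
    rw [e1, e2, mul_add]
    exact add_le_add (A.ell z fun i => (F i z).re) (A.ell z fun i => (F i z).im)

theorem Coef.norm_app_le (A : Coef n) (F : Fin n → L2 n) (i : Fin n) :
    ‖A.app F i‖ ≤ A.M * ∑ j, ‖F j‖ := by
  rw [Coef.app, Finset.mul_sum]
  exact norm_sum_le_of_le _ fun j _ => A.norm_mul_le i j (F j)

private theorem sq_sum_le_aux {n : ℕ} (a : Fin n → ℝ) :
    (∑ j, a j) ^ 2 ≤ n * ∑ j, a j ^ 2 := by
  have h := sq_sum_le_card_mul_sum_sq (s := (Finset.univ : Finset (Fin n))) (f := a)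
  simpa using h

private theorem sum_norm_le_sqrt_aux {n : ℕ} (a : Fin n → ℝ) :
    ∑ j, a j ≤ Real.sqrt n * Real.sqrt (∑ j, a j ^ 2) := by
  rw [← Real.sqrt_mul (Nat.cast_nonneg n)]
  exact Real.le_sqrt_of_sq_le (sq_sum_le_aux a)

theorem sum_norm_le_sqrt (F : Fin n → L2 n) :
    ∑ j, ‖F j‖ ≤ Real.sqrt n * Real.sqrt (∑ j, ‖F j‖ ^ 2) :=
  sum_norm_le_sqrt_aux fun j => ‖F j‖

theorem Coef.norm_app_sum_le (A : Coef n) (F G : Fin n → L2 n) :
    ‖(∑ i, ⟪G i, A.app F i⟫ : ℂ)‖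
      ≤ n * A.M * Real.sqrt (∑ i, ‖F i‖ ^ 2) * Real.sqrt (∑ i, ‖G i‖ ^ 2) := by
  have h1 : ‖(∑ i, ⟪G i, A.app F i⟫ : ℂ)‖ ≤ ∑ i, ‖G i‖ * (A.M * ∑ j, ‖F j‖) := by
    refine norm_sum_le_of_le _ fun i _ => ?_
    refine (norm_inner_le_norm _ _).trans ?_
    exact mul_le_mul_of_nonneg_left (A.norm_app_le F i) (norm_nonneg _)
  refine h1.trans ?_
  rw [← Finset.sum_mul]
  have hF := sum_norm_le_sqrt F
  have hG := sum_norm_le_sqrt G
  have hM := A.M_nonneg
  have hFn : 0 ≤ ∑ j, ‖F j‖ := Finset.sum_nonneg fun _ _ => norm_nonneg _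
  have hn : Real.sqrt n * Real.sqrt n = n := Real.mul_self_sqrt (Nat.cast_nonneg n)
  calc (∑ i, ‖G i‖) * (A.M * ∑ j, ‖F j‖)
      ≤ (Real.sqrt n * Real.sqrt (∑ j, ‖G j‖ ^ 2))
        * (A.M * (Real.sqrt n * Real.sqrt (∑ j, ‖F j‖ ^ 2))) := by
        refine mul_le_mul hG (mul_le_mul_of_nonneg_left hF hM) (mul_nonneg hM hFn) (by positivity)
    _ = (Real.sqrt n * Real.sqrt n) * A.M * Real.sqrt (∑ i, ‖F i‖ ^ 2)
        * Real.sqrt (∑ i, ‖G i‖ ^ 2) := by ring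
    _ = _ := by rw [hn]

theorem Coef.sum_norm_app_sq_le (A : Coef n) (F : Fin n → L2 n) :
    ∑ i, ‖A.app F i‖ ^ 2 ≤ (n * A.M) ^ 2 * ∑ i, ‖F i‖ ^ 2 := by
  have hsq : (∑ j, ‖F j‖) ^ 2 ≤ n * ∑ j, ‖F j‖ ^ 2 := sq_sum_le_aux fun j => ‖F j‖
  have h1 : ∀ i : Fin n, ‖A.app F i‖ ^ 2 ≤ A.M ^ 2 * (n * ∑ j, ‖F j‖ ^ 2) := by
    intro i
    have h2 := A.norm_app_le F i
    calc ‖A.app F i‖ ^ 2 ≤ (A.M * ∑ j, ‖F j‖) ^ 2 :=
          pow_le_pow_left₀ (norm_nonneg _) h2 2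
      _ = A.M ^ 2 * (∑ j, ‖F j‖) ^ 2 := by ring
      _ ≤ _ := mul_le_mul_of_nonneg_left hsq (sq_nonneg _)
  calc ∑ i, ‖A.app F i‖ ^ 2 ≤ ∑ _i : Fin n, A.M ^ 2 * (n * ∑ j, ‖F j‖ ^ 2) :=
        Finset.sum_le_sum fun i _ => h1 i
    _ = (n * A.M) ^ 2 * ∑ i, ‖F i‖ ^ 2 := by
        rw [Finset.sum_const, Finset.card_univ, Fintype.card_fin, nsmul_eq_mul]
        ring

theorem Coef.app_add (A : Coef n) (F G : Fin n → L2 n) (i : Fin n) :
    A.app (fun j => F j + G j) i = A.app F i + A.app G i := by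
  simp only [Coef.app, map_add, Finset.sum_add_distrib]

theorem Coef.app_smul (A : Coef n) (c : ℂ) (F : Fin n → L2 n) (i : Fin n) :
    A.app (fun j => c • F j) i = c • A.app F i := by
  simp only [Coef.app, map_smul, Finset.smul_sum]

/-- multiplication operators commute with the coefficients -/
theorem Coef.app_mulOp (A : Coef n) {m : ST n → ℂ} (hm : BM m) (F : Fin n → L2 n) (i : Fin n) :
    A.app (fun j => mulOp m (F j)) i = mulOp m (A.app F i) := by
  simp only [Coef.app, map_sum]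
  refine Finset.sum_congr rfl fun j _ => ?_
  exact mulOp_comm (A.bm i j) hm (F j)

theorem form_add_left (A : Coef n) {u u' v : L2 n} (hu : u ∈ En n) (hu' : u' ∈ En n) :
    form A (u + u') v = form A u v + form A u' v := by
  have h1 : ∀ i : Fin n, A.app (fun j : Fin n => D j.succ (u + u')) i
      = A.app (fun j : Fin n => D j.succ u) i + A.app (fun j : Fin n => D j.succ u') i := by
    intro i
    rw [← A.app_add]
    congr 1
    funext j
    exact D_add j.succ hu hu'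
  simp only [form, h1, D_add 0 hu hu', map_add, inner_add_right, Finset.sum_add_distrib]
  ring

theorem form_smul_left (A : Coef n) (c : ℂ) {u v : L2 n} (hu : u ∈ En n) :
    form A (c • u) v = c * form A u v := by
  have h1 : ∀ i : Fin n, A.app (fun j : Fin n => D j.succ (c • u)) i
      = c • A.app (fun j : Fin n => D j.succ u) i := by
    intro i
    rw [← A.app_smul]
    congr 1
    funext j
    exact D_smul j.succ c hu
  simp only [form, h1, D_smul 0 c hu, map_smul, inner_smul_right, ← Finset.mul_sum]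
  ring

theorem form_add_right (A : Coef n) {u v v' : L2 n} (hv : v ∈ En n) (hv' : v' ∈ En n) :
    form A u (v + v') = form A u v + form A u v' := by
  simp only [form, D_add _ hv hv', inner_add_left, Finset.sum_add_distrib]
  ring

theorem form_smul_right (A : Coef n) (c : ℂ) {u v : L2 n} (hv : v ∈ En n) :
    form A u (c • v) = (starRingEnd ℂ) c * form A u v := by
  simp only [form, D_smul _ c hv, inner_smul_left, ← Finset.mul_sum]
  ring

theorem gD_le_eD (u : L2 n) : gD u ≤ eD u := by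
  rw [eD_eq]
  have := sq_nonneg ‖D 0 u‖
  linarith

theorem Coef.norm_sg (A : Coef n) : ‖(A.sg : ℂ)‖ = 1 := by
  rcases A.sg_eq with h | h <;> simp [h]

theorem Coef.sg_mul_sg (A : Coef n) : A.sg * A.sg = 1 := by
  rcases A.sg_eq with h | h <;> simp [h]

theorem norm_form_le (A : Coef n) (u v : L2 n) :
    ‖form A u v‖ ≤ (1 + n * A.M) * Real.sqrt (eD u) * Real.sqrt (eD v) := by
  have h1 : ‖(A.sg : ℂ) * ⟪D 0 v, Ht (D 0 u)⟫‖ ≤ Real.sqrt (eD u) * Real.sqrt (eD v) := by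
    rw [norm_mul, A.norm_sg, one_mul]
    refine (norm_inner_le_norm _ _).trans ?_
    rw [mul_comm]
    refine mul_le_mul ((norm_Ht_le _).trans ?_) ?_ (norm_nonneg _) (Real.sqrt_nonneg _)
    · exact Real.le_sqrt_of_sq_le (norm_D_sq_le 0 u)
    · exact Real.le_sqrt_of_sq_le (norm_D_sq_le 0 v)
  have h2 := A.norm_app_sum_le (fun j : Fin n => D j.succ u) (fun j : Fin n => D j.succ v)
  have h3 : ‖(∑ i : Fin n, ⟪D i.succ v, A.app (fun j => D j.succ u) i⟫ : ℂ)‖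
      ≤ n * A.M * Real.sqrt (eD u) * Real.sqrt (eD v) := by
    refine h2.trans ?_
    have hM := A.M_nonneg
    have e1 : Real.sqrt (∑ i : Fin n, ‖D i.succ u‖ ^ 2) ≤ Real.sqrt (eD u) :=
      Real.sqrt_le_sqrt (gD_le_eD u)
    have e2 : Real.sqrt (∑ i : Fin n, ‖D i.succ v‖ ^ 2) ≤ Real.sqrt (eD v) :=
      Real.sqrt_le_sqrt (gD_le_eD v)
    refine mul_le_mul (mul_le_mul_of_nonneg_left e1 (by positivity)) e2 (Real.sqrt_nonneg _)
      (by positivity)
  calc ‖form A u v‖ ≤ ‖(A.sg : ℂ) * ⟪D 0 v, Ht (D 0 u)⟫‖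
        + ‖(∑ i : Fin n, ⟪D i.succ v, A.app (fun j => D j.succ u) i⟫ : ℂ)‖ := norm_add_le _ _
    _ ≤ Real.sqrt (eD u) * Real.sqrt (eD v)
        + n * A.M * Real.sqrt (eD u) * Real.sqrt (eD v) := add_le_add h1 h3
    _ = _ := by ring

theorem Coef.inner_mul_left (A : Coef n) (i j : Fin n) (u v : L2 n) :
    ⟪A.mul i j u, v⟫ = ⟪u, A.mul i j v⟫ :=
  inner_mulOp_real (A.bm i j) u v

/-- `form A u v = conj (form A.adj v u)` -/
theorem form_adj (A : Coef n) (u v : L2 n) :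
    form A u v = (starRingEnd ℂ) (form A.adj v u) := by
  have h1 : (starRingEnd ℂ) ⟪D 0 u, Ht (D 0 v)⟫ = -⟪D 0 v, Ht (D 0 u)⟫ := by
    rw [inner_conj_symm, inner_Ht]
  have h2 : (starRingEnd ℂ) (∑ i : Fin n, ⟪D i.succ u, A.adj.app (fun j => D j.succ v) i⟫)
      = ∑ i : Fin n, ⟪D i.succ v, A.app (fun j => D j.succ u) i⟫ := by
    rw [map_sum]
    have e1 : ∀ i : Fin n, (starRingEnd ℂ) ⟪D i.succ u, A.adj.app (fun j => D j.succ v) i⟫
        = ∑ j : Fin n, ⟪D j.succ v, A.mul j i (D i.succ u)⟫ := by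
      intro i
      rw [inner_conj_symm, Coef.app, sum_inner]
      refine Finset.sum_congr rfl fun j _ => ?_
      exact A.inner_mul_left j i _ _
    simp only [e1]
    rw [Finset.sum_comm]
    refine Finset.sum_congr rfl fun j _ => ?_
    rw [Coef.app, inner_sum]
  have h3 : A.adj.sg = -A.sg := rfl
  rw [form, form, map_add, map_mul, h1, h2, h3, Complex.conj_ofReal]
  push_cast
  ring

theorem re_form_self (A : Coef n) {u : L2 n} (hu : u ∈ En n) :
    A.ν * gD u ≤ (form A u u).re := by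
  have _ := hu
  rw [form, Complex.add_re, Complex.re_ofReal_mul, re_inner_Ht_self, mul_zero, zero_add]
  exact A.re_app_ge fun j : Fin n => D j.succ u

theorem inner_Ht_Ht (w : L2 n) : ⟪Ht w, Ht w⟫ = ((‖w‖ ^ 2 : ℝ) : ℂ) := by
  rw [inner_Ht, Ht_Ht, inner_neg_right, neg_neg, inner_self_eq_norm_sq_to_K]
  push_cast
  rfl

theorem norm_Ht (w : L2 n) : ‖Ht w‖ = ‖w‖ := by
  have h := congrArg Complex.re (inner_Ht_Ht w)
  rw [Complex.ofReal_re] at h
  have h1 : (⟪Ht w, Ht w⟫ : ℂ).re = ‖Ht w‖ ^ 2 := inner_self_eq_norm_sq (𝕜 := ℂ) (Ht w)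
  have h2 : ‖Ht w‖ ^ 2 = ‖w‖ ^ 2 := h1.symm.trans h
  exact (pow_left_inj₀ (norm_nonneg _) (norm_nonneg _) (by norm_num)).1 h2

/-- `λ²‖D_t^{1/2}h‖² ≤ |⟨λ²Hh, Ht h⟩| + C ‖∇h‖²` in form version -/
theorem norm_D0_sq_le_form (A : Coef n) {u : L2 n} (hu : u ∈ En n) :
    ‖D 0 u‖ ^ 2 ≤ A.sg * (form A u (Ht u)).re + n * A.M * gD u := by
  have h1 : (form A u (Ht u)).re = A.sg * ‖D 0 u‖ ^ 2
      + (∑ i : Fin n, ⟪Ht (D i.succ u), A.app (fun j => D j.succ u) i⟫ : ℂ).re := by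
    rw [form, Complex.add_re, Complex.re_ofReal_mul, D_Ht 0 hu, inner_Ht_Ht, Complex.ofReal_re]
    congr 2
    refine Finset.sum_congr rfl fun i _ => ?_
    rw [D_Ht i.succ hu]
  have h2 := A.norm_app_sum_le (fun j : Fin n => D j.succ u) (fun j : Fin n => Ht (D j.succ u))
  simp only [norm_Ht] at h2
  have h3 : (∑ i : Fin n, ‖D i.succ u‖ ^ 2) = gD u := rfl
  rw [h3, mul_assoc, Real.mul_self_sqrt (gD_nonneg u)] at h2
  have h4 := (abs_le.1 ((Complex.abs_re_le_norm _).trans h2))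
  have h5 : A.sg * (form A u (Ht u)).re = ‖D 0 u‖ ^ 2
      + A.sg * (∑ i : Fin n, ⟪Ht (D i.succ u), A.app (fun j => D j.succ u) i⟫ : ℂ).re := by
    rw [h1, mul_add, ← mul_assoc, A.sg_mul_sg, one_mul]
  rw [h5]
  rcases A.sg_eq with h | h
  · rw [h, one_mul]
    linarith [h4.1]
  · rw [h]
    linarith [h4.2]

/-- hidden coercivity: with `v = u + δ sg Ht u` -/
theorem exists_coercive (A : Coef n) : ∃ δ c : ℝ, 0 < δ ∧ δ ≤ 1 ∧ 0 < c ∧ c ≤ 1 ∧
    ∀ u ∈ En n, c * eD u ≤ (form A u (u + ((δ * A.sg : ℝ) : ℂ) • Ht u)).re := by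
  have hν := A.ν_pos
  have hM := A.M_nonneg
  have hnM : (0 : ℝ) ≤ n * A.M := by positivity
  set δ : ℝ := min 1 (A.ν / (2 * (n * A.M) + 1)) with hδ
  have hδ0 : 0 < δ := lt_min one_pos (by positivity)
  have hδ1 : δ ≤ 1 := min_le_left _ _
  have hδ2 : δ * (n * A.M) ≤ A.ν / 2 := by
    have h1 : δ ≤ A.ν / (2 * (n * A.M) + 1) := min_le_right _ _
    calc δ * (n * A.M) ≤ A.ν / (2 * (n * A.M) + 1) * (n * A.M) :=
          mul_le_mul_of_nonneg_right h1 hnM
      _ ≤ A.ν / 2 := by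
          rw [div_mul_eq_mul_div, div_le_div_iff₀ (by positivity) (by norm_num)]
          nlinarith
  refine ⟨δ, min 1 (min δ (A.ν / 2)), hδ0, hδ1, lt_min one_pos (lt_min hδ0 (by positivity)),
    min_le_left _ _, fun u hu => ?_⟩
  have hc1 : min 1 (min δ (A.ν / 2)) ≤ δ := (min_le_right _ _).trans (min_le_left _ _)
  have hc2 : min 1 (min δ (A.ν / 2)) ≤ A.ν / 2 := (min_le_right _ _).trans (min_le_right _ _)
  have e1 : (form A u (u + ((δ * A.sg : ℝ) : ℂ) • Ht u)).re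
      = (form A u u).re + δ * (A.sg * (form A u (Ht u)).re) := by
    rw [form_add_right A hu (En_smul _ (En_Ht hu)), form_smul_right A _ (En_Ht hu),
      Complex.conj_ofReal, Complex.add_re, Complex.re_ofReal_mul]
    ring
  have h1 := re_form_self A hu
  have h2 := norm_D0_sq_le_form A hu
  rw [e1, eD_eq]
  have hg := gD_nonneg u
  have h3 : δ * ‖D 0 u‖ ^ 2 ≤ δ * (A.sg * (form A u (Ht u)).re) + δ * (n * A.M) * gD u := by
    have := mul_le_mul_of_nonneg_left h2 hδ0.le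
    linarith
  have h4 : δ * (n * A.M) * gD u ≤ A.ν / 2 * gD u := mul_le_mul_of_nonneg_right hδ2 hg
  have h5 : min 1 (min δ (A.ν / 2)) * ‖D 0 u‖ ^ 2 ≤ δ * ‖D 0 u‖ ^ 2 :=
    mul_le_mul_of_nonneg_right hc1 (sq_nonneg _)
  have h6 : min 1 (min δ (A.ν / 2)) * gD u ≤ A.ν / 2 * gD u := mul_le_mul_of_nonneg_right hc2 hg
  linarith

end

end Pool.Agent.W_eb6199
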