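import Pool.Agent.W_eb6199.Mul

open MeasureTheory Complex Filter Topology
open scoped FourierTransform ComplexInnerProductSpace ENNReal NNReal

namespace Pool.Agent.W_eb6199

noncomputable section

variable {n : ℕ}

/-! T03: bounded and unbounded Fourier multipliers on `L²`. -/

theorem fourier_fOp {m : ST n → ℂ} (u : L2 n) : 𝓕 (fOp m u) = mulOp m (𝓕 u) :=
  (Lp.fourierTransformₗᵢ (ST n) ℂ).apply_symm_apply _

theorem fourier_inj {u v : L2 n} (h : (𝓕 u : L2 n) = 𝓕 v) : u = v :=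
  (Lp.fourierTransformₗᵢ (ST n) ℂ).injective h

theorem fourier_surj (f : L2 n) : ∃ u : L2 n, (𝓕 u : L2 n) = f :=
  (Lp.fourierTransformₗᵢ (ST n) ℂ).surjective f

theorem fourier_map_add (u v : L2 n) : (𝓕 (u + v) : L2 n) = 𝓕 u + 𝓕 v :=
  (Lp.fourierTransformₗᵢ (ST n) ℂ).map_add u v

theorem fourier_map_sub (u v : L2 n) : (𝓕 (u - v) : L2 n) = 𝓕 u - 𝓕 v :=
  (Lp.fourierTransformₗᵢ (ST n) ℂ).map_sub u v

theorem fourier_map_smul (c : ℂ) (u : L2 n) : (𝓕 (c • u) : L2 n) = c • 𝓕 u :=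
  (Lp.fourierTransformₗᵢ (ST n) ℂ).map_smul c u

theorem norm_fourier' (u : L2 n) : ‖(𝓕 u : L2 n)‖ = ‖u‖ :=
  (Lp.fourierTransformₗᵢ (ST n) ℂ).norm_map u

theorem inner_fourier' (u v : L2 n) : ⟪(𝓕 u : L2 n), (𝓕 v : L2 n)⟫ = ⟪u, v⟫ :=
  (Lp.fourierTransformₗᵢ (ST n) ℂ).inner_map_map u v

theorem fourier_fOp_coe {m : ST n → ℂ} (hm : BM m) (u : L2 n) :
    ((𝓕 (fOp m u) : L2 n) : ST n → ℂ) =ᵐ[volume] fun ζ => m ζ * (𝓕 u : L2 n) ζ := by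
  rw [fourier_fOp]
  exact mulOp_coe hm _

theorem norm_fOp_le {m : ST n → ℂ} (hm : Measurable m) {C : ℝ} (hC : ∀ z, ‖m z‖ ≤ C)
    (u : L2 n) : ‖fOp m u‖ ≤ C * ‖u‖ := by
  rw [← norm_fourier' (fOp m u), fourier_fOp, ← norm_fourier' u]
  exact norm_mulOp_le hm hC _

theorem fOp_fOp {m m' : ST n → ℂ} (hm : BM m) (hm' : BM m') (u : L2 n) :
    fOp m (fOp m' u) = fOp (fun z => m z * m' z) u := by
  apply fourier_inj
  rw [fourier_fOp, fourier_fOp, fourier_fOp, mulOp_mulOp hm hm']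

theorem inner_fOp {m : ST n → ℂ} (hm : BM m) (u v : L2 n) :
    ⟪fOp m u, v⟫ = ⟪u, fOp (fun z => (starRingEnd ℂ) (m z)) v⟫ := by
  rw [← inner_fourier' (fOp m u) v, ← inner_fourier' u, fourier_fOp, fourier_fOp, inner_mulOp hm]

theorem FMul_fOp {m : ST n → ℂ} (hm : BM m) (u : L2 n) : FMul m u (fOp m u) :=
  fourier_fOp_coe hm u

theorem FMul.unique {m : ST n → ℂ} {u w w' : L2 n} (h : FMul m u w) (h' : FMul m u w') :
    w = w' := by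
  apply fourier_inj
  ext1
  exact h.trans h'.symm

theorem FMul.add {m : ST n → ℂ} {u w u' w' : L2 n} (h : FMul m u w) (h' : FMul m u' w') :
    FMul m (u + u') (w + w') := by
  unfold FMul at h h' ⊢
  rw [fourier_map_add, fourier_map_add]
  filter_upwards [h, h', Lp.coeFn_add (𝓕 w : L2 n) (𝓕 w'), Lp.coeFn_add (𝓕 u : L2 n) (𝓕 u')]
    with ζ h1 h2 h3 h4
  rw [h3, h4, Pi.add_apply, Pi.add_apply, h1, h2, mul_add]

theorem FMul.smul {m : ST n → ℂ} {u w : L2 n} (c : ℂ) (h : FMul m u w) :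
    FMul m (c • u) (c • w) := by
  unfold FMul at h ⊢
  rw [fourier_map_smul, fourier_map_smul]
  filter_upwards [h, Lp.coeFn_smul c (𝓕 w : L2 n), Lp.coeFn_smul c (𝓕 u : L2 n)]
    with ζ h1 h2 h3
  rw [h2, h3, Pi.smul_apply, Pi.smul_apply, h1, smul_eq_mul, smul_eq_mul]
  ring

theorem FMul.sub {m : ST n → ℂ} {u w u' w' : L2 n} (h : FMul m u w) (h' : FMul m u' w') :
    FMul m (u - u') (w - w') := by
  unfold FMul at h h' ⊢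
  rw [fourier_map_sub, fourier_map_sub]
  filter_upwards [h, h', Lp.coeFn_sub (𝓕 w : L2 n) (𝓕 w'), Lp.coeFn_sub (𝓕 u : L2 n) (𝓕 u')]
    with ζ h1 h2 h3 h4
  rw [h3, h4, Pi.sub_apply, Pi.sub_apply, h1, h2, mul_sub]

/-- bounded multipliers commute with unbounded ones -/
theorem FMul.map_fOp {m p : ST n → ℂ} (hp : BM p) {u w : L2 n} (h : FMul m u w) :
    FMul m (fOp p u) (fOp p w) := by
  unfold FMul at h ⊢
  filter_upwards [h, fourier_fOp_coe hp u, fourier_fOp_coe hp w] with ζ h1 h2 h3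
  rw [h2, h3, h1]
  ring

/-- composition of multipliers -/
theorem FMul.comp {m m' : ST n → ℂ} {u w x : L2 n} (h : FMul m u w) (h' : FMul m' w x) :
    FMul (fun ζ => m' ζ * m ζ) u x := by
  unfold FMul at h h' ⊢
  filter_upwards [h, h'] with ζ h1 h2
  rw [h2, h1]
  ring

/-- a product of symbols that is bounded: `fOp p w` is the multiplier `p * m` applied to `u` -/
theorem FMul.fOp_mul {m p : ST n → ℂ} (hp : BM p) (hmp : BM fun ζ => p ζ * m ζ) {u w : L2 n}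
    (h : FMul m u w) : Pool.Agent.W_eb6199.fOp p w = Pool.Agent.W_eb6199.fOp (fun ζ => p ζ * m ζ) u := by
  apply fourier_inj
  ext1
  filter_upwards [h, fourier_fOp_coe hp w, fourier_fOp_coe hmp u] with ζ h1 h2 h3
  rw [h2, h3, h1]
  ring

/-- if `p * m` is bounded then `fOp p u` is in the domain of the multiplier `m` -/
theorem FMul_fOp_of_bdd {m p : ST n → ℂ} (hp : BM p) (hmp : BM fun ζ => m ζ * p ζ) (u : L2 n) :
    FMul m (Pool.Agent.W_eb6199.fOp p u) (Pool.Agent.W_eb6199.fOp (fun ζ => m ζ * p ζ) u) := by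
  unfold FMul
  filter_upwards [fourier_fOp_coe hp u, fourier_fOp_coe hmp u] with ζ h2 h3
  rw [h2, h3]
  ring

theorem FMul_exists_iff {m : ST n → ℂ} (u : L2 n) :
    (∃ w, FMul m u w) ↔ MemLp (fun ζ => m ζ * (𝓕 u : L2 n) ζ) 2 (volume : Measure (ST n)) := by
  constructor
  · rintro ⟨w, hw⟩
    exact (memLp_congr_ae hw).1 (Lp.memLp _)
  · intro h
    obtain ⟨w, hw⟩ := fourier_surj (h.toLp _)
    refine ⟨w, ?_⟩
    unfold FMul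
    rw [hw]
    exact h.coeFn_toLp

/-- domination of symbols -/
theorem FMul_exists_of_le {m m' : ST n → ℂ} (hm' : Measurable m')
    (h : ∀ ζ, ‖m' ζ‖ ≤ ‖m ζ‖) {u w : L2 n} (hw : FMul m u w) :
    ∃ w', FMul m' u w' ∧ ‖w'‖ ≤ ‖w‖ := by
  have hmem : MemLp (fun ζ => m' ζ * (𝓕 u : L2 n) ζ) 2 (volume : Measure (ST n)) := by
    refine (Lp.memLp (𝓕 w : L2 n)).mono
      (hm'.aestronglyMeasurable.mul (Lp.aestronglyMeasurable _)) ?_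
    filter_upwards [hw] with ζ h1
    rw [h1, norm_mul, norm_mul]
    exact mul_le_mul_of_nonneg_right (h ζ) (norm_nonneg _)
  obtain ⟨w', hw'⟩ := (FMul_exists_iff u).2 hmem
  refine ⟨w', hw', ?_⟩
  rw [← norm_fourier' w', ← norm_fourier' w]
  refine Lp.norm_le_norm_of_ae_le ?_
  filter_upwards [hw, hw'] with ζ h1 h2
  rw [h1, h2, norm_mul, norm_mul]
  exact mul_le_mul_of_nonneg_right (h ζ) (norm_nonneg _)

theorem norm_sq_fourier (u : L2 n) : ‖u‖ ^ 2 = ∫ ζ, ‖(𝓕 u : L2 n) ζ‖ ^ 2 := by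
  rw [← norm_fourier' u]
  exact norm_sq_eq_integral _

theorem ofReal_norm_sq_fourier (u : L2 n) :
    ENNReal.ofReal (‖u‖ ^ 2) = ∫⁻ ζ, ‖(𝓕 u : L2 n) ζ‖ₑ ^ 2 := by
  rw [← norm_fourier' u]
  exact ofReal_norm_sq _

theorem ofReal_norm_sq_FMul {m : ST n → ℂ} {u w : L2 n} (h : FMul m u w) :
    ENNReal.ofReal (‖w‖ ^ 2) = ∫⁻ ζ, ‖m ζ‖ₑ ^ 2 * ‖(𝓕 u : L2 n) ζ‖ₑ ^ 2 := by
  rw [ofReal_norm_sq_fourier]
  refine lintegral_congr_ae ?_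
  filter_upwards [h] with ζ h1
  rw [h1, enorm_mul, mul_pow]

/-- `⟪x, w⟫` on the Fourier side -/
theorem inner_FMul {m m' : ST n → ℂ} {u w v x : L2 n} (h : FMul m u w) (h' : FMul m' v x) :
    ⟪x, w⟫ = ∫ ζ, (starRingEnd ℂ) (m' ζ) * m ζ *
      ((starRingEnd ℂ) ((𝓕 v : L2 n) ζ) * (𝓕 u : L2 n) ζ) := by
  rw [← inner_fourier' x w, L2.inner_def]
  refine integral_congr_ae ?_
  filter_upwards [h, h'] with ζ h1 h2
  rw [h1, h2, RCLike.inner_apply, map_mul]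
  ring

/-- general comparison principle: a pointwise bound of symbols
`∑ k, |m k ζ|² ≤ C² |m₀ ζ|²` gives `∑ k, ‖w k‖² ≤ C² ‖w₀‖²`. -/
theorem sum_norm_sq_le {ι : Type*} (s : Finset ι) {m : ι → ST n → ℂ} {u : L2 n} {w : ι → L2 n}
    (hm : ∀ k, Measurable (m k)) (hw : ∀ k, FMul (m k) u (w k)) {κ : Type*} (t : Finset κ)
    {m₀ : κ → ST n → ℂ} (hm₀ : ∀ k, Measurable (m₀ k)) {w₀ : κ → L2 n}
    (hw₀ : ∀ k, FMul (m₀ k) u (w₀ k)) {C : ℝ} (hC : 0 ≤ C)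
    (h : ∀ ζ, ∑ k ∈ s, ‖m k ζ‖ ^ 2 ≤ C * ∑ k ∈ t, ‖m₀ k ζ‖ ^ 2) :
    ∑ k ∈ s, ‖w k‖ ^ 2 ≤ C * ∑ k ∈ t, ‖w₀ k‖ ^ 2 := by
  have e1 : ∑ k ∈ s, ‖w k‖ ^ 2 = ∫ ζ, ∑ k ∈ s, ‖(𝓕 (w k) : L2 n) ζ‖ ^ 2 := by
    rw [integral_finsetSum _ fun k _ => integrable_norm_sq _]
    exact Finset.sum_congr rfl fun k _ => norm_sq_fourier _
  have e2 : C * ∑ k ∈ t, ‖w₀ k‖ ^ 2 = ∫ ζ, C * ∑ k ∈ t, ‖(𝓕 (w₀ k) : L2 n) ζ‖ ^ 2 := by
    rw [integral_const_mul, integral_finsetSum _ fun k _ => integrable_norm_sq _]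
    congr 1
    exact Finset.sum_congr rfl fun k _ => norm_sq_fourier _
  rw [e1, e2]
  refine integral_mono_ae (integrable_finsetSum _ fun k _ => integrable_norm_sq _)
    ((integrable_finsetSum _ fun k _ => integrable_norm_sq _).const_mul C) ?_
  have a1 : ∀ᵐ ζ ∂(volume : Measure (ST n)), ∀ k ∈ s,
      (𝓕 (w k) : L2 n) ζ = m k ζ * (𝓕 u : L2 n) ζ := by
    rw [Filter.eventually_all_finset]
    exact fun k _ => hw k
  have a2 : ∀ᵐ ζ ∂(volume : Measure (ST n)), ∀ k ∈ t,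
      (𝓕 (w₀ k) : L2 n) ζ = m₀ k ζ * (𝓕 u : L2 n) ζ := by
    rw [Filter.eventually_all_finset]
    exact fun k _ => hw₀ k
  filter_upwards [a1, a2] with ζ h1 h2
  have b1 : ∑ k ∈ s, ‖(𝓕 (w k) : L2 n) ζ‖ ^ 2
      = (∑ k ∈ s, ‖m k ζ‖ ^ 2) * ‖(𝓕 u : L2 n) ζ‖ ^ 2 := by
    rw [Finset.sum_mul]
    exact Finset.sum_congr rfl fun k hk => by rw [h1 k hk, norm_mul, mul_pow]
  have b2 : ∑ k ∈ t, ‖(𝓕 (w₀ k) : L2 n) ζ‖ ^ 2
      = (∑ k ∈ t, ‖m₀ k ζ‖ ^ 2) * ‖(𝓕 u : L2 n) ζ‖ ^ 2 := by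
    rw [Finset.sum_mul]
    exact Finset.sum_congr rfl fun k hk => by rw [h2 k hk, norm_mul, mul_pow]
  simp only [b1, b2]
  rw [← mul_assoc]
  exact mul_le_mul_of_nonneg_right (h ζ) (sq_nonneg _)

/-- the set where the symbol is bounded by `R` -/
theorem measurableSet_symbol_le {m : ST n → ℂ} (hm : Measurable m) (R : ℝ) :
    MeasurableSet {ζ | ‖m ζ‖ ≤ R} :=
  measurableSet_le hm.norm measurable_const

theorem ind_apply (s : Set (ST n)) (ζ : ST n) [Decidable (ζ ∈ s)] :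
    ind s ζ = if ζ ∈ s then 1 else 0 := by
  unfold ind
  by_cases h : ζ ∈ s
  · rw [Set.indicator_of_mem h, if_pos h]
  · rw [Set.indicator_of_notMem h, if_neg h]

theorem norm_ind_le (s : Set (ST n)) (ζ : ST n) : ‖ind s ζ‖ ≤ 1 := by
  classical
  rw [ind_apply]
  split_ifs <;> simp

theorem measurable_ind {s : Set (ST n)} (hs : MeasurableSet s) : Measurable (ind s) :=
  measurable_const.indicator hs

theorem norm_ind_mul_le (m : ST n → ℂ) {R : ℝ} (hR : 0 ≤ R) (ζ : ST n) :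
    ‖ind {ζ | ‖m ζ‖ ≤ R} ζ * m ζ‖ ≤ R := by
  classical
  rw [ind_apply]
  split_ifs with h
  · simpa using h
  · simpa using hR

theorem BM_ind_mul {m : ST n → ℂ} (hm : Measurable m) {R : ℝ} (hR : 0 ≤ R) :
    BM fun ζ => ind {ζ | ‖m ζ‖ ≤ R} ζ * m ζ :=
  ⟨(measurable_ind (measurableSet_symbol_le hm R)).mul hm, R, norm_ind_mul_le m hR⟩

theorem tendsto_ind_symbol (m : ST n → ℂ) (ζ : ST n) :
    Tendsto (fun R : ℕ => ind {ζ | ‖m ζ‖ ≤ (R : ℝ)} ζ) atTop (𝓝 1) := by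
  classical
  refine tendsto_const_nhds.congr' ?_
  filter_upwards [eventually_ge_atTop ⌈‖m ζ‖⌉₊] with R hR
  rw [ind_apply, if_pos]
  exact (Nat.le_ceil _).trans (Nat.cast_le.2 hR)

theorem tendsto_fOp_ind {m : ST n → ℂ} (hm : Measurable m) (y : L2 n) :
    Tendsto (fun R : ℕ => fOp (ind {ζ | ‖m ζ‖ ≤ (R : ℝ)}) y) atTop (𝓝 y) := by
  have h1 : Tendsto (fun R : ℕ => mulOp (ind {ζ | ‖m ζ‖ ≤ (R : ℝ)}) (𝓕 y : L2 n)) atTop
      (𝓝 (mulOp (fun _ => (1 : ℂ)) (𝓕 y : L2 n))) := by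
    exact tendsto_mulOp (m := fun R : ℕ => ind {ζ | ‖m ζ‖ ≤ (R : ℝ)}) (m₀ := fun _ => (1 : ℂ))
      (C := 1) (fun R => measurable_ind (measurableSet_symbol_le hm R))
      measurable_const (fun R z => norm_ind_le _ z)
      (Eventually.of_forall fun ζ => tendsto_ind_symbol m ζ)
      (fun z => by simp) _
  rw [mulOp_const, one_smul] at h1
  have h2 := ((Lp.fourierTransformₗᵢ (ST n) ℂ).symm.continuous.tendsto (𝓕 y : L2 n)).comp h1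
  have h3 : (Lp.fourierTransformₗᵢ (ST n) ℂ).symm (𝓕 y : L2 n) = y :=
    (Lp.fourierTransformₗᵢ (ST n) ℂ).symm_apply_apply y
  rw [h3] at h2
  exact h2

/-- existence part of closedness: a uniform bound of the truncated multipliers -/
theorem FMul_exists_of_trunc {m : ST n → ℂ} (hm : Measurable m) (v : L2 n) {C : ℝ} (hC : 0 ≤ C)
    (h : ∀ R : ℕ, ‖fOp (fun ζ => ind {ζ | ‖m ζ‖ ≤ (R : ℝ)} ζ * m ζ) v‖ ≤ C) :
    ∃ x, FMul m v x ∧ ‖x‖ ≤ C := by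
  have hmeas : AEStronglyMeasurable (fun ζ => m ζ * (𝓕 v : L2 n) ζ)
      (volume : Measure (ST n)) :=
    hm.aestronglyMeasurable.mul (Lp.aestronglyMeasurable _)
  have hle : ∫⁻ ζ, ‖m ζ‖ₑ ^ 2 * ‖(𝓕 v : L2 n) ζ‖ₑ ^ 2 ≤ ENNReal.ofReal (C ^ 2) := by
    have e : ∀ ζ, ‖m ζ‖ₑ ^ 2 * ‖(𝓕 v : L2 n) ζ‖ₑ ^ 2 = liminf (fun R : ℕ =>
        ‖ind {ζ | ‖m ζ‖ ≤ (R : ℝ)} ζ * m ζ‖ₑ ^ 2 * ‖(𝓕 v : L2 n) ζ‖ₑ ^ 2) atTop := by
      intro ζ
      symm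
      apply Tendsto.liminf_eq
      refine tendsto_const_nhds.congr' ?_
      classical
      filter_upwards [eventually_ge_atTop ⌈‖m ζ‖⌉₊] with R hR
      rw [ind_apply, if_pos, one_mul]
      exact (Nat.le_ceil _).trans (Nat.cast_le.2 hR)
    calc ∫⁻ ζ, ‖m ζ‖ₑ ^ 2 * ‖(𝓕 v : L2 n) ζ‖ₑ ^ 2
        = ∫⁻ ζ, liminf (fun R : ℕ =>
        ‖ind {ζ | ‖m ζ‖ ≤ (R : ℝ)} ζ * m ζ‖ₑ ^ 2 * ‖(𝓕 v : L2 n) ζ‖ₑ ^ 2) atTop := by
          exact lintegral_congr e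
      _ ≤ liminf (fun R : ℕ => ∫⁻ ζ,
        ‖ind {ζ | ‖m ζ‖ ≤ (R : ℝ)} ζ * m ζ‖ₑ ^ 2 * ‖(𝓕 v : L2 n) ζ‖ₑ ^ 2) atTop := by
          apply lintegral_liminf_le'
          intro R
          exact (((measurable_ind (measurableSet_symbol_le hm R)).mul
            hm).enorm.pow_const 2).aemeasurable.mul
            ((Lp.aestronglyMeasurable (𝓕 v : L2 n)).enorm.pow_const 2)
      _ ≤ liminf (fun R : ℕ => ENNReal.ofReal (C ^ 2)) atTop := by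
          refine liminf_le_liminf (Eventually.of_forall fun R => ?_) (by isBoundedDefault)
            (by isBoundedDefault)
          show ∫⁻ ζ, ‖ind {ζ | ‖m ζ‖ ≤ (R : ℝ)} ζ * m ζ‖ₑ ^ 2 * ‖(𝓕 v : L2 n) ζ‖ₑ ^ 2 ≤ _
          rw [← ofReal_norm_sq_FMul (FMul_fOp (BM_ind_mul hm (Nat.cast_nonneg R)) v)]
          exact ENNReal.ofReal_le_ofReal (pow_le_pow_left₀ (norm_nonneg _) (h R) 2)
      _ = ENNReal.ofReal (C ^ 2) := by simp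
  have hmem : MemLp (fun ζ => m ζ * (𝓕 v : L2 n) ζ) 2 (volume : Measure (ST n)) := by
    refine ⟨hmeas, ?_⟩
    rw [eLpNorm_lt_top_iff_lintegral_rpow_enorm_lt_top (by norm_num) (by norm_num)]
    refine lt_of_le_of_lt ?_ (ENNReal.ofReal_lt_top (r := C ^ 2))
    refine le_trans (le_of_eq ?_) hle
    refine lintegral_congr fun ζ => ?_
    rw [enorm_mul, ← mul_pow]
    norm_num
  obtain ⟨x, hx⟩ := (FMul_exists_iff v).2 hmem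
  refine ⟨x, hx, ?_⟩
  have := ofReal_norm_sq_FMul hx
  rw [← this] at hle
  rw [ENNReal.ofReal_le_ofReal_iff (sq_nonneg _)] at hle
  exact (abs_le_of_sq_le_sq' hle hC).2

/-- closedness of multipliers -/
theorem FMul_closed {m : ST n → ℂ} {u w : ℕ → L2 n} {v : L2 n} (hm : Measurable m)
    (h : ∀ k, FMul m (u k) (w k)) (hlim : Tendsto u atTop (𝓝 v)) {C : ℝ}
    (hC : ∀ k, ‖w k‖ ≤ C) :
    ∃ x, FMul m v x ∧ ‖x‖ ≤ C ∧ ∀ y, Tendsto (fun k => ⟪y, w k⟫) atTop (𝓝 ⟪y, x⟫) := by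
  have hC0 : 0 ≤ C := (norm_nonneg _).trans (hC 0)
  have hP : ∀ R : ℕ, BM (ind {ζ | ‖m ζ‖ ≤ (R : ℝ)}) := fun R =>
    BM.ind (measurableSet_symbol_le hm R)
  have hPm : ∀ R : ℕ, BM fun ζ => ind {ζ | ‖m ζ‖ ≤ (R : ℝ)} ζ * m ζ := fun R =>
    BM_ind_mul hm (Nat.cast_nonneg R)
  obtain ⟨x, hx, hxC⟩ := FMul_exists_of_trunc hm v hC0 (fun R => by
    have h1 : Tendsto (fun k => ‖fOp (fun ζ => ind {ζ | ‖m ζ‖ ≤ (R : ℝ)} ζ * m ζ) (u k)‖) atTop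
        (𝓝 ‖fOp (fun ζ => ind {ζ | ‖m ζ‖ ≤ (R : ℝ)} ζ * m ζ) v‖) :=
      (((fOp (fun ζ => ind {ζ | ‖m ζ‖ ≤ (R : ℝ)} ζ * m ζ)).continuous.tendsto v).comp hlim).norm
    refine le_of_tendsto h1 (Eventually.of_forall fun k => ?_)
    rw [← (h k).fOp_mul (hP R) (hPm R)]
    refine (norm_fOp_le (C := 1) (hP R).meas (norm_ind_le _) _).trans ?_
    rw [one_mul]
    exact hC k)
  refine ⟨x, hx, hxC, fun y => ?_⟩
  rw [Metric.tendsto_atTop]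
  intro ε hε
  -- choose R
  have hy := tendsto_fOp_ind hm y
  rw [Metric.tendsto_atTop] at hy
  obtain ⟨R, hR⟩ := hy (ε / (2 * (2 * C + 1))) (by positivity)
  have hR' := hR R le_rfl
  rw [Metric.tendsto_atTop] at hlim
  obtain ⟨K, hK⟩ := hlim (ε / (2 * ((R + 1) * (‖y‖ + 1)))) (by positivity)
  refine ⟨K, fun k hk => ?_⟩
  have hk' := hK k hk
  rw [dist_eq_norm] at hk' hR' ⊢
  rw [← inner_sub_right]
  have hz : FMul m (u k - v) (w k - x) := (h k).sub hx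
  have hznorm : ‖w k - x‖ ≤ 2 * C := (norm_sub_le _ _).trans (by linarith only [hC k, hxC])
  have hsplit : ⟪y, w k - x⟫ = ⟪y, fOp (ind {ζ | ‖m ζ‖ ≤ (R : ℝ)}) (w k - x)⟫
      - ⟪fOp (ind {ζ | ‖m ζ‖ ≤ (R : ℝ)}) y - y, w k - x⟫ := by
    rw [inner_sub_left, inner_fOp (hP R)]
    have : (fun z => (starRingEnd ℂ) (ind {ζ | ‖m ζ‖ ≤ (R : ℝ)} z))
        = ind {ζ | ‖m ζ‖ ≤ (R : ℝ)} := by
      classical
      ext z
      rw [ind_apply]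
      split_ifs <;> simp
    rw [this]
    ring
  have hb1 : ‖⟪y, fOp (ind {ζ | ‖m ζ‖ ≤ (R : ℝ)}) (w k - x)⟫‖ ≤ ‖y‖ * (R * ‖u k - v‖) := by
    rw [hz.fOp_mul (hP R) (hPm R)]
    refine (norm_inner_le_norm _ _).trans (mul_le_mul_of_nonneg_left ?_ (norm_nonneg _))
    exact norm_fOp_le (hPm R).meas (norm_ind_mul_le m (Nat.cast_nonneg R)) _
  have hb2 : ‖⟪fOp (ind {ζ | ‖m ζ‖ ≤ (R : ℝ)}) y - y, w k - x⟫‖
      ≤ ‖fOp (ind {ζ | ‖m ζ‖ ≤ (R : ℝ)}) y - y‖ * (2 * C) :=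
    (norm_inner_le_norm _ _).trans (mul_le_mul_of_nonneg_left hznorm (norm_nonneg _))
  have hc1 : ‖y‖ * (R * ‖u k - v‖) < ε / 2 := by
    have h3 : ‖u k - v‖ * (2 * ((R + 1) * (‖y‖ + 1))) < ε := by
      rwa [lt_div_iff₀ (by positivity)] at hk'
    have h4 : ‖y‖ * (R * ‖u k - v‖) ≤ ‖u k - v‖ * ((R + 1) * (‖y‖ + 1)) := by
      have := norm_nonneg (u k - v)
      have := norm_nonneg y
      have hRn : (0 : ℝ) ≤ R := Nat.cast_nonneg R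
      have : ‖y‖ * (R * ‖u k - v‖) = ‖u k - v‖ * (R * ‖y‖) := by ring
      rw [this]
      refine mul_le_mul_of_nonneg_left ?_ (norm_nonneg _)
      nlinarith
    linarith only [h3, h4]
  have hc2 : ‖fOp (ind {ζ | ‖m ζ‖ ≤ (R : ℝ)}) y - y‖ * (2 * C) ≤ ε / 2 := by
    have h3 : ‖fOp (ind {ζ | ‖m ζ‖ ≤ (R : ℝ)}) y - y‖ * (2 * (2 * C + 1)) < ε := by
      rwa [lt_div_iff₀ (by positivity)] at hR'
    have := norm_nonneg (fOp (ind {ζ | ‖m ζ‖ ≤ (R : ℝ)}) y - y)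
    nlinarith only [h3, this]
  rw [hsplit]
  calc _ ≤ ‖⟪y, fOp (ind {ζ | ‖m ζ‖ ≤ (R : ℝ)}) (w k - x)⟫‖
      + ‖⟪fOp (ind {ζ | ‖m ζ‖ ≤ (R : ℝ)}) y - y, w k - x⟫‖ := norm_sub_le _ _
    _ < ε := by linarith only [hb1, hb2, hc1, hc2]

theorem FMul_of_tendsto {ι : Type*} {l : Filter ι} [l.NeBot] {m : ST n → ℂ} {u w : ι → L2 n}
    {v x : L2 n} (hm : Measurable m)
    (h : ∀ᶠ k in l, FMul m (u k) (w k)) (hlim : Tendsto u l (𝓝 v)) (hlim' : Tendsto w l (𝓝 x)) :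
    FMul m v x := by
  have hP : ∀ R : ℕ, BM (ind {ζ | ‖m ζ‖ ≤ (R : ℝ)}) := fun R =>
    BM.ind (measurableSet_symbol_le hm R)
  have hPm : ∀ R : ℕ, BM fun ζ => ind {ζ | ‖m ζ‖ ≤ (R : ℝ)} ζ * m ζ := fun R =>
    BM_ind_mul hm (Nat.cast_nonneg R)
  have key : ∀ R : ℕ, fOp (ind {ζ | ‖m ζ‖ ≤ (R : ℝ)}) x
      = fOp (fun ζ => ind {ζ | ‖m ζ‖ ≤ (R : ℝ)} ζ * m ζ) v := by
    intro R
    have h1 : Tendsto (fun k => fOp (ind {ζ | ‖m ζ‖ ≤ (R : ℝ)}) (w k)) l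
        (𝓝 (fOp (ind {ζ | ‖m ζ‖ ≤ (R : ℝ)}) x)) :=
      ((fOp (ind {ζ | ‖m ζ‖ ≤ (R : ℝ)})).continuous.tendsto x).comp hlim'
    have h2 : Tendsto (fun k => fOp (fun ζ => ind {ζ | ‖m ζ‖ ≤ (R : ℝ)} ζ * m ζ) (u k)) l
        (𝓝 (fOp (fun ζ => ind {ζ | ‖m ζ‖ ≤ (R : ℝ)} ζ * m ζ) v)) :=
      ((fOp (fun ζ => ind {ζ | ‖m ζ‖ ≤ (R : ℝ)} ζ * m ζ)).continuous.tendsto v).comp hlim
    refine tendsto_nhds_unique h1 (h2.congr' ?_)
    filter_upwards [h] with k hk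
    exact (hk.fOp_mul (hP R) (hPm R)).symm
  have hae : ∀ᵐ ζ ∂(volume : Measure (ST n)), ∀ R : ℕ,
      ind {ζ | ‖m ζ‖ ≤ (R : ℝ)} ζ * (𝓕 x : L2 n) ζ
        = ind {ζ | ‖m ζ‖ ≤ (R : ℝ)} ζ * m ζ * (𝓕 v : L2 n) ζ := by
    rw [ae_all_iff]
    intro R
    have h3 := fourier_fOp_coe (hP R) x
    rw [key R] at h3
    exact h3.symm.trans (fourier_fOp_coe (hPm R) v)
  unfold FMul
  filter_upwards [hae] with ζ hζ
  classical
  have := hζ ⌈‖m ζ‖⌉₊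
  have hmem : ζ ∈ {ζ' | ‖m ζ'‖ ≤ ((⌈‖m ζ‖⌉₊ : ℕ) : ℝ)} := by
    rw [Set.mem_ofPred_eq]
    exact Nat.le_ceil _
  rw [ind_apply, if_pos hmem, one_mul, one_mul] at this
  exact this
end

end Pool.Agent.W_eb6199
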