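import Pool.Agent.W_eb6199.Fou

open MeasureTheory Complex Filter Topology
open scoped FourierTransform ComplexInnerProductSpace ENNReal NNReal SchwartzMap

namespace Pool.Agent.W_eb6199

noncomputable section

variable {n : ℕ}

/-! the Fourier transform of `L¹ ∩ L²` functions is bounded by the `L¹` norm. -/

theorem integrable_of_N1 (u : L2 n) (hu : N1 u ≠ ⊤) : Integrable (u : ST n → ℂ) :=
  ⟨Lp.aestronglyMeasurable u, lt_top_iff_ne_top.2 hu⟩

/-- the Plancherel transform of an integrable `L²` function is given by the Fourier integral -/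
theorem fourier_ae_eq (u : L2 n) (hu : Integrable (u : ST n → ℂ)) :
    ∀ᵐ ζ ∂(volume : Measure (ST n)), (𝓕 u : L2 n) ζ = 𝓕 (u : ST n → ℂ) ζ := by
  have hcont : Continuous (𝓕 (u : ST n → ℂ)) :=
    VectorFourier.fourierIntegral_continuous Real.continuous_fourierChar
      (L := innerₗ (ST n)) continuous_inner hu
  refine ae_eq_of_integral_contDiff_smul_eq
    ((Lp.memLp (𝓕 u : L2 n)).locallyIntegrable (by norm_num)) hcont.locallyIntegrable ?_
  intro g g_smooth g_cpt
  have hg₁ : HasCompactSupport (Complex.ofRealCLM ∘ g) := g_cpt.comp_left rfl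
  have hg₂ : ContDiff ℝ (((⊤ : ℕ∞)) : WithTop ℕ∞) (Complex.ofRealCLM ∘ g) := by fun_prop
  set φ : 𝓢(ST n, ℂ) := hg₁.toSchwartzMap hg₂ with hφ
  have hφx : ∀ x, φ x = (g x : ℂ) := fun x => rfl
  have h1 : ∫ x, g x • (𝓕 u : L2 n) x = ∫ x, φ x • (𝓕 u : L2 n) x := by
    refine integral_congr_ae (Filter.Eventually.of_forall fun x => ?_)
    simp only [hφx, smul_eq_mul, Complex.real_smul]
  have h2 : ∫ x, φ x • (𝓕 u : L2 n) x = ∫ x, (𝓕 φ) x • u x := by
    rw [← Lp.toTemperedDistribution_apply, ← Lp.fourier_toTemperedDistribution_eq,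
      TemperedDistribution.fourier_apply, Lp.toTemperedDistribution_apply]
  have h3 : ∫ x, (𝓕 φ) x • u x = ∫ x, φ x • 𝓕 (u : ST n → ℂ) x := by
    simpa using! VectorFourier.integral_fourierIntegral_smul_eq_flip (L := innerₗ (ST n))
      Real.continuous_fourierChar continuous_inner φ.integrable hu
  rw [h1, h2, h3]
  refine integral_congr_ae (Filter.Eventually.of_forall fun x => ?_)
  simp only [hφx, smul_eq_mul, Complex.real_smul]

/-- the Fourier transform of an integrable `L²` function is bounded by the `L¹` norm -/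
theorem fourier_norm_le (u : L2 n) (hu : N1 u ≠ ⊤) :
    ∀ᵐ ζ ∂(volume : Measure (ST n)), ‖(𝓕 u : L2 n) ζ‖ ≤ (N1 u).toReal := by
  have hi := integrable_of_N1 u hu
  filter_upwards [fourier_ae_eq u hi] with ζ hζ
  rw [hζ]
  have h := VectorFourier.norm_fourierIntegral_le_integral_norm Real.fourierChar
    (volume : Measure (ST n)) (innerₗ (ST n)) (u : ST n → ℂ) ζ
  refine h.trans (le_of_eq ?_)
  rw [integral_norm_eq_lintegral_enorm hi.1]
  rfl

end

end Pool.Agent.W_eb6199
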