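import Pool.Agent.W_eb6199.Form

open MeasureTheory Complex Filter Topology
open scoped FourierTransform ComplexInnerProductSpace ENNReal NNReal

namespace Pool.Agent.W_eb6199

noncomputable section

variable {n : ℕ}

/-! T12: existence and uniqueness of the resolvent (Lax-Milgram). -/

/-- `1 + ∑ |gsym j|²` -/
def rsq (ζ : ST n) : ℝ := 1 + ∑ j : Fin (n + 1), ‖gsym j ζ‖ ^ 2

/-- `(1 + ∑ |gsym j|²)^{-1/2}` -/
def rp (ζ : ST n) : ℂ := ((Real.sqrt (rsq ζ))⁻¹ : ℝ)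

theorem one_le_rsq (ζ : ST n) : 1 ≤ rsq ζ := by
  unfold rsq
  have : 0 ≤ ∑ j : Fin (n + 1), ‖gsym j ζ‖ ^ 2 := Finset.sum_nonneg fun j _ => by positivity
  linarith only [this]

theorem sqrt_rsq_pos (ζ : ST n) : 0 < Real.sqrt (rsq ζ) :=
  Real.sqrt_pos.mpr (lt_of_lt_of_le one_pos (one_le_rsq ζ))

theorem measurable_rsq : Measurable (rsq : ST n → ℝ) := by
  unfold rsq
  refine measurable_const.add (Finset.measurable_sum _ fun j _ => ?_)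
  exact (measurable_gsym j).norm.pow_const 2

theorem norm_rp (ζ : ST n) : ‖rp ζ‖ = (Real.sqrt (rsq ζ))⁻¹ := by
  unfold rp
  rw [Complex.norm_real, Real.norm_eq_abs, abs_of_nonneg (inv_nonneg.mpr (Real.sqrt_nonneg _))]

theorem measurable_rp : Measurable (rp : ST n → ℂ) := by
  unfold rp
  exact Complex.measurable_ofReal.comp measurable_rsq.sqrt.inv

theorem bm_rp : BM (rp : ST n → ℂ) := by
  refine ⟨measurable_rp, 1, fun ζ => ?_⟩
  rw [norm_rp]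
  apply inv_le_one_of_one_le₀
  rw [Real.one_le_sqrt]
  exact one_le_rsq ζ

theorem res_norm_gsym_le (j : Fin (n + 1)) (ζ : ST n) : ‖gsym j ζ‖ ≤ Real.sqrt (rsq ζ) := by
  apply Real.le_sqrt_of_sq_le
  unfold rsq
  have := Finset.single_le_sum (f := fun j : Fin (n + 1) => ‖gsym j ζ‖ ^ 2)
    (fun j _ => by positivity) (Finset.mem_univ j)
  linarith only [this]

theorem bm_gsym_rp (j : Fin (n + 1)) : BM (fun ζ : ST n => gsym j ζ * rp ζ) := by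
  refine ⟨(measurable_gsym j).mul measurable_rp, 1, fun ζ => ?_⟩
  rw [norm_mul, norm_rp, ← div_eq_mul_inv, div_le_one (sqrt_rsq_pos ζ)]
  exact res_norm_gsym_le j ζ

theorem sq_sum_rp (ζ : ST n) :
    ‖rp ζ‖ ^ 2 + ∑ j : Fin (n + 1), ‖gsym j ζ * rp ζ‖ ^ 2 = 1 := by
  have h1 : ∀ j : Fin (n + 1), ‖gsym j ζ * rp ζ‖ ^ 2 = ‖gsym j ζ‖ ^ 2 * ‖rp ζ‖ ^ 2 := by
    intro j
    rw [norm_mul, mul_pow]
  simp only [h1]
  rw [← Finset.sum_mul]
  have h2 : ‖rp ζ‖ ^ 2 = (rsq ζ)⁻¹ := by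
    rw [norm_rp, inv_pow, Real.sq_sqrt (le_trans zero_le_one (one_le_rsq ζ))]
  rw [h2]
  have h3 : rsq ζ = 1 + ∑ j : Fin (n + 1), ‖gsym j ζ‖ ^ 2 := rfl
  have h4 : rsq ζ ≠ 0 := (lt_of_lt_of_le one_pos (one_le_rsq ζ)).ne'
  calc (rsq ζ)⁻¹ + (∑ j : Fin (n + 1), ‖gsym j ζ‖ ^ 2) * (rsq ζ)⁻¹
      = (1 + ∑ j : Fin (n + 1), ‖gsym j ζ‖ ^ 2) * (rsq ζ)⁻¹ := by ring
    _ = rsq ζ * (rsq ζ)⁻¹ := by rw [← h3]
    _ = 1 := mul_inv_cancel₀ h4

/-- the smoothing operator with range `En` -/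
def Gr : L2 n →L[ℂ] L2 n := fOp rp

/-- the operators `D j ∘ Gr` -/
def Kr (j : Fin (n + 1)) : L2 n →L[ℂ] L2 n := fOp (fun ζ => gsym j ζ * rp ζ)

theorem Gr_mem (w : L2 n) : Gr w ∈ En n := En_fOp_of_bdd bm_rp (fun j => bm_gsym_rp j) w

theorem D_Gr (j : Fin (n + 1)) (w : L2 n) : D j (Gr w) = Kr j w :=
  D_eq (FMul_fOp_of_bdd bm_rp (bm_gsym_rp j) w)

theorem fourier_injective {u v : L2 n} (h : (𝓕 u : L2 n) = 𝓕 v) : u = v :=
  (Lp.fourierTransformₗᵢ (ST n) ℂ).injective h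

theorem exists_Gr {u : L2 n} (hu : u ∈ En n) : ∃ w, Gr w = u := by
  have hmeas : Measurable (fun ζ : ST n => ((Real.sqrt (rsq ζ) : ℝ) : ℂ)) :=
    Complex.measurable_ofReal.comp measurable_rsq.sqrt
  have h1 : MemLp (fun ζ => ((Real.sqrt (rsq ζ) : ℝ) : ℂ) * (𝓕 u : L2 n) ζ) 2
      (volume : Measure (ST n)) := by
    have h2 : ∀ j : Fin (n + 1), MemLp (fun ζ => gsym j ζ * (𝓕 u : L2 n) ζ) 2
        (volume : Measure (ST n)) := fun j => (FMul_exists_iff u).mp (hu j)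
    have h3 : MemLp (fun ζ => ‖(𝓕 u : L2 n) ζ‖ + ∑ j : Fin (n + 1),
        ‖gsym j ζ * (𝓕 u : L2 n) ζ‖) 2 (volume : Measure (ST n)) := by
      refine (Lp.memLp (𝓕 u : L2 n)).norm.add ?_
      exact memLp_finsetSum _ fun j _ => (h2 j).norm
    refine h3.mono (hmeas.aestronglyMeasurable.mul (Lp.memLp (𝓕 u : L2 n)).1) ?_
    refine Filter.Eventually.of_forall fun ζ => ?_
    have h4 : Real.sqrt (rsq ζ) ≤ 1 + ∑ j : Fin (n + 1), ‖gsym j ζ‖ := by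
      rw [Real.sqrt_le_left (by positivity)]
      unfold rsq
      have h5 : ∑ j : Fin (n + 1), ‖gsym j ζ‖ ^ 2 ≤ (∑ j : Fin (n + 1), ‖gsym j ζ‖) ^ 2 :=
        Finset.sum_sq_le_sq_sum_of_nonneg fun j _ => norm_nonneg _
      have h6 : 0 ≤ ∑ j : Fin (n + 1), ‖gsym j ζ‖ := Finset.sum_nonneg fun j _ => norm_nonneg _
      nlinarith only [h5, h6]
    have h7 : 0 ≤ ‖(𝓕 u : L2 n) ζ‖ + ∑ j : Fin (n + 1), ‖gsym j ζ * (𝓕 u : L2 n) ζ‖ := by
      positivity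
    rw [Real.norm_of_nonneg h7, norm_mul, Complex.norm_real,
      Real.norm_of_nonneg (Real.sqrt_nonneg _)]
    calc Real.sqrt (rsq ζ) * ‖(𝓕 u : L2 n) ζ‖
        ≤ (1 + ∑ j : Fin (n + 1), ‖gsym j ζ‖) * ‖(𝓕 u : L2 n) ζ‖ :=
          mul_le_mul_of_nonneg_right h4 (norm_nonneg _)
      _ = ‖(𝓕 u : L2 n) ζ‖ + ∑ j : Fin (n + 1), ‖gsym j ζ * (𝓕 u : L2 n) ζ‖ := by
          rw [add_mul, one_mul, Finset.sum_mul]
          simp only [norm_mul]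
  obtain ⟨w, hw⟩ := (FMul_exists_iff (m := fun ζ : ST n => ((Real.sqrt (rsq ζ) : ℝ) : ℂ)) u).mpr h1
  refine ⟨w, fourier_injective ?_⟩
  ext1
  filter_upwards [fourier_fOp_coe bm_rp w, hw] with ζ h2 h3
  have h4 : ((Real.sqrt (rsq ζ) : ℝ) : ℂ) ≠ 0 := by
    exact_mod_cast (sqrt_rsq_pos ζ).ne'
  unfold Gr
  rw [h2, h3]
  unfold rp
  push_cast
  rw [← mul_assoc, inv_mul_cancel₀ h4, one_mul]

theorem norm_sq_le_Gr (w : L2 n) : ‖w‖ ^ 2 ≤ ‖Gr w‖ ^ 2 + ∑ j : Fin (n + 1), ‖Kr j w‖ ^ 2 := by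
  have h := sum_norm_sq_le (n := n) (ι := Unit) Finset.univ (m := fun _ _ => (1 : ℂ)) (u := w)
    (w := fun _ => w) (fun _ => measurable_const)
    (fun _ => Filter.Eventually.of_forall fun ζ => (one_mul _).symm)
    (κ := Option (Fin (n + 1))) Finset.univ
    (m₀ := fun k => k.elim rp fun j ζ => gsym j ζ * rp ζ)
    (by
      rintro (_ | j)
      · exact measurable_rp
      · exact (bm_gsym_rp j).meas)
    (w₀ := fun k => k.elim (Gr w) fun j => Kr j w)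
    (by
      rintro (_ | j)
      · exact FMul_fOp bm_rp w
      · exact FMul_fOp (bm_gsym_rp j) w) (C := 1) zero_le_one (by
      intro ζ
      rw [Fintype.sum_option]
      simp only [Option.elim_none, Option.elim_some]
      rw [sq_sum_rp]
      simp)
  rw [Fintype.sum_option] at h
  simpa using h

theorem res_form_sub_left (A : Coef n) {u u' v : L2 n} (hu : u ∈ En n) (hu' : u' ∈ En n) :
    form A (u - u') v = form A u v - form A u' v := by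
  have h1 : u - u' = u + (-1 : ℂ) • u' := by
    rw [neg_smul, one_smul, sub_eq_add_neg]
  rw [h1, form_add_left A hu (En_smul _ hu'), form_smul_left A _ hu']
  ring

/-- the operator representing the form on `L²` through `Gr` -/
def Tr (A : Coef n) (l : ℝ) : L2 n →L[ℂ] L2 n :=
  (ContinuousLinearMap.adjoint Gr).comp Gr + ((l : ℂ) ^ 2) •
    ((A.sg : ℂ) • (ContinuousLinearMap.adjoint (Kr 0)).comp (Ht.comp (Kr 0)) +
      ∑ i : Fin n, (ContinuousLinearMap.adjoint (Kr i.succ)).comp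
        (∑ j : Fin n, (A.mul i j).comp (Kr j.succ)))

theorem Tr_spec (A : Coef n) (l : ℝ) (w w' : L2 n) :
    ⟪w', Tr A l w⟫ = ⟪Gr w', Gr w⟫ + (l : ℂ) ^ 2 * form A (Gr w) (Gr w') := by
  unfold Tr form
  simp only [add_apply, smul_apply,
    ContinuousLinearMap.comp_apply, sum_apply, inner_add_right,
    inner_smul_right, inner_sum, ContinuousLinearMap.adjoint_inner_right, D_Gr, Coef.app]

attribute [local irreducible] Tr Kr

theorem inner_add_Ht (δ : ℝ) (u : L2 n) : (⟪u + (δ : ℂ) • Ht u, u⟫ : ℂ).re = ‖u‖ ^ 2 := by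
  rw [inner_add_left, inner_smul_left, Complex.conj_ofReal, Complex.add_re, Complex.re_ofReal_mul]
  have h1 : (⟪Ht u, u⟫ : ℂ).re = 0 := by
    rw [inner_Ht, Complex.neg_re, re_inner_Ht_self, neg_zero]
  have h2 : (⟪u, u⟫ : ℂ).re = ‖u‖ ^ 2 := by
    have := inner_self_eq_norm_sq (𝕜 := ℂ) u
    simpa using this
  rw [h1, h2, mul_zero, add_zero]

theorem Gr_Ht (w : L2 n) : Gr (Ht w) = Ht (Gr w) := by
  have hb : BM (fun ζ : ST n => I * (Real.sign (ζ 0) : ℂ)) := by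
    refine ⟨?_, 1, fun ζ => ?_⟩
    · refine measurable_const.mul (Complex.measurable_ofReal.comp ?_)
      have h1 : Measurable (fun ζ : ST n => ζ 0) := by fun_prop
      exact Measurable.ite (measurableSet_lt h1 measurable_const) measurable_const
        (Measurable.ite (measurableSet_lt measurable_const h1) measurable_const measurable_const)
    · rw [norm_mul, Complex.norm_I, one_mul, Complex.norm_real]
      rcases Real.sign_apply_eq (ζ 0) with h | h | h <;> rw [h] <;> simp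
  unfold Gr Ht
  rw [fOp_fOp bm_rp hb, fOp_fOp hb bm_rp]
  congr 2
  funext z
  ring

theorem isUnit_of_coercive (T : L2 n →L[ℂ] L2 n) {κ : ℝ} (hκ : 0 < κ)
    (h : ∀ w, κ * ‖w‖ ^ 2 ≤ (⟪w, T w⟫ : ℂ).re) : IsUnit T := by
  refine ContinuousLinearMap.isUnit_of_forall_le_norm_inner_map T (c := ⟨κ, hκ.le⟩) hκ fun w => ?_
  have h1 : ‖(⟪T w, w⟫ : ℂ)‖ = ‖(⟪w, T w⟫ : ℂ)‖ := norm_inner_symm _ _
  rw [h1]
  calc ‖w‖ ^ 2 * κ = κ * ‖w‖ ^ 2 := mul_comm _ _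
    _ ≤ (⟪w, T w⟫ : ℂ).re := h w
    _ ≤ ‖(⟪w, T w⟫ : ℂ)‖ := Complex.re_le_norm _

theorem isUnit_Tr (A : Coef n) {l : ℝ} (hl : 0 < l) : IsUnit (Tr A l) := by
  obtain ⟨δ, c, hδ, hδ1, hc, hc1, hco⟩ := exists_coercive A
  let V : L2 n →L[ℂ] L2 n := 1 + ((δ * A.sg : ℝ) : ℂ) • Ht
  have hV : ∀ w, V w = w + ((δ * A.sg : ℝ) : ℂ) • Ht w := fun w => rfl
  have hVu : IsUnit V := by
    refine isUnit_of_coercive V one_pos fun w => ?_
    rw [one_mul, ← inner_add_Ht (δ * A.sg) w, hV]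
    rw [← inner_conj_symm, Complex.conj_re]
  have hVa : IsUnit (ContinuousLinearMap.adjoint V) := by
    have := hVu.star
    rwa [ContinuousLinearMap.star_eq_adjoint] at this
  have hGV : ∀ w, Gr (V w) = Gr w + ((δ * A.sg : ℝ) : ℂ) • Ht (Gr w) := by
    intro w
    rw [hV, map_add, map_smul, Gr_Ht]
  have hT' : IsUnit (ContinuousLinearMap.adjoint V * Tr A l) := by
    refine isUnit_of_coercive _ (κ := min 1 (l ^ 2 * c)) (by positivity) fun w => ?_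
    rw [mul_apply_eq_comp, ContinuousLinearMap.adjoint_inner_right, Tr_spec, hGV,
      Complex.add_re, inner_add_Ht]
    have h1 : ((l : ℂ) ^ 2 * form A (Gr w) (Gr w + ((δ * A.sg : ℝ) : ℂ) • Ht (Gr w))).re
        = l ^ 2 * (form A (Gr w) (Gr w + ((δ * A.sg : ℝ) : ℂ) • Ht (Gr w))).re := by
      rw [← Complex.ofReal_pow, Complex.re_ofReal_mul]
    rw [h1]
    have h2 := hco (Gr w) (Gr_mem w)
    have h3 := norm_sq_le_Gr w
    have h4 : eD (Gr w) = ∑ j : Fin (n + 1), ‖Kr j w‖ ^ 2 := by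
      unfold eD
      simp only [D_Gr]
    rw [← h4] at h3
    have h5 : 0 ≤ eD (Gr w) := eD_nonneg _
    have h6 : min 1 (l ^ 2 * c) ≤ 1 := min_le_left _ _
    have h7 : min 1 (l ^ 2 * c) ≤ l ^ 2 * c := min_le_right _ _
    have h8 : 0 ≤ min 1 (l ^ 2 * c) := by positivity
    calc min 1 (l ^ 2 * c) * ‖w‖ ^ 2
        ≤ min 1 (l ^ 2 * c) * (‖Gr w‖ ^ 2 + eD (Gr w)) := mul_le_mul_of_nonneg_left h3 h8
      _ = min 1 (l ^ 2 * c) * ‖Gr w‖ ^ 2 + min 1 (l ^ 2 * c) * eD (Gr w) := by ring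
      _ ≤ 1 * ‖Gr w‖ ^ 2 + (l ^ 2 * c) * eD (Gr w) :=
          add_le_add (mul_le_mul_of_nonneg_right h6 (by positivity))
            (mul_le_mul_of_nonneg_right h7 h5)
      _ = ‖Gr w‖ ^ 2 + l ^ 2 * (c * eD (Gr w)) := by ring
      _ ≤ _ := by
          have := mul_le_mul_of_nonneg_left h2 (sq_nonneg l)
          linarith only [this]
  obtain ⟨a, ha⟩ := hVa
  obtain ⟨b, hb⟩ := hT'
  refine ⟨a⁻¹ * b, ?_⟩
  rw [Units.val_mul, hb, ← ha, ← mul_assoc, Units.inv_mul, one_mul]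

theorem exists_inv_Tr (A : Coef n) {l : ℝ} (hl : 0 < l) :
    ∃ R : L2 n →L[ℂ] L2 n, ∀ x, Tr A l (R x) = x := by
  obtain ⟨a, ha⟩ := isUnit_Tr A hl
  refine ⟨((a⁻¹ : (L2 n →L[ℂ] L2 n)ˣ) : L2 n →L[ℂ] L2 n), fun x => ?_⟩
  rw [← ha, ← mul_apply_eq_comp, Units.mul_inv, one_apply_eq_self]

theorem exists_J (A : Coef n) {l : ℝ} (hl : 0 < l) :
    ∃ T : L2 n →L[ℂ] L2 n, ∀ f, IsRes A l f 0 (T f) := by
  obtain ⟨R, hR⟩ := exists_inv_Tr A hl
  refine ⟨Gr.comp (R.comp (ContinuousLinearMap.adjoint Gr)), fun f => ⟨Gr_mem _, ?_⟩⟩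
  intro v hv
  obtain ⟨w', rfl⟩ := exists_Gr hv
  simp only [ContinuousLinearMap.comp_apply]
  refine (Tr_spec A l (R (ContinuousLinearMap.adjoint Gr f)) w').symm.trans ?_
  have h4 : (⟪w', Tr A l (R (ContinuousLinearMap.adjoint Gr f))⟫ : ℂ) = ⟪Gr w', f⟫ :=
    (congrArg (fun x : L2 n => (⟪w', x⟫ : ℂ)) (hR (ContinuousLinearMap.adjoint Gr f))).trans
      (ContinuousLinearMap.adjoint_inner_right _ _ _)
  rw [h4]
  simp

theorem exists_S (A : Coef n) {l : ℝ} (hl : 0 < l) :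
    ∃ T : (Fin n → L2 n) →ₗ[ℂ] L2 n, ∀ F, IsRes A l 0 F (T F) := by
  obtain ⟨R, hR⟩ := exists_inv_Tr A hl
  obtain ⟨B, hB⟩ : ∃ B : (Fin n → L2 n) →ₗ[ℂ] L2 n,
      ∀ F, B F = ∑ i : Fin n, ContinuousLinearMap.adjoint (Kr i.succ) (F i) := by
    refine ⟨∑ i : Fin n,
      ((ContinuousLinearMap.adjoint (Kr i.succ) : L2 n →L[ℂ] L2 n) : L2 n →ₗ[ℂ] L2 n) ∘ₗ
        (LinearMap.proj i : (Fin n → L2 n) →ₗ[ℂ] L2 n), fun F => ?_⟩
    simp only [LinearMap.sum_apply, LinearMap.comp_apply, LinearMap.proj_apply,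
      ContinuousLinearMap.coe_coe]
  obtain ⟨T, hT⟩ : ∃ T : (Fin n → L2 n) →ₗ[ℂ] L2 n, ∀ F, T F = Gr (R ((l : ℂ) • B F)) :=
    ⟨((Gr.comp R : L2 n →L[ℂ] L2 n) : L2 n →ₗ[ℂ] L2 n) ∘ₗ ((l : ℂ) • B), fun F => rfl⟩
  refine ⟨T, fun F => ?_⟩
  have hT' := hT F
  generalize T F = u at hT' ⊢
  subst hT'
  refine ⟨Gr_mem _, ?_⟩
  intro v hv
  obtain ⟨w', rfl⟩ := exists_Gr hv
  refine (Tr_spec A l (R ((l : ℂ) • B F)) w').symm.trans ?_
  have h2 : (⟪w', (l : ℂ) • B F⟫ : ℂ)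
      = (l : ℂ) * ∑ i : Fin n, ⟪w', ContinuousLinearMap.adjoint (Kr i.succ) (F i)⟫ := by
    refine (inner_smul_right w' (B F) (l : ℂ)).trans (congrArg (fun x : ℂ => (l : ℂ) * x) ?_)
    exact (congrArg (fun x : L2 n => (⟪w', x⟫ : ℂ)) (hB F)).trans (inner_sum _ _ _)
  have h3 : (⟪Gr w', (0 : L2 n)⟫ : ℂ) = 0 := inner_zero_right _
  have h4 : (⟪w', Tr A l (R ((l : ℂ) • B F))⟫ : ℂ) = ⟪w', (l : ℂ) • B F⟫ :=
    congrArg (fun x : L2 n => (⟪w', x⟫ : ℂ)) (hR ((l : ℂ) • B F))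
  have h5 : (⟪Gr w', (0 : L2 n)⟫ : ℂ) + (l : ℂ) * ∑ i : Fin n, ⟪D i.succ (Gr w'), F i⟫
      = (l : ℂ) * ∑ i : Fin n, ⟪w', ContinuousLinearMap.adjoint (Kr i.succ) (F i)⟫ := by
    refine (congrArg (fun x : ℂ => x + (l : ℂ) * ∑ i : Fin n, ⟪D i.succ (Gr w'), F i⟫)
      h3).trans ((zero_add _).trans ?_)
    refine congrArg (fun x : ℂ => (l : ℂ) * x) (Finset.sum_congr rfl fun i _ => ?_)
    refine (congrArg (fun x : L2 n => (⟪x, F i⟫ : ℂ)) (D_Gr i.succ w')).trans ?_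
    exact (ContinuousLinearMap.adjoint_inner_right _ _ _).symm
  exact h4.trans (h2.trans h5.symm)

theorem IsRes.unique {A : Coef n} {l : ℝ} (hl : 0 < l) {f : L2 n} {F : Fin n → L2 n}
    {u u' : L2 n} (h : IsRes A l f F u) (h' : IsRes A l f F u') : u = u' := by
  obtain ⟨δ, c, hδ, hδ1, hc, hc1, hco⟩ := exists_coercive A
  have hz : u - u' ∈ En n := En_sub h.1 h'.1
  have hv : (u - u') + ((δ * A.sg : ℝ) : ℂ) • Ht (u - u') ∈ En n :=
    En_add hz (En_smul _ (En_Ht hz))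
  set v := (u - u') + ((δ * A.sg : ℝ) : ℂ) • Ht (u - u') with hvdef
  have h1 := h.2 v hv
  have h2 := h'.2 v hv
  have h3 : (⟪v, u - u'⟫ : ℂ) + (l : ℂ) ^ 2 * form A (u - u') v = 0 := by
    rw [inner_sub_right, res_form_sub_left A h.1 h'.1]
    linear_combination h1 - h2
  have h4 := congrArg Complex.re h3
  rw [Complex.add_re, Complex.zero_re, ← Complex.ofReal_pow, Complex.re_ofReal_mul, hvdef,
    inner_add_Ht] at h4
  have h5 := hco (u - u') hz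
  have h6 : 0 ≤ eD (u - u') := eD_nonneg _
  have h7 : 0 ≤ l ^ 2 * (form A (u - u') ((u - u') + ((δ * A.sg : ℝ) : ℂ) • Ht (u - u'))).re :=
    mul_nonneg (sq_nonneg _) (le_trans (mul_nonneg hc.le h6) h5)
  have h8 : ‖u - u'‖ ^ 2 ≤ 0 := by linarith only [h4, h7]
  have h9 : ‖u - u'‖ = 0 := by
    have := pow_eq_zero_iff (two_ne_zero) |>.mp (le_antisymm h8 (sq_nonneg _))
    exact this
  exact sub_eq_zero.mp (norm_eq_zero.mp h9)

theorem J_spec (A : Coef n) {l : ℝ} (hl : 0 < l) (f : L2 n) : IsRes A l f 0 (J A l f) := by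
  unfold J
  rw [dif_pos (exists_J A hl)]
  exact (exists_J A hl).choose_spec f

theorem S_spec (A : Coef n) {l : ℝ} (hl : 0 < l) (F : Fin n → L2 n) :
    IsRes A l 0 F (S A l F) := by
  unfold S
  rw [dif_pos (exists_S A hl)]
  exact (exists_S A hl).choose_spec F

/-- every solution is `J f + S F` -/
theorem IsRes.eq {A : Coef n} {l : ℝ} (hl : 0 < l) {f : L2 n} {F : Fin n → L2 n}
    {u : L2 n} (h : IsRes A l f F u) : u = J A l f + S A l F := by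
  refine h.unique hl ⟨En_add (J_spec A hl f).1 (S_spec A hl F).1, fun v hv => ?_⟩
  have h1 := (J_spec A hl f).2 v hv
  have h2 := (S_spec A hl F).2 v hv
  rw [inner_add_right, form_add_left A (J_spec A hl f).1 (S_spec A hl F).1]
  simp only [Pi.zero_apply, inner_zero_right, Finset.sum_const_zero, mul_zero, add_zero,
    zero_add] at h1 h2
  linear_combination h1 + h2

theorem J_mem (A : Coef n) {l : ℝ} (hl : 0 < l) (f : L2 n) : J A l f ∈ En n :=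
  (J_spec A hl f).1

theorem S_mem (A : Coef n) {l : ℝ} (hl : 0 < l) (F : Fin n → L2 n) : S A l F ∈ En n :=
  (S_spec A hl F).1

theorem norm_J_le (A : Coef n) {l : ℝ} (hl : 0 < l) (f : L2 n) : ‖J A l f‖ ≤ ‖f‖ := by
  have h := (J_spec A hl f).2 _ (J_mem A hl f)
  have h4 := congrArg Complex.re h
  rw [Complex.add_re, ← Complex.ofReal_pow, Complex.re_ofReal_mul] at h4
  have h2 : (⟪J A l f, J A l f⟫ : ℂ).re = ‖J A l f‖ ^ 2 := by
    have := inner_self_eq_norm_sq (𝕜 := ℂ) (J A l f)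
    simpa using this
  rw [h2] at h4
  simp only [Pi.zero_apply, inner_zero_right, Finset.sum_const_zero, mul_zero, add_zero] at h4
  have h5 := re_form_self A (J_mem A hl f)
  have h6 : 0 ≤ gD (J A l f) := gD_nonneg _
  have h7 : 0 ≤ l ^ 2 * (form A (J A l f) (J A l f)).re :=
    mul_nonneg (sq_nonneg _) (le_trans (mul_nonneg A.ν_pos.le h6) h5)
  have h8 : (⟪J A l f, f⟫ : ℂ).re ≤ ‖J A l f‖ * ‖f‖ :=
    (Complex.re_le_norm _).trans (norm_inner_le_norm _ _)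
  by_contra hcon
  push Not at hcon
  have h9 : 0 < ‖J A l f‖ := lt_of_le_of_lt (norm_nonneg _) hcon
  nlinarith only [h4, h7, h8, hcon, h9]

/-- energy bound for all solutions -/
theorem exists_res_bound (A : Coef n) : ∃ C : ℝ, 0 < C ∧ ∀ l : ℝ, 0 < l →
    ∀ (f : L2 n) (F : Fin n → L2 n) (u : L2 n), IsRes A l f F u →
    ‖u‖ ^ 2 + l ^ 2 * eD u ≤ C * (‖f‖ ^ 2 + ∑ i, ‖F i‖ ^ 2) := by
  obtain ⟨δ, c, hδ, hδ1, hc, hc1, hco⟩ := exists_coercive A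
  refine ⟨(2 / c) * (2 / c), by positivity, fun l hl f F u hu => ?_⟩
  have hv : u + ((δ * A.sg : ℝ) : ℂ) • Ht u ∈ En n := En_add hu.1 (En_smul _ (En_Ht hu.1))
  have h1 := congrArg Complex.re (hu.2 _ hv)
  rw [Complex.add_re, ← Complex.ofReal_pow, Complex.re_ofReal_mul, inner_add_Ht] at h1
  have h2 := hco u hu.1
  have hds : ‖((δ * A.sg : ℝ) : ℂ)‖ ≤ 1 := by
    rw [Complex.norm_real, norm_mul, Real.norm_of_nonneg hδ.le]
    rcases A.sg_eq with h | h <;> rw [h] <;> simpa using hδ1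
  have hHt : ∀ x : L2 n, ‖x + ((δ * A.sg : ℝ) : ℂ) • Ht x‖ ≤ 2 * ‖x‖ := by
    intro x
    calc ‖x + ((δ * A.sg : ℝ) : ℂ) • Ht x‖
        ≤ ‖x‖ + ‖((δ * A.sg : ℝ) : ℂ) • Ht x‖ := norm_add_le _ _
      _ = ‖x‖ + ‖((δ * A.sg : ℝ) : ℂ)‖ * ‖Ht x‖ := by rw [norm_smul]
      _ ≤ ‖x‖ + 1 * ‖x‖ :=
          add_le_add le_rfl (mul_le_mul hds (norm_Ht_le x) (norm_nonneg _) zero_le_one)
      _ = 2 * ‖x‖ := by ring
  have h3 : (⟪u + ((δ * A.sg : ℝ) : ℂ) • Ht u, f⟫ +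
      (l : ℂ) * ∑ i : Fin n, ⟪D i.succ (u + ((δ * A.sg : ℝ) : ℂ) • Ht u), F i⟫ : ℂ).re
      ≤ 2 * ‖u‖ * ‖f‖ + l * ∑ i : Fin n, 2 * ‖D i.succ u‖ * ‖F i‖ := by
    refine (Complex.re_le_norm _).trans ((norm_add_le _ _).trans (add_le_add ?_ ?_))
    · exact (norm_inner_le_norm _ _).trans (mul_le_mul_of_nonneg_right (hHt u) (norm_nonneg _))
    · rw [norm_mul, Complex.norm_real, Real.norm_of_nonneg hl.le]
      refine mul_le_mul_of_nonneg_left ((norm_sum_le _ _).trans ?_) hl.le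
      refine Finset.sum_le_sum fun i _ => (norm_inner_le_norm _ _).trans ?_
      refine mul_le_mul_of_nonneg_right ?_ (norm_nonneg _)
      rw [D_add _ hu.1 (En_smul _ (En_Ht hu.1)), D_smul _ _ (En_Ht hu.1), D_Ht _ hu.1]
      exact hHt _
  have h4 : 2 * ‖u‖ * ‖f‖ ≤ (1 / 2) * ‖u‖ ^ 2 + 2 * ‖f‖ ^ 2 := by
    nlinarith only [sq_nonneg (‖u‖ - 2 * ‖f‖)]
  have h5 : ∀ i : Fin n, l * (2 * ‖D i.succ u‖ * ‖F i‖)
      ≤ (c / 2) * l ^ 2 * ‖D i.succ u‖ ^ 2 + (2 / c) * ‖F i‖ ^ 2 := by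
    intro i
    have h6 : 0 ≤ (2 / c) * ((c / 2) * l * ‖D i.succ u‖ - ‖F i‖) ^ 2 := by positivity
    have h7 : (2 / c) * ((c / 2) * l * ‖D i.succ u‖ - ‖F i‖) ^ 2
        = (c / 2) * l ^ 2 * ‖D i.succ u‖ ^ 2 - l * (2 * ‖D i.succ u‖ * ‖F i‖)
          + (2 / c) * ‖F i‖ ^ 2 := by
      field_simp
      ring
    linarith only [h6, h7]
  have h6 : l * ∑ i : Fin n, 2 * ‖D i.succ u‖ * ‖F i‖
      ≤ (c / 2) * l ^ 2 * gD u + (2 / c) * ∑ i, ‖F i‖ ^ 2 := by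
    rw [Finset.mul_sum]
    refine (Finset.sum_le_sum fun i _ => h5 i).trans (le_of_eq ?_)
    rw [Finset.sum_add_distrib, ← Finset.mul_sum, ← Finset.mul_sum]
    rfl
  have h7 : gD u ≤ eD u := by
    rw [eD_eq]
    have := sq_nonneg ‖D 0 u‖
    linarith only [this]
  have h8 : l ^ 2 * (c * eD u) ≤ l ^ 2 * (form A u (u + ((δ * A.sg : ℝ) : ℂ) • Ht u)).re :=
    mul_le_mul_of_nonneg_left h2 (sq_nonneg l)
  have h9 : 0 ≤ eD u := eD_nonneg u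
  have h10 : (c / 2) * l ^ 2 * gD u ≤ (c / 2) * l ^ 2 * eD u :=
    mul_le_mul_of_nonneg_left h7 (by positivity)
  have h11 : (1 / 2) * ‖u‖ ^ 2 + (c / 2) * (l ^ 2 * eD u)
      ≤ 2 * ‖f‖ ^ 2 + (2 / c) * ∑ i, ‖F i‖ ^ 2 := by
    have : l ^ 2 * (c * eD u) = (c / 2) * (l ^ 2 * eD u) + (c / 2) * l ^ 2 * eD u := by ring
    linarith only [h1, h3, h4, h6, h8, h10]
  have hF : 0 ≤ ∑ i, ‖F i‖ ^ 2 := Finset.sum_nonneg fun i _ => sq_nonneg _
  have h12 : 1 ≤ 1 / c := by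
    rw [le_div_iff₀ hc]
    linarith only [hc1]
  have h13 : 2 * ‖f‖ ^ 2 ≤ (2 / c) * ‖f‖ ^ 2 := by
    refine mul_le_mul_of_nonneg_right ?_ (sq_nonneg _)
    have : (2 : ℝ) / c = 2 * (1 / c) := by ring
    rw [this]
    linarith only [h12]
  have h14 : (c / 2) * (‖u‖ ^ 2 + l ^ 2 * eD u)
      ≤ (1 / 2) * ‖u‖ ^ 2 + (c / 2) * (l ^ 2 * eD u) := by
    have : (c / 2) * ‖u‖ ^ 2 ≤ (1 / 2) * ‖u‖ ^ 2 :=
      mul_le_mul_of_nonneg_right (by linarith only [hc1]) (sq_nonneg _)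
    linarith only [this]
  have h15 : (c / 2) * (‖u‖ ^ 2 + l ^ 2 * eD u) ≤ (2 / c) * (‖f‖ ^ 2 + ∑ i, ‖F i‖ ^ 2) := by
    rw [mul_add (2 / c)]
    linarith only [h11, h13, h14]
  calc ‖u‖ ^ 2 + l ^ 2 * eD u = (2 / c) * ((c / 2) * (‖u‖ ^ 2 + l ^ 2 * eD u)) := by
        field_simp
    _ ≤ (2 / c) * ((2 / c) * (‖f‖ ^ 2 + ∑ i, ‖F i‖ ^ 2)) :=
        mul_le_mul_of_nonneg_left h15 (by positivity)
    _ = (2 / c) * (2 / c) * (‖f‖ ^ 2 + ∑ i, ‖F i‖ ^ 2) := by ring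

end

end Pool.Agent.W_eb6199
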