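import Pool.Agent.W_eb6199.SCubes
import Pool.Agent.W_eb6199.Poincare
import Pool.Agent.W_eb6199.Decomp
import Pool.Agent.W_eb6199.Form
import Pool.Agent.W_eb6199.Resolvent

open MeasureTheory Complex Filter Topology
open scoped FourierTransform ComplexInnerProductSpace ENNReal NNReal

namespace Pool.Agent.W_eb6199

noncomputable section

variable {n : ℕ}

/-! auxiliary lemmas -/

theorem Gamma_tsum_sq_le {ι : Type*} (w a : ι → ℝ≥0∞) :
    (∑' v, w v * a v) ^ 2 ≤ (∑' v, w v) * ∑' v, w v * a v ^ 2 := by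
  have key : ∀ s : Finset ι, (∑ v ∈ s, w v * a v) ^ 2
      ≤ (∑ v ∈ s, w v) * ∑ v ∈ s, w v * a v ^ 2 := by
    intro s
    have h2 : (2 : ℝ).HolderConjugate 2 := by
      constructor <;> norm_num
    have h := ENNReal.inner_le_Lp_mul_Lq s (fun v => w v ^ (1 / 2 : ℝ))
      (fun v => w v ^ (1 / 2 : ℝ) * a v) h2
    have e1 : ∀ v, w v ^ (1 / 2 : ℝ) * (w v ^ (1 / 2 : ℝ) * a v) = w v * a v := by
      intro v
      rw [← mul_assoc, ← ENNReal.rpow_add_of_nonneg _ _ (by norm_num) (by norm_num)]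
      norm_num
    have e2 : ∀ v, (w v ^ (1 / 2 : ℝ)) ^ (2 : ℝ) = w v := by
      intro v
      rw [← ENNReal.rpow_mul]
      norm_num
    have e3 : ∀ v, (w v ^ (1 / 2 : ℝ) * a v) ^ (2 : ℝ) = w v * a v ^ 2 := by
      intro v
      rw [ENNReal.mul_rpow_of_nonneg _ _ (by norm_num), e2]
      norm_num
    simp only [e1, e2, e3] at h
    calc (∑ v ∈ s, w v * a v) ^ 2
        ≤ ((∑ v ∈ s, w v) ^ (1 / 2 : ℝ) * (∑ v ∈ s, w v * a v ^ 2) ^ (1 / 2 : ℝ)) ^ 2 := by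
          gcongr
      _ = (∑ v ∈ s, w v) * ∑ v ∈ s, w v * a v ^ 2 := by
          rw [mul_pow, ← ENNReal.rpow_natCast, ← ENNReal.rpow_natCast, ← ENNReal.rpow_mul,
            ← ENNReal.rpow_mul]
          norm_num
  have hlim : Tendsto (fun s : Finset ι => (∑ v ∈ s, w v * a v) ^ 2) atTop
      (𝓝 ((∑' v, w v * a v) ^ 2)) := by
    exact ((ENNReal.continuous_pow 2).tendsto _).comp ENNReal.summable.hasSum
  refine le_of_tendsto hlim (Eventually.of_forall fun s => (key s).trans ?_)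
  gcongr
  · exact ENNReal.sum_le_tsum s
  · exact ENNReal.sum_le_tsum s

theorem Gamma_summable_int {c : ℝ} (hc : 0 < c) :
    Summable fun k : ℤ => Real.exp (-(c * |(k : ℝ)|)) := by
  have h1 : Summable fun k : ℕ => Real.exp (-(c * |((k : ℤ) : ℝ)|)) := by
    have := Real.summable_exp_nat_mul_iff.mpr (show -c < 0 by linarith only [hc])
    refine this.congr fun k => ?_
    congr 1
    simp [mul_comm]
  rw [summable_int_iff_summable_nat_and_neg]
  refine ⟨h1, ?_⟩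
  refine h1.congr fun k => ?_
  simp

theorem Gamma_summable_pi {c : ℝ} (hc : 0 < c) (d : ℕ) :
    Summable fun v : Fin d → ℤ => Real.exp (-(c * ∑ j, |(v j : ℝ)|)) := by
  induction d with
  | zero =>
    exact (hasSum_fintype _).summable
  | succ d ih =>
    rw [← (Fin.consEquiv (fun _ : Fin (d + 1) => ℤ)).summable_iff]
    have h := Summable.mul_of_nonneg (Gamma_summable_int hc) ih
      (fun _ => (Real.exp_pos _).le) (fun _ => (Real.exp_pos _).le)
    refine h.congr fun x => ?_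
    simp only [Function.comp, Fin.consEquiv_apply, Fin.sum_univ_succ, Fin.cons_zero, Fin.cons_succ]
    rw [← Real.exp_add]
    congr 1
    ring

theorem Gamma_summable_poly {c : ℝ} (hc : 0 < c) (d : ℕ) :
    Summable fun v : Fin d → ℤ => Real.exp (-(c * ∑ j, |(v j : ℝ)|))
      * (1 + ∑ j, |(v j : ℝ)|) ^ 2 := by
  set b : ℝ := min 1 (c / 4) with hb
  have hb0 : 0 < b := lt_min one_pos (by linarith only [hc])
  have h := (Gamma_summable_pi (show 0 < c / 2 by linarith only [hc]) d).mul_left ((b ^ 2)⁻¹)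
  refine Summable.of_nonneg_of_le (fun v => by positivity) (fun v => ?_) h
  set x : ℝ := ∑ j, |(v j : ℝ)| with hx
  have hx0 : 0 ≤ x := Finset.sum_nonneg fun j _ => abs_nonneg _
  have h1 : b * (1 + x) ≤ Real.exp (c / 4 * x) := by
    have h2 := Real.add_one_le_exp (c / 4 * x)
    have h3 : b ≤ 1 := min_le_left _ _
    have h4 : b ≤ c / 4 := min_le_right _ _
    nlinarith only [hx0, h2, h3, h4]
  have h5 : (b * (1 + x)) ^ 2 ≤ Real.exp (c / 4 * x) ^ 2 := by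
    gcongr
  rw [← Real.exp_nat_mul] at h5
  have h6 : Real.exp (-(c * x)) * (1 + x) ^ 2
      = (b ^ 2)⁻¹ * (Real.exp (-(c * x)) * (b * (1 + x)) ^ 2) := by
    field_simp
  rw [h6]
  refine mul_le_mul_of_nonneg_left ?_ (by positivity)
  calc Real.exp (-(c * x)) * (b * (1 + x)) ^ 2
      ≤ Real.exp (-(c * x)) * Real.exp ((2 : ℕ) * (c / 4 * x)) := by gcongr
    _ = Real.exp (-(c / 2 * x)) := by
        rw [← Real.exp_add]; congr 1; push_cast; ring

/-- `F ↦ S_l (A F)` as a bounded operator -/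
theorem Gamma_exists_T (A : Coef n) {l : ℝ} (hl : 0 < l) :
    ∃ T : (Fin n → L2 n) →L[ℂ] L2 n, ∀ F, T F = S A l (A.app F) := by
  obtain ⟨C, hC, h⟩ := exists_res_bound A
  have hb : ∀ F : Fin n → L2 n, ‖S A l (A.app F)‖
      ≤ Real.sqrt (C * ((n * A.M) ^ 2 * n)) * ‖F‖ := by
    intro F
    have h1 := h l hl 0 (A.app F) _ (S_spec A hl (A.app F))
    have h2 : 0 ≤ l ^ 2 * eD (S A l (A.app F)) := by
      unfold eD; positivity
    have h3 := A.sum_norm_app_sq_le F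
    have h4 : ∑ i, ‖F i‖ ^ 2 ≤ n * ‖F‖ ^ 2 := by
      calc ∑ i, ‖F i‖ ^ 2 ≤ ∑ _i : Fin n, ‖F‖ ^ 2 := by
            refine Finset.sum_le_sum fun i _ => ?_
            gcongr
            exact norm_le_pi_norm F i
        _ = n * ‖F‖ ^ 2 := by simp
    have h5 : ‖S A l (A.app F)‖ ^ 2 ≤ C * ((n * A.M) ^ 2 * n) * ‖F‖ ^ 2 := by
      have : ‖(0 : L2 n)‖ = 0 := norm_zero
      rw [this] at h1
      calc ‖S A l (A.app F)‖ ^ 2 ≤ C * ∑ i, ‖A.app F i‖ ^ 2 := by nlinarith only [h1, h2]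
        _ ≤ C * ((n * A.M) ^ 2 * ∑ i, ‖F i‖ ^ 2) := by gcongr
        _ ≤ C * ((n * A.M) ^ 2 * (n * ‖F‖ ^ 2)) := by gcongr
        _ = _ := by ring
    have h6 := Real.sqrt_le_sqrt h5
    rwa [Real.sqrt_sq (norm_nonneg _), Real.sqrt_mul' _ (by positivity),
      Real.sqrt_sq (norm_nonneg _)] at h6
  exact ⟨LinearMap.mkContinuous
    { toFun := fun F => S A l (A.app F)
      map_add' := fun F G => by
        have : A.app (F + G) = A.app F + A.app G := by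
          funext i; exact A.app_add F G i
        rw [this, map_add]
      map_smul' := fun c F => by
        have : A.app (c • F) = c • A.app F := by
          funext i; exact A.app_smul c F i
        rw [this, map_smul]; rfl } _ hb, fun F => rfl⟩

theorem Gamma_suppIn_app (A : Coef n) {s : Set (ST n)} (hs : MeasurableSet s)
    {G : Fin n → L2 n} (hG : ∀ j, SuppIn (G j) s) (i : Fin n) : SuppIn (A.app G i) s := by
  have : (fun j => mulOp (ind s) (G j)) = G := funext fun j => mulOp_ind_of_suppIn hs (hG j)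
  rw [← this, A.app_mulOp (BM.ind hs)]
  exact suppIn_mulOp_ind hs _

theorem Gamma_memLp_ind (k : ℤ) (m : Fin (n + 1) → ℤ) :
    MemLp (ind (cube k m)) 2 (volume : Measure (ST n)) := by
  refine memLp_indicator_const 2 (measurableSet_cube k m) 1 (Or.inr ?_)
  rw [volume_cube]
  exact ENNReal.ofReal_ne_top

theorem Gamma_suppIn_chi (k : ℤ) (m : Fin (n + 1) → ℤ) :
    SuppIn (toL2 (ind (cube k m)) : L2 n) (cube k m) := by
  filter_upwards [toL2_coe (Gamma_memLp_ind k m)] with z hz hzm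
  rw [hz]
  exact Set.indicator_of_notMem hzm _

theorem Gamma_enorm_sq (u : L2 n) : ‖u‖ₑ ^ 2 = ∫⁻ z, ‖u z‖ₑ ^ 2 := by
  rw [← ofReal_norm_sq, ENNReal.ofReal_pow (norm_nonneg _), ofReal_norm]

theorem Gamma_enorm_sub_chi (k : ℤ) (m : Fin (n + 1) → ℤ) (u : L2 n) (a : ℂ) :
    ‖mulOp (ind (cube k m)) u - a • (toL2 (ind (cube k m)) : L2 n)‖ₑ ^ 2
      = ∫⁻ z in cube k m, ‖u z - a‖ₑ ^ 2 := by
  rw [Gamma_enorm_sq, ← lintegral_indicator (measurableSet_cube k m)]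
  refine lintegral_congr_ae ?_
  filter_upwards [toL2_coe (Gamma_memLp_ind k m), mulOp_coe (BM.ind (measurableSet_cube k m)) u,
    Lp.coeFn_smul a (toL2 (ind (cube k m)) : L2 n),
    Lp.coeFn_sub (mulOp (ind (cube k m)) u) (a • (toL2 (ind (cube k m)) : L2 n))]
    with z h1 h2 h3 h4
  rw [h4, Pi.sub_apply, h2, h3, Pi.smul_apply, h1]
  by_cases hz : z ∈ cube k m
  · rw [Set.indicator_of_mem hz]
    simp [ind, hz]
  · rw [Set.indicator_of_notMem hz]
    simp [ind, hz]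

theorem Gamma_norm_chi (k : ℤ) (m : Fin (n + 1) → ℤ) :
    ‖(toL2 (ind (cube k m)) : L2 n)‖ ^ 2 = qv n k := by
  have h := Gamma_enorm_sub_chi k m (0 : L2 n) (-1)
  have h0 : mulOp (ind (cube k m)) (0 : L2 n) - (-1 : ℂ) • (toL2 (ind (cube k m)) : L2 n)
      = toL2 (ind (cube k m)) := by
    rw [map_zero]; simp
  rw [h0] at h
  have h1 : ∫⁻ z in cube k m, ‖(0 : L2 n) z - (-1 : ℂ)‖ₑ ^ 2 = ENNReal.ofReal (qv n k) := by
    have : ∫⁻ z in cube k m, ‖(0 : L2 n) z - (-1 : ℂ)‖ₑ ^ 2 = ∫⁻ _z in cube k m, 1 := by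
      refine lintegral_congr_ae (ae_restrict_of_ae ?_)
      filter_upwards [Lp.coeFn_zero (E := ℂ) 2 (volume : Measure (ST n))] with z hz
      rw [hz]; simp
    rw [this, setLIntegral_one, volume_cube]
  rw [h1, ← ofReal_norm, ← ENNReal.ofReal_pow (norm_nonneg _)] at h
  exact (ENNReal.ofReal_eq_ofReal_iff (by positivity) (qv_pos n k).le).mp h

/-- the term of the series defining `γ` -/
def Gamma_term (T : (Fin n → L2 n) →L[ℂ] L2 n) (k : ℤ) (m : Fin (n + 1) → ℤ) (i : Fin n)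
    (v : Fin (n + 1) → ℤ) : L2 n :=
  mulOp (ind (cube k m)) (T (Pi.single i (toL2 (ind (cube k (m + v))))))

/-- the off-diagonal hypothesis -/
def Gamma_off (T : (Fin n → L2 n) →L[ℂ] L2 n) (k : ℤ) (c C : ℝ) : Prop :=
  ∀ (m v : Fin (n + 1) → ℤ) (G : Fin n → L2 n),
    (∀ i, SuppIn (G i) (cube k (m + v))) →
    ‖mulOp (ind (cube k m)) (T G)‖
      ≤ C * Real.exp (-(c * ∑ j, |(v j : ℝ)|)) * Real.sqrt (∑ i, ‖G i‖ ^ 2)

theorem Gamma_norm_term_le {T : (Fin n → L2 n) →L[ℂ] L2 n} {k : ℤ} {c C : ℝ}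
    (h : Gamma_off T k c C) (m : Fin (n + 1) → ℤ) (i : Fin n) (v : Fin (n + 1) → ℤ) :
    ‖Gamma_term T k m i v‖ ≤ C * Real.sqrt (qv n k) * Real.exp (-(c * ∑ j, |(v j : ℝ)|)) := by
  have h1 := h m v (Pi.single i (toL2 (ind (cube k (m + v))))) (by
    intro j
    by_cases hj : j = i
    · subst hj
      rw [Pi.single_eq_same]
      exact Gamma_suppIn_chi k (m + v)
    · rw [Pi.single_eq_of_ne hj]
      filter_upwards [Lp.coeFn_zero (E := ℂ) 2 (volume : Measure (ST n))] with z hz _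
      rw [hz]; rfl)
  have h2 : ∑ j, ‖(Pi.single i (toL2 (ind (cube k (m + v)))) : Fin n → L2 n) j‖ ^ 2
      = qv n k := by
    rw [Finset.sum_eq_single i]
    · rw [Pi.single_eq_same, Gamma_norm_chi]
    · intro j _ hj
      rw [Pi.single_eq_of_ne hj]; simp
    · intro hi; exact absurd (Finset.mem_univ i) hi
  rw [h2] at h1
  refine h1.trans (le_of_eq ?_)
  ring

theorem Gamma_summable_term {T : (Fin n → L2 n) →L[ℂ] L2 n} {k : ℤ} {c C : ℝ} (hc : 0 < c)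
    (h : Gamma_off T k c C) (m : Fin (n + 1) → ℤ) (i : Fin n) :
    Summable (Gamma_term T k m i) := by
  refine Summable.of_norm ?_
  exact Summable.of_nonneg_of_le (fun _ => norm_nonneg _) (Gamma_norm_term_le h m i)
    ((Gamma_summable_pi hc (n + 1)).mul_left _)

theorem Gamma_norm_tsum_le {T : (Fin n → L2 n) →L[ℂ] L2 n} {k : ℤ} {c C : ℝ} (hc : 0 < c)
    (h : Gamma_off T k c C) (m : Fin (n + 1) → ℤ) (i : Fin n) :
    ‖∑' v, Gamma_term T k m i v‖ ≤ C * Real.sqrt (qv n k)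
      * ∑' v : Fin (n + 1) → ℤ, Real.exp (-(c * ∑ j, |(v j : ℝ)|)) := by
  rw [← tsum_mul_left]
  exact tsum_of_norm_bounded ((Gamma_summable_pi hc (n + 1)).mul_left _).hasSum
    (Gamma_norm_term_le h m i)

theorem Gamma_abstract {E : Type*} [AddCommGroup E] [Module ℂ E] {m : ℕ}
    (L : (Fin m → E) →ₗ[ℂ] E) (χ : E) (x : Fin m → E) (a : Fin m → ℂ) :
    L (fun j => x j - a j • χ) = L x - ∑ i, a i • L (Pi.single i χ) := by
  have h4 : (fun j => x j - a j • χ) = x - ∑ i, a i • (Pi.single i χ : Fin m → E) := by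
    funext j
    rw [Pi.sub_apply, Finset.sum_apply]
    congr 1
    rw [Finset.sum_eq_single j]
    · rw [Pi.smul_apply, Pi.single_eq_same]
    · intro i _ hi
      rw [Pi.smul_apply, Pi.single_eq_of_ne (Ne.symm hi), smul_zero]
    · intro hj; exact absurd (Finset.mem_univ j) hj
  rw [h4]
  simp only [map_sub, map_sum, map_smul]

/-- the localised difference as a series -/
theorem Gamma_hasSum {T : (Fin n → L2 n) →L[ℂ] L2 n} {k : ℤ} {c C : ℝ} (hc : 0 < c)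
    (h : Gamma_off T k c C) (m : Fin (n + 1) → ℤ) (F : Fin n → L2 n) (a : Fin n → ℂ) :
    HasSum (fun v : Fin (n + 1) → ℤ => mulOp (ind (cube k m))
        (T (fun j => mulOp (ind (cube k (m + v))) (F j)
          - a j • (toL2 (ind (cube k (m + v))) : L2 n))))
      (mulOp (ind (cube k m)) (T F) - ∑ i, a i • ∑' v, Gamma_term T k m i v) := by
  have h1 : HasSum (fun v : Fin (n + 1) → ℤ => mulOp (ind (cube k m))
        (T (fun j => mulOp (ind (cube k (m + v))) (F j)))) (mulOp (ind (cube k m)) (T F)) := by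
    have h2 : HasSum (fun v : Fin (n + 1) → ℤ => (fun j => mulOp (ind (cube k (m + v))) (F j)
        : Fin n → L2 n)) F := by
      rw [Pi.hasSum]
      intro j
      exact (Equiv.addLeft m).hasSum_iff.mpr (hasSum_ind_cube k (F j))
    exact h2.mapL ((mulOp (ind (cube k m))).comp T)
  have h3 : HasSum (fun v : Fin (n + 1) → ℤ => ∑ i, a i • Gamma_term T k m i v)
      (∑ i, a i • ∑' v, Gamma_term T k m i v) :=
    hasSum_sum fun i _ => ((Gamma_summable_term hc h m i).hasSum).const_smul (a i)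
  refine (h1.sub h3).congr_fun fun v => ?_
  exact Gamma_abstract ((mulOp (ind (cube k m))).comp T : (Fin n → L2 n) →ₗ[ℂ] L2 n)
    (toL2 (ind (cube k (m + v)))) _ a

theorem Gamma_enorm_le {T : (Fin n → L2 n) →L[ℂ] L2 n} {k : ℤ} {c C : ℝ} (hc : 0 < c)
    (hC : 0 < C) (h : Gamma_off T k c C) (F : Fin n → L2 n) (m : Fin (n + 1) → ℤ) :
    ‖mulOp (ind (cube k m)) (T F)
        - ∑ i, avg k m (F i) • ∑' v, Gamma_term T k m i v‖ₑ ^ 2
      ≤ (∑' v : Fin (n + 1) → ℤ, ENNReal.ofReal (C * Real.exp (-(c * ∑ j, |(v j : ℝ)|))))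
        * ∑' v : Fin (n + 1) → ℤ, ENNReal.ofReal (C * Real.exp (-(c * ∑ j, |(v j : ℝ)|)))
          * ∑ j, ∫⁻ z in cube k (m + v), ‖F j z - avg k m (F j)‖ₑ ^ 2 := by
  have hs := Gamma_hasSum hc h m F (fun j => avg k m (F j))
  let G : (Fin (n + 1) → ℤ) → Fin n → L2 n := fun v j => mulOp (ind (cube k (m + v))) (F j)
          - avg k m (F j) • (toL2 (ind (cube k (m + v))) : L2 n)
  have hG : G = fun v j => mulOp (ind (cube k (m + v))) (F j)
          - avg k m (F j) • (toL2 (ind (cube k (m + v))) : L2 n) := rfl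
  have hsupp : ∀ v j, SuppIn (G v j) (cube k (m + v)) := by
    intro v j
    filter_upwards [Lp.coeFn_sub (mulOp (ind (cube k (m + v))) (F j))
      (avg k m (F j) • (toL2 (ind (cube k (m + v))) : L2 n)),
      Lp.coeFn_smul (avg k m (F j)) (toL2 (ind (cube k (m + v))) : L2 n),
      suppIn_mulOp_ind (measurableSet_cube k (m + v)) (F j),
      Gamma_suppIn_chi k (m + v)] with z h1 h2 h3 h4 hz
    show (G v j) z = 0
    rw [hG]
    simp only
    rw [h1, Pi.sub_apply, h2, Pi.smul_apply, h3 hz, h4 hz, smul_zero, sub_zero]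
  have hb : ∀ v, ENNReal.ofReal (Real.sqrt (∑ j, ‖G v j‖ ^ 2)) ^ 2
      = ∑ j, ∫⁻ z in cube k (m + v), ‖F j z - avg k m (F j)‖ₑ ^ 2 := by
    intro v
    rw [← ENNReal.ofReal_pow (Real.sqrt_nonneg _), Real.sq_sqrt (by positivity),
      ENNReal.ofReal_sum_of_nonneg (fun _ _ => by positivity)]
    refine Finset.sum_congr rfl fun j _ => ?_
    rw [ENNReal.ofReal_pow (norm_nonneg _), ofReal_norm]
    exact Gamma_enorm_sub_chi k (m + v) (F j) (avg k m (F j))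
  have ht : ∀ v, ‖mulOp (ind (cube k m)) (T (G v))‖ₑ
      ≤ ENNReal.ofReal (C * Real.exp (-(c * ∑ j, |(v j : ℝ)|)))
        * ENNReal.ofReal (Real.sqrt (∑ j, ‖G v j‖ ^ 2)) := by
    intro v
    rw [← ENNReal.ofReal_mul (by positivity), ← ofReal_norm]
    exact ENNReal.ofReal_le_ofReal (h m v (G v) (hsupp v))
  rw [← hs.tsum_eq]
  calc ‖∑' v, mulOp (ind (cube k m)) (T (G v))‖ₑ ^ 2
      ≤ (∑' v, ‖mulOp (ind (cube k m)) (T (G v))‖ₑ) ^ 2 := by
        gcongr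
        exact enorm_tsum_le_tsum_enorm
    _ ≤ (∑' v, ENNReal.ofReal (C * Real.exp (-(c * ∑ j, |(v j : ℝ)|)))
        * ENNReal.ofReal (Real.sqrt (∑ j, ‖G v j‖ ^ 2))) ^ 2 := by
        gcongr with v
        exact ht v
    _ ≤ _ := Gamma_tsum_sq_le _ _
    _ = _ := by simp only [hb]

theorem Gamma_main {T : (Fin n → L2 n) →L[ℂ] L2 n} {k : ℤ} {c C : ℝ} (hc : 0 < c)
    (hC : 0 < C) (h : Gamma_off T k c C) (F : Fin n → L2 n) {C₃ P : ℝ}
    (hF : ∀ (v : Fin (n + 1) → ℤ) (j : Fin n),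
      ∑' m : Fin (n + 1) → ℤ, ∫⁻ z in cube k (m + v), ‖F j z - avg k m (F j)‖ₑ ^ 2
        ≤ ENNReal.ofReal ((C₃ * (1 + ∑ j, |(v j : ℝ)|) * P) ^ 2)) :
    ∑' m : Fin (n + 1) → ℤ, ‖mulOp (ind (cube k m)) (T F)
        - ∑ i, avg k m (F i) • ∑' v, Gamma_term T k m i v‖ₑ ^ 2
      ≤ ENNReal.ofReal ((C * ∑' v : Fin (n + 1) → ℤ, Real.exp (-(c * ∑ j, |(v j : ℝ)|)))
        * ((C * (n * C₃ ^ 2)) * ∑' v : Fin (n + 1) → ℤ, Real.exp (-(c * ∑ j, |(v j : ℝ)|))
            * (1 + ∑ j, |(v j : ℝ)|) ^ 2) * P ^ 2) := by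
  have hS1 := (Gamma_summable_pi hc (n + 1)).mul_left C
  have hS2 := (Gamma_summable_poly hc (n + 1)).mul_left (C * (n * C₃ ^ 2))
  calc ∑' m : Fin (n + 1) → ℤ, ‖mulOp (ind (cube k m)) (T F)
        - ∑ i, avg k m (F i) • ∑' v, Gamma_term T k m i v‖ₑ ^ 2
      ≤ ∑' m : Fin (n + 1) → ℤ,
        (∑' v : Fin (n + 1) → ℤ, ENNReal.ofReal (C * Real.exp (-(c * ∑ j, |(v j : ℝ)|))))
        * ∑' v : Fin (n + 1) → ℤ, ENNReal.ofReal (C * Real.exp (-(c * ∑ j, |(v j : ℝ)|)))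
          * ∑ j, ∫⁻ z in cube k (m + v), ‖F j z - avg k m (F j)‖ₑ ^ 2 :=
        ENNReal.tsum_le_tsum fun m => Gamma_enorm_le hc hC h F m
    _ = (∑' v : Fin (n + 1) → ℤ, ENNReal.ofReal (C * Real.exp (-(c * ∑ j, |(v j : ℝ)|))))
        * ∑' v : Fin (n + 1) → ℤ, ENNReal.ofReal (C * Real.exp (-(c * ∑ j, |(v j : ℝ)|)))
          * ∑ j, ∑' m : Fin (n + 1) → ℤ,
            ∫⁻ z in cube k (m + v), ‖F j z - avg k m (F j)‖ₑ ^ 2 := by
        rw [ENNReal.tsum_mul_left, ENNReal.tsum_comm]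
        congr 1
        refine tsum_congr fun v => ?_
        rw [ENNReal.tsum_mul_left]
        congr 1
        exact Summable.tsum_finsetSum fun _ _ => ENNReal.summable
    _ ≤ (∑' v : Fin (n + 1) → ℤ, ENNReal.ofReal (C * Real.exp (-(c * ∑ j, |(v j : ℝ)|))))
        * ∑' v : Fin (n + 1) → ℤ, ENNReal.ofReal (C * Real.exp (-(c * ∑ j, |(v j : ℝ)|)))
          * ∑ _j : Fin n, ENNReal.ofReal ((C₃ * (1 + ∑ j, |(v j : ℝ)|) * P) ^ 2) := by
        gcongr with v j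
        exact hF v j
    _ = (∑' v : Fin (n + 1) → ℤ, ENNReal.ofReal (C * Real.exp (-(c * ∑ j, |(v j : ℝ)|))))
        * ((∑' v : Fin (n + 1) → ℤ, ENNReal.ofReal ((C * (n * C₃ ^ 2))
          * (Real.exp (-(c * ∑ j, |(v j : ℝ)|)) * (1 + ∑ j, |(v j : ℝ)|) ^ 2)))
            * ENNReal.ofReal (P ^ 2)) := by
        congr 1
        rw [← ENNReal.tsum_mul_right]
        refine tsum_congr fun v => ?_
        rw [Finset.sum_const, Finset.card_univ, Fintype.card_fin, nsmul_eq_mul,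
          ← ENNReal.ofReal_natCast, ← ENNReal.ofReal_mul (by positivity),
          ← ENNReal.ofReal_mul (by positivity), ← ENNReal.ofReal_mul (by positivity)]
        congr 1
        ring
    _ = _ := by
        rw [← ENNReal.ofReal_tsum_of_nonneg (fun _ => by positivity) hS1,
          ← ENNReal.ofReal_tsum_of_nonneg (fun _ => by positivity) hS2, tsum_mul_left,
          tsum_mul_left, ← ENNReal.ofReal_mul, ← ENNReal.ofReal_mul]
        · congr 1
          ring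
        · exact mul_nonneg hC.le (tsum_nonneg fun _ => (Real.exp_pos _).le)
        · exact mul_nonneg (by positivity) (tsum_nonneg fun _ => by positivity)

theorem Gamma_off_of (A : Coef n) {c C₁ : ℝ} (hC₁ : 0 < C₁) {k : ℤ} {l : ℝ}
    (hS : ∀ (m v : Fin (n + 1) → ℤ) (F : Fin n → L2 n),
      (∀ i, SuppIn (F i) (cube k (m + v))) →
      ‖mulOp (ind (cube k m)) (S A l F)‖
        ≤ C₁ * Real.exp (-(c * ∑ j, |(v j : ℝ)|)) * Real.sqrt (∑ i, ‖F i‖ ^ 2))
    {T : (Fin n → L2 n) →L[ℂ] L2 n} (hT : ∀ F, T F = S A l (A.app F)) :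
    Gamma_off T k c (C₁ * (n * A.M + 1)) := by
  intro m v G hG
  have hM : 0 ≤ A.M := zero_le_one.trans A.one_le_M
  have h1 := hS m v (A.app G) (Gamma_suppIn_app A (measurableSet_cube k (m + v)) hG)
  rw [hT]
  refine h1.trans ?_
  have h2 := Real.sqrt_le_sqrt (A.sum_norm_app_sq_le G)
  rw [Real.sqrt_mul (by positivity), Real.sqrt_sq (by positivity)] at h2
  have h3 : n * A.M * Real.sqrt (∑ i, ‖G i‖ ^ 2)
      ≤ (n * A.M + 1) * Real.sqrt (∑ i, ‖G i‖ ^ 2) := by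
    have := Real.sqrt_nonneg (∑ i, ‖G i‖ ^ 2)
    nlinarith only [this]
  calc C₁ * Real.exp (-(c * ∑ j, |(v j : ℝ)|)) * Real.sqrt (∑ i, ‖A.app G i‖ ^ 2)
      ≤ C₁ * Real.exp (-(c * ∑ j, |(v j : ℝ)|))
        * ((n * A.M + 1) * Real.sqrt (∑ i, ‖G i‖ ^ 2)) := by
        gcongr
        exact h2.trans h3
    _ = _ := by ring

theorem Gamma_local (k : ℤ) (m : Fin (n + 1) → ℤ) (X : L2 n) (F : Fin n → L2 n)
    (g : (Fin (n + 1) → ℤ) → Fin n → L2 n) :
    ∫⁻ z in cube k m, ‖X z - ∑ i, (g (idx k z) i : ST n → ℂ) z * Ek k (F i) z‖ₑ ^ 2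
      ≤ ‖mulOp (ind (cube k m)) X - ∑ i, avg k m (F i) • g m i‖ₑ ^ 2 := by
  rw [Gamma_enorm_sq]
  refine le_trans (le_of_eq ?_) (setLIntegral_le_lintegral (cube k m) _)
  refine setLIntegral_congr_fun_ae (measurableSet_cube k m) ?_
  have e1 : ∀ i, ((avg k m (F i) • g m i : L2 n) : ST n → ℂ)
      =ᵐ[volume] fun z => avg k m (F i) * g m i z := fun i => by
    filter_upwards [Lp.coeFn_smul (avg k m (F i)) (g m i)] with z hz
    rw [hz, Pi.smul_apply, smul_eq_mul]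
  filter_upwards [Lp.coeFn_sub (mulOp (ind (cube k m)) X)
      (∑ i, avg k m (F i) • g m i),
    mulOp_coe (BM.ind (measurableSet_cube k m)) X,
    ae_all_iff.mpr fun i => Ek_coe k (F i), ae_all_iff.mpr e1,
    Lp.coeFn_finsetSum Finset.univ (fun i => avg k m (F i) • g m i)]
    with z h1 h2 h3 h4 h5 hz
  have hidx : idx k z = m := mem_cube_iff.mp hz
  rw [h1, Pi.sub_apply, h2, h5, Finset.sum_apply]
  congr 2
  have h6 : ind (cube k m) z * X z = X z := by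
    simp [ind, hz]
  rw [h6]
  congr 1
  refine Finset.sum_congr rfl fun i _ => ?_
  rw [h4 i, h3 i, Ef, hidx, mul_comm]

theorem Gamma_loc_bound {T : (Fin n → L2 n) →L[ℂ] L2 n} {k : ℤ} {c C₂ W : ℝ} (hc : 0 < c)
    (hoff : Gamma_off T k c C₂)
    (hW : W = ∑' v : Fin (n + 1) → ℤ, Real.exp (-(c * ∑ j, |(v j : ℝ)|)))
    (m : Fin (n + 1) → ℤ) (i : Fin n) :
    ∫⁻ z in cube k m, ‖((∑' v, Gamma_term T k (idx k z) i v : L2 n) : ST n → ℂ) z‖ₑ ^ 2
      ≤ ENNReal.ofReal (C₂ ^ 2 * W ^ 2 * qv n k) := by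
  have h1 : ∫⁻ z in cube k m, ‖((∑' v, Gamma_term T k (idx k z) i v : L2 n) : ST n → ℂ) z‖ₑ ^ 2
      = ∫⁻ z in cube k m, ‖((∑' v, Gamma_term T k m i v : L2 n) : ST n → ℂ) z‖ₑ ^ 2 := by
    refine setLIntegral_congr_fun (measurableSet_cube k m) fun z hz => ?_
    simp only [mem_cube_iff.mp hz]
  rw [h1]
  refine (setLIntegral_le_lintegral _ _).trans ?_
  rw [← Gamma_enorm_sq, ← ofReal_norm, ← ENNReal.ofReal_pow (norm_nonneg _)]
  refine ENNReal.ofReal_le_ofReal ?_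
  have h2 := Gamma_norm_tsum_le hc hoff m i
  rw [← hW] at h2
  have h3 : ‖∑' v, Gamma_term T k m i v‖ ^ 2 ≤ (C₂ * Real.sqrt (qv n k) * W) ^ 2 := by
    gcongr
  refine h3.trans (le_of_eq ?_)
  rw [mul_pow, mul_pow, Real.sq_sqrt (qv_pos n k).le]; ring

theorem Gamma_measurable (g : (Fin (n + 1) → ℤ) → L2 n) (k : ℤ) :
    Measurable fun z : ST n => (g (idx k z) : ST n → ℂ) z := by
  have h1 : Measurable fun p : (Fin (n + 1) → ℤ) × ST n => (g p.1 : ST n → ℂ) p.2 := by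
    refine measurable_from_prod_countable_right fun m => ?_
    exact (Lp.stronglyMeasurable (g m)).measurable
  exact h1.comp ((measurable_idx k).prodMk measurable_id)

/-- the principal part `γ = θ_l 1`, and the principal part approximation -/
theorem exists_gamma (A : Coef n) : ∃ C : ℝ, 0 < C ∧ ∀ (k : ℤ) (l : ℝ),
    ((2 : ℝ) ^ k)⁻¹ ≤ l → l ≤ 2 * ((2 : ℝ) ^ k)⁻¹ → ∃ γ : Fin n → ST n → ℂ,
    (∀ i, Measurable (γ i)) ∧
    (∀ (m : Fin (n + 1) → ℤ) i,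
      ∫⁻ z in cube k m, ‖γ i z‖ₑ ^ 2 ≤ ENNReal.ofReal (C * qv n k)) ∧
    ∀ (F : Fin n → L2 n) (N : Fin (n + 1) → ℝ),
      (∀ i j (s : ℝ), ‖F i - tr (s • ev j) (F i)‖ ≤ |s| * N j) →
      ∫⁻ z, ‖S A l (A.app F) z - ∑ i, γ i z * Ek k (F i) z‖ₑ ^ 2
        ≤ ENNReal.ofReal ((C * ∑ j, N j / sc k j) ^ 2) := by
  obtain ⟨c, C₁, hc, hC₁, hS⟩ := exists_S_cubes A
  obtain ⟨C₃, hC₃, hX⟩ := exists_tsum_cross_le n
  have hM : 0 ≤ A.M := zero_le_one.trans A.one_le_M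
  obtain ⟨C₂, hC₂⟩ : ∃ C₂ : ℝ, C₂ = C₁ * (n * A.M + 1) := ⟨_, rfl⟩
  have hC₂0 : 0 < C₂ := by rw [hC₂]; positivity
  obtain ⟨W, hW⟩ : ∃ W : ℝ, W = ∑' v : Fin (n + 1) → ℤ, Real.exp (-(c * ∑ j, |(v j : ℝ)|)) :=
    ⟨_, rfl⟩
  obtain ⟨W₂, hW₂⟩ : ∃ W₂ : ℝ, W₂ = ∑' v : Fin (n + 1) → ℤ,
      Real.exp (-(c * ∑ j, |(v j : ℝ)|)) * (1 + ∑ j, |(v j : ℝ)|) ^ 2 := ⟨_, rfl⟩
  have hW0 : 0 ≤ W := by rw [hW]; exact tsum_nonneg fun _ => (Real.exp_pos _).le
  have hW₂0 : 0 ≤ W₂ := by rw [hW₂]; exact tsum_nonneg fun _ => by positivity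
  obtain ⟨K₁, hK₁⟩ : ∃ K₁ : ℝ, K₁ = (C₂ * W) * ((C₂ * (n * C₃ ^ 2)) * W₂) := ⟨_, rfl⟩
  have hK₁0 : 0 ≤ K₁ := by rw [hK₁]; positivity
  obtain ⟨C, hC⟩ : ∃ C : ℝ, C = C₂ ^ 2 * W ^ 2 + K₁ + 1 := ⟨_, rfl⟩
  have hCW : 0 ≤ C₂ ^ 2 * W ^ 2 := by positivity
  have hC1 : 1 ≤ C := by linarith only [hK₁0, hC, hCW]
  refine ⟨C, by linarith only [hC1], fun k l hl1 hl2 => ?_⟩
  have hl : 0 < l := lt_of_lt_of_le (by positivity) hl1
  obtain ⟨T, hT⟩ := Gamma_exists_T A hl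
  have hoff : Gamma_off T k c C₂ := by
    rw [hC₂]; exact Gamma_off_of A hC₁ (hS k l hl1 hl2) hT
  refine ⟨fun i z => ((∑' v, Gamma_term T k (idx k z) i v : L2 n) : ST n → ℂ) z,
    fun i => Gamma_measurable (fun m => ∑' v, Gamma_term T k m i v) k, ?_, ?_⟩
  · intro m i
    refine (Gamma_loc_bound hc hoff hW m i).trans (ENNReal.ofReal_le_ofReal ?_)
    have := qv_pos n k
    gcongr
    linarith only [hK₁0, hC]
  · intro F N hN
    obtain ⟨P, hP⟩ : ∃ P : ℝ, P = ∑ j, N j / sc k j := ⟨_, rfl⟩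
    rw [← hP, ← hT, lintegral_eq_tsum_cubes k]
    have h1 := Gamma_main hc hC₂0 hoff F (C₃ := C₃) (P := P) (fun v j => by
      rw [hP]; exact hX k (F j) N (hN j) v)
    refine (ENNReal.tsum_le_tsum fun m => Gamma_local k m (T F) F
      (fun m i => ∑' v, Gamma_term T k m i v)).trans (h1.trans ?_)
    rw [← hW, ← hW₂, ← hK₁]
    refine ENNReal.ofReal_le_ofReal ?_
    rw [mul_pow]
    have h2 : K₁ ≤ C ^ 2 := by nlinarith only [hC, hC1]
    gcongr

end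

end Pool.Agent.W_eb6199
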