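import Pool.Agent.W_eb6199.Tb
import Pool.Agent.W_eb6199.Carleson

open MeasureTheory Complex Filter Topology
open scoped FourierTransform ComplexInnerProductSpace ENNReal NNReal

namespace Pool.Agent.W_eb6199

noncomputable section

variable {n : ℕ}

/-! T37: the Kato square function estimate. -/

private theorem kato_enorm_sq (x : ℂ) : ‖x‖ₑ ^ 2 = ENNReal.ofReal (‖x‖ ^ 2) := by
  rw [ENNReal.ofReal_pow (norm_nonneg _), ofReal_norm]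

private theorem kato_ptwise (w : ℂ) (a b : Fin n → ℂ) :
    ‖w‖ₑ ^ 2 ≤ 2 * ‖w - ∑ i, a i * b i‖ₑ ^ 2 + 2 * ((∑ i, ‖a i‖ₑ ^ 2) * ∑ i, ‖b i‖ₑ ^ 2) := by
  have h1 : ‖∑ i, a i * b i‖ ^ 2 ≤ (∑ i, ‖a i‖ ^ 2) * ∑ i, ‖b i‖ ^ 2 := by
    have h2 : ‖∑ i, a i * b i‖ ≤ ∑ i, ‖a i‖ * ‖b i‖ :=
      (norm_sum_le _ _).trans (le_of_eq (Finset.sum_congr rfl fun i _ => norm_mul _ _))
    calc ‖∑ i, a i * b i‖ ^ 2 ≤ (∑ i, ‖a i‖ * ‖b i‖) ^ 2 := by gcongr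
      _ ≤ _ := Finset.sum_mul_sq_le_sq_mul_sq _ _ _
  have h3 : ‖w‖ ^ 2 ≤ 2 * ‖w - ∑ i, a i * b i‖ ^ 2
      + 2 * ((∑ i, ‖a i‖ ^ 2) * ∑ i, ‖b i‖ ^ 2) := by
    have h4 : ‖w‖ ≤ ‖w - ∑ i, a i * b i‖ + ‖∑ i, a i * b i‖ := by
      have := norm_add_le (w - ∑ i, a i * b i) (∑ i, a i * b i)
      rwa [sub_add_cancel] at this
    nlinarith [norm_nonneg w, norm_nonneg (w - ∑ i, a i * b i), norm_nonneg (∑ i, a i * b i),
      sq_nonneg (‖w - ∑ i, a i * b i‖ - ‖∑ i, a i * b i‖)]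
  have h5 : ∀ c : Fin n → ℂ, ∑ i, ‖c i‖ₑ ^ 2 = ENNReal.ofReal (∑ i, ‖c i‖ ^ 2) := by
    intro c
    rw [ENNReal.ofReal_sum_of_nonneg fun i _ => by positivity]
    exact Finset.sum_congr rfl fun i _ => kato_enorm_sq _
  rw [h5, h5, kato_enorm_sq, kato_enorm_sq, ← ENNReal.ofReal_mul (by positivity)]
  have h6 : (2 : ℝ≥0∞) = ENNReal.ofReal 2 := by norm_num
  rw [h6, ← ENNReal.ofReal_mul (by norm_num), ← ENNReal.ofReal_mul (by norm_num),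
    ← ENNReal.ofReal_add (by positivity) (by positivity)]
  exact ENNReal.ofReal_le_ofReal h3

private theorem kato_arith {a c d : ℝ} (ha : 0 ≤ a) (hc : 0 ≤ c) (hd : 0 ≤ d) :
    2 * ENNReal.ofReal a + 2 * (4 * ENNReal.ofReal c * ENNReal.ofReal d)
      = ENNReal.ofReal (2 * a + 2 * (4 * c * d)) := by
  rw [ENNReal.ofReal_add (by positivity) (by positivity), ENNReal.ofReal_mul (by norm_num),
    ENNReal.ofReal_mul (p := 2) (by norm_num), ENNReal.ofReal_mul (p := 4 * c) (by positivity),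
    ENNReal.ofReal_mul (p := 4) (by norm_num)]
  norm_num

private theorem kato_core {C₁ C₂ e : ℝ} (hC₁ : 0 < C₁) (hC₂ : 0 < C₂) (he : 0 ≤ e)
    (γ : ℤ → Fin n → ST n → ℂ) (hγ : ∀ k i, Measurable (γ k i)) (w : ℤ → L2 n)
    (g : Fin n → L2 n) (K : Finset ℤ) (hge : ∑ i, ‖g i‖ ^ 2 ≤ e)
    (hmain : ∑ k ∈ K, ∫⁻ z, ‖w k z - ∑ i, γ k i z * Ek k (g i) z‖ₑ ^ 2
      ≤ ENNReal.ofReal (C₁ * e))
    (hcar : ∀ i, ∑ k ∈ K, ∫⁻ z, (∑ i, ‖γ k i z‖ₑ ^ 2) * ‖Ek k (g i) z‖ₑ ^ 2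
      ≤ 4 * ENNReal.ofReal C₂ * ENNReal.ofReal (‖g i‖ ^ 2)) :
    ∑ k ∈ K, ‖w k‖ ^ 2 ≤ (2 * C₁ + 8 * C₂) * e := by
  have hGm : ∀ k, Measurable fun z => ∑ i, ‖γ k i z‖ₑ ^ 2 := fun k =>
    Finset.measurable_sum _ fun i _ => ((hγ k i).enorm).pow_const 2
  have hEm : ∀ (k : ℤ) (i : Fin n), Measurable fun z => ((Ek k (g i) : L2 n) : ST n → ℂ) z :=
    fun k i => (Lp.stronglyMeasurable _).measurable
  have hwm : ∀ k : ℤ, Measurable fun z => ((w k : L2 n) : ST n → ℂ) z := fun k =>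
    (Lp.stronglyMeasurable _).measurable
  -- the integral inequality for each `k`
  have hk : ∀ k ∈ K, ENNReal.ofReal (‖w k‖ ^ 2) ≤
      2 * (∫⁻ z, ‖w k z - ∑ i, γ k i z * Ek k (g i) z‖ₑ ^ 2)
      + 2 * ∑ i : Fin n, ∫⁻ z, (∑ i, ‖γ k i z‖ₑ ^ 2) * ‖Ek k (g i) z‖ₑ ^ 2 := by
    intro k _
    have hm1 : Measurable fun z => ‖w k z - ∑ i, γ k i z * Ek k (g i) z‖ₑ ^ 2 :=
      ((hwm k).sub (Finset.measurable_sum _ fun i _ =>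
        (hγ k i).mul (hEm k i))).enorm.pow_const 2
    have hm2 : ∀ i : Fin n, Measurable fun z =>
        (∑ i, ‖γ k i z‖ₑ ^ 2) * ‖Ek k (g i) z‖ₑ ^ 2 := fun i =>
      (hGm k).mul ((hEm k i).enorm.pow_const 2)
    rw [ofReal_norm_sq]
    calc ∫⁻ z, ‖w k z‖ₑ ^ 2
        ≤ ∫⁻ z, (2 * ‖w k z - ∑ i, γ k i z * Ek k (g i) z‖ₑ ^ 2
          + 2 * ∑ i : Fin n, (∑ i, ‖γ k i z‖ₑ ^ 2) * ‖Ek k (g i) z‖ₑ ^ 2) := by
          refine lintegral_mono fun z => ?_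
          rw [← Finset.mul_sum]
          exact kato_ptwise _ _ _
      _ = _ := by
          rw [lintegral_add_left (hm1.const_mul 2), lintegral_const_mul _ hm1,
            lintegral_const_mul _ (Finset.measurable_sum _ fun i _ => hm2 i),
            lintegral_finsetSum _ fun i _ => hm2 i]
  have hsum : ENNReal.ofReal (∑ k ∈ K, ‖w k‖ ^ 2) ≤
      ENNReal.ofReal ((2 * C₁ + 8 * C₂) * e) := by
    rw [ENNReal.ofReal_sum_of_nonneg fun i _ => by positivity]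
    calc ∑ k ∈ K, ENNReal.ofReal (‖w k‖ ^ 2)
        ≤ ∑ k ∈ K, (2 * (∫⁻ z, ‖w k z - ∑ i, γ k i z * Ek k (g i) z‖ₑ ^ 2)
          + 2 * ∑ i : Fin n, ∫⁻ z, (∑ i, ‖γ k i z‖ₑ ^ 2) * ‖Ek k (g i) z‖ₑ ^ 2) :=
          Finset.sum_le_sum hk
      _ = 2 * (∑ k ∈ K, ∫⁻ z, ‖w k z - ∑ i, γ k i z * Ek k (g i) z‖ₑ ^ 2)
          + 2 * ∑ i : Fin n, ∑ k ∈ K, ∫⁻ z, (∑ i, ‖γ k i z‖ₑ ^ 2) * ‖Ek k (g i) z‖ₑ ^ 2 := by
          rw [Finset.sum_add_distrib, ← Finset.mul_sum, ← Finset.mul_sum, Finset.sum_comm]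
      _ ≤ 2 * ENNReal.ofReal (C₁ * e)
          + 2 * ∑ i : Fin n, 4 * ENNReal.ofReal C₂ * ENNReal.ofReal (‖g i‖ ^ 2) :=
          add_le_add (mul_le_mul_right hmain 2)
            (mul_le_mul_right (Finset.sum_le_sum fun i _ => hcar i) 2)
      _ = ENNReal.ofReal (2 * (C₁ * e) + 2 * (4 * C₂ * ∑ i : Fin n, ‖g i‖ ^ 2)) := by
          have h9 : 0 ≤ ∑ i : Fin n, ‖g i‖ ^ 2 := Finset.sum_nonneg fun i _ => by positivity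
          rw [← Finset.mul_sum, ← ENNReal.ofReal_sum_of_nonneg fun i _ => by positivity,
            kato_arith (by positivity) hC₂.le h9]
      _ ≤ ENNReal.ofReal ((2 * C₁ + 8 * C₂) * e) := by
          refine ENNReal.ofReal_le_ofReal ?_
          nlinarith
  exact (ENNReal.ofReal_le_ofReal_iff (by positivity)).1 hsum

theorem exists_kato_sum (A : Coef n) : ∃ C : ℝ, 0 < C ∧ ∀ s : ℝ, 1 ≤ s → s ≤ 2 → ∀ u ∈ En n,
    ∀ K : Finset ℤ, ∑ k ∈ K, ‖(((s * ((2 : ℝ) ^ k)⁻¹ : ℝ) : ℂ)⁻¹ •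
      (u - J A (s * ((2 : ℝ) ^ k)⁻¹) u) : L2 n)‖ ^ 2 ≤ C * eD u := by
  obtain ⟨C₁, hC₁, h1⟩ := exists_isGam A
  obtain ⟨C₂, hC₂, h2⟩ := exists_carleson A C₁
  refine ⟨2 * C₁ + 8 * C₂, by positivity, fun s hs1 hs2 u hu K => ?_⟩
  obtain ⟨γ, hγ⟩ := h1 s hs1 hs2
  obtain ⟨k₁, hk₁⟩ := K.bddBelow
  obtain ⟨K', hK'⟩ := K.bddAbove
  have hKs : K ⊆ Finset.Icc k₁ K' := fun k hk =>
    Finset.mem_Icc.2 ⟨hk₁ (Finset.mem_coe.2 hk), hK' (Finset.mem_coe.2 hk)⟩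
  have hGm : ∀ k, Measurable fun z => ∑ i, ‖γ k i z‖ₑ ^ 2 := fun k =>
    Finset.measurable_sum _ fun i _ => ((hγ.meas k i).enorm).pow_const 2
  have hE0 : 0 ≤ eD u := Finset.sum_nonneg fun i _ => by positivity
  have hgE : ∑ i : Fin n, ‖D i.succ u‖ ^ 2 ≤ eD u := by
    unfold eD
    rw [Fin.sum_univ_succ]
    have : 0 ≤ ‖D 0 u‖ ^ 2 := by positivity
    linarith
  refine kato_core hC₁ hC₂ hE0 γ hγ.meas
    (fun k => (((s * ((2 : ℝ) ^ k)⁻¹ : ℝ) : ℂ)⁻¹ • (u - J A (s * ((2 : ℝ) ^ k)⁻¹) u) : L2 n))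
    (fun i => D i.succ u) K hgE (hγ.main u hu K) fun i => ?_
  refine (Finset.sum_le_sum_of_subset hKs).trans ?_
  refine carleson_embedding hGm (C := Real.toNNReal C₂) (K := K') ?_ (D i.succ u) k₁
  intro k₀ m
  refine (h2 s hs1 hs2 γ hγ k₀ K' m).trans (le_of_eq ?_)
  rw [ENNReal.ofReal_mul hC₂.le]
  rfl

end

end Pool.Agent.W_eb6199
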