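import Pool.Agent.W_eb6199.ResAlg

open MeasureTheory Complex Filter Topology
open scoped FourierTransform ComplexInnerProductSpace ENNReal NNReal

namespace Pool.Agent.W_eb6199

noncomputable section

variable {n : ℕ}

/-! derivative, continuity and limits of the resolvents in `l`. -/

theorem res_alg_aux {E : Type*} [AddCommGroup E] [Module ℂ E] (s t : ℂ) (ht : t ≠ 0)
    (a b c : E) (h : (s - t) • b = s • a - t • c) : a - c = (-((s - t) / t)) • (a - b) := by
  have e1 : t • (a - c) = (-(s - t)) • (a - b) := by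
    rw [smul_sub, smul_sub, neg_smul, neg_smul, sub_neg_eq_add, h, sub_smul]
    abel
  have e2 : a - c = t⁻¹ • (t • (a - c)) := by
    rw [smul_smul, inv_mul_cancel₀ ht, one_smul]
  rw [e2, e1, smul_smul]
  congr 1
  field_simp

/-- `J_x f - J_l f = -((x² - l²)/l²) J_x (f - J_l f)` -/
theorem J_sub_J (A : Coef n) {x l : ℝ} (hx : 0 < x) (hl : 0 < l) (f : L2 n) :
    J A x f - J A l f = (-(((x ^ 2 - l ^ 2) / l ^ 2 : ℝ) : ℂ)) • J A x (f - J A l f) := by
  have h := J_J A hx hl f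
  have hl2 : (l : ℂ) ^ 2 ≠ 0 := by
    have : (l : ℂ) ≠ 0 := by exact_mod_cast hl.ne'
    positivity
  have h1 := res_alg_aux _ _ hl2 _ _ _ h
  have h2 : J A x (f - J A l f) = J A x f - J A x (J A l f) := map_sub _ _ _
  have h3 : (-(((x ^ 2 - l ^ 2) / l ^ 2 : ℝ) : ℂ)) = -(((x : ℂ) ^ 2 - (l : ℂ) ^ 2) / (l : ℂ) ^ 2) := by
    push_cast
    rfl
  rw [h2, h3]
  exact h1

theorem norm_J_sub_J_le (A : Coef n) {x l : ℝ} (hx : 0 < x) (hl : 0 < l) (f : L2 n) :
    ‖J A x f - J A l f‖ ≤ |(x ^ 2 - l ^ 2) / l ^ 2| * (2 * ‖f‖) := by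
  rw [J_sub_J A hx hl f, norm_smul, norm_neg, Complex.norm_real, Real.norm_eq_abs]
  refine mul_le_mul_of_nonneg_left ?_ (abs_nonneg _)
  refine (norm_J_le A hx _).trans ((norm_sub_le _ _).trans ?_)
  have := norm_J_le A hl f
  linarith only [this]

/-- strong continuity, along filters -/
theorem tendsto_J_comp (A : Coef n) {ι : Type*} {L : Filter ι} {x : ι → ℝ} {h : ι → L2 n}
    {l : ℝ} {g : L2 n} (hl : 0 < l) (hx : Tendsto x L (𝓝 l)) (hh : Tendsto h L (𝓝 g)) :
    Tendsto (fun i => J A (x i) (h i)) L (𝓝 (J A l g)) := by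
  rw [tendsto_iff_norm_sub_tendsto_zero]
  have hpos : ∀ᶠ i in L, 0 < x i := hx.eventually (lt_mem_nhds hl)
  have h1 : Tendsto (fun i => ‖h i - g‖ + |(x i ^ 2 - l ^ 2) / l ^ 2| * (2 * ‖g‖)) L (𝓝 0) := by
    have a1 : Tendsto (fun i => ‖h i - g‖) L (𝓝 0) := tendsto_iff_norm_sub_tendsto_zero.mp hh
    have a2 : Tendsto (fun i => |(x i ^ 2 - l ^ 2) / l ^ 2| * (2 * ‖g‖)) L
        (𝓝 (|(l ^ 2 - l ^ 2) / l ^ 2| * (2 * ‖g‖))) :=
      ((((hx.pow 2).sub_const _).div_const _).abs).mul_const _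
    have a3 := a1.add a2
    simpa using a3
  refine squeeze_zero' (Eventually.of_forall fun i => norm_nonneg _) ?_ h1
  filter_upwards [hpos] with i hi
  have e : J A (x i) (h i) - J A l g = J A (x i) (h i - g) + (J A (x i) g - J A l g) := by
    rw [map_sub]; abel
  rw [e]
  exact (norm_add_le _ _).trans (add_le_add (norm_J_le A hi _) (norm_J_sub_J_le A hi hl g))

theorem real_smul_L2 (r : ℝ) (u : L2 n) : r • u = (r : ℂ) • u := by
  ext1
  filter_upwards [Lp.coeFn_smul r u, Lp.coeFn_smul (r : ℂ) u] with z h1 h2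
  rw [h1, h2]
  simp

/-- derivative of `l ↦ J_l (g l)` -/
theorem hasDerivAt_J_comp (A : Coef n) {l : ℝ} (hl : 0 < l) {g : ℝ → L2 n} {g' : L2 n}
    (hg : HasDerivAt g g' l) :
    HasDerivAt (fun l : ℝ => J A l (g l))
      (J A l g' + -((2 / l : ℝ) : ℂ) • (J A l (g l) - J A l (J A l (g l)))) l := by
  rw [hasDerivAt_iff_tendsto_slope] at hg ⊢
  have hid : Tendsto (fun x : ℝ => x) (𝓝[≠] l) (𝓝 l) := nhdsWithin_le_nhds
  have h1 : Tendsto (fun x => J A x (slope g l x)) (𝓝[≠] l) (𝓝 (J A l g')) :=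
    tendsto_J_comp A hl hid hg
  have h2 : Tendsto (fun x => J A x (g l - J A l (g l))) (𝓝[≠] l)
      (𝓝 (J A l (g l - J A l (g l)))) := tendsto_J_comp A hl hid tendsto_const_nhds
  have h3 : Tendsto (fun x : ℝ => -(((x + l) / l ^ 2 : ℝ) : ℂ)) (𝓝[≠] l)
      (𝓝 (-((2 / l : ℝ) : ℂ))) := by
    have : Tendsto (fun x : ℝ => -(((x + l) / l ^ 2 : ℝ) : ℂ)) (𝓝[≠] l)
        (𝓝 (-(((l + l) / l ^ 2 : ℝ) : ℂ))) := by
      refine Tendsto.neg ?_
      exact (Complex.continuous_ofReal.tendsto _).comp ((hid.add_const l).div_const _)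
    have e : (l + l) / l ^ 2 = 2 / l := by field_simp; ring
    rwa [e] at this
  have h4 := h1.add (h3.smul h2)
  rw [map_sub] at h4
  refine h4.congr' ?_
  have hpos : ∀ᶠ x in 𝓝[≠] l, 0 < x := hid.eventually (lt_mem_nhds hl)
  filter_upwards [hpos, self_mem_nhdsWithin] with x hx hxl
  have hxl' : x - l ≠ 0 := sub_ne_zero.mpr hxl
  rw [slope_def_module, slope_def_module]
  have e : J A x (g x) - J A l (g l) = J A x (g x - g l) + (J A x (g l) - J A l (g l)) := by
    rw [map_sub]; abel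
  rw [e, J_sub_J A hx hl (g l), smul_add]
  congr 1
  · have : J A x ((x - l)⁻¹ • (g x - g l)) = (x - l)⁻¹ • J A x (g x - g l) := by
      rw [real_smul_L2, real_smul_L2, map_smul]
    exact this
  · rw [real_smul_L2, smul_smul]
    congr 1
    push_cast
    have h5 : ((x : ℂ) - l) ≠ 0 := by exact_mod_cast hxl'
    have h6 : (l : ℂ) ≠ 0 := by exact_mod_cast hl.ne'
    field_simp
    ring

/-- `d/dl J_l f = -(2/l) (J_l f - J_l² f)` -/
theorem hasDerivAt_J (A : Coef n) {l : ℝ} (hl : 0 < l) (f : L2 n) :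
    HasDerivAt (fun l : ℝ => J A l f)
      (-((2 / l : ℝ) : ℂ) • (J A l f - J A l (J A l f))) l := by
  have h := hasDerivAt_J_comp A hl (g := fun _ => f) (g' := 0) (hasDerivAt_const l f)
  simpa using h

theorem res_alg_aux2 {E : Type*} [AddCommGroup E] [Module ℂ E] (c d e : ℂ) (h : c + d = e)
    (x : E) : -c • x + -d • x = -e • x := by
  rw [← add_smul, ← h]
  congr 1
  ring

theorem res_alg_aux3 {E : Type*} [NormedAddCommGroup E] [NormedSpace ℂ E] (T : E →L[ℂ] E)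
    (k : ℕ) (l : ℝ) (f : E) :
    T (-((2 * k / l : ℝ) : ℂ) • ((T ^ k) f - (T ^ (k + 1)) f)) +
      -((2 / l : ℝ) : ℂ) • (T ((T ^ k) f) - T (T ((T ^ k) f))) =
    -((2 * (k + 1 : ℕ) / l : ℝ) : ℂ) • ((T ^ (k + 1)) f - (T ^ (k + 1 + 1)) f) := by
  have e1 : (T ^ (k + 1)) f = T ((T ^ k) f) := by rw [pow_succ']; rfl
  have e2 : (T ^ (k + 1 + 1)) f = T (T ((T ^ k) f)) := by rw [pow_succ', pow_succ']; rfl
  rw [map_smul, map_sub, e2, e1]
  refine res_alg_aux2 _ _ _ ?_ _
  push_cast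
  ring

theorem res_alg_aux4 {E : Type*} [NormedAddCommGroup E] [NormedSpace ℂ E] (T : E →L[ℂ] E)
    (k : ℕ) (f : E) : (T ^ (k + 1)) f = T ((T ^ k) f) := by rw [pow_succ']; rfl

theorem hasDerivAt_Jpow (A : Coef n) {l : ℝ} (hl : 0 < l) (k : ℕ) (f : L2 n) :
    HasDerivAt (fun l : ℝ => (J A l ^ k) f)
      (-((2 * k / l : ℝ) : ℂ) • ((J A l ^ k) f - (J A l ^ (k + 1)) f)) l := by
  induction k with
  | zero =>
    simp only [pow_zero, Nat.cast_zero, mul_zero, zero_div, Complex.ofReal_zero, neg_zero,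
      zero_smul, one_apply_eq_self]
    exact hasDerivAt_const l f
  | succ k ih =>
    have h := (hasDerivAt_J_comp A hl ih).congr_deriv (res_alg_aux3 (J A l) k l f)
    exact h.congr_of_eventuallyEq (Eventually.of_forall fun x => res_alg_aux4 (J A x) k f)

theorem continuousOn_Jpow (A : Coef n) (k : ℕ) (f : L2 n) :
    ContinuousOn (fun l : ℝ => (J A l ^ k) f) (Set.Ioi 0) := fun l hl =>
  (hasDerivAt_Jpow A hl k f).continuousAt.continuousWithinAt

theorem continuousOn_Jpow_comp (A : Coef n) (k : ℕ) {f : ℝ → L2 n}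
    (hf : ContinuousOn f (Set.Ioi 0)) :
    ContinuousOn (fun l : ℝ => (J A l ^ k) (f l)) (Set.Ioi 0) := by
  induction k with
  | zero => simpa using hf
  | succ k ih =>
    intro l hl
    have h1 : Tendsto (fun x : ℝ => x) (𝓝[Set.Ioi 0] l) (𝓝 l) := nhdsWithin_le_nhds
    have h := tendsto_J_comp A hl h1 (ih l hl)
    have e : (fun l : ℝ => (J A l ^ (k + 1)) (f l)) = fun l : ℝ => J A l ((J A l ^ k) (f l)) := by
      funext x
      rw [pow_succ']
      rfl
    show Tendsto _ _ _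
    rw [e]
    exact h

/-- continuity of `l ↦ D j (J_l^k (f l))` for `f` continuous -/
theorem continuousOn_D_Jpow_comp (A : Coef n) (k : ℕ) (hk : k ≠ 0) (j : Fin (n + 1))
    {f : ℝ → L2 n} (hf : ContinuousOn f (Set.Ioi 0)) :
    ContinuousOn (fun l : ℝ => D j ((J A l ^ k) (f l))) (Set.Ioi 0) := by
  obtain ⟨m, rfl⟩ : ∃ m, k = m + 1 := ⟨k - 1, by omega⟩
  have hg := continuousOn_Jpow_comp A m hf
  set g : ℝ → L2 n := fun l => (J A l ^ m) (f l) with hgdef
  have e : (fun l : ℝ => D j ((J A l ^ (m + 1)) (f l))) = fun l : ℝ => D j (J A l (g l)) := by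
    funext x
    rw [pow_succ']
    rfl
  rw [e]
  obtain ⟨C, hC, hD⟩ := exists_D_J_bound A
  intro l hl
  have hl' : (0 : ℝ) < l := hl
  show Tendsto _ _ _
  rw [tendsto_iff_norm_sub_tendsto_zero]
  have hid : Tendsto (fun x : ℝ => x) (𝓝[Set.Ioi 0] l) (𝓝 l) := nhdsWithin_le_nhds
  have hgl : Tendsto (fun x => ‖g x - g l‖) (𝓝[Set.Ioi 0] l) (𝓝 0) :=
    tendsto_iff_norm_sub_tendsto_zero.mp (hg l hl)
  have h1 : Tendsto (fun x : ℝ => C / x * ‖g x - g l‖
      + |(x ^ 2 - l ^ 2) / l ^ 2| * (C / x * (2 * ‖g l‖))) (𝓝[Set.Ioi 0] l) (𝓝 0) := by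
    have a0 : Tendsto (fun x : ℝ => C / x) (𝓝[Set.Ioi 0] l) (𝓝 (C / l)) :=
      tendsto_const_nhds.div hid hl'.ne'
    have a1 := a0.mul hgl
    have a2 : Tendsto (fun x : ℝ => |(x ^ 2 - l ^ 2) / l ^ 2| * (C / x * (2 * ‖g l‖)))
        (𝓝[Set.Ioi 0] l) (𝓝 (|(l ^ 2 - l ^ 2) / l ^ 2| * (C / l * (2 * ‖g l‖)))) :=
      ((((hid.pow 2).sub_const _).div_const _).abs).mul (a0.mul_const _)
    have a3 := a1.add a2
    simpa using a3
  refine squeeze_zero' (Eventually.of_forall fun i => norm_nonneg _) ?_ h1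
  filter_upwards [self_mem_nhdsWithin] with x hx
  have hx' : (0 : ℝ) < x := hx
  have hb : ∀ y : L2 n, ‖D j (J A x y)‖ ≤ C / x * ‖y‖ := by
    intro y
    have := hD x hx' y j
    rw [div_mul_eq_mul_div, le_div_iff₀ hx']
    linarith only [this]
  have e1 : D j (J A x (g x)) - D j (J A l (g l))
      = D j (J A x (g x - g l))
        + (-(((x ^ 2 - l ^ 2) / l ^ 2 : ℝ) : ℂ)) • D j (J A x (g l - J A l (g l))) := by
    have b1 : D j (J A x (g x - g l)) = D j (J A x (g x)) - D j (J A x (g l)) := by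
      have := D_sub j (J_mem A hx' (g x)) (J_mem A hx' (g l))
      rw [← this]
      exact congrArg (D j) (map_sub _ _ _)
    have b2 : (-(((x ^ 2 - l ^ 2) / l ^ 2 : ℝ) : ℂ)) • D j (J A x (g l - J A l (g l)))
        = D j (J A x (g l)) - D j (J A l (g l)) := by
      have b3 := D_smul j (-(((x ^ 2 - l ^ 2) / l ^ 2 : ℝ) : ℂ)) (J_mem A hx' (g l - J A l (g l)))
      have b4 := D_sub j (J_mem A hx' (g l)) (J_mem A hl' (g l))
      have b5 := J_sub_J A hx' hl' (g l)
      exact b3.symm.trans ((congrArg (D j) b5).symm.trans b4)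
    rw [b1, b2]
    abel
  rw [e1]
  refine (norm_add_le _ _).trans (add_le_add (hb _) ?_)
  rw [norm_smul, norm_neg, Complex.norm_real, Real.norm_eq_abs]
  refine mul_le_mul_of_nonneg_left ((hb _).trans ?_) (abs_nonneg _)
  refine mul_le_mul_of_nonneg_left ?_ (by positivity)
  refine (norm_sub_le _ _).trans ?_
  have := norm_J_le A hl' (g l)
  linarith only [this]

theorem continuousOn_D_Jpow (A : Coef n) (k : ℕ) (hk : k ≠ 0) (j : Fin (n + 1)) (f : L2 n) :
    ContinuousOn (fun l : ℝ => D j ((J A l ^ k) f)) (Set.Ioi 0) :=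
  continuousOn_D_Jpow_comp A k hk j (f := fun _ => f) continuousOn_const

/-- a bounded operator with injective adjoint has dense range -/
theorem denseRange_of_orth (T : L2 n →L[ℂ] L2 n)
    (h : ∀ y : L2 n, (∀ g, ⟪T g, y⟫ = (0 : ℂ)) → y = 0) : DenseRange T := by
  have h1 : (LinearMap.range (T : L2 n →ₗ[ℂ] L2 n)).topologicalClosure = ⊤ := by
    rw [Submodule.topologicalClosure_eq_top_iff, Submodule.eq_bot_iff]
    intro y hy
    refine h y fun g => ?_
    rw [Submodule.mem_orthogonal] at hy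
    exact hy _ ⟨g, rfl⟩
  have h2 := Submodule.dense_iff_topologicalClosure_eq_top.mpr h1
  exact h2

/-- strong convergence of contractions from a dense set -/
theorem tendsto_of_dense {ι : Type*} {L : Filter ι} {T : ι → L2 n →L[ℂ] L2 n}
    {T0 : L2 n →L[ℂ] L2 n} (hT : ∀ᶠ i in L, ∀ f, ‖T i f‖ ≤ ‖f‖) (h0 : ∀ f, ‖T0 f‖ ≤ ‖f‖)
    {P : L2 n →L[ℂ] L2 n} (hP : DenseRange P)
    (h : ∀ g, Tendsto (fun i => T i (P g)) L (𝓝 (T0 (P g)))) (f : L2 n) :
    Tendsto (fun i => T i f) L (𝓝 (T0 f)) := by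
  rw [Metric.tendsto_nhds]
  intro ε hε
  obtain ⟨g, hg⟩ := hP.exists_dist_lt f (ε := ε / 3) (by positivity)
  have h1 := Metric.tendsto_nhds.mp (h g) (ε / 3) (by positivity)
  filter_upwards [hT, h1] with i hi1 hi2
  have e1 : dist (T i f) (T i (P g)) ≤ dist f (P g) := by
    rw [dist_eq_norm, dist_eq_norm, ← map_sub]
    exact hi1 _
  have e2 : dist (T0 (P g)) (T0 f) ≤ dist f (P g) := by
    rw [dist_comm, dist_eq_norm, dist_eq_norm, ← map_sub]
    exact h0 _
  calc dist (T i f) (T0 f) ≤ dist (T i f) (T i (P g)) + dist (T i (P g)) (T0 (P g))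
        + dist (T0 (P g)) (T0 f) := dist_triangle4 _ _ _ _
    _ < ε / 3 + ε / 3 + ε / 3 := by
        have := hg
        linarith only [hi2, e1, e2, this]
    _ = ε := by ring

theorem inner_eq_zero_of_En {y : L2 n} (h : ∀ v ∈ En n, ⟪v, y⟫ = (0 : ℂ)) : y = 0 := by
  have h1 : ∀ v : L2 n, ⟪v, y⟫ = (0 : ℂ) := by
    have hc : IsClosed {v : L2 n | ⟪v, y⟫ = (0 : ℂ)} :=
      isClosed_eq (by fun_prop) continuous_const
    intro v
    have : v ∈ closure (En n) := dense_En v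
    exact hc.closure_subset_iff.mpr h this
  exact inner_self_eq_zero.mp (h1 y)

theorem denseRange_J (A : Coef n) : DenseRange (J A 1) := by
  refine denseRange_of_orth _ fun y hy => ?_
  have h1 : J A.adj 1 y = 0 := by
    have : ∀ g : L2 n, ⟪g, J A.adj 1 y⟫ = (0 : ℂ) := fun g => by
      rw [← inner_J A one_pos]; exact hy g
    exact inner_self_eq_zero.mp (this _)
  have h2 := J_spec A.adj one_pos y
  rw [h1] at h2
  refine inner_eq_zero_of_En fun v hv => ?_
  have h3 := h2.2 v hv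
  have h4 : form A.adj 0 v = 0 := by
    have := form_smul_left A.adj (0 : ℂ) (u := (0 : L2 n)) (v := v) En_zero
    simpa using this
  rw [h4] at h3
  simpa using h3.symm

theorem tendsto_J_zero (A : Coef n) (f : L2 n) :
    Tendsto (fun l : ℝ => J A l f) (𝓝[>] 0) (𝓝 f) := by
  have hT : ∀ᶠ l : ℝ in 𝓝[>] 0, ∀ f : L2 n, ‖J A l f‖ ≤ ‖f‖ := by
    filter_upwards [self_mem_nhdsWithin] with l hl f
    exact norm_J_le A hl f
  have := tendsto_of_dense (T := fun l : ℝ => J A l) (T0 := ContinuousLinearMap.id ℂ (L2 n))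
    (L := 𝓝[>] (0 : ℝ)) hT (fun f => le_rfl) (denseRange_J A) ?_ f
  · simpa using this
  · intro g
    have hd := InDom_J A one_pos g
    set u := J A 1 g with hu
    set w := (((1 : ℝ) : ℂ) ^ 2)⁻¹ • (g - u) with hw
    simp only [ContinuousLinearMap.coe_id', id_eq]
    rw [tendsto_iff_norm_sub_tendsto_zero]
    have hid : Tendsto (fun x : ℝ => x) (𝓝[>] 0) (𝓝 0) := nhdsWithin_le_nhds
    have h1 : Tendsto (fun l : ℝ => l ^ 2 * ‖w‖) (𝓝[>] 0) (𝓝 0) := by
      have := (hid.pow 2).mul_const ‖w‖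
      simpa using this
    refine squeeze_zero' (Eventually.of_forall fun i => norm_nonneg _) ?_ h1
    filter_upwards [self_mem_nhdsWithin] with l hl
    have hl' : (0 : ℝ) < l := hl
    have h2 := J_of_InDom A hl' hd
    have hl2 : (l : ℂ) ^ 2 ≠ 0 := by
      have : (l : ℂ) ≠ 0 := by exact_mod_cast hl'.ne'
      positivity
    have h3 : u - J A l u = (l : ℂ) ^ 2 • J A l w := by
      rw [h2, smul_smul, mul_inv_cancel₀ hl2, one_smul]
    rw [norm_sub_rev, h3, norm_smul, norm_pow, Complex.norm_real, Real.norm_eq_abs,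
      abs_of_pos hl']
    exact mul_le_mul_of_nonneg_left (norm_J_le A hl' w) (by positivity)

theorem tendsto_J_zero_comp (A : Coef n) {f : L2 n} {h : ℝ → L2 n}
    (hh : Tendsto h (𝓝[>] 0) (𝓝 f)) : Tendsto (fun l : ℝ => J A l (h l)) (𝓝[>] 0) (𝓝 f) := by
  have ih := tendsto_iff_norm_sub_tendsto_zero.mp hh
  refine tendsto_iff_norm_sub_tendsto_zero.mpr ?_
  have h1 := tendsto_iff_norm_sub_tendsto_zero.mp (tendsto_J_zero A f)
  have h2 := (ih.add h1).mono_right (le_of_eq (congrArg nhds (add_zero (0 : ℝ))))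
  refine squeeze_zero' (Eventually.of_forall fun i => norm_nonneg _) ?_ h2
  filter_upwards [self_mem_nhdsWithin] with l hl
  have hl' : (0 : ℝ) < l := hl
  have c2 : J A l (h l - f) = J A l (h l) - J A l f := map_sub (J A l) _ _
  have e : J A l (h l) - f = J A l (h l - f) + (J A l f - f) :=
    (sub_add_sub_cancel _ _ _).symm.trans (congrArg (fun w => w + (J A l f - f)) c2.symm)
  exact (congrArg norm e).le.trans
    ((norm_add_le _ _).trans (add_le_add (norm_J_le A hl' _) le_rfl))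

theorem tendsto_Jpow_zero (A : Coef n) (k : ℕ) (f : L2 n) :
    Tendsto (fun l : ℝ => (J A l ^ k) f) (𝓝[>] 0) (𝓝 f) := by
  induction k with
  | zero => simp
  | succ k ih =>
    have e : (fun l : ℝ => (J A l ^ (k + 1)) f) = fun l : ℝ => J A l ((J A l ^ k) f) := by
      funext x
      rw [pow_succ']
      rfl
    rw [e]
    exact tendsto_J_zero_comp A ih

theorem denseRange_one_sub_J (hn : 0 < n) (A : Coef n) :
    DenseRange (ContinuousLinearMap.id ℂ (L2 n) - J A 1) := by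
  refine denseRange_of_orth _ fun y hy => ?_
  have h1 : y - J A.adj 1 y = 0 := by
    have : ∀ g : L2 n, ⟪g, y - J A.adj 1 y⟫ = (0 : ℂ) := fun g => by
      have a1 : ⟪g, y - J A.adj 1 y⟫ = ⟪g, y⟫ - (⟪g, J A.adj 1 y⟫ : ℂ) := inner_sub_right _ _ _
      have a2 : (⟪J A 1 g, y⟫ : ℂ) = ⟪g, J A.adj 1 y⟫ := inner_J A one_pos g y
      have a3 : ⟪g - J A 1 g, y⟫ = ⟪g, y⟫ - (⟪J A 1 g, y⟫ : ℂ) := inner_sub_left _ _ _
      have a4 : (⟪g - J A 1 g, y⟫ : ℂ) = 0 := hy g
      exact a1.trans ((congrArg _ a2.symm).trans (a3.symm.trans a4))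
    exact inner_self_eq_zero.mp (this _)
  have h2 : J A.adj 1 y = y := (sub_eq_zero.mp h1).symm
  have h3 := InDom_J A.adj one_pos y
  have h4 : ∀ (u w : L2 n), u = y → w = 0 → InDom A.adj u w → InDom A.adj y 0 := by
    rintro u w rfl rfl h
    exact h
  exact InDom.eq_zero hn (h4 _ _ h2 ((congrArg _ h1).trans (smul_zero _)) h3)

theorem tendsto_J_atTop (hn : 0 < n) (A : Coef n) (f : L2 n) :
    Tendsto (fun l : ℝ => J A l f) atTop (𝓝 0) := by
  have hT : ∀ᶠ l : ℝ in atTop, ∀ f : L2 n, ‖J A l f‖ ≤ ‖f‖ := by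
    filter_upwards [eventually_gt_atTop 0] with l hl f
    exact norm_J_le A hl f
  have := tendsto_of_dense (T := fun l : ℝ => J A l) (T0 := (0 : L2 n →L[ℂ] L2 n))
    (L := (atTop : Filter ℝ)) hT (fun f => by simp) (denseRange_one_sub_J hn A) ?_ f
  · simpa using this
  · intro g
    have hd := InDom_J A one_pos g
    set u := J A 1 g with hu
    have e0 : (ContinuousLinearMap.id ℂ (L2 n) - J A 1) g = g - u := rfl
    have e1 : (((1 : ℝ) : ℂ) ^ 2)⁻¹ • (g - u) = g - u := by simp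
    rw [e1] at hd
    simp only [ContinuousLinearMap.zero_apply, e0]
    rw [tendsto_zero_iff_norm_tendsto_zero]
    have h1 : Tendsto (fun l : ℝ => (l ^ 2)⁻¹ * (2 * ‖u‖)) atTop (𝓝 0) := by
      have a : Tendsto (fun l : ℝ => (l ^ 2)⁻¹) atTop (𝓝 0) :=
        tendsto_inv_atTop_zero.comp (tendsto_pow_atTop (by norm_num))
      have := a.mul_const (2 * ‖u‖)
      simpa using this
    refine squeeze_zero' (Eventually.of_forall fun i => norm_nonneg _) ?_ h1
    filter_upwards [eventually_gt_atTop 0] with l hl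
    rw [J_of_InDom A hl hd, norm_smul, norm_inv, norm_pow, Complex.norm_real, Real.norm_eq_abs,
      abs_of_pos hl]
    refine mul_le_mul_of_nonneg_left ?_ (by positivity)
    refine (norm_sub_le _ _).trans ?_
    have := norm_J_le A hl u
    linarith only [this]

end

end Pool.Agent.W_eb6199
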