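import Pool.Agent.W_eb6199.Kato
import Pool.Agent.W_eb6199.ResCont

open MeasureTheory Complex Filter Topology
open scoped FourierTransform ComplexInnerProductSpace ENNReal NNReal

namespace Pool.Agent.W_eb6199

noncomputable section

variable {n : ℕ}

/-! the Kato square function estimate, integrated form. -/

private theorem katoInt_dyadic {F : ℝ → ℝ} {B : ℝ} (hF : ContinuousOn F (Set.Ioi 0))
    (hF0 : ∀ l, 0 ≤ F l)
    (h : ∀ s : ℝ, 1 ≤ s → s ≤ 2 → ∀ K : Finset ℤ, ∑ k ∈ K, F (s * ((2 : ℝ) ^ k)⁻¹) ≤ B)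
    {a b : ℝ} (ha : 0 < a) (hab : a ≤ b) : ∫ l in a..b, F l / l ≤ B := by
  have hB : 0 ≤ B := by simpa using h 1 le_rfl (by norm_num) ∅
  set g : ℝ → ℝ := fun l => F l / l with hg
  have hgc : ContinuousOn g (Set.Ioi 0) := hF.div continuousOn_id fun x hx => (ne_of_gt hx)
  have hg0 : ∀ l, 0 < l → 0 ≤ g l := fun l hl => div_nonneg (hF0 l) hl.le
  have hgi : ∀ x y : ℝ, 0 < x → 0 < y → IntervalIntegrable g volume x y := by
    intro x y hx hy
    refine (hgc.mono ?_).intervalIntegrable
    intro z hz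
    rw [Set.uIcc, Set.mem_Icc] at hz
    exact lt_of_lt_of_le (lt_min hx hy) hz.1
  obtain ⟨N, hN⟩ := pow_unbounded_of_one_lt (max b a⁻¹) (one_lt_two : (1 : ℝ) < 2)
  have hNb : b ≤ (2 : ℝ) ^ N := (le_max_left _ _).trans hN.le
  have hNa : ((2 : ℝ) ^ N)⁻¹ ≤ a := by
    rw [inv_le_comm₀ (by positivity) ha]
    exact (le_max_right _ _).trans hN.le
  let c : ℕ → ℝ := fun j => (2 : ℝ) ^ ((j : ℤ) - N)
  have hc0 : ∀ j, 0 < c j := fun j => by positivity
  have hc1 : ∀ j, c (j + 1) = c j * 2 := fun j => by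
    simp only [c]
    rw [← zpow_add_one₀ (by norm_num)]
    congr 1
    push_cast
    ring
  have hadj := intervalIntegral.sum_integral_adjacent_intervals (f := g) (μ := volume)
    (a := c) (n := 2 * N) (fun k _ => hgi _ _ (hc0 k) (hc0 (k + 1)))
  have hcz : c 0 = ((2 : ℝ) ^ N)⁻¹ := by
    simp only [c]
    rw [Nat.cast_zero, zero_sub, zpow_neg, zpow_natCast]
  have hcN : c (2 * N) = (2 : ℝ) ^ N := by
    simp only [c]
    rw [← zpow_natCast]
    congr 1
    push_cast
    ring
  -- enlarge the interval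
  have h1 : ∫ l in a..b, g l ≤ ∫ l in (c 0)..(c (2 * N)), g l := by
    rw [hcz, hcN]
    refine intervalIntegral.integral_mono_interval hNa hab hNb ?_
      (hgi _ _ (by positivity) (by positivity))
    rw [Filter.EventuallyLE, ae_restrict_iff' measurableSet_Ioc]
    refine Filter.Eventually.of_forall fun x hx => hg0 x ?_
    exact lt_of_le_of_lt (by positivity) hx.1
  -- rescaling
  have h2 : ∀ j, ∫ l in (c j)..(c (j + 1)), g l = ∫ s in (1 : ℝ)..2, F (s * c j) / s := by
    intro j
    have h3 := intervalIntegral.mul_integral_comp_mul_right (a := (1 : ℝ)) (b := 2) (f := g)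
      (c j)
    rw [one_mul, mul_comm 2 (c j), ← hc1] at h3
    rw [← h3, ← intervalIntegral.integral_const_mul]
    refine intervalIntegral.integral_congr fun s hs => ?_
    rw [Set.uIcc_of_le (by norm_num)] at hs
    have hs0 : s ≠ 0 := by linarith [hs.1]
    have := (hc0 j).ne'
    simp only [hg]
    field_simp
  have h4 : ∀ j ∈ Finset.range (2 * N),
      IntervalIntegrable (fun s => F (s * c j) / s) volume 1 2 := by
    intro j _
    refine ContinuousOn.intervalIntegrable ?_
    rw [Set.uIcc_of_le (by norm_num)]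
    refine ContinuousOn.div ?_ continuousOn_id fun s hs => (by linarith [hs.1] : s ≠ 0)
    refine hF.comp (by fun_prop) fun s hs => ?_
    exact mul_pos (by linarith [hs.1]) (hc0 j)
  refine h1.trans ?_
  rw [← hadj, Finset.sum_congr rfl fun j _ => h2 j,
    ← intervalIntegral.integral_finsetSum h4]
  calc ∫ s in (1 : ℝ)..2, ∑ j ∈ Finset.range (2 * N), F (s * c j) / s
      ≤ ∫ _ in (1 : ℝ)..2, B := by
        refine intervalIntegral.integral_mono_on (by norm_num)
          (by simpa [Finset.sum_fn] using IntervalIntegrable.sum _ h4) (by simp) ?_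
        intro s hs
        rw [← Finset.sum_div]
        have hs0 : 0 < s := by linarith [hs.1]
        rw [div_le_iff₀ hs0]
        have h5 := h s hs.1 hs.2 ((Finset.range (2 * N)).image fun j : ℕ => (N : ℤ) - j)
        rw [Finset.sum_image] at h5
        · have h6 : ∀ j : ℕ, ((2 : ℝ) ^ ((N : ℤ) - j))⁻¹ = c j := by
            intro j
            simp only [c]
            rw [← zpow_neg, neg_sub]
          simp only [h6] at h5
          nlinarith [hs.1]
        · intro x _ y _ hxy
          simp only at hxy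
          omega
    _ = B := by rw [intervalIntegral.integral_const]; norm_num

theorem exists_kato_int (A : Coef n) : ∃ C : ℝ, 0 < C ∧ ∀ u ∈ En n, ∀ a b : ℝ, 0 < a → a ≤ b →
    ∫ l in a..b, ‖(((l : ℂ)⁻¹) • (u - J A l u) : L2 n)‖ ^ 2 / l ≤ C * eD u := by
  obtain ⟨C, hC, h⟩ := exists_kato_sum A
  refine ⟨C, hC, fun u hu a b ha hab => ?_⟩
  refine katoInt_dyadic (F := fun l : ℝ => ‖(((l : ℂ)⁻¹) • (u - J A l u) : L2 n)‖ ^ 2)
    ?_ (fun l => by positivity) (fun s hs1 hs2 K => h s hs1 hs2 u hu K) ha hab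
  have h1 : ContinuousOn (fun l : ℝ => J A l u) (Set.Ioi 0) := by
    simpa using continuousOn_Jpow A 1 u
  have h2 : ContinuousOn (fun l : ℝ => ((l : ℂ)⁻¹)) (Set.Ioi 0) := by
    refine ContinuousOn.inv₀ (by fun_prop) fun x hx => ?_
    exact_mod_cast (ne_of_gt hx)
  exact (h2.smul (continuousOn_const.sub h1)).norm.pow 2

end

end Pool.Agent.W_eb6199
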