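import Pool.Agent.W_eb6199.DQ
import Pool.Agent.W_eb6199.TimeDQ

open MeasureTheory Complex Filter Topology
open scoped FourierTransform ComplexInnerProductSpace ENNReal NNReal

namespace Pool.Agent.W_eb6199

noncomputable section

variable {n : ℕ}

theorem BM.comp_sub {m : ST n → ℂ} (hm : BM m) (h : ST n) : BM fun z => m (z - h) :=
  ⟨hm.meas.comp (measurable_id.sub_const h), by
    obtain ⟨C, hC⟩ := hm.bdd
    exact ⟨C, fun z => hC _⟩⟩

/-! T08: product rule. -/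

private theorem norm_ev (j : Fin (n + 1)) : ‖(ev j : ST n)‖ = 1 := by
  unfold ev
  simp

theorem C1b.bm {m : ST n → ℂ} (hm : C1b m) : BM m :=
  ⟨hm.cd.continuous.measurable, hm.bdd⟩

theorem C1b.bm_pd {m : ST n → ℂ} (hm : C1b m) (j : Fin (n + 1)) : BM (pd j m) := by
  refine ⟨?_, ?_⟩
  · have h1 : Continuous (fderiv ℝ m) := hm.cd.continuous_fderiv (by norm_num)
    exact (h1.clm_apply continuous_const).measurable
  · obtain ⟨C, hC⟩ := hm.dbdd
    refine ⟨C, fun z => ?_⟩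
    unfold pd
    refine (ContinuousLinearMap.le_opNorm _ _).trans ?_
    rw [norm_ev, mul_one]
    exact hC z

theorem C1b.conj {m : ST n → ℂ} (hm : C1b m) : C1b fun z => (starRingEnd ℂ) (m z) := by
  obtain ⟨B, hB⟩ := hm.bdd
  obtain ⟨C, hC⟩ := hm.dbdd
  refine ⟨?_, ⟨B, fun z => ?_⟩, ⟨‖((Complex.conjCLE : ℂ ≃L[ℝ] ℂ) : ℂ →L[ℝ] ℂ)‖ * C, fun z => ?_⟩⟩
  · exact (Complex.conjCLE.contDiff (n := 1)).comp hm.cd
  · rw [RCLike.norm_conj]
    exact hB z
  · have h1 : fderiv ℝ (fun z => (starRingEnd ℂ) (m z)) z =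
        ((Complex.conjCLE : ℂ ≃L[ℝ] ℂ) : ℂ →L[ℝ] ℂ).comp (fderiv ℝ m z) :=
      (Complex.conjCLE : ℂ ≃L[ℝ] ℂ).comp_fderiv (f := m) (x := z)
    rw [h1]
    refine (ContinuousLinearMap.opNorm_comp_le _ _).trans ?_
    exact mul_le_mul_of_nonneg_left (hC z) (norm_nonneg _)

theorem C1b.mul {m m' : ST n → ℂ} (hm : C1b m) (hm' : C1b m') : C1b fun z => m z * m' z := by
  obtain ⟨B, hB⟩ := hm.bdd
  obtain ⟨C, hC⟩ := hm.dbdd
  obtain ⟨B', hB'⟩ := hm'.bdd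
  obtain ⟨C', hC'⟩ := hm'.dbdd
  have hB0 : 0 ≤ B := (norm_nonneg _).trans (hB 0)
  have hB0' : 0 ≤ B' := (norm_nonneg _).trans (hB' 0)
  refine ⟨hm.cd.mul hm'.cd, ⟨B * B', fun z => ?_⟩, ⟨B * C' + B' * C, fun z => ?_⟩⟩
  · rw [norm_mul]
    exact mul_le_mul (hB z) (hB' z) (norm_nonneg _) hB0
  · have h1 : fderiv ℝ (fun z => m z * m' z) z = m z • fderiv ℝ m' z + m' z • fderiv ℝ m z :=
      fderiv_fun_mul (hm.cd.differentiable (by norm_num) z)
        (hm'.cd.differentiable (by norm_num) z)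
    rw [h1]
    refine (norm_add_le _ _).trans (add_le_add ?_ ?_)
    · rw [norm_smul]
      exact mul_le_mul (hB z) (hC' z) (norm_nonneg _) hB0
    · rw [norm_smul]
      exact mul_le_mul (hB' z) (hC z) (norm_nonneg _) hB0'

/-- difference of a function in the direction `j` -/
private def dm (j : Fin (n + 1)) (m : ST n → ℂ) (s : ℝ) (z : ST n) : ℂ := m z - m (z - s • ev j)

private theorem hasDerivAt_line {m : ST n → ℂ} (hm : C1b m) (j : Fin (n + 1)) (z : ST n)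
    (t : ℝ) : HasDerivAt (fun t : ℝ => m (z - t • ev j)) (-(pd j m (z - t • ev j))) t := by
  have h1 : HasDerivAt (fun t : ℝ => z - t • ev j) (-((1 : ℝ) • ev j)) t := by
    have h2 : HasDerivAt (fun t : ℝ => t • (ev j : ST n)) ((1 : ℝ) • ev j) t :=
      (hasDerivAt_id t).smul_const _
    exact h2.const_sub z
  have h3 := (hm.cd.differentiable (by norm_num) (z - t • ev j)).hasFDerivAt
  have h4 := h3.comp_hasDerivAt t h1
  rw [one_smul, map_neg] at h4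
  exact h4

private theorem norm_dm_le {m : ST n → ℂ} (hm : C1b m) (j : Fin (n + 1)) {C : ℝ}
    (hC : ∀ z, ‖pd j m z‖ ≤ C) (s : ℝ) (z : ST n) : ‖dm j m s z‖ ≤ C * |s| := by
  have h := Convex.norm_image_sub_le_of_norm_deriv_le (𝕜 := ℝ)
    (f := fun t : ℝ => m (z - t • ev j)) (C := C) (s := Set.univ) (x := s) (y := 0)
    (fun t _ => (hasDerivAt_line hm j z t).differentiableAt)
    (fun t _ => by
      rw [(hasDerivAt_line hm j z t).deriv, norm_neg]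
      exact hC _) convex_univ (Set.mem_univ _) (Set.mem_univ _)
  rw [zero_smul, sub_zero, zero_sub, norm_neg, Real.norm_eq_abs] at h
  exact h

private theorem bm_dm {m : ST n → ℂ} (hm : C1b m) (j : Fin (n + 1)) (s : ℝ) :
    BM (dm j m s) := by
  obtain ⟨B, hB⟩ := hm.bdd
  refine ⟨hm.bm.meas.sub (hm.bm.comp_sub (s • ev j)).meas, B + B, fun z => ?_⟩
  exact (norm_sub_le _ _).trans (add_le_add (hB _) (hB _))

private theorem tendsto_dm {m : ST n → ℂ} (hm : C1b m) (j : Fin (n + 1)) (z : ST n) :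
    Tendsto (fun s : ℝ => (s : ℂ)⁻¹ * dm j m s z) (𝓝[≠] 0) (𝓝 (pd j m z)) := by
  have h := (hasDerivAt_iff_tendsto_slope_zero.1 (hasDerivAt_line hm j z 0)).neg
  simp only [zero_smul, sub_zero, zero_add, neg_neg] at h
  refine h.congr fun s => ?_
  rw [Complex.real_smul, Complex.ofReal_inv, ← mul_neg, neg_sub]
  rfl

private theorem sub_tr_mulOp {m : ST n → ℂ} (hm : C1b m) (j : Fin (n + 1)) (s : ℝ) (u : L2 n) :
    mulOp m u - tr (s • ev j) (mulOp m u) =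
      mulOp m (u - tr (s • ev j) u) + mulOp (dm j m s) (tr (s • ev j) u) := by
  rw [tr_mulOp hm.bm, map_sub]
  have h1 : mulOp (dm j m s) (tr (s • ev j) u) + mulOp (fun z => m (z - s • ev j))
      (tr (s • ev j) u) = mulOp m (tr (s • ev j) u) := by
    rw [← mulOp_add (bm_dm hm j s) (hm.bm.comp_sub _)]
    congr 2
    funext z
    unfold dm
    ring
  rw [← h1]
  abel

private theorem dq_mulOp {m : ST n → ℂ} (hm : C1b m) (j : Fin (n + 1)) (s : ℝ) (u : L2 n) :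
    ((s : ℂ)⁻¹) • (mulOp m u - tr (s • ev j) (mulOp m u)) =
      mulOp m (((s : ℂ)⁻¹) • (u - tr (s • ev j) u)) +
        mulOp (fun z => (s : ℂ)⁻¹ * dm j m s z) (tr (s • ev j) u) := by
  rw [sub_tr_mulOp hm, smul_add, map_smul, mulOp_const_mul (bm_dm hm j s)]

private theorem ofReal_aux {x a b c d : ℝ} (ha : 0 ≤ a) (hb : 0 ≤ b) (hc : 0 ≤ c) (hd : 0 ≤ d)
    (h : x ≤ a * b + c * d) : ENNReal.ofReal x ≤
      ENNReal.ofReal a * ENNReal.ofReal b + ENNReal.ofReal c * ENNReal.ofReal d := by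
  rw [← ENNReal.ofReal_mul ha, ← ENNReal.ofReal_mul hc,
    ← ENNReal.ofReal_add (mul_nonneg ha hb) (mul_nonneg hc hd)]
  exact ENNReal.ofReal_le_ofReal h

private theorem tendsto_sub_add_aux {E : Type*} [AddCommGroup E] [TopologicalSpace E]
    [IsTopologicalAddGroup E] {f g k : ℝ → E} {l : Filter ℝ} {x : E}
    (hf : Tendsto f l (𝓝 0)) (hg : Tendsto g l (𝓝 x)) (h : ∀ s, k s = f s + g s) :
    Tendsto k l (𝓝 x) := by
  have h6 := hf.add hg
  rw [zero_add] at h6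
  exact h6.congr fun s => (h s).symm

private theorem map_sub_add_aux {E F : Type*} [AddCommGroup E] [AddCommGroup F] {L : Type*}
    [FunLike L E F] [AddMonoidHomClass L E F] (T : L) (a b : E) : T a = T (a - b) + T b := by
  rw [map_sub, sub_add_cancel]

private theorem tendsto_mulOp_dm {m : ST n → ℂ} (hm : C1b m) (j : Fin (n + 1)) (u : L2 n) :
    Tendsto (fun s : ℝ => mulOp (fun z => (s : ℂ)⁻¹ * dm j m s z) (tr (s • ev j) u)) (𝓝[≠] 0)
      (𝓝 (mulOp (pd j m) u)) := by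
  obtain ⟨C, hC⟩ := (hm.bm_pd j).bdd
  have hC0 : 0 ≤ C := (norm_nonneg _).trans (hC 0)
  have hbd : ∀ (s : ℝ) (z : ST n), ‖(s : ℂ)⁻¹ * dm j m s z‖ ≤ C := by
    intro s z
    by_cases hs : s = 0
    · rw [hs]
      simpa using hC0
    · rw [norm_mul, norm_inv, Complex.norm_real, Real.norm_eq_abs]
      have h1 := norm_dm_le hm j hC s z
      have h2 : 0 < |s| := abs_pos.2 hs
      rw [inv_mul_le_iff₀ h2, mul_comm]
      exact h1
  have hmeas : ∀ s : ℝ, Measurable fun z => (s : ℂ)⁻¹ * dm j m s z := fun s =>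
    (bm_dm hm j s).meas.const_mul _
  have h1 : Tendsto (fun s : ℝ => mulOp (fun z => (s : ℂ)⁻¹ * dm j m s z) u) (𝓝[≠] 0)
      (𝓝 (mulOp (pd j m) u)) :=
    tendsto_mulOp hmeas (hm.bm_pd j).meas hbd
      (Filter.Eventually.of_forall fun z => tendsto_dm hm j z) hC u
  have h2 : Tendsto (fun s : ℝ => mulOp (fun z => (s : ℂ)⁻¹ * dm j m s z)
      (tr (s • ev j) u - u)) (𝓝[≠] 0) (𝓝 0) := by
    have h3 : Tendsto (fun s : ℝ => C * ‖tr (s • ev j) u - u‖) (𝓝[≠] 0) (𝓝 0) := by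
      have h4 : Continuous fun s : ℝ => C * ‖tr (s • ev j) u - u‖ :=
        continuous_const.mul ((continuous_tr_ev j u).sub continuous_const).norm
      have h5 := h4.tendsto 0
      rw [zero_smul, tr_zero, sub_self, norm_zero, mul_zero] at h5
      exact h5.mono_left nhdsWithin_le_nhds
    exact squeeze_zero_norm (fun s => norm_mulOp_le (hmeas s) (hbd s) _) h3
  exact tendsto_sub_add_aux h2 h1 fun s => map_sub_add_aux _ _ _

/-- product rule for the full derivatives (all `j`, also time) -/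
theorem FMul_mulOp {m : ST n → ℂ} (hm : C1b m) {j : Fin (n + 1)} {u w : L2 n}
    (h : FMul (dsym j) u w) : FMul (dsym j) (mulOp m u) (mulOp m w + mulOp (pd j m) u) := by
  have hs0 : ∀ k : ℕ, (1 / ((k : ℝ) + 1)) ≠ 0 := fun k => by positivity
  have hs1 : Tendsto (fun k : ℕ => 1 / ((k : ℝ) + 1)) atTop (𝓝 0) :=
    tendsto_one_div_add_atTop_nhds_zero_nat
  have hs2 : Tendsto (fun k : ℕ => 1 / ((k : ℝ) + 1)) atTop (𝓝[≠] 0) := by
    rw [tendsto_nhdsWithin_iff]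
    exact ⟨hs1, Filter.Eventually.of_forall fun k => hs0 k⟩
  refine FMul_of_dq_weak hs0 hs1 fun y => ?_
  have h1 : Tendsto (fun s : ℝ => ((s : ℂ)⁻¹) • (mulOp m u - tr (s • ev j) (mulOp m u)))
      (𝓝[≠] 0) (𝓝 (mulOp m w + mulOp (pd j m) u)) := by
    refine Tendsto.congr (fun s => (dq_mulOp hm j s u).symm) ?_
    exact (((mulOp m).continuous.tendsto w).comp (tendsto_dq_of_FMul h)).add
      (tendsto_mulOp_dm hm j u)
  exact Filter.Tendsto.inner tendsto_const_nhds (h1.comp hs2)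

private theorem lint_min {a b : ℝ} (ha : 0 ≤ a) (hb : 0 ≤ b) :
    ∫⁻ s : ℝ, ENNReal.ofReal ((min a (b * |s|)) ^ 2 / s ^ 2)
      ≤ ENNReal.ofReal (2 * Real.pi * (a * b)) := by
  rcases ha.eq_or_lt with h0 | ha'
  · have h1 : ∀ s : ℝ, (min a (b * |s|)) ^ 2 / s ^ 2 = 0 := by
      intro s
      rw [← h0, min_eq_left (by positivity)]
      simp
    simp [h1]
  rcases hb.eq_or_lt with h0 | hb'
  · have h1 : ∀ s : ℝ, (min a (b * |s|)) ^ 2 / s ^ 2 = 0 := by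
      intro s
      rw [← h0, zero_mul, min_eq_right ha]
      simp
    simp [h1]
  have hint : Integrable (fun s : ℝ => 2 * b ^ 2 * (1 + (b / a * s) ^ 2)⁻¹) := by
    have h1 : Integrable fun x : ℝ => (1 + x ^ 2)⁻¹ := integrable_inv_one_add_sq
    exact (h1.comp_mul_left' (by positivity)).const_mul _
  have hval : ∫ s : ℝ, 2 * b ^ 2 * (1 + (b / a * s) ^ 2)⁻¹ = 2 * Real.pi * (a * b) := by
    rw [integral_const_mul, Measure.integral_comp_mul_left (fun x : ℝ => (1 + x ^ 2)⁻¹) (b / a),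
      integral_univ_inv_one_add_sq, smul_eq_mul, abs_of_pos (by positivity)]
    field_simp
  calc ∫⁻ s : ℝ, ENNReal.ofReal ((min a (b * |s|)) ^ 2 / s ^ 2)
      ≤ ∫⁻ s : ℝ, ENNReal.ofReal (2 * b ^ 2 * (1 + (b / a * s) ^ 2)⁻¹) := by
        refine lintegral_mono fun s => ENNReal.ofReal_le_ofReal ?_
        by_cases hs : s = 0
        · rw [hs]
          simp
          positivity
        have hs2 : 0 < s ^ 2 := by positivity
        have hμ0 : 0 ≤ min a (b * |s|) := le_min ha (by positivity)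
        have h1 : (min a (b * |s|)) ^ 2 ≤ b ^ 2 * s ^ 2 := by
          have := pow_le_pow_left₀ hμ0 (min_le_right a (b * |s|)) 2
          rwa [mul_pow, sq_abs] at this
        have h2 : (min a (b * |s|)) ^ 2 ≤ a ^ 2 := pow_le_pow_left₀ hμ0 (min_le_left _ _) 2
        have h3 : 0 < 1 + (b / a * s) ^ 2 := by positivity
        rw [div_le_iff₀ hs2, mul_assoc, mul_comm ((1 + (b / a * s) ^ 2)⁻¹), ← mul_assoc,
          ← div_eq_mul_inv, le_div_iff₀ h3]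
        have h4 : (min a (b * |s|)) ^ 2 * (b / a * s) ^ 2 ≤ b ^ 2 * s ^ 2 := by
          calc (min a (b * |s|)) ^ 2 * (b / a * s) ^ 2 ≤ a ^ 2 * (b / a * s) ^ 2 :=
                mul_le_mul_of_nonneg_right h2 (by positivity)
            _ = b ^ 2 * s ^ 2 := by field_simp
        nlinarith [h1, h4]
    _ = ENNReal.ofReal (2 * Real.pi * (a * b)) := by
        rw [← ofReal_integral_eq_lintegral_ofReal hint
          (Filter.Eventually.of_forall fun s => by positivity), hval]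

private theorem norm_sub_tr_mulOp_le {m : ST n → ℂ} (hm : C1b m) {B B₀ : ℝ}
    (hB : ∀ z, ‖m z‖ ≤ B) (hB₀ : ∀ z, ‖pd 0 m z‖ ≤ B₀) (u : L2 n) (s : ℝ) :
    ‖mulOp m u - tr (s • ev 0) (mulOp m u)‖ ≤
      B * ‖u - tr (s • ev 0) u‖ + min (2 * B) (B₀ * |s|) * ‖u‖ := by
  rw [sub_tr_mulOp hm]
  refine (norm_add_le _ _).trans (add_le_add (norm_mulOp_le hm.bm.meas hB _) ?_)
  have h1 : ∀ z, ‖dm 0 m s z‖ ≤ min (2 * B) (B₀ * |s|) := by
    intro z
    refine le_min ?_ (norm_dm_le hm 0 hB₀ s z)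
    refine (norm_sub_le _ _).trans ?_
    have := add_le_add (hB z) (hB (z - s • ev 0))
    linarith
  have h2 := norm_mulOp_le (bm_dm hm 0 s).meas h1 (tr (s • ev 0) u)
  rwa [LinearIsometry.norm_map] at h2

private theorem lint_mulOp_le {m : ST n → ℂ} (hm : C1b m) {B B₀ : ℝ}
    (hB : ∀ z, ‖m z‖ ≤ B) (hB₀ : ∀ z, ‖pd 0 m z‖ ≤ B₀) (u : L2 n) :
    ∫⁻ s : ℝ, ENNReal.ofReal (‖mulOp m u - tr (s • ev 0) (mulOp m u)‖ ^ 2 / s ^ 2) ≤
      ENNReal.ofReal (2 * B ^ 2) *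
        (∫⁻ s : ℝ, ENNReal.ofReal (‖u - tr (s • ev 0) u‖ ^ 2 / s ^ 2)) +
      ENNReal.ofReal (2 * ‖u‖ ^ 2) * ENNReal.ofReal (2 * Real.pi * (2 * B * B₀)) := by
  have hB0 : 0 ≤ B := (norm_nonneg _).trans (hB 0)
  have hB00 : 0 ≤ B₀ := (norm_nonneg _).trans (hB₀ 0)
  have hpt : ∀ s : ℝ, ENNReal.ofReal (‖mulOp m u - tr (s • ev 0) (mulOp m u)‖ ^ 2 / s ^ 2) ≤
      ENNReal.ofReal (2 * B ^ 2) * ENNReal.ofReal (‖u - tr (s • ev 0) u‖ ^ 2 / s ^ 2) +
      ENNReal.ofReal (2 * ‖u‖ ^ 2) *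
        ENNReal.ofReal ((min (2 * B) (B₀ * |s|)) ^ 2 / s ^ 2) := by
    intro s
    refine ofReal_aux (by positivity) (by positivity) (by positivity) (by positivity) ?_
    have h1 := norm_sub_tr_mulOp_le hm hB hB₀ u s
    set x := B * ‖u - tr (s • ev 0) u‖
    set y := min (2 * B) (B₀ * |s|) * ‖u‖
    have h2 : ‖mulOp m u - tr (s • ev 0) (mulOp m u)‖ ^ 2 ≤ 2 * x ^ 2 + 2 * y ^ 2 := by
      have h3 := pow_le_pow_left₀ (norm_nonneg _) h1 2
      nlinarith [sq_nonneg (x - y)]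
    have h4 : ‖mulOp m u - tr (s • ev 0) (mulOp m u)‖ ^ 2 / s ^ 2 ≤
        (2 * x ^ 2 + 2 * y ^ 2) / s ^ 2 := div_le_div_of_nonneg_right h2 (by positivity)
    refine h4.trans (le_of_eq ?_)
    simp only [x, y]
    ring
  have hm1 : Measurable fun s : ℝ => ENNReal.ofReal (‖u - tr (s • ev 0) u‖ ^ 2 / s ^ 2) := by
    have h1 : Continuous fun s : ℝ => ‖u - tr (s • ev 0) u‖ ^ 2 :=
      ((continuous_const.sub (continuous_tr_ev 0 u)).norm).pow 2
    exact (h1.measurable.div (measurable_id.pow_const 2)).ennreal_ofReal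
  calc ∫⁻ s : ℝ, ENNReal.ofReal (‖mulOp m u - tr (s • ev 0) (mulOp m u)‖ ^ 2 / s ^ 2)
      ≤ ∫⁻ s : ℝ, (ENNReal.ofReal (2 * B ^ 2) *
          ENNReal.ofReal (‖u - tr (s • ev 0) u‖ ^ 2 / s ^ 2) +
        ENNReal.ofReal (2 * ‖u‖ ^ 2) *
          ENNReal.ofReal ((min (2 * B) (B₀ * |s|)) ^ 2 / s ^ 2)) := lintegral_mono hpt
    _ = ENNReal.ofReal (2 * B ^ 2) *
          (∫⁻ s : ℝ, ENNReal.ofReal (‖u - tr (s • ev 0) u‖ ^ 2 / s ^ 2)) +
        ENNReal.ofReal (2 * ‖u‖ ^ 2) *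
          ∫⁻ s : ℝ, ENNReal.ofReal ((min (2 * B) (B₀ * |s|)) ^ 2 / s ^ 2) := by
        rw [lintegral_add_left (hm1.const_mul _), lintegral_const_mul' _ _ ENNReal.ofReal_ne_top,
          lintegral_const_mul' _ _ ENNReal.ofReal_ne_top]
    _ ≤ _ := by
        gcongr
        exact lint_min (by positivity) hB00

theorem En_mulOp {m : ST n → ℂ} (hm : C1b m) {u : L2 n} (hu : u ∈ En n) :
    mulOp m u ∈ En n := by
  intro j
  refine Fin.cases ?_ (fun i => ?_) j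
  · obtain ⟨B, hB⟩ := hm.bdd
    obtain ⟨B₀, hB₀⟩ := (hm.bm_pd 0).bdd
    obtain ⟨c, _, hc⟩ := exists_ct
    refine FMul_of_lintegral ((lint_mulOp_le hm hB hB₀ u).trans_lt ?_)
    rw [hc n u _ (FMul_D hu 0)]
    exact ENNReal.add_lt_top.2 ⟨ENNReal.mul_lt_top ENNReal.ofReal_lt_top ENNReal.ofReal_lt_top,
      ENNReal.mul_lt_top ENNReal.ofReal_lt_top ENNReal.ofReal_lt_top⟩
  · have h := FMul_D hu i.succ
    rw [gsym_succ'] at h ⊢
    exact ⟨_, FMul_mulOp hm h⟩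

theorem D_succ_mulOp {m : ST n → ℂ} (hm : C1b m) {u : L2 n} (hu : u ∈ En n) (i : Fin n) :
    D i.succ (mulOp m u) = mulOp m (D i.succ u) + mulOp (pd i.succ m) u := by
  have h := FMul_D hu i.succ
  apply D_eq
  rw [gsym_succ'] at h ⊢
  exact FMul_mulOp hm h

theorem exists_norm_D0_mulOp_le : ∃ K : ℝ, 0 ≤ K ∧ ∀ (n : ℕ) (m : ST n → ℂ), C1b m →
    ∀ B B₀ : ℝ, (∀ z, ‖m z‖ ≤ B) → (∀ z, ‖pd 0 m z‖ ≤ B₀) → ∀ u ∈ En n,
    ‖D 0 (mulOp m u)‖ ≤ K * (B * ‖D 0 u‖ + Real.sqrt (B * B₀) * ‖u‖) := by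
  obtain ⟨c, hc0, hc⟩ := exists_ct
  refine ⟨Real.sqrt 2 + Real.sqrt (8 * Real.pi / c), by positivity, ?_⟩
  intro n m hm B B₀ hB hB₀ u hu
  have hB0 : 0 ≤ B := (norm_nonneg _).trans (hB 0)
  have hB00 : 0 ≤ B₀ := (norm_nonneg _).trans (hB₀ 0)
  have h1 := lint_mulOp_le hm hB hB₀ u
  rw [hc n u _ (FMul_D hu 0), hc n _ _ (FMul_D (En_mulOp hm hu) 0),
    ← ENNReal.ofReal_mul (by positivity), ← ENNReal.ofReal_mul (by positivity),
    ← ENNReal.ofReal_add (by positivity) (by positivity),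
    ENNReal.ofReal_le_ofReal_iff (by positivity)] at h1
  have h2 : ‖D 0 (mulOp m u)‖ ^ 2 ≤
      2 * (B * ‖D 0 u‖) ^ 2 + 8 * Real.pi / c * (Real.sqrt (B * B₀) * ‖u‖) ^ 2 := by
    rw [mul_pow (Real.sqrt (B * B₀)), Real.sq_sqrt (by positivity)]
    have h3 : ‖D 0 (mulOp m u)‖ ^ 2 ≤ (2 * B ^ 2 * (c * ‖D 0 u‖ ^ 2) +
        2 * ‖u‖ ^ 2 * (2 * Real.pi * (2 * B * B₀))) / c := by
      rw [le_div_iff₀ hc0, mul_comm]
      exact h1
    refine h3.trans (le_of_eq ?_)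
    field_simp
    ring
  have hx : 0 ≤ B * ‖D 0 u‖ := by positivity
  have hy : 0 ≤ Real.sqrt (B * B₀) * ‖u‖ := by positivity
  set x := B * ‖D 0 u‖
  set y := Real.sqrt (B * B₀) * ‖u‖
  set a := Real.sqrt 2
  set b := Real.sqrt (8 * Real.pi / c)
  have ha : a ^ 2 = 2 := Real.sq_sqrt (by norm_num)
  have hb : b ^ 2 = 8 * Real.pi / c := Real.sq_sqrt (by positivity)
  have ha0 : 0 ≤ a := Real.sqrt_nonneg _
  have hb0 : 0 ≤ b := Real.sqrt_nonneg _
  rw [← ha, ← hb] at h2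
  refine le_of_sq_le_sq ?_ (by positivity)
  refine h2.trans ?_
  have e1 : 0 ≤ a * b := by positivity
  have e2 : 0 ≤ x * y := by positivity
  nlinarith [mul_nonneg (sq_nonneg a) (sq_nonneg y), mul_nonneg (sq_nonneg b) (sq_nonneg x),
    mul_nonneg e1 (sq_nonneg (x + y)), mul_nonneg e2 (sq_nonneg a), mul_nonneg e2 (sq_nonneg b)]

theorem time_form_mulOp {m : ST n → ℂ} (hm : C1b m) {u v : L2 n} (hu : u ∈ En n)
    (hv : v ∈ En n) :
    ⟪D 0 v, Ht (D 0 (mulOp m u))⟫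
      = ⟪D 0 (mulOp (fun z => (starRingEnd ℂ) (m z)) v), Ht (D 0 u)⟫
        + ⟪v, mulOp (pd 0 m) u⟫ := by
  have h1 := tendsto_time_form (En_mulOp hm hu) hv
  have h2 := tendsto_time_form hu (En_mulOp hm.conj hv)
  have h3 : Tendsto (fun s : ℝ => ⟪v, mulOp (fun z => (s : ℂ)⁻¹ * dm 0 m s z)
      (tr (s • ev 0) u)⟫) (𝓝[≠] 0) (𝓝 ⟪v, mulOp (pd 0 m) u⟫) :=
    Filter.Tendsto.inner tendsto_const_nhds (tendsto_mulOp_dm hm 0 u)
  refine tendsto_nhds_unique h1 ((h2.add h3).congr fun s => ?_)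
  rw [dq_mulOp hm, inner_add_right, inner_mulOp_right hm.bm]

end

end Pool.Agent.W_eb6199
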