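import Pool.Agent.W_eb6199.DHalf
import Pool.Agent.W_eb6199.Prod
import Pool.Agent.W_eb6199.DwLemmas

open MeasureTheory Complex Filter Topology
open scoped FourierTransform ComplexInnerProductSpace ENNReal NNReal

namespace Pool.Agent.W_eb6199

noncomputable section

variable {n : ℕ}

/-! T21: `L¹(s)` bounds of `D j u` for `u = e^{-c Dw/l} w`. -/

/-- the weight `e^{-c Dw/l}` -/
def mDw (c l : ℝ) (z₀ z : ST n) : ℂ := (Real.exp (-(c * (Dw l z₀ z / l))) : ℂ)

theorem norm_mDw (c l : ℝ) (z₀ z : ST n) :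
    ‖mDw c l z₀ z‖ = Real.exp (-(c * (Dw l z₀ z / l))) := by
  unfold mDw
  rw [Complex.norm_real, Real.norm_eq_abs, abs_of_pos (Real.exp_pos _)]

theorem norm_mDw_le {c l : ℝ} (hc : 0 < c) (hl : 0 < l) (z₀ z : ST n) :
    ‖mDw c l z₀ z‖ ≤ 1 := by
  rw [norm_mDw, Real.exp_le_one_iff]
  have := Dw_nonneg hl z₀ z
  have : 0 ≤ c * (Dw l z₀ z / l) := by positivity
  linarith

theorem hasFDerivAt_mDw {c l : ℝ} (hl : 0 < l) (z₀ z : ST n) :
    HasFDerivAt (mDw c l z₀) (Complex.ofRealCLM.comp (Real.exp (-(c * (Dw l z₀ z / l))) •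
      ((-(c / l)) • fderiv ℝ (Dw l z₀) z))) z := by
  have h1 : HasFDerivAt (Dw l z₀) (fderiv ℝ (Dw l z₀) z) z :=
    ((contDiff_Dw hl z₀).differentiable (by norm_num)).differentiableAt.hasFDerivAt
  have h2 : HasFDerivAt (fun z => -(c * (Dw l z₀ z / l))) ((-(c / l)) • fderiv ℝ (Dw l z₀) z) z := by
    have h3 := h1.const_mul (-(c / l))
    refine h3.congr_of_eventuallyEq (Filter.Eventually.of_forall fun y => ?_)
    show -(c * (Dw l z₀ y / l)) = -(c / l) * Dw l z₀ y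
    ring
  have h4 := h2.exp
  exact (Complex.ofRealCLM.hasFDerivAt.comp z h4)

theorem fderiv_mDw_apply {c l : ℝ} (hl : 0 < l) (z₀ z v : ST n) :
    fderiv ℝ (mDw c l z₀) z v
      = ((Real.exp (-(c * (Dw l z₀ z / l))) * (-(c / l) * fderiv ℝ (Dw l z₀) z v) : ℝ) : ℂ) := by
  rw [(hasFDerivAt_mDw hl z₀ z).fderiv]
  simp

theorem norm_pd_mDw {c l : ℝ} (hc : 0 < c) (hl : 0 < l) (z₀ z : ST n) (j : Fin (n + 1)) :
    ‖pd j (mDw c l z₀) z‖ = ‖mDw c l z₀ z‖ * ((c / l) * |fderiv ℝ (Dw l z₀) z (ev j)|) := by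
  unfold pd
  rw [fderiv_mDw_apply hl, norm_mDw, Complex.norm_real, Real.norm_eq_abs, abs_mul, abs_mul,
    abs_of_pos (Real.exp_pos _), abs_neg, abs_of_pos (div_pos hc hl)]

theorem opNorm_le_sum (L : ST n →L[ℝ] ℂ) : ‖L‖ ≤ ∑ j, ‖L (ev j)‖ := by
  refine L.opNorm_le_bound (Finset.sum_nonneg fun j _ => norm_nonneg _) fun v => ?_
  have h1 : v = ∑ j, v j • ev j := by
    have := (EuclideanSpace.basisFun (Fin (n + 1)) ℝ).sum_repr v
    conv_lhs => rw [← this]
    refine Finset.sum_congr rfl fun j _ => ?_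
    simp [ev]
  conv_lhs => rw [h1]
  rw [map_sum, Finset.sum_mul]
  refine norm_sum_le_of_le _ fun j _ => ?_
  rw [map_smul, norm_smul, mul_comm]
  exact mul_le_mul_of_nonneg_left (PiLp.norm_apply_le v j) (norm_nonneg _)

theorem C1b_mDw {c l : ℝ} (hc : 0 < c) (hl : 0 < l) (z₀ : ST n) : C1b (mDw c l z₀) where
  cd := by
    have h1 : ContDiff ℝ 1 (fun z => -(c * (Dw l z₀ z / l))) :=
      (contDiff_const.mul ((contDiff_Dw hl z₀).div_const l)).neg
    exact Complex.ofRealCLM.contDiff.comp h1.exp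
  bdd := ⟨1, fun z => norm_mDw_le hc hl z₀ z⟩
  dbdd := by
    refine ⟨∑ j : Fin (n + 1), (c / l) * (1 + 1 / l), fun z => ?_⟩
    refine (opNorm_le_sum _).trans (Finset.sum_le_sum fun j _ => ?_)
    have h1 := norm_pd_mDw hc hl z₀ z j
    unfold pd at h1
    rw [h1]
    have hcl : 0 < c / l := div_pos hc hl
    have hl1 : 0 < 1 / l := by positivity
    have h2 : |fderiv ℝ (Dw l z₀) z (ev j)| ≤ 1 + 1 / l := by
      refine Fin.cases ?_ (fun i => ?_) j
      · exact (abs_fderiv_Dw_zero hl z₀ z).trans (by linarith)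
      · exact (abs_fderiv_Dw_succ hl z₀ z i).trans (by linarith)
    calc ‖mDw c l z₀ z‖ * ((c / l) * |fderiv ℝ (Dw l z₀) z (ev j)|)
        ≤ 1 * ((c / l) * (1 + 1 / l)) := by
          refine mul_le_mul (norm_mDw_le hc hl z₀ z) ?_ (by positivity) zero_le_one
          exact mul_le_mul_of_nonneg_left h2 hcl.le
      _ = (c / l) * (1 + 1 / l) := one_mul _

theorem enorm_mDw_sq (c l : ℝ) (z₀ z : ST n) :
    ‖mDw c l z₀ z‖ₑ ^ 2 = ENNReal.ofReal (Real.exp (-(2 * c * (Dw l z₀ z / l)))) := by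
  rw [← ofReal_norm, norm_mDw, ← ENNReal.ofReal_pow (Real.exp_pos _).le, ← Real.exp_nat_mul]
  congr 2
  push_cast
  ring

/-- pairing with a function bounded by `1` and supported in `s` -/
theorem enorm_inner_le_of_supp {s : Set (ST n)} (hs : MeasurableSet s) {g : L2 n}
    (hg : ∀ᵐ z ∂(volume : Measure (ST n)), ‖g z‖ ≤ 1) (hgs : SuppIn g s) (v : L2 n) :
    ‖(⟪g, v⟫ : ℂ)‖ₑ ≤ ∫⁻ z in s, ‖v z‖ₑ := by
  rw [L2.inner_def]
  refine (enorm_integral_le_lintegral_enorm _).trans ?_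
  rw [← lintegral_indicator hs]
  refine lintegral_mono_ae ?_
  filter_upwards [hg, hgs] with z h1 h2
  by_cases hz : z ∈ s
  · rw [Set.indicator_of_mem hz]
    have h3 : ‖(⟪g z, v z⟫ : ℂ)‖ ≤ ‖v z‖ := by
      refine (norm_inner_le_norm _ _).trans ?_
      calc ‖g z‖ * ‖v z‖ ≤ 1 * ‖v z‖ := mul_le_mul_of_nonneg_right h1 (norm_nonneg _)
        _ = ‖v z‖ := one_mul _
    rw [← ofReal_norm, ← ofReal_norm]
    exact ENNReal.ofReal_le_ofReal h3
  · rw [Set.indicator_of_notMem hz, h2 hz]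
    simp

theorem lintegral_tail_le {l : ℝ} (hl : 0 < l) :
    ∫⁻ σ in {σ : ℝ | l ^ 2 < |σ|}, ENNReal.ofReal ((|σ| ^ (3 / 2 : ℝ))⁻¹)
      ≤ ENNReal.ofReal (4 / l) := by
  have hl2 : 0 < l ^ 2 := by positivity
  have h1 : ∫⁻ σ in Set.Ioi (l ^ 2), ENNReal.ofReal ((|σ| ^ (3 / 2 : ℝ))⁻¹)
      = ENNReal.ofReal (2 / l) := by
    have h2 : ∀ σ ∈ Set.Ioi (l ^ 2), (|σ| ^ (3 / 2 : ℝ))⁻¹ = σ ^ (-(3 / 2) : ℝ) := by
      intro σ hσ
      have hσ0 : 0 < σ := hl2.trans hσ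
      rw [abs_of_pos hσ0, Real.rpow_neg hσ0.le]
    rw [setLIntegral_congr_fun measurableSet_Ioi (fun σ hσ => by rw [h2 σ hσ]),
      ← ofReal_integral_eq_lintegral_ofReal, integral_Ioi_rpow_of_lt (by norm_num) hl2]
    · congr 1
      have h3 : (l ^ 2 : ℝ) ^ (-(3 / 2) + 1 : ℝ) = l⁻¹ := by
        rw [← Real.rpow_natCast l 2, ← Real.rpow_mul hl.le, ← Real.rpow_neg_one l]
        norm_num
      rw [h3]
      ring
    · exact integrableOn_Ioi_rpow_of_lt (by norm_num) hl2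
    · refine (ae_restrict_mem measurableSet_Ioi).mono fun σ hσ => ?_
      exact Real.rpow_nonneg (hl2.trans hσ).le _
  have h2 : ∫⁻ σ in Set.Iio (-(l ^ 2)), ENNReal.ofReal ((|σ| ^ (3 / 2 : ℝ))⁻¹)
      = ENNReal.ofReal (2 / l) := by
    rw [← h1]
    have h3 := (Measure.measurePreserving_neg (volume : Measure ℝ)).setLIntegral_comp_preimage
      (s := Set.Ioi (l ^ 2)) measurableSet_Ioi
      (f := fun σ => ENNReal.ofReal ((|σ| ^ (3 / 2 : ℝ))⁻¹)) (by fun_prop)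
    rw [← h3]
    have h4 : (Neg.neg ⁻¹' Set.Ioi (l ^ 2) : Set ℝ) = Set.Iio (-(l ^ 2)) := by
      ext x
      simp only [Set.mem_preimage, Set.mem_Ioi, Set.mem_Iio]
      constructor <;> intro h <;> linarith
    rw [h4]
    simp
  have h3 : {σ : ℝ | l ^ 2 < |σ|} = Set.Ioi (l ^ 2) ∪ Set.Iio (-(l ^ 2)) := by
    ext x
    simp only [Set.mem_ofPred_eq, Set.mem_union, Set.mem_Ioi, Set.mem_Iio, lt_abs]
    constructor
    · rintro (h | h)
      · left; exact h
      · right; linarith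
    · rintro (h | h)
      · left; exact h
      · right; linarith
  rw [h3]
  refine (lintegral_union_le _ _ _).trans ?_
  rw [h1, h2, ← ENNReal.ofReal_add (by positivity) (by positivity)]
  refine ENNReal.ofReal_le_ofReal (le_of_eq ?_)
  ring

private theorem l1d_exp {a b t : ℝ} (hab : |a - b| ≤ t) (ht : t ≤ 1) :
    |Real.exp a - Real.exp b| ≤ 2 * t * Real.exp b := by
  have h5 : Real.exp a - Real.exp b = Real.exp b * (Real.exp (a - b) - 1) := by
    rw [mul_sub, ← Real.exp_add, mul_one]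
    congr 2
    ring
  rw [h5, abs_mul, abs_of_pos (Real.exp_pos b), mul_comm]
  refine mul_le_mul_of_nonneg_right ?_ (Real.exp_pos b).le
  exact (Real.abs_exp_sub_one_le (hab.trans ht)).trans
    (mul_le_mul_of_nonneg_left hab (by norm_num))

private theorem l1d_key {a b t : ℝ} (ht : 0 ≤ t) (hab : a ≤ 2 * t * b) :
    ENNReal.ofReal a ≤ 2 * ENNReal.ofReal t * ENNReal.ofReal b := by
  have h2' : (2 : ℝ≥0∞) = ENNReal.ofReal 2 := by simp
  rw [h2', ← ENNReal.ofReal_mul (by norm_num), ← ENNReal.ofReal_mul (by positivity)]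
  exact ENNReal.ofReal_le_ofReal hab

private theorem l1d_calc1 (X Y a b L q : ℝ≥0∞) :
    X * a + L * (X * b) ≤ (1 + 4 * q + 2 * q) * (X * (a + L * b) + Y) :=
  calc X * a + L * (X * b)
      ≤ (X * a + L * (X * b)) + (Y + (4 * q + 2 * q) * (X * (a + L * b) + Y)) := le_self_add
    _ = (1 + 4 * q + 2 * q) * (X * (a + L * b) + Y) := by ring

private theorem l1d_calc2 (X Y a b L q : ℝ≥0∞) :
    X * a + q * (2 * Y + 4 * L * (X * b)) ≤ (1 + 4 * q + 2 * q) * (X * (a + L * b) + Y) :=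
  calc X * a + q * (2 * Y + 4 * L * (X * b))
      ≤ (X * a + q * (2 * Y + 4 * L * (X * b)))
        + (X * (L * b) + Y + 4 * q * (X * a) + 4 * q * Y + 2 * q * (X * a)
          + 2 * q * (X * (L * b))) := le_self_add
    _ = (1 + 4 * q + 2 * q) * (X * (a + L * b) + Y) := by ring

/-- abstract form: `w ∈ E`, `u = e^{-c Dw/l} w` with `c ≤ 1`. With `a σ = ∫_s |u(· - σ e₀)|` :
`∫_s |D j u| ≤ C ( ‖e^{-cDw/l}‖_{L²(s)} (‖D j w‖ + l⁻¹‖w‖) + ∫ min(|σ|/l²,1)|σ|^{-3/2} a(σ) dσ )` -/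
theorem exists_lintegral_D_le : ∃ C : ℝ, 0 < C ∧ ∀ (n : ℕ) (c l : ℝ), 0 < c → c ≤ 1 → 0 < l →
    ∀ (z₀ : ST n) (u w : L2 n), u ∈ En n → w ∈ En n →
    ((w : ST n → ℂ) =ᵐ[volume] fun z => (Real.exp (c * (Dw l z₀ z / l)) : ℂ) * u z) →
    ∀ s : Set (ST n), MeasurableSet s → ∀ j : Fin (n + 1),
    ∫⁻ z in s, ‖D j u z‖ₑ ≤ ENNReal.ofReal C *
      ((∫⁻ z in s, ENNReal.ofReal (Real.exp (-(2 * c * (Dw l z₀ z / l))))) ^ (1 / 2 : ℝ)
          * ENNReal.ofReal (‖D j w‖ + l⁻¹ * ‖w‖)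
        + ∫⁻ σ : ℝ, ENNReal.ofReal (min (|σ| / l ^ 2) 1 * (|σ| ^ (3 / 2 : ℝ))⁻¹)
          * ∫⁻ z in s, ‖tr (σ • ev 0) u z‖ₑ) := by
  obtain ⟨ch, hch, hcomm⟩ := exists_comm
  refine ⟨1 + 4 * ch + 2 * ch, by positivity, ?_⟩
  intro n c l hc hc1 hl z₀ u w hu hw huw s hs j
  have hC1 := C1b_mDw hc hl z₀
  have hbm := hC1.bm
  have hmw : mulOp (mDw c l z₀) w = u := by
    ext1
    filter_upwards [mulOp_coe hbm w, huw] with z h1 h2
    rw [h1, h2, mDw, ← mul_assoc, ← Complex.ofReal_mul, ← Real.exp_add]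
    simp
  have hXm : (∫⁻ z in s, ‖mDw c l z₀ z‖ₑ ^ 2) ^ (1 / 2 : ℝ)
      = (∫⁻ z in s, ENNReal.ofReal (Real.exp (-(2 * c * (Dw l z₀ z / l))))) ^ (1 / 2 : ℝ) := by
    simp_rw [enorm_mDw_sq]
  set X := (∫⁻ z in s, ENNReal.ofReal (Real.exp (-(2 * c * (Dw l z₀ z / l))))) ^ (1 / 2 : ℝ)
    with hX
  set Y := ∫⁻ σ : ℝ, ENNReal.ofReal (min (|σ| / l ^ 2) 1 * (|σ| ^ (3 / 2 : ℝ))⁻¹)
          * ∫⁻ z in s, ‖tr (σ • ev 0) u z‖ₑ with hY
  have hI : ∀ v : L2 n, ∫⁻ z in s, ‖mDw c l z₀ z * v z‖ₑ ≤ X * ENNReal.ofReal ‖v‖ := by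
    intro v
    rw [← hXm]
    exact lintegral_mul_le hs hbm.meas v
  have hmeas : ∀ v : L2 n, AEMeasurable (fun z => ‖mDw c l z₀ z * v z‖ₑ)
      (volume.restrict s) := fun v =>
    ((hbm.meas.aemeasurable.mul (Lp.aestronglyMeasurable v).aemeasurable).enorm).restrict
  have hl' : 0 < l⁻¹ := inv_pos.2 hl
  have hCof : ENNReal.ofReal (1 + 4 * ch + 2 * ch)
      = 1 + 4 * ENNReal.ofReal ch + 2 * ENNReal.ofReal ch := by
    rw [ENNReal.ofReal_add (by positivity) (by positivity),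
      ENNReal.ofReal_add (by positivity) (by positivity), ENNReal.ofReal_mul (by norm_num),
      ENNReal.ofReal_mul (by norm_num)]
    simp
  have hsum : ENNReal.ofReal (‖D j w‖ + l⁻¹ * ‖w‖)
      = ENNReal.ofReal ‖D j w‖ + ENNReal.ofReal l⁻¹ * ENNReal.ofReal ‖w‖ := by
    rw [ENNReal.ofReal_add (norm_nonneg _) (by positivity), ENNReal.ofReal_mul hl'.le]
  rw [hCof, hsum]
  induction j using Fin.cases with
  | succ i =>
    have hD := D_succ_mulOp hC1 hw i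
    rw [hmw] at hD
    have hae : ∀ᵐ z ∂(volume.restrict s), ‖D i.succ u z‖ₑ
        ≤ ‖mDw c l z₀ z * D i.succ w z‖ₑ
          + ENNReal.ofReal l⁻¹ * ‖mDw c l z₀ z * w z‖ₑ := by
      refine ae_restrict_of_ae ?_
      rw [hD]
      filter_upwards [Lp.coeFn_add (mulOp (mDw c l z₀) (D i.succ w))
        (mulOp (pd i.succ (mDw c l z₀)) w), mulOp_coe hbm (D i.succ w),
        mulOp_coe (hC1.bm_pd i.succ) w] with z h1 h2 h3
      rw [h1, Pi.add_apply, h2, h3]
      refine (enorm_add_le _ _).trans (add_le_add le_rfl ?_)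
      rw [enorm_mul, enorm_mul, ← mul_assoc]
      refine mul_le_mul_left ?_ _
      rw [← ofReal_norm, ← ofReal_norm, ← ENNReal.ofReal_mul hl'.le]
      refine ENNReal.ofReal_le_ofReal ?_
      rw [norm_pd_mDw hc hl, mul_comm]
      refine mul_le_mul_of_nonneg_right ?_ (norm_nonneg _)
      calc c / l * |fderiv ℝ (Dw l z₀) z (ev i.succ)| ≤ 1 / l * 1 :=
            mul_le_mul (div_le_div_of_nonneg_right hc1 hl.le) (abs_fderiv_Dw_succ hl z₀ z i)
              (abs_nonneg _) (by positivity)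
        _ = l⁻¹ := by rw [mul_one, one_div]
    refine (lintegral_mono_ae hae).trans ?_
    rw [lintegral_add_left' (hmeas _), lintegral_const_mul' _ _ ENNReal.ofReal_ne_top]
    refine (add_le_add (hI _) (mul_le_mul_right (hI _) _)).trans ?_
    exact l1d_calc1 _ _ _ _ _ _
  | zero =>
    set RHS := (1 + 4 * ENNReal.ofReal ch + 2 * ENNReal.ofReal ch) *
      (X * (ENNReal.ofReal ‖D 0 w‖ + ENNReal.ofReal l⁻¹ * ENNReal.ofReal ‖w‖) + Y) with hRHS
    rcases eq_or_ne RHS ∞ with h | hfin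
    · rw [h]; exact le_top
    rw [← ENNReal.ofReal_toReal hfin]
    refine lintegral_le_of_dual hs ENNReal.toReal_nonneg fun g hg hgs hgN => ?_
    rw [← ENNReal.ofReal_le_iff_le_toReal hfin, ofReal_norm]
    obtain ⟨-, heq⟩ := hcomm n (mDw c l z₀) hC1 w (D 0 w) (D 0 u) g (FMul_D hw 0)
      (by rw [hmw]; exact FMul_D hu 0)
    rw [heq, ← inner_mulOp_right hbm]
    refine (enorm_add_le _ _).trans ?_
    have hfirst : ‖(⟪g, mulOp (mDw c l z₀) (D 0 w)⟫ : ℂ)‖ₑ ≤ X * ENNReal.ofReal ‖D 0 w‖ := by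
      refine (enorm_inner_le_of_supp hs hg hgs _).trans ?_
      refine le_trans (le_of_eq ?_) (hI (D 0 w))
      refine lintegral_congr_ae (ae_restrict_of_ae ?_)
      filter_upwards [mulOp_coe hbm (D 0 w)] with z h1
      rw [h1]
    -- the pointwise bound
    have hV : ∀ σ : ℝ, ‖(⟪g, mulOp (fun z => mDw c l z₀ z - mDw c l z₀ (z - σ • ev 0))
        (tr (σ • ev 0) w)⟫ : ℂ)‖ₑ ≤ 2 * (ENNReal.ofReal (min (|σ| / l ^ 2) 1)
          * ∫⁻ z in s, ‖tr (σ • ev 0) u z‖ₑ)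
          + {σ : ℝ | l ^ 2 < |σ|}.indicator (fun _ => X * ENNReal.ofReal ‖w‖) σ := by
      intro σ
      have hbmσ : BM (fun z => mDw c l z₀ (z - σ • ev 0)) :=
        ⟨hbm.meas.comp (measurable_id.sub_const _), 1, fun z => norm_mDw_le hc hl z₀ _⟩
      have hbmd : BM (fun z => mDw c l z₀ z - mDw c l z₀ (z - σ • ev 0)) :=
        ⟨hbm.meas.sub hbmσ.meas, 1 + 1, fun z => (norm_sub_le _ _).trans
          (add_le_add (norm_mDw_le hc hl z₀ _) (norm_mDw_le hc hl z₀ _))⟩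
      have htru : tr (σ • ev 0) u = mulOp (fun z => mDw c l z₀ (z - σ • ev 0))
          (tr (σ • ev 0) w) := by
        rw [← hmw, tr_mulOp hbm]
      refine (enorm_inner_le_of_supp hs hg hgs _).trans ?_
      have hl2 : 0 < l ^ 2 := by positivity
      by_cases hσ : l ^ 2 < |σ|
      · rw [Set.indicator_of_mem (by exact hσ)]
        have hmin : min (|σ| / l ^ 2) 1 = 1 := by
          apply min_eq_right
          rw [le_div_iff₀ hl2, one_mul]
          exact hσ.le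
        rw [hmin, ENNReal.ofReal_one, one_mul]
        have hae : ∀ᵐ z ∂(volume.restrict s),
            ‖mulOp (fun z => mDw c l z₀ z - mDw c l z₀ (z - σ • ev 0)) (tr (σ • ev 0) w) z‖ₑ
            ≤ ‖mDw c l z₀ z * tr (σ • ev 0) w z‖ₑ + ‖tr (σ • ev 0) u z‖ₑ := by
          refine ae_restrict_of_ae ?_
          filter_upwards [mulOp_coe hbmd (tr (σ • ev 0) w), mulOp_coe hbmσ (tr (σ • ev 0) w)]
            with z h1 h2
          rw [h1, htru, h2, sub_mul]
          exact enorm_sub_le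
        refine (lintegral_mono_ae hae).trans ?_
        rw [lintegral_add_left' (hmeas _)]
        rw [add_comm]
        refine add_le_add ?_ ?_
        · calc ∫⁻ z in s, ‖tr (σ • ev 0) u z‖ₑ = 1 * ∫⁻ z in s, ‖tr (σ • ev 0) u z‖ₑ :=
                (one_mul _).symm
            _ ≤ 2 * ∫⁻ z in s, ‖tr (σ • ev 0) u z‖ₑ := mul_le_mul_left one_le_two _
        · refine (hI _).trans ?_
          rw [LinearIsometry.norm_map]
      · refine le_trans ?_ le_self_add
        push Not at hσ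
        have hσ1 : |σ| / l ^ 2 ≤ 1 := (div_le_one hl2).2 hσ
        rw [min_eq_left hσ1, ← mul_assoc]
        rw [← lintegral_const_mul' _ _ (by finiteness)]
        refine lintegral_mono_ae (ae_restrict_of_ae ?_)
        filter_upwards [mulOp_coe hbmd (tr (σ • ev 0) w), mulOp_coe hbmσ (tr (σ • ev 0) w)]
          with z h1 h2
        rw [h1, htru, h2, enorm_mul, enorm_mul, ← mul_assoc]
        refine mul_le_mul_left ?_ _
        rw [← ofReal_norm, ← ofReal_norm]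
        refine l1d_key (by positivity) ?_
        rw [norm_mDw]
        unfold mDw
        rw [← Complex.ofReal_sub, Complex.norm_real, Real.norm_eq_abs]
        refine l1d_exp ?_ hσ1
        have h3 := abs_Dw_sub_time hl z₀ z σ
        have h4 : -(c * (Dw l z₀ z / l)) - -(c * (Dw l z₀ (z - σ • ev 0) / l))
            = -(c / l) * (Dw l z₀ z - Dw l z₀ (z - σ • ev 0)) := by
          ring
        rw [h4, abs_mul, abs_neg, abs_of_pos (div_pos hc hl)]
        calc c / l * |Dw l z₀ z - Dw l z₀ (z - σ • ev 0)| ≤ 1 / l * (|σ| / l) :=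
              mul_le_mul (div_le_div_of_nonneg_right hc1 hl.le) h3 (abs_nonneg _)
                (by positivity)
          _ = |σ| / l ^ 2 := by field_simp
    have hsecond : ‖(∫ σ : ℝ, (((|σ| ^ (3 / 2 : ℝ))⁻¹ : ℝ) : ℂ) *
        ⟪g, mulOp (fun z => mDw c l z₀ z - mDw c l z₀ (z - σ • ev 0)) (tr (σ • ev 0) w)⟫ : ℂ)‖ₑ
        ≤ 2 * Y + ENNReal.ofReal (4 / l) * (X * ENNReal.ofReal ‖w‖) := by
      refine (enorm_integral_le_lintegral_enorm _).trans ?_
      have hpt : ∀ σ : ℝ, ‖(((|σ| ^ (3 / 2 : ℝ))⁻¹ : ℝ) : ℂ) *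
          ⟪g, mulOp (fun z => mDw c l z₀ z - mDw c l z₀ (z - σ • ev 0))
            (tr (σ • ev 0) w)⟫‖ₑ
          ≤ 2 * (ENNReal.ofReal (min (|σ| / l ^ 2) 1 * (|σ| ^ (3 / 2 : ℝ))⁻¹)
              * ∫⁻ z in s, ‖tr (σ • ev 0) u z‖ₑ)
            + {σ : ℝ | l ^ 2 < |σ|}.indicator
                (fun σ => ENNReal.ofReal ((|σ| ^ (3 / 2 : ℝ))⁻¹)) σ * (X * ENNReal.ofReal ‖w‖) := by
        intro σ
        have hk : 0 ≤ (|σ| ^ (3 / 2 : ℝ))⁻¹ := by positivity
        rw [enorm_mul]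
        have hk2 : ‖(((|σ| ^ (3 / 2 : ℝ))⁻¹ : ℝ) : ℂ)‖ₑ
            = ENNReal.ofReal ((|σ| ^ (3 / 2 : ℝ))⁻¹) := by
          rw [← ofReal_norm, Complex.norm_real, Real.norm_eq_abs, abs_of_nonneg hk]
        rw [hk2]
        refine (mul_le_mul_right (hV σ) _).trans (le_of_eq ?_)
        rw [mul_add, ENNReal.ofReal_mul (by positivity)]
        congr 1
        · ring
        · by_cases hσ : l ^ 2 < |σ|
          · rw [Set.indicator_of_mem (by exact hσ), Set.indicator_of_mem (by exact hσ)]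
          · rw [Set.indicator_of_notMem (by exact hσ), Set.indicator_of_notMem (by exact hσ)]
            simp
      refine (lintegral_mono hpt).trans ?_
      have hset : MeasurableSet {σ : ℝ | l ^ 2 < |σ|} :=
        measurableSet_lt measurable_const (by fun_prop)
      have hκm : Measurable (fun σ : ℝ => ENNReal.ofReal ((|σ| ^ (3 / 2 : ℝ))⁻¹)) := by fun_prop
      rw [lintegral_add_right _ ((hκm.indicator hset).mul_const _),
        lintegral_const_mul' _ _ (by finiteness), lintegral_mul_const _ (hκm.indicator hset),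
        lintegral_indicator hset]
      exact add_le_add le_rfl (mul_le_mul_left (lintegral_tail_le hl) _)
    have h4l : ENNReal.ofReal (4 / l) = 4 * ENNReal.ofReal l⁻¹ := by
      rw [div_eq_mul_inv, ENNReal.ofReal_mul (by norm_num)]
      simp
    have hch' : ‖(ch : ℂ)‖ₑ = ENNReal.ofReal ch := by
      rw [← ofReal_norm, Complex.norm_real, Real.norm_eq_abs, abs_of_pos hch]
    rw [enorm_mul, hch']
    refine (add_le_add hfirst (mul_le_mul_right hsecond _)).trans ?_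
    rw [h4l, hRHS]
    exact l1d_calc2 _ _ _ _ _ _

end

end Pool.Agent.W_eb6199
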