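import Pool.Agent.W_eb6199.Resolvent
import Pool.Agent.W_eb6199.Chain

open MeasureTheory Complex Filter Topology
open scoped FourierTransform ComplexInnerProductSpace ENNReal NNReal

namespace Pool.Agent.W_eb6199

noncomputable section

variable {n : ℕ}

/-! T15: `J` is a contraction in `L¹`.
Test the equation of `u = J f` with `trunc δ u`, take real parts and let `δ → 0`. -/

theorem L1contr_sqrt_pos {δ : ℝ} (hδ : 0 < δ) (a : ℝ) : 0 < Real.sqrt (a ^ 2 + δ ^ 2) :=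
  Real.sqrt_pos.2 (by positivity)

theorem L1contr_norm_Phi_le {δ : ℝ} (hδ : 0 < δ) (w : ℂ) : ‖Phi δ w‖ ≤ 1 := by
  unfold Phi
  have h := L1contr_sqrt_pos hδ ‖w‖
  rw [norm_div, Complex.norm_real, Real.norm_eq_abs, abs_of_pos h, div_le_one h]
  refine Real.le_sqrt_of_sq_le ?_
  nlinarith

theorem L1contr_inner_Phi {δ : ℝ} (w : ℂ) :
    (⟪Phi δ w, w⟫ : ℂ).re = ‖w‖ ^ 2 / Real.sqrt (‖w‖ ^ 2 + δ ^ 2) := by
  unfold Phi
  rw [RCLike.inner_apply, map_div₀, Complex.conj_ofReal, ← mul_div_assoc, Complex.mul_conj,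
    Complex.normSq_eq_norm_sq, ← Complex.ofReal_div, Complex.ofReal_re]

theorem L1contr_key (A : Coef n) {l : ℝ} (hl : 0 < l) (f : L2 n) (hf : N1 f ≠ ∞) {δ : ℝ}
    (hδ : 0 < δ) :
    ∫⁻ z, ENNReal.ofReal (‖J A l f z‖ ^ 2 / Real.sqrt (‖J A l f z‖ ^ 2 + δ ^ 2)) ≤ N1 f := by
  set u := J A l f with hu
  obtain ⟨huE, hueq⟩ := J_spec A hl f
  rw [← hu] at huE hueq
  have hv := hueq (trunc δ u) (En_trunc hδ huE)
  have hfi : Integrable (fun z => f z) (volume : Measure (ST n)) := by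
    refine ⟨(Lp.memLp f).1, ?_⟩
    rw [hasFiniteIntegral_iff_enorm]
    exact lt_top_iff_ne_top.2 hf
  have hre := congrArg Complex.re hv
  have hpos := re_form_trunc_nonneg A hδ huE
  have h1 : ((l : ℂ) ^ 2 * form A u (trunc δ u)).re = l ^ 2 * (form A u (trunc δ u)).re := by
    rw [← Complex.ofReal_pow, Complex.re_ofReal_mul]
  have h2 : ((l : ℂ) * ∑ i : Fin n, ⟪D i.succ (trunc δ u), (0 : Fin n → L2 n) i⟫).re = 0 := by
    simp
  rw [Complex.add_re, Complex.add_re, h1, h2, add_zero] at hre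
  have hle : (⟪trunc δ u, u⟫ : ℂ).re ≤ (⟪trunc δ u, f⟫ : ℂ).re := by
    have : 0 ≤ l ^ 2 * (form A u (trunc δ u)).re := mul_nonneg (sq_nonneg _) hpos
    linarith
  have hcoe := trunc_coe hδ u
  have hi1 : Integrable (fun z => (⟪trunc δ u z, u z⟫ : ℂ)) (volume : Measure (ST n)) :=
    L2.integrable_inner _ _
  have hi2 : Integrable (fun z => (⟪trunc δ u z, f z⟫ : ℂ)) (volume : Measure (ST n)) :=
    L2.integrable_inner _ _
  have e1 : (⟪trunc δ u, u⟫ : ℂ).re
      = ∫ z, ‖u z‖ ^ 2 / Real.sqrt (‖u z‖ ^ 2 + δ ^ 2) := by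
    rw [L2.inner_def, ← Complex.reCLM_apply, ← ContinuousLinearMap.integral_comp_comm _ hi1]
    refine integral_congr_ae ?_
    filter_upwards [hcoe] with z hz
    rw [Complex.reCLM_apply, hz, L1contr_inner_Phi]
  have hi1' : Integrable (fun z => ‖u z‖ ^ 2 / Real.sqrt (‖u z‖ ^ 2 + δ ^ 2))
      (volume : Measure (ST n)) := by
    refine (Complex.reCLM.integrable_comp hi1).congr ?_
    filter_upwards [hcoe] with z hz
    rw [Complex.reCLM_apply, hz, L1contr_inner_Phi]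
  have e2 : (⟪trunc δ u, f⟫ : ℂ).re ≤ ∫ z, ‖f z‖ := by
    refine (Complex.re_le_norm _).trans ?_
    rw [L2.inner_def]
    refine (norm_integral_le_integral_norm _).trans ?_
    refine integral_mono_ae hi2.norm hfi.norm ?_
    filter_upwards [hcoe] with z hz
    refine (norm_inner_le_norm _ _).trans ?_
    rw [hz]
    calc ‖Phi δ (u z)‖ * ‖f z‖ ≤ 1 * ‖f z‖ :=
          mul_le_mul_of_nonneg_right (L1contr_norm_Phi_le hδ _) (norm_nonneg _)
      _ = ‖f z‖ := one_mul _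
  rw [e1] at hle
  rw [← ofReal_integral_eq_lintegral_ofReal hi1'
    (Filter.Eventually.of_forall fun z => by positivity)]
  refine (ENNReal.ofReal_le_ofReal (hle.trans e2)).trans ?_
  rw [ofReal_integral_norm_eq_lintegral_enorm hfi]
  exact le_rfl

theorem N1_J_le (A : Coef n) {l : ℝ} (hl : 0 < l) (f : L2 n) : N1 (J A l f) ≤ N1 f := by
  by_cases hf : N1 f = ∞
  · rw [hf]; exact le_top
  set u := J A l f with hu
  have hmeas : ∀ δ : ℝ, AEMeasurable (fun z : ST n =>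
      ENNReal.ofReal (‖u z‖ ^ 2 / Real.sqrt (‖u z‖ ^ 2 + δ ^ 2))) volume := by
    intro δ
    have h := (Lp.aestronglyMeasurable u).norm.aemeasurable
    exact ((h.pow_const 2).div ((h.pow_const 2).add_const _).sqrt).ennreal_ofReal
  have hlim : ∀ w : ℂ, Tendsto (fun k : ℕ => ENNReal.ofReal
      (‖w‖ ^ 2 / Real.sqrt (‖w‖ ^ 2 + (1 / ((k : ℝ) + 1)) ^ 2))) atTop (𝓝 ‖w‖ₑ) := by
    intro w
    rw [← ofReal_norm]
    refine ENNReal.tendsto_ofReal ?_
    rcases eq_or_ne w 0 with rfl | hw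
    · simp
    · have hw' : 0 < ‖w‖ := norm_pos_iff.2 hw
      have h0 : Tendsto (fun k : ℕ => 1 / ((k : ℝ) + 1)) atTop (𝓝 0) :=
        tendsto_one_div_add_atTop_nhds_zero_nat
      have h1 : Tendsto (fun k : ℕ => Real.sqrt (‖w‖ ^ 2 + (1 / ((k : ℝ) + 1)) ^ 2)) atTop
          (𝓝 (Real.sqrt (‖w‖ ^ 2 + 0 ^ 2))) :=
        (Real.continuous_sqrt.tendsto _).comp ((h0.pow 2).const_add _)
      have h2 : Real.sqrt (‖w‖ ^ 2 + 0 ^ 2) = ‖w‖ := by
        rw [zero_pow two_ne_zero, add_zero, Real.sqrt_sq hw'.le]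
      rw [h2] at h1
      have h3 := (tendsto_const_nhds (x := ‖w‖ ^ 2)).div h1 hw'.ne'
      have h4 : ‖w‖ ^ 2 / ‖w‖ = ‖w‖ := by
        rw [sq, mul_div_assoc, div_self hw'.ne', mul_one]
      rw [h4] at h3
      exact h3
  calc N1 u = ∫⁻ z, liminf (fun k : ℕ => ENNReal.ofReal
        (‖u z‖ ^ 2 / Real.sqrt (‖u z‖ ^ 2 + (1 / ((k : ℝ) + 1)) ^ 2))) atTop := by
        unfold N1
        refine lintegral_congr fun z => ?_
        exact ((hlim (u z)).liminf_eq).symm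
    _ ≤ liminf (fun k : ℕ => ∫⁻ z, ENNReal.ofReal
        (‖u z‖ ^ 2 / Real.sqrt (‖u z‖ ^ 2 + (1 / ((k : ℝ) + 1)) ^ 2))) atTop :=
        lintegral_liminf_le' fun k => hmeas _
    _ ≤ N1 f := by
        refine liminf_le_of_frequently_le' (Filter.Eventually.frequently
          (Filter.Eventually.of_forall fun k => ?_))
        exact L1contr_key A hl f hf (by positivity)

theorem N1_Jpow_le (A : Coef n) {l : ℝ} (hl : 0 < l) (k : ℕ) (f : L2 n) :
    N1 ((J A l ^ k) f) ≤ N1 f := by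
  induction k with
  | zero => simp
  | succ k ih =>
    rw [pow_succ', ContinuousLinearMap.mul_apply]
    exact (N1_J_le A hl _).trans ih

end

end Pool.Agent.W_eb6199
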