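import Pool.Agent.W_eb6199.Nash
import Pool.Agent.W_eb6199.ElemSF
import Pool.Agent.W_eb6199.L1contr
import Pool.Agent.W_eb6199.ResCont

open MeasureTheory Complex Filter Topology
open scoped FourierTransform ComplexInnerProductSpace ENNReal NNReal

namespace Pool.Agent.W_eb6199

noncomputable section

variable {n : ℕ}

/-! the `L¹ → L²` bound of `J^m`. -/

/-- the real arithmetic behind `exists_L1L2_key` -/
private theorem l1l2_real {x y a gn D0 γ fm L ν B P Ph : ℝ} 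
    (hg0 : 0 ≤ gn) (hL : 0 < L) (hν : 0 < ν) (hB : 0 ≤ B) (hγ : 0 ≤ γ)
    (hre : y ^ 2 + ν * L * γ ≤ a) (hD0 : D0 ≤ fm + B * γ) (hfm : fm ≤ x * (L⁻¹ * y))
    (hnash : x ^ 2 ≤ Ph + L * (D0 + γ)) (hP : Ph ≤ P) (hgn : gn ≤ x + y) :
    gn ^ 2 ≤ 4 * P + (4 * (1 / 2 + (B + 1) / ν) + 2) * a := by
  have hlD0 : L * D0 ≤ x * y + B * (L * γ) := by
    have h4 : D0 ≤ x * (L⁻¹ * y) + B * γ := hD0.trans (by linarith)
    calc L * D0 ≤ L * (x * (L⁻¹ * y) + B * γ) := mul_le_mul_of_nonneg_left h4 hL.le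
      _ = x * y + B * (L * γ) := by field_simp
  have hG0 : 0 ≤ L * γ := mul_nonneg hL.le hγ
  have hx2 : x ^ 2 ≤ P + x * y + (B + 1) * (L * γ) := by
    have e : L * (D0 + γ) = L * D0 + L * γ := by ring
    have e' : (B + 1) * (L * γ) = B * (L * γ) + L * γ := by ring
    rw [e] at hnash
    rw [e']
    linarith
  have hGa : L * γ ≤ a / ν := by
    rw [le_div_iff₀ hν]
    have h1 : L * γ * ν = ν * L * γ := by ring
    have h2 : 0 ≤ y ^ 2 := sq_nonneg y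
    rw [h1]; linarith
  have hy2 : y ^ 2 ≤ a := by
    have h1 : ν * L * γ = ν * (L * γ) := by ring
    have h2 : 0 ≤ ν * (L * γ) := mul_nonneg hν.le hG0
    linarith
  have hG3 : (B + 1) * (L * γ) ≤ (B + 1) / ν * a := by
    calc (B + 1) * (L * γ) ≤ (B + 1) * (a / ν) := mul_le_mul_of_nonneg_left hGa (by linarith)
      _ = (B + 1) / ν * a := by ring
  have hxy : x * y ≤ x ^ 2 / 2 + y ^ 2 / 2 := by
    have h1 := sq_nonneg (x - y)
    have h2 : (x - y) ^ 2 = x ^ 2 - 2 * (x * y) + y ^ 2 := by ring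
    rw [h2] at h1
    linarith
  have hgn2 : gn ^ 2 ≤ 2 * x ^ 2 + 2 * y ^ 2 := by
    have h1 := pow_le_pow_left₀ hg0 hgn 2
    have h2 : (x + y) ^ 2 = x ^ 2 + 2 * (x * y) + y ^ 2 := by ring
    rw [h2] at h1
    linarith
  have e2 : (4 * (1 / 2 + (B + 1) / ν) + 2) * a = 4 * a + 4 * ((B + 1) / ν * a) := by ring
  rw [e2]
  linarith

private theorem l1l2_inner {H : Type*} [NormedAddCommGroup H] [InnerProductSpace ℂ H] (u v : H)
    {l x : ℝ} (hl : 0 < l) (hx : ‖u‖ ≤ x) :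
    ‖(⟪u, ((l : ℂ) ^ 2)⁻¹ • v⟫ : ℂ)‖ ≤ x * ((l ^ 2)⁻¹ * ‖v‖) := by
  refine (norm_inner_le_norm _ _).trans ?_
  refine mul_le_mul hx (le_of_eq ?_) (norm_nonneg _) ((norm_nonneg u).trans hx)
  rw [norm_smul, norm_inv, norm_pow, Complex.norm_real, Real.norm_eq_abs, abs_of_pos hl]

private theorem l1l2_re {s : ℝ} (hs : s = 1 ∨ s = -1) (z : ℂ) : s * z.re ≤ ‖z‖ := by
  have h2 := Complex.abs_re_le_norm z
  rcases hs with h3 | h3
  · rw [h3, one_mul]; exact (le_abs_self _).trans h2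
  · rw [h3, neg_one_mul]; exact (neg_le_abs _).trans h2

private theorem l1l2_core (A : Coef n) {C : ℝ} (hC : 0 < C)
    (hN : ∀ (l : ℝ), 0 < l → ∀ h ∈ En n, N1 h ≠ ∞ →
      ‖h‖ ^ 2 ≤ C / l ^ (n + 2) * (N1 h).toReal ^ 2 + l ^ 2 * eD h) {l : ℝ} (hl : 0 < l)
    (g h f : L2 n) (hdom : InDom A h (((l : ℂ) ^ 2)⁻¹ • (g - h)))
    (hre : ‖g - h‖ ^ 2 + A.ν * l ^ 2 * gD h ≤ (⟪g - h, g⟫ : ℂ).re)
    (hN1 : N1 h ≤ N1 f) (hf : N1 f ≠ ∞) :
    ‖g‖ ^ 2 ≤ 4 * (C / l ^ (n + 2) * (N1 f).toReal ^ 2)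
      + (4 * (1 / 2 + (n * A.M + 1) / A.ν) + 2) * (⟪g - h, g⟫ : ℂ).re := by
  have hD0 := norm_D0_sq_le_form A hdom.1
  have hform := hdom.2 (Ht h) (En_Ht hdom.1)
  have hnash := hN l hl h hdom.1 (ne_top_of_le_ne_top hf hN1)
  have htoReal : (N1 h).toReal ≤ (N1 f).toReal := ENNReal.toReal_mono hf hN1
  have hfm : A.sg * (form A h (Ht h)).re ≤ ‖h‖ * ((l ^ 2)⁻¹ * ‖g - h‖) :=
    (l1l2_re A.sg_eq _).trans (by rw [hform]; exact l1l2_inner _ _ hl (norm_Ht_le h))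
  have hB : 0 ≤ (n * A.M : ℝ) :=
    mul_nonneg (Nat.cast_nonneg n) (zero_le_one.trans A.one_le_M)
  have hP : C / l ^ (n + 2) * (N1 h).toReal ^ 2 ≤ C / l ^ (n + 2) * (N1 f).toReal ^ 2 :=
    mul_le_mul_of_nonneg_left (pow_le_pow_left₀ ENNReal.toReal_nonneg htoReal 2)
      (div_nonneg hC.le (pow_nonneg hl.le _))
  have hgn : ‖g‖ ≤ ‖h‖ + ‖g - h‖ := by
    have h1 : h + (g - h) = g := add_sub_cancel h g
    exact (congrArg norm h1).symm.le.trans (norm_add_le _ _)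
  exact l1l2_real (norm_nonneg g) (pow_pos hl 2) A.ν_pos hB (gD_nonneg h) hre hD0 hfm
    (hnash.trans (le_of_eq (congrArg (fun t => C / l ^ (n + 2) * (N1 h).toReal ^ 2 + l ^ 2 * t)
      (eD_eq h)))) hP hgn

/-- the differential inequality behind the `L¹ → L²` bound -/
theorem exists_L1L2_key (A : Coef n) : ∃ K C : ℝ, 0 < K ∧ 0 < C ∧ ∀ l : ℝ, 0 < l →
    ∀ (k : ℕ) (f : L2 n), N1 f ≠ ∞ →
    ‖(J A l ^ k) f‖ ^ 2 ≤ C / l ^ (n + 2) * (N1 f).toReal ^ 2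
      + K * (⟪(J A l ^ k) f - (J A l ^ (k + 1)) f, (J A l ^ k) f⟫ : ℂ).re := by
  obtain ⟨C, hC, hN⟩ := nash n
  have hν := A.ν_pos
  have hM : 0 < A.M := lt_of_lt_of_le one_pos A.one_le_M
  have hK1 : 0 ≤ (n * A.M + 1) / A.ν := by positivity
  refine ⟨4 * (1 / 2 + (n * A.M + 1) / A.ν) + 2, 4 * C, by positivity, by positivity, ?_⟩
  intro l hl k f hf
  have hdom : InDom A ((J A l ^ (k + 1)) f)
      (((l : ℂ) ^ 2)⁻¹ • ((J A l ^ k) f - (J A l ^ (k + 1)) f)) := by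
    have h1 : (J A l ^ (k + 1)) f = J A l ((J A l ^ k) f) :=
      congrArg (fun T : L2 n →L[ℂ] L2 n => T f) (pow_succ' (J A l) k)
    exact h1.symm ▸ InDom_J A hl ((J A l ^ k) f)
  have e1 : 4 * C / l ^ (n + 2) * (N1 f).toReal ^ 2
      = 4 * (C / l ^ (n + 2) * (N1 f).toReal ^ 2) := by ring
  exact (l1l2_core A hC hN hl _ _ f hdom (re_inner_ge A hl k f) (N1_Jpow_le A hl (k + 1) f)
    hf).trans (le_of_eq (congrArg (fun t => t + (4 * (1 / 2 + (n * A.M + 1) / A.ν) + 2) *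
      (⟪(J A l ^ k) f - (J A l ^ (k + 1)) f, (J A l ^ k) f⟫ : ℂ).re) e1.symm))

private theorem l1l2_deriv {H : Type*} [NormedAddCommGroup H] [InnerProductSpace ℂ H]
    {u : ℝ → H} {g h : H} {c l : ℝ} (hg : u l = g)
    (hu : HasDerivAt u (-((c : ℝ) : ℂ) • (g - h)) l) :
    HasDerivAt (fun t : ℝ => ‖u t‖ ^ 2) (-(2 * c) * (⟪g - h, g⟫ : ℂ).re) l := by
  have h2 := HasDerivAt.inner ℂ hu hu
  have h3 := Complex.reCLM.hasFDerivAt.comp_hasDerivAt l h2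
  have h4 : (fun t : ℝ => ‖u t‖ ^ 2) = Complex.reCLM ∘ fun t : ℝ => (⟪u t, u t⟫ : ℂ) := by
    funext t
    exact (inner_self_eq_norm_sq (𝕜 := ℂ) (u t)).symm
  rw [h4]
  refine h3.congr_deriv ?_
  rw [hg, inner_smul_right, inner_smul_left]
  have h5 : (⟪g, g - h⟫ : ℂ).re = (⟪g - h, g⟫ : ℂ).re := by
    rw [← inner_conj_symm (𝕜 := ℂ) g (g - h)]
    exact Complex.conj_re _
  rw [map_neg, Complex.conj_ofReal, ← Complex.ofReal_neg, Complex.reCLM_apply, Complex.add_re,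
    Complex.re_ofReal_mul, Complex.re_ofReal_mul, h5]
  ring

theorem hasDerivAt_norm_sq_Jpow (A : Coef n) {l : ℝ} (hl : 0 < l) (k : ℕ) (f : L2 n) :
    HasDerivAt (fun l : ℝ => ‖(J A l ^ k) f‖ ^ 2)
      (-(4 * k / l) * (⟪(J A l ^ k) f - (J A l ^ (k + 1)) f, (J A l ^ k) f⟫ : ℂ).re) l := by
  have h1 := l1l2_deriv (u := fun l : ℝ => (J A l ^ k) f) rfl (hasDerivAt_Jpow A hl k f)
  have e : -(2 * (2 * k / l)) = -(4 * k / l) := by ring
  exact h1.congr_deriv (congrArg (fun t =>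
    t * (⟪(J A l ^ k) f - (J A l ^ (k + 1)) f, (J A l ^ k) f⟫ : ℂ).re) e)

/-- `‖J_l^m f‖₂ ≤ C l^{-(n+2)/2} ‖f‖₁` for `m` large -/
theorem exists_L1L2 (A : Coef n) : ∃ m₀ : ℕ, ∃ C : ℝ, 0 < C ∧ ∀ m : ℕ, m₀ ≤ m → ∀ l : ℝ, 0 < l →
    ∀ f : L2 n, N1 f ≠ ∞ →
    ‖(J A l ^ m) f‖ ≤ C / Real.sqrt (l ^ (n + 2)) * (N1 f).toReal := by
  obtain ⟨K, C, hK, hC, key⟩ := exists_L1L2_key A
  obtain ⟨m₀, hm₀⟩ := exists_nat_ge ((n + 2 : ℝ) * K / 2)
  refine ⟨m₀, Real.sqrt (2 * C), Real.sqrt_pos.2 (by positivity), ?_⟩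
  intro k hk l₁ hl₁ f hf
  set F : ℝ := (N1 f).toReal ^ 2 with hF
  have hF0 : 0 ≤ F := by positivity
  let φ : ℝ → ℝ := fun l => ‖(J A l ^ k) f‖ ^ 2
  let a : ℝ → ℝ := fun l => (⟪(J A l ^ k) f - (J A l ^ (k + 1)) f, (J A l ^ k) f⟫ : ℂ).re
  let Ψ : ℝ → ℝ := fun l => l ^ (2 * (n + 2)) * φ l - 2 * C * F * l ^ (n + 2)
  have hderiv : ∀ l : ℝ, 0 < l → HasDerivAt Ψ
      ((((2 * (n + 2) : ℕ) : ℝ) * l ^ (2 * (n + 2) - 1)) * φ l
        + l ^ (2 * (n + 2)) * (-(4 * k / l) * a l)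
        - 2 * C * F * (((n + 2 : ℕ) : ℝ) * l ^ (n + 2 - 1))) l := by
    intro l hl
    exact ((hasDerivAt_pow (2 * (n + 2)) l).mul (hasDerivAt_norm_sq_Jpow A hl k f)).sub
      ((hasDerivAt_pow (n + 2) l).const_mul (2 * C * F))
  have hneg : ∀ l : ℝ, 0 < l →
      ((((2 * (n + 2) : ℕ) : ℝ) * l ^ (2 * (n + 2) - 1)) * φ l
        + l ^ (2 * (n + 2)) * (-(4 * k / l) * a l)
        - 2 * C * F * (((n + 2 : ℕ) : ℝ) * l ^ (n + 2 - 1))) ≤ 0 := by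
    intro l hl
    have h1 : φ l ≤ C / l ^ (n + 2) * F + K * a l := key l hl k f hf
    have ha0 : 0 ≤ a l := by
      have := re_inner_ge A hl k f
      refine le_trans ?_ this
      have := gD_nonneg ((J A l ^ (k + 1)) f)
      have := A.ν_pos
      positivity
    have hk2 : (n + 2 : ℝ) * K / 2 ≤ k := hm₀.trans (by exact_mod_cast hk)
    have e1 : 2 * (n + 2) - 1 = (n + 1) + (n + 2) := by omega
    have e2 : 2 * (n + 2) = (n + 1) + (n + 2) + 1 := by omega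
    have e3 : n + 2 - 1 = n + 1 := by omega
    rw [e1, e3]
    nth_rewrite 2 [e2]
    have e4 : l ^ (n + 1 + (n + 2) + 1) * (-(4 * k / l) * a l)
        = - (l ^ (n + 1 + (n + 2)) * (4 * k * a l)) := by
      rw [pow_succ]; field_simp
    rw [e4]
    have h2 : 2 * (n + 2) * (K * a l) ≤ 4 * k * a l := by
      nlinarith
    have h3 : l ^ (n + 1 + (n + 2)) * (2 * (n + 2) * φ l - 4 * k * a l)
        ≤ l ^ (n + 1 + (n + 2)) * (2 * (n + 2) * (C / l ^ (n + 2) * F)) := by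
      refine mul_le_mul_of_nonneg_left ?_ (by positivity)
      have h4 : (0 : ℝ) ≤ 2 * (n + 2) := by positivity
      nlinarith [mul_le_mul_of_nonneg_left h1 h4]
    have h5 : l ^ (n + 1 + (n + 2)) * (2 * (n + 2) * (C / l ^ (n + 2) * F))
        = 2 * C * F * ((n + 2) * l ^ (n + 1)) := by
      rw [pow_add]; field_simp
    push_cast
    rw [h5] at h3
    nlinarith
  have hanti : AntitoneOn Ψ (Set.Ioi 0) := by
    refine antitoneOn_of_deriv_nonpos (convex_Ioi 0) ?_ ?_ ?_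
    · intro l hl
      exact (hderiv l hl).continuousAt.continuousWithinAt
    · intro l hl
      rw [interior_Ioi] at hl
      exact (hderiv l hl).differentiableAt.differentiableWithinAt
    · intro l hl
      rw [interior_Ioi] at hl
      rw [(hderiv l hl).deriv]
      exact hneg l hl
  have hΨ : Ψ l₁ ≤ 0 := by
    by_contra hcon
    push Not at hcon
    have hlim : Tendsto (fun l : ℝ => l ^ (2 * (n + 2)) * ‖f‖ ^ 2) (𝓝[>] 0) (𝓝 0) := by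
      have : Tendsto (fun l : ℝ => l ^ (2 * (n + 2)) * ‖f‖ ^ 2) (𝓝 0)
          (𝓝 ((0 : ℝ) ^ (2 * (n + 2)) * ‖f‖ ^ 2)) :=
        ((continuous_pow _).mul continuous_const).tendsto 0
      rw [zero_pow (by omega), zero_mul] at this
      exact this.mono_left nhdsWithin_le_nhds
    have hev : ∀ᶠ l in 𝓝[>] (0 : ℝ), Ψ l₁ ≤ l ^ (2 * (n + 2)) * ‖f‖ ^ 2 := by
      filter_upwards [Ioo_mem_nhdsGT hl₁] with l hl
      have h1 : Ψ l₁ ≤ Ψ l := hanti hl.1 hl₁ hl.2.le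
      refine h1.trans ?_
      have h2 : φ l ≤ ‖f‖ ^ 2 :=
        pow_le_pow_left₀ (norm_nonneg _) (norm_Jpow_le A hl.1 k f) 2
      have h3 : 0 < l := hl.1
      have h4 : l ^ (2 * (n + 2)) * φ l ≤ l ^ (2 * (n + 2)) * ‖f‖ ^ 2 :=
        mul_le_mul_of_nonneg_left h2 (by positivity)
      have h5 : 0 ≤ 2 * C * F * l ^ (n + 2) := by positivity
      show l ^ (2 * (n + 2)) * φ l - 2 * C * F * l ^ (n + 2) ≤ _
      linarith
    have := ge_of_tendsto hlim hev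
    linarith
  have hfin : ‖(J A l₁ ^ k) f‖ ^ 2 ≤ 2 * C * F / l₁ ^ (n + 2) := by
    have h1 : l₁ ^ (2 * (n + 2)) * ‖(J A l₁ ^ k) f‖ ^ 2 - 2 * C * F * l₁ ^ (n + 2) ≤ 0 := hΨ
    have h2 : 0 < l₁ ^ (n + 2) := by positivity
    rw [le_div_iff₀ h2]
    have h3 : l₁ ^ (2 * (n + 2)) = l₁ ^ (n + 2) * l₁ ^ (n + 2) := by rw [← pow_add]; ring_nf
    rw [h3] at h1
    have h4 : l₁ ^ (n + 2) * (‖(J A l₁ ^ k) f‖ ^ 2 * l₁ ^ (n + 2)) ≤ l₁ ^ (n + 2) * (2 * C * F) := by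
      linarith
    exact le_of_mul_le_mul_left h4 h2
  have hs : ‖(J A l₁ ^ k) f‖ ≤ Real.sqrt (2 * C * F / l₁ ^ (n + 2)) := Real.le_sqrt_of_sq_le hfin
  refine hs.trans (le_of_eq ?_)
  rw [Real.sqrt_div (by positivity), Real.sqrt_mul (by positivity), hF,
    Real.sqrt_sq ENNReal.toReal_nonneg]
  ring

end

end Pool.Agent.W_eb6199
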