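import Pool.Agent.W_eb6199.Core
import Pool.Agent.W_eb6199.L1D
import Pool.Agent.W_eb6199.Decomp
import Pool.Agent.W_eb6199.ResCont
import Pool.Agent.W_eb6199.DwInt

open MeasureTheory Complex Filter Topology
open scoped FourierTransform ComplexInnerProductSpace ENNReal NNReal

namespace Pool.Agent.W_eb6199

noncomputable section

variable {n : ℕ}

/-! T22: global and off-diagonal `L¹` bounds of `l D_j J_l^m`. -/

/-- `D j ∘ J^m` as a bounded operator -/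
theorem exists_DJ_clm (A : Coef n) {l : ℝ} (hl : 0 < l) {m : ℕ} (hm : m ≠ 0) (j : Fin (n + 1)) :
    ∃ T : L2 n →L[ℂ] L2 n, ∀ f, T f = D j ((J A l ^ m) f) := by
  obtain ⟨k, rfl⟩ := Nat.exists_eq_succ_of_ne_zero hm
  have hmem : ∀ f, (J A l ^ (k + 1)) f ∈ En n := by
    intro f
    rw [pow_succ', mul_apply_eq_comp]
    exact J_mem A hl _
  obtain ⟨C, hC, hb⟩ := exists_D_J_bound A
  refine ⟨LinearMap.mkContinuous
    { toFun := fun f => D j ((J A l ^ (k + 1)) f)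
      map_add' := fun f g => by rw [map_add, D_add j (hmem f) (hmem g)]
      map_smul' := fun c f => by rw [map_smul, D_smul j c (hmem f), RingHom.id_apply] }
    (C / l) (fun f => ?_), fun f => rfl⟩
  simp only [LinearMap.coe_mk, AddHom.coe_mk]
  have h1 := hb l hl ((J A l ^ k) f) j
  have h2 : (J A l ^ (k + 1)) f = J A l ((J A l ^ k) f) := by
    rw [pow_succ', mul_apply_eq_comp]
  rw [h2, div_mul_eq_mul_div, le_div_iff₀ hl]
  have h3 := norm_Jpow_le A hl k f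
  nlinarith only [hC, h1, h3]

/-- `∫ h(|σ|) dσ = 2 ∫_0^∞ h` for nonnegative `h` -/
theorem l1g_lintegral_abs (h : ℝ → ℝ≥0∞) :
    ∫⁻ σ : ℝ, h |σ| = 2 * ∫⁻ σ in Set.Ioi (0 : ℝ), h σ := by
  have h1 : ∫⁻ σ : ℝ, h |σ| = (∫⁻ σ in Set.Ioi (0 : ℝ), h |σ|) + ∫⁻ σ in Set.Iic (0 : ℝ), h |σ| := by
    rw [← lintegral_add_compl _ (measurableSet_Ioi (a := (0 : ℝ))), Set.compl_Ioi]
  have h2 : ∫⁻ σ in Set.Ioi (0 : ℝ), h |σ| = ∫⁻ σ in Set.Ioi (0 : ℝ), h σ := by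
    refine setLIntegral_congr_fun measurableSet_Ioi fun σ hσ => ?_
    show h |σ| = h σ
    rw [abs_of_pos hσ]
  have h3 : ∫⁻ σ in Set.Iic (0 : ℝ), h |σ| = ∫⁻ σ in Set.Ioi (0 : ℝ), h σ := by
    have e1 : ∫⁻ σ in Set.Iic (0 : ℝ), h |σ| = ∫⁻ σ in Set.Iio (0 : ℝ), h |σ| :=
      (setLIntegral_congr Iio_ae_eq_Iic).symm
    have e2 : Set.Iio (0 : ℝ) = (fun x : ℝ => -x) ⁻¹' Set.Ioi (0 : ℝ) := by
      ext x
      simp
    rw [e1, e2]
    have e3 := (Measure.measurePreserving_neg (volume : Measure ℝ)).setLIntegral_comp_preimage_emb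
      (MeasurableEquiv.neg ℝ).measurableEmbedding (fun σ => h |σ|) (Set.Ioi (0 : ℝ))
    have e4 : ∫⁻ σ in (fun x : ℝ => -x) ⁻¹' Set.Ioi (0 : ℝ), h |σ|
        = ∫⁻ σ in (fun x : ℝ => -x) ⁻¹' Set.Ioi (0 : ℝ), h |-σ| := by
      refine setLIntegral_congr_fun (measurable_neg measurableSet_Ioi) fun σ _ => ?_
      show h |σ| = h |-σ|
      rw [abs_neg]
    rw [e4]
    exact e3.trans h2
  rw [h1, h2, h3, two_mul]

/-- `∫_a^∞ σ^{-3/2} dσ = 2 a^{-1/2}` -/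
theorem l1g_tail {a : ℝ} (ha : 0 < a) :
    ∫⁻ σ in Set.Ioi a, ENNReal.ofReal ((σ ^ (3 / 2 : ℝ))⁻¹) = ENNReal.ofReal (2 / Real.sqrt a) := by
  have h0 : ∀ σ ∈ Set.Ioi a, (σ ^ (3 / 2 : ℝ))⁻¹ = σ ^ (-(3 / 2) : ℝ) := by
    intro σ hσ
    rw [Real.rpow_neg (ha.trans hσ).le]
  have h1 : ∫⁻ σ in Set.Ioi a, ENNReal.ofReal ((σ ^ (3 / 2 : ℝ))⁻¹)
      = ∫⁻ σ in Set.Ioi a, ENNReal.ofReal (σ ^ (-(3 / 2) : ℝ)) := by
    refine setLIntegral_congr_fun measurableSet_Ioi fun σ hσ => ?_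
    exact congrArg ENNReal.ofReal (h0 σ hσ)
  rw [h1, ← ofReal_integral_eq_lintegral_ofReal (integrableOn_Ioi_rpow_of_lt (by norm_num) ha)
    ((ae_restrict_iff' measurableSet_Ioi).2 (Filter.Eventually.of_forall fun σ hσ =>
      Real.rpow_nonneg (ha.trans hσ).le _)), integral_Ioi_rpow_of_lt (by norm_num) ha]
  congr 1
  have e1 : (-(3 / 2) + 1 : ℝ) = -(1 / 2) := by norm_num
  rw [e1, Real.rpow_neg ha.le, ← Real.sqrt_eq_rpow]
  have := Real.sqrt_pos.2 ha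
  field_simp

theorem l1g_head {a : ℝ} (ha : 0 < a) :
    ∫⁻ σ in Set.Ioc 0 a, ENNReal.ofReal (σ / a * (σ ^ (3 / 2 : ℝ))⁻¹)
      = ENNReal.ofReal (2 / Real.sqrt a) := by
  have h0 : ∀ σ ∈ Set.Ioc 0 a, σ / a * (σ ^ (3 / 2 : ℝ))⁻¹ = a⁻¹ * σ ^ (-(1 / 2) : ℝ) := by
    intro σ hσ
    rw [← Real.rpow_neg hσ.1.le]
    have e1 : σ * σ ^ (-(3 / 2) : ℝ) = σ ^ (-(1 / 2) : ℝ) := by
      conv_lhs => rw [← Real.rpow_one σ]
      rw [← Real.rpow_mul hσ.1.le, one_mul, ← Real.rpow_add hσ.1]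
      norm_num
    rw [← e1]
    ring
  have h1 : ∫⁻ σ in Set.Ioc 0 a, ENNReal.ofReal (σ / a * (σ ^ (3 / 2 : ℝ))⁻¹)
      = ∫⁻ σ in Set.Ioc 0 a, ENNReal.ofReal (a⁻¹ * σ ^ (-(1 / 2) : ℝ)) := by
    refine setLIntegral_congr_fun measurableSet_Ioc fun σ hσ => ?_
    exact congrArg ENNReal.ofReal (h0 σ hσ)
  have hint : IntegrableOn (fun σ : ℝ => a⁻¹ * σ ^ (-(1 / 2) : ℝ)) (Set.Ioc 0 a) := by
    have := (intervalIntegral.intervalIntegrable_rpow' (a := 0) (b := a)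
      (r := (-(1 / 2) : ℝ)) (by norm_num)).const_mul a⁻¹
    exact (intervalIntegrable_iff_integrableOn_Ioc_of_le ha.le).1 this
  rw [h1, ← ofReal_integral_eq_lintegral_ofReal hint
    ((ae_restrict_iff' measurableSet_Ioc).2 (Filter.Eventually.of_forall fun σ hσ =>
      mul_nonneg (inv_nonneg.2 ha.le) (Real.rpow_nonneg hσ.1.le _))),
    ← intervalIntegral.integral_of_le ha.le, intervalIntegral.integral_const_mul,
    integral_rpow (Or.inl (by norm_num))]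
  congr 1
  have e1 : (-(1 / 2) + 1 : ℝ) = 1 / 2 := by norm_num
  rw [e1, Real.zero_rpow (by norm_num), sub_zero, ← Real.sqrt_eq_rpow]
  have hs := Real.sqrt_pos.2 ha
  have h2 : a = Real.sqrt a * Real.sqrt a := (Real.mul_self_sqrt ha.le).symm
  have h3 : a⁻¹ * (Real.sqrt a / (1 / 2)) = 2 * Real.sqrt a / a := by
    field_simp
  rw [h3]
  rw [div_eq_div_iff ha.ne' hs.ne']
  conv_rhs => rw [h2]
  ring

theorem l1g_sigma {l : ℝ} (hl : 0 < l) :
    ∫⁻ σ : ℝ, ENNReal.ofReal (min (|σ| / l ^ 2) 1 * (|σ| ^ (3 / 2 : ℝ))⁻¹)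
      ≤ ENNReal.ofReal (8 / l) := by
  have hl2 : 0 < l ^ 2 := by positivity
  rw [l1g_lintegral_abs (fun σ => ENNReal.ofReal (min (σ / l ^ 2) 1 * (σ ^ (3 / 2 : ℝ))⁻¹))]
  have h1 : Set.Ioi (0 : ℝ) = Set.Ioc 0 (l ^ 2) ∪ Set.Ioi (l ^ 2) :=
    (Set.Ioc_union_Ioi_eq_Ioi hl2.le).symm
  have h2 : ∫⁻ σ in Set.Ioi (0 : ℝ), ENNReal.ofReal (min (σ / l ^ 2) 1 * (σ ^ (3 / 2 : ℝ))⁻¹)
      ≤ ENNReal.ofReal (2 / l) + ENNReal.ofReal (2 / l) := by
    rw [h1]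
    refine (lintegral_union_le _ _ _).trans ?_
    refine add_le_add ?_ ?_
    · have hs : Real.sqrt (l ^ 2) = l := Real.sqrt_sq hl.le
      rw [← hs, Real.sq_sqrt hl2.le, ← l1g_head hl2]
      refine setLIntegral_mono' measurableSet_Ioc fun σ hσ => ?_
      refine ENNReal.ofReal_le_ofReal ?_
      exact mul_le_mul_of_nonneg_right (min_le_left _ _)
        (inv_nonneg.2 (Real.rpow_nonneg hσ.1.le _))
    · have hs : Real.sqrt (l ^ 2) = l := Real.sqrt_sq hl.le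
      rw [← hs, Real.sq_sqrt hl2.le, ← l1g_tail hl2]
      refine setLIntegral_mono' measurableSet_Ioi fun σ hσ => ?_
      refine ENNReal.ofReal_le_ofReal ?_
      calc min (σ / l ^ 2) 1 * (σ ^ (3 / 2 : ℝ))⁻¹ ≤ 1 * (σ ^ (3 / 2 : ℝ))⁻¹ :=
            mul_le_mul_of_nonneg_right (min_le_right _ _)
              (inv_nonneg.2 (Real.rpow_nonneg (hl2.trans hσ).le _))
        _ = _ := one_mul _
  calc 2 * ∫⁻ σ in Set.Ioi (0 : ℝ), ENNReal.ofReal (min (σ / l ^ 2) 1 * (σ ^ (3 / 2 : ℝ))⁻¹)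
      ≤ 2 * (ENNReal.ofReal (2 / l) + ENNReal.ofReal (2 / l)) := by gcongr
    _ = ENNReal.ofReal (8 / l) := by
        rw [← ENNReal.ofReal_add (by positivity) (by positivity), ← ENNReal.ofReal_ofNat 2,
          ← ENNReal.ofReal_mul (by norm_num)]
        congr 1
        ring

theorem exists_N1_D (A : Coef n) : ∃ m₁ : ℕ, ∀ m : ℕ, m₁ ≤ m → ∃ C : ℝ, 0 < C ∧
    ∀ l : ℝ, 0 < l → ∀ (g : L2 n) (j : Fin (n + 1)),
    ENNReal.ofReal l * N1 (D j ((J A l ^ m) g)) ≤ ENNReal.ofReal C * N1 g := by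
  obtain ⟨m₁, c, hc, hc1, hcore⟩ := exists_core A
  obtain ⟨CD, hCD, hD⟩ := exists_lintegral_D_le
  obtain ⟨CE, hCE, hE⟩ := exists_lintegral_exp_Dw n (c := 2 * c) (by positivity)
  refine ⟨max m₁ 1, fun m hm => ?_⟩
  have hm1 : m₁ ≤ m := (le_max_left _ _).trans hm
  have hm0 : m ≠ 0 := by have := (le_max_right m₁ 1).trans hm; omega
  obtain ⟨C, hC, hcore'⟩ := hcore m hm1
  refine ⟨CD * (2 * Real.sqrt CE * C + 8), by positivity, fun l hl g j => ?_⟩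
  obtain ⟨T, hT⟩ := exists_DJ_clm A hl hm0 j
  obtain ⟨k', hk'⟩ := exists_mem_Ico_zpow hl one_lt_two
  -- cubes of side at most `l`
  have hk : ((2 : ℝ) ^ (-k'))⁻¹ ≤ l := by
    rw [zpow_neg, inv_inv]
    exact hk'.1
  have key : ∀ g : L2 n, SuppIn g (Set.univ : Set (ST n)) →
      ∫⁻ z in Set.univ, ‖T g z‖ₑ
        ≤ ENNReal.ofReal (CD * (2 * Real.sqrt CE * C + 8) / l) * N1 g := by
    apply lintegral_le_of_cubes (-k') (Q₀ := (Set.univ : Set (ST n)))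
      (fun m => Or.inl (Set.subset_univ _)) T MeasurableSet.univ
    intro i₀ _ f hf
    have hfin : N1 f ≠ ∞ := N1_ne_top_of_suppIn hf
    obtain ⟨z₀, hz₀⟩ := cube_nonempty (n := n) (-k') i₀
    have hsupp : SuppIn f {z | Dw l z₀ z ≤ (n + 3) * l} := by
      filter_upwards [hf] with z hz hz'
      apply hz
      intro hmem
      exact hz' (Dw_le_of_mem_cube hk hmem hz₀)
    obtain ⟨w, hwE, hw, hw2, hwD⟩ := hcore' l hl z₀ f hfin hsupp
    set u : L2 n := (J A l ^ m) f with hu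
    have huE : u ∈ En n := by
      obtain ⟨k, rfl⟩ := Nat.exists_eq_succ_of_ne_zero hm0
      rw [hu, Nat.succ_eq_add_one, pow_succ', mul_apply_eq_comp]
      exact J_mem A hl _
    have h1 := hD n c l hc hc1 hl z₀ u w huE hwE hw Set.univ MeasurableSet.univ j
    rw [hT]
    refine h1.trans ?_
    -- first term
    set N : ℝ := (N1 f).toReal with hN
    have hN0 : 0 ≤ N := ENNReal.toReal_nonneg
    have hNe : N1 f = ENNReal.ofReal N := (ENNReal.ofReal_toReal hfin).symm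
    have hq : 0 < Real.sqrt (l ^ (n + 2)) := Real.sqrt_pos.2 (by positivity)
    have a1 : (∫⁻ z in Set.univ, ENNReal.ofReal (Real.exp (-(2 * c * (Dw l z₀ z / l))))) ^ (1 / 2 : ℝ)
        ≤ ENNReal.ofReal (Real.sqrt CE * Real.sqrt (l ^ (n + 2))) := by
      rw [Measure.restrict_univ]
      have h2 := hE l hl z₀
      calc (∫⁻ z, ENNReal.ofReal (Real.exp (-(2 * c * (Dw l z₀ z / l))))) ^ (1 / 2 : ℝ)
          ≤ (ENNReal.ofReal (CE * l ^ (n + 2))) ^ (1 / 2 : ℝ) :=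
            ENNReal.rpow_le_rpow h2 (by norm_num)
        _ = ENNReal.ofReal (Real.sqrt CE * Real.sqrt (l ^ (n + 2))) := by
            rw [ENNReal.ofReal_rpow_of_nonneg (by positivity) (by norm_num),
              ← Real.sqrt_eq_rpow, Real.sqrt_mul hCE.le]
    have a2 : ‖D j w‖ + l⁻¹ * ‖w‖ ≤ 2 * C / (l * Real.sqrt (l ^ (n + 2))) * N := by
      have h3 : ‖D j w‖ ≤ C / Real.sqrt (l ^ (n + 2)) * N / l := by
        rw [le_div_iff₀ hl]
        have := hwD j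
        linarith only [this]
      have h4 : l⁻¹ * ‖w‖ ≤ C / Real.sqrt (l ^ (n + 2)) * N / l := by
        rw [inv_mul_le_iff₀ hl]
        have : l * (C / Real.sqrt (l ^ (n + 2)) * N / l) = C / Real.sqrt (l ^ (n + 2)) * N := by
          field_simp
        rw [this]
        exact hw2
      have h5 : C / Real.sqrt (l ^ (n + 2)) * N / l + C / Real.sqrt (l ^ (n + 2)) * N / l
          = 2 * C / (l * Real.sqrt (l ^ (n + 2))) * N := by
        field_simp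
        ring
      linarith only [h3, h4, h5]
    have a3 : (∫⁻ z in Set.univ, ENNReal.ofReal (Real.exp (-(2 * c * (Dw l z₀ z / l))))) ^ (1 / 2 : ℝ)
        * ENNReal.ofReal (‖D j w‖ + l⁻¹ * ‖w‖) ≤ ENNReal.ofReal (2 * Real.sqrt CE * C / l) * N1 f := by
      calc _ ≤ ENNReal.ofReal (Real.sqrt CE * Real.sqrt (l ^ (n + 2)))
            * ENNReal.ofReal (2 * C / (l * Real.sqrt (l ^ (n + 2))) * N) :=
            mul_le_mul' a1 (ENNReal.ofReal_le_ofReal a2)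
        _ = ENNReal.ofReal (2 * Real.sqrt CE * C / l) * N1 f := by
            rw [hNe, ← ENNReal.ofReal_mul (by positivity), ← ENNReal.ofReal_mul (by positivity)]
            congr 1
            field_simp
    -- second term
    have a4 : ∫⁻ σ : ℝ, ENNReal.ofReal (min (|σ| / l ^ 2) 1 * (|σ| ^ (3 / 2 : ℝ))⁻¹)
          * ∫⁻ z in Set.univ, ‖tr (σ • ev 0) u z‖ₑ ≤ ENNReal.ofReal (8 / l) * N1 f := by
      calc ∫⁻ σ : ℝ, ENNReal.ofReal (min (|σ| / l ^ 2) 1 * (|σ| ^ (3 / 2 : ℝ))⁻¹)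
            * ∫⁻ z in Set.univ, ‖tr (σ • ev 0) u z‖ₑ
          ≤ ∫⁻ σ : ℝ, ENNReal.ofReal (min (|σ| / l ^ 2) 1 * (|σ| ^ (3 / 2 : ℝ))⁻¹) * N1 f := by
            refine lintegral_mono fun σ => ?_
            refine mul_le_mul' le_rfl ?_
            rw [Measure.restrict_univ]
            calc ∫⁻ z, ‖tr (σ • ev 0) u z‖ₑ = N1 (tr (σ • ev 0) u) := rfl
              _ = N1 u := N1_tr _ _
              _ ≤ N1 f := N1_Jpow_le A hl m f
        _ = (∫⁻ σ : ℝ, ENNReal.ofReal (min (|σ| / l ^ 2) 1 * (|σ| ^ (3 / 2 : ℝ))⁻¹)) * N1 f := by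
            rw [lintegral_mul_const' _ _ hfin]
        _ ≤ ENNReal.ofReal (8 / l) * N1 f := mul_le_mul' (l1g_sigma hl) le_rfl
    calc ENNReal.ofReal CD *
      ((∫⁻ z in Set.univ, ENNReal.ofReal (Real.exp (-(2 * c * (Dw l z₀ z / l))))) ^ (1 / 2 : ℝ)
          * ENNReal.ofReal (‖D j w‖ + l⁻¹ * ‖w‖)
        + ∫⁻ σ : ℝ, ENNReal.ofReal (min (|σ| / l ^ 2) 1 * (|σ| ^ (3 / 2 : ℝ))⁻¹)
          * ∫⁻ z in Set.univ, ‖tr (σ • ev 0) u z‖ₑ)
        ≤ ENNReal.ofReal CD * (ENNReal.ofReal (2 * Real.sqrt CE * C / l) * N1 f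
            + ENNReal.ofReal (8 / l) * N1 f) := mul_le_mul' le_rfl (add_le_add a3 a4)
      _ = ENNReal.ofReal (CD * (2 * Real.sqrt CE * C + 8) / l) * N1 f := by
          rw [← add_mul, ← ENNReal.ofReal_add (by positivity) (by positivity), ← mul_assoc,
            ← ENNReal.ofReal_mul (by positivity)]
          congr 2
          field_simp
  have h6 := key g (Filter.Eventually.of_forall fun z hz => absurd (Set.mem_univ z) hz)
  rw [Measure.restrict_univ] at h6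
  rw [← hT]
  calc ENNReal.ofReal l * N1 (T g) ≤ ENNReal.ofReal l *
        (ENNReal.ofReal (CD * (2 * Real.sqrt CE * C + 8) / l) * N1 g) := mul_le_mul' le_rfl h6
    _ = ENNReal.ofReal (CD * (2 * Real.sqrt CE * C + 8)) * N1 g := by
        rw [← mul_assoc, ← ENNReal.ofReal_mul hl.le]
        congr 2
        field_simp
end

end Pool.Agent.W_eb6199
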