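import Pool.Agent.W_eb6199.L1grad

open MeasureTheory Complex Filter Topology
open scoped FourierTransform ComplexInnerProductSpace ENNReal NNReal

namespace Pool.Agent.W_eb6199

noncomputable section

variable {n : ℕ}

/-! off-diagonal `L¹` bound. -/

namespace L1offAux

open DHalfAux

theorem kq_sq {l : ℝ} (hl : 0 < l) : kq (l ^ 2) = (l ^ 3)⁻¹ := by
  unfold kq
  rw [abs_of_pos (by positivity)]
  congr 1
  rw [← Real.rpow_natCast, ← Real.rpow_mul hl.le, ← Real.rpow_natCast]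
  norm_num

theorem kernel_le : ∃ C : ℝ, 0 < C ∧ ∀ l : ℝ, 0 < l →
    ∫⁻ σ : ℝ, ENNReal.ofReal (min (|σ| / l ^ 2) 1 * (|σ| ^ (3 / 2 : ℝ))⁻¹)
      ≤ ENNReal.ofReal (C / l) := by
  set g : ℝ → ℝ := fun s => kq s * min 1 (1 * |s|) with hg
  have hgi : Integrable g := integrable_kq_min zero_le_one zero_le_one
  have hg0 : ∀ s, 0 ≤ g s := fun s => mul_nonneg (kq_nonneg s) (by positivity)
  have hI : 0 ≤ ∫ s, g s := integral_nonneg hg0
  refine ⟨(∫ s, g s) + 1, by positivity, fun l hl => ?_⟩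
  have hl2 : 0 < l ^ 2 := by positivity
  have hF : (fun σ : ℝ => min (|σ| / l ^ 2) 1 * (|σ| ^ (3 / 2 : ℝ))⁻¹)
      = fun σ => kq (l ^ 2) * g ((l ^ 2)⁻¹ * σ) := by
    funext σ
    have h1 : kq σ = kq (l ^ 2) * kq ((l ^ 2)⁻¹ * σ) := by
      rw [← kq_mul, ← mul_assoc, mul_inv_cancel₀ hl2.ne', one_mul]
    have h2 : |(l ^ 2)⁻¹ * σ| = |σ| / l ^ 2 := by
      rw [abs_mul, abs_of_pos (inv_pos.2 hl2)]
      ring
    show min (|σ| / l ^ 2) 1 * kq σ = _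
    rw [h1, hg]
    simp only
    rw [h2, one_mul, min_comm]
    ring
  have hFi : Integrable (fun σ : ℝ => min (|σ| / l ^ 2) 1 * (|σ| ^ (3 / 2 : ℝ))⁻¹) := by
    rw [hF]
    exact (hgi.comp_mul_left' (inv_pos.2 hl2).ne').const_mul _
  have hval : ∫ σ : ℝ, min (|σ| / l ^ 2) 1 * (|σ| ^ (3 / 2 : ℝ))⁻¹ = (∫ s, g s) / l := by
    rw [hF, integral_const_mul, Measure.integral_comp_mul_left, inv_inv, abs_of_pos hl2, kq_sq hl,
      smul_eq_mul]
    field_simp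
  rw [← ofReal_integral_eq_lintegral_ofReal hFi (Filter.Eventually.of_forall fun σ => by positivity),
    hval]
  refine ENNReal.ofReal_le_ofReal ?_
  gcongr
  linarith

theorem tail_le : ∃ C : ℝ, 0 < C ∧ ∀ r : ℝ, 0 < r →
    ∫⁻ σ in {σ : ℝ | (1 / 2) * r ^ 2 < |σ|}, ENNReal.ofReal ((|σ| ^ (3 / 2 : ℝ))⁻¹)
      ≤ ENNReal.ofReal (C / r) := by
  obtain ⟨C, hC, h⟩ := kernel_le
  refine ⟨2 * C, by positivity, fun r hr => ?_⟩
  have h1 := h (r / 2) (by positivity)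
  refine (le_trans ?_ h1).trans (le_of_eq ?_)
  · refine le_trans ?_ (setLIntegral_le_lintegral {σ : ℝ | (1 / 2) * r ^ 2 < |σ|} _)
    refine setLIntegral_mono' (measurableSet_abs _) fun σ hσ => ?_
    refine ENNReal.ofReal_le_ofReal ?_
    have h2 : 1 ≤ |σ| / (r / 2) ^ 2 := by
      rw [le_div_iff₀ (by positivity)]
      have : (1 / 2) * r ^ 2 < |σ| := hσ
      nlinarith [sq_nonneg r]
    rw [min_eq_right h2, one_mul]
  · congr 1
    field_simp

theorem exp_le {x : ℝ} (hx : 0 < x) : Real.exp (-x) ≤ 1 / x := by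
  rw [Real.exp_neg, inv_eq_one_div]
  exact one_div_le_one_div_of_le hx (by linarith [Real.add_one_le_exp x])

/-- the `L²(S)` norm of the exponential weight, `S` at distance at least `r/2` -/
theorem weight_le {c l r C₃ : ℝ} (hc : 0 < c) (hl : 0 < l) {z₀ : ST n}
    (hC₃ : ∫⁻ z, ENNReal.ofReal (Real.exp (-(c * (Dw l z₀ z / l))))
      ≤ ENNReal.ofReal (C₃ * l ^ (n + 2)))
    {S : Set (ST n)} (hS : MeasurableSet S) (hSD : ∀ z ∈ S, (1 / 2) * r ≤ Dw l z₀ z) :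
    (∫⁻ z in S, ENNReal.ofReal (Real.exp (-(2 * c * (Dw l z₀ z / l))))) ^ (1 / 2 : ℝ)
      ≤ ENNReal.ofReal (Real.exp (-(c * r / (4 * l))) * Real.sqrt (C₃ * l ^ (n + 2))) := by
  have h1 : ∫⁻ z in S, ENNReal.ofReal (Real.exp (-(2 * c * (Dw l z₀ z / l))))
      ≤ ENNReal.ofReal (Real.exp (-(c * r / (4 * l))) ^ 2 * (C₃ * l ^ (n + 2))) := by
    calc ∫⁻ z in S, ENNReal.ofReal (Real.exp (-(2 * c * (Dw l z₀ z / l))))
        ≤ ∫⁻ z in S, ENNReal.ofReal (Real.exp (-(c * r / (4 * l))) ^ 2)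
            * ENNReal.ofReal (Real.exp (-(c * (Dw l z₀ z / l)))) := by
          refine setLIntegral_mono' hS fun z hz => ?_
          rw [← ENNReal.ofReal_mul (by positivity)]
          refine ENNReal.ofReal_le_ofReal ?_
          rw [← Real.exp_nat_mul, ← Real.exp_add]
          refine Real.exp_le_exp.2 ?_
          have h2 := hSD z hz
          have h3 : c * ((1 / 2) * r) / l ≤ c * Dw l z₀ z / l := by gcongr
          have h4 : c * (Dw l z₀ z / l) = c * Dw l z₀ z / l := by ring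
          have h5 : ((2 : ℕ) : ℝ) * -(c * r / (4 * l)) = -(c * ((1 / 2) * r) / l) := by
            push_cast
            field_simp
            ring
          rw [h5]
          have h6 : 2 * c * (Dw l z₀ z / l) = c * (Dw l z₀ z / l) + c * Dw l z₀ z / l := by ring
          rw [h6]
          linarith
      _ = ENNReal.ofReal (Real.exp (-(c * r / (4 * l))) ^ 2)
            * ∫⁻ z in S, ENNReal.ofReal (Real.exp (-(c * (Dw l z₀ z / l)))) :=
          lintegral_const_mul' _ _ ENNReal.ofReal_ne_top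
      _ ≤ ENNReal.ofReal (Real.exp (-(c * r / (4 * l))) ^ 2)
            * ENNReal.ofReal (C₃ * l ^ (n + 2)) := by
          gcongr
          exact (setLIntegral_le_lintegral _ _).trans hC₃
      _ = _ := by rw [← ENNReal.ofReal_mul (by positivity)]
  refine (ENNReal.rpow_le_rpow h1 (by norm_num)).trans ?_
  by_cases h0 : 0 ≤ C₃ * l ^ (n + 2)
  · rw [ENNReal.ofReal_rpow_of_nonneg (by positivity) (by norm_num), ← Real.sqrt_eq_rpow,
      Real.sqrt_mul (by positivity), Real.sqrt_sq (Real.exp_pos _).le]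
  · push Not at h0
    rw [ENNReal.ofReal_of_nonpos (mul_nonpos_of_nonneg_of_nonpos (by positivity) h0.le),
      ENNReal.zero_rpow_of_pos (by norm_num)]
    exact zero_le

/-- the estimate for data concentrated at scale `l` -/
theorem core_off {c C₁ C₂ C₃ C₄ C₅ : ℝ} (hc : 0 < c) (hC₁ : 0 < C₁) (hC₃ : 0 < C₃) (hC₂ : 0 < C₂)
    (hC₄ : 0 < C₄) (hC₅ : 0 < C₅) {l r : ℝ} (hl : 0 < l) (hr : 0 < r) {z₀ : ST n}
    {s : Set (ST n)} (hs : MeasurableSet s)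
    (hfar : ∀ z ∈ s, ∀ σ : ℝ, |σ| ≤ (1 / 2) * r ^ 2 → (1 / 2) * r ≤ Dw l z₀ (z - σ • ev 0))
    (hexp : ∫⁻ z, ENNReal.ofReal (Real.exp (-(c * (Dw l z₀ z / l))))
      ≤ ENNReal.ofReal (C₃ * l ^ (n + 2)))
    (hker : ∫⁻ σ : ℝ, ENNReal.ofReal (min (|σ| / l ^ 2) 1 * (|σ| ^ (3 / 2 : ℝ))⁻¹)
      ≤ ENNReal.ofReal (C₄ / l))
    (htail : ∫⁻ σ in {σ : ℝ | (1 / 2) * r ^ 2 < |σ|}, ENNReal.ofReal ((|σ| ^ (3 / 2 : ℝ))⁻¹)
      ≤ ENNReal.ofReal (C₅ / r))
    {N : ℝ} (hN : 0 ≤ N) {u w : L2 n} (hu : N1 u ≤ ENNReal.ofReal N)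
    (hw : (w : ST n → ℂ) =ᵐ[volume] fun z => (Real.exp (c * (Dw l z₀ z / l)) : ℂ) * u z)
    (hw1 : ‖w‖ ≤ C₁ / Real.sqrt (l ^ (n + 2)) * N) {j : Fin (n + 1)}
    (hw2 : l * ‖D j w‖ ≤ C₁ / Real.sqrt (l ^ (n + 2)) * N)
    (hD : ∫⁻ z in s, ‖D j u z‖ₑ ≤ ENNReal.ofReal C₂ *
      ((∫⁻ z in s, ENNReal.ofReal (Real.exp (-(2 * c * (Dw l z₀ z / l))))) ^ (1 / 2 : ℝ)
          * ENNReal.ofReal (‖D j w‖ + l⁻¹ * ‖w‖)
        + ∫⁻ σ : ℝ, ENNReal.ofReal (min (|σ| / l ^ 2) 1 * (|σ| ^ (3 / 2 : ℝ))⁻¹)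
          * ∫⁻ z in s, ‖tr (σ • ev 0) u z‖ₑ)) :
    ∫⁻ z in s, ‖D j u z‖ₑ
      ≤ ENNReal.ofReal (C₂ * ((2 + C₄) * (C₁ * Real.sqrt C₃) * (4 / c) + C₅) / r * N) := by
  set E : ℝ := Real.exp (-(c * r / (4 * l))) with hE
  have hE0 : 0 < E := Real.exp_pos _
  have hEl : E / l ≤ 4 / c / r := by
    have h1 : E ≤ 1 / (c * r / (4 * l)) := exp_le (by positivity)
    calc E / l ≤ 1 / (c * r / (4 * l)) / l := by gcongr
      _ = 4 / c / r := by field_simp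
  have hq : 0 < l ^ (n + 2) := by positivity
  have hsq : 0 < Real.sqrt (l ^ (n + 2)) := Real.sqrt_pos.2 hq
  have hsplit : Real.sqrt (C₃ * l ^ (n + 2)) = Real.sqrt C₃ * Real.sqrt (l ^ (n + 2)) :=
    Real.sqrt_mul hC₃.le _
  -- first term
  have hT1 : (∫⁻ z in s, ENNReal.ofReal (Real.exp (-(2 * c * (Dw l z₀ z / l))))) ^ (1 / 2 : ℝ)
      * ENNReal.ofReal (‖D j w‖ + l⁻¹ * ‖w‖)
      ≤ ENNReal.ofReal (2 * (C₁ * Real.sqrt C₃) * (4 / c) / r * N) := by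
    have h1 := weight_le (r := r) hc hl hexp hs (fun z hz => by
      have := hfar z hz 0 (by rw [abs_zero]; positivity)
      rwa [zero_smul, sub_zero] at this)
    refine (mul_le_mul' h1 (ENNReal.ofReal_le_ofReal
      (q := 2 * (C₁ / Real.sqrt (l ^ (n + 2)) * N) / l) ?_)).trans ?_
    · have h2 : ‖D j w‖ ≤ (C₁ / Real.sqrt (l ^ (n + 2)) * N) / l := by
        rw [le_div_iff₀ hl, mul_comm]; exact hw2
      have h3 : l⁻¹ * ‖w‖ ≤ (C₁ / Real.sqrt (l ^ (n + 2)) * N) / l := by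
        rw [inv_mul_eq_div]; gcongr
      calc ‖D j w‖ + l⁻¹ * ‖w‖ ≤ (C₁ / Real.sqrt (l ^ (n + 2)) * N) / l
            + (C₁ / Real.sqrt (l ^ (n + 2)) * N) / l := add_le_add h2 h3
        _ = _ := by ring
    · rw [← ENNReal.ofReal_mul (by positivity)]
      refine ENNReal.ofReal_le_ofReal ?_
      rw [hsplit]
      calc E * (Real.sqrt C₃ * Real.sqrt (l ^ (n + 2)))
            * (2 * (C₁ / Real.sqrt (l ^ (n + 2)) * N) / l)
          = 2 * (C₁ * Real.sqrt C₃) * (E / l) * N := by field_simp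
        _ ≤ 2 * (C₁ * Real.sqrt C₃) * (4 / c / r) * N := by gcongr
        _ = _ := by ring
  -- second term
  have ha : ∀ σ : ℝ, |σ| ≤ (1 / 2) * r ^ 2 → ∫⁻ z in s, ‖tr (σ • ev 0) u z‖ₑ
      ≤ ENNReal.ofReal (E * (C₁ * Real.sqrt C₃) * N) := by
    intro σ hσ
    rw [lintegral_tr _ _ _ hs]
    set S : Set (ST n) := {z | z + σ • ev 0 ∈ s} with hS
    have hSm : MeasurableSet S := (measurable_id.add_const _) hs
    have hSD : ∀ z ∈ S, (1 / 2) * r ≤ Dw l z₀ z := by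
      intro z hz
      have := hfar _ hz σ hσ
      rwa [add_sub_cancel_right] at this
    have hDw : Continuous (Dw l z₀) := (contDiff_Dw hl z₀).continuous
    set mm : ST n → ℂ := fun z => (Real.exp (-(c * (Dw l z₀ z / l))) : ℂ) with hmm
    have hmmm : Measurable mm := (Complex.continuous_ofReal.comp (Real.continuous_exp.comp
      (continuous_const.mul (hDw.div_const l)).neg)).measurable
    have h1 : ∫⁻ z in S, ‖u z‖ₑ = ∫⁻ z in S, ‖mm z * w z‖ₑ := by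
      refine lintegral_congr_ae (ae_restrict_of_ae ?_)
      filter_upwards [hw] with z hz
      rw [hz, hmm]
      simp only
      rw [← mul_assoc, ← Complex.ofReal_mul, ← Real.exp_add, neg_add_cancel, Real.exp_zero,
        Complex.ofReal_one, one_mul]
    rw [h1]
    refine (lintegral_mul_le hSm hmmm w).trans ?_
    have h2 : ∫⁻ z in S, ‖mm z‖ₑ ^ 2
        = ∫⁻ z in S, ENNReal.ofReal (Real.exp (-(2 * c * (Dw l z₀ z / l)))) := by
      refine lintegral_congr fun z => ?_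
      rw [hmm]
      simp only
      rw [← ofReal_norm, Complex.norm_real, Real.norm_eq_abs, abs_of_pos (Real.exp_pos _),
        ← ENNReal.ofReal_pow (Real.exp_pos _).le, ← Real.exp_nat_mul]
      congr 2
      push_cast
      ring
    rw [h2]
    refine (mul_le_mul' (weight_le (r := r) hc hl hexp hSm hSD)
      (ENNReal.ofReal_le_ofReal hw1)).trans ?_
    rw [← ENNReal.ofReal_mul (by positivity)]
    refine ENNReal.ofReal_le_ofReal (le_of_eq ?_)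
    rw [hsplit, ← hE]
    field_simp
  have ha' : ∀ σ : ℝ, ∫⁻ z in s, ‖tr (σ • ev 0) u z‖ₑ ≤ ENNReal.ofReal N := by
    intro σ
    refine (setLIntegral_le_lintegral _ _).trans ?_
    have := N1_tr (σ • ev 0) u
    unfold N1 at this hu
    rw [this]
    exact hu
  have hT2 : ∫⁻ σ : ℝ, ENNReal.ofReal (min (|σ| / l ^ 2) 1 * (|σ| ^ (3 / 2 : ℝ))⁻¹)
      * ∫⁻ z in s, ‖tr (σ • ev 0) u z‖ₑ
      ≤ ENNReal.ofReal ((C₄ * (C₁ * Real.sqrt C₃) * (4 / c) + C₅) / r * N) := by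
    have hTm : MeasurableSet {σ : ℝ | (1 / 2) * r ^ 2 < |σ|} := measurableSet_abs _
    have h1 : ∀ σ : ℝ, ENNReal.ofReal (min (|σ| / l ^ 2) 1 * (|σ| ^ (3 / 2 : ℝ))⁻¹)
        * ∫⁻ z in s, ‖tr (σ • ev 0) u z‖ₑ
        ≤ ENNReal.ofReal (min (|σ| / l ^ 2) 1 * (|σ| ^ (3 / 2 : ℝ))⁻¹)
            * ENNReal.ofReal (E * (C₁ * Real.sqrt C₃) * N)
          + ({σ : ℝ | (1 / 2) * r ^ 2 < |σ|}).indicator
            (fun σ => ENNReal.ofReal ((|σ| ^ (3 / 2 : ℝ))⁻¹)) σ * ENNReal.ofReal N := by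
      intro σ
      by_cases hσ : |σ| ≤ (1 / 2) * r ^ 2
      · exact (mul_le_mul_right (ha σ hσ) _).trans le_self_add
      · push Not at hσ
        rw [Set.indicator_of_mem (by exact hσ)]
        refine le_trans ?_ le_add_self
        refine mul_le_mul' (ENNReal.ofReal_le_ofReal ?_) (ha' σ)
        exact mul_le_of_le_one_left (by positivity) (min_le_right _ _)
    have hmk : Measurable fun σ : ℝ =>
        ENNReal.ofReal (min (|σ| / l ^ 2) 1 * (|σ| ^ (3 / 2 : ℝ))⁻¹) := by fun_prop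
    calc _ ≤ ∫⁻ σ : ℝ, (ENNReal.ofReal (min (|σ| / l ^ 2) 1 * (|σ| ^ (3 / 2 : ℝ))⁻¹)
            * ENNReal.ofReal (E * (C₁ * Real.sqrt C₃) * N)
          + ({σ : ℝ | (1 / 2) * r ^ 2 < |σ|}).indicator
            (fun σ => ENNReal.ofReal ((|σ| ^ (3 / 2 : ℝ))⁻¹)) σ * ENNReal.ofReal N) :=
          lintegral_mono h1
      _ = (∫⁻ σ : ℝ, ENNReal.ofReal (min (|σ| / l ^ 2) 1 * (|σ| ^ (3 / 2 : ℝ))⁻¹))
            * ENNReal.ofReal (E * (C₁ * Real.sqrt C₃) * N)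
          + (∫⁻ σ in {σ : ℝ | (1 / 2) * r ^ 2 < |σ|}, ENNReal.ofReal ((|σ| ^ (3 / 2 : ℝ))⁻¹))
            * ENNReal.ofReal N := by
          rw [lintegral_add_left (hmk.mul_const _), lintegral_mul_const' _ _ ENNReal.ofReal_ne_top,
            lintegral_mul_const' _ _ ENNReal.ofReal_ne_top, lintegral_indicator hTm]
      _ ≤ ENNReal.ofReal (C₄ / l) * ENNReal.ofReal (E * (C₁ * Real.sqrt C₃) * N)
          + ENNReal.ofReal (C₅ / r) * ENNReal.ofReal N := by gcongr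
      _ = ENNReal.ofReal (C₄ / l * (E * (C₁ * Real.sqrt C₃) * N) + C₅ / r * N) := by
          rw [← ENNReal.ofReal_mul (by positivity), ← ENNReal.ofReal_mul (by positivity),
            ← ENNReal.ofReal_add (by positivity) (by positivity)]
      _ ≤ _ := by
          refine ENNReal.ofReal_le_ofReal ?_
          have h5 : C₄ / l * (E * (C₁ * Real.sqrt C₃) * N)
              = C₄ * (C₁ * Real.sqrt C₃) * (E / l) * N := by ring
          have h6 : C₄ * (C₁ * Real.sqrt C₃) * (E / l) * N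
              ≤ C₄ * (C₁ * Real.sqrt C₃) * (4 / c / r) * N := by gcongr
          rw [h5]
          refine (add_le_add_left h6 _).trans (le_of_eq ?_)
          ring
  refine hD.trans ?_
  refine (mul_le_mul_right (add_le_add hT1 hT2) _).trans ?_
  rw [← ENNReal.ofReal_add (by positivity) (by positivity), ← ENNReal.ofReal_mul (by positivity)]
  refine ENNReal.ofReal_le_ofReal (le_of_eq ?_)
  ring

end L1offAux

open L1offAux in
theorem exists_N1_D_off (A : Coef n) : ∃ m₁ : ℕ, ∀ m : ℕ, m₁ ≤ m → ∃ C : ℝ, 0 < C ∧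
    ∀ (k : ℤ) (i₀ : Fin (n + 1) → ℤ) (l : ℝ), 0 < l → l ≤ ((2 : ℝ) ^ k)⁻¹ →
    ∀ b : L2 n, SuppIn b (cube k i₀) → ∀ j : Fin (n + 1),
    ENNReal.ofReal l * ∫⁻ z in (star k i₀)ᶜ, ‖D j ((J A l ^ m) b) z‖ₑ
      ≤ ENNReal.ofReal (C * (l * (2 : ℝ) ^ k)) * N1 b := by
  obtain ⟨m₁, c, hc0, hc1, hcore⟩ := exists_core A
  obtain ⟨C₂, hC₂, hD⟩ := exists_lintegral_D_le
  obtain ⟨C₃, hC₃, hexp⟩ := exists_lintegral_exp_Dw n hc0
  obtain ⟨C₄, hC₄, hker⟩ := kernel_le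
  obtain ⟨C₅, hC₅, htail⟩ := tail_le
  refine ⟨m₁ + 1, fun m hm => ?_⟩
  obtain ⟨C₁, hC₁, hcore'⟩ := hcore m (by omega)
  set C : ℝ := C₂ * ((2 + C₄) * (C₁ * Real.sqrt C₃) * (4 / c) + C₅) with hC
  have hCpos : 0 < C := by
    have := Real.sqrt_pos.2 hC₃
    positivity
  refine ⟨C, hCpos, fun k i₀ l hl hlk b hb j => ?_⟩
  obtain ⟨T, hT⟩ := exists_DJ_clm A hl (show m ≠ 0 by omega) j
  have hs : MeasurableSet (star k i₀)ᶜ := (measurableSet_star k i₀).compl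
  set r : ℝ := ((2 : ℝ) ^ k)⁻¹ with hr
  have hrpos : 0 < r := by positivity
  have h4 : ((4 : ℝ) ^ k)⁻¹ = r ^ 2 := by
    rw [hr, inv_pow, ← zpow_natCast, ← zpow_mul, mul_comm k, zpow_mul]
    norm_num
  obtain ⟨k₀, hk₀⟩ := exists_mem_Ico_zpow hl (one_lt_two : (1 : ℝ) < 2)
  have hkk : k ≤ -k₀ := by
    have h1 : (2 : ℝ) ^ k₀ ≤ (2 : ℝ) ^ (-k) := by
      rw [zpow_neg]; exact hk₀.1.trans hlk
    have h2 := (zpow_le_zpow_iff_right₀ (one_lt_two : (1 : ℝ) < 2)).1 h1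
    omega
  have hk'l : ((2 : ℝ) ^ (-k₀))⁻¹ ≤ l := by
    rw [zpow_neg, inv_inv]; exact hk₀.1
  have key := lintegral_le_of_cubes (-k₀) (Q₀ := cube k i₀)
    (fun m' => cube_subset_or_disjoint hkk i₀ m') T hs (K := ENNReal.ofReal (C / r)) ?_ b hb
  · simp_rw [hT] at key
    calc ENNReal.ofReal l * ∫⁻ z in (star k i₀)ᶜ, ‖D j ((J A l ^ m) b) z‖ₑ
        ≤ ENNReal.ofReal l * (ENNReal.ofReal (C / r) * N1 b) := by gcongr
      _ = ENNReal.ofReal (C * (l * (2 : ℝ) ^ k)) * N1 b := by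
          rw [← mul_assoc, ← ENNReal.ofReal_mul hl.le]
          congr 2
          rw [hr]
          field_simp
  · intro m' hm' g hg
    rw [hT]
    obtain ⟨z₀, hz₀⟩ := cube_nonempty (n := n) (-k₀) m'
    have hNg : N1 g ≠ ∞ := N1_ne_top_of_suppIn hg
    have hsupp : SuppIn g {z | Dw l z₀ z ≤ (n + 3) * l} := by
      filter_upwards [hg] with z hz hz'
      refine hz fun hmem => hz' ?_
      exact Dw_le_of_mem_cube hk'l hmem hz₀
    obtain ⟨w, hwE, hw, hw1, hw2⟩ := hcore' l hl z₀ g hNg hsupp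
    have huE : (J A l ^ m) g ∈ En n := by
      obtain ⟨m₂, rfl⟩ : ∃ m₂, m = m₂ + 1 := ⟨m - 1, by omega⟩
      rw [pow_succ']
      exact J_mem A hl _
    have hu : N1 ((J A l ^ m) g) ≤ ENNReal.ofReal (N1 g).toReal := by
      rw [ENNReal.ofReal_toReal hNg]
      exact N1_Jpow_le A hl m g
    have hfin := core_off hc0 hC₁ hC₃ hC₂ hC₄ hC₅ hl hrpos hs
      (fun z hz σ hσ => by
        have := Dw_ge_of_not_mem_star hl hlk hz (hm' hz₀) (s := σ) (by rw [h4]; exact hσ)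
        exact this)
      (hexp l hl z₀) (hker l hl) (htail r hrpos) ENNReal.toReal_nonneg hu hw hw1 (hw2 j)
      (hD n c l hc0 hc1 hl z₀ _ w huE hwE hw _ hs j)
    refine hfin.trans (le_of_eq ?_)
    rw [ENNReal.ofReal_mul (by positivity), ENNReal.ofReal_toReal hNg]

end

end Pool.Agent.W_eb6199
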