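import Pool.Agent.W_eb6199.Core
import Pool.Agent.W_eb6199.Decomp
import Pool.Agent.W_eb6199.DwInt

open MeasureTheory Complex Filter Topology
open scoped FourierTransform ComplexInnerProductSpace ENNReal NNReal

namespace Pool.Agent.W_eb6199

noncomputable section

variable {n : ℕ}

/-! T23: `L¹ → L^∞` bound with exponential decay. -/

theorem linf_ae_aux {v : L2 n} {K ε : ℝ} (hK : 0 ≤ K) (hε : 0 < ε)
    (h : ∀ g : L2 n, N1 g ≠ ∞ → ‖⟪g, v⟫‖ ≤ K * (N1 g).toReal) :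
    ∀ᵐ z ∂(volume : Measure (ST n)), ‖v z‖ ≤ K + ε := by
  set s : Set (ST n) := {z | K + ε < ‖v z‖} with hs
  have hsm : MeasurableSet s :=
    measurableSet_lt measurable_const (Lp.stronglyMeasurable v).norm.measurable
  have hbm : BM (ind s) := BM.ind hsm
  set g : L2 n := mulOp (ind s) v with hg
  have hgz : (g : ST n → ℂ) =ᵐ[volume] fun z => ind s z * v z := mulOp_coe hbm v
  have hpt : ∀ᵐ z ∂(volume : Measure (ST n)),
      ENNReal.ofReal (K + ε) * ‖g z‖ₑ ≤ ‖g z‖ₑ ^ 2 := by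
    filter_upwards [hgz] with z hz
    rw [hz]
    by_cases hzs : z ∈ s
    · have h1 : ind s z = 1 := Set.indicator_of_mem hzs _
      rw [h1, one_mul, sq]
      gcongr
      rw [← ofReal_norm]
      exact ENNReal.ofReal_le_ofReal (le_of_lt hzs)
    · have h1 : ind s z = 0 := Set.indicator_of_notMem hzs _
      rw [h1, zero_mul]
      simp
  have hN : ENNReal.ofReal (K + ε) * N1 g ≤ ENNReal.ofReal (‖g‖ ^ 2) := by
    rw [ofReal_norm_sq, N1, ← lintegral_const_mul' _ _ ENNReal.ofReal_ne_top]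
    exact lintegral_mono_ae hpt
  have hKε : 0 < K + ε := by linarith only [hK, hε]
  have hNfin : N1 g ≠ ∞ := by
    intro htop
    rw [htop, ENNReal.mul_top (by simpa using hKε)] at hN
    exact absurd (top_le_iff.mp hN) ENNReal.ofReal_ne_top
  have hN' : (K + ε) * (N1 g).toReal ≤ ‖g‖ ^ 2 := by
    have h1 := ENNReal.toReal_mono ENNReal.ofReal_ne_top hN
    rw [ENNReal.toReal_mul, ENNReal.toReal_ofReal hKε.le,
      ENNReal.toReal_ofReal (by positivity)] at h1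
    exact h1
  have hPP : mulOp (ind s) g = g := by
    rw [hg, mulOp_mulOp hbm hbm]
    congr 2
    funext z
    by_cases hzs : z ∈ s
    · have h1 : ind s z = 1 := Set.indicator_of_mem hzs _
      rw [h1, one_mul]
    · have h1 : ind s z = 0 := Set.indicator_of_notMem hzs _
      rw [h1, zero_mul]
  have hinner : ⟪g, v⟫ = ⟪g, g⟫ := by
    have h1 : ⟪g, v⟫ = ⟪mulOp (ind s) g, v⟫ := by rw [hPP]
    rw [h1, inner_mulOp hbm]
    congr 1
    rw [hg]
    congr 2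
    funext z
    by_cases hzs : z ∈ s
    · have h1 : ind s z = 1 := Set.indicator_of_mem hzs _
      rw [h1, map_one]
    · have h1 : ind s z = 0 := Set.indicator_of_notMem hzs _
      rw [h1, map_zero]
  have hle : ‖g‖ ^ 2 ≤ K * (N1 g).toReal := by
    have h1 := h g hNfin
    rw [hinner, inner_self_eq_norm_sq_to_K] at h1
    simpa using h1
  have hz0 : (N1 g).toReal = 0 := by
    have h2 : 0 ≤ (N1 g).toReal := ENNReal.toReal_nonneg
    nlinarith only [hε, hN', hle, h2]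
  have hg0 : g = 0 := by
    rw [hz0, mul_zero] at hle
    have h3 : ‖g‖ ^ 2 = 0 := le_antisymm hle (by positivity)
    exact norm_eq_zero.mp (pow_eq_zero_iff (by norm_num) |>.mp h3)
  have hcz : (g : ST n → ℂ) =ᵐ[volume] 0 := by
    rw [hg0]
    exact Lp.coeFn_zero ℂ 2 _
  filter_upwards [hgz, hcz] with z h1 h2
  by_contra hcon
  have hzs : z ∈ s := not_le.mp hcon
  have h3 : ind s z = 1 := Set.indicator_of_mem hzs _
  rw [h1, h3, one_mul] at h2
  have h4 : ‖v z‖ = 0 := by rw [h2]; simp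
  rw [h4] at hcon
  exact hcon hKε.le

theorem ae_norm_le_of_dual {v : L2 n} {K : ℝ} (hK : 0 ≤ K)
    (h : ∀ g : L2 n, N1 g ≠ ∞ → ‖⟪g, v⟫‖ ≤ K * (N1 g).toReal) :
    ∀ᵐ z ∂(volume : Measure (ST n)), ‖v z‖ ≤ K := by
  have h1 : ∀ᵐ z ∂(volume : Measure (ST n)), ∀ k : ℕ, ‖v z‖ ≤ K + 1 / ((k : ℝ) + 1) :=
    ae_all_iff.mpr fun k => linf_ae_aux hK (by positivity) h
  filter_upwards [h1] with z hz
  have h2 : Tendsto (fun k : ℕ => K + 1 / ((k : ℝ) + 1)) atTop (𝓝 (K + 0)) :=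
    tendsto_const_nhds.add tendsto_one_div_add_atTop_nhds_zero_nat
  rw [add_zero] at h2
  exact ge_of_tendsto' h2 hz

theorem linf_suppIn_mulOp {m : ST n → ℂ} (hm : BM m) {g : L2 n} {s : Set (ST n)}
    (hg : SuppIn g s) : SuppIn (mulOp m g) s := by
  unfold SuppIn at hg ⊢
  filter_upwards [hg, mulOp_coe hm g] with z h1 h2 hz
  rw [h2, h1 hz, mul_zero]

theorem linf_N1_mulOp_le {m : ST n → ℂ} (hm : BM m) {g : L2 n} {s : Set (ST n)}
    (hg : SuppIn g s) {E : ℝ} (hE : ∀ z ∈ s, ‖m z‖ ≤ E) :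
    N1 (mulOp m g) ≤ ENNReal.ofReal E * N1 g := by
  rw [N1, N1, ← lintegral_const_mul' _ _ ENNReal.ofReal_ne_top]
  apply lintegral_mono_ae
  unfold SuppIn at hg
  filter_upwards [hg, mulOp_coe hm g] with z h1 h2
  rw [h2]
  by_cases hz : z ∈ s
  · rw [enorm_mul]
    gcongr
    rw [← ofReal_norm]
    exact ENNReal.ofReal_le_ofReal (hE z hz)
  · rw [h1 hz, mul_zero]
    simp

theorem linf_inner_J_pow (A : Coef n) {l : ℝ} (hl : 0 < l) (k : ℕ) (f g : L2 n) :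
    ⟪g, (J A l ^ k) f⟫ = ⟪(J A.adj l ^ k) g, f⟫ := by
  rw [← inner_conj_symm, inner_J_pow A hl k f g, inner_conj_symm]

theorem linf_norm_ew (ψ : ST n → ℝ) (z : ST n) : ‖ew ψ z‖ = Real.exp (ψ z) := by
  rw [ew, Complex.norm_real, Real.norm_eq_abs, abs_of_pos (Real.exp_pos _)]

/-- the conjugated powers of `J` map `L¹` to `L²` -/
theorem linf_first (A : Coef n) : ∃ m₀ : ℕ, ∃ c₁ : ℝ, 0 < c₁ ∧ ∀ m : ℕ, m₀ ≤ m →
    ∀ c : ℝ, 0 ≤ c → c ≤ c₁ → ∃ C : ℝ, 0 < C ∧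
    ∀ (k : ℤ) (z₀ : ST n) (δ : ℝ), 0 < δ → ∀ g : L2 n, N1 g ≠ ∞ →
    ‖mulOp (ew fun z => -(wt c ((2 : ℝ) ^ k)⁻¹ δ z₀ z))
        ((J A ((2 : ℝ) ^ k)⁻¹ ^ m) (mulOp (ew (wt c ((2 : ℝ) ^ k)⁻¹ δ z₀)) g))‖
      ≤ C / Real.sqrt (((2 : ℝ) ^ k)⁻¹ ^ (n + 2)) * (N1 g).toReal := by
  obtain ⟨m₀, c₁, hc₁, hoff⟩ := exists_offdiag A
  refine ⟨m₀, c₁, hc₁, fun m hm c hc hcc => ?_⟩
  obtain ⟨C', hC', hoff'⟩ := hoff m hm
  refine ⟨C' * Real.exp (c * (n + 3)), by positivity, fun k z₀ δ hδ => ?_⟩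
  set l : ℝ := ((2 : ℝ) ^ k)⁻¹ with hl'
  have hl : 0 < l := by rw [hl']; positivity
  set ψ : ST n → ℝ := wt c l δ z₀ with hψ
  have hWt : Wt c l ψ := Wt_wt_self hc hl hδ z₀
  have hbm : BM (ew ψ) := hWt.bm_ew hl
  have hbm' : BM (ew fun z => -ψ z) := hWt.neg.bm_ew hl
  set R : ℝ := Real.sqrt (l ^ (n + 2)) with hR
  have hR0 : 0 < R := by rw [hR]; positivity
  -- the operator
  have key := norm_le_of_cubes k
    ((mulOp (ew fun z => -ψ z)).comp ((J A l ^ m).comp (mulOp (ew ψ))))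
    (K := C' * Real.exp (c * (n + 3)) / R) (by positivity) ?_
  · intro g hg
    exact key g hg
  intro i g hg hgN
  obtain ⟨z', hz'⟩ := cube_nonempty k i
  have hdist : ∀ z ∈ cube k i, Dw l z' z ≤ (n + 3) * l := fun z hz =>
    Dw_le_of_mem_cube le_rfl hz hz'
  have hψz : ∀ z, ψ z ≤ ψ z' + c * (Dw l z' z / l) := by
    intro z
    have h1 := abs_wt_sub_le hc hl hδ z₀ z z'
    rw [Dw_comm] at h1
    have h2 := (abs_le.mp h1).2
    linarith only [h2]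
  have hψz' : ∀ z, ψ z' ≤ ψ z + c * (Dw l z' z / l) := by
    intro z
    have h1 := abs_wt_sub_le hc hl hδ z₀ z z'
    rw [Dw_comm] at h1
    have h2 := (abs_le.mp h1).1
    linarith only [h2]
  set h : L2 n := mulOp (ew ψ) g with hh
  have hNh : N1 h ≤ ENNReal.ofReal (Real.exp (ψ z' + c * (n + 3))) * N1 g := by
    apply linf_N1_mulOp_le hbm hg
    intro z hz
    rw [linf_norm_ew, Real.exp_le_exp]
    have h1 := hψz z
    have h2 := hdist z hz
    have h3 : Dw l z' z / l ≤ n + 3 := by rw [div_le_iff₀ hl]; exact h2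
    have h4 := mul_le_mul_of_nonneg_left h3 hc
    linarith only [h1, h4]
  have hNh1 : N1 h ≠ ∞ :=
    ne_top_of_le_ne_top (ENNReal.mul_ne_top ENNReal.ofReal_ne_top hgN) hNh
  have hNh2 : (N1 h).toReal ≤ Real.exp (ψ z' + c * (n + 3)) * (N1 g).toReal := by
    have h1 := ENNReal.toReal_mono (ENNReal.mul_ne_top ENNReal.ofReal_ne_top hgN) hNh
    rwa [ENNReal.toReal_mul, ENNReal.toReal_ofReal (Real.exp_pos _).le] at h1
  have hsupp : SuppIn h {z | Dw l z' z ≤ (n + 3) * l} := by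
    have h1 := linf_suppIn_mulOp hbm hg
    unfold SuppIn at h1 ⊢
    filter_upwards [h1] with z h2 h3
    exact h2 fun h4 => h3 (hdist z h4)
  have hWB : WB c l z' ((J A l ^ m) h) (C' / R * (N1 h).toReal) :=
    (hoff' l hl z' h hNh1 hsupp).mono hl hc hcc le_rfl
  obtain ⟨w, hw, hwn⟩ := hWB.exists_L2 hc hl
  have hT : ‖mulOp (ew fun z => -ψ z) ((J A l ^ m) h)‖ ≤ Real.exp (-ψ z') * ‖w‖ := by
    refine Lp.norm_le_mul_norm_of_ae_le_mul ?_
    filter_upwards [mulOp_coe hbm' ((J A l ^ m) h), hw] with z h1 h2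
    rw [h1, h2, norm_mul, norm_mul, linf_norm_ew, ← mul_assoc]
    refine mul_le_mul_of_nonneg_right ?_ (norm_nonneg _)
    rw [Complex.norm_real, Real.norm_eq_abs, abs_of_pos (Real.exp_pos _), ← Real.exp_add,
      Real.exp_le_exp]
    have := hψz' z
    linarith only [this]
  show ‖mulOp (ew fun z => -ψ z) ((J A l ^ m) h)‖ ≤ _
  calc ‖mulOp (ew fun z => -ψ z) ((J A l ^ m) h)‖
      ≤ Real.exp (-ψ z') * ‖w‖ := hT
    _ ≤ Real.exp (-ψ z') * (C' / R * (Real.exp (ψ z' + c * (n + 3)) * (N1 g).toReal)) := by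
        refine mul_le_mul_of_nonneg_left ?_ (Real.exp_pos _).le
        exact hwn.trans (mul_le_mul_of_nonneg_left hNh2 (by positivity))
    _ = C' * Real.exp (c * (n + 3)) / R * (N1 g).toReal := by
        have h5 : Real.exp (-ψ z') * Real.exp (ψ z' + c * (n + 3)) = Real.exp (c * (n + 3)) := by
          rw [← Real.exp_add]; congr 1; ring
        calc _ = C' / R * (Real.exp (-ψ z') * Real.exp (ψ z' + c * (n + 3)))
              * (N1 g).toReal := by ring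
          _ = _ := by rw [h5]; ring

theorem exists_Linf (A : Coef n) : ∃ m₁ : ℕ, ∃ c : ℝ, 0 < c ∧ ∀ m : ℕ, m₁ ≤ m → ∃ C : ℝ, 0 < C ∧
    ∀ (k : ℤ) (i₀ : Fin (n + 1) → ℤ) (z₀ : ST n), z₀ ∈ cube k i₀ → ∀ b : L2 n,
    SuppIn b (cube k i₀) →
    ∀ᵐ z ∂(volume : Measure (ST n)), ‖(J A ((2 : ℝ) ^ k)⁻¹ ^ m) b z‖
      ≤ C / qv n k * (N1 b).toReal * Real.exp (-(c * (Dw ((2 : ℝ) ^ k)⁻¹ z₀ z * (2 : ℝ) ^ k))) := by
  obtain ⟨m₀, c₁, hc₁, hoff⟩ := exists_offdiag A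
  obtain ⟨m₂, c₂, hc₂, hfirst⟩ := linf_first A.adj
  refine ⟨m₂ + m₀, min c₁ c₂, lt_min hc₁ hc₂, fun m hm => ?_⟩
  set c : ℝ := min c₁ c₂ with hc'
  have hc : 0 < c := lt_min hc₁ hc₂
  obtain ⟨Cb, hCb, hb'⟩ := hoff (m - m₂) (by omega)
  obtain ⟨Ca, hCa, ha'⟩ := hfirst m₂ le_rfl c hc.le (min_le_right _ _)
  refine ⟨Ca * Cb, by positivity, fun k i₀ z₀ hz₀ b hb => ?_⟩
  have hqv : qv n k = ((2 : ℝ) ^ k)⁻¹ ^ (n + 2) := rfl
  have h2k : (0 : ℝ) < (2 : ℝ) ^ k := by positivity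
  rw [hqv]
  have hbN : N1 b ≠ ∞ := N1_ne_top_of_suppIn hb
  have hfirst' := ha' k z₀
  set l : ℝ := ((2 : ℝ) ^ k)⁻¹ with hl'
  have hl : 0 < l := by rw [hl']; positivity
  set R : ℝ := Real.sqrt (l ^ (n + 2)) with hR
  have hR0 : 0 < R := by rw [hR]; positivity
  have hRR : R * R = l ^ (n + 2) := Real.mul_self_sqrt (by positivity)
  have hsupp : SuppIn b {z | Dw l z₀ z ≤ (n + 3) * l} := by
    unfold SuppIn at hb ⊢
    filter_upwards [hb] with z h2 h3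
    exact h2 fun h4 => h3 (Dw_le_of_mem_cube le_rfl h4 hz₀)
  set v : L2 n := (J A l ^ (m - m₂)) b with hv
  have hWB : WB c l z₀ v (Cb / R * (N1 b).toReal) :=
    (hb' l hl z₀ b hbN hsupp).mono hl hc.le (min_le_left _ _) le_rfl
  have hm' : (J A l ^ m) b = (J A l ^ m₂) v := by
    have : m = m₂ + (m - m₂) := by omega
    rw [hv]
    conv_lhs => rw [this, pow_add]
    rfl
  set K : ℝ := Ca / R * (Cb / R * (N1 b).toReal) with hK
  have hK0 : 0 ≤ K := by positivity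
  have hbound : ∀ δ : ℝ, 0 < δ → ∀ᵐ z ∂(volume : Measure (ST n)),
      Real.exp (wt c l δ z₀ z) * ‖(J A l ^ m) b z‖ ≤ K := by
    intro δ hδ
    set ψ : ST n → ℝ := wt c l δ z₀ with hψ
    have hWt : Wt c l ψ := Wt_wt_self hc.le hl hδ z₀
    have hbm : BM (ew ψ) := hWt.bm_ew hl
    have hbm' : BM (ew fun z => -ψ z) := hWt.neg.bm_ew hl
    have hdual : ∀ g : L2 n, N1 g ≠ ∞ →
        ‖⟪g, mulOp (ew ψ) ((J A l ^ m) b)⟫‖ ≤ K * (N1 g).toReal := by
      intro g hg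
      have e1 : ⟪g, mulOp (ew ψ) ((J A l ^ m) b)⟫
          = ⟪(J A.adj l ^ m₂) (mulOp (ew ψ) g), v⟫ := by
        rw [hm', ← linf_inner_J_pow A hl]
        exact (inner_mulOp_real (m := fun z => Real.exp (ψ z)) hbm g _).symm
      have e2 : v = mulOp (ew fun z => -ψ z) (mulOp (ew ψ) v) := (mulOp_ew_neg hl hWt v).symm
      have e3 : ⟪(J A.adj l ^ m₂) (mulOp (ew ψ) g), v⟫
          = ⟪mulOp (ew fun z => -ψ z) ((J A.adj l ^ m₂) (mulOp (ew ψ) g)),
              mulOp (ew ψ) v⟫ := by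
        conv_lhs => rw [e2]
        exact (inner_mulOp_real (m := fun z => Real.exp (-ψ z)) hbm' _ _).symm
      rw [e1, e3]
      refine (norm_inner_le_norm _ _).trans ?_
      have e4 := hfirst' δ hδ g hg
      have e5 := hWB δ hδ
      calc _ ≤ (Ca / R * (N1 g).toReal) * (Cb / R * (N1 b).toReal) :=
            mul_le_mul e4 e5 (norm_nonneg _) (by positivity)
        _ = K * (N1 g).toReal := by rw [hK]; ring
    filter_upwards [ae_norm_le_of_dual hK0 hdual, mulOp_coe hbm ((J A l ^ m) b)] with z h1 h2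
    rw [h2, norm_mul, linf_norm_ew] at h1
    exact h1
  have hall : ∀ᵐ z ∂(volume : Measure (ST n)), ∀ j : ℕ,
      Real.exp (wt c l (1 / ((j : ℝ) + 1)) z₀ z) * ‖(J A l ^ m) b z‖ ≤ K :=
    ae_all_iff.mpr fun j => hbound _ (by positivity)
  filter_upwards [hall] with z hz
  have h1 : Tendsto (fun j : ℕ => wt c l (1 / ((j : ℝ) + 1)) z₀ z) atTop
      (𝓝 (c * (Dw l z₀ z / l))) := (tendsto_wt hl z₀ z).comp core_seq
  have h2 : Tendsto (fun j : ℕ => Real.exp (wt c l (1 / ((j : ℝ) + 1)) z₀ z)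
      * ‖(J A l ^ m) b z‖) atTop (𝓝 (Real.exp (c * (Dw l z₀ z / l)) * ‖(J A l ^ m) b z‖)) :=
    ((Real.continuous_exp.tendsto _).comp h1).mul_const _
  have h3 : Real.exp (c * (Dw l z₀ z / l)) * ‖(J A l ^ m) b z‖ ≤ K := le_of_tendsto' h2 hz
  have h4 : Dw l z₀ z / l = Dw l z₀ z * (2 : ℝ) ^ k := by
    rw [hl', div_inv_eq_mul]
  rw [h4] at h3
  rw [Real.exp_neg]
  have h5 : Ca * Cb / l ^ (n + 2) * (N1 b).toReal = K := by
    rw [hK, ← hRR]
    field_simp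
  rw [h5, ← div_eq_mul_inv, le_div_iff₀ (Real.exp_pos _)]
  linarith only [h3]

end

end Pool.Agent.W_eb6199
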