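import Pool.Agent.W_eb6199.FouL1
import Pool.Agent.W_eb6199.Energy

open MeasureTheory Complex Filter Topology
open scoped FourierTransform ComplexInnerProductSpace ENNReal NNReal

namespace Pool.Agent.W_eb6199

noncomputable section

variable {n : ℕ}

/-! T17: Nash inequality and the `L¹ → L²` bound of `J^m`. -/

/-- half side lengths of the frequency box -/
def nashR (l : ℝ) (j : Fin (n + 1)) : ℝ := if j = 0 then 1 / (2 * l ^ 2) else 1 / (2 * l)

/-- the frequency box -/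
def nashBox (l : ℝ) : Set (ST n) := {ζ | ∀ j, |ζ j| ≤ nashR l j}

theorem nashBox_eq (l : ℝ) : (nashBox l : Set (ST n)) =
    (WithLp.ofLp : ST n → (Fin (n + 1) → ℝ)) ⁻¹' (Set.Icc (fun j => -nashR l j) (nashR l)) := by
  ext ζ
  simp only [nashBox, Set.mem_ofPred_eq, Set.mem_preimage, Set.mem_Icc, Pi.le_def, abs_le]
  constructor
  · intro h
    exact ⟨fun j => (h j).1, fun j => (h j).2⟩
  · intro h j
    exact ⟨h.1 j, h.2 j⟩

theorem volume_nashBox {l : ℝ} (hl : 0 < l) :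
    volume (nashBox l : Set (ST n)) = ENNReal.ofReal (1 / l ^ (n + 2)) := by
  rw [nashBox_eq, (PiLp.volume_preserving_ofLp (Fin (n + 1))).measure_preimage
    measurableSet_Icc.nullMeasurableSet, Real.volume_Icc_pi, Fin.prod_univ_succ]
  have h0 : nashR l (0 : Fin (n + 1)) = 1 / (2 * l ^ 2) := by simp [nashR]
  have hs : ∀ i : Fin n, nashR l i.succ = 1 / (2 * l) := by
    intro i; simp [nashR, Fin.succ_ne_zero]
  simp only [h0, hs, Finset.prod_const, Finset.card_univ, Fintype.card_fin]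
  have e0 : 1 / (2 * l ^ 2) - -(1 / (2 * l ^ 2)) = 1 / l ^ 2 := by field_simp; ring
  have es : 1 / (2 * l) - -(1 / (2 * l)) = 1 / l := by field_simp; ring
  rw [e0, es, ← ENNReal.ofReal_pow (by positivity), ← ENNReal.ofReal_mul (by positivity)]
  congr 1
  rw [div_pow, one_pow, div_mul_div_comm, one_mul, ← pow_add, Nat.add_comm 2 n]

theorem measurableSet_nashBox (l : ℝ) : MeasurableSet (nashBox l : Set (ST n)) := by
  rw [nashBox_eq]
  exact (PiLp.volume_preserving_ofLp (Fin (n + 1))).measurable measurableSet_Icc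

theorem one_le_of_notMem_nashBox {l : ℝ} (hl : 0 < l) {ζ : ST n} (h : ζ ∉ nashBox l) :
    1 ≤ ENNReal.ofReal (l ^ 2) * ∑ j, ‖gsym j ζ‖ₑ ^ 2 := by
  simp only [nashBox, Set.mem_ofPred_eq, not_forall, not_le] at h
  obtain ⟨j, hj⟩ := h
  have hreal : 1 ≤ l ^ 2 * ‖gsym j ζ‖ ^ 2 := by
    have hpi : (1 : ℝ) ≤ Real.pi := by linarith [Real.pi_gt_three]
    rcases Fin.eq_zero_or_eq_succ j with rfl | ⟨i, rfl⟩
    · rw [gsym_zero, Complex.norm_real, Real.norm_eq_abs, sq_abs,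
        Real.sq_sqrt (by positivity)]
      have h0 : nashR l (0 : Fin (n + 1)) = 1 / (2 * l ^ 2) := by simp [nashR]
      rw [h0, div_lt_iff₀ (by positivity)] at hj
      nlinarith [abs_nonneg (ζ 0), mul_nonneg (abs_nonneg (ζ 0)) (sq_nonneg l)]
    · rw [gsym_succ]
      have hs : nashR l i.succ = 1 / (2 * l) := by simp [nashR, Fin.succ_ne_zero]
      rw [hs, div_lt_iff₀ (by positivity)] at hj
      have hn : ‖(2 * Real.pi * I * (ζ i.succ : ℂ) : ℂ)‖ = 2 * Real.pi * |ζ i.succ| := by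
        rw [norm_mul, norm_mul, norm_mul, Complex.norm_I, Complex.norm_real, Complex.norm_real,
          Real.norm_eq_abs, Real.norm_eq_abs, abs_of_pos Real.pi_pos]
        simp
      rw [hn]
      have h1 : 1 ≤ l * (2 * Real.pi * |ζ i.succ|) := by
        nlinarith [abs_nonneg (ζ i.succ), mul_nonneg (abs_nonneg (ζ i.succ)) hl.le]
      calc (1 : ℝ) ≤ (l * (2 * Real.pi * |ζ i.succ|)) ^ 2 := one_le_pow₀ h1
        _ = l ^ 2 * (2 * Real.pi * |ζ i.succ|) ^ 2 := by ring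
  calc (1 : ℝ≥0∞) = ENNReal.ofReal 1 := by simp
    _ ≤ ENNReal.ofReal (l ^ 2 * ‖gsym j ζ‖ ^ 2) := ENNReal.ofReal_le_ofReal hreal
    _ = ENNReal.ofReal (l ^ 2) * ‖gsym j ζ‖ₑ ^ 2 := by
        rw [ENNReal.ofReal_mul (by positivity), ENNReal.ofReal_pow (norm_nonneg _),
          ofReal_norm]
    _ ≤ ENNReal.ofReal (l ^ 2) * ∑ j, ‖gsym j ζ‖ₑ ^ 2 := by
        gcongr
        exact Finset.single_le_sum (f := fun j => ‖gsym j ζ‖ₑ ^ 2) (fun _ _ => zero_le)
          (Finset.mem_univ j)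

/-- parabolic Nash inequality on the Fourier side:
`‖h‖² ≤ C_n R^{-(n+2)} ‖h‖₁² + R² ‖Dh‖²` -/
theorem nash (n : ℕ) : ∃ C : ℝ, 0 < C ∧ ∀ (l : ℝ), 0 < l → ∀ h ∈ En n, N1 h ≠ ∞ →
    ‖h‖ ^ 2 ≤ C / l ^ (n + 2) * (N1 h).toReal ^ 2 + l ^ 2 * eD h := by
  refine ⟨1, one_pos, fun l hl h hh hN => ?_⟩
  have hD : ∀ j, ENNReal.ofReal (‖D j h‖ ^ 2) =
      ∫⁻ ζ, ‖gsym j ζ‖ₑ ^ 2 * ‖(𝓕 h : L2 n) ζ‖ₑ ^ 2 := fun j =>
    ofReal_norm_sq_FMul (FMul_D hh j)
  have hmeas : ∀ j, AEMeasurable (fun ζ : ST n => ‖gsym j ζ‖ₑ ^ 2 * ‖(𝓕 h : L2 n) ζ‖ₑ ^ 2)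
      volume := fun j =>
    ((measurable_gsym j).enorm.pow_const 2).aemeasurable.mul
      ((Lp.aestronglyMeasurable (𝓕 h : L2 n)).enorm.pow_const 2)
  have hE : ENNReal.ofReal (eD h) =
      ∫⁻ ζ, (∑ j, ‖gsym j ζ‖ₑ ^ 2) * ‖(𝓕 h : L2 n) ζ‖ₑ ^ 2 := by
    unfold eD
    rw [ENNReal.ofReal_sum_of_nonneg (fun j _ => sq_nonneg _)]
    simp_rw [hD, Finset.sum_mul]
    rw [lintegral_finsetSum' _ (fun j _ => hmeas j)]
  have key : ENNReal.ofReal (‖h‖ ^ 2) ≤
      ENNReal.ofReal (1 / l ^ (n + 2) * (N1 h).toReal ^ 2 + l ^ 2 * eD h) := by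
    rw [ofReal_norm_sq_fourier]
    have hbound : ∀ᵐ ζ ∂(volume : Measure (ST n)), ‖(𝓕 h : L2 n) ζ‖ₑ ^ 2 ≤
        (nashBox l).indicator (fun _ => ENNReal.ofReal ((N1 h).toReal ^ 2)) ζ +
          ENNReal.ofReal (l ^ 2) * ((∑ j, ‖gsym j ζ‖ₑ ^ 2) * ‖(𝓕 h : L2 n) ζ‖ₑ ^ 2) := by
      filter_upwards [fourier_norm_le h hN] with ζ hζ
      by_cases hb : ζ ∈ nashBox l
      · refine le_add_right ?_
        rw [Set.indicator_of_mem hb, ENNReal.ofReal_pow ENNReal.toReal_nonneg,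
          ← ofReal_norm]
        gcongr
      · refine le_add_left ?_
        calc ‖(𝓕 h : L2 n) ζ‖ₑ ^ 2 = 1 * ‖(𝓕 h : L2 n) ζ‖ₑ ^ 2 := by rw [one_mul]
          _ ≤ (ENNReal.ofReal (l ^ 2) * ∑ j, ‖gsym j ζ‖ₑ ^ 2) * ‖(𝓕 h : L2 n) ζ‖ₑ ^ 2 := by
              gcongr
              exact one_le_of_notMem_nashBox hl hb
          _ = _ := by rw [mul_assoc]
    refine (lintegral_mono_ae hbound).trans ?_
    rw [lintegral_add_left (measurable_const.indicator (measurableSet_nashBox l)),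
      lintegral_indicator (measurableSet_nashBox l), lintegral_const, Measure.restrict_apply
        MeasurableSet.univ, Set.univ_inter, volume_nashBox hl,
      lintegral_const_mul' _ _ ENNReal.ofReal_ne_top, ← hE,
      ← ENNReal.ofReal_mul (by positivity), ← ENNReal.ofReal_mul (by positivity),
      ← ENNReal.ofReal_add (by positivity) (mul_nonneg (by positivity) (eD_nonneg h))]
    apply le_of_eq
    congr 1
    ring
  refine (ENNReal.ofReal_le_ofReal_iff ?_).1 key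
  exact add_nonneg (by positivity) (mul_nonneg (by positivity) (eD_nonneg h))

end

end Pool.Agent.W_eb6199
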