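import Pool.Agent.W_eb6199.Resolvent
import Pool.Agent.W_eb6199.Prod

open MeasureTheory Complex Filter Topology
open scoped FourierTransform ComplexInnerProductSpace ENNReal NNReal

namespace Pool.Agent.W_eb6199

noncomputable section

variable {n : ℕ}

/-! T14: weighted energy estimate (Gaffney / Davies). -/

theorem Wt.hasFDerivAt_ew {κ l : ℝ} {ψ : ST n → ℝ} (h : Wt κ l ψ) (z : ST n) :
    HasFDerivAt (ew ψ) ((Complex.ofRealCLM).comp ((Real.exp (ψ z)) • fderiv ℝ ψ z)) z := by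
  have h1 : HasFDerivAt ψ (fderiv ℝ ψ z) z :=
    ((h.cd.differentiable (by norm_num)) z).hasFDerivAt
  have h2 := h1.exp
  exact (Complex.ofRealCLM.hasFDerivAt).comp z h2

theorem Wt.fderiv_ew {κ l : ℝ} {ψ : ST n → ℝ} (h : Wt κ l ψ) (z : ST n) :
    fderiv ℝ (ew ψ) z = (Complex.ofRealCLM).comp ((Real.exp (ψ z)) • fderiv ℝ ψ z) :=
  (h.hasFDerivAt_ew z).fderiv

theorem Wt.pd_ew {κ l : ℝ} {ψ : ST n → ℝ} (h : Wt κ l ψ) (j : Fin (n + 1)) :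
    pd j (ew ψ) = fun z => (fderiv ℝ ψ z (ev j) : ℂ) * ew ψ z := by
  funext z
  unfold pd
  rw [h.fderiv_ew z]
  simp [ew]
  ring

theorem norm_clm_le_of_ev_wt {B : ℝ} (L : ST n →L[ℝ] ℝ) (hB : ∀ j, |L (ev j)| ≤ B) :
    ‖L‖ ≤ (n + 1) * B := by
  have hB0 : 0 ≤ B := (abs_nonneg _).trans (hB 0)
  refine L.opNorm_le_bound (by positivity) fun v => ?_
  have hv : v = ∑ j, (v j) • (ev j : ST n) := by
    ext k
    simp [ev, Pi.single_apply]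
  have h1 : L v = ∑ j, (v j) * L (ev j) := by
    conv_lhs => rw [hv]
    rw [map_sum]
    simp
  rw [h1]
  calc ‖∑ j, (v j) * L (ev j)‖ ≤ ∑ j, ‖(v j) * L (ev j)‖ := norm_sum_le _ _
    _ ≤ ∑ _j : Fin (n + 1), ‖v‖ * B := by
        refine Finset.sum_le_sum fun j _ => ?_
        rw [norm_mul]
        exact mul_le_mul (PiLp.norm_apply_le v j) (hB j) (norm_nonneg _) (norm_nonneg _)
    _ = (n + 1) * B * ‖v‖ := by
        simp
        ring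

theorem Wt.abs_fderiv_le {κ l : ℝ} {ψ : ST n → ℝ} (h : Wt κ l ψ) (z : ST n)
    (j : Fin (n + 1)) : |fderiv ℝ ψ z (ev j)| ≤ max (κ / l) (κ / l ^ 2) := by
  induction j using Fin.cases with
  | zero => exact (h.dt z).trans (le_max_right _ _)
  | succ i => exact (h.dx z i).trans (le_max_left _ _)

set_option linter.unusedVariables false in
theorem Wt.C1b_ew {κ l : ℝ} (hl : 0 < l) {ψ : ST n → ℝ} (h : Wt κ l ψ) : C1b (ew ψ) := by
  obtain ⟨C, hC⟩ := h.bdd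
  refine ⟨?_, ⟨Real.exp C, ?_⟩, ⟨Real.exp C * ((n + 1) * max (κ / l) (κ / l ^ 2)), ?_⟩⟩
  · exact (Complex.ofRealCLM.contDiff).comp (Real.contDiff_exp.comp h.cd)
  · intro z
    unfold ew
    rw [Complex.norm_real, Real.norm_eq_abs, abs_of_pos (Real.exp_pos _)]
    exact Real.exp_le_exp.2 ((le_abs_self _).trans (hC z))
  · intro z
    rw [h.fderiv_ew z]
    refine (ContinuousLinearMap.opNorm_comp_le _ _).trans ?_
    rw [Complex.ofRealCLM_norm, one_mul, norm_smul, Real.norm_eq_abs,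
      abs_of_pos (Real.exp_pos _)]
    refine mul_le_mul (Real.exp_le_exp.2 ((le_abs_self _).trans (hC z))) ?_ (norm_nonneg _)
      (Real.exp_pos _).le
    exact norm_clm_le_of_ev_wt _ (h.abs_fderiv_le z)

theorem Wt.bm_ew {κ l : ℝ} (hl : 0 < l) {ψ : ST n → ℝ} (h : Wt κ l ψ) : BM (ew ψ) :=
  (h.C1b_ew hl).bm

theorem Wt.neg {κ l : ℝ} {ψ : ST n → ℝ} (h : Wt κ l ψ) : Wt κ l fun z => -ψ z := by
  have hd : ∀ z, fderiv ℝ (fun z => -ψ z) z = -fderiv ℝ ψ z := fun z => fderiv_fun_neg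
  refine ⟨h.cd.neg, ?_, ?_, ?_⟩
  · obtain ⟨C, hC⟩ := h.bdd
    exact ⟨C, fun z => by rw [abs_neg]; exact hC z⟩
  · intro z i
    rw [hd]
    simpa using h.dx z i
  · intro z
    rw [hd]
    simpa using h.dt z

theorem mulOp_ew_neg {κ l : ℝ} (hl : 0 < l) {ψ : ST n → ℝ} (h : Wt κ l ψ) (u : L2 n) :
    mulOp (ew fun z => -ψ z) (mulOp (ew ψ) u) = u := by
  rw [mulOp_mulOp (h.neg.bm_ew hl) (h.bm_ew hl)]
  have : (fun z => ew (fun z => -ψ z) z * ew ψ z) = fun _ => (1 : ℂ) := by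
    funext z
    unfold ew
    rw [← Complex.ofReal_mul, ← Real.exp_add]
    simp
  rw [this, mulOp_const, one_smul]

/-- the derivatives of the weight are bounded measurable -/
theorem Wt.bm_d {κ l : ℝ} {ψ : ST n → ℝ} (h : Wt κ l ψ) (j : Fin (n + 1)) :
    BM fun z => (fderiv ℝ ψ z (ev j) : ℂ) := by
  refine ⟨?_, ⟨max (κ / l) (κ / l ^ 2), fun z => ?_⟩⟩
  · have h1 : Continuous fun z => fderiv ℝ ψ z (ev j) :=
      (h.cd.continuous_fderiv (by norm_num)).clm_apply continuous_const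
    exact (Complex.continuous_ofReal.comp h1).measurable
  · rw [Complex.norm_real, Real.norm_eq_abs]
    exact h.abs_fderiv_le z j

theorem Wt.norm_d_succ_le {κ l : ℝ} {ψ : ST n → ℝ} (h : Wt κ l ψ) (i : Fin n) (u : L2 n) :
    ‖mulOp (fun z => (fderiv ℝ ψ z (ev i.succ) : ℂ)) u‖ ≤ κ / l * ‖u‖ := by
  refine norm_mulOp_le (h.bm_d i.succ).meas (fun z => ?_) u
  rw [Complex.norm_real, Real.norm_eq_abs]
  exact h.dx z i

theorem Wt.norm_d_zero_le {κ l : ℝ} {ψ : ST n → ℝ} (h : Wt κ l ψ) (u : L2 n) :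
    ‖mulOp (fun z => (fderiv ℝ ψ z (ev 0) : ℂ)) u‖ ≤ κ / l ^ 2 * ‖u‖ := by
  refine norm_mulOp_le (h.bm_d 0).meas (fun z => ?_) u
  rw [Complex.norm_real, Real.norm_eq_abs]
  exact h.dt z

theorem conj_ew_wt (ψ : ST n → ℝ) : (fun z => (starRingEnd ℂ) (ew ψ z)) = ew ψ := by
  funext z
  unfold ew
  exact Complex.conj_ofReal _

theorem Wt.inner_ew {κ l : ℝ} (hl : 0 < l) {ψ : ST n → ℝ} (h : Wt κ l ψ) (u v : L2 n) :
    ⟪mulOp (ew ψ) u, v⟫ = ⟪u, mulOp (ew ψ) v⟫ := by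
  rw [inner_mulOp (h.bm_ew hl), conj_ew_wt]

/-- `D_i (e^ψ v) = e^ψ (D_i v + (∂_i ψ) v)` -/
theorem Wt.D_succ_ew {κ l : ℝ} (hl : 0 < l) {ψ : ST n → ℝ} (h : Wt κ l ψ) {v : L2 n}
    (hv : v ∈ En n) (i : Fin n) :
    D i.succ (mulOp (ew ψ) v) = mulOp (ew ψ)
      (D i.succ v + mulOp (fun z => (fderiv ℝ ψ z (ev i.succ) : ℂ)) v) := by
  rw [D_succ_mulOp (h.C1b_ew hl) hv, map_add, h.pd_ew,
    ← mulOp_mulOp (h.bm_d i.succ) (h.bm_ew hl), mulOp_comm (h.bm_d i.succ) (h.bm_ew hl)]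

theorem Wt.D_succ_ew' {κ l : ℝ} (hl : 0 < l) {ψ : ST n → ℝ} (h : Wt κ l ψ) {u : L2 n}
    (hu : u ∈ En n) (i : Fin n) :
    mulOp (ew ψ) (D i.succ u) = D i.succ (mulOp (ew ψ) u)
      - mulOp (fun z => (fderiv ℝ ψ z (ev i.succ) : ℂ)) (mulOp (ew ψ) u) := by
  rw [h.D_succ_ew hl hu, map_add, mulOp_comm (h.bm_d i.succ) (h.bm_ew hl)]
  abel

theorem Coef.app_sub_wt (A : Coef n) (F G : Fin n → L2 n) (i : Fin n) :
    A.app (fun j => F j - G j) i = A.app F i - A.app G i := by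
  have h1 := A.app_add F (fun j => (-1 : ℂ) • G j) i
  rw [A.app_smul] at h1
  simp only [neg_smul, one_smul] at h1
  simpa [sub_eq_add_neg] using h1

/-- the equation of `w = e^ψ u` -/
theorem weighted_eq_wt (A : Coef n) {κ l : ℝ} (hl : 0 < l) {ψ : ST n → ℝ} (h : Wt κ l ψ)
    {f : L2 n} {F : Fin n → L2 n} {u : L2 n} (hu : IsRes A l f F u) {v : L2 n}
    (hv : v ∈ En n) :
    ⟪v, mulOp (ew ψ) u⟫ + (l : ℂ) ^ 2 * form A (mulOp (ew ψ) u) v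
      = (l : ℂ) ^ 2 * ((A.sg : ℂ) * ⟪v, mulOp (fun z => (fderiv ℝ ψ z (ev 0) : ℂ)) (mulOp (ew ψ) u)⟫)
        + (l : ℂ) ^ 2 * (∑ i : Fin n, ⟪D i.succ v,
            A.app (fun j => mulOp (fun z => (fderiv ℝ ψ z (ev j.succ) : ℂ)) (mulOp (ew ψ) u)) i⟫)
        - (l : ℂ) ^ 2 * (∑ i : Fin n, ⟪mulOp (fun z => (fderiv ℝ ψ z (ev i.succ) : ℂ)) v,
            A.app (fun j => D j.succ (mulOp (ew ψ) u)) i⟫)
        + (l : ℂ) ^ 2 * (∑ i : Fin n, ⟪mulOp (fun z => (fderiv ℝ ψ z (ev i.succ) : ℂ)) v,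
            A.app (fun j => mulOp (fun z => (fderiv ℝ ψ z (ev j.succ) : ℂ)) (mulOp (ew ψ) u)) i⟫)
        + ⟪v, mulOp (ew ψ) f⟫
        + (l : ℂ) * (∑ i : Fin n, ⟪D i.succ v, mulOp (ew ψ) (F i)⟫)
        + (l : ℂ) * (∑ i : Fin n, ⟪mulOp (fun z => (fderiv ℝ ψ z (ev i.succ) : ℂ)) v,
            mulOp (ew ψ) (F i)⟫) := by
  have huE : u ∈ En n := hu.1
  have hb := h.bm_ew hl
  have hC := h.C1b_ew hl
  have hvE : mulOp (ew ψ) v ∈ En n := En_mulOp hC hv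
  have key := hu.2 _ hvE
  -- time part
  have ht : ⟪D 0 (mulOp (ew ψ) v), Ht (D 0 u)⟫
      = ⟪D 0 v, Ht (D 0 (mulOp (ew ψ) u))⟫
        - ⟪v, mulOp (fun z => (fderiv ℝ ψ z (ev 0) : ℂ)) (mulOp (ew ψ) u)⟫ := by
    have h1 := time_form_mulOp hC huE hv
    rw [conj_ew_wt, h.pd_ew, ← mulOp_mulOp (h.bm_d 0) hb] at h1
    rw [h1]
    ring
  -- space part
  have hx : ∀ i : Fin n, ⟪D i.succ (mulOp (ew ψ) v), A.app (fun j => D j.succ u) i⟫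
      = ⟪D i.succ v, A.app (fun j => D j.succ (mulOp (ew ψ) u)) i⟫
        - ⟪D i.succ v,
            A.app (fun j => mulOp (fun z => (fderiv ℝ ψ z (ev j.succ) : ℂ)) (mulOp (ew ψ) u)) i⟫
        + ⟪mulOp (fun z => (fderiv ℝ ψ z (ev i.succ) : ℂ)) v,
            A.app (fun j => D j.succ (mulOp (ew ψ) u)) i⟫
        - ⟪mulOp (fun z => (fderiv ℝ ψ z (ev i.succ) : ℂ)) v,
            A.app (fun j => mulOp (fun z => (fderiv ℝ ψ z (ev j.succ) : ℂ)) (mulOp (ew ψ) u)) i⟫ := by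
    intro i
    rw [h.D_succ_ew hl hv, h.inner_ew hl, ← A.app_mulOp hb]
    simp only [h.D_succ_ew' hl huE]
    rw [A.app_sub_wt, inner_add_left, inner_sub_right, inner_sub_right]
    ring
  have hform : form A u (mulOp (ew ψ) v) = form A (mulOp (ew ψ) u) v
      - (A.sg : ℂ) * ⟪v, mulOp (fun z => (fderiv ℝ ψ z (ev 0) : ℂ)) (mulOp (ew ψ) u)⟫
      - (∑ i : Fin n, ⟪D i.succ v,
            A.app (fun j => mulOp (fun z => (fderiv ℝ ψ z (ev j.succ) : ℂ)) (mulOp (ew ψ) u)) i⟫)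
      + (∑ i : Fin n, ⟪mulOp (fun z => (fderiv ℝ ψ z (ev i.succ) : ℂ)) v,
            A.app (fun j => D j.succ (mulOp (ew ψ) u)) i⟫)
      - (∑ i : Fin n, ⟪mulOp (fun z => (fderiv ℝ ψ z (ev i.succ) : ℂ)) v,
            A.app (fun j => mulOp (fun z => (fderiv ℝ ψ z (ev j.succ) : ℂ)) (mulOp (ew ψ) u)) i⟫) := by
    unfold form
    rw [ht, Finset.sum_congr rfl fun i _ => hx i, Finset.sum_sub_distrib,
      Finset.sum_add_distrib, Finset.sum_sub_distrib]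
    ring
  have hF : (∑ i : Fin n, ⟪D i.succ (mulOp (ew ψ) v), F i⟫)
      = (∑ i : Fin n, ⟪D i.succ v, mulOp (ew ψ) (F i)⟫)
        + (∑ i : Fin n, ⟪mulOp (fun z => (fderiv ℝ ψ z (ev i.succ) : ℂ)) v,
            mulOp (ew ψ) (F i)⟫) := by
    rw [← Finset.sum_add_distrib]
    refine Finset.sum_congr rfl fun i _ => ?_
    rw [h.D_succ_ew hl hv, h.inner_ew hl, inner_add_left]
  rw [hform, hF, h.inner_ew hl, h.inner_ew hl] at key
  linear_combination key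

theorem norm_sum_inner_le_wt (x y : Fin n → L2 n) :
    ‖(∑ i, ⟪x i, y i⟫ : ℂ)‖ ≤ Real.sqrt (∑ i, ‖x i‖ ^ 2) * Real.sqrt (∑ i, ‖y i‖ ^ 2) := by
  refine (norm_sum_le _ _).trans ?_
  refine (Finset.sum_le_sum fun i _ => norm_inner_le_norm (x i) (y i)).trans ?_
  exact Real.sum_mul_le_sqrt_mul_sqrt _ _ _

theorem weighted_absorb {c κ K N M a b fn Fn q : ℝ} (hc : 0 < c) (hκ0' : 0 < κ) (hκ1' : κ ≤ 1)
    (hN0 : 0 ≤ N) (hNM : 0 ≤ N * M) (hq0 : 0 ≤ q) (hqq : q * q = N)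
    (hK : K = 2 + 2 * (N * M) * q + 2 * (N * M) * N) (hκK : κ * K = c / 2)
    (ha0 : 0 ≤ a) (hb0 : 0 ≤ b) (hfn0 : 0 ≤ fn) (hFn0 : 0 ≤ Fn)
    (htot : c * (a ^ 2 + b ^ 2) ≤ 2 * κ * a ^ 2 + (N * M) * ((κ * q * a) * (2 * b))
      + (N * M) * (b * (κ * q * (2 * a))) + (N * M) * ((κ * q * a) * (κ * q * (2 * a)))
      + 2 * a * fn + 2 * b * Fn + κ * q * (2 * a) * Fn) :
    a ^ 2 + b ^ 2 ≤ 32 * (N + 1) / c ^ 2 * (fn ^ 2 + Fn ^ 2) := by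
  have hab : 2 * (a * b) ≤ a ^ 2 + b ^ 2 := by nlinarith only [sq_nonneg (a - b)]
  have hS : 0 ≤ a ^ 2 + b ^ 2 := by positivity
  have haS : a ^ 2 ≤ a ^ 2 + b ^ 2 := by linarith only [sq_nonneg b]
  have e1 : 2 * κ * a ^ 2 ≤ κ * 2 * (a ^ 2 + b ^ 2) := by
    calc 2 * κ * a ^ 2 = κ * 2 * a ^ 2 := by ring
      _ ≤ _ := mul_le_mul_of_nonneg_left haS (by positivity)
  have e2 : (N * M) * ((κ * q * a) * (2 * b)) + (N * M) * (b * (κ * q * (2 * a)))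
      ≤ κ * (2 * (N * M) * q) * (a ^ 2 + b ^ 2) := by
    have h1 : 0 ≤ κ * (2 * (N * M) * q) := by positivity
    have h2 := mul_le_mul_of_nonneg_left hab h1
    calc (N * M) * ((κ * q * a) * (2 * b)) + (N * M) * (b * (κ * q * (2 * a)))
        = κ * (2 * (N * M) * q) * (2 * (a * b)) := by ring
      _ ≤ _ := h2
  have e3 : (N * M) * ((κ * q * a) * (κ * q * (2 * a)))
      ≤ κ * (2 * (N * M) * N) * (a ^ 2 + b ^ 2) := by
    have h1 : 0 ≤ κ * (2 * (N * M) * N) := by positivity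
    calc (N * M) * ((κ * q * a) * (κ * q * (2 * a)))
        = κ * (κ * (2 * (N * M) * (q * q))) * a ^ 2 := by ring
      _ = κ * (κ * (2 * (N * M) * N)) * a ^ 2 := by rw [hqq]
      _ ≤ κ * (1 * (2 * (N * M) * N)) * a ^ 2 := by
          refine mul_le_mul_of_nonneg_right ?_ (sq_nonneg a)
          refine mul_le_mul_of_nonneg_left ?_ hκ0'.le
          exact mul_le_mul_of_nonneg_right hκ1' (by positivity)
      _ = κ * (2 * (N * M) * N) * a ^ 2 := by ring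
      _ ≤ κ * (2 * (N * M) * N) * (a ^ 2 + b ^ 2) := mul_le_mul_of_nonneg_left haS h1
  have e4 : c / 2 * (a ^ 2 + b ^ 2) = κ * 2 * (a ^ 2 + b ^ 2)
      + κ * (2 * (N * M) * q) * (a ^ 2 + b ^ 2)
      + κ * (2 * (N * M) * N) * (a ^ 2 + b ^ 2) := by
    rw [← hκK, hK]; ring
  have hqa : κ * q * (2 * a) * Fn ≤ 2 * a * (q * Fn) := by
    have h1 : 0 ≤ 2 * a * (q * Fn) := by positivity
    calc κ * q * (2 * a) * Fn = κ * (2 * a * (q * Fn)) := by ring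
      _ ≤ 1 * (2 * a * (q * Fn)) := mul_le_mul_of_nonneg_right hκ1' h1
      _ = _ := one_mul _
  have young : ∀ x y : ℝ, 2 * x * y ≤ c / 8 * x ^ 2 + 8 / c * y ^ 2 := by
    intro x y
    have h1 : 0 ≤ (c * x - 8 * y) ^ 2 / (8 * c) := by positivity
    have h2 : (c * x - 8 * y) ^ 2 / (8 * c) = c / 8 * x ^ 2 + 8 / c * y ^ 2 - 2 * x * y := by
      field_simp
      ring
    linarith only [h1, h2]
  have y1 := young a fn
  have y2 := young b Fn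
  have y3 := young a (q * Fn)
  have hq2 : (q * Fn) ^ 2 = N * Fn ^ 2 := by rw [← hqq]; ring
  rw [hq2] at y3
  have hfin : c / 4 * (a ^ 2 + b ^ 2) ≤ 8 / c * ((N + 1) * (fn ^ 2 + Fn ^ 2)) := by
    have h8 : 0 < 8 / c := by positivity
    have h1 : 8 / c * (fn ^ 2 + Fn ^ 2 + N * Fn ^ 2) ≤ 8 / c * ((N + 1) * (fn ^ 2 + Fn ^ 2)) := by
      refine mul_le_mul_of_nonneg_left ?_ h8.le
      have : (N + 1) * (fn ^ 2 + Fn ^ 2) = fn ^ 2 + Fn ^ 2 + N * Fn ^ 2 + N * fn ^ 2 := by ring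
      rw [this]
      linarith only [mul_nonneg hN0 (sq_nonneg fn)]
    have h2 : 0 ≤ c / 8 * b ^ 2 := by positivity
    have e : 8 / c * (fn ^ 2 + Fn ^ 2 + N * Fn ^ 2)
        = 8 / c * fn ^ 2 + 8 / c * Fn ^ 2 + 8 / c * (N * Fn ^ 2) := by ring
    rw [e] at h1
    have e5 : c / 4 * (a ^ 2 + b ^ 2) = c * (a ^ 2 + b ^ 2) - c / 2 * (a ^ 2 + b ^ 2)
        - c / 4 * (a ^ 2 + b ^ 2) := by ring
    have e6 : c / 4 * (a ^ 2 + b ^ 2) = c / 8 * a ^ 2 + c / 8 * a ^ 2 + c / 8 * b ^ 2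
        + c / 8 * b ^ 2 := by ring
    linarith only [htot, e1, e2, e3, e4, hqa, y1, y2, y3, h1, h2]
  have h1 : a ^ 2 + b ^ 2 = 4 / c * (c / 4 * (a ^ 2 + b ^ 2)) := by field_simp
  calc a ^ 2 + b ^ 2 = 4 / c * (c / 4 * (a ^ 2 + b ^ 2)) := h1
    _ ≤ 4 / c * (8 / c * ((N + 1) * (fn ^ 2 + Fn ^ 2))) :=
        mul_le_mul_of_nonneg_left hfin (by positivity)
    _ = 32 * (N + 1) / c ^ 2 * (fn ^ 2 + Fn ^ 2) := by
        field_simp
        ring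

/-- the weighted energy estimate: there is a slope `κ₀ > 0` and a constant such that for all
scales and weights: `‖e^ψ u‖² + l² eD(e^ψ u) ≤ C (‖e^ψ f‖² + ∑ ‖e^ψ F_i‖²)` -/
theorem exists_weighted (A : Coef n) : ∃ κ₀ C : ℝ, 0 < κ₀ ∧ κ₀ ≤ 1 ∧ 1 ≤ C ∧
    ∀ l : ℝ, 0 < l → ∀ ψ : ST n → ℝ, Wt κ₀ l ψ →
    ∀ (f : L2 n) (F : Fin n → L2 n) (u : L2 n), IsRes A l f F u →
    ‖mulOp (ew ψ) u‖ ^ 2 + l ^ 2 * eD (mulOp (ew ψ) u)
      ≤ C * (‖mulOp (ew ψ) f‖ ^ 2 + ∑ i, ‖mulOp (ew ψ) (F i)‖ ^ 2) := by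
  obtain ⟨δ, c, hδ, hδ1, hc, hc1, hco⟩ := exists_coercive A
  have hM := A.one_le_M
  set q : ℝ := Real.sqrt n with hq
  have hq0 : 0 ≤ q := Real.sqrt_nonneg _
  have hqq : q * q = n := Real.mul_self_sqrt (Nat.cast_nonneg n)
  have hn0 : (0 : ℝ) ≤ n := Nat.cast_nonneg n
  have hM0 : 0 ≤ A.M := by linarith only [hM]
  have hnM : 0 ≤ n * A.M := mul_nonneg hn0 hM0
  obtain ⟨K, hK⟩ : ∃ K : ℝ, K = 2 + 2 * (n * A.M) * q + 2 * (n * A.M) * n := ⟨_, rfl⟩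
  have hK2 : 2 ≤ K := by
    have h1 : 0 ≤ (n * A.M) * q := mul_nonneg hnM hq0
    have h2 : 0 ≤ (n * A.M) * (n : ℝ) := mul_nonneg hnM hn0
    rw [hK]; linarith only [h1, h2]
  have hK0 : 0 < K := by linarith only [hK2]
  have hκ0 : 0 < c / (2 * K) := by positivity
  have hκ1 : c / (2 * K) ≤ 1 := by
    rw [div_le_one (by positivity)]
    linarith only [hc1, hK2]
  refine ⟨c / (2 * K), 32 * (n + 1) / c ^ 2, hκ0, hκ1, ?_, ?_⟩
  · rw [le_div_iff₀ (by positivity)]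
    nlinarith only [hc, hc1]
  intro l hl ψ hψ f F u hu
  set κ : ℝ := c / (2 * K) with hκ
  have hκK : κ * K = c / 2 := by
    rw [hκ]; field_simp
  set w : L2 n := mulOp (ew ψ) u with hw
  have hwE : w ∈ En n := En_mulOp (hψ.C1b_ew hl) hu.1
  let v : L2 n := w + ((δ * A.sg : ℝ) : ℂ) • Ht w
  have hv : v = w + ((δ * A.sg : ℝ) : ℂ) • Ht w := rfl
  have hvE : v ∈ En n := En_add hwE (En_smul _ (En_Ht hwE))
  have hsg : |A.sg| = 1 := by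
    rcases A.sg_eq with h | h <;> rw [h] <;> simp
  have hδs : ‖((δ * A.sg : ℝ) : ℂ)‖ ≤ 1 := by
    rw [Complex.norm_real, Real.norm_eq_abs, abs_mul, hsg, mul_one, abs_of_pos hδ]
    exact hδ1
  have htwo : ∀ x : L2 n, ‖x + ((δ * A.sg : ℝ) : ℂ) • Ht x‖ ≤ 2 * ‖x‖ := by
    intro x
    refine (norm_add_le _ _).trans ?_
    rw [norm_smul]
    have h1 := norm_Ht_le x
    have h2 : ‖((δ * A.sg : ℝ) : ℂ)‖ * ‖Ht x‖ ≤ 1 * ‖x‖ :=
      mul_le_mul hδs h1 (norm_nonneg _) zero_le_one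
    linarith only [h2]
  have hvn : ‖v‖ ≤ 2 * ‖w‖ := htwo w
  have hDv : ∀ j, ‖D j v‖ ≤ 2 * ‖D j w‖ := by
    intro j
    rw [hv, D_add j hwE (En_smul _ (En_Ht hwE)), D_smul j _ (En_Ht hwE), D_Ht j hwE]
    exact htwo (D j w)
  set a : ℝ := ‖w‖ with ha
  set b : ℝ := l * Real.sqrt (eD w) with hb
  have ha0 : 0 ≤ a := norm_nonneg _
  have hb0 : 0 ≤ b := mul_nonneg hl.le (Real.sqrt_nonneg _)
  have hbb : b ^ 2 = l ^ 2 * eD w := by
    rw [hb, mul_pow, Real.sq_sqrt (eD_nonneg w)]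
  set fn : ℝ := ‖mulOp (ew ψ) f‖ with hfn
  set Fn : ℝ := Real.sqrt (∑ i, ‖mulOp (ew ψ) (F i)‖ ^ 2) with hFn
  have hfn0 : 0 ≤ fn := norm_nonneg _
  have hFn0 : 0 ≤ Fn := Real.sqrt_nonneg _
  have hFF : Fn ^ 2 = ∑ i, ‖mulOp (ew ψ) (F i)‖ ^ 2 :=
    Real.sq_sqrt (Finset.sum_nonneg fun i _ => by positivity)
  -- square root bounds
  have hgle : gD w ≤ eD w := by
    rw [eD_eq]
    have := sq_nonneg ‖D 0 w‖
    linarith only [this]
  have hDw : l * Real.sqrt (∑ i : Fin n, ‖D i.succ w‖ ^ 2) ≤ b := by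
    refine mul_le_mul_of_nonneg_left (Real.sqrt_le_sqrt ?_) hl.le
    exact hgle
  have hDvs : l * Real.sqrt (∑ i : Fin n, ‖D i.succ v‖ ^ 2) ≤ 2 * b := by
    have h1 : (∑ i : Fin n, ‖D i.succ v‖ ^ 2) ≤ 2 ^ 2 * eD w := by
      refine le_trans ?_ (mul_le_mul_of_nonneg_left hgle (by norm_num))
      unfold gD
      rw [Finset.mul_sum]
      refine Finset.sum_le_sum fun i _ => ?_
      rw [← mul_pow]
      exact pow_le_pow_left₀ (norm_nonneg _) (hDv i.succ) 2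
    have h2 : Real.sqrt (∑ i : Fin n, ‖D i.succ v‖ ^ 2) ≤ 2 * Real.sqrt (eD w) := by
      refine (Real.sqrt_le_sqrt h1).trans (le_of_eq ?_)
      rw [Real.sqrt_mul (by norm_num), Real.sqrt_sq (by norm_num)]
    calc l * Real.sqrt (∑ i : Fin n, ‖D i.succ v‖ ^ 2) ≤ l * (2 * Real.sqrt (eD w)) :=
          mul_le_mul_of_nonneg_left h2 hl.le
      _ = 2 * b := by rw [hb]; ring
  have hdsum : ∀ x : L2 n, l * Real.sqrt (∑ i : Fin n,
      ‖mulOp (fun z => (fderiv ℝ ψ z (ev i.succ) : ℂ)) x‖ ^ 2) ≤ κ * q * ‖x‖ := by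
    intro x
    have h1 : (∑ i : Fin n, ‖mulOp (fun z => (fderiv ℝ ψ z (ev i.succ) : ℂ)) x‖ ^ 2)
        ≤ (q * (κ / l * ‖x‖)) ^ 2 := by
      calc (∑ i : Fin n, ‖mulOp (fun z => (fderiv ℝ ψ z (ev i.succ) : ℂ)) x‖ ^ 2)
          ≤ ∑ _i : Fin n, (κ / l * ‖x‖) ^ 2 := by
            refine Finset.sum_le_sum fun i _ => ?_
            exact pow_le_pow_left₀ (norm_nonneg _) (hψ.norm_d_succ_le i x) 2
        _ = (q * (κ / l * ‖x‖)) ^ 2 := by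
            rw [Finset.sum_const, Finset.card_univ, Fintype.card_fin, nsmul_eq_mul, ← hqq]
            ring
    have h2 := Real.sqrt_le_sqrt h1
    rw [Real.sqrt_sq (by positivity)] at h2
    calc l * Real.sqrt (∑ i : Fin n, ‖mulOp (fun z => (fderiv ℝ ψ z (ev i.succ) : ℂ)) x‖ ^ 2)
        ≤ l * (q * (κ / l * ‖x‖)) := mul_le_mul_of_nonneg_left h2 hl.le
      _ = κ * q * ‖x‖ := by field_simp
  have hG := hdsum w
  have hP : l * Real.sqrt (∑ i : Fin n,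
      ‖mulOp (fun z => (fderiv ℝ ψ z (ev i.succ) : ℂ)) v‖ ^ 2) ≤ κ * q * (2 * a) :=
    (hdsum v).trans (mul_le_mul_of_nonneg_left hvn (by positivity))
  -- lower bound of the left-hand side
  have hlow : c * (a ^ 2 + b ^ 2)
      ≤ (⟪v, w⟫ + (l : ℂ) ^ 2 * form A w v : ℂ).re := by
    have h1 : (⟪v, w⟫ : ℂ).re = a ^ 2 := by
      have h2 : (⟪Ht w, w⟫ : ℂ).re = 0 := by
        rw [← inner_conj_symm, Complex.conj_re]
        exact re_inner_Ht_self w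
      rw [hv, inner_add_left, inner_smul_left, Complex.add_re, Complex.conj_ofReal,
        Complex.re_ofReal_mul, h2, mul_zero, add_zero, inner_self_eq_norm_sq_to_K]
      norm_cast
    have h2 : ((l : ℂ) ^ 2 * form A w v).re = l ^ 2 * (form A w v).re := by
      rw [← Complex.ofReal_pow, Complex.re_ofReal_mul]
    have h3 := hco w hwE
    have h4 : l ^ 2 * (c * eD w) ≤ l ^ 2 * (form A w v).re :=
      mul_le_mul_of_nonneg_left h3 (by positivity)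
    rw [Complex.add_re, h1, h2, hbb]
    nlinarith only [hc1, h4]
  have key := weighted_eq_wt A hl hψ hu hvE
  rw [← hw] at key
  rw [key] at hlow
  have hup := hlow.trans (Complex.re_le_norm _)
  -- bounds of the terms
  have hl2 : ‖(l : ℂ) ^ 2‖ = l ^ 2 := by
    rw [norm_pow, Complex.norm_real, Real.norm_eq_abs, abs_of_pos hl]
  have hl1 : ‖(l : ℂ)‖ = l := by
    rw [Complex.norm_real, Real.norm_eq_abs, abs_of_pos hl]
  have T1 : ‖(l : ℂ) ^ 2 * ((A.sg : ℂ) *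
      ⟪v, mulOp (fun z => (fderiv ℝ ψ z (ev 0) : ℂ)) w⟫)‖ ≤ 2 * κ * a ^ 2 := by
    rw [norm_mul, norm_mul, hl2, Complex.norm_real, Real.norm_eq_abs, hsg, one_mul]
    have h1 := norm_inner_le_norm (𝕜 := ℂ) v (mulOp (fun z => (fderiv ℝ ψ z (ev 0) : ℂ)) w)
    have h2 := hψ.norm_d_zero_le w
    have h3 : ‖v‖ * ‖mulOp (fun z => (fderiv ℝ ψ z (ev 0) : ℂ)) w‖
        ≤ (2 * a) * (κ / l ^ 2 * a) := mul_le_mul hvn h2 (norm_nonneg _) (by positivity)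
    calc l ^ 2 * ‖⟪v, mulOp (fun z => (fderiv ℝ ψ z (ev 0) : ℂ)) w⟫‖
        ≤ l ^ 2 * ((2 * a) * (κ / l ^ 2 * a)) :=
          mul_le_mul_of_nonneg_left (h1.trans h3) (by positivity)
      _ = 2 * κ * a ^ 2 := by field_simp
  have happ : ∀ (X Y : Fin n → L2 n) (x y : ℝ), l * Real.sqrt (∑ i, ‖X i‖ ^ 2) ≤ x →
      l * Real.sqrt (∑ i, ‖Y i‖ ^ 2) ≤ y →
      ‖(l : ℂ) ^ 2 * (∑ i : Fin n, ⟪Y i, A.app X i⟫)‖ ≤ (n * A.M) * (x * y) := by
    intro X Y x y hx hy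
    rw [norm_mul, hl2]
    have h1 := A.norm_app_sum_le X Y
    have h2 : 0 ≤ l * Real.sqrt (∑ i, ‖X i‖ ^ 2) := mul_nonneg hl.le (Real.sqrt_nonneg _)
    have h3 : 0 ≤ l * Real.sqrt (∑ i, ‖Y i‖ ^ 2) := mul_nonneg hl.le (Real.sqrt_nonneg _)
    calc l ^ 2 * ‖(∑ i : Fin n, ⟪Y i, A.app X i⟫ : ℂ)‖
        ≤ l ^ 2 * (n * A.M * Real.sqrt (∑ i, ‖X i‖ ^ 2) * Real.sqrt (∑ i, ‖Y i‖ ^ 2)) :=
          mul_le_mul_of_nonneg_left h1 (by positivity)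
      _ = (n * A.M) * ((l * Real.sqrt (∑ i, ‖X i‖ ^ 2)) * (l * Real.sqrt (∑ i, ‖Y i‖ ^ 2))) := by
          ring
      _ ≤ (n * A.M) * (x * y) :=
          mul_le_mul_of_nonneg_left (mul_le_mul hx hy h3 (h2.trans hx)) hnM
  have T2 := happ (fun j => mulOp (fun z => (fderiv ℝ ψ z (ev j.succ) : ℂ)) w)
    (fun i => D i.succ v) _ _ hG hDvs
  have T3 := happ (fun j => D j.succ w)
    (fun i => mulOp (fun z => (fderiv ℝ ψ z (ev i.succ) : ℂ)) v) _ _ hDw hP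
  have T4 := happ (fun j => mulOp (fun z => (fderiv ℝ ψ z (ev j.succ) : ℂ)) w)
    (fun i => mulOp (fun z => (fderiv ℝ ψ z (ev i.succ) : ℂ)) v) _ _ hG hP
  have T5 : ‖(⟪v, mulOp (ew ψ) f⟫ : ℂ)‖ ≤ 2 * a * fn :=
    (norm_inner_le_norm _ _).trans (mul_le_mul_of_nonneg_right hvn hfn0)
  have hdat : ∀ (Y : Fin n → L2 n) (y : ℝ), l * Real.sqrt (∑ i, ‖Y i‖ ^ 2) ≤ y →
      ‖(l : ℂ) * (∑ i : Fin n, ⟪Y i, mulOp (ew ψ) (F i)⟫)‖ ≤ y * Fn := by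
    intro Y y hy
    rw [norm_mul, hl1]
    have h1 := norm_sum_inner_le_wt Y (fun i => mulOp (ew ψ) (F i))
    calc l * ‖(∑ i : Fin n, ⟪Y i, mulOp (ew ψ) (F i)⟫ : ℂ)‖
        ≤ l * (Real.sqrt (∑ i, ‖Y i‖ ^ 2) * Fn) := mul_le_mul_of_nonneg_left h1 hl.le
      _ = (l * Real.sqrt (∑ i, ‖Y i‖ ^ 2)) * Fn := by ring
      _ ≤ y * Fn := mul_le_mul_of_nonneg_right hy hFn0
  have T6 := hdat (fun i => D i.succ v) _ hDvs
  have T7 := hdat (fun i => mulOp (fun z => (fderiv ℝ ψ z (ev i.succ) : ℂ)) v) _ hP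
  have htot : c * (a ^ 2 + b ^ 2) ≤ 2 * κ * a ^ 2 + (n * A.M) * ((κ * q * a) * (2 * b))
      + (n * A.M) * (b * (κ * q * (2 * a))) + (n * A.M) * ((κ * q * a) * (κ * q * (2 * a)))
      + 2 * a * fn + 2 * b * Fn + κ * q * (2 * a) * Fn := by
    refine hup.trans ?_
    refine (norm_add_le _ _).trans (add_le_add ?_ T7)
    refine (norm_add_le _ _).trans (add_le_add ?_ T6)
    refine (norm_add_le _ _).trans (add_le_add ?_ T5)
    refine (norm_add_le _ _).trans (add_le_add ?_ T4)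
    refine (norm_sub_le _ _).trans (add_le_add ?_ T3)
    exact (norm_add_le _ _).trans (add_le_add T1 T2)
  rw [← hbb, ← hFF]
  exact weighted_absorb hc hκ0 hκ1 hn0 hnM hq0 hqq hK hκK ha0 hb0 hfn0 hFn0 htot

end

end Pool.Agent.W_eb6199
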