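import Pool.Agent.W_eb6199.L1L2
import Pool.Agent.W_eb6199.Weight
import Pool.Agent.W_eb6199.DwLemmas
import Pool.Agent.W_eb6199.DwInt
import Pool.Agent.W_eb6199.Mul

open MeasureTheory Complex Filter Topology
open scoped FourierTransform ComplexInnerProductSpace ENNReal NNReal

namespace Pool.Agent.W_eb6199

noncomputable section

variable {n : ℕ}

/-! T19: exponential `L¹ → L²` off-diagonal bounds (Grigoryan iteration). -/

theorem od_real1 {a b C e S : ℝ} (h : a ^ 2 + e ≤ C * (b ^ 2 + S)) (hS : S = 0) (he : 0 ≤ e)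
    (hC : 1 ≤ C) (hb : 0 ≤ b) : a ≤ C * b := by
  rw [hS, add_zero] at h
  have hC0 : 0 ≤ C := by linarith only [hC]
  refine (abs_le_of_sq_le_sq' ?_ (mul_nonneg hC0 hb)).2
  have h1 : C * b ^ 2 ≤ C ^ 2 * b ^ 2 := by
    refine mul_le_mul_of_nonneg_right ?_ (sq_nonneg _)
    nlinarith only [hC]
  rw [mul_pow]
  linarith only [h, he, h1]

theorem od_quarter {E : Type*} [NormedAddCommGroup E] [NormedSpace ℂ E] (g w : E) :
    ‖(1 / 4 : ℂ) • g + (3 / 4 : ℂ) • w‖ ≤ 1 / 4 * ‖g‖ + 3 / 4 * ‖w‖ := by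
  refine (norm_add_le _ _).trans (le_of_eq ?_)
  have h2 : ‖(1 / 4 : ℂ)‖ = 1 / 4 := by norm_num
  have h3 : ‖(3 / 4 : ℂ)‖ = 3 / 4 := by norm_num
  rw [norm_smul, norm_smul, h2, h3]

theorem od_map {E F : Type*} [NormedAddCommGroup E] [NormedSpace ℂ E] [NormedAddCommGroup F]
    [NormedSpace ℂ F] (T : E →L[ℂ] F) (a b : E) :
    T ((1 / 4 : ℂ) • a + (3 / 4 : ℂ) • b) = (1 / 4 : ℂ) • T a + (3 / 4 : ℂ) • T b := by
  rw [map_add, map_smul, map_smul]

theorem od_sum_step {F : ℕ → ℝ} {N : ℕ} {X Y Y' : ℝ} (ih : X ≤ (∑ k ∈ Finset.range N, F k) + Y)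
    (h : Y ≤ F N + Y') : X ≤ (∑ k ∈ Finset.range (N + 1), F k) + Y' := by
  rw [Finset.sum_range_succ]
  linarith only [ih, h]

theorem od_lim {K X : ℝ} {a : ℕ → ℝ} (ha : Tendsto a atTop (𝓝 0)) (h : ∀ N, X ≤ K + a N) :
    X ≤ K := by
  have h1 := (tendsto_const_nhds (x := K)).add ha
  rw [add_zero] at h1
  exact ge_of_tendsto' h1 h

theorem norm_ew (ψ : ST n → ℝ) (z : ST n) : ‖ew ψ z‖ = Real.exp (ψ z) := by
  unfold ew
  rw [Complex.norm_real, Real.norm_eq_abs, abs_of_pos (Real.exp_pos _)]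

theorem bm_ew_wt {c l δ : ℝ} (hc : 0 ≤ c) (hl : 0 < l) (hδ : 0 < δ) (z₀ : ST n) :
    BM (ew (wt c l δ z₀)) :=
  Wt.bm_ew hl (Wt_wt_self hc hl hδ z₀)

theorem WB.mono {c c' l K K' : ℝ} (hl : 0 < l) (hc' : 0 ≤ c') (hcc' : c' ≤ c) (hK : K ≤ K')
    {z₀ : ST n} {u : L2 n} (h : WB c l z₀ u K) : WB c' l z₀ u K' := by
  intro δ hδ
  refine le_trans ?_ ((h δ hδ).trans hK)
  refine norm_mulOp_mono (bm_ew_wt hc' hl hδ z₀) (bm_ew_wt (hc'.trans hcc') hl hδ z₀) ?_ u
  intro z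
  rw [norm_ew, norm_ew]
  refine Real.exp_le_exp.mpr ?_
  unfold wt
  have hD : 0 ≤ Dw l z₀ z / l := div_nonneg (Dw_nonneg hl z₀ z) hl.le
  have h1 : 0 < 1 + δ * (Dw l z₀ z / l) := by positivity
  exact div_le_div_of_nonneg_right (mul_le_mul_of_nonneg_right hcc' hD) h1.le

/-- weighted bounds for powers of `J` -/
theorem exists_weighted_Jpow (A : Coef n) : ∃ κ₀ C : ℝ, 0 < κ₀ ∧ κ₀ ≤ 1 ∧ 1 ≤ C ∧ ∀ l : ℝ, 0 < l →
    ∀ ψ : ST n → ℝ, Wt κ₀ l ψ → ∀ (k : ℕ) (f : L2 n),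
    ‖mulOp (ew ψ) ((J A l ^ k) f)‖ ≤ C ^ k * ‖mulOp (ew ψ) f‖ := by
  obtain ⟨κ₀, C, hκ, hκ1, hC, h⟩ := exists_weighted A
  refine ⟨κ₀, C, hκ, hκ1, hC, ?_⟩
  intro l hl ψ hψ k f
  induction k with
  | zero => simp
  | succ k ih =>
    have h1 := h l hl ψ hψ ((J A l ^ k) f) 0 (J A l ((J A l ^ k) f)) (J_spec A hl _)
    have h2 : (J A l ^ (k + 1)) f = J A l ((J A l ^ k) f) := by
      rw [pow_succ']
      rfl
    rw [h2]
    have h3 : 0 ≤ l ^ 2 * eD (mulOp (ew ψ) (J A l ((J A l ^ k) f))) := by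
      refine mul_nonneg (sq_nonneg l) ?_
      unfold eD
      exact Finset.sum_nonneg fun j _ => sq_nonneg _
    have h4 : ∑ i : Fin n, ‖mulOp (ew ψ) ((0 : Fin n → L2 n) i)‖ ^ 2 = 0 := by
      refine Finset.sum_eq_zero fun i _ => ?_
      rw [Pi.zero_apply, map_zero, norm_zero]
      norm_num
    have h7 := od_real1 h1 h4 h3 hC (norm_nonneg _)
    calc _ ≤ C * ‖mulOp (ew ψ) ((J A l ^ k) f)‖ := h7
      _ ≤ C * (C ^ k * ‖mulOp (ew ψ) f‖) := mul_le_mul_of_nonneg_left ih (by linarith only [hC])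
      _ = C ^ (k + 1) * ‖mulOp (ew ψ) f‖ := by ring

/-- the operator `G_μ = 1/4 + 3/4 J_μ` -/
def Gop (A : Coef n) (μ : ℝ) : L2 n →L[ℂ] L2 n :=
  (1 / 4 : ℂ) • ContinuousLinearMap.id ℂ (L2 n) + (3 / 4 : ℂ) • J A μ

theorem Gop_apply (A : Coef n) (μ : ℝ) (g : L2 n) :
    Gop A μ g = (1 / 4 : ℂ) • g + (3 / 4 : ℂ) • J A μ g := rfl

theorem norm_Gop_pow_le (A : Coef n) {μ : ℝ} (hμ : 0 < μ) (m : ℕ) (g : L2 n) :
    ‖(Gop A μ ^ m) g‖ ≤ ‖g‖ := by
  induction m with
  | zero => simp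
  | succ m ih =>
    rw [pow_succ']
    change ‖Gop A μ ((Gop A μ ^ m) g)‖ ≤ ‖g‖
    have h1 := norm_J_le A hμ ((Gop A μ ^ m) g)
    have h2 := od_quarter ((Gop A μ ^ m) g) (J A μ ((Gop A μ ^ m) g))
    rw [Gop_apply]
    exact h2.trans (by linarith only [ih, h1])

theorem weighted_Gop_pow {A : Coef n} {κ₀ C : ℝ} (hC : 1 ≤ C)
    (h : ∀ l : ℝ, 0 < l → ∀ ψ : ST n → ℝ, Wt κ₀ l ψ → ∀ (k : ℕ) (f : L2 n),
      ‖mulOp (ew ψ) ((J A l ^ k) f)‖ ≤ C ^ k * ‖mulOp (ew ψ) f‖) {μ : ℝ} (hμ : 0 < μ)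
    {ψ : ST n → ℝ} (hψ : Wt κ₀ μ ψ) (m : ℕ) (g : L2 n) :
    ‖mulOp (ew ψ) ((Gop A μ ^ m) g)‖ ≤ C ^ m * ‖mulOp (ew ψ) g‖ := by
  induction m with
  | zero => simp
  | succ m ih =>
    rw [pow_succ']
    change ‖mulOp (ew ψ) (Gop A μ ((Gop A μ ^ m) g))‖ ≤ _
    generalize (Gop A μ ^ m) g = x at ih ⊢
    have h1 : ‖mulOp (ew ψ) (J A μ x)‖ ≤ C * ‖mulOp (ew ψ) x‖ := by
      have h1 := h μ hμ ψ hψ 1 x
      rw [pow_one (J A μ), pow_one C] at h1
      exact h1
    have h4 : 0 ≤ ‖mulOp (ew ψ) x‖ := norm_nonneg _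
    have h5 : ‖mulOp (ew ψ) x‖ ≤ C * ‖mulOp (ew ψ) x‖ := le_mul_of_one_le_left h4 hC
    have h6 : mulOp (ew ψ) (Gop A μ x) = (1 / 4 : ℂ) • mulOp (ew ψ) x
        + (3 / 4 : ℂ) • mulOp (ew ψ) (J A μ x) :=
      (congrArg (mulOp (ew ψ)) (Gop_apply A μ x)).trans (od_map _ _ _)
    have h7 := od_quarter (mulOp (ew ψ) x) (mulOp (ew ψ) (J A μ x))
    rw [h6]
    refine h7.trans ?_
    generalize ‖mulOp (ew ψ) (J A μ x)‖ = a at h1 ⊢
    generalize ‖mulOp (ew ψ) x‖ = b at *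
    generalize ‖mulOp (ew ψ) g‖ = c at *
    calc 1 / 4 * b + 3 / 4 * a ≤ C * b := by linarith only [h5, h1]
      _ ≤ C * (C ^ m * c) := mul_le_mul_of_nonneg_left ih (by linarith only [hC])
      _ = C ^ (m + 1) * c := by ring

theorem Jpow_eq_Gop (A : Coef n) {μ : ℝ} (hμ : 0 < μ) (m : ℕ) (f : L2 n) :
    (J A μ ^ m) f = (Gop A μ ^ m) ((J A (μ / 2) ^ m) f) := by
  have hμ2 : 0 < μ / 2 := by linarith only [hμ]
  have h1 : J A μ = Gop A μ * J A (μ / 2) := by
    ext1 g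
    change J A μ g = Gop A μ (J A (μ / 2) g)
    rw [Gop_apply]
    exact J_factor A hμ g
  have h2 : Commute (Gop A μ) (J A (μ / 2)) := by
    refine ContinuousLinearMap.ext fun g => ?_
    change Gop A μ (J A (μ / 2) g) = J A (μ / 2) (Gop A μ g)
    have e1 : Gop A μ (J A (μ / 2) g) = (1 / 4 : ℂ) • J A (μ / 2) g
        + (3 / 4 : ℂ) • J A (μ / 2) (J A μ g) :=
      (Gop_apply A μ (J A (μ / 2) g)).trans
        (congrArg (fun x => (1 / 4 : ℂ) • J A (μ / 2) g + (3 / 4 : ℂ) • x) (J_comm A hμ hμ2 g))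
    have e2 : J A (μ / 2) (Gop A μ g) = (1 / 4 : ℂ) • J A (μ / 2) g
        + (3 / 4 : ℂ) • J A (μ / 2) (J A μ g) :=
      (congrArg (J A (μ / 2)) (Gop_apply A μ g)).trans (od_map _ _ _)
    exact e1.trans e2.symm
  rw [h1, h2.mul_pow]
  rfl

/-- the set where the weight function is larger than `r` -/
def farSet (l : ℝ) (z₀ : ST n) (r : ℝ) : Set (ST n) := {z | r < Dw l z₀ z}

/-- the set where the weight function is at most `r` -/
def nearSet (l : ℝ) (z₀ : ST n) (r : ℝ) : Set (ST n) := {z | Dw l z₀ z ≤ r}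

theorem measurableSet_farSet {l : ℝ} (hl : 0 < l) (z₀ : ST n) (r : ℝ) :
    MeasurableSet (farSet l z₀ r) :=
  measurableSet_lt measurable_const (contDiff_Dw hl z₀).continuous.measurable

theorem measurableSet_nearSet {l : ℝ} (hl : 0 < l) (z₀ : ST n) (r : ℝ) :
    MeasurableSet (nearSet l z₀ r) :=
  measurableSet_le (contDiff_Dw hl z₀).continuous.measurable measurable_const

theorem od_norm_ind_le (s : Set (ST n)) (z : ST n) : ‖ind s z‖ ≤ 1 := by
  unfold ind
  by_cases h : z ∈ s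
  · rw [Set.indicator_of_mem h, norm_one]
  · rw [Set.indicator_of_notMem h, norm_zero]
    norm_num

theorem far_add_near {l : ℝ} (hl : 0 < l) (z₀ : ST n) (r : ℝ) (u : L2 n) :
    u = mulOp (ind (nearSet l z₀ r)) u + mulOp (ind (farSet l z₀ r)) u := by
  rw [← mulOp_add (BM.ind (measurableSet_nearSet hl z₀ r)) (BM.ind (measurableSet_farSet hl z₀ r))]
  have : (fun z => ind (nearSet l z₀ r) z + ind (farSet l z₀ r) z) = fun _ : ST n => (1 : ℂ) := by
    funext z
    unfold ind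
    by_cases h : Dw l z₀ z ≤ r
    · rw [Set.indicator_of_mem (show z ∈ nearSet l z₀ r from h),
        Set.indicator_of_notMem (show z ∉ farSet l z₀ r from fun h' => absurd h (not_le.mpr h')),
        add_zero]
    · rw [Set.indicator_of_notMem (show z ∉ nearSet l z₀ r from h),
        Set.indicator_of_mem (show z ∈ farSet l z₀ r from not_le.mp h), zero_add]
  rw [this, mulOp_const, one_smul]

/-- the truncated profile -/
def prof (c l δ t : ℝ) : ℝ := c * (t / l) / (1 + δ * (t / l))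

theorem wt_eq_prof (c l δ : ℝ) (z₀ z : ST n) : wt c l δ z₀ z = prof c l δ (Dw l z₀ z) := rfl

theorem prof_mono {c l δ : ℝ} (hc : 0 ≤ c) (hl : 0 < l) (hδ : 0 < δ) {s t : ℝ} (hs : 0 ≤ s)
    (hst : s ≤ t) : prof c l δ s ≤ prof c l δ t := by
  unfold prof
  have ht : 0 ≤ t := hs.trans hst
  have h1 : 0 ≤ s / l := div_nonneg hs hl.le
  have h2 : 0 ≤ t / l := div_nonneg ht hl.le
  have h3 : s / l ≤ t / l := div_le_div_of_nonneg_right hst hl.le
  rw [div_le_div_iff₀ (by positivity) (by positivity)]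
  have : c * (s / l) ≤ c * (t / l) := mul_le_mul_of_nonneg_left h3 hc
  nlinarith only [this]

theorem prof_le {c l δ : ℝ} (hc : 0 ≤ c) (hl : 0 < l) (hδ : 0 < δ) {t : ℝ} (ht : 0 ≤ t) :
    prof c l δ t ≤ c / δ := by
  unfold prof
  have h2 : 0 ≤ t / l := div_nonneg ht hl.le
  rw [div_le_div_iff₀ (by positivity) hδ]
  nlinarith only [hc]

theorem prof_le' {c l δ : ℝ} (hc : 0 ≤ c) (hl : 0 < l) (hδ : 0 < δ) {t : ℝ} (ht : 0 ≤ t) :
    prof c l δ t ≤ c * (t / l) := by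
  unfold prof
  have h2 : 0 ≤ t / l := div_nonneg ht hl.le
  refine div_le_self (mul_nonneg hc h2) ?_
  have : 0 ≤ δ * (t / l) := by positivity
  linarith only [this]

theorem tendsto_prof (c l t : ℝ) : Tendsto (fun δ => prof c l δ t) (𝓝[>] 0) (𝓝 (c * (t / l))) := by
  have h : ContinuousAt (fun δ : ℝ => prof c l δ t) 0 := by
    unfold prof
    refine ContinuousAt.div continuousAt_const (by fun_prop) ?_
    simp
  have h2 := h.tendsto
  have h3 : prof c l 0 t = c * (t / l) := by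
    unfold prof
    rw [zero_mul, add_zero, div_one]
  rw [h3] at h2
  exact h2.mono_left nhdsWithin_le_nhds

/-- off-diagonal bound for `G_μ^m` -/
theorem offdiag_Gop {A : Coef n} {κ₀ C : ℝ} (hκ : 0 < κ₀) (hC : 1 ≤ C)
    (h : ∀ l : ℝ, 0 < l → ∀ ψ : ST n → ℝ, Wt κ₀ l ψ → ∀ (k : ℕ) (f : L2 n),
      ‖mulOp (ew ψ) ((J A l ^ k) f)‖ ≤ C ^ k * ‖mulOp (ew ψ) f‖) {μ l : ℝ} (hμ : 0 < μ)
    (hμl : μ ≤ l) (z₀ : ST n) {r r' : ℝ} (hr' : 0 ≤ r') (hr : r' ≤ r) (m : ℕ) (g : L2 n) :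
    ‖mulOp (ind (farSet l z₀ r)) ((Gop A μ ^ m) (mulOp (ind (nearSet l z₀ r')) g))‖
      ≤ C ^ m * Real.exp (-(κ₀ * (r - r') / μ)) * ‖g‖ := by
  have hl : 0 < l := hμ.trans_le hμl
  set c := κ₀ * l / μ with hc
  have hc0 : 0 ≤ c := by positivity
  have key : ∀ δ : ℝ, 0 < δ →
      ‖mulOp (ind (farSet l z₀ r)) ((Gop A μ ^ m) (mulOp (ind (nearSet l z₀ r')) g))‖
        ≤ C ^ m * Real.exp (-(prof c l δ r - prof c l δ r')) * ‖g‖ := by
    intro δ hδ
    have hψ : Wt κ₀ μ (wt c l δ z₀) := Wt_wt hκ.le hμ hμl hδ z₀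
    have hbm : BM (ew (wt c l δ z₀)) := Wt.bm_ew hμ hψ
    set T := (Gop A μ ^ m) (mulOp (ind (nearSet l z₀ r')) g) with hT
    have h1 : ‖mulOp (ind (farSet l z₀ r)) T‖
        ≤ Real.exp (-(prof c l δ r)) * ‖mulOp (ew (wt c l δ z₀)) T‖ := by
      have h2 : ‖mulOp (ind (farSet l z₀ r)) T‖
          ≤ ‖mulOp (fun z => (Real.exp (-(prof c l δ r)) : ℂ) * ew (wt c l δ z₀) z) T‖ := by
        refine norm_mulOp_mono (BM.ind (measurableSet_farSet hl z₀ r))
          ((BM.const _).mul hbm) ?_ T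
        intro z
        rw [norm_mul, norm_ew, Complex.norm_real, Real.norm_eq_abs,
          abs_of_pos (Real.exp_pos _), ← Real.exp_add]
        unfold ind
        by_cases hz : z ∈ farSet l z₀ r
        · rw [Set.indicator_of_mem hz, norm_one]
          refine Real.one_le_exp ?_
          rw [wt_eq_prof]
          have := prof_mono hc0 hl hδ (hr'.trans hr) (le_of_lt (show r < Dw l z₀ z from hz))
          linarith only [this]
        · rw [Set.indicator_of_notMem hz, norm_zero]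
          exact (Real.exp_pos _).le
      rw [mulOp_const_mul hbm, norm_smul, Complex.norm_real, Real.norm_eq_abs,
        abs_of_pos (Real.exp_pos _)] at h2
      exact h2
    have h3 : ‖mulOp (ew (wt c l δ z₀)) T‖
        ≤ C ^ m * ‖mulOp (ew (wt c l δ z₀)) (mulOp (ind (nearSet l z₀ r')) g)‖ :=
      weighted_Gop_pow hC h hμ hψ m _
    have h4 : ‖mulOp (ew (wt c l δ z₀)) (mulOp (ind (nearSet l z₀ r')) g)‖
        ≤ Real.exp (prof c l δ r') * ‖g‖ := by
      rw [mulOp_mulOp hbm (BM.ind (measurableSet_nearSet hl z₀ r'))]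
      refine norm_mulOp_le (hbm.mul (BM.ind (measurableSet_nearSet hl z₀ r'))).meas ?_ g
      intro z
      rw [norm_mul, norm_ew]
      unfold ind
      by_cases hz : z ∈ nearSet l z₀ r'
      · rw [Set.indicator_of_mem hz, norm_one, mul_one]
        refine Real.exp_le_exp.mpr ?_
        rw [wt_eq_prof]
        exact prof_mono hc0 hl hδ (Dw_nonneg hl z₀ z) hz
      · rw [Set.indicator_of_notMem hz, norm_zero, mul_zero]
        exact (Real.exp_pos _).le
    calc ‖mulOp (ind (farSet l z₀ r)) T‖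
        ≤ Real.exp (-(prof c l δ r)) * (C ^ m * (Real.exp (prof c l δ r') * ‖g‖)) := by
          refine h1.trans (mul_le_mul_of_nonneg_left (h3.trans ?_) (Real.exp_pos _).le)
          exact mul_le_mul_of_nonneg_left h4 (by positivity)
      _ = C ^ m * Real.exp (-(prof c l δ r - prof c l δ r')) * ‖g‖ := by
          rw [show -(prof c l δ r - prof c l δ r') = -(prof c l δ r) + prof c l δ r' by ring,
            Real.exp_add]
          ring
  have hlim : Tendsto (fun δ => C ^ m * Real.exp (-(prof c l δ r - prof c l δ r')) * ‖g‖)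
      (𝓝[>] 0) (𝓝 (C ^ m * Real.exp (-(c * (r / l) - c * (r' / l))) * ‖g‖)) := by
    refine Tendsto.mul_const _ (Tendsto.const_mul _ ?_)
    exact (Real.continuous_exp.tendsto _).comp
      ((tendsto_prof c l r).sub (tendsto_prof c l r')).neg
  have h5 : c * (r / l) - c * (r' / l) = κ₀ * (r - r') / μ := by
    rw [hc]
    field_simp
  rw [h5] at hlim
  refine ge_of_tendsto hlim ?_
  filter_upwards [self_mem_nhdsWithin] with δ hδ
  exact key δ hδ

theorem norm_mulOp_ind_le {s : Set (ST n)} (hs : MeasurableSet s) (u : L2 n) :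
    ‖mulOp (ind s) u‖ ≤ ‖u‖ := by
  have := norm_mulOp_le (BM.ind hs).meas (od_norm_ind_le s) u
  rwa [one_mul] at this

/-- one step of the iteration -/
theorem tail_step {A : Coef n} {κ₀ C : ℝ} (hκ : 0 < κ₀) (hC : 1 ≤ C)
    (h : ∀ l : ℝ, 0 < l → ∀ ψ : ST n → ℝ, Wt κ₀ l ψ → ∀ (k : ℕ) (f : L2 n),
      ‖mulOp (ew ψ) ((J A l ^ k) f)‖ ≤ C ^ k * ‖mulOp (ew ψ) f‖) {μ l : ℝ} (hμ : 0 < μ)
    (hμl : μ ≤ l) (z₀ : ST n) {r r' : ℝ} (hr' : 0 ≤ r') (hr : r' ≤ r) (m : ℕ) (f : L2 n) :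
    ‖mulOp (ind (farSet l z₀ r)) ((J A μ ^ m) f)‖
      ≤ C ^ m * Real.exp (-(κ₀ * (r - r') / μ)) * ‖(J A (μ / 2) ^ m) f‖
        + ‖mulOp (ind (farSet l z₀ r')) ((J A (μ / 2) ^ m) f)‖ := by
  have hl : 0 < l := hμ.trans_le hμl
  set g := (J A (μ / 2) ^ m) f with hg
  have h0 : (J A μ ^ m) f = (Gop A μ ^ m) g := Jpow_eq_Gop A hμ m f
  have h1 : (J A μ ^ m) f = (Gop A μ ^ m) (mulOp (ind (nearSet l z₀ r')) g)
      + (Gop A μ ^ m) (mulOp (ind (farSet l z₀ r')) g) :=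
    h0.trans ((congrArg (Gop A μ ^ m) (far_add_near hl z₀ r' g)).trans (map_add _ _ _))
  rw [h1, map_add]
  refine (norm_add_le _ _).trans (add_le_add ?_ ?_)
  · exact offdiag_Gop hκ hC h hμ hμl z₀ hr' hr m g
  · exact (norm_mulOp_ind_le (measurableSet_farSet hl z₀ r) _).trans (norm_Gop_pow_le A hμ m _)

/-- the iterated bound -/
theorem tail_iter {A : Coef n} {κ₀ C : ℝ} (hκ : 0 < κ₀) (hC : 1 ≤ C)
    (h : ∀ l : ℝ, 0 < l → ∀ ψ : ST n → ℝ, Wt κ₀ l ψ → ∀ (k : ℕ) (f : L2 n),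
      ‖mulOp (ew ψ) ((J A l ^ k) f)‖ ≤ C ^ k * ‖mulOp (ew ψ) f‖) {l : ℝ} (hl : 0 < l)
    (z₀ : ST n) {rs s : ℝ} (hrs : 0 ≤ rs) (hs : 0 ≤ s) (m : ℕ) (f : L2 n) (N : ℕ) :
    ‖mulOp (ind (farSet l z₀ (rs + s))) ((J A l ^ m) f)‖
      ≤ (∑ k ∈ Finset.range N, C ^ m * Real.exp (-(κ₀ * (s / (3 * l)) * (4 / 3) ^ k))
          * ‖(J A (l / 2 ^ (k + 1)) ^ m) f‖)
        + ‖mulOp (ind (farSet l z₀ (rs + s * (2 / 3) ^ N))) ((J A (l / 2 ^ N) ^ m) f)‖ := by
  induction N with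
  | zero => simp
  | succ N ih =>
    refine od_sum_step ih ?_
    have hμ : 0 < l / 2 ^ N := by positivity
    have hμl : l / 2 ^ N ≤ l := div_le_self hl.le (one_le_pow₀ (by norm_num))
    have h1 := tail_step hκ hC h hμ hμl z₀ (r := rs + s * (2 / 3) ^ N)
      (r' := rs + s * (2 / 3) ^ (N + 1)) (by positivity) (by
        rw [pow_succ]
        have : 0 ≤ s * (2 / 3) ^ N := by positivity
        nlinarith only [this]) m f
    have h2 : l / 2 ^ N / 2 = l / 2 ^ (N + 1) := by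
      rw [pow_succ]
      field_simp
    have h3 : κ₀ * (rs + s * (2 / 3) ^ N - (rs + s * (2 / 3) ^ (N + 1))) / (l / 2 ^ N)
        = κ₀ * (s / (3 * l)) * (4 / 3) ^ N := by
      have h4 : ((4 : ℝ) / 3) ^ N = (2 / 3) ^ N * 2 ^ N := by
        rw [← mul_pow]
        norm_num
      rw [h4, pow_succ]
      field_simp
      ring
    rw [h2, h3] at h1
    exact h1

/-- the weights of the iteration are summable -/
theorem summable_iter (d : ℕ) {a : ℝ} (ha : 0 < a) :
    Summable fun k : ℕ => ((2 : ℝ) ^ (k + 1)) ^ d * Real.exp (-(a * (4 / 3) ^ k)) := by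
  refine summable_of_ratio_test_tendsto_lt_one (l := 0) (by norm_num) ?_ ?_
  · exact Eventually.of_forall fun k => by positivity
  · have h1 : ∀ k : ℕ, ‖((2 : ℝ) ^ (k + 1 + 1)) ^ d * Real.exp (-(a * (4 / 3) ^ (k + 1)))‖
        / ‖((2 : ℝ) ^ (k + 1)) ^ d * Real.exp (-(a * (4 / 3) ^ k))‖
        = 2 ^ d * Real.exp (-(a / 3 * (4 / 3) ^ k)) := by
      intro k
      rw [Real.norm_eq_abs, Real.norm_eq_abs, abs_of_pos (by positivity),
        abs_of_pos (by positivity), div_eq_iff (by positivity)]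
      have e1 : Real.exp (-(a * (4 / 3) ^ (k + 1)))
          = Real.exp (-(a / 3 * (4 / 3) ^ k)) * Real.exp (-(a * (4 / 3) ^ k)) := by
        rw [← Real.exp_add]
        congr 1
        rw [pow_succ]
        ring
      have e2 : ((2 : ℝ) ^ (k + 1 + 1)) ^ d = 2 ^ d * (2 ^ (k + 1)) ^ d := by
        rw [pow_succ (2 : ℝ) (k + 1), mul_pow, mul_comm]
      rw [e1, e2]
      ring
    simp_rw [h1]
    have h2 : Tendsto (fun k : ℕ => a / 3 * ((4 : ℝ) / 3) ^ k) atTop atTop :=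
      (tendsto_pow_atTop_atTop_of_one_lt (by norm_num)).const_mul_atTop (by positivity)
    have h3 := (Real.tendsto_exp_neg_atTop_nhds_zero.comp h2).const_mul ((2 : ℝ) ^ d)
    rw [mul_zero] at h3
    exact h3

theorem inv_sqrt_scale {l : ℝ} (hl : 0 < l) (d k : ℕ) :
    1 / Real.sqrt ((l / 2 ^ k) ^ d) ≤ (2 ^ k) ^ d * (1 / Real.sqrt (l ^ d)) := by
  have h1 : Real.sqrt ((l / 2 ^ k) ^ d) = Real.sqrt (l ^ d) / Real.sqrt ((2 ^ k) ^ d) := by
    rw [div_pow, Real.sqrt_div (by positivity)]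
  have h2 : (1 : ℝ) ≤ (2 ^ k) ^ d := one_le_pow₀ (one_le_pow₀ (by norm_num))
  have h3 : Real.sqrt ((2 ^ k) ^ d) ≤ ((2 : ℝ) ^ k) ^ d := by
    rw [Real.sqrt_le_left (by positivity)]
    nlinarith only [h2]
  rw [h1, one_div_div, mul_one_div]
  exact div_le_div_of_nonneg_right h3 (Real.sqrt_nonneg _)

/-- exponential decay of the tails -/
theorem exists_tail (A : Coef n) : ∃ m₀ : ℕ, ∃ κ : ℝ, 0 < κ ∧ ∀ m : ℕ, m₀ ≤ m → ∃ C : ℝ, 0 < C ∧
    ∀ l : ℝ, 0 < l → ∀ (z₀ : ST n) (f : L2 n), N1 f ≠ ∞ →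
    SuppIn f {z | Dw l z₀ z ≤ (n + 3) * l} → ∀ r : ℝ,
    ‖mulOp (ind (farSet l z₀ r)) ((J A l ^ m) f)‖
      ≤ C * Real.exp (-(κ * (r / l))) / Real.sqrt (l ^ (n + 2)) * (N1 f).toReal := by
  obtain ⟨κ₀, C₁, hκ₀, hκ1, hC₁, hw⟩ := exists_weighted_Jpow A
  obtain ⟨m₀, C₀, hC₀, hL⟩ := exists_L1L2 A
  have hsum := summable_iter (n + 2) (show 0 < κ₀ / 6 by positivity)
  set S0 : ℝ := ∑' k : ℕ, ((2 : ℝ) ^ (k + 1)) ^ (n + 2) * Real.exp (-(κ₀ / 6 * (4 / 3) ^ k))
    with hS0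
  have hSpos : 0 ≤ S0 := tsum_nonneg fun k => by positivity
  refine ⟨m₀, κ₀ / 6, by positivity, ?_⟩
  intro m hm
  refine ⟨(C₁ ^ m * C₀ * S0 + C₀) * Real.exp (κ₀ / 6 * (n + 4)), by positivity, ?_⟩
  intro l hl z₀ f hf hsupp r
  have hNnn : 0 ≤ (N1 f).toReal := ENNReal.toReal_nonneg
  have hsq : 0 < Real.sqrt (l ^ (n + 2)) := Real.sqrt_pos.mpr (by positivity)
  rcases lt_or_ge (r - (n + 3) * l) l with hlt | hge
  · -- `r` small: trivial bound
    have h1 : ‖mulOp (ind (farSet l z₀ r)) ((J A l ^ m) f)‖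
        ≤ C₀ / Real.sqrt (l ^ (n + 2)) * (N1 f).toReal :=
      (norm_mulOp_ind_le (measurableSet_farSet hl z₀ r) _).trans (hL m hm l hl f hf)
    have h2 : r / l ≤ n + 4 := by
      rw [div_le_iff₀ hl]
      nlinarith only [hlt]
    have h3 : 1 ≤ Real.exp (κ₀ / 6 * (n + 4)) * Real.exp (-(κ₀ / 6 * (r / l))) := by
      rw [← Real.exp_add]
      refine Real.one_le_exp ?_
      have : κ₀ / 6 * (r / l) ≤ κ₀ / 6 * (n + 4) := mul_le_mul_of_nonneg_left h2 (by positivity)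
      linarith only [this]
    refine h1.trans ?_
    have h4 : C₀ ≤ (C₁ ^ m * C₀ * S0 + C₀) * Real.exp (κ₀ / 6 * (n + 4))
        * Real.exp (-(κ₀ / 6 * (r / l))) := by
      have h5 : C₀ ≤ C₁ ^ m * C₀ * S0 + C₀ := by
        have : 0 ≤ C₁ ^ m * C₀ * S0 := by positivity
        linarith only [this]
      rw [mul_assoc]
      calc C₀ = C₀ * 1 := (mul_one _).symm
        _ ≤ (C₁ ^ m * C₀ * S0 + C₀)
            * (Real.exp (κ₀ / 6 * (n + 4)) * Real.exp (-(κ₀ / 6 * (r / l)))) :=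
          mul_le_mul h5 h3 (by norm_num) (by linarith only [hC₀, h5])
    exact mul_le_mul_of_nonneg_right (div_le_div_of_nonneg_right h4 hsq.le) hNnn
  · -- the iteration
    set s := r - (n + 3) * l with hs
    have hs0 : 0 ≤ s := hl.le.trans hge
    have hrs : (0 : ℝ) ≤ (n + 3) * l := by positivity
    have hr : r = (n + 3) * l + s := by rw [hs]; ring
    have hsl : 1 ≤ s / l := by rwa [le_div_iff₀ hl, one_mul]
    -- the terms
    have hterm : ∀ k : ℕ, C₁ ^ m * Real.exp (-(κ₀ * (s / (3 * l)) * (4 / 3) ^ k))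
        * ‖(J A (l / 2 ^ (k + 1)) ^ m) f‖
        ≤ (C₁ ^ m * C₀ * (1 / Real.sqrt (l ^ (n + 2))) * (N1 f).toReal
            * Real.exp (-(κ₀ / 6 * (s / l))))
          * (((2 : ℝ) ^ (k + 1)) ^ (n + 2) * Real.exp (-(κ₀ / 6 * (4 / 3) ^ k))) := by
      intro k
      have e1 : ‖(J A (l / 2 ^ (k + 1)) ^ m) f‖
          ≤ C₀ * (((2 : ℝ) ^ (k + 1)) ^ (n + 2) * (1 / Real.sqrt (l ^ (n + 2))))
            * (N1 f).toReal := by
        refine (hL m hm (l / 2 ^ (k + 1)) (by positivity) f hf).trans ?_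
        refine mul_le_mul_of_nonneg_right ?_ hNnn
        rw [div_eq_mul_one_div]
        exact mul_le_mul_of_nonneg_left (inv_sqrt_scale hl (n + 2) (k + 1)) hC₀.le
      have e2 : Real.exp (-(κ₀ * (s / (3 * l)) * (4 / 3) ^ k))
          ≤ Real.exp (-(κ₀ / 6 * (s / l))) * Real.exp (-(κ₀ / 6 * (4 / 3) ^ k)) := by
        rw [← Real.exp_add]
        refine Real.exp_le_exp.mpr ?_
        have e3 : s / (3 * l) = (s / l) / 3 := by field_simp
        have e4 : (1 : ℝ) ≤ (4 / 3) ^ k := one_le_pow₀ (by norm_num)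
        rw [e3]
        have e5 : s / l + (4 / 3) ^ k ≤ 2 * ((s / l) * (4 / 3) ^ k) := by nlinarith only [hsl, e4]
        nlinarith only [hκ₀, e5]
      calc C₁ ^ m * Real.exp (-(κ₀ * (s / (3 * l)) * (4 / 3) ^ k))
            * ‖(J A (l / 2 ^ (k + 1)) ^ m) f‖
          ≤ C₁ ^ m * (Real.exp (-(κ₀ / 6 * (s / l))) * Real.exp (-(κ₀ / 6 * (4 / 3) ^ k)))
            * (C₀ * (((2 : ℝ) ^ (k + 1)) ^ (n + 2) * (1 / Real.sqrt (l ^ (n + 2))))
              * (N1 f).toReal) := by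
            refine mul_le_mul (mul_le_mul_of_nonneg_left e2 (by positivity)) e1
              (norm_nonneg _) (by positivity)
        _ = _ := by ring
    -- the limit of the remainder
    have hzero : mulOp (ind (farSet l z₀ ((n + 3) * l))) f = 0 := by
      refine Lp.ext ?_
      filter_upwards [mulOp_coe (BM.ind (measurableSet_farSet hl z₀ ((n + 3) * l))) f, hsupp,
        Lp.coeFn_zero (E := ℂ) (p := 2) (μ := (volume : Measure (ST n)))] with z h1 h2 h3
      rw [h1, h3, Pi.zero_apply]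
      unfold ind
      by_cases hz : z ∈ farSet l z₀ ((n + 3) * l)
      · rw [h2 (not_le.mpr hz), mul_zero]
      · rw [Set.indicator_of_notMem hz, zero_mul]
    have hlim : Tendsto (fun N : ℕ =>
        ‖mulOp (ind (farSet l z₀ ((n + 3) * l))) ((J A (l / 2 ^ N) ^ m) f)‖) atTop (𝓝 0) := by
      have h1 : Tendsto (fun N : ℕ => l / 2 ^ N) atTop (𝓝[>] 0) := by
        refine tendsto_nhdsWithin_iff.mpr ⟨?_, Eventually.of_forall fun N => ?_⟩
        · have h2 : Tendsto (fun N : ℕ => (2 : ℝ) ^ N) atTop atTop :=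
            tendsto_pow_atTop_atTop_of_one_lt (by norm_num)
          exact h2.const_div_atTop l
        · exact Set.mem_Ioi.mpr (by positivity)
      have h2 := (tendsto_Jpow_zero A m f).comp h1
      have h3 := ((mulOp (ind (farSet l z₀ ((n + 3) * l)))).continuous.tendsto f).comp h2
      rw [hzero] at h3
      have h4 := h3.norm
      rw [norm_zero] at h4
      exact h4
    have hbound : ∀ N : ℕ, ‖mulOp (ind (farSet l z₀ r)) ((J A l ^ m) f)‖
        ≤ (C₁ ^ m * C₀ * (1 / Real.sqrt (l ^ (n + 2))) * (N1 f).toReal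
            * Real.exp (-(κ₀ / 6 * (s / l)))) * S0
          + ‖mulOp (ind (farSet l z₀ ((n + 3) * l))) ((J A (l / 2 ^ N) ^ m) f)‖ := by
      intro N
      rw [hr]
      refine (tail_iter hκ₀ hC₁ hw hl z₀ hrs hs0 m f N).trans (add_le_add ?_ ?_)
      · refine (Finset.sum_le_sum fun k _ => hterm k).trans ?_
        rw [← Finset.mul_sum]
        refine mul_le_mul_of_nonneg_left ?_ (by positivity)
        exact hsum.sum_le_tsum _ fun k _ => by positivity
      · refine norm_mulOp_mono (BM.ind (measurableSet_farSet hl z₀ _))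
          (BM.ind (measurableSet_farSet hl z₀ _)) ?_ _
        intro z
        unfold ind
        by_cases hz : z ∈ farSet l z₀ ((n + 3) * l + s * (2 / 3) ^ N)
        · have hz' : z ∈ farSet l z₀ ((n + 3) * l) := by
            refine lt_of_le_of_lt ?_ (show _ < Dw l z₀ z from hz)
            have : 0 ≤ s * (2 / 3) ^ N := by positivity
            linarith only [this]
          rw [Set.indicator_of_mem hz, Set.indicator_of_mem hz']
        · rw [Set.indicator_of_notMem hz, norm_zero]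
          exact norm_nonneg _
    have hfin : ‖mulOp (ind (farSet l z₀ r)) ((J A l ^ m) f)‖
        ≤ (C₁ ^ m * C₀ * (1 / Real.sqrt (l ^ (n + 2))) * (N1 f).toReal
            * Real.exp (-(κ₀ / 6 * (s / l)))) * S0 :=
      od_lim hlim hbound
    refine hfin.trans ?_
    have h6 : Real.exp (-(κ₀ / 6 * (s / l)))
        ≤ Real.exp (κ₀ / 6 * (n + 4)) * Real.exp (-(κ₀ / 6 * (r / l))) := by
      rw [← Real.exp_add]
      refine Real.exp_le_exp.mpr ?_
      have : s / l = r / l - (n + 3) := by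
        rw [hs]
        field_simp
      rw [this]
      nlinarith only [hκ₀]
    calc (C₁ ^ m * C₀ * (1 / Real.sqrt (l ^ (n + 2))) * (N1 f).toReal
            * Real.exp (-(κ₀ / 6 * (s / l)))) * S0
        = (C₁ ^ m * C₀ * S0) * Real.exp (-(κ₀ / 6 * (s / l)))
            * (1 / Real.sqrt (l ^ (n + 2)) * (N1 f).toReal) := by ring
      _ ≤ (C₁ ^ m * C₀ * S0 + C₀)
            * (Real.exp (κ₀ / 6 * (n + 4)) * Real.exp (-(κ₀ / 6 * (r / l))))
            * (1 / Real.sqrt (l ^ (n + 2)) * (N1 f).toReal) := by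
          refine mul_le_mul_of_nonneg_right ?_ (by positivity)
          exact mul_le_mul (by linarith only [hC₀]) h6 (Real.exp_pos _).le (by positivity)
      _ = _ := by ring

/-- `L¹ → L²` off-diagonal bound for data concentrated at scale `l` around `z₀` -/
theorem exists_offdiag (A : Coef n) : ∃ m₀ : ℕ, ∃ c : ℝ, 0 < c ∧ ∀ m : ℕ, m₀ ≤ m → ∃ C : ℝ, 0 < C ∧
    ∀ l : ℝ, 0 < l → ∀ (z₀ : ST n) (f : L2 n), N1 f ≠ ∞ →
    SuppIn f {z | Dw l z₀ z ≤ (n + 3) * l} →
    WB c l z₀ ((J A l ^ m) f) (C / Real.sqrt (l ^ (n + 2)) * (N1 f).toReal) := by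
  obtain ⟨m₀, κ, hκ, htail⟩ := exists_tail A
  refine ⟨m₀, κ / 2, by positivity, ?_⟩
  intro m hm
  obtain ⟨C, hC, hT⟩ := htail m hm
  set c := κ / 2 with hc
  have hcpos : 0 < c := by positivity
  have hκc : κ = 2 * c := by rw [hc]; ring
  have hexp1 : Real.exp (-c) < 1 := by
    rw [← Real.exp_zero]
    exact Real.exp_lt_exp.mpr (by linarith only [hcpos])
  refine ⟨C * (Real.exp c / (1 - Real.exp (-c))), mul_pos hC (div_pos (Real.exp_pos _)
    (by linarith only [hexp1])), ?_⟩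
  intro l hl z₀ f hf hsupp δ hδ
  set u := (J A l ^ m) f with hu
  set B := C / Real.sqrt (l ^ (n + 2)) * (N1 f).toReal with hB
  have hB0 : 0 ≤ B := by
    rw [hB]
    exact mul_nonneg (div_nonneg hC.le (Real.sqrt_nonneg _)) ENNReal.toReal_nonneg
  have hbm := bm_ew_wt hcpos.le hl hδ z₀
  have hX : ∀ j : ℕ, ‖mulOp (ind (farSet l z₀ (j * l))) u‖ ≤ B * Real.exp (-(2 * c * j)) := by
    intro j
    have h1 := hT l hl z₀ f hf hsupp (j * l)
    have h2 : κ * (j * l / l) = 2 * c * j := by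
      rw [hκc]
      field_simp
    rw [h2] at h1
    refine h1.trans (le_of_eq ?_)
    rw [hB]
    ring
  -- telescoping over the shells
  have hfar : ∀ j : ℕ, BM (ind (farSet l z₀ (j * l))) := fun j =>
    BM.ind (measurableSet_farSet hl z₀ (j * l))
  have hstep : ∀ j : ℕ,
      ‖mulOp (fun z => ind (farSet l z₀ (j * l)) z * ew (wt c l δ z₀) z) u‖
        ≤ Real.exp (c * (j + 1)) * (B * Real.exp (-(2 * c * j)))
          + ‖mulOp (fun z => ind (farSet l z₀ ((j + 1 : ℕ) * l)) z * ew (wt c l δ z₀) z) u‖ := by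
    intro j
    have hnear : BM (ind (nearSet l z₀ ((j + 1 : ℕ) * l))) :=
      BM.ind (measurableSet_nearSet hl z₀ _)
    have hsplit : (fun z => ind (farSet l z₀ (j * l)) z * ew (wt c l δ z₀) z)
        = fun z => (ind (farSet l z₀ (j * l)) z * ind (nearSet l z₀ ((j + 1 : ℕ) * l)) z)
            * ew (wt c l δ z₀) z
          + ind (farSet l z₀ ((j + 1 : ℕ) * l)) z * ew (wt c l δ z₀) z := by
      funext z
      unfold ind
      by_cases h1 : Dw l z₀ z ≤ (j + 1 : ℕ) * l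
      · rw [Set.indicator_of_mem (show z ∈ nearSet l z₀ ((j + 1 : ℕ) * l) from h1),
          Set.indicator_of_notMem (show z ∉ farSet l z₀ ((j + 1 : ℕ) * l) from
            fun h' => absurd h1 (not_le.mpr h')), mul_one, zero_mul, add_zero]
      · have h2 : z ∈ farSet l z₀ (j * l) := by
          refine lt_of_le_of_lt ?_ (not_le.mp h1)
          push_cast
          nlinarith only [hl]
        rw [Set.indicator_of_notMem (show z ∉ nearSet l z₀ ((j + 1 : ℕ) * l) from h1),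
          Set.indicator_of_mem (show z ∈ farSet l z₀ ((j + 1 : ℕ) * l) from not_le.mp h1),
          Set.indicator_of_mem h2, mul_zero, zero_mul, zero_add]
    rw [hsplit, mulOp_add (((hfar j).mul hnear).mul hbm) ((hfar (j + 1)).mul hbm)]
    refine (norm_add_le _ _).trans (add_le_add ?_ le_rfl)
    have h3 : ‖mulOp (fun z => (ind (farSet l z₀ (j * l)) z
          * ind (nearSet l z₀ ((j + 1 : ℕ) * l)) z) * ew (wt c l δ z₀) z) u‖
        ≤ ‖mulOp (fun z => (Real.exp (c * (j + 1)) : ℂ) * ind (farSet l z₀ (j * l)) z) u‖ := by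
      refine norm_mulOp_mono (((hfar j).mul hnear).mul hbm) ((BM.const _).mul (hfar j)) ?_ u
      intro z
      rw [norm_mul, norm_mul, norm_mul, norm_ew, Complex.norm_real, Real.norm_eq_abs,
        abs_of_pos (Real.exp_pos _)]
      by_cases h4 : z ∈ nearSet l z₀ ((j + 1 : ℕ) * l)
      · have h5 : Real.exp (wt c l δ z₀ z) ≤ Real.exp (c * (j + 1)) := by
          refine Real.exp_le_exp.mpr ((wt_le hcpos.le hl hδ z₀ z).trans ?_)
          refine mul_le_mul_of_nonneg_left ?_ hcpos.le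
          rw [div_le_iff₀ hl]
          have h6 : Dw l z₀ z ≤ (j + 1 : ℕ) * l := h4
          push_cast at h6
          exact h6
        have h6 := od_norm_ind_le (nearSet l z₀ ((j + 1 : ℕ) * l)) z
        calc ‖ind (farSet l z₀ (j * l)) z‖ * ‖ind (nearSet l z₀ ((j + 1 : ℕ) * l)) z‖
              * Real.exp (wt c l δ z₀ z)
            ≤ ‖ind (farSet l z₀ (j * l)) z‖ * 1 * Real.exp (c * (j + 1)) := by
              refine mul_le_mul (mul_le_mul_of_nonneg_left h6 (norm_nonneg _)) h5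
                (Real.exp_pos _).le (by positivity)
          _ = _ := by ring
      · have h5 : ind (nearSet l z₀ ((j + 1 : ℕ) * l)) z = 0 := by
          unfold ind
          rw [Set.indicator_of_notMem h4]
        rw [h5, norm_zero, mul_zero, zero_mul]
        positivity
    refine h3.trans ?_
    rw [mulOp_const_mul (hfar j), norm_smul, Complex.norm_real, Real.norm_eq_abs,
      abs_of_pos (Real.exp_pos _)]
    exact mul_le_mul_of_nonneg_left (hX j) (Real.exp_pos _).le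
  have hiter : ∀ J' : ℕ,
      ‖mulOp (fun z => ind (farSet l z₀ ((0 : ℕ) * l)) z * ew (wt c l δ z₀) z) u‖
        ≤ (∑ j ∈ Finset.range J', Real.exp (c * (j + 1)) * (B * Real.exp (-(2 * c * j))))
          + ‖mulOp (fun z => ind (farSet l z₀ (J' * l)) z * ew (wt c l δ z₀) z) u‖ := by
    intro J'
    induction J' with
    | zero => simp
    | succ J' ih =>
      exact od_sum_step ih (hstep J')
  have hlast : ∀ J' : ℕ,
      ‖mulOp (fun z => ind (farSet l z₀ (J' * l)) z * ew (wt c l δ z₀) z) u‖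
        ≤ Real.exp (c / δ) * (B * Real.exp (-(2 * c * J'))) := by
    intro J'
    have h3 : ‖mulOp (fun z => ind (farSet l z₀ (J' * l)) z * ew (wt c l δ z₀) z) u‖
        ≤ ‖mulOp (fun z => (Real.exp (c / δ) : ℂ) * ind (farSet l z₀ (J' * l)) z) u‖ := by
      refine norm_mulOp_mono ((hfar J').mul hbm) ((BM.const _).mul (hfar J')) ?_ u
      intro z
      rw [norm_mul, norm_mul, norm_ew, Complex.norm_real, Real.norm_eq_abs,
        abs_of_pos (Real.exp_pos _), mul_comm]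
      refine mul_le_mul_of_nonneg_right (Real.exp_le_exp.mpr ?_) (norm_nonneg _)
      exact prof_le hcpos.le hl hδ (Dw_nonneg hl z₀ z)
    refine h3.trans ?_
    rw [mulOp_const_mul (hfar J'), norm_smul, Complex.norm_real, Real.norm_eq_abs,
      abs_of_pos (Real.exp_pos _)]
    exact mul_le_mul_of_nonneg_left (hX J') (Real.exp_pos _).le
  have hall : mulOp (ew (wt c l δ z₀)) u
      = mulOp (fun z => ind (farSet l z₀ ((0 : ℕ) * l)) z * ew (wt c l δ z₀) z) u := by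
    congr 2
    funext z
    have h1 : z ∈ farSet l z₀ ((0 : ℕ) * l) := by
      refine lt_of_lt_of_le ?_ (two_mul_le_Dw hl z₀ z)
      push_cast
      linarith only [hl]
    unfold ind
    rw [Set.indicator_of_mem h1, one_mul]
  -- summing up
  have hgeo : ∀ J' : ℕ,
      ∑ j ∈ Finset.range J', Real.exp (c * (j + 1)) * (B * Real.exp (-(2 * c * j)))
        ≤ B * (Real.exp c / (1 - Real.exp (-c))) := by
    intro J'
    have h1 : ∀ j : ℕ, Real.exp (c * (j + 1)) * (B * Real.exp (-(2 * c * j)))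
        = (B * Real.exp c) * Real.exp (-c) ^ j := by
      intro j
      rw [← Real.exp_nat_mul]
      have : Real.exp (c * (j + 1)) * Real.exp (-(2 * c * j))
          = Real.exp c * Real.exp (j * -c) := by
        rw [← Real.exp_add, ← Real.exp_add]
        congr 1
        ring
      calc Real.exp (c * (j + 1)) * (B * Real.exp (-(2 * c * j)))
          = B * (Real.exp (c * (j + 1)) * Real.exp (-(2 * c * j))) := by ring
        _ = _ := by rw [this]; ring
    simp_rw [h1]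
    rw [← Finset.mul_sum, mul_assoc, div_eq_mul_inv]
    refine mul_le_mul_of_nonneg_left (mul_le_mul_of_nonneg_left ?_ (Real.exp_pos _).le) hB0
    have h2 := (summable_geometric_of_lt_one (Real.exp_pos (-c)).le hexp1).sum_le_tsum
      (Finset.range J') (fun j _ => by positivity)
    rwa [tsum_geometric_of_lt_one (Real.exp_pos (-c)).le hexp1] at h2
  have hle : ∀ J' : ℕ, ‖mulOp (ew (wt c l δ z₀)) u‖
      ≤ B * (Real.exp c / (1 - Real.exp (-c)))
        + Real.exp (c / δ) * (B * Real.exp (-(2 * c * J'))) := by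
    intro J'
    rw [hall]
    exact (hiter J').trans (add_le_add (hgeo J') (hlast J'))
  have hlim2 : Tendsto (fun J' : ℕ => B * (Real.exp c / (1 - Real.exp (-c)))
      + Real.exp (c / δ) * (B * Real.exp (-(2 * c * (J' : ℝ))))) atTop
      (𝓝 (B * (Real.exp c / (1 - Real.exp (-c))))) := by
    have h1 : Tendsto (fun J' : ℕ => 2 * c * (J' : ℝ)) atTop atTop :=
      tendsto_natCast_atTop_atTop.const_mul_atTop (by positivity)
    have h2 := (Real.tendsto_exp_neg_atTop_nhds_zero.comp h1).const_mul B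
    have h3 := h2.const_mul (Real.exp (c / δ))
    have h4 := h3.const_add (B * (Real.exp c / (1 - Real.exp (-c))))
    rw [mul_zero, mul_zero, add_zero] at h4
    exact h4
  refine (ge_of_tendsto' hlim2 hle).trans (le_of_eq ?_)
  rw [hB]
  ring

end

end Pool.Agent.W_eb6199
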