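import Pool.Agent.W_eb6199.Resolvent

open MeasureTheory Complex Filter Topology
open scoped FourierTransform ComplexInnerProductSpace ENNReal NNReal

namespace Pool.Agent.W_eb6199

noncomputable section

variable {n : ℕ}

/-! T13: algebra of the resolvents. -/

theorem isRes_zero_iff {A : Coef n} {l : ℝ} {f u : L2 n} :
    IsRes A l f 0 u ↔ u ∈ En n ∧ ∀ v ∈ En n,
      ⟪v, u⟫ + (l : ℂ) ^ 2 * form A u v = ⟪v, f⟫ := by
  simp [IsRes]

theorem J_spec' (A : Coef n) {l : ℝ} (hl : 0 < l) (f : L2 n) {v : L2 n} (hv : v ∈ En n) :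
    ⟪v, J A l f⟫ + (l : ℂ) ^ 2 * form A (J A l f) v = ⟪v, f⟫ :=
  (isRes_zero_iff.1 (J_spec A hl f)).2 v hv

theorem J_unique {A : Coef n} {l : ℝ} (hl : 0 < l) {f u : L2 n} (hu : u ∈ En n)
    (h : ∀ v ∈ En n, ⟪v, u⟫ + (l : ℂ) ^ 2 * form A u v = ⟪v, f⟫) : J A l f = u :=
  IsRes.unique hl (J_spec A hl f) (isRes_zero_iff.2 ⟨hu, h⟩)

theorem form_sub_left (A : Coef n) {u u' v : L2 n} (hu : u ∈ En n) (hu' : u' ∈ En n) :
    form A (u - u') v = form A u v - form A u' v := by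
  have h : u - u' = u + (-1 : ℂ) • u' := by rw [neg_smul, one_smul, sub_eq_add_neg]
  rw [h, form_add_left A hu (En_smul _ hu'), form_smul_left A _ hu']
  ring

/-- `J f ∈ D(H)` and `H J f = l^{-2} (f - J f)` -/
theorem InDom_J (A : Coef n) {l : ℝ} (hl : 0 < l) (f : L2 n) :
    InDom A (J A l f) (((l : ℂ) ^ 2)⁻¹ • (f - J A l f)) := by
  have hl' : (l : ℂ) ≠ 0 := Complex.ofReal_ne_zero.2 hl.ne'
  refine ⟨J_mem A hl f, fun v hv => ?_⟩
  have h := J_spec' A hl f hv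
  rw [inner_smul_right, inner_sub_right, ← h]
  field_simp
  ring

/-- `J (H u) = l^{-2} (u - J u)` for `u ∈ D(H)` -/
theorem J_of_InDom (A : Coef n) {l : ℝ} (hl : 0 < l) {u f : L2 n} (h : InDom A u f) :
    J A l f = ((l : ℂ) ^ 2)⁻¹ • (u - J A l u) := by
  have hl' : (l : ℂ) ≠ 0 := Complex.ofReal_ne_zero.2 hl.ne'
  have hJ := J_mem A hl u
  refine J_unique hl (En_smul _ (En_sub h.1 hJ)) fun v hv => ?_
  have h1 := J_spec' A hl u hv
  have h2 := h.2 v hv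
  rw [form_smul_left A _ (En_sub h.1 hJ), form_sub_left A h.1 hJ, inner_smul_right,
    inner_sub_right, h2, ← h1]
  field_simp
  ring

theorem InDom.unique {A : Coef n} {u f f' : L2 n} (h : InDom A u f) (h' : InDom A u f') :
    f = f' := by
  have hcont : ∀ g : L2 n, Continuous fun v : L2 n => (⟪v, g⟫ : ℂ) := fun g => by fun_prop
  have h1 : (fun v : L2 n => (⟪v, f⟫ : ℂ)) = fun v : L2 n => (⟪v, f'⟫ : ℂ) :=
    Continuous.ext_on dense_En (hcont f) (hcont f') fun v hv => by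
      have e1 := h.2 v hv
      have e2 := h'.2 v hv
      exact e1.symm.trans e2
  exact ext_inner_left ℂ fun v => congrFun h1 v

theorem InDom.add {A : Coef n} {u f u' f' : L2 n} (h : InDom A u f) (h' : InDom A u' f') :
    InDom A (u + u') (f + f') := by
  refine ⟨En_add h.1 h'.1, fun v hv => ?_⟩
  rw [form_add_left A h.1 h'.1, h.2 v hv, h'.2 v hv, inner_add_right]

theorem InDom.smul {A : Coef n} {u f : L2 n} (c : ℂ) (h : InDom A u f) :
    InDom A (c • u) (c • f) := by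
  refine ⟨En_smul c h.1, fun v hv => ?_⟩
  rw [form_smul_left A c h.1, h.2 v hv, inner_smul_right]

theorem InDom.sub {A : Coef n} {u f u' f' : L2 n} (h : InDom A u f) (h' : InDom A u' f') :
    InDom A (u - u') (f - f') := by
  refine ⟨En_sub h.1 h'.1, fun v hv => ?_⟩
  rw [form_sub_left A h.1 h'.1, h.2 v hv, h'.2 v hv, inner_sub_right]

/-- energy bound in terms of `u` and `H u` -/
theorem exists_InDom_bound (A : Coef n) : ∃ C : ℝ, 0 < C ∧ ∀ u f : L2 n, InDom A u f →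
    eD u ≤ C * (‖u‖ * ‖f‖) := by
  obtain ⟨δ, c, hδ, hδ1, hc, hc1, H⟩ := exists_coercive A
  refine ⟨2 / c, by positivity, fun u f h => ?_⟩
  have h1 := H u h.1
  have hv : u + ((δ * A.sg : ℝ) : ℂ) • Ht u ∈ En n := En_add h.1 (En_smul _ (En_Ht h.1))
  rw [h.2 _ hv] at h1
  have hsg : |A.sg| = 1 := by
    rcases A.sg_eq with h | h <;> rw [h] <;> simp
  have h2 : ‖u + ((δ * A.sg : ℝ) : ℂ) • Ht u‖ ≤ 2 * ‖u‖ := by
    refine (norm_add_le _ _).trans ?_
    rw [norm_smul, Complex.norm_real, Real.norm_eq_abs, abs_mul, hsg, mul_one, abs_of_pos hδ]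
    have h3 := norm_Ht_le u
    have h4 : δ * ‖Ht u‖ ≤ 1 * ‖u‖ := mul_le_mul hδ1 h3 (norm_nonneg _) zero_le_one
    linarith only [h4]
  have h3 : c * eD u ≤ 2 * (‖u‖ * ‖f‖) := by
    refine h1.trans ((Complex.re_le_norm _).trans ((norm_inner_le_norm _ _).trans ?_))
    have := mul_le_mul_of_nonneg_right h2 (norm_nonneg f)
    linarith only [this]
  rw [div_mul_eq_mul_div, le_div_iff₀ hc]
  linarith only [h3]

theorem form_eq_zero_of_D {A : Coef n} {u v : L2 n} (h : ∀ j, D j u = 0) : form A u v = 0 := by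
  simp [form, h, Coef.app]

/-- the operator is closed -/
theorem InDom.of_tendsto {ι : Type*} {L : Filter ι} [L.NeBot] {A : Coef n} {u f : ι → L2 n}
    {v g : L2 n} (h : ∀ᶠ k in L, InDom A (u k) (f k)) (hu : Tendsto u L (𝓝 v))
    (hf : Tendsto f L (𝓝 g)) : InDom A v g ∧ ∀ j, Tendsto (fun k => D j (u k)) L (𝓝 (D j v)) := by
  obtain ⟨C, hC, H⟩ := exists_InDom_bound A
  have hex : ∀ j, ∃ w, Tendsto (fun k => D j (u k)) L (𝓝 w) := by
    intro j
    rw [← cauchy_map_iff_exists_tendsto, cauchy_map_iff]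
    refine ⟨inferInstance, ?_⟩
    rw [tendsto_uniformity_iff_dist_tendsto_zero]
    have hb : ∀ᶠ p : ι × ι in L ×ˢ L, dist (D j (u p.1)) (D j (u p.2)) ≤
        Real.sqrt (C * (‖u p.1 - u p.2‖ * ‖f p.1 - f p.2‖)) := by
      filter_upwards [h.prod_mk h] with p hp
      refine Real.le_sqrt_of_sq_le ?_
      rw [dist_eq_norm, ← D_sub j hp.1.1 hp.2.1]
      exact (norm_D_sq_le j _).trans (H _ _ (hp.1.sub hp.2))
    refine squeeze_zero' (Eventually.of_forall fun p => dist_nonneg) hb ?_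
    have h0 : ∀ {x : ι → L2 n} {y : L2 n}, Tendsto x L (𝓝 y) →
        Tendsto (fun p : ι × ι => ‖x p.1 - x p.2‖) (L ×ˢ L) (𝓝 0) := by
      intro x y hx
      have h1 : Tendsto (fun p : ι × ι => x p.1 - x p.2) (L ×ˢ L) (𝓝 (y - y)) :=
        (hx.comp tendsto_fst).sub (hx.comp tendsto_snd)
      rw [sub_self] at h1
      simpa using h1.norm
    have h3 := (Real.continuous_sqrt.tendsto _).comp (((h0 hu).mul (h0 hf)).const_mul C)
    simpa [Function.comp_def] using h3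
  choose w hw using hex
  obtain ⟨hv, hD⟩ := En_of_tendsto (h.mono fun k hk => hk.1) hu hw
  refine ⟨⟨hv, fun y hy => ?_⟩, fun j => by rw [hD j]; exact hw j⟩
  have h1 : Tendsto (fun k => form A (u k) y) L (𝓝 (form A v y)) := by
    unfold form Coef.app
    refine Tendsto.add (Tendsto.const_mul _ (Tendsto.inner tendsto_const_nhds ?_))
      (tendsto_finsetSum _ fun i _ => Tendsto.inner tendsto_const_nhds
        (tendsto_finsetSum _ fun j _ => ?_))
    · rw [hD 0]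
      exact (Ht.continuous.tendsto _).comp (hw 0)
    · simp only [hD j.succ]
      exact ((A.mul i j).continuous.tendsto _).comp (hw j.succ)
  have h2 : Tendsto (fun k => (⟪y, f k⟫ : ℂ)) L (𝓝 ⟪y, g⟫) :=
    Tendsto.inner tendsto_const_nhds hf
  refine tendsto_nhds_unique h1 (h2.congr' ?_)
  filter_upwards [h] with k hk using (hk.2 y hy).symm

theorem ae_coord_ne_zero (j : Fin (n + 1)) : ∀ᵐ ζ ∂(volume : Measure (ST n)), ζ j ≠ 0 := by
  have h1 : (volume : Measure (ST n))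
      ((LinearMap.ker (EuclideanSpace.proj (𝕜 := ℝ) j : ST n →L[ℝ] ℝ).toLinearMap :
        Submodule ℝ (ST n)) : Set (ST n)) = 0 := by
    refine Measure.addHaar_submodule _ _ ?_
    intro h
    have h2 : (ev j : ST n) ∈ (⊤ : Submodule ℝ (ST n)) := Submodule.mem_top
    rw [← h] at h2
    simp [ev] at h2
  rw [ae_iff]
  refine measure_mono_null (fun ζ hζ => ?_) h1
  simpa using hζ

/-- injectivity of `H` (here `n ≥ 1` is needed) -/
theorem InDom.eq_zero (hn : 0 < n) {A : Coef n} {u : L2 n} (h : InDom A u 0) : u = 0 := by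
  have h1 : form A u u = 0 := by rw [h.2 u h.1, inner_zero_right]
  have h2 := re_form_self A h.1
  rw [h1, Complex.zero_re] at h2
  have h3 : gD u = 0 := by
    have := gD_nonneg u
    have := A.ν_pos
    nlinarith
  have h4 : D (Fin.succ ⟨0, hn⟩) u = 0 := by
    have h5 : ‖D (Fin.succ ⟨0, hn⟩) u‖ ^ 2 ≤ gD u :=
      Finset.single_le_sum (f := fun i : Fin n => ‖D i.succ u‖ ^ 2)
        (fun i _ => sq_nonneg _) (Finset.mem_univ _)
    rw [h3] at h5
    have h6 : ‖D (Fin.succ ⟨0, hn⟩) u‖ ^ 2 = 0 := le_antisymm h5 (sq_nonneg _)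
    exact norm_eq_zero.1 (pow_eq_zero_iff (by norm_num) |>.1 h6)
  have h5 := FMul_D h.1 (Fin.succ ⟨0, hn⟩)
  rw [h4] at h5
  unfold FMul at h5
  have h6 : (𝓕 (0 : L2 n) : L2 n) = 0 := FourierTransform.fourier_zero ..
  rw [h6] at h5
  have h7 : (𝓕 u : L2 n) = 0 := by
    refine Lp.ext ?_
    filter_upwards [h5, Lp.coeFn_zero ℂ 2 (volume : Measure (ST n)),
      ae_coord_ne_zero (n := n) (Fin.succ ⟨0, hn⟩)] with ζ e1 e2 e3
    rw [e2] at e1 ⊢
    rw [gsym_succ] at e1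
    simp only [Pi.zero_apply] at e1 ⊢
    rcases mul_eq_zero.1 e1.symm with e4 | e4
    · exfalso
      have : (2 * Real.pi * I : ℂ) ≠ 0 := Complex.two_pi_I_ne_zero
      rcases mul_eq_zero.1 e4 with e5 | e5
      · exact this e5
      · exact e3 (Complex.ofReal_eq_zero.1 e5)
    · exact e4
  have h8 : ‖u‖ = 0 := by
    rw [← Lp.norm_fourier_eq, h7, norm_zero]
  exact norm_eq_zero.1 h8

theorem smul_identity_aux {V : Type*} [AddCommGroup V] [Module ℂ V] {a b : ℂ} (ha : a ≠ 0)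
    (hb : b ≠ 0) {x y z : V} (h : b⁻¹ • (x - z) = a⁻¹ • (y - z)) :
    (a - b) • z = a • x - b • y := by
  have h1 : a • (x - z) = b • (y - z) := by
    have h2 := congrArg (fun x => (a * b) • x) h
    simp only [smul_smul] at h2
    rwa [mul_assoc, mul_inv_cancel₀ hb, mul_one, mul_comm a b, mul_assoc, mul_inv_cancel₀ ha,
      mul_one] at h2
  rw [smul_sub, smul_sub] at h1
  rw [sub_smul]
  have h2 : a • z = a • x - (a • x - a • z) := by abel
  rw [h2, h1]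
  abel

/-- resolvent identity `(l²-μ²) J_l J_μ = l² J_l - μ² J_μ` -/
theorem J_J (A : Coef n) {l μ : ℝ} (hl : 0 < l) (hμ : 0 < μ) (f : L2 n) :
    ((l : ℂ) ^ 2 - (μ : ℂ) ^ 2) • J A l (J A μ f)
      = (l : ℂ) ^ 2 • J A l f - (μ : ℂ) ^ 2 • J A μ f := by
  have hl' : (l : ℂ) ≠ 0 := Complex.ofReal_ne_zero.2 hl.ne'
  have hμ' : (μ : ℂ) ≠ 0 := Complex.ofReal_ne_zero.2 hμ.ne'
  have h := J_of_InDom A hl (InDom_J A hμ f)
  rw [map_smul, map_sub] at h
  exact smul_identity_aux (pow_ne_zero 2 hl') (pow_ne_zero 2 hμ') h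

theorem J_comm (A : Coef n) {l μ : ℝ} (hl : 0 < l) (hμ : 0 < μ) (f : L2 n) :
    J A l (J A μ f) = J A μ (J A l f) := by
  by_cases h : l = μ
  · rw [h]
  have h1 := J_J A hl hμ f
  have h2 := J_J A hμ hl f
  have h3 : (l : ℂ) ^ 2 - (μ : ℂ) ^ 2 ≠ 0 := by
    rw [sub_ne_zero]
    intro h4
    have h5 : l ^ 2 = μ ^ 2 := by exact_mod_cast h4
    exact h ((pow_left_inj₀ hl.le hμ.le (by norm_num)).1 h5)
  have h4 : ((l : ℂ) ^ 2 - (μ : ℂ) ^ 2) • J A l (J A μ f)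
      = ((l : ℂ) ^ 2 - (μ : ℂ) ^ 2) • J A μ (J A l f) := by
    rw [h1, ← neg_sub ((μ : ℂ) ^ 2), neg_smul, h2]
    abel
  exact smul_right_injective _ h3 h4

theorem Jpow_comm (A : Coef n) {l μ : ℝ} (hl : 0 < l) (hμ : 0 < μ) (a b : ℕ) (f : L2 n) :
    (J A l ^ a) ((J A μ ^ b) f) = (J A μ ^ b) ((J A l ^ a) f) := by
  have h : Commute (J A l) (J A μ) := by
    refine ContinuousLinearMap.ext fun f => ?_
    exact J_comm A hl hμ f
  have h1 := (h.pow_pow a b).eq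
  exact congrArg (fun T : L2 n →L[ℂ] L2 n => T f) h1

private theorem ResAlg_conj_aux {a b c d p : ℂ} {l : ℝ}
    (h1 : a + (l : ℂ) ^ 2 * (starRingEnd ℂ) p = c) (h2 : b + (l : ℂ) ^ 2 * p = d)
    (hab : (starRingEnd ℂ) a = b) : d = (starRingEnd ℂ) c := by
  rw [← h1, map_add, map_mul, map_pow, Complex.conj_conj, Complex.conj_ofReal, hab, h2]

private theorem ResAlg_inner_pow {E : Type*} [NormedAddCommGroup E] [InnerProductSpace ℂ E]
    {T T' : E →L[ℂ] E} (h : ∀ f g : E, (⟪T f, g⟫ : ℂ) = ⟪f, T' g⟫) (k : ℕ) (f g : E) :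
    (⟪(T ^ k) f, g⟫ : ℂ) = ⟪f, (T' ^ k) g⟫ := by
  induction k generalizing f with
  | zero => simp
  | succ k ih => rw [pow_succ, mul_apply_eq_comp, ih, pow_succ', mul_apply_eq_comp, h]

private theorem ResAlg_norm_pow {E : Type*} [NormedAddCommGroup E] [InnerProductSpace ℂ E]
    {T : E →L[ℂ] E} (h : ∀ f : E, ‖T f‖ ≤ ‖f‖) (k : ℕ) (f : E) : ‖(T ^ k) f‖ ≤ ‖f‖ := by
  induction k with
  | zero => simp
  | succ k ih =>
    rw [pow_succ', mul_apply_eq_comp]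
    exact (h _).trans ih

private theorem ResAlg_bound_aux {C f s e x l z : ℝ} (hC : 0 < C) (hf : 0 ≤ f) (hz : z = 0)
    (h1 : s ^ 2 + l ^ 2 * e ≤ C * (f ^ 2 + z)) (h2 : x ^ 2 ≤ e) :
    l * x ≤ Real.sqrt C * f := by
  have h3 : (l * x) ^ 2 ≤ (Real.sqrt C * f) ^ 2 := by
    rw [mul_pow, mul_pow, Real.sq_sqrt hC.le]
    have h4 : l ^ 2 * x ^ 2 ≤ l ^ 2 * e := mul_le_mul_of_nonneg_left h2 (sq_nonneg _)
    rw [hz, add_zero] at h1
    have := sq_nonneg s
    linarith only [h1, h4, this]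
  exact le_of_sq_le_sq h3 (by positivity)

/-- adjoint -/
theorem inner_J (A : Coef n) {l : ℝ} (hl : 0 < l) (f g : L2 n) :
    ⟪J A l f, g⟫ = ⟪f, J A.adj l g⟫ := by
  have h1 : ⟪J A.adj l g, J A l f⟫ +
      (l : ℂ) ^ 2 * (starRingEnd ℂ) (form A.adj (J A.adj l g) (J A l f)) = ⟪J A.adj l g, f⟫ :=
    (congrArg (fun z : ℂ => ⟪J A.adj l g, J A l f⟫ + (l : ℂ) ^ 2 * z)
      (form_adj A (J A l f) (J A.adj l g))).symm.trans (J_spec' A hl f (J_mem A.adj hl g))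
  exact (ResAlg_conj_aux h1 (J_spec' A.adj hl g (J_mem A hl f))
    (inner_conj_symm _ _)).trans (inner_conj_symm _ _)

theorem inner_J_pow (A : Coef n) {l : ℝ} (hl : 0 < l) (k : ℕ) (f g : L2 n) :
    ⟪(J A l ^ k) f, g⟫ = ⟪f, (J A.adj l ^ k) g⟫ :=
  ResAlg_inner_pow (fun f g => inner_J A hl f g) k f g

theorem norm_Jpow_le (A : Coef n) {l : ℝ} (hl : 0 < l) (k : ℕ) (f : L2 n) :
    ‖(J A l ^ k) f‖ ≤ ‖f‖ :=
  ResAlg_norm_pow (fun f => norm_J_le A hl f) k f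

/-- the factorization used in the Grigoryan iteration: `J_l = (1/4 + 3/4 J_l) J_{l/2}` -/
theorem J_factor (A : Coef n) {l : ℝ} (hl : 0 < l) (f : L2 n) :
    J A l f = (1 / 4 : ℂ) • J A (l / 2) f + (3 / 4 : ℂ) • J A l (J A (l / 2) f) := by
  have hl' : (l : ℂ) ≠ 0 := Complex.ofReal_ne_zero.2 hl.ne'
  have h := J_J A hl (half_pos hl) f
  have h1 : (l : ℂ) ^ 2 • J A l f = (l : ℂ) ^ 2 •
      ((1 / 4 : ℂ) • J A (l / 2) f + (3 / 4 : ℂ) • J A l (J A (l / 2) f)) := by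
    rw [smul_add, smul_smul, smul_smul]
    push_cast at h
    rw [show (l : ℂ) ^ 2 - ((l : ℂ) / 2) ^ 2 = (l : ℂ) ^ 2 * (3 / 4) by ring,
      show ((l : ℂ) / 2) ^ 2 = (l : ℂ) ^ 2 * (1 / 4) by ring] at h
    rw [h]
    abel
  exact smul_right_injective _ (pow_ne_zero 2 hl') h1

/-- for `u ∈ E` with `w = ∂_t u ∈ L²` :
`l^{-1}(u - J_l u) = sg l J_l w + S_l (A ∇u)` -/
theorem inv_smul_sub_J (A : Coef n) {l : ℝ} (hl : 0 < l) {u w : L2 n} (hu : u ∈ En n)
    (hw : FMul (dsym 0) u w) :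
    ((l : ℂ)⁻¹) • (u - J A l u) = ((A.sg * l : ℝ) : ℂ) • J A l w
      + S A l (A.app fun i => D i.succ u) := by
  have hl' : (l : ℂ) ≠ 0 := Complex.ofReal_ne_zero.2 hl.ne'
  have hJ := J_mem A hl u
  rw [← map_smul]
  refine IsRes.eq hl ⟨En_smul _ (En_sub hu hJ), fun v hv => ?_⟩
  have h1 := J_spec' A hl u hv
  have h2 : form A u v = (A.sg : ℂ) * ⟪v, w⟫
      + ∑ i : Fin n, ⟪D i.succ v, A.app (fun j => D j.succ u) i⟫ := by
    rw [form, time_form_of_FMul hu hv hw]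
  rw [form_smul_left A _ (En_sub hu hJ), form_sub_left A hu hJ, inner_smul_right,
    inner_sub_right, inner_smul_right]
  push_cast
  have h3 : (A.sg : ℂ) * l * ⟪v, w⟫
      + l * ∑ i : Fin n, ⟪D i.succ v, A.app (fun j => D j.succ u) i⟫ = l * form A u v := by
    rw [h2]; ring
  rw [h3, ← h1]
  field_simp
  ring

theorem exists_D_J_bound (A : Coef n) : ∃ C : ℝ, 0 < C ∧ ∀ l : ℝ, 0 < l →
    ∀ (f : L2 n) (j : Fin (n + 1)), l * ‖D j (J A l f)‖ ≤ C * ‖f‖ := by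
  obtain ⟨C, hC, H⟩ := exists_res_bound A
  exact ⟨Real.sqrt C, Real.sqrt_pos.2 hC, fun l hl f j =>
    ResAlg_bound_aux hC (norm_nonneg _) (by simp) (H l hl f 0 _ (J_spec A hl f))
      (norm_D_sq_le j (J A l f))⟩

end

end Pool.Agent.W_eb6199
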