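import Pool.Agent.W_eb6199.SmoothAvg
import Pool.Agent.W_eb6199.EkLim
import Pool.Agent.W_eb6199.DQ
import Pool.Agent.W_eb6199.Poincare

open MeasureTheory Complex Filter Topology
open scoped FourierTransform ComplexInnerProductSpace ENNReal NNReal

namespace Pool.Agent.W_eb6199

noncomputable section

variable {n : ℕ}

/-! T32: the square function estimate for `E_k (P_k - 1)`. -/

theorem schur_sc_div_le {k j : ℤ} (h : k ≤ j) (i : Fin (n + 1)) :
    sc k i / sc j i ≤ ((2 : ℝ) ^ (j - k))⁻¹ := by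
  have hjk : 0 ≤ j - k := sub_nonneg.mpr h
  refine Fin.cases ?_ (fun i => ?_) i
  · rw [sc_zero, sc_zero, ← zpow_sub₀ (by norm_num : (4 : ℝ) ≠ 0), ← neg_sub j k, zpow_neg]
    exact inv_anti₀ (by positivity) (zpow_le_zpow_left₀ hjk (by norm_num) (by norm_num))
  · rw [sc_succ, sc_succ, ← zpow_sub₀ (by norm_num : (2 : ℝ) ≠ 0), ← neg_sub j k, zpow_neg]

/-- `j ≥ k` : `‖(E_{j+1} - E_j) P_k u‖ ≤ C 2^{-(j-k)} ‖u‖` -/
theorem exists_diff_Pk_le (n : ℕ) : ∃ C : ℝ, 0 < C ∧ ∀ (j k : ℤ), k ≤ j → ∀ u : L2 n,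
    ‖Ek (j + 1) (Pk k u) - Ek j (Pk k u)‖ ≤ C * ((2 : ℝ) ^ (j - k))⁻¹ * ‖u‖ := by
  obtain ⟨C₀, hC₀, h₀⟩ := exists_norm_sub_Ek_le n
  obtain ⟨C₁, hC₁, h₁⟩ := exists_FMul_Pk n
  refine ⟨C₀ * (C₁ * (n + 1)), by positivity, ?_⟩
  intro j k hkj u
  have e1 : Ek (j + 1) (Pk k u) - Ek j (Pk k u) = Ek (j + 1) (Pk k u - Ek j (Pk k u)) := by
    rw [map_sub, Ek_Ek_of_le (by omega : j ≤ j + 1)]
  rw [e1]
  refine (norm_Ek_le _ _).trans ?_
  have h2 := h₀ j (Pk k u) (fun i => C₁ * sc k i * ‖u‖) (by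
    intro i s
    obtain ⟨w, hw, hw'⟩ := h₁ k i u
    refine (norm_tr_sub_le_of_FMul hw s).trans ?_
    exact mul_le_mul_of_nonneg_left hw' (abs_nonneg s))
  refine h2.trans ?_
  have h3 : ∑ i : Fin (n + 1), C₁ * sc k i * ‖u‖ / sc j i
      ≤ ∑ _i : Fin (n + 1), C₁ * ((2 : ℝ) ^ (j - k))⁻¹ * ‖u‖ := by
    refine Finset.sum_le_sum fun i _ => ?_
    have : C₁ * sc k i * ‖u‖ / sc j i = C₁ * (sc k i / sc j i) * ‖u‖ := by ring
    rw [this]
    exact mul_le_mul_of_nonneg_right (mul_le_mul_of_nonneg_left (schur_sc_div_le hkj i) hC₁.le)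
      (norm_nonneg _)
  rw [Finset.sum_const, Finset.card_univ, Fintype.card_fin, nsmul_eq_mul] at h3
  calc C₀ * ∑ i : Fin (n + 1), C₁ * sc k i * ‖u‖ / sc j i
      ≤ C₀ * (((n + 1 : ℕ) : ℝ) * (C₁ * ((2 : ℝ) ^ (j - k))⁻¹ * ‖u‖)) :=
        mul_le_mul_of_nonneg_left h3 hC₀.le
    _ = C₀ * (C₁ * (n + 1)) * ((2 : ℝ) ^ (j - k))⁻¹ * ‖u‖ := by push_cast; ring

theorem schur_integrable_gauss :
    Integrable (fun t : ℝ => Real.exp (-Real.pi * t ^ 2) * Real.sqrt |t|) := by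
  have h1 : Integrable fun t : ℝ => Real.exp (-Real.pi * t ^ 2) :=
    integrable_exp_neg_mul_sq Real.pi_pos
  have h2 : Integrable fun t : ℝ => t * Real.exp (-Real.pi * t ^ 2) :=
    integrable_mul_exp_neg_mul_sq Real.pi_pos
  refine Integrable.mono' (h1.add h2.norm) ?_ ?_
  · fun_prop
  · refine Filter.Eventually.of_forall fun t => ?_
    rw [Real.norm_of_nonneg (by positivity)]
    simp only [Pi.add_apply, norm_mul, Real.norm_eq_abs, Real.abs_exp]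
    have h3 : Real.sqrt |t| ≤ 1 + |t| := by
      rw [Real.sqrt_le_left (by positivity)]
      nlinarith only
    nlinarith only [Real.exp_pos (-Real.pi * t ^ 2), h3]

/-- `j ≤ k` : `‖u - P_k u‖ ≤ C 2^{-(k-j)/2} ‖u‖` if `E_j u = u` -/
theorem exists_sub_Pk_le (n : ℕ) : ∃ C : ℝ, 0 < C ∧ ∀ (j k : ℤ), j ≤ k → ∀ u : L2 n, Ek j u = u →
    ‖u - Pk k u‖ ≤ C * (Real.sqrt ((2 : ℝ) ^ (k - j)))⁻¹ * ‖u‖ := by
  set G : ℝ := ∫ t : ℝ, Real.exp (-Real.pi * t ^ 2) * Real.sqrt |t| with hG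
  have hG0 : 0 ≤ G := integral_nonneg fun t => by positivity
  refine ⟨(n + 1) * (2 * (G + 1)), by positivity, ?_⟩
  intro j k hjk u hu
  refine (norm_sub_Pk_le k u).trans ?_
  have key : ∀ i : Fin (n + 1), ∫ s : ℝ, sc k i * Real.exp (-Real.pi * (sc k i * s) ^ 2)
      * ‖u - tr (s • ev i) u‖ ≤ 2 * (G + 1) * (Real.sqrt ((2 : ℝ) ^ (k - j)))⁻¹ * ‖u‖ := by
    intro i
    have ha : 0 < sc k i := sc_pos k i
    have hb : 0 < sc j i := sc_pos j i
    set a := sc k i with hadef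
    set b := sc j i with hbdef
    set h : ℝ → ℝ := fun t => Real.exp (-Real.pi * t ^ 2) * Real.sqrt |t| with hh
    have hle : ∀ s : ℝ, a * Real.exp (-Real.pi * (a * s) ^ 2) * ‖u - tr (s • ev i) u‖
        ≤ (2 * a * Real.sqrt (b / a) * ‖u‖) * h (a * s) := by
      intro s
      have h1 := norm_sq_sub_tr_le j hu i s
      have h2 : ‖u - tr (s • ev i) u‖ ≤ 2 * Real.sqrt (|s| * b) * ‖u‖ := by
        refine le_of_sq_le_sq ?_ (by positivity)
        rw [mul_pow, mul_pow, Real.sq_sqrt (by positivity)]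
        calc _ ≤ _ := h1
          _ = _ := by ring
      have h3 : Real.sqrt (|s| * b) = Real.sqrt (b / a) * Real.sqrt |a * s| := by
        rw [← Real.sqrt_mul (by positivity)]
        congr 1
        rw [abs_mul, abs_of_pos ha]
        field_simp
      calc a * Real.exp (-Real.pi * (a * s) ^ 2) * ‖u - tr (s • ev i) u‖
          ≤ a * Real.exp (-Real.pi * (a * s) ^ 2) * (2 * Real.sqrt (|s| * b) * ‖u‖) :=
            mul_le_mul_of_nonneg_left h2 (by positivity)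
        _ = (2 * a * Real.sqrt (b / a) * ‖u‖) * h (a * s) := by
            rw [h3, hh]
            ring
    have hint : Integrable fun s : ℝ => (2 * a * Real.sqrt (b / a) * ‖u‖) * h (a * s) := by
      refine Integrable.const_mul ?_ _
      exact (schur_integrable_gauss.comp_mul_left' ha.ne')
    have h4 : ∫ s : ℝ, a * Real.exp (-Real.pi * (a * s) ^ 2) * ‖u - tr (s • ev i) u‖
        ≤ ∫ s : ℝ, (2 * a * Real.sqrt (b / a) * ‖u‖) * h (a * s) := by
      refine integral_mono_of_nonneg ?_ hint (Filter.Eventually.of_forall hle)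
      exact Filter.Eventually.of_forall fun s => by positivity
    refine h4.trans ?_
    rw [integral_const_mul, Measure.integral_comp_mul_left h a, ← hG, smul_eq_mul,
      abs_of_pos (inv_pos.mpr ha)]
    have h5 : Real.sqrt (b / a) ≤ (Real.sqrt ((2 : ℝ) ^ (k - j)))⁻¹ := by
      rw [← Real.sqrt_inv]
      exact Real.sqrt_le_sqrt (schur_sc_div_le hjk i)
    have h6 : 2 * a * Real.sqrt (b / a) * ‖u‖ * (a⁻¹ * G) = 2 * G * Real.sqrt (b / a) * ‖u‖ := by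
      field_simp
    rw [h6]
    have h7 : 2 * G * Real.sqrt (b / a) ≤ 2 * (G + 1) * (Real.sqrt ((2 : ℝ) ^ (k - j)))⁻¹ :=
      mul_le_mul (by linarith only) h5 (Real.sqrt_nonneg _) (by positivity)
    exact mul_le_mul_of_nonneg_right h7 (norm_nonneg _)
  calc ∑ i : Fin (n + 1), ∫ s : ℝ, sc k i * Real.exp (-Real.pi * (sc k i * s) ^ 2)
        * ‖u - tr (s • ev i) u‖
      ≤ ∑ _i : Fin (n + 1), 2 * (G + 1) * (Real.sqrt ((2 : ℝ) ^ (k - j)))⁻¹ * ‖u‖ :=
        Finset.sum_le_sum fun i _ => key i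
    _ = (n + 1) * (2 * (G + 1)) * (Real.sqrt ((2 : ℝ) ^ (k - j)))⁻¹ * ‖u‖ := by
        rw [Finset.sum_const, Finset.card_univ, Fintype.card_fin, nsmul_eq_mul]
        push_cast
        ring

/-- the decay rate `2^{-1/2}` -/
def schurR : ℝ := (Real.sqrt 2)⁻¹

theorem schurR_pos : 0 < schurR := by
  unfold schurR
  positivity

theorem schurR_lt_one : schurR < 1 := by
  unfold schurR
  refine inv_lt_one_of_one_lt₀ ?_
  rw [Real.lt_sqrt (by norm_num)]
  norm_num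

theorem half_le_schurR : (1 / 2 : ℝ) ≤ schurR := by
  unfold schurR
  rw [one_div]
  refine inv_anti₀ (by positivity) ?_
  rw [Real.sqrt_le_left (by norm_num)]
  norm_num

theorem schurR_pow (m : ℕ) : (Real.sqrt ((2 : ℝ) ^ m))⁻¹ = schurR ^ m := by
  unfold schurR
  rw [inv_pow]
  congr 1
  rw [Real.sqrt_eq_iff_mul_self_eq (by positivity) (by positivity), ← mul_pow,
    Real.mul_self_sqrt (by norm_num)]

theorem exists_Ek_diff_le (n : ℕ) : ∃ C : ℝ, 0 < C ∧ ∀ (j k : ℤ) (u : L2 n),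
    ‖Ek k (Pk k (Ek (j + 1) u - Ek j u) - (Ek (j + 1) u - Ek j u))‖
      ≤ C * schurR ^ (j - k).natAbs * ‖Ek (j + 1) u - Ek j u‖ := by
  obtain ⟨C₁, hC₁, h₁⟩ := exists_diff_Pk_le n
  obtain ⟨C₂, hC₂, h₂⟩ := exists_sub_Pk_le n
  refine ⟨C₁ + 2 * C₂, by positivity, ?_⟩
  intro j k u
  set w : L2 n := Ek (j + 1) u - Ek j u with hw
  have hr0 : 0 < schurR := schurR_pos
  rcases le_or_gt k j with hkj | hkj
  · -- `k ≤ j`
    obtain ⟨m, hm⟩ := Int.eq_ofNat_of_zero_le (sub_nonneg.mpr hkj)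
    have hEw : Ek k w = 0 := by
      rw [hw, map_sub, Ek_Ek_of_ge (by omega : k ≤ j + 1), Ek_Ek_of_ge hkj, sub_self]
    have hΔw : Ek (j + 1) w - Ek j w = w := by
      rw [hw, map_sub, map_sub, Ek_Ek_of_le (by omega : j ≤ j + 1),
        Ek_Ek_of_ge (by omega : j ≤ j + 1), Ek_Ek_of_le (le_refl (j + 1)),
        Ek_Ek_of_le (le_refl j), sub_self, sub_zero]
    rw [map_sub, hEw, sub_zero]
    refine (norm_Ek_le _ _).trans ?_
    set y : L2 n := Pk k w with hy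
    have h3 : ‖y‖ ^ 2 ≤ ‖w‖ * (C₁ * ((2 : ℝ) ^ (j - k))⁻¹ * ‖y‖) := by
      have e1 : (⟪y, y⟫ : ℂ) = ⟪w, Ek (j + 1) (Pk k y) - Ek j (Pk k y)⟫ := by
        rw [inner_sub_right, ← inner_Ek, ← inner_Ek, ← inner_sub_left, hΔw, hy, inner_Pk, ← hy]
      have e2 : ‖y‖ ^ 2 = ‖(⟪y, y⟫ : ℂ)‖ := by
        rw [inner_self_eq_norm_sq_to_K]
        simp
      rw [e2, e1]
      refine (norm_inner_le_norm _ _).trans ?_
      exact mul_le_mul_of_nonneg_left (h₁ j k hkj y) (norm_nonneg _)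
    have h4 : ‖y‖ ≤ C₁ * ((2 : ℝ) ^ (j - k))⁻¹ * ‖w‖ := by
      rcases (norm_nonneg y).eq_or_lt with h0 | h0
      · rw [← h0]
        positivity
      · refine le_of_mul_le_mul_right ?_ h0
        nlinarith only [h3]
    refine h4.trans (mul_le_mul_of_nonneg_right ?_ (norm_nonneg _))
    have h5 : ((2 : ℝ) ^ (j - k))⁻¹ ≤ schurR ^ (j - k).natAbs := by
      rw [hm, Int.natAbs_natCast, zpow_natCast, ← inv_pow]
      refine pow_le_pow_left₀ (by norm_num) ?_ m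
      have := half_le_schurR
      rwa [one_div] at this
    exact mul_le_mul (by linarith only [hC₂]) h5 (by positivity) (by positivity)
  · -- `j < k`
    obtain ⟨m, hm⟩ := Int.eq_ofNat_of_zero_le (by omega : 0 ≤ k - (j + 1))
    have hEw : Ek (j + 1) w = w := by
      rw [hw, map_sub, Ek_Ek_of_le (by omega : j ≤ j + 1), Ek_Ek_of_le (le_refl (j + 1))]
    refine (norm_Ek_le _ _).trans ?_
    rw [norm_sub_rev]
    refine (h₂ (j + 1) k (by omega) w hEw).trans ?_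
    refine mul_le_mul_of_nonneg_right ?_ (norm_nonneg _)
    have h6 : (j - k).natAbs = m + 1 := by omega
    rw [hm, zpow_natCast, schurR_pow, h6, pow_succ]
    have h7 : schurR ^ m ≤ 2 * (schurR ^ m * schurR) := by
      have := half_le_schurR
      have h8 : 0 < schurR ^ m := by positivity
      nlinarith only [this, h8]
    calc C₂ * schurR ^ m ≤ C₂ * (2 * (schurR ^ m * schurR)) :=
          mul_le_mul_of_nonneg_left h7 hC₂.le
      _ ≤ (C₁ + 2 * C₂) * (schurR ^ m * schurR) := by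
          have h8 : 0 < schurR ^ m * schurR := by positivity
          nlinarith only [mul_pos hC₁ h8]

theorem schur_summable : Summable fun m : ℤ => schurR ^ m.natAbs := by
  refine Summable.of_nat_of_neg ?_ ?_
  · simpa using summable_geometric_of_lt_one schurR_pos.le schurR_lt_one
  · simpa using summable_geometric_of_lt_one schurR_pos.le schurR_lt_one

private theorem schur_sum_le_aux (f : ℤ → ℝ) (hf : Summable f) (h0 : ∀ m, 0 ≤ f m)
    (F : Finset ℤ) (k : ℤ) : ∑ j ∈ F, f (j - k) ≤ ∑' m : ℤ, f m := by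
  have h1 : Summable fun j : ℤ => f (j - k) := (Equiv.subRight k).summable_iff.mpr hf
  have h2 : ∑' j : ℤ, f (j - k) = ∑' m : ℤ, f m := (Equiv.subRight k).tsum_eq f
  rw [← h2]
  exact h1.sum_le_tsum F fun i _ => h0 _

theorem schur_sum_le (F : Finset ℤ) (k : ℤ) :
    ∑ j ∈ F, schurR ^ (j - k).natAbs ≤ ∑' m : ℤ, schurR ^ m.natAbs :=
  schur_sum_le_aux (fun m => schurR ^ m.natAbs) schur_summable
    (fun _ => pow_nonneg schurR_pos.le _) F k

theorem schur_sum_le' (F : Finset ℤ) (j : ℤ) :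
    ∑ k ∈ F, schurR ^ (j - k).natAbs ≤ ∑' m : ℤ, schurR ^ m.natAbs := by
  refine le_trans (le_of_eq ?_) (schur_sum_le F j)
  refine Finset.sum_congr rfl fun k _ => ?_
  congr 1
  omega

/-- discrete Schur test -/
theorem schur_test (A : ℝ) (hA : 0 ≤ A) (s F : Finset ℤ) (a : ℤ → ℤ → ℝ) (d : ℤ → ℝ)
    (ha : ∀ k j, 0 ≤ a k j) (h1 : ∀ k, ∑ j ∈ F, a k j ≤ A) (h2 : ∀ j, ∑ k ∈ s, a k j ≤ A) :
    ∑ k ∈ s, (∑ j ∈ F, a k j * d j) ^ 2 ≤ A ^ 2 * ∑ j ∈ F, d j ^ 2 := by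
  have h3 : ∀ k, (∑ j ∈ F, a k j * d j) ^ 2 ≤ A * ∑ j ∈ F, a k j * d j ^ 2 := by
    intro k
    have h4 : (∑ j ∈ F, Real.sqrt (a k j) * (Real.sqrt (a k j) * d j)) ^ 2
        ≤ (∑ j ∈ F, Real.sqrt (a k j) ^ 2) * ∑ j ∈ F, (Real.sqrt (a k j) * d j) ^ 2 :=
      Finset.sum_mul_sq_le_sq_mul_sq F _ _
    have h5 : ∀ j, Real.sqrt (a k j) * (Real.sqrt (a k j) * d j) = a k j * d j := by
      intro j
      rw [← mul_assoc, Real.mul_self_sqrt (ha k j)]
    have h6 : ∀ j, (Real.sqrt (a k j) * d j) ^ 2 = a k j * d j ^ 2 := by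
      intro j
      rw [mul_pow, Real.sq_sqrt (ha k j)]
    simp only [h5, h6, Real.sq_sqrt (ha k _)] at h4
    refine h4.trans ?_
    exact mul_le_mul_of_nonneg_right (h1 k)
      (Finset.sum_nonneg fun j _ => mul_nonneg (ha k j) (sq_nonneg _))
  calc ∑ k ∈ s, (∑ j ∈ F, a k j * d j) ^ 2
      ≤ ∑ k ∈ s, A * ∑ j ∈ F, a k j * d j ^ 2 := Finset.sum_le_sum fun k _ => h3 k
    _ = A * ∑ j ∈ F, (∑ k ∈ s, a k j) * d j ^ 2 := by
        rw [← Finset.mul_sum, Finset.sum_comm]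
        congr 1
        refine Finset.sum_congr rfl fun j _ => ?_
        rw [Finset.sum_mul]
    _ ≤ A * ∑ j ∈ F, A * d j ^ 2 := by
        refine mul_le_mul_of_nonneg_left ?_ hA
        exact Finset.sum_le_sum fun j _ => mul_le_mul_of_nonneg_right (h2 j) (sq_nonneg _)
    _ = A ^ 2 * ∑ j ∈ F, d j ^ 2 := by
        rw [← Finset.mul_sum]
        ring

private theorem schur_telescope_aux {E : Type*} [AddCommGroup E] (f : ℤ → E) (N : ℕ) :
    ∑ j ∈ Finset.Ico (-(N : ℤ)) N, (f (j + 1) - f j) = f (N : ℤ) - f (-(N : ℤ)) := by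
  induction N with
  | zero => simp
  | succ N ih =>
    have h1 : Finset.Ico (-((N + 1 : ℕ) : ℤ)) ((N + 1 : ℕ) : ℤ)
        = insert (-(N : ℤ) - 1) (insert (N : ℤ) (Finset.Ico (-(N : ℤ)) N)) := by
      ext x
      simp only [Finset.mem_Ico, Finset.mem_insert]
      push_cast
      omega
    rw [h1, Finset.sum_insert, Finset.sum_insert, ih]
    · have e1 : (-(N : ℤ) - 1 + 1) = -(N : ℤ) := by ring
      have e2 : (((N + 1 : ℕ) : ℤ)) = (N : ℤ) + 1 := by push_cast; ring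
      have e3 : (-((N + 1 : ℕ) : ℤ)) = -(N : ℤ) - 1 := by push_cast; ring
      rw [e1, e3, e2]
      abel
    · simp
    · simp only [Finset.mem_insert, Finset.mem_Ico]
      omega

theorem schur_telescope (u : L2 n) (N : ℕ) :
    ∑ j ∈ Finset.Ico (-(N : ℤ)) N, (Ek (j + 1) u - Ek j u) = Ek (N : ℤ) u - Ek (-(N : ℤ)) u :=
  schur_telescope_aux (fun j => Ek j u) N

theorem exists_schur (n : ℕ) : ∃ C : ℝ, 0 < C ∧ ∀ (s : Finset ℤ) (u : L2 n),
    ∑ k ∈ s, ‖Ek k (Pk k u - u)‖ ^ 2 ≤ C * ‖u‖ ^ 2 := by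
  obtain ⟨C, hC, h⟩ := exists_Ek_diff_le n
  set A : ℝ := ∑' m : ℤ, schurR ^ m.natAbs with hA
  have hA0 : 0 ≤ A := tsum_nonneg fun m => pow_nonneg schurR_pos.le _
  refine ⟨(C * A) ^ 2 + 1, by positivity, ?_⟩
  intro s u
  -- the truncated sums
  have main : ∀ N : ℕ, ∑ k ∈ s, ‖Ek k (Pk k (Ek (N : ℤ) u - Ek (-(N : ℤ)) u)
      - (Ek (N : ℤ) u - Ek (-(N : ℤ)) u))‖ ^ 2 ≤ (C * A) ^ 2 * ‖u‖ ^ 2 := by
    intro N
    set F : Finset ℤ := Finset.Ico (-(N : ℤ)) N with hF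
    have h1 : ∀ k : ℤ, ‖Ek k (Pk k (Ek (N : ℤ) u - Ek (-(N : ℤ)) u)
        - (Ek (N : ℤ) u - Ek (-(N : ℤ)) u))‖
        ≤ ∑ j ∈ F, C * schurR ^ (j - k).natAbs * ‖Ek (j + 1) u - Ek j u‖ := by
      intro k
      rw [← schur_telescope u N, map_sum, ← Finset.sum_sub_distrib, map_sum]
      exact norm_sum_le_of_le _ fun j _ => h j k u
    calc ∑ k ∈ s, ‖Ek k (Pk k (Ek (N : ℤ) u - Ek (-(N : ℤ)) u)
        - (Ek (N : ℤ) u - Ek (-(N : ℤ)) u))‖ ^ 2
        ≤ ∑ k ∈ s, (∑ j ∈ F, C * schurR ^ (j - k).natAbs * ‖Ek (j + 1) u - Ek j u‖) ^ 2 :=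
          Finset.sum_le_sum fun k _ => pow_le_pow_left₀ (norm_nonneg _) (h1 k) 2
      _ ≤ (C * A) ^ 2 * ∑ j ∈ F, ‖Ek (j + 1) u - Ek j u‖ ^ 2 := by
          refine schur_test (C * A) (by positivity) s F
            (fun k j => C * schurR ^ (j - k).natAbs) (fun j => ‖Ek (j + 1) u - Ek j u‖) ?_ ?_ ?_
          · intro k j
            exact mul_nonneg hC.le (pow_nonneg schurR_pos.le _)
          · intro k
            rw [← Finset.mul_sum]
            exact mul_le_mul_of_nonneg_left (schur_sum_le F k) hC.le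
          · intro j
            rw [← Finset.mul_sum]
            exact mul_le_mul_of_nonneg_left (schur_sum_le' s j) hC.le
      _ ≤ (C * A) ^ 2 * ‖u‖ ^ 2 :=
          mul_le_mul_of_nonneg_left (sum_norm_sq_diff_le F u) (by positivity)
  -- the limit
  have hlim : Tendsto (fun N : ℕ => Ek (N : ℤ) u - Ek (-(N : ℤ)) u) atTop (𝓝 (u - 0)) := by
    refine Tendsto.sub ?_ ?_
    · exact (tendsto_Ek_atTop u).comp tendsto_natCast_atTop_atTop
    · exact (tendsto_Ek_atBot u).comp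
        (tendsto_neg_atTop_atBot.comp (tendsto_natCast_atTop_atTop (R := ℤ)))
  rw [sub_zero] at hlim
  have hcont : Tendsto (fun N : ℕ => ∑ k ∈ s, ‖Ek k (Pk k (Ek (N : ℤ) u - Ek (-(N : ℤ)) u)
      - (Ek (N : ℤ) u - Ek (-(N : ℤ)) u))‖ ^ 2) atTop
      (𝓝 (∑ k ∈ s, ‖Ek k (Pk k u - u)‖ ^ 2)) := by
    refine tendsto_finsetSum s fun k _ => ?_
    have h2 : Continuous fun v : L2 n => ‖Ek k (Pk k v - v)‖ ^ 2 := by fun_prop
    exact (h2.tendsto u).comp hlim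
  have h3 := le_of_tendsto' hcont main
  refine h3.trans ?_
  nlinarith only

end

end Pool.Agent.W_eb6199
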