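import Pool.Agent.W_eb6199.Energy
import Pool.Agent.W_eb6199.Trans
import Pool.Agent.W_eb6199.Cubes

open MeasureTheory Complex Filter Topology
open scoped FourierTransform ComplexInnerProductSpace ENNReal NNReal

namespace Pool.Agent.W_eb6199

noncomputable section

variable {n : ℕ}

/-! T31: the Gaussian smoothing operators `Pk`. -/

/-! ### elementary inequalities -/

private theorem summable_half_natAbs : Summable (fun m : ℤ => (1 / 2 : ℝ) ^ m.natAbs) := by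
  have h : Summable (fun m : ℕ => (1 / 2 : ℝ) ^ m) :=
    summable_geometric_of_lt_one (by norm_num) (by norm_num)
  refine Summable.of_nat_of_neg ?_ ?_
  · simpa using h
  · simpa using h

private theorem zpow_neg_le {b : ℝ} (hb : 2 ≤ b) (j : ℕ) : b ^ (-(j : ℤ)) ≤ (1 / 2 : ℝ) ^ j := by
  rw [zpow_neg, zpow_natCast, one_div, inv_pow]
  exact inv_anti₀ (by positivity) (pow_le_pow_left₀ (by norm_num) hb j)

private theorem geo_bound : ∃ C : ℝ, 0 < C ∧ ∀ (b x : ℝ), 2 ≤ b → 0 ≤ x → ∀ s : Finset ℤ,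
    ∑ k ∈ s, min (x / b ^ k) (x / b ^ k)⁻¹ ≤ C := by
  refine ⟨2 * ∑' m : ℤ, (1 / 2 : ℝ) ^ m.natAbs, ?_, ?_⟩
  · have h := summable_half_natAbs.tsum_pos (fun m => by positivity) 0 (by positivity)
    positivity
  · intro b x hb hx s
    have hb0 : 0 < b := by linarith
    rcases hx.eq_or_lt with h0 | hx0
    · subst h0
      simp only [zero_div, inv_zero, min_self, Finset.sum_const_zero]
      have h : (0 : ℝ) ≤ ∑' m : ℤ, (1 / 2 : ℝ) ^ m.natAbs := tsum_nonneg fun m => by positivity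
      positivity
    · obtain ⟨k₀, hk1, hk2⟩ := exists_mem_Ico_zpow hx0 (show (1 : ℝ) < b by linarith)
      have key : ∀ k : ℤ, min (x / b ^ k) (x / b ^ k)⁻¹ ≤ 2 * (1 / 2 : ℝ) ^ (k - k₀).natAbs := by
        intro k
        have hbk : 0 < b ^ k := zpow_pos hb0 k
        rcases le_or_gt k k₀ with h | h
        · obtain ⟨j, hj⟩ := Int.eq_ofNat_of_zero_le (sub_nonneg.2 h)
          have hkk : k = k₀ - j := by omega
          refine (min_le_right _ _).trans ?_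
          have h1 : (x / b ^ k)⁻¹ ≤ b ^ (-(j : ℤ)) := by
            rw [inv_div, div_le_iff₀ hx0]
            calc b ^ k = b ^ (-(j : ℤ)) * b ^ k₀ := by
                  rw [← zpow_add₀ hb0.ne', hkk]; congr 1; ring
              _ ≤ b ^ (-(j : ℤ)) * x := by
                  exact mul_le_mul_of_nonneg_left hk1 (zpow_pos hb0 _).le
          have h2 : (k - k₀).natAbs = j := by omega
          rw [h2]
          have h3 := zpow_neg_le hb j
          have h4 : (0 : ℝ) < (1 / 2 : ℝ) ^ j := by positivity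
          linarith
        · obtain ⟨j, hj⟩ := Int.eq_ofNat_of_zero_le (show 0 ≤ k - (k₀ + 1) by omega)
          have hkk : k = k₀ + 1 + j := by omega
          refine (min_le_left _ _).trans ?_
          have h1 : x / b ^ k ≤ b ^ (-(j : ℤ)) := by
            rw [div_le_iff₀ hbk]
            calc x ≤ b ^ (k₀ + 1) := hk2.le
              _ = b ^ (-(j : ℤ)) * b ^ k := by
                  rw [← zpow_add₀ hb0.ne', hkk]; congr 1; ring
          have h2 : (k - k₀).natAbs = j + 1 := by omega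
          rw [h2, pow_succ]
          have h3 := zpow_neg_le hb j
          linarith
      calc ∑ k ∈ s, min (x / b ^ k) (x / b ^ k)⁻¹
          ≤ ∑ k ∈ s, 2 * (1 / 2 : ℝ) ^ (k - k₀).natAbs := Finset.sum_le_sum fun k _ => key k
        _ = 2 * ∑ k ∈ s, (1 / 2 : ℝ) ^ (k - k₀).natAbs := by rw [Finset.mul_sum]
        _ = 2 * ∑ m ∈ s.map (Equiv.subRight k₀).toEmbedding, (1 / 2 : ℝ) ^ m.natAbs := by
            rw [Finset.sum_map]; rfl
        _ ≤ _ := by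
            refine mul_le_mul_of_nonneg_left ?_ (by norm_num)
            exact summable_half_natAbs.sum_le_tsum _ (fun m _ => by positivity)

private theorem le_min_of (a y : ℝ) (hy : 0 ≤ y) (h0 : y = 0 → a ≤ 0) (h1 : y ≤ 1 → a ≤ y)
    (h2 : 1 ≤ y → a * y ≤ 1) : a ≤ min y y⁻¹ := by
  rcases hy.eq_or_lt with h | h
  · subst h
    simpa using h0 rfl
  · rcases le_total y 1 with h' | h'
    · refine le_min (h1 h') ((h1 h').trans ?_)
      exact h'.trans ((one_le_inv₀ h).2 h')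
    · have h3 : a ≤ y⁻¹ := by
        rw [← one_div, le_div_iff₀ h]; exact h2 h'
      exact le_min (h3.trans ((inv_le_one_of_one_le₀ h').trans h')) h3

private theorem exp_neg_sq_mul_le (y : ℝ) (hy : 1 ≤ y) :
    Real.exp (-(2 * Real.pi * y ^ 2)) * y ^ 3 ≤ 1 := by
  rw [Real.exp_neg, inv_mul_le_iff₀ (Real.exp_pos _), mul_one]
  have hπ := Real.pi_gt_three
  have h1 : (0 : ℝ) ≤ 2 * Real.pi * y ^ 2 := by positivity
  have h2 := Real.quadratic_le_exp_of_nonneg h1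
  have h3 : y ^ 3 ≤ y ^ 4 := by
    have : y ^ 4 = y ^ 3 * y := by ring
    rw [this]
    exact le_mul_of_one_le_right (by positivity) hy
  have h4 : y ^ 4 ≤ (2 * Real.pi * y ^ 2) ^ 2 / 2 := by
    have h5 : (2 * Real.pi * y ^ 2) ^ 2 / 2 = 2 * Real.pi ^ 2 * y ^ 4 := by ring
    rw [h5]
    have h6 : (1 : ℝ) ≤ 2 * Real.pi ^ 2 := by nlinarith
    exact le_mul_of_one_le_left (by positivity) h6
  linarith

/-- `y e^{-2πy²} ≤ min(y,1/y)` -/
private theorem ineq_d (y : ℝ) (hy : 0 ≤ y) :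
    y * Real.exp (-(2 * Real.pi * y ^ 2)) ≤ min y y⁻¹ := by
  have he : Real.exp (-(2 * Real.pi * y ^ 2)) ≤ 1 := by
    rw [Real.exp_le_one_iff]
    have := Real.pi_pos
    have : 0 ≤ 2 * Real.pi * y ^ 2 := by positivity
    linarith
  refine le_min_of _ y hy (fun h => by simp [h]) (fun _ => mul_le_of_le_one_right hy he) ?_
  intro h1
  have h2 := exp_neg_sq_mul_le y h1
  have h3 : y ^ 2 ≤ y ^ 3 := by
    have : y ^ 3 = y ^ 2 * y := by ring
    rw [this]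
    exact le_mul_of_one_le_right (by positivity) h1
  calc y * Real.exp (-(2 * Real.pi * y ^ 2)) * y
      = Real.exp (-(2 * Real.pi * y ^ 2)) * y ^ 2 := by ring
    _ ≤ Real.exp (-(2 * Real.pi * y ^ 2)) * y ^ 3 :=
        mul_le_mul_of_nonneg_left h3 (Real.exp_pos _).le
    _ ≤ 1 := h2

/-- `y² e^{-2πy²} ≤ min(y,1/y)` -/
private theorem ineq_e (y : ℝ) (hy : 0 ≤ y) :
    y ^ 2 * Real.exp (-(2 * Real.pi * y ^ 2)) ≤ min y y⁻¹ := by
  have he : Real.exp (-(2 * Real.pi * y ^ 2)) ≤ 1 := by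
    rw [Real.exp_le_one_iff]
    have := Real.pi_pos
    have : 0 ≤ 2 * Real.pi * y ^ 2 := by positivity
    linarith
  refine le_min_of _ y hy (fun h => by simp [h]) (fun h1 => ?_) ?_
  · refine (mul_le_of_le_one_right (by positivity) he).trans ?_
    rw [sq]; exact mul_le_of_le_one_right hy h1
  · intro h1
    have h2 := exp_neg_sq_mul_le y h1
    calc y ^ 2 * Real.exp (-(2 * Real.pi * y ^ 2)) * y
        = Real.exp (-(2 * Real.pi * y ^ 2)) * y ^ 3 := by ring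
      _ ≤ 1 := h2

private theorem one_sub_exp_nonneg (y : ℝ) : 0 ≤ 1 - Real.exp (-(Real.pi * y ^ 2)) := by
  have h : Real.exp (-(Real.pi * y ^ 2)) ≤ 1 := by
    rw [Real.exp_le_one_iff]
    have := Real.pi_pos
    have : 0 ≤ Real.pi * y ^ 2 := by positivity
    linarith
  linarith

private theorem one_sub_exp_le_one (y : ℝ) : 1 - Real.exp (-(Real.pi * y ^ 2)) ≤ 1 := by
  have := Real.exp_pos (-(Real.pi * y ^ 2))
  linarith

private theorem one_sub_exp_le (y : ℝ) : 1 - Real.exp (-(Real.pi * y ^ 2)) ≤ Real.pi * y ^ 2 := by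
  have := Real.add_one_le_exp (-(Real.pi * y ^ 2))
  linarith

/-- `A² ≤ π² y min(y,1/y)` -/
private theorem ineq_c (y : ℝ) (hy : 0 ≤ y) :
    (1 - Real.exp (-(Real.pi * y ^ 2))) ^ 2 ≤ Real.pi ^ 2 * y * min y y⁻¹ := by
  have h0 := one_sub_exp_nonneg y
  have h1 := one_sub_exp_le_one y
  have h2 := one_sub_exp_le y
  have hπ := Real.pi_gt_three
  set A := 1 - Real.exp (-(Real.pi * y ^ 2)) with hA
  rcases le_total y 1 with h | h
  · rcases hy.eq_or_lt with h' | h'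
    · have : A = 0 := by rw [hA, ← h']; simp
      rw [this, ← h']; simp
    · have hm : min y y⁻¹ = y := min_eq_left (h.trans ((one_le_inv₀ h').2 h))
      rw [hm]
      have h3 : A ^ 2 ≤ (Real.pi * y ^ 2) ^ 2 := pow_le_pow_left₀ h0 h2 2
      have h4 : (Real.pi * y ^ 2) ^ 2 = Real.pi ^ 2 * y * y * y ^ 2 := by ring
      have h5 : y ^ 2 ≤ 1 := pow_le_one₀ hy h
      have h6 : Real.pi ^ 2 * y * y * y ^ 2 ≤ Real.pi ^ 2 * y * y :=
        mul_le_of_le_one_right (by positivity) h5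
      linarith
  · have h' : 0 < y := by linarith
    have hm : min y y⁻¹ = y⁻¹ := min_eq_right ((inv_le_one_of_one_le₀ h).trans h)
    rw [hm, mul_assoc, mul_inv_cancel₀ h'.ne', mul_one]
    have h3 : A ^ 2 ≤ 1 := pow_le_one₀ h0 h1
    nlinarith

/-- `A² ≤ π² y² min(y,1/y)` -/
private theorem ineq_b (y : ℝ) (hy : 0 ≤ y) :
    (1 - Real.exp (-(Real.pi * y ^ 2))) ^ 2 ≤ Real.pi ^ 2 * y ^ 2 * min y y⁻¹ := by
  have h0 := one_sub_exp_nonneg y
  have h1 := one_sub_exp_le_one y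
  have h2 := one_sub_exp_le y
  have hπ := Real.pi_gt_three
  set A := 1 - Real.exp (-(Real.pi * y ^ 2)) with hA
  rcases le_total y 1 with h | h
  · rcases hy.eq_or_lt with h' | h'
    · have : A = 0 := by rw [hA, ← h']; simp
      rw [this, ← h']; simp
    · have hm : min y y⁻¹ = y := min_eq_left (h.trans ((one_le_inv₀ h').2 h))
      rw [hm]
      have h3 : A ^ 2 ≤ (Real.pi * y ^ 2) ^ 2 := pow_le_pow_left₀ h0 h2 2
      have h4 : (Real.pi * y ^ 2) ^ 2 = Real.pi ^ 2 * y ^ 2 * y * y := by ring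
      have h6 : Real.pi ^ 2 * y ^ 2 * y * y ≤ Real.pi ^ 2 * y ^ 2 * y :=
        mul_le_of_le_one_right (by positivity) h
      linarith
  · have h' : 0 < y := by linarith
    have hm : min y y⁻¹ = y⁻¹ := min_eq_right ((inv_le_one_of_one_le₀ h).trans h)
    have h7 : Real.pi ^ 2 * y ^ 2 * y⁻¹ = Real.pi ^ 2 * y := by field_simp
    rw [hm, h7]
    have h3 : A ^ 2 ≤ 1 := pow_le_one₀ h0 h1
    nlinarith

private theorem one_sub_exp_sum_le {ι : Type*} (t : Finset ι) (a : ι → ℝ)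
    (ha : ∀ i, 0 ≤ a i) :
    1 - Real.exp (-(∑ j ∈ t, a j)) ≤ ∑ j ∈ t, (1 - Real.exp (-(a j))) := by
  classical
  induction t using Finset.induction_on with
  | empty => simp
  | insert i t hi ih =>
    rw [Finset.sum_insert hi, Finset.sum_insert hi, neg_add, Real.exp_add]
    have h1 : Real.exp (-(a i)) ≤ 1 := by
      rw [Real.exp_le_one_iff]; linarith [ha i]
    have h2 : Real.exp (-(∑ j ∈ t, a j)) ≤ 1 := by
      rw [Real.exp_le_one_iff]
      have := Finset.sum_nonneg (s := t) fun j _ => ha j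
      linarith
    have h3 := Real.exp_pos (-(a i))
    nlinarith

/-! ### the symbols -/

private def yv (k : ℤ) (j : Fin (n + 1)) (ζ : ST n) : ℝ := |ζ j| / sc k j

private theorem yv_nonneg (k : ℤ) (j : Fin (n + 1)) (ζ : ST n) : 0 ≤ yv k j ζ := by
  unfold yv
  have := sc_pos k j
  positivity

private theorem yv_sq (k : ℤ) (j : Fin (n + 1)) (ζ : ST n) :
    (ζ j / sc k j) ^ 2 = yv k j ζ ^ 2 := by
  unfold yv
  rw [div_pow, div_pow, sq_abs]

private def pr (k : ℤ) (ζ : ST n) : ℝ := Real.exp (-(∑ j, Real.pi * yv k j ζ ^ 2))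

private theorem psym_eq (k : ℤ) (ζ : ST n) : psym k ζ = (pr k ζ : ℂ) := by
  unfold psym pr
  congr 2
  rw [neg_mul, Finset.mul_sum]
  congr 1
  exact Finset.sum_congr rfl fun j _ => by rw [yv_sq]

private theorem pr_pos (k : ℤ) (ζ : ST n) : 0 < pr k ζ := Real.exp_pos _

private theorem pr_le (k : ℤ) (j : Fin (n + 1)) (ζ : ST n) :
    pr k ζ ≤ Real.exp (-(Real.pi * yv k j ζ ^ 2)) := by
  unfold pr
  refine Real.exp_le_exp.2 (neg_le_neg ?_)
  have hπ := Real.pi_pos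
  exact Finset.single_le_sum (f := fun j => Real.pi * yv k j ζ ^ 2)
    (fun i _ => by positivity) (Finset.mem_univ j)

private theorem pr_sq_le (k : ℤ) (j : Fin (n + 1)) (ζ : ST n) :
    pr k ζ ^ 2 ≤ Real.exp (-(2 * Real.pi * yv k j ζ ^ 2)) := by
  have h := pow_le_pow_left₀ (pr_pos k ζ).le (pr_le k j ζ) 2
  refine h.trans (le_of_eq ?_)
  rw [← Real.exp_nat_mul]
  congr 1
  push_cast
  ring

private theorem pr_le_one (k : ℤ) (ζ : ST n) : pr k ζ ≤ 1 := by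
  refine (pr_le k 0 ζ).trans ?_
  rw [Real.exp_le_one_iff]
  have := Real.pi_pos
  have : 0 ≤ Real.pi * yv k 0 ζ ^ 2 := by positivity
  linarith

private theorem norm_psym (k : ℤ) (ζ : ST n) : ‖psym k ζ‖ = pr k ζ := by
  rw [psym_eq, Complex.norm_real, Real.norm_eq_abs, abs_of_pos (pr_pos k ζ)]

private theorem measurable_psym (k : ℤ) : Measurable (psym (n := n) k) := by
  unfold psym
  have h : ∀ j : Fin (n + 1), Measurable fun ζ : ST n => ζ j := fun j => by fun_prop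
  fun_prop

theorem bm_psym (k : ℤ) : BM (psym (n := n) k) :=
  ⟨measurable_psym k, 1, fun z => by rw [norm_psym]; exact pr_le_one k z⟩

theorem norm_Pk_le (k : ℤ) (u : L2 n) : ‖Pk k u‖ ≤ ‖u‖ := by
  have h := norm_fOp_le (measurable_psym k)
    (C := 1) (fun z => by rw [norm_psym]; exact pr_le_one k z) u
  simpa [Pk] using h

theorem inner_Pk (k : ℤ) (u v : L2 n) : ⟪Pk k u, v⟫ = ⟪u, Pk k v⟫ := by
  unfold Pk
  rw [inner_fOp (bm_psym k)]
  congr 3
  funext z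
  rw [psym_eq, Complex.conj_ofReal]

private theorem norm_dsym (j : Fin (n + 1)) (ζ : ST n) : ‖dsym j ζ‖ = 2 * Real.pi * |ζ j| := by
  unfold dsym
  rw [norm_mul, norm_mul, norm_mul, Complex.norm_I, Complex.norm_real, Complex.norm_real]
  simp [abs_of_pos Real.pi_pos]

private theorem abs_eq (k : ℤ) (j : Fin (n + 1)) (ζ : ST n) : |ζ j| = sc k j * yv k j ζ := by
  unfold yv
  rw [mul_div_cancel₀ _ (sc_pos k j).ne']

private theorem y_exp_le_one (y : ℝ) (_hy : 0 ≤ y) : y * Real.exp (-(Real.pi * y ^ 2)) ≤ 1 := by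
  rw [Real.exp_neg, ← div_eq_mul_inv, div_le_one (Real.exp_pos _)]
  have h := Real.add_one_le_exp (Real.pi * y ^ 2)
  have hπ := Real.pi_gt_three
  nlinarith [sq_nonneg (y - 1)]

private theorem y_pr_le_one (k : ℤ) (j : Fin (n + 1)) (ζ : ST n) : yv k j ζ * pr k ζ ≤ 1 :=
  (mul_le_mul_of_nonneg_left (pr_le k j ζ) (yv_nonneg k j ζ)).trans
    (y_exp_le_one _ (yv_nonneg k j ζ))

private theorem norm_dsym_psym_le (k : ℤ) (j : Fin (n + 1)) (ζ : ST n) :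
    ‖dsym j ζ * psym k ζ‖ ≤ 2 * Real.pi * sc k j := by
  rw [norm_mul, norm_dsym, norm_psym, abs_eq k j ζ]
  have h := y_pr_le_one k j ζ
  have hs := sc_pos k j
  have hπ := Real.pi_pos
  calc 2 * Real.pi * (sc k j * yv k j ζ) * pr k ζ
      = 2 * Real.pi * sc k j * (yv k j ζ * pr k ζ) := by ring
    _ ≤ 2 * Real.pi * sc k j * 1 := mul_le_mul_of_nonneg_left h (by positivity)
    _ = _ := by ring

private theorem bm_dsym_psym (k : ℤ) (j : Fin (n + 1)) :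
    BM fun ζ : ST n => dsym j ζ * psym k ζ :=
  ⟨(measurable_dsym j).mul (measurable_psym k), _, norm_dsym_psym_le k j⟩

private theorem sm_norm_gsym_zero_sq (ζ : ST n) : ‖gsym 0 ζ‖ ^ 2 = 2 * Real.pi * |ζ 0| := by
  rw [gsym_zero, Complex.norm_real, Real.norm_eq_abs, sq_abs, Real.sq_sqrt]
  have := Real.pi_pos
  positivity

private theorem norm_gsym_succ_sq (i : Fin n) (ζ : ST n) :
    ‖gsym i.succ ζ‖ ^ 2 = (2 * Real.pi) ^ 2 * |ζ i.succ| ^ 2 := by
  rw [gsym_succ', norm_dsym, mul_pow]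

theorem En_Pk (k : ℤ) (u : L2 n) : Pk k u ∈ En n := by
  refine En_fOp_of_bdd (bm_psym k) (fun j => ?_) u
  refine Fin.cases ?_ (fun i => ?_) j
  · refine ⟨(measurable_gsym 0).mul (measurable_psym k), 1 + 2 * Real.pi * sc k (0 : Fin (n + 1)),
      fun ζ => ?_⟩
    have h1 : ‖gsym 0 ζ‖ ≤ 1 + ‖dsym 0 ζ‖ := by
      have h := sm_norm_gsym_zero_sq ζ
      rw [norm_dsym, ← h]
      nlinarith [sq_nonneg (‖gsym 0 ζ‖ - 1), norm_nonneg (gsym 0 ζ)]
    calc ‖gsym 0 ζ * psym k ζ‖ = ‖gsym 0 ζ‖ * pr k ζ := by rw [norm_mul, norm_psym]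
      _ ≤ (1 + ‖dsym 0 ζ‖) * pr k ζ := mul_le_mul_of_nonneg_right h1 (pr_pos k ζ).le
      _ = pr k ζ + ‖dsym 0 ζ * psym k ζ‖ := by rw [norm_mul, norm_psym]; ring
      _ ≤ 1 + 2 * Real.pi * sc k (0 : Fin (n + 1)) :=
          add_le_add (pr_le_one k ζ) (norm_dsym_psym_le k 0 ζ)
  · rw [gsym_succ']
    exact bm_dsym_psym k i.succ

/-- `∂_j P_k` is bounded by `C sc k j` -/
theorem exists_FMul_Pk (n : ℕ) : ∃ C : ℝ, 0 < C ∧ ∀ (k : ℤ) (j : Fin (n + 1)) (u : L2 n),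
    ∃ w, FMul (dsym j) (Pk k u) w ∧ ‖w‖ ≤ C * sc k j * ‖u‖ := by
  refine ⟨2 * Real.pi, by positivity, fun k j u => ?_⟩
  refine ⟨_, FMul_fOp_of_bdd (bm_psym k) (bm_dsym_psym k j) u, ?_⟩
  exact norm_fOp_le (bm_dsym_psym k j).meas (norm_dsym_psym_le k j) u

private theorem FMul_const_smul {m : ST n → ℂ} {u w : L2 n} (c : ℂ) (h : FMul m u w) :
    FMul (fun ζ => c * m ζ) u (c • w) := by
  have h1 := FMul_fOp (BM.const c) w
  have h2 : fOp (fun _ : ST n => c) w = c • w := by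
    have h3 : FMul (fun _ : ST n => c) w (c • w) := by
      have h4 : FMul (fun _ : ST n => (1 : ℂ)) w w := by
        unfold FMul
        filter_upwards with z
        rw [one_mul]
      unfold FMul
      have h5 : (𝓕 (c • w) : L2 n) = c • (𝓕 w : L2 n) :=
        (Lp.fourierTransformₗᵢ (ST n) ℂ).map_smul c w
      rw [h5]
      filter_upwards [Lp.coeFn_smul c (𝓕 w : L2 n)] with z hz
      rw [hz]
      rfl
    exact h1.unique h3
  rw [h2] at h1
  exact h.comp h1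

private theorem four_zpow (k : ℤ) : (4 : ℝ) ^ k = (2 : ℝ) ^ k * (2 : ℝ) ^ k := by
  rw [← mul_zpow]; norm_num

private theorem sum_min_le {C : ℝ} (hC : ∀ (b x : ℝ), 2 ≤ b → 0 ≤ x → ∀ s : Finset ℤ,
    ∑ k ∈ s, min (x / b ^ k) (x / b ^ k)⁻¹ ≤ C) (j : Fin (n + 1)) (ζ : ST n) (s : Finset ℤ) :
    ∑ k ∈ s, min (yv k j ζ) (yv k j ζ)⁻¹ ≤ C := by
  refine Fin.cases ?_ (fun i => ?_) j
  · have h := hC 4 |ζ 0| (by norm_num) (abs_nonneg _) s
    simpa [yv, sc_zero] using h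
  · have h := hC 2 |ζ i.succ| (by norm_num) (abs_nonneg _) s
    simpa only [yv, sc_succ] using h

/-- the basic bound of one factor -/
private theorem four_mul_le (k : ℤ) (j : Fin (n + 1)) (ζ : ST n) :
    (4 : ℝ) ^ k * (1 - Real.exp (-(Real.pi * yv k j ζ ^ 2))) ^ 2 ≤
      Real.pi ^ 2 * ‖gsym j ζ‖ ^ 2 * min (yv k j ζ) (yv k j ζ)⁻¹ := by
  have hπ := Real.pi_gt_three
  have hm : 0 ≤ min (yv k j ζ) (yv k j ζ)⁻¹ :=
    le_min (yv_nonneg k j ζ) (inv_nonneg.2 (yv_nonneg k j ζ))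
  revert hm
  refine Fin.cases ?_ (fun i => ?_) j
  · intro hm
    have h := ineq_c (yv k 0 ζ) (yv_nonneg k 0 ζ)
    rw [sm_norm_gsym_zero_sq, abs_eq k 0 ζ, sc_zero]
    have h4 : (0 : ℝ) < (4 : ℝ) ^ k := by positivity
    have hy := yv_nonneg k 0 ζ
    calc (4 : ℝ) ^ k * (1 - Real.exp (-(Real.pi * yv k 0 ζ ^ 2))) ^ 2
        ≤ (4 : ℝ) ^ k * (Real.pi ^ 2 * yv k 0 ζ * min (yv k 0 ζ) (yv k 0 ζ)⁻¹) :=
          mul_le_mul_of_nonneg_left h h4.le
      _ = (Real.pi ^ 2 * ((4 : ℝ) ^ k * yv k 0 ζ) * min (yv k 0 ζ) (yv k 0 ζ)⁻¹) * 1 := by ring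
      _ ≤ (Real.pi ^ 2 * ((4 : ℝ) ^ k * yv k 0 ζ) * min (yv k 0 ζ) (yv k 0 ζ)⁻¹)
            * (2 * Real.pi) := by
          refine mul_le_mul_of_nonneg_left (by linarith) ?_
          positivity
      _ = _ := by ring
  · intro hm
    have h := ineq_b (yv k i.succ ζ) (yv_nonneg k i.succ ζ)
    rw [norm_gsym_succ_sq, abs_eq k i.succ ζ, sc_succ]
    have h4 : (0 : ℝ) < (4 : ℝ) ^ k := by positivity
    have hy := yv_nonneg k i.succ ζ
    calc (4 : ℝ) ^ k * (1 - Real.exp (-(Real.pi * yv k i.succ ζ ^ 2))) ^ 2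
        ≤ (4 : ℝ) ^ k * (Real.pi ^ 2 * yv k i.succ ζ ^ 2 *
            min (yv k i.succ ζ) (yv k i.succ ζ)⁻¹) :=
          mul_le_mul_of_nonneg_left h h4.le
      _ = (Real.pi ^ 2 * ((2 : ℝ) ^ k * yv k i.succ ζ) ^ 2 *
            min (yv k i.succ ζ) (yv k i.succ ζ)⁻¹) * 1 := by rw [four_zpow]; ring
      _ ≤ (Real.pi ^ 2 * ((2 : ℝ) ^ k * yv k i.succ ζ) ^ 2 *
            min (yv k i.succ ζ) (yv k i.succ ζ)⁻¹) * ((2 * Real.pi) ^ 2) := by
          refine mul_le_mul_of_nonneg_left (by nlinarith) ?_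
          positivity
      _ = _ := by ring

/-- square function: `∑ 4^k ‖u - P_k u‖² ≤ C eD u` -/
theorem exists_sum_sub_Pk (n : ℕ) : ∃ C : ℝ, 0 < C ∧ ∀ u ∈ En n, ∀ s : Finset ℤ,
    ∑ k ∈ s, (4 : ℝ) ^ k * ‖u - Pk k u‖ ^ 2 ≤ C * eD u := by
  obtain ⟨C, hC0, hC⟩ := geo_bound
  refine ⟨(n + 1) * (Real.pi ^ 2 * C), by positivity, fun u hu s => ?_⟩
  have hfm : ∀ k : ℤ, FMul (fun ζ => ((2 : ℝ) ^ k : ℂ) * (1 - psym k ζ)) u
      ((((2 : ℝ) ^ k : ℂ)) • (u - Pk k u)) := by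
    intro k
    refine FMul_const_smul _ ?_
    have h1 := FMul_fOp (bm_psym k) u
    have h2 : FMul (fun _ : ST n => (1 : ℂ)) u u := by
      unfold FMul
      filter_upwards with z
      rw [one_mul]
    unfold FMul at h1 h2 ⊢
    have h5 : (𝓕 (u - Pk k u) : L2 n) = (𝓕 u : L2 n) - (𝓕 (Pk k u) : L2 n) :=
      (Lp.fourierTransformₗᵢ (ST n) ℂ).map_sub u (Pk k u)
    rw [h5]
    filter_upwards [Lp.coeFn_sub (𝓕 u : L2 n) (𝓕 (Pk k u) : L2 n), h1] with z hz h1z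
    rw [hz, Pi.sub_apply, sub_mul, one_mul]
    congr 1
  have hmeas : ∀ k : ℤ, Measurable fun ζ : ST n => ((2 : ℝ) ^ k : ℂ) * (1 - psym k ζ) :=
    fun k => (measurable_const.sub (measurable_psym k)).const_mul _
  have hmain := sum_norm_sq_le s hmeas hfm (Finset.univ : Finset (Fin (n + 1)))
    (m₀ := fun j => gsym j) (fun j => measurable_gsym j) (w₀ := fun j => D j u)
    (fun j => FMul_D hu j) (C := (n + 1) * (Real.pi ^ 2 * C)) (by positivity) ?_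
  · have h1 : ∀ k : ℤ, ‖(((2 : ℝ) ^ k : ℂ)) • (u - Pk k u)‖ ^ 2
        = (4 : ℝ) ^ k * ‖u - Pk k u‖ ^ 2 := by
      intro k
      have h2 : ‖(((2 : ℝ) ^ k : ℂ))‖ = (2 : ℝ) ^ k := by
        rw [norm_zpow]; simp
      rw [norm_smul, mul_pow, h2, four_zpow]
      ring
    simp only [h1] at hmain
    exact hmain
  · intro ζ
    have h1 : ∀ k : ℤ, ‖((2 : ℝ) ^ k : ℂ) * (1 - psym k ζ)‖ ^ 2
        = (4 : ℝ) ^ k * (1 - pr k ζ) ^ 2 := by
      intro k
      have h2 : ‖(((2 : ℝ) ^ k : ℂ))‖ = (2 : ℝ) ^ k := by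
        rw [norm_zpow]; simp
      have h3 : ‖1 - psym k ζ‖ = 1 - pr k ζ := by
        rw [psym_eq, ← Complex.ofReal_one, ← Complex.ofReal_sub, Complex.norm_real,
          Real.norm_eq_abs, abs_of_nonneg]
        linarith [pr_le_one k ζ]
      rw [norm_mul, mul_pow, h2, h3, four_zpow]
      ring
    simp only [h1]
    have h2 : ∀ k : ℤ, (4 : ℝ) ^ k * (1 - pr k ζ) ^ 2 ≤
        (n + 1) * ∑ j : Fin (n + 1), (4 : ℝ) ^ k *
          (1 - Real.exp (-(Real.pi * yv k j ζ ^ 2))) ^ 2 := by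
      intro k
      have hπ := Real.pi_pos
      have h3 : 1 - pr k ζ ≤ ∑ j : Fin (n + 1), (1 - Real.exp (-(Real.pi * yv k j ζ ^ 2))) :=
        one_sub_exp_sum_le _ _ fun j => by positivity
      have h4 : 0 ≤ 1 - pr k ζ := by linarith [pr_le_one k ζ]
      have h5 : (1 - pr k ζ) ^ 2 ≤
          (n + 1) * ∑ j : Fin (n + 1), (1 - Real.exp (-(Real.pi * yv k j ζ ^ 2))) ^ 2 := by
        refine (pow_le_pow_left₀ h4 h3 2).trans ?_
        refine (sq_sum_le_card_mul_sum_sq).trans (le_of_eq ?_)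
        simp
      calc (4 : ℝ) ^ k * (1 - pr k ζ) ^ 2
          ≤ (4 : ℝ) ^ k * ((n + 1) * ∑ j : Fin (n + 1),
              (1 - Real.exp (-(Real.pi * yv k j ζ ^ 2))) ^ 2) :=
            mul_le_mul_of_nonneg_left h5 (by positivity)
        _ = _ := by rw [← Finset.mul_sum]; ring
    calc ∑ k ∈ s, (4 : ℝ) ^ k * (1 - pr k ζ) ^ 2
        ≤ ∑ k ∈ s, ((n : ℝ) + 1) * ∑ j : Fin (n + 1), (4 : ℝ) ^ k *
          (1 - Real.exp (-(Real.pi * yv k j ζ ^ 2))) ^ 2 := Finset.sum_le_sum fun k _ => h2 k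
      _ ≤ ∑ k ∈ s, ((n : ℝ) + 1) * ∑ j : Fin (n + 1),
          Real.pi ^ 2 * ‖gsym j ζ‖ ^ 2 * min (yv k j ζ) (yv k j ζ)⁻¹ := by
          refine Finset.sum_le_sum fun k _ => mul_le_mul_of_nonneg_left ?_ (by positivity)
          exact Finset.sum_le_sum fun j _ => four_mul_le k j ζ
      _ = ((n : ℝ) + 1) * ∑ j : Fin (n + 1), Real.pi ^ 2 * ‖gsym j ζ‖ ^ 2 *
            ∑ k ∈ s, min (yv k j ζ) (yv k j ζ)⁻¹ := by
          rw [← Finset.mul_sum, Finset.sum_comm]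
          simp only [Finset.mul_sum]
      _ ≤ ((n : ℝ) + 1) * ∑ j : Fin (n + 1), Real.pi ^ 2 * ‖gsym j ζ‖ ^ 2 * C := by
          refine mul_le_mul_of_nonneg_left ?_ (by positivity)
          refine Finset.sum_le_sum fun j _ => mul_le_mul_of_nonneg_left ?_ (by positivity)
          exact sum_min_le hC j ζ s
      _ = _ := by
          rw [Finset.mul_sum, Finset.mul_sum]
          exact Finset.sum_congr rfl fun j _ => by ring

private theorem FMul_comp_Pk (k : ℤ) {m : ST n → ℂ} {u w : L2 n} (h : FMul m (Pk k u) w) :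
    FMul (fun ζ => m ζ * psym k ζ) u w :=
  (FMul_fOp (bm_psym k) u).comp h

/-- square function: `∑ 4^{-k} ‖∂_t P_k u‖² ≤ C ‖D_t^{1/2} u‖²` -/
theorem exists_sum_dt_Pk (n : ℕ) : ∃ C : ℝ, 0 < C ∧ ∀ u ∈ En n, ∀ s : Finset ℤ,
    ∀ w : ℤ → L2 n, (∀ k, FMul (dsym 0) (Pk k u) (w k)) →
    ∑ k ∈ s, ((4 : ℝ) ^ k)⁻¹ * ‖w k‖ ^ 2 ≤ C * eD u := by
  obtain ⟨C, hC0, hC⟩ := geo_bound
  have hπ := Real.pi_gt_three
  refine ⟨2 * Real.pi * C, by positivity, fun u hu s w hw => ?_⟩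
  have hfm : ∀ k : ℤ, FMul (fun ζ => (((2 : ℝ) ^ k)⁻¹ : ℂ) * (dsym 0 ζ * psym k ζ)) u
      (((((2 : ℝ) ^ k)⁻¹ : ℂ)) • w k) := fun k => FMul_const_smul _ (FMul_comp_Pk k (hw k))
  have hmeas : ∀ k : ℤ, Measurable fun ζ : ST n =>
      (((2 : ℝ) ^ k)⁻¹ : ℂ) * (dsym 0 ζ * psym k ζ) :=
    fun k => ((measurable_dsym 0).mul (measurable_psym k)).const_mul _
  have hmain := sum_norm_sq_le s hmeas hfm ({0} : Finset (Fin (n + 1)))
    (m₀ := fun j => gsym j) (fun j => measurable_gsym j) (w₀ := fun j => D j u)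
    (fun j => FMul_D hu j) (C := 2 * Real.pi * C) (by positivity) ?_
  · have h1 : ∀ k : ℤ, ‖((((2 : ℝ) ^ k)⁻¹ : ℂ)) • w k‖ ^ 2
        = ((4 : ℝ) ^ k)⁻¹ * ‖w k‖ ^ 2 := by
      intro k
      have h2 : ‖((((2 : ℝ) ^ k)⁻¹ : ℂ))‖ = ((2 : ℝ) ^ k)⁻¹ := by
        rw [norm_inv, norm_zpow]; simp
      rw [norm_smul, mul_pow, h2, four_zpow, mul_inv]
      ring
    simp only [h1, Finset.sum_singleton] at hmain
    refine hmain.trans ?_
    exact mul_le_mul_of_nonneg_left (norm_D_sq_le 0 u) (by positivity)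
  · intro ζ
    have h1 : ∀ k : ℤ, ‖(((2 : ℝ) ^ k)⁻¹ : ℂ) * (dsym 0 ζ * psym k ζ)‖ ^ 2
        ≤ 2 * Real.pi * ‖gsym 0 ζ‖ ^ 2 * min (yv k 0 ζ) (yv k 0 ζ)⁻¹ := by
      intro k
      have h2 : ‖((((2 : ℝ) ^ k)⁻¹ : ℂ))‖ = ((2 : ℝ) ^ k)⁻¹ := by
        rw [norm_inv, norm_zpow]; simp
      rw [norm_mul, norm_mul, h2, norm_dsym, norm_psym, sm_norm_gsym_zero_sq, abs_eq k 0 ζ, sc_zero]
      have h3 := pr_sq_le k 0 ζ
      have h4 := ineq_d (yv k 0 ζ) (yv_nonneg k 0 ζ)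
      have hy := yv_nonneg k 0 ζ
      have h5 : (0 : ℝ) < (2 : ℝ) ^ k := by positivity
      have h6 : (0 : ℝ) < (4 : ℝ) ^ k := by positivity
      calc (((2 : ℝ) ^ k)⁻¹ * (2 * Real.pi * ((4 : ℝ) ^ k * yv k 0 ζ) * pr k ζ)) ^ 2
          = (2 * Real.pi) ^ 2 * ((4 : ℝ) ^ k * yv k 0 ζ) * (yv k 0 ζ * pr k ζ ^ 2) := by
            rw [four_zpow]; field_simp
        _ ≤ (2 * Real.pi) ^ 2 * ((4 : ℝ) ^ k * yv k 0 ζ) *
            (yv k 0 ζ * Real.exp (-(2 * Real.pi * yv k 0 ζ ^ 2))) := by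
            refine mul_le_mul_of_nonneg_left ?_ (by positivity)
            exact mul_le_mul_of_nonneg_left h3 hy
        _ ≤ (2 * Real.pi) ^ 2 * ((4 : ℝ) ^ k * yv k 0 ζ) * min (yv k 0 ζ) (yv k 0 ζ)⁻¹ :=
            mul_le_mul_of_nonneg_left h4 (by positivity)
        _ = _ := by ring
    simp only [Finset.sum_singleton]
    calc ∑ k ∈ s, ‖(((2 : ℝ) ^ k)⁻¹ : ℂ) * (dsym 0 ζ * psym k ζ)‖ ^ 2
        ≤ ∑ k ∈ s, 2 * Real.pi * ‖gsym 0 ζ‖ ^ 2 * min (yv k 0 ζ) (yv k 0 ζ)⁻¹ :=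
          Finset.sum_le_sum fun k _ => h1 k
      _ = 2 * Real.pi * ‖gsym 0 ζ‖ ^ 2 * ∑ k ∈ s, min (yv k 0 ζ) (yv k 0 ζ)⁻¹ := by
          rw [Finset.mul_sum]
      _ ≤ 2 * Real.pi * ‖gsym 0 ζ‖ ^ 2 * C :=
          mul_le_mul_of_nonneg_left (sum_min_le hC 0 ζ s) (by positivity)
      _ = _ := by ring

/-- square function: `∑ ‖∂_j P_k u‖²/(sc k j)² ≤ C ‖u‖²` -/
theorem exists_sum_d_Pk (n : ℕ) : ∃ C : ℝ, 0 < C ∧ ∀ (u : L2 n) (j : Fin (n + 1)) (s : Finset ℤ),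
    ∀ w : ℤ → L2 n, (∀ k, FMul (dsym j) (Pk k u) (w k)) →
    ∑ k ∈ s, (‖w k‖ / sc k j) ^ 2 ≤ C * ‖u‖ ^ 2 := by
  obtain ⟨C, hC0, hC⟩ := geo_bound
  have hπ := Real.pi_gt_three
  refine ⟨(2 * Real.pi) ^ 2 * C, by positivity, fun u j s w hw => ?_⟩
  have hfm : ∀ k : ℤ, FMul (fun ζ => ((sc k j)⁻¹ : ℂ) * (dsym j ζ * psym k ζ)) u
      ((((sc k j)⁻¹ : ℂ)) • w k) := fun k => FMul_const_smul _ (FMul_comp_Pk k (hw k))
  have hmeas : ∀ k : ℤ, Measurable fun ζ : ST n =>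
      ((sc k j)⁻¹ : ℂ) * (dsym j ζ * psym k ζ) :=
    fun k => ((measurable_dsym j).mul (measurable_psym k)).const_mul _
  have hone : FMul (fun _ : ST n => (1 : ℂ)) u u := by
    unfold FMul
    filter_upwards with z
    rw [one_mul]
  have hnorm : ∀ k : ℤ, ‖((sc k j)⁻¹ : ℂ)‖ = (sc k j)⁻¹ := by
    intro k
    rw [norm_inv, Complex.norm_real, Real.norm_eq_abs, abs_of_pos (sc_pos k j)]
  have hmain := sum_norm_sq_le s hmeas hfm ({()} : Finset Unit)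
    (m₀ := fun _ _ => (1 : ℂ)) (fun _ => measurable_const) (w₀ := fun _ => u)
    (fun _ => hone) (C := (2 * Real.pi) ^ 2 * C) (by positivity) ?_
  · have h1 : ∀ k : ℤ, ‖(((sc k j)⁻¹ : ℂ)) • w k‖ ^ 2 = (‖w k‖ / sc k j) ^ 2 := by
      intro k
      rw [norm_smul, hnorm, div_eq_inv_mul]
    simp only [h1, Finset.sum_singleton] at hmain
    exact hmain
  · intro ζ
    have h1 : ∀ k : ℤ, ‖((sc k j)⁻¹ : ℂ) * (dsym j ζ * psym k ζ)‖ ^ 2
        ≤ (2 * Real.pi) ^ 2 * min (yv k j ζ) (yv k j ζ)⁻¹ := by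
      intro k
      rw [norm_mul, norm_mul, hnorm, norm_dsym, norm_psym, abs_eq k j ζ]
      have h3 := pr_sq_le k j ζ
      have h4 := ineq_e (yv k j ζ) (yv_nonneg k j ζ)
      have hy := yv_nonneg k j ζ
      have h5 := sc_pos k j
      calc ((sc k j)⁻¹ * (2 * Real.pi * (sc k j * yv k j ζ) * pr k ζ)) ^ 2
          = (2 * Real.pi) ^ 2 * (yv k j ζ ^ 2 * pr k ζ ^ 2) := by
            field_simp
        _ ≤ (2 * Real.pi) ^ 2 *
            (yv k j ζ ^ 2 * Real.exp (-(2 * Real.pi * yv k j ζ ^ 2))) := by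
            refine mul_le_mul_of_nonneg_left ?_ (by positivity)
            exact mul_le_mul_of_nonneg_left h3 (by positivity)
        _ ≤ (2 * Real.pi) ^ 2 * min (yv k j ζ) (yv k j ζ)⁻¹ :=
            mul_le_mul_of_nonneg_left h4 (by positivity)
    simp only [Finset.sum_singleton, norm_one, one_pow, mul_one]
    calc ∑ k ∈ s, ‖((sc k j)⁻¹ : ℂ) * (dsym j ζ * psym k ζ)‖ ^ 2
        ≤ ∑ k ∈ s, (2 * Real.pi) ^ 2 * min (yv k j ζ) (yv k j ζ)⁻¹ :=
          Finset.sum_le_sum fun k _ => h1 k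
      _ = (2 * Real.pi) ^ 2 * ∑ k ∈ s, min (yv k j ζ) (yv k j ζ)⁻¹ := by
          rw [Finset.mul_sum]
      _ ≤ (2 * Real.pi) ^ 2 * C :=
          mul_le_mul_of_nonneg_left (sum_min_le hC j ζ s) (by positivity)

theorem D_Pk (k : ℤ) (j : Fin (n + 1)) {u : L2 n} (hu : u ∈ En n) :
    D j (Pk k u) = Pk k (D j u) :=
  D_fOp (bm_psym k) j hu

end

end Pool.Agent.W_eb6199
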