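import Pool.Agent.W_eb6199.Gamma
import Pool.Agent.W_eb6199.Schur
import Pool.Agent.W_eb6199.ResAlg
import Pool.Agent.W_eb6199.Smooth

open MeasureTheory Complex Filter Topology
open scoped FourierTransform ComplexInnerProductSpace ENNReal NNReal

namespace Pool.Agent.W_eb6199

noncomputable section

variable {n : ℕ}

/-! T34: the principal part estimate in square function form. -/

structure IsGam (A : Coef n) (C s : ℝ) (γ : ℤ → Fin n → ST n → ℂ) : Prop where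
  meas : ∀ k i, Measurable (γ k i)
  loc : ∀ (k : ℤ) (m : Fin (n + 1) → ℤ) i,
    ∫⁻ z in cube k m, ‖γ k i z‖ₑ ^ 2 ≤ ENNReal.ofReal (C * qv n k)
  main : ∀ u ∈ En n, ∀ K : Finset ℤ, ∑ k ∈ K,
    ∫⁻ z, ‖((((s * ((2 : ℝ) ^ k)⁻¹ : ℝ) : ℂ)⁻¹ • (u - J A (s * ((2 : ℝ) ^ k)⁻¹) u) : L2 n) z)
        - ∑ i, γ k i z * Ek k (D i.succ u) z‖ₑ ^ 2
      ≤ ENNReal.ofReal (C * eD u)

/-- local square integrability of `γ` and the averaging operators -/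
theorem lintegral_gamma_Ek_le {k : ℤ} {C : ℝ} (hC : 0 ≤ C) {γ : ST n → ℂ} (hγ : Measurable γ)
    (hloc : ∀ m : Fin (n + 1) → ℤ,
      ∫⁻ z in cube k m, ‖γ z‖ₑ ^ 2 ≤ ENNReal.ofReal (C * qv n k)) (h : L2 n) :
    ∫⁻ z, ‖γ z * Ek k h z‖ₑ ^ 2 ≤ ENNReal.ofReal (C * ‖Ek k h‖ ^ 2) := by
  have e1 : ∫⁻ z, ‖γ z * Ek k h z‖ₑ ^ 2 = ∫⁻ z, ‖γ z‖ₑ ^ 2 * ‖Ek k h z‖ₑ ^ 2 := by
    refine lintegral_congr fun z => ?_
    rw [enorm_mul, mul_pow]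
  have e2 : ENNReal.ofReal (‖Ek k h‖ ^ 2)
      = ∑' m : Fin (n + 1) → ℤ, ENNReal.ofReal (qv n k) * ‖avg k m h‖ₑ ^ 2 := by
    rw [ofReal_norm_sq]
    have h1 := lintegral_norm_sq_Ek k h (fun _ => 1) measurable_const
    simp only [one_mul] at h1
    rw [h1]
    refine tsum_congr fun m => ?_
    rw [setLIntegral_one, volume_cube]
  rw [e1, lintegral_norm_sq_Ek k h _ (hγ.enorm.pow_const 2), ENNReal.ofReal_mul hC, e2,
    ← ENNReal.tsum_mul_left]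
  refine ENNReal.tsum_le_tsum fun m => ?_
  rw [← mul_assoc, ← ENNReal.ofReal_mul hC]
  gcongr
  exact hloc m

theorem enorm_sq_eq (x : ℂ) : ‖x‖ₑ ^ 2 = ENNReal.ofReal (‖x‖ ^ 2) := by
  rw [← ofReal_norm, ENNReal.ofReal_pow (norm_nonneg _)]

theorem enorm_add4_sq_le (a b c d : ℂ) :
    ‖a + b + c + d‖ₑ ^ 2 ≤ 4 * (‖a‖ₑ ^ 2 + ‖b‖ₑ ^ 2 + ‖c‖ₑ ^ 2 + ‖d‖ₑ ^ 2) := by
  rw [enorm_sq_eq, enorm_sq_eq, enorm_sq_eq, enorm_sq_eq, enorm_sq_eq,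
    ← ENNReal.ofReal_add (by positivity) (by positivity),
    ← ENNReal.ofReal_add (by positivity) (by positivity),
    ← ENNReal.ofReal_add (by positivity) (by positivity),
    show (4 : ℝ≥0∞) = ENNReal.ofReal 4 by norm_num, ← ENNReal.ofReal_mul (by norm_num)]
  refine ENNReal.ofReal_le_ofReal ?_
  have h1 : ‖a + b + c + d‖ ≤ ‖a‖ + ‖b‖ + ‖c‖ + ‖d‖ :=
    (norm_add_le _ _).trans (add_le_add ((norm_add_le _ _).trans
      (add_le_add (norm_add_le _ _) le_rfl)) le_rfl)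
  have h2 : ‖a + b + c + d‖ ^ 2 ≤ (‖a‖ + ‖b‖ + ‖c‖ + ‖d‖) ^ 2 :=
    pow_le_pow_left₀ (norm_nonneg _) h1 2
  nlinarith only [sq_nonneg (‖a‖ - ‖d‖), sq_nonneg (‖b‖ - ‖c‖), sq_nonneg (‖b‖ - ‖d‖), sq_nonneg (‖c‖ - ‖d‖), h2]

theorem enorm_sum_sq_le (x : Fin n → ℂ) :
    ‖∑ i, x i‖ₑ ^ 2 ≤ ENNReal.ofReal n * ∑ i, ‖x i‖ₑ ^ 2 := by
  simp only [enorm_sq_eq]
  rw [← ENNReal.ofReal_sum_of_nonneg (fun i _ => by positivity),
    ← ENNReal.ofReal_mul (by positivity)]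
  refine ENNReal.ofReal_le_ofReal ?_
  have h1 : ‖∑ i, x i‖ ^ 2 ≤ (∑ i, ‖x i‖) ^ 2 :=
    pow_le_pow_left₀ (norm_nonneg _) (norm_sum_le _ _) 2
  have h2 := sq_sum_le_card_mul_sum_sq (s := (Finset.univ : Finset (Fin n)))
    (f := fun i => ‖x i‖)
  rw [Finset.card_univ, Fintype.card_fin] at h2
  exact h1.trans h2

theorem ofReal_aux (x : Fin n → ℝ) (C : ℝ) (hC : 0 ≤ C) (hx : ∀ i, 0 ≤ x i) :
    ENNReal.ofReal n * ∑ i, ENNReal.ofReal (C * x i) = ENNReal.ofReal (n * C * ∑ i, x i) := by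
  rw [← ENNReal.ofReal_sum_of_nonneg (fun i _ => mul_nonneg hC (hx i)),
    ← ENNReal.ofReal_mul (by positivity), ← Finset.mul_sum, mul_assoc]

theorem lintegral_four_mul_add4 {f g h k : ST n → ℝ≥0∞}
    (hf : AEMeasurable f (volume : Measure (ST n))) (hg : AEMeasurable g (volume : Measure (ST n)))
    (hh : AEMeasurable h (volume : Measure (ST n))) :
    ∫⁻ z, 4 * (f z + g z + h z + k z)
      = 4 * ((∫⁻ z, f z) + (∫⁻ z, g z) + (∫⁻ z, h z) + ∫⁻ z, k z) := by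
  have h1 : ∫⁻ z, (f z + g z + h z + k z) = (∫⁻ z, f z + g z + h z) + ∫⁻ z, k z :=
    lintegral_add_left' ((hf.add hg).add hh) k
  have h2 : ∫⁻ z, (f z + g z + h z) = (∫⁻ z, f z + g z) + ∫⁻ z, h z :=
    lintegral_add_left' (hf.add hg) h
  have h3 : ∫⁻ z, (f z + g z) = (∫⁻ z, f z) + ∫⁻ z, g z := lintegral_add_left' hf g
  rw [lintegral_const_mul' _ _ (by norm_num), h1, h2, h3]

theorem ofReal_four_mul_add4 {x y z w : ℝ} (hx : 0 ≤ x) (hy : 0 ≤ y) (hz : 0 ≤ z) (hw : 0 ≤ w) :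
    ENNReal.ofReal (4 * (x + y + z + w)) = 4 * (ENNReal.ofReal x + ENNReal.ofReal y
      + ENNReal.ofReal z + ENNReal.ofReal w) := by
  rw [ENNReal.ofReal_mul (by norm_num), ENNReal.ofReal_add (by positivity) hw,
    ENNReal.ofReal_add (by positivity) hz, ENNReal.ofReal_add hx hy,
    show ENNReal.ofReal 4 = 4 by norm_num]

theorem four_mul_add4_le {x y z w x' y' z' w' : ℝ≥0∞} (hx : x ≤ x') (hy : y ≤ y') (hz : z ≤ z')
    (hw : w ≤ w') : 4 * (x + y + z + w) ≤ 4 * (x' + y' + z' + w') := by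
  gcongr

theorem four_zpow_eq (k : ℤ) : (4 : ℝ) ^ k = (2 : ℝ) ^ k * (2 : ℝ) ^ k := by
  rw [← mul_zpow]; norm_num

theorem real_aux1 (k : ℤ) {x y : ℝ} (hx : 0 ≤ x) (h : x ≤ (2 : ℝ) ^ k * (2 * y)) :
    x ^ 2 ≤ 4 * ((4 : ℝ) ^ k * y ^ 2) :=
  calc x ^ 2 ≤ ((2 : ℝ) ^ k * (2 * y)) ^ 2 := pow_le_pow_left₀ hx h 2
    _ = 4 * ((4 : ℝ) ^ k * y ^ 2) := by rw [four_zpow_eq]; ring

theorem real_aux2 (k : ℤ) {x y : ℝ} (hx : 0 ≤ x) (h : x ≤ 2 * ((2 : ℝ) ^ k)⁻¹ * y) :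
    x ^ 2 ≤ 4 * (((4 : ℝ) ^ k)⁻¹ * y ^ 2) :=
  calc x ^ 2 ≤ (2 * ((2 : ℝ) ^ k)⁻¹ * y) ^ 2 := pow_le_pow_left₀ hx h 2
    _ = 4 * (((4 : ℝ) ^ k)⁻¹ * y ^ 2) := by rw [four_zpow_eq, mul_inv]; ring

theorem real_aux3 (C : ℝ) (W : Fin n → Fin (n + 1) → ℝ) (t : Fin (n + 1) → ℝ) :
    (C * ∑ j, (∑ i, W i j) / t j) ^ 2
      ≤ C ^ 2 * ((n + 1) * n) * ∑ j, ∑ i, (W i j / t j) ^ 2 := by
  rw [mul_pow, mul_assoc]
  refine mul_le_mul_of_nonneg_left ?_ (by positivity)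
  have h1 := sq_sum_le_card_mul_sum_sq (s := (Finset.univ : Finset (Fin (n + 1))))
    (f := fun j => (∑ i, W i j) / t j)
  rw [Finset.card_univ, Fintype.card_fin] at h1
  have h2 : ∀ j : Fin (n + 1), ((∑ i, W i j) / t j) ^ 2 ≤ n * ∑ i, (W i j / t j) ^ 2 := by
    intro j
    rw [Finset.sum_div]
    have h3 := sq_sum_le_card_mul_sum_sq (s := (Finset.univ : Finset (Fin n)))
      (f := fun i => W i j / t j)
    rw [Finset.card_univ, Fintype.card_fin] at h3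
    exact h3
  calc (∑ j, (∑ i, W i j) / t j) ^ 2
      ≤ ((n + 1 : ℕ) : ℝ) * ∑ j, ((∑ i, W i j) / t j) ^ 2 := h1
    _ ≤ ((n + 1 : ℕ) : ℝ) * ∑ j, (n * ∑ i, (W i j / t j) ^ 2) := by
        refine mul_le_mul_of_nonneg_left ?_ (by positivity)
        exact Finset.sum_le_sum fun j _ => h2 j
    _ = (n + 1) * n * ∑ j, ∑ i, (W i j / t j) ^ 2 := by
        rw [← Finset.mul_sum]; push_cast; ring

theorem cplx_aux (γ G E : Fin n → ℂ) (g : Fin n → ℂ) (x a b c : ℂ) (hx : x = a + b + c)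
    (hg : ∀ i, g i = G i - E i) :
    x - ∑ i, γ i * E i = a + b + (c - ∑ i, γ i * G i) + ∑ i, γ i * g i := by
  simp only [hx, hg, mul_sub, Finset.sum_sub_distrib]
  ring

theorem lintegral_sum_gamma_le {k : ℤ} {C : ℝ} (hC : 0 ≤ C) {γ : Fin n → ST n → ℂ}
    (hγ : ∀ i, Measurable (γ i))
    (hloc : ∀ (m : Fin (n + 1) → ℤ) i,
      ∫⁻ z in cube k m, ‖γ i z‖ₑ ^ 2 ≤ ENNReal.ofReal (C * qv n k)) (h : Fin n → L2 n) :
    ∫⁻ z, ‖∑ i, γ i z * Ek k (h i) z‖ₑ ^ 2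
      ≤ ENNReal.ofReal (n * C * ∑ i, ‖Ek k (h i)‖ ^ 2) := by
  have h1 : ∫⁻ z, ‖∑ i, γ i z * Ek k (h i) z‖ₑ ^ 2
      ≤ ∫⁻ z, ENNReal.ofReal n * ∑ i, ‖γ i z * Ek k (h i) z‖ₑ ^ 2 :=
    lintegral_mono fun z => enorm_sum_sq_le _
  have h2 : ∫⁻ z, ENNReal.ofReal n * ∑ i, ‖γ i z * Ek k (h i) z‖ₑ ^ 2
      = ENNReal.ofReal n * ∫⁻ z, ∑ i, ‖γ i z * Ek k (h i) z‖ₑ ^ 2 :=
    lintegral_const_mul' _ _ ENNReal.ofReal_ne_top
  have h3 : ∫⁻ z, ∑ i, ‖γ i z * Ek k (h i) z‖ₑ ^ 2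
      = ∑ i, ∫⁻ z, ‖γ i z * Ek k (h i) z‖ₑ ^ 2 :=
    lintegral_finsetSum' _ fun i _ => ((hγ i).aestronglyMeasurable.mul
      (Lp.aestronglyMeasurable (Ek k (h i)))).enorm.pow_const 2
  have h4 : ∑ i, ∫⁻ z, ‖γ i z * Ek k (h i) z‖ₑ ^ 2
      ≤ ∑ i, ENNReal.ofReal (C * ‖Ek k (h i)‖ ^ 2) :=
    Finset.sum_le_sum fun i _ => lintegral_gamma_Ek_le hC (hγ i) (fun m => hloc m i) _
  have h5 : ENNReal.ofReal n * ∑ i, ENNReal.ofReal (C * ‖Ek k (h i)‖ ^ 2)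
      = ENNReal.ofReal (n * C * ∑ i, ‖Ek k (h i)‖ ^ 2) :=
    ofReal_aux _ _ hC fun i => by positivity
  refine h1.trans (h2.trans_le ?_)
  refine le_trans ?_ h5.le
  refine mul_le_mul_right ?_ _
  exact h3.trans_le h4

theorem norm_inv_real_smul {l : ℝ} (hl : 0 < l) (x : L2 n) : ‖((l : ℂ)⁻¹) • x‖ = l⁻¹ * ‖x‖ := by
  have h1 : ‖((l : ℂ)⁻¹) • x‖ = ‖((l : ℂ)⁻¹)‖ * ‖x‖ := norm_smul _ _
  have h2 : ‖((l : ℂ)⁻¹)‖ = l⁻¹ := by
    rw [norm_inv, Complex.norm_real, Real.norm_eq_abs, abs_of_pos hl]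
  rw [h1, h2]

theorem norm_sg_smul (A : Coef n) {l : ℝ} (hl : 0 < l) (x : L2 n) :
    ‖((A.sg * l : ℝ) : ℂ) • x‖ = l * ‖x‖ := by
  have h1 : ‖((A.sg * l : ℝ) : ℂ) • x‖ = ‖((A.sg * l : ℝ) : ℂ)‖ * ‖x‖ := norm_smul _ _
  have hsg : |A.sg| = 1 := by
    rcases A.sg_eq with h | h <;> rw [h] <;> norm_num
  have h2 : ‖((A.sg * l : ℝ) : ℂ)‖ = l := by
    rw [Complex.norm_real, Real.norm_eq_abs, abs_mul, hsg, one_mul, abs_of_pos hl]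
  rw [h1, h2]

theorem smul_alg (c : ℂ) (u v x y : L2 n) :
    c • ((u - v) - (x - y)) + c • (v - y) = c • (u - x) := by
  have h : ((u - v) - (x - y)) + (v - y) = u - x := by abel
  exact (smul_add c _ _).symm.trans (congrArg (fun t : L2 n => c • t) h)

/-- the estimate at one scale -/
theorem principal_step (A : Coef n) {C : ℝ} (hC : 0 < C) {k : ℤ} {l : ℝ}
    (hl1 : ((2 : ℝ) ^ k)⁻¹ ≤ l) (hl2 : l ≤ 2 * ((2 : ℝ) ^ k)⁻¹) {γ : Fin n → ST n → ℂ}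
    (hγ : ∀ i, Measurable (γ i))
    (hloc : ∀ (m : Fin (n + 1) → ℤ) i,
      ∫⁻ z in cube k m, ‖γ i z‖ₑ ^ 2 ≤ ENNReal.ofReal (C * qv n k))
    (hmain : ∀ (F : Fin n → L2 n) (N : Fin (n + 1) → ℝ),
      (∀ i j (s : ℝ), ‖F i - tr (s • ev j) (F i)‖ ≤ |s| * N j) →
      ∫⁻ z, ‖S A l (A.app F) z - ∑ i, γ i z * Ek k (F i) z‖ₑ ^ 2
        ≤ ENNReal.ofReal ((C * ∑ j, N j / sc k j) ^ 2))
    {u : L2 n} (hu : u ∈ En n) {w : L2 n} (hw : FMul (dsym 0) (Pk k u) w)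
    {W : Fin n → Fin (n + 1) → L2 n}
    (hW : ∀ i j, FMul (dsym j) (Pk k (D i.succ u)) (W i j)) :
    ∫⁻ z, ‖((((l : ℝ) : ℂ)⁻¹ • (u - J A l u) : L2 n) z)
        - ∑ i, γ i z * Ek k (D i.succ u) z‖ₑ ^ 2
      ≤ ENNReal.ofReal (4 * (4 * ((4 : ℝ) ^ k * ‖u - Pk k u‖ ^ 2)
        + 4 * (((4 : ℝ) ^ k)⁻¹ * ‖w‖ ^ 2)
        + C ^ 2 * ((n + 1) * n) * ∑ j, ∑ i, (‖W i j‖ / sc k j) ^ 2
        + n * C * ∑ i : Fin n, ‖Ek k (Pk k (D i.succ u) - D i.succ u)‖ ^ 2)) := by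
  have h2k : (0 : ℝ) < (2 : ℝ) ^ k := by positivity
  have hl : 0 < l := lt_of_lt_of_le (by positivity) hl1
  have hv : Pk k u ∈ En n := En_Pk k u
  obtain ⟨a, ha⟩ : ∃ a : L2 n, a = ((l : ℂ)⁻¹) • ((u - Pk k u) - J A l (u - Pk k u)) := ⟨_, rfl⟩
  obtain ⟨b, hb⟩ : ∃ b : L2 n, b = ((A.sg * l : ℝ) : ℂ) • J A l w := ⟨_, rfl⟩
  obtain ⟨F, hF⟩ : ∃ F : Fin n → L2 n, ∀ i, F i = Pk k (D i.succ u) :=
    ⟨fun i => Pk k (D i.succ u), fun i => rfl⟩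
  obtain ⟨c0, hc0⟩ : ∃ c0 : L2 n, c0 = S A l (A.app F) := ⟨_, rfl⟩
  have hDF : (fun i : Fin n => D i.succ (Pk k u)) = F := by
    funext i
    exact (D_Pk k i.succ hu).trans (hF i).symm
  have key : ((l : ℂ)⁻¹) • (u - J A l u) = a + b + c0 := by
    have h1 := inv_smul_sub_J A hl hv hw
    have h1' : S A l (A.app fun i => D i.succ (Pk k u)) = c0 :=
      (congrArg (fun G : Fin n → L2 n => S A l (A.app G)) hDF).trans hc0.symm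
    have h1'' : ((l : ℂ)⁻¹) • (Pk k u - J A l (Pk k u)) = b + c0 :=
      h1.trans (congrArg₂ (fun x y : L2 n => x + y) hb.symm h1')
    have h3 : J A l (u - Pk k u) = J A l u - J A l (Pk k u) := map_sub _ _ _
    have h4 : a = ((l : ℂ)⁻¹) • ((u - Pk k u) - (J A l u - J A l (Pk k u))) :=
      ha.trans (congrArg (fun t : L2 n => ((l : ℂ)⁻¹) • ((u - Pk k u) - t)) h3)
    have h2 : a + ((l : ℂ)⁻¹) • (Pk k u - J A l (Pk k u)) = ((l : ℂ)⁻¹) • (u - J A l u) :=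
      (congrArg (fun t : L2 n => t + ((l : ℂ)⁻¹) • (Pk k u - J A l (Pk k u))) h4).trans
        (smul_alg _ _ _ _ _)
    exact (h2.symm.trans (congrArg (fun t : L2 n => a + t) h1'')).trans (add_assoc a b c0).symm
  obtain ⟨g, hg⟩ : ∃ g : Fin n → L2 n, ∀ i, g i = Ek k (Pk k (D i.succ u) - D i.succ u) :=
    ⟨fun i => Ek k (Pk k (D i.succ u) - D i.succ u), fun i => rfl⟩
  -- the pointwise identity
  have hpt : ∀ᵐ z ∂(volume : Measure (ST n)),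
      ((((l : ℝ) : ℂ)⁻¹ • (u - J A l u) : L2 n) z) - ∑ i, γ i z * Ek k (D i.succ u) z
        = a z + b z + (c0 z - ∑ i, γ i z * Ek k (F i) z) + ∑ i, γ i z * g i z := by
    have h3 : ∀ i, ∀ᵐ z ∂(volume : Measure (ST n)),
        g i z = Ek k (F i) z - Ek k (D i.succ u) z := by
      intro i
      have h4 : g i = Ek k (F i) - Ek k (D i.succ u) := by
        rw [hg i, hF i]
        exact map_sub _ _ _
      have h5 := Lp.coeFn_sub (Ek k (F i)) (Ek k (D i.succ u))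
      filter_upwards [h5] with z hz
      exact (congrArg (fun t : L2 n => t z) h4).trans hz
    filter_upwards [Lp.coeFn_add (a + b) c0, Lp.coeFn_add a b, ae_all_iff.2 h3] with z h1 h2 h3
    have h6 : ((((l : ℝ) : ℂ)⁻¹ • (u - J A l u) : L2 n) z) = a z + b z + c0 z := by
      refine (congrArg (fun t : L2 n => t z) key).trans (h1.trans ?_)
      exact congrArg (fun t => t + c0 z) h2
    exact cplx_aux (fun i => γ i z) _ _ _ _ _ _ _ h6 h3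
  have hae : ∫⁻ z, ‖((((l : ℝ) : ℂ)⁻¹ • (u - J A l u) : L2 n) z)
        - ∑ i, γ i z * Ek k (D i.succ u) z‖ₑ ^ 2
      ≤ ∫⁻ z, 4 * (‖a z‖ₑ ^ 2 + ‖b z‖ₑ ^ 2 + ‖c0 z - ∑ i, γ i z * Ek k (F i) z‖ₑ ^ 2
          + ‖∑ i, γ i z * g i z‖ₑ ^ 2) := by
    refine lintegral_mono_ae ?_
    filter_upwards [hpt] with z hz
    rw [hz]
    exact enorm_add4_sq_le _ _ _ _
  have ma : AEMeasurable (fun z => ‖a z‖ₑ ^ 2) (volume : Measure (ST n)) :=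
    (Lp.aestronglyMeasurable a).enorm.pow_const 2
  have mb : AEMeasurable (fun z => ‖b z‖ₑ ^ 2) (volume : Measure (ST n)) :=
    (Lp.aestronglyMeasurable b).enorm.pow_const 2
  have msum : ∀ x : Fin n → L2 n, AEStronglyMeasurable (fun z => ∑ i, γ i z * x i z)
      (volume : Measure (ST n)) := by
    intro x
    refine Finset.aestronglyMeasurable_fun_sum _ fun i _ => ?_
    exact (hγ i).aestronglyMeasurable.mul (Lp.aestronglyMeasurable (x i))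
  have mc : AEMeasurable (fun z => ‖c0 z - ∑ i, γ i z * Ek k (F i) z‖ₑ ^ 2)
      (volume : Measure (ST n)) :=
    ((Lp.aestronglyMeasurable c0).sub (msum fun i => Ek k (F i))).enorm.pow_const 2
  have hint : ∫⁻ z, 4 * (‖a z‖ₑ ^ 2 + ‖b z‖ₑ ^ 2 + ‖c0 z - ∑ i, γ i z * Ek k (F i) z‖ₑ ^ 2
          + ‖∑ i, γ i z * g i z‖ₑ ^ 2)
      = 4 * ((∫⁻ z, ‖a z‖ₑ ^ 2) + (∫⁻ z, ‖b z‖ₑ ^ 2)
          + (∫⁻ z, ‖c0 z - ∑ i, γ i z * Ek k (F i) z‖ₑ ^ 2)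
          + ∫⁻ z, ‖∑ i, γ i z * g i z‖ₑ ^ 2) := lintegral_four_mul_add4 ma mb mc
  -- the four terms
  have ta : ∫⁻ z, ‖a z‖ₑ ^ 2 ≤ ENNReal.ofReal (4 * ((4 : ℝ) ^ k * ‖u - Pk k u‖ ^ 2)) := by
    refine (ofReal_norm_sq a).symm.trans_le (ENNReal.ofReal_le_ofReal ?_)
    have h0 : ‖a‖ = l⁻¹ * ‖(u - Pk k u) - J A l (u - Pk k u)‖ :=
      (congrArg (fun t : L2 n => ‖t‖) ha).trans (norm_inv_real_smul hl _)
    have h1 : ‖a‖ ≤ l⁻¹ * (2 * ‖u - Pk k u‖) := by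
      refine h0.trans_le (mul_le_mul_of_nonneg_left ?_ (by positivity))
      have h2 := norm_J_le A hl (u - Pk k u)
      have h3 := norm_sub_le (u - Pk k u) (J A l (u - Pk k u))
      linarith only [h2, h3]
    have h2 : l⁻¹ ≤ (2 : ℝ) ^ k := (inv_le_comm₀ hl h2k).2 hl1
    have h3 : ‖a‖ ≤ (2 : ℝ) ^ k * (2 * ‖u - Pk k u‖) :=
      h1.trans (mul_le_mul_of_nonneg_right h2 (by positivity))
    exact real_aux1 k (norm_nonneg _) h3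
  have tb : ∫⁻ z, ‖b z‖ₑ ^ 2 ≤ ENNReal.ofReal (4 * (((4 : ℝ) ^ k)⁻¹ * ‖w‖ ^ 2)) := by
    refine (ofReal_norm_sq b).symm.trans_le (ENNReal.ofReal_le_ofReal ?_)
    have h0 : ‖b‖ = l * ‖J A l w‖ :=
      (congrArg (fun t : L2 n => ‖t‖) hb).trans (norm_sg_smul A hl _)
    have h1 : ‖b‖ ≤ l * ‖w‖ :=
      h0.trans_le (mul_le_mul_of_nonneg_left (norm_J_le A hl w) hl.le)
    have h3 : ‖b‖ ≤ 2 * ((2 : ℝ) ^ k)⁻¹ * ‖w‖ :=
      h1.trans (mul_le_mul_of_nonneg_right hl2 (norm_nonneg _))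
    exact real_aux2 k (norm_nonneg _) h3
  have tc : ∫⁻ z, ‖c0 z - ∑ i, γ i z * Ek k (F i) z‖ₑ ^ 2
      ≤ ENNReal.ofReal (C ^ 2 * ((n + 1) * n) * ∑ j, ∑ i, (‖W i j‖ / sc k j) ^ 2) := by
    rw [hc0]
    refine (hmain F (fun j => ∑ i, ‖W i j‖) ?_).trans (ENNReal.ofReal_le_ofReal
      (real_aux3 C (fun i j => ‖W i j‖) (sc k)))
    intro i j s
    rw [hF i]
    refine (norm_tr_sub_le_of_FMul (hW i j) s).trans ?_
    refine mul_le_mul_of_nonneg_left ?_ (abs_nonneg _)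
    exact Finset.single_le_sum (f := fun i => ‖W i j‖) (fun i _ => norm_nonneg _)
      (Finset.mem_univ i)
  have td : ∫⁻ z, ‖∑ i, γ i z * g i z‖ₑ ^ 2
      ≤ ENNReal.ofReal (n * C * ∑ i : Fin n, ‖Ek k (Pk k (D i.succ u) - D i.succ u)‖ ^ 2) := by
    have h1 : g = fun i => Ek k (Pk k (D i.succ u) - D i.succ u) := funext hg
    rw [h1]
    exact lintegral_sum_gamma_le hC.le hγ hloc _
  refine hae.trans (hint.trans_le ?_)
  have hs0 : ∀ j : Fin (n + 1), 0 < sc k j := sc_pos k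
  refine le_trans ?_ (ofReal_four_mul_add4 (by positivity) (by positivity) (by positivity)
    (by positivity)).ge
  exact four_mul_add4_le ta tb tc td

theorem exists_isGam (A : Coef n) : ∃ C : ℝ, 0 < C ∧ ∀ s : ℝ, 1 ≤ s → s ≤ 2 →
    ∃ γ : ℤ → Fin n → ST n → ℂ, IsGam A C s γ := by
  obtain ⟨C₀, hC₀, hG⟩ := exists_gamma A
  obtain ⟨C₁, hC₁, hP⟩ := exists_FMul_Pk n
  obtain ⟨C₂, hC₂, hsub⟩ := exists_sum_sub_Pk n
  obtain ⟨C₃, hC₃, hdt⟩ := exists_sum_dt_Pk n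
  obtain ⟨C₄, hC₄, hd⟩ := exists_sum_d_Pk n
  obtain ⟨C₅, hC₅, hsch⟩ := exists_schur n
  refine ⟨C₀ + 4 * (4 * C₂ + 4 * C₃ + C₀ ^ 2 * ((n + 1) * n) * ((n + 1) * C₄) + n * C₀ * C₅),
    by positivity, ?_⟩
  intro s hs1 hs2
  have hb : ∀ k : ℤ, ((2 : ℝ) ^ k)⁻¹ ≤ s * ((2 : ℝ) ^ k)⁻¹ ∧
      s * ((2 : ℝ) ^ k)⁻¹ ≤ 2 * ((2 : ℝ) ^ k)⁻¹ := by
    intro k
    have h2k : (0 : ℝ) < ((2 : ℝ) ^ k)⁻¹ := by positivity
    constructor
    · nlinarith only [hs1, h2k]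
    · nlinarith only [hs2, h2k]
  choose γ hγ hloc hmain using fun k => hG k (s * ((2 : ℝ) ^ k)⁻¹) (hb k).1 (hb k).2
  refine ⟨γ, hγ, ?_, ?_⟩
  · intro k m i
    refine (hloc k m i).trans (ENNReal.ofReal_le_ofReal ?_)
    refine mul_le_mul_of_nonneg_right ?_ (qv_pos n k).le
    have : 0 ≤ 4 * (4 * C₂ + 4 * C₃ + C₀ ^ 2 * ((n + 1) * n) * ((n + 1) * C₄)
      + n * C₀ * C₅) := by positivity
    linarith only [this]
  · intro u hu K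
    choose w hw _ using fun k => hP k 0 u
    choose W hW _ using fun (k : ℤ) (i : Fin n) (j : Fin (n + 1)) => hP k j (D i.succ u)
    have hstep : ∀ k ∈ K, ∫⁻ z, ‖((((s * ((2 : ℝ) ^ k)⁻¹ : ℝ) : ℂ)⁻¹ •
          (u - J A (s * ((2 : ℝ) ^ k)⁻¹) u) : L2 n) z)
          - ∑ i, γ k i z * Ek k (D i.succ u) z‖ₑ ^ 2 ≤ _ := fun k _ =>
      principal_step A hC₀ (hb k).1 (hb k).2 (hγ k) (hloc k) (hmain k) hu (hw k) (hW k)
    refine (Finset.sum_le_sum hstep).trans ?_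
    have hs0 : ∀ (k : ℤ) (j : Fin (n + 1)), 0 < sc k j := sc_pos
    rw [← ENNReal.ofReal_sum_of_nonneg (fun k _ => by positivity)]
    refine ENNReal.ofReal_le_ofReal ?_
    have hE := eD_nonneg u
    have hg : ∑ i : Fin n, ‖D i.succ u‖ ^ 2 ≤ eD u := by
      rw [eD_eq, gD]
      have : 0 ≤ ‖D 0 u‖ ^ 2 := by positivity
      linarith only [this]
    have s1 := hsub u hu K
    have s2 := hdt u hu K w hw
    have s3 : ∑ k ∈ K, ∑ j, ∑ i, (‖W k i j‖ / sc k j) ^ 2 ≤ (n + 1) * C₄ * eD u := by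
      rw [Finset.sum_comm]
      have h1 : ∀ j : Fin (n + 1), ∑ k ∈ K, ∑ i, (‖W k i j‖ / sc k j) ^ 2 ≤ C₄ * eD u := by
        intro j
        rw [Finset.sum_comm]
        calc ∑ i, ∑ k ∈ K, (‖W k i j‖ / sc k j) ^ 2
            ≤ ∑ i : Fin n, C₄ * ‖D i.succ u‖ ^ 2 :=
              Finset.sum_le_sum fun i _ => hd (D i.succ u) j K (fun k => W k i j)
                (fun k => hW k i j)
          _ = C₄ * ∑ i : Fin n, ‖D i.succ u‖ ^ 2 := by rw [Finset.mul_sum]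
          _ ≤ C₄ * eD u := mul_le_mul_of_nonneg_left hg hC₄.le
      calc ∑ j, ∑ k ∈ K, ∑ i, (‖W k i j‖ / sc k j) ^ 2
          ≤ ∑ _j : Fin (n + 1), C₄ * eD u := Finset.sum_le_sum fun j _ => h1 j
        _ = (n + 1) * C₄ * eD u := by
            rw [Finset.sum_const, Finset.card_univ, Fintype.card_fin, nsmul_eq_mul]
            push_cast; ring
    have s4 : ∑ k ∈ K, ∑ i : Fin n, ‖Ek k (Pk k (D i.succ u) - D i.succ u)‖ ^ 2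
        ≤ C₅ * eD u := by
      rw [Finset.sum_comm]
      calc ∑ i : Fin n, ∑ k ∈ K, ‖Ek k (Pk k (D i.succ u) - D i.succ u)‖ ^ 2
          ≤ ∑ i : Fin n, C₅ * ‖D i.succ u‖ ^ 2 :=
            Finset.sum_le_sum fun i _ => hsch K (D i.succ u)
        _ = C₅ * ∑ i : Fin n, ‖D i.succ u‖ ^ 2 := by rw [Finset.mul_sum]
        _ ≤ C₅ * eD u := mul_le_mul_of_nonneg_left hg hC₅.le
    rw [← Finset.mul_sum, Finset.sum_add_distrib, Finset.sum_add_distrib,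
      Finset.sum_add_distrib, ← Finset.mul_sum, ← Finset.mul_sum, ← Finset.mul_sum,
      ← Finset.mul_sum]
    have t3 : C₀ ^ 2 * ((n + 1) * n) * ∑ k ∈ K, ∑ j, ∑ i, (‖W k i j‖ / sc k j) ^ 2
        ≤ C₀ ^ 2 * ((n + 1) * n) * ((n + 1) * C₄ * eD u) :=
      mul_le_mul_of_nonneg_left s3 (by positivity)
    have t4 : n * C₀ * ∑ k ∈ K, ∑ i : Fin n, ‖Ek k (Pk k (D i.succ u) - D i.succ u)‖ ^ 2
        ≤ n * C₀ * (C₅ * eD u) := mul_le_mul_of_nonneg_left s4 (by positivity)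
    have h0 : 0 ≤ C₀ * eD u := by positivity
    have hfin : 4 * (4 * (C₂ * eD u) + 4 * (C₃ * eD u)
        + C₀ ^ 2 * ((n + 1) * n) * ((n + 1) * C₄ * eD u) + n * C₀ * (C₅ * eD u))
        ≤ (C₀ + 4 * (4 * C₂ + 4 * C₃ + C₀ ^ 2 * ((n + 1) * n) * ((n + 1) * C₄)
          + n * C₀ * C₅)) * eD u := by
      have e : (C₀ + 4 * (4 * C₂ + 4 * C₃ + C₀ ^ 2 * ((n + 1) * n) * ((n + 1) * C₄)
          + n * C₀ * C₅)) * eD u = C₀ * eD u + 4 * (4 * (C₂ * eD u) + 4 * (C₃ * eD u)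
        + C₀ ^ 2 * ((n + 1) * n) * ((n + 1) * C₄ * eD u) + n * C₀ * (C₅ * eD u)) := by ring
      rw [e]
      linarith only [h0]
    refine le_trans ?_ hfin
    refine mul_le_mul_of_nonneg_left ?_ (by norm_num)
    exact add_le_add (add_le_add (add_le_add (mul_le_mul_of_nonneg_left s1 (by norm_num))
      (mul_le_mul_of_nonneg_left s2 (by norm_num))) t3) t4

end

end Pool.Agent.W_eb6199
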