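import Pool.Agent.W_eb6199.ResCont

open MeasureTheory Complex Filter Topology
open scoped FourierTransform ComplexInnerProductSpace ENNReal NNReal

namespace Pool.Agent.W_eb6199

noncomputable section

variable {n : ℕ}

/-! T38: uniform `L²` bounds of the truncated Riesz transforms. -/

/-- multipliers commute with integrals -/
theorem FMul_intervalIntegral {m : ST n → ℂ} (hm : Measurable m) {a b : ℝ} (hab : a ≤ b)
    {u w : ℝ → L2 n} (hu : IntervalIntegrable u volume a b)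
    (hw : IntervalIntegrable w volume a b) (h : ∀ l ∈ Set.Icc a b, FMul m (u l) (w l)) :
    FMul m (∫ l in a..b, u l) (∫ l in a..b, w l) := by
  let s : ℕ → Set (ST n) := fun N => {ζ | ‖m ζ‖ ≤ (N : ℝ)}
  have hs : ∀ N, MeasurableSet (s N) := fun N => measurableSet_le hm.norm measurable_const
  have hp : ∀ N, BM (ind (s N)) := fun N => BM.ind (hs N)
  have hpm : ∀ N, BM fun ζ => ind (s N) ζ * m ζ := by
    intro N
    refine ⟨(hp N).meas.mul hm, N, fun z => ?_⟩
    by_cases hz : z ∈ s N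
    · have h1 : ind (s N) z = 1 := Set.indicator_of_mem hz _
      rw [h1, one_mul]
      exact hz
    · have h1 : ind (s N) z = 0 := Set.indicator_of_notMem hz _
      rw [h1, zero_mul, norm_zero]
      exact Nat.cast_nonneg N
  have key : ∀ N, fOp (ind (s N)) (∫ l in a..b, w l)
      = fOp (fun ζ => ind (s N) ζ * m ζ) (∫ l in a..b, u l) := by
    intro N
    rw [← ContinuousLinearMap.intervalIntegral_comp_comm _ hw,
      ← ContinuousLinearMap.intervalIntegral_comp_comm _ hu]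
    refine intervalIntegral.integral_congr fun l hl => ?_
    rw [Set.uIcc_of_le hab] at hl
    exact (h l hl).fOp_mul (hp N) (hpm N)
  have hae : ∀ᵐ ζ ∂(volume : Measure (ST n)), ∀ N : ℕ,
      ind (s N) ζ * (𝓕 (∫ l in a..b, w l : L2 n) : L2 n) ζ
        = (ind (s N) ζ * m ζ) * (𝓕 (∫ l in a..b, u l : L2 n) : L2 n) ζ := by
    rw [ae_all_iff]
    intro N
    have h1 := fourier_fOp_coe (hp N) (∫ l in a..b, w l)
    have h2 := fourier_fOp_coe (hpm N) (∫ l in a..b, u l)
    rw [key N] at h1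
    filter_upwards [h1, h2] with ζ h3 h4
    rw [← h3, ← h4]
  unfold FMul
  filter_upwards [hae] with ζ hζ
  obtain ⟨N, hN⟩ := exists_nat_ge ‖m ζ‖
  have h1 : ind (s N) ζ = 1 := Set.indicator_of_mem (show ζ ∈ s N from hN) _
  have h2 := hζ N
  rw [h1, one_mul, one_mul] at h2
  exact h2

theorem Icc_subset_Ioi_of_pos {a b : ℝ} (ha : 0 < a) : Set.Icc a b ⊆ Set.Ioi (0 : ℝ) :=
  fun _ hx => ha.trans_le hx.1

theorem intervalIntegrable_Jpow (A : Coef n) {a b : ℝ} (ha : 0 < a) (hab : a ≤ b) (k : ℕ)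
    (f : L2 n) : IntervalIntegrable (fun l : ℝ => (J A l ^ k) f) volume a b := by
  refine ContinuousOn.intervalIntegrable ?_
  rw [Set.uIcc_of_le hab]
  exact (continuousOn_Jpow A k f).mono (Icc_subset_Ioi_of_pos ha)

theorem intervalIntegrable_D_Jpow (A : Coef n) {a b : ℝ} (ha : 0 < a) (hab : a ≤ b) (k : ℕ)
    (hk : k ≠ 0) (j : Fin (n + 1)) (f : L2 n) :
    IntervalIntegrable (fun l : ℝ => D j ((J A l ^ k) f)) volume a b := by
  refine ContinuousOn.intervalIntegrable ?_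
  rw [Set.uIcc_of_le hab]
  exact (continuousOn_D_Jpow A k hk j f).mono (Icc_subset_Ioi_of_pos ha)

theorem Jpow_mem_En (A : Coef n) {l : ℝ} (hl : 0 < l) {k : ℕ} (hk : k ≠ 0) (f : L2 n) :
    (J A l ^ k) f ∈ En n := by
  obtain ⟨k', rfl⟩ := Nat.exists_eq_succ_of_ne_zero hk
  rw [pow_succ']
  exact J_mem A hl _

theorem integral_J_mem (A : Coef n) {a b : ℝ} (ha : 0 < a) (hab : a ≤ b) (k : ℕ) (hk : k ≠ 0)
    (f : L2 n) : (∫ l in a..b, (J A l ^ k) f) ∈ En n ∧
      ∀ j, D j (∫ l in a..b, (J A l ^ k) f) = ∫ l in a..b, D j ((J A l ^ k) f) := by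
  have key : ∀ j : Fin (n + 1), FMul (gsym j) (∫ l in a..b, (J A l ^ k) f)
      (∫ l in a..b, D j ((J A l ^ k) f)) := by
    intro j
    refine FMul_intervalIntegral (measurable_gsym j) hab (intervalIntegrable_Jpow A ha hab k f)
      (intervalIntegrable_D_Jpow A ha hab k hk j f) fun l hl => ?_
    exact FMul_D (Jpow_mem_En A (ha.trans_le hl.1) hk f) j
  exact ⟨fun j => ⟨_, key j⟩, fun j => D_eq (key j)⟩

/-- abstract form of the integration -/
theorem integral_succ_aux {E : Type*} [NormedAddCommGroup E] [NormedSpace ℝ E] [NormedSpace ℂ E]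
    [IsScalarTower ℝ ℂ E] [CompleteSpace E] {a b κ : ℝ} (ha : 0 < a) (hab : a ≤ b)
    {y z : ℝ → E} (hy : IntervalIntegrable y volume a b) (hz : IntervalIntegrable z volume a b)
    (hd : ∀ x, 0 < x → HasDerivAt y (-((κ / x : ℝ) : ℂ) • (y x - z x)) x) :
    (κ : ℂ) • ∫ l in a..b, z l
      = ((κ - 1 : ℝ) : ℂ) • (∫ l in a..b, y l) + ((b : ℂ) • y b - (a : ℂ) • y a) := by
  have hd' : ∀ x ∈ Set.uIcc a b, HasDerivAt (fun l : ℝ => (l : ℂ) • y l)
      ((-((κ - 1 : ℝ) : ℂ)) • y x + (κ : ℂ) • z x) x := by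
    intro x hx
    rw [Set.uIcc_of_le hab] at hx
    have hx0 : 0 < x := ha.trans_le hx.1
    have h1 : HasDerivAt (fun l : ℝ => (l : ℂ) • y l)
        ((x : ℂ) • (-((κ / x : ℝ) : ℂ) • (y x - z x)) + (1 : ℂ) • y x) x :=
      ((hasDerivAt_id x).ofReal_comp).smul (hd x hx0)
    refine h1.congr_deriv ?_
    have hxc : (x : ℂ) ≠ 0 := by exact_mod_cast hx0.ne'
    have h3 : (x : ℂ) * -((κ / x : ℝ) : ℂ) = -(κ : ℂ) := by
      push_cast
      field_simp
    rw [smul_smul, h3]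
    have h4 : ((κ - 1 : ℝ) : ℂ) = (κ : ℂ) - 1 := by push_cast; ring
    rw [h4]
    module
  have hi1 : IntervalIntegrable (fun l => (-((κ - 1 : ℝ) : ℂ)) • y l) volume a b :=
    hy.smul (-((κ - 1 : ℝ) : ℂ))
  have hi2 : IntervalIntegrable (fun l => (κ : ℂ) • z l) volume a b := hz.smul (κ : ℂ)
  have h := intervalIntegral.integral_eq_sub_of_hasDerivAt hd' (hi1.add hi2)
  rw [intervalIntegral.integral_add hi1 hi2, intervalIntegral.integral_smul,
    intervalIntegral.integral_smul] at h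
  rw [← h]
  module

/-- integration of `d/dl (l J_l^k) = (1-2k) J_l^k + 2k J_l^{k+1}` -/
theorem integral_Jpow_succ (A : Coef n) {a b : ℝ} (ha : 0 < a) (hab : a ≤ b) (k : ℕ) (f : L2 n) :
    ((2 * k : ℝ) : ℂ) • ∫ l in a..b, (J A l ^ (k + 1)) f
      = ((2 * k - 1 : ℝ) : ℂ) • (∫ l in a..b, (J A l ^ k) f)
        + ((b : ℂ) • (J A b ^ k) f - (a : ℂ) • (J A a ^ k) f) :=
  integral_succ_aux ha hab (intervalIntegrable_Jpow A ha hab k f)
    (intervalIntegrable_Jpow A ha hab (k + 1) f) fun _ hx => hasDerivAt_Jpow A hx k f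

end

end Pool.Agent.W_eb6199
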