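import Pool.Agent.W_eb6199.RBound
import Pool.Agent.W_eb6199.KatoInt
import Pool.Agent.W_eb6199.ElemSF

open MeasureTheory Complex Filter Topology
open scoped FourierTransform ComplexInnerProductSpace ENNReal NNReal

namespace Pool.Agent.W_eb6199

noncomputable section

variable {n : ℕ}

/-! uniform bounds of the truncated Riesz transforms. -/

/-- the form as a continuous linear functional of the parabolic gradient -/
def formCLM (A : Coef n) (v : L2 n) : (Fin (n + 1) → L2 n) →L[ℂ] ℂ :=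
  (A.sg : ℂ) • (((innerSL ℂ (D 0 v)).comp Ht).comp (ContinuousLinearMap.proj 0))
    + ∑ i : Fin n, ∑ j : Fin n,
      (((innerSL ℂ (D i.succ v)).comp (A.mul i j)).comp (ContinuousLinearMap.proj j.succ))

theorem formCLM_apply (A : Coef n) (u v : L2 n) :
    formCLM A v (fun j => D j u) = form A u v := by
  unfold formCLM form Coef.app
  simp only [ContinuousLinearMap.add_apply, ContinuousLinearMap.smul_apply,
    ContinuousLinearMap.comp_apply, ContinuousLinearMap.proj_apply, innerSL_apply_apply,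
    ContinuousLinearMap.sum_apply, smul_eq_mul, inner_sum]

theorem uIcc_subset_Ioi {a b : ℝ} (ha : 0 < a) (hab : a ≤ b) : Set.uIcc a b ⊆ Set.Ioi 0 := by
  rw [Set.uIcc_of_le hab]
  intro x hx
  exact ha.trans_le hx.1

/-- the form of `∫ (J²f - J³f) dl` -/
theorem form_integral (A : Coef n) {a b : ℝ} (ha : 0 < a) (hab : a ≤ b) (f v : L2 n) :
    form A ((∫ l in a..b, (J A l ^ 2) f) - ∫ l in a..b, (J A l ^ 3) f) v
      = ∫ l in a..b, form A ((J A l ^ 2) f - (J A l ^ 3) f) v := by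
  have hsub := uIcc_subset_Ioi ha hab
  obtain ⟨h2, h2'⟩ := integral_J_mem A ha hab 2 (by norm_num) f
  obtain ⟨h3, h3'⟩ := integral_J_mem A ha hab 3 (by norm_num) f
  have hc2 : ∀ j, IntervalIntegrable (fun l => D j ((J A l ^ 2) f)) volume a b := fun j =>
    ((continuousOn_D_Jpow A 2 (by norm_num) j f).mono hsub).intervalIntegrable
  have hc3 : ∀ j, IntervalIntegrable (fun l => D j ((J A l ^ 3) f)) volume a b := fun j =>
    ((continuousOn_D_Jpow A 3 (by norm_num) j f).mono hsub).intervalIntegrable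
  have hD : ∀ j, D j ((∫ l in a..b, (J A l ^ 2) f) - ∫ l in a..b, (J A l ^ 3) f)
      = ∫ l in a..b, (D j ((J A l ^ 2) f) - D j ((J A l ^ 3) f)) := by
    intro j
    rw [D_sub j h2 h3, h2' j, h3' j, intervalIntegral.integral_sub (hc2 j) (hc3 j)]
  have hcont : ContinuousOn (fun l => fun j : Fin (n + 1) =>
      (D j ((J A l ^ 2) f) - D j ((J A l ^ 3) f) : L2 n)) (Set.uIcc a b) := by
    rw [continuousOn_pi]
    intro j
    exact ((continuousOn_D_Jpow A 2 (by norm_num) j f).sub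
      (continuousOn_D_Jpow A 3 (by norm_num) j f)).mono hsub
  have hint := hcont.intervalIntegrable (μ := volume)
  have hpi : (fun j => D j ((∫ l in a..b, (J A l ^ 2) f) - ∫ l in a..b, (J A l ^ 3) f))
      = ∫ l in a..b, fun j : Fin (n + 1) =>
        (D j ((J A l ^ 2) f) - D j ((J A l ^ 3) f) : L2 n) := by
    funext j
    rw [hD j]
    exact (ContinuousLinearMap.intervalIntegral_comp_comm
      (ContinuousLinearMap.proj (R := ℂ) (φ := fun _ : Fin (n + 1) => L2 n) j) hint)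
  rw [← formCLM_apply, hpi, ← ContinuousLinearMap.intervalIntegral_comp_comm _ hint]
  refine intervalIntegral.integral_congr fun l hl => ?_
  have hl0 : 0 < l := hsub hl
  have e2 : (J A l ^ 2) f ∈ En n := by
    rw [pow_succ']
    exact J_mem A hl0 _
  have e3 : (J A l ^ 3) f ∈ En n := by
    rw [pow_succ']
    exact J_mem A hl0 _
  rw [← formCLM_apply]
  congr 1
  funext j
  rw [D_sub j e2 e3]

private theorem formJJ_alg {E : Type*} [NormedAddCommGroup E] [InnerProductSpace ℂ E] {l : ℝ}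
    (hl : 0 < l) {v Jv g Jg : E} (h3 : ⟪v, Jg⟫ = ⟪Jv, g⟫) :
    ⟪v, ((l : ℂ) ^ 2)⁻¹ • (g - Jg)⟫ = (l : ℂ)⁻¹ * ⟪((l : ℂ)⁻¹ • (v - Jv) : E), g⟫ := by
  have hl' : (l : ℂ) ≠ 0 := by exact_mod_cast hl.ne'
  rw [inner_smul_right, inner_sub_right, h3, inner_smul_left, inner_sub_left]
  simp only [map_inv₀, conj_ofReal]
  field_simp

theorem form_JJ (A : Coef n) {l : ℝ} (hl : 0 < l) (f : L2 n) {v : L2 n} (hv : v ∈ En n) :
    form A ((J A l ^ 2) f - (J A l ^ 3) f) v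
      = (l : ℂ)⁻¹ * ⟪((l : ℂ)⁻¹ • (v - J A.adj l v) : L2 n), J A l f - J A l (J A l f)⟫ := by
  have h1 : (J A l ^ 2) f - (J A l ^ 3) f = J A l (J A l f - J A l (J A l f)) :=
    (map_sub (J A l) (J A l f) (J A l (J A l f))).symm
  obtain ⟨g, hg⟩ : ∃ g, g = J A l f - J A l (J A l f) := ⟨_, rfl⟩
  rw [← hg] at h1 ⊢
  have h2 := (InDom_J A hl g).2 v hv
  have h3 : ⟪v, J A l g⟫ = ⟪J A.adj l v, g⟫ := by
    rw [← inner_conj_symm, inner_J A hl, inner_conj_symm]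
  exact (congrArg (fun z => form A z v) h1).trans (h2.trans (formJJ_alg hl h3))

theorem eD_coercive_le {δ : ℝ} (hδ : 0 < δ) (hδ1 : δ ≤ 1) (A : Coef n) {w : L2 n}
    (hw : w ∈ En n) :
    w + ((δ * A.sg : ℝ) : ℂ) • Ht w ∈ En n ∧
    eD (w + ((δ * A.sg : ℝ) : ℂ) • Ht w) ≤ 4 * eD w := by
  have hH := En_Ht hw
  have hsg : |A.sg| = 1 := by
    rcases A.sg_eq with h | h <;> rw [h] <;> simp
  refine ⟨En_add hw (En_smul _ hH), ?_⟩
  unfold eD
  rw [Finset.mul_sum]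
  refine Finset.sum_le_sum fun j _ => ?_
  have e1 : D j (w + ((δ * A.sg : ℝ) : ℂ) • Ht w) = D j w + ((δ * A.sg : ℝ) : ℂ) • Ht (D j w) :=
    (D_add j hw (En_smul _ hH)).trans
      (congrArg (fun z => D j w + z) ((D_smul j _ hH).trans (congrArg (fun z => _ • z) (D_Ht j hw))))
  have h1 : ‖D j w + ((δ * A.sg : ℝ) : ℂ) • Ht (D j w)‖ ≤ 2 * ‖D j w‖ := by
    have h2 := norm_Ht_le (D j w)
    generalize Ht (D j w) = y at h2 ⊢
    generalize D j w = x at h2 ⊢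
    refine (norm_add_le _ _).trans ?_
    rw [norm_smul, Complex.norm_real, Real.norm_eq_abs, abs_mul, hsg, mul_one, abs_of_pos hδ]
    have h0' := norm_nonneg y
    nlinarith only [hδ1, h2, h0']
  calc ‖D j (w + ((δ * A.sg : ℝ) : ℂ) • Ht w)‖ ^ 2
      = ‖D j w + ((δ * A.sg : ℝ) : ℂ) • Ht (D j w)‖ ^ 2 := congrArg (fun z => ‖z‖ ^ 2) e1
    _ ≤ (2 * ‖D j w‖) ^ 2 := pow_le_pow_left₀ (norm_nonneg _) h1 2
    _ = 4 * ‖D j w‖ ^ 2 := by ring

private theorem norm_inv_mul_aux {l : ℝ} (hl : 0 < l) (z : ℂ) : ‖(l : ℂ)⁻¹ * z‖ = l⁻¹ * ‖z‖ := by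
  rw [norm_mul, norm_inv, Complex.norm_real, Real.norm_eq_abs, abs_of_pos hl]

private theorem amgm_aux {t l X Y z : ℝ} (ht : 0 < t) (hl : 0 < l) (hz : z ≤ X * Y) :
    l⁻¹ * z ≤ t / 2 * (X ^ 2 / l) + 1 / (2 * t) * (Y ^ 2 / l) := by
  have hamgm : X * Y ≤ t / 2 * X ^ 2 + 1 / (2 * t) * Y ^ 2 := by
    have h0 : 0 ≤ (t * X - Y) ^ 2 / (2 * t) := by positivity
    have h1 : (t * X - Y) ^ 2 / (2 * t)
      = t / 2 * X ^ 2 + 1 / (2 * t) * Y ^ 2 - X * Y := by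
      field_simp
      ring
    linarith only [h0, h1]
  calc l⁻¹ * z ≤ l⁻¹ * (t / 2 * X ^ 2 + 1 / (2 * t) * Y ^ 2) :=
        mul_le_mul_of_nonneg_left (hz.trans hamgm) (inv_nonneg.2 hl.le)
    _ = t / 2 * (X ^ 2 / l) + 1 / (2 * t) * (Y ^ 2 / l) := by
        field_simp

private theorem fin_aux {c K W Fn R : ℝ} (hc : 0 < c) (hK : 0 < K) (h1 : c * W ≤ R)
    (h2 : R ≤ c / (4 * K) / 2 * (K * (4 * W)) + 1 / (2 * (c / (4 * K))) * ((1 / 4) * Fn)) :
    W ≤ K / c ^ 2 * Fn := by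
  have hs1 : c / (4 * K) / 2 * (K * (4 * W)) = c / 2 * W := by
    field_simp
    try ring
  have hs2 : 1 / (2 * (c / (4 * K))) * ((1 / 4) * Fn) = K / (2 * c) * Fn := by
    field_simp
    try ring
  rw [hs1, hs2] at h2
  have : c / 2 * W ≤ K / (2 * c) * Fn := by linarith only [h1, h2]
  have h5 : W ≤ (K / (2 * c) * Fn) / (c / 2) := by
    rw [le_div_iff₀ (by positivity)]
    linarith only [this]
  refine h5.trans (le_of_eq ?_)
  field_simp

/-- the integral estimate behind `exists_w_bound` -/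
private theorem w_bound_aux {a b : ℝ} (ha : 0 < a) (hab : a ≤ b) {t : ℝ} (ht : 0 < t)
    {Φ : ℝ → ℂ} {X Y : ℝ → ℝ} (hX : ContinuousOn X (Set.uIcc a b)) (hY : ContinuousOn Y (Set.uIcc a b))
    (hΦ : ContinuousOn Φ (Set.uIcc a b)) (hb : ∀ l, 0 < l → ∃ z : ℂ, Φ l = (l : ℂ)⁻¹ * z ∧ ‖z‖ ≤ X l * Y l)
    {p q : ℝ} (hp : ∫ l in a..b, X l ^ 2 / l ≤ p) (hq : ∫ l in a..b, Y l ^ 2 / l ≤ q) :
    (∫ l in a..b, Φ l).re ≤ t / 2 * p + 1 / (2 * t) * q := by
  have hsub := uIcc_subset_Ioi ha hab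
  have hid : ContinuousOn (fun l : ℝ => l) (Set.uIcc a b) := continuousOn_id
  have hne : ∀ l ∈ Set.uIcc a b, l ≠ 0 := fun l hl => ne_of_gt (hsub hl)
  have hF1 : ContinuousOn (fun l : ℝ => X l ^ 2 / l) (Set.uIcc a b) := (hX.pow 2).div hid hne
  have hF2 : ContinuousOn (fun l : ℝ => Y l ^ 2 / l) (Set.uIcc a b) := (hY.pow 2).div hid hne
  refine (Complex.re_le_norm _).trans ?_
  calc ‖∫ l in a..b, Φ l‖ ≤ ∫ l in a..b, ‖Φ l‖ :=
          intervalIntegral.norm_integral_le_integral_norm hab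
      _ ≤ ∫ l in a..b, (t / 2 * (X l ^ 2 / l) + 1 / (2 * t) * (Y l ^ 2 / l)) := by
          refine intervalIntegral.integral_mono_on hab hΦ.norm.intervalIntegrable
            ((continuousOn_const.mul hF1).add (continuousOn_const.mul hF2)).intervalIntegrable ?_
          intro l hl
          have hl0 : 0 < l := ha.trans_le hl.1
          obtain ⟨z, hz, hz'⟩ := hb l hl0
          rw [hz, norm_inv_mul_aux hl0]
          exact amgm_aux ht hl0 hz'
      _ = t / 2 * (∫ l in a..b, X l ^ 2 / l) + 1 / (2 * t) * ∫ l in a..b, Y l ^ 2 / l := by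
          rw [← intervalIntegral.integral_const_mul, ← intervalIntegral.integral_const_mul]
          exact intervalIntegral.integral_add (hF1.intervalIntegrable.const_mul _)
            (hF2.intervalIntegrable.const_mul _)
      _ ≤ _ := add_le_add (mul_le_mul_of_nonneg_left hp (by positivity))
            (mul_le_mul_of_nonneg_left hq (by positivity))

theorem exists_w_bound (A : Coef n) : ∃ C : ℝ, 0 < C ∧ ∀ a b : ℝ, 0 < a → a ≤ b →
    ∀ (f : L2 n),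
    eD ((∫ l in a..b, (J A l ^ 2) f) - ∫ l in a..b, (J A l ^ 3) f) ≤ C * ‖f‖ ^ 2 := by
  obtain ⟨δ, c, hδ, hδ1, hc, hc1, hcoer⟩ := exists_coercive A
  obtain ⟨K, hK, hkato⟩ := exists_kato_int A.adj
  refine ⟨K / c ^ 2, by positivity, fun a b ha hab f => ?_⟩
  have hsub := uIcc_subset_Ioi ha hab
  obtain ⟨h2, -⟩ := integral_J_mem A ha hab 2 (by norm_num) f
  obtain ⟨h3, -⟩ := integral_J_mem A ha hab 3 (by norm_num) f
  obtain ⟨w, hwdef⟩ : ∃ w, w = (∫ l in a..b, (J A l ^ 2) f) - ∫ l in a..b, (J A l ^ 3) f := ⟨_, rfl⟩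
  have hw : w ∈ En n := hwdef ▸ En_sub h2 h3
  refine le_of_eq_of_le (congrArg eD hwdef).symm ?_
  have hco := hcoer w hw
  obtain ⟨hv, hve⟩ := eD_coercive_le hδ hδ1 A hw
  obtain ⟨v, hvdef⟩ : ∃ v, v = w + ((δ * A.sg : ℝ) : ℂ) • Ht w := ⟨_, rfl⟩
  rw [← hvdef] at hv hve hco
  have hJ1 : ∀ (A' : Coef n) (g : L2 n), ContinuousOn (fun l : ℝ => J A' l g) (Set.uIcc a b) := by
    intro A' g
    have := (continuousOn_Jpow A' 1 g).mono hsub
    simpa using this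
  have hJ2 : ContinuousOn (fun l : ℝ => J A l (J A l f)) (Set.uIcc a b) :=
    (continuousOn_Jpow A 2 f).mono hsub
  have hne : ∀ l ∈ Set.uIcc a b, l ≠ 0 := fun l hl => ne_of_gt (hsub hl)
  have hcinv : ContinuousOn (fun l : ℝ => ((l : ℂ))⁻¹) (Set.uIcc a b) := by
    refine (Complex.continuous_ofReal.continuousOn).inv₀ fun l hl => ?_
    exact_mod_cast hne l hl
  have hXv : ContinuousOn (fun l : ℝ => (((l : ℂ)⁻¹) • (v - J A.adj l v) : L2 n)) (Set.uIcc a b) :=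
    hcinv.smul (continuousOn_const.sub (hJ1 A.adj v))
  have hYv : ContinuousOn (fun l : ℝ => J A l f - J A l (J A l f)) (Set.uIcc a b) := (hJ1 A f).sub hJ2
  have hF3 : ContinuousOn (fun l : ℝ => form A ((J A l ^ 2) f - (J A l ^ 3) f) v)
      (Set.uIcc a b) :=
    (hcinv.mul (ContinuousOn.inner (𝕜 := ℂ) hXv hYv)).congr fun l hl => form_JJ A (hsub hl) f hv
  have e0 : form A w v = ∫ l in a..b, form A ((J A l ^ 2) f - (J A l ^ 3) f) v :=
    (congrArg (fun z => form A z v) hwdef).trans (form_integral A ha hab f v)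
  have hbound : (form A w v).re ≤ c / (4 * K) / 2 * (K * eD v)
      + 1 / (2 * (c / (4 * K))) * ((1 / 4) * ‖f‖ ^ 2) :=
    le_of_eq_of_le (congrArg Complex.re e0) (w_bound_aux ha hab (by positivity) hXv.norm hYv.norm hF3
      (fun l hl => ⟨_, form_JJ A hl f hv, norm_inner_le_norm _ _⟩) (hkato v hv a b ha hab)
      (elem_sf A ha hab f))
  have hlast : c / (4 * K) / 2 * (K * eD v) + 1 / (2 * (c / (4 * K))) * ((1 / 4) * ‖f‖ ^ 2)
      ≤ c / (4 * K) / 2 * (K * (4 * eD w)) + 1 / (2 * (c / (4 * K))) * ((1 / 4) * ‖f‖ ^ 2) := by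
    refine add_le_add (mul_le_mul_of_nonneg_left (mul_le_mul_of_nonneg_left hve hK.le) (by positivity)) le_rfl
  exact fin_aux hc hK hco (hbound.trans hlast)

private theorem key_aux {E : Type*} [AddCommGroup E] [Module ℂ E] {w1 w2 w3 p q : E}
    (i1 : ((2 * (1 : ℕ) : ℝ) : ℂ) • w2 = ((2 * (1 : ℕ) - 1 : ℝ) : ℂ) • w1 + p)
    (i2 : ((2 * (2 : ℕ) : ℝ) : ℂ) • w3 = ((2 * (2 : ℕ) - 1 : ℝ) : ℂ) • w2 + q) :
    w1 = (8 : ℂ) • (w2 - w3) - p + (2 : ℂ) • q := by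
  have c1 : (((2 * (1 : ℕ) : ℝ)) : ℂ) = 2 := by norm_num
  have c2 : (((2 * (1 : ℕ) - 1 : ℝ)) : ℂ) = 1 := by norm_num
  have c3 : (((2 * (2 : ℕ) : ℝ)) : ℂ) = 4 := by norm_num
  have c4 : (((2 * (2 : ℕ) - 1 : ℝ)) : ℂ) = 3 := by norm_num
  rw [c1, c2, one_smul] at i1
  rw [c3, c4] at i2
  have i1' : w1 = (2 : ℂ) • w2 - p := by
    rw [i1]
    abel
  have i3 : (8 : ℂ) • w3 = (6 : ℂ) • w2 + (2 : ℂ) • q := by
    have : (8 : ℂ) • w3 = (2 : ℂ) • ((4 : ℂ) • w3) := by rw [smul_smul]; norm_num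
    rw [this, i2, smul_add, smul_smul]
    norm_num
  rw [i1', smul_sub, i3]
  have : (8 : ℂ) • w2 = (2 : ℂ) • w2 + (6 : ℂ) • w2 := by
    rw [← add_smul]; norm_num
  rw [this]
  abel

private theorem norm_D_smul_aux (j : Fin (n + 1)) {x : L2 n} (hx : x ∈ En n) {l : ℝ} (hl : 0 < l) :
    ‖D j ((l : ℂ) • x)‖ = l * ‖D j x‖ := by
  rw [D_smul j _ hx, norm_smul, Complex.norm_real, Real.norm_eq_abs, abs_of_pos hl]

private theorem D_comb_aux (j : Fin (n + 1)) {x y1 y2 z1 z2 : L2 n} (hx : x ∈ En n) (hy1 : y1 ∈ En n)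
    (hy2 : y2 ∈ En n) (hz1 : z1 ∈ En n) (hz2 : z2 ∈ En n) :
    D j ((8 : ℂ) • x - (y1 - y2) + (2 : ℂ) • (z1 - z2))
      = (8 : ℂ) • D j x - (D j y1 - D j y2) + (2 : ℂ) • (D j z1 - D j z2) := by
  rw [D_add j (En_sub (En_smul _ hx) (En_sub hy1 hy2)) (En_smul _ (En_sub hz1 hz2)),
    D_sub j (En_smul _ hx) (En_sub hy1 hy2), D_smul j _ hx, D_smul j _ (En_sub hz1 hz2),
    D_sub j hy1 hy2, D_sub j hz1 hz2]

private theorem norm_comb_aux {E : Type*} [NormedAddCommGroup E] [NormedSpace ℂ E] {x y1 y2 z1 z2 : E}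
    {p q : ℝ} (hx : ‖x‖ ≤ p) (hy1 : ‖y1‖ ≤ q) (hy2 : ‖y2‖ ≤ q) (hz1 : ‖z1‖ ≤ q) (hz2 : ‖z2‖ ≤ q) :
    ‖(8 : ℂ) • x - (y1 - y2) + (2 : ℂ) • (z1 - z2)‖ ≤ 8 * p + 6 * q := by
  have n1 : ‖(8 : ℂ) • x‖ ≤ 8 * p := by
    rw [norm_smul]
    norm_num
    exact hx
  have n2 : ‖y1 - y2‖ ≤ 2 * q := (norm_sub_le _ _).trans (by linarith only [hy1, hy2])
  have n3 : ‖(2 : ℂ) • (z1 - z2)‖ ≤ 4 * q := by
    rw [norm_smul, Complex.norm_ofNat]
    have : ‖z1 - z2‖ ≤ 2 * q := (norm_sub_le _ _).trans (by linarith only [hz1, hz2])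
    linarith only [this]
  refine (norm_add_le _ _).trans ?_
  have n4 := norm_sub_le ((8 : ℂ) • x) (y1 - y2)
  linarith only [n1, n2, n3, n4]

theorem exists_R_bound (A : Coef n) : ∃ C : ℝ, 0 < C ∧ ∀ a b : ℝ, 0 < a → a ≤ b →
    ∀ (f : L2 n) (j : Fin (n + 1)), ‖D j (∫ l in a..b, J A l f)‖ ≤ C * ‖f‖ := by
  obtain ⟨K, hK, hw⟩ := exists_w_bound A
  obtain ⟨B, hB, hDJ⟩ := exists_D_J_bound A
  refine ⟨8 * Real.sqrt K + 6 * B, by positivity, fun a b ha hab f j => ?_⟩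
  have hb : 0 < b := ha.trans_le hab
  obtain ⟨h2, -⟩ := integral_J_mem A ha hab 2 (by norm_num) f
  obtain ⟨h3, -⟩ := integral_J_mem A ha hab 3 (by norm_num) f
  have key := key_aux (integral_Jpow_succ A ha hab 1 f) (integral_Jpow_succ A ha hab 2 f)
  have hw' := hw a b ha hab f
  have e1 : (∫ l in a..b, J A l f) = ∫ l in a..b, (J A l ^ 1) f := by
    simp only [pow_one]
  have hP : ∀ l : ℝ, 0 < l → (J A l ^ 1) f ∈ En n := fun l hl => by
    rw [pow_one]; exact J_mem A hl _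
  have hP2 : ∀ l : ℝ, 0 < l → (J A l ^ 2) f ∈ En n := fun l hl => by
    rw [pow_succ']; exact J_mem A hl _
  have hbd1 : ∀ l : ℝ, 0 < l → ‖D j ((l : ℂ) • (J A l ^ 1) f)‖ ≤ B * ‖f‖ := by
    intro l hl
    refine (norm_D_smul_aux j (hP l hl) hl).trans_le ?_
    have e2 : (J A l ^ 1) f = J A l f := congrArg (fun T => T f) (pow_one (J A l))
    exact le_of_eq_of_le (congrArg (fun z => l * ‖D j z‖) e2) (hDJ l hl f j)
  have hbd2 : ∀ l : ℝ, 0 < l → ‖D j ((l : ℂ) • (J A l ^ 2) f)‖ ≤ B * ‖f‖ := by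
    intro l hl
    refine (norm_D_smul_aux j (hP2 l hl) hl).trans_le ?_
    have e2 : (J A l ^ 2) f = J A l (J A l f) := congrArg (fun T => T f) (pow_two (J A l))
    exact le_of_eq_of_le (congrArg (fun z => l * ‖D j z‖) e2)
      ((hDJ l hl (J A l f) j).trans (mul_le_mul_of_nonneg_left (norm_J_le A hl f) hB.le))
  have m1 : ∀ l : ℝ, 0 < l → (l : ℂ) • (J A l ^ 1) f ∈ En n := fun l hl => En_smul _ (hP l hl)
  have m2 : ∀ l : ℝ, 0 < l → (l : ℂ) • (J A l ^ 2) f ∈ En n := fun l hl => En_smul _ (hP2 l hl)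
  have hDw : ‖D j ((∫ l in a..b, (J A l ^ 2) f) - ∫ l in a..b, (J A l ^ 3) f)‖ ≤ Real.sqrt K * ‖f‖ := by
    have h5 := (norm_D_sq_le j _).trans hw'
    have h6 := Real.sqrt_le_sqrt h5
    rw [Real.sqrt_sq (norm_nonneg _), Real.sqrt_mul hK.le, Real.sqrt_sq (norm_nonneg _)] at h6
    exact h6
  have e3 := (congrArg (D j) (e1.trans key)).trans
    (D_comb_aux j (En_sub h2 h3) (m1 b hb) (m1 a ha) (m2 b hb) (m2 a ha))
  refine le_of_eq_of_le (congrArg norm e3)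
    ((norm_comb_aux hDw (hbd1 b hb) (hbd1 a ha) (hbd2 b hb) (hbd2 a ha)).trans (le_of_eq ?_))
  ring

end

end Pool.Agent.W_eb6199
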