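import Pool.Agent.W_eb6199.RBound2

open MeasureTheory Complex Filter Topology
open scoped FourierTransform ComplexInnerProductSpace ENNReal NNReal

namespace Pool.Agent.W_eb6199

noncomputable section

variable {n : ℕ}

/-! T39: the parabolic Riesz transform `R j = D j H^{-1/2}` on `L²`. -/

/-- uniformly bounded linear maps which converge on a dense set converge to a bounded operator -/
theorem RLimit_exists_clm {E ι : Type*} [NormedAddCommGroup E] [NormedSpace ℂ E]
    [CompleteSpace E] {F : Filter ι} [F.NeBot] (T : ι → E → E) {C : ℝ} (hC : 0 ≤ C)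
    (hadd : ∀ᶠ p in F, ∀ x y, T p (x + y) = T p x + T p y)
    (hsmul : ∀ᶠ p in F, ∀ (c : ℂ) x, T p (c • x) = c • T p x)
    (hbd : ∀ᶠ p in F, ∀ x, ‖T p x‖ ≤ C * ‖x‖)
    (V : Set E) (hV : Dense V) (hlim : ∀ x ∈ V, ∃ y, Tendsto (fun p => T p x) F (𝓝 y)) :
    ∃ R : E →L[ℂ] E, ∀ x, Tendsto (fun p => T p x) F (𝓝 (R x)) := by
  have hsub : ∀ᶠ p in F, ∀ x y, T p (x - y) = T p x - T p y := by
    filter_upwards [hadd, hsmul] with p h1 h2 x y
    have : x - y = x + (-1 : ℂ) • y := by rw [neg_smul, one_smul, sub_eq_add_neg]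
    rw [this, h1, h2, neg_smul, one_smul, ← sub_eq_add_neg]
  have key : ∀ x, ∃ y, Tendsto (fun p => T p x) F (𝓝 y) := by
    intro x
    rw [← cauchy_map_iff_exists_tendsto, Metric.cauchy_iff]
    refine ⟨inferInstance, fun ε hε => ?_⟩
    obtain ⟨v, hvV, hv⟩ := Metric.mem_closure_iff.1 (hV x) (ε / (4 * (C + 1))) (by positivity)
    obtain ⟨y, hy⟩ := hlim v hvV
    have hy' := Metric.tendsto_nhds.1 hy (ε / 4) (by positivity)
    have hCv : C * ‖x - v‖ ≤ ε / 4 := by
      have h1 : ‖x - v‖ ≤ ε / (4 * (C + 1)) := by rw [← dist_eq_norm]; exact hv.le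
      calc C * ‖x - v‖ ≤ (C + 1) * (ε / (4 * (C + 1))) :=
            mul_le_mul (by linarith only) h1 (norm_nonneg _) (by linarith only [hC])
        _ = ε / 4 := by field_simp
    have hev : ∀ᶠ p in F, dist (T p x) y < ε / 2 := by
      filter_upwards [hy', hsub, hbd] with p h1 h2 h3
      have h4 : ‖T p x - T p v‖ ≤ ε / 4 := by
        rw [← h2]; exact (h3 _).trans hCv
      have h5 : dist (T p x) (T p v) ≤ ε / 4 := by rw [dist_eq_norm]; exact h4
      calc dist (T p x) y ≤ dist (T p x) (T p v) + dist (T p v) y := dist_triangle _ _ _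
        _ < ε / 4 + ε / 4 := add_lt_add_of_le_of_lt h5 h1
        _ = ε / 2 := by ring
    refine ⟨Metric.ball y (ε / 2), ?_, ?_⟩
    · rw [Filter.mem_map]
      filter_upwards [hev] with p hp
      exact hp
    · intro a ha b hb
      calc dist a b ≤ dist a y + dist b y := dist_triangle_right _ _ _
        _ < ε / 2 + ε / 2 := add_lt_add ha hb
        _ = ε := by ring
  choose R hR using key
  refine ⟨LinearMap.mkContinuous
    { toFun := R
      map_add' := fun x y => ?_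
      map_smul' := fun c x => ?_ } C ?_, fun x => ?_⟩
  · refine tendsto_nhds_unique ((hR (x + y)).congr' ?_) ((hR x).add (hR y))
    filter_upwards [hadd] with p hp
    exact hp x y
  · refine tendsto_nhds_unique ((hR (c • x)).congr' ?_) ((hR x).const_smul c)
    filter_upwards [hsmul] with p hp
    exact hp c x
  · intro x
    exact le_of_tendsto (hR x).norm (hbd.mono fun p hp => hp x)
  · exact hR x

/-- improper integrals as a limit over both end points -/
theorem RLimit_tendsto_integral {E : Type*} [NormedAddCommGroup E] [NormedSpace ℝ E]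
    {g : ℝ → E} (hg : IntegrableOn g (Set.Ioi 0)) :
    Tendsto (fun p : ℝ × ℝ => ∫ l in p.1..p.2, g l) (𝓝[>] (0 : ℝ) ×ˢ atTop)
      (𝓝 (∫ l in Set.Ioi (0 : ℝ), g l)) := by
  have hev : ∀ᶠ p : ℝ × ℝ in 𝓝[>] (0 : ℝ) ×ˢ atTop, 0 < p.1 ∧ p.1 ≤ p.2 := by
    have h1 : ∀ᶠ a : ℝ in 𝓝[>] (0 : ℝ), 0 < a ∧ a ≤ 1 := by
      filter_upwards [Ioc_mem_nhdsGT (zero_lt_one' ℝ)] with a ha
      exact ⟨ha.1, ha.2⟩
    filter_upwards [h1.prod_mk (eventually_ge_atTop (1 : ℝ))] with p hp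
    exact ⟨hp.1.1, hp.1.2.trans hp.2⟩
  have h0 : Tendsto (fun p : ℝ × ℝ => ∫ l, (Set.Ioc p.1 p.2).indicator g l ∂(volume.restrict
      (Set.Ioi (0 : ℝ)))) (𝓝[>] (0 : ℝ) ×ˢ atTop) (𝓝 (∫ l in Set.Ioi (0 : ℝ), g l)) := by
    refine tendsto_integral_filter_of_dominated_convergence (fun l => ‖g l‖) ?_ ?_ hg.norm ?_
    · exact Filter.Eventually.of_forall fun p => hg.1.indicator measurableSet_Ioc
    · exact Filter.Eventually.of_forall fun p => Filter.Eventually.of_forall fun l =>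
        norm_indicator_le_norm_self _ _
    · filter_upwards [ae_restrict_mem measurableSet_Ioi] with l hl
      refine tendsto_const_nhds.congr' ?_
      have h1 : ∀ᶠ a : ℝ in 𝓝[>] (0 : ℝ), a < l := by
        filter_upwards [Ioo_mem_nhdsGT (show (0 : ℝ) < l from hl)] with a ha
        exact ha.2
      filter_upwards [h1.prod_mk (eventually_ge_atTop l)] with p hp
      rw [Set.indicator_of_mem]
      exact ⟨hp.1, hp.2⟩
  refine h0.congr' ?_
  filter_upwards [hev] with p hp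
  rw [integral_indicator measurableSet_Ioc, intervalIntegral.integral_of_le hp.2,
    Measure.restrict_restrict measurableSet_Ioc]
  congr 2
  refine Set.inter_eq_left.2 fun x hx => ?_
  exact lt_trans hp.1 hx.1

theorem RLimit_intervalIntegrable (A : Coef n) {a b : ℝ} (ha : 0 < a) (hab : a ≤ b) (f : L2 n) :
    IntervalIntegrable (fun l : ℝ => J A l f) volume a b := by
  have hsub : Set.uIcc a b ⊆ Set.Ioi 0 := by
    rw [Set.uIcc_of_le hab]
    intro x hx
    exact lt_of_lt_of_le ha hx.1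
  have hc1 : ContinuousOn (fun l : ℝ => J A l f) (Set.Ioi 0) := by
    have := continuousOn_Jpow A 1 f
    simpa using this
  exact (hc1.mono hsub).intervalIntegrable

theorem RLimit_integral_J_mem (A : Coef n) {a b : ℝ} (ha : 0 < a) (hab : a ≤ b) (f : L2 n) :
    (∫ l in a..b, J A l f) ∈ En n ∧
      ∀ j, D j (∫ l in a..b, J A l f) = ∫ l in a..b, D j (J A l f) := by
  have := integral_J_mem A ha hab 1 one_ne_zero f
  simpa using this

/-- density of the range of `J (1 - J)` -/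
theorem RLimit_dense (hn : 0 < n) (A : Coef n) :
    Dense (Set.range fun g : L2 n => J A 1 (g - J A 1 g)) := by
  set L : L2 n →L[ℂ] L2 n := (J A 1).comp (ContinuousLinearMap.id ℂ (L2 n) - J A 1) with hL
  have hrange : (Set.range fun g : L2 n => J A 1 (g - J A 1 g))
      = ((LinearMap.range (L : L2 n →ₗ[ℂ] L2 n) : Submodule ℂ (L2 n)) : Set (L2 n)) := by
    ext x
    simp [hL]
  rw [hrange, Submodule.dense_iff_topologicalClosure_eq_top,
    Submodule.topologicalClosure_eq_top_iff, Submodule.eq_bot_iff]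
  intro y hy
  rw [Submodule.mem_orthogonal] at hy
  have h1 : ∀ g : L2 n, ⟪J A 1 (g - J A 1 g), y⟫ = 0 := by
    intro g
    exact hy _ ⟨g, rfl⟩
  set z := J A.adj 1 y with hz
  have h2 : ∀ g : L2 n, ⟪g, z⟫ = ⟪g, J A.adj 1 z⟫ := by
    intro g
    have h3 := h1 g
    rw [inner_J A one_pos, ← hz, inner_sub_left, inner_J A one_pos, sub_eq_zero] at h3
    exact h3
  have h4 : z = J A.adj 1 z := ext_inner_left ℂ h2
  have h5 := InDom_J A.adj one_pos z
  rw [← h4, sub_self, smul_zero] at h5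
  have h6 : z = 0 := h5.eq_zero hn
  have h7 := InDom_J A.adj one_pos y
  rw [← hz, h6, sub_zero] at h7
  have h8 : InDom A.adj (0 : L2 n) (0 : L2 n) := by
    have := h7.smul 0
    rwa [smul_zero, zero_smul] at this
  have h9 := h7.unique h8
  have h10 : ((((1 : ℝ) : ℂ) ^ 2)⁻¹ : ℂ) = 1 := by norm_num
  rwa [h10, one_smul] at h9

theorem RLimit_norm_smul {E : Type*} [NormedAddCommGroup E] [NormedSpace ℂ E] {r : ℝ}
    (hr : 0 ≤ r) (x : E) : ‖(r : ℂ) • x‖ = r * ‖x‖ := by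
  rw [norm_smul, Complex.norm_real, Real.norm_eq_abs, abs_of_nonneg hr]

/-- `D_j J_l f` is integrable on `(0,∞)` for `f ∈ D(H) ∩ R(H)` -/
theorem RLimit_integrableOn (A : Coef n) {f q u : L2 n} (h1 : InDom A f q) (h2 : InDom A u f)
    (j : Fin (n + 1)) : IntegrableOn (fun l : ℝ => D j (J A l f)) (Set.Ioi 0) := by
  obtain ⟨C, hC, hbd⟩ := exists_D_J_bound A
  have hcont : ContinuousOn (fun l : ℝ => D j (J A l f)) (Set.Ioi 0) := by
    have := continuousOn_D_Jpow A 1 one_ne_zero j f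
    simpa using this
  have hmeas : AEStronglyMeasurable (fun l : ℝ => D j (J A l f))
      (volume.restrict (Set.Ioi (0 : ℝ))) :=
    hcont.aestronglyMeasurable measurableSet_Ioi
  have hunion : Set.Ioi (0 : ℝ) = Set.Ioc 0 1 ∪ Set.Ioi 1 :=
    (Set.Ioc_union_Ioi_eq_Ioi zero_le_one).symm
  rw [hunion]
  refine IntegrableOn.union ?_ ?_
  · have hint : IntegrableOn (fun _ : ℝ => ‖D j f‖ + C * ‖q‖) (Set.Ioc 0 1) :=
      integrableOn_const (by simp)
    have hsub : Set.Ioc (0 : ℝ) 1 ⊆ Set.Ioi 0 := fun x hx => hx.1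
    refine Integrable.mono' hint (hmeas.mono_set hsub) ?_
    filter_upwards [ae_restrict_mem measurableSet_Ioc] with l hl
    have hl0 : 0 < l := hl.1
    have h3 := J_of_InDom A hl0 h1
    have h4 : J A l f = f - ((l : ℂ) ^ 2) • J A l q := by
      rw [h3, smul_inv_smul₀ (by exact_mod_cast (pow_pos hl0 2).ne'), sub_sub_cancel]
    rw [h4, D_sub j h1.1 (En_smul _ (J_mem A hl0 q)), D_smul j _ (J_mem A hl0 q)]
    refine (norm_sub_le _ _).trans (add_le_add le_rfl ?_)
    rw [norm_smul, norm_pow, Complex.norm_real, Real.norm_eq_abs, abs_of_pos hl0]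
    have h5 := hbd l hl0 q j
    calc l ^ 2 * ‖D j (J A l q)‖ = l * (l * ‖D j (J A l q)‖) := by ring
      _ ≤ 1 * (C * ‖q‖) := mul_le_mul hl.2 h5 (by positivity) zero_le_one
      _ = C * ‖q‖ := one_mul _
  · have hint : IntegrableOn (fun l : ℝ => (‖D j u‖ + C * ‖u‖) * l ^ (-2 : ℝ)) (Set.Ioi 1) :=
      (integrableOn_Ioi_rpow_of_lt (by norm_num) one_pos).const_mul _
    have hsub : Set.Ioi (1 : ℝ) ⊆ Set.Ioi 0 := Set.Ioi_subset_Ioi zero_le_one
    refine Integrable.mono' hint (hmeas.mono_set hsub) ?_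
    filter_upwards [ae_restrict_mem measurableSet_Ioi] with l hl
    have hl1 : 1 < l := hl
    have hl0 : 0 < l := lt_trans one_pos hl1
    have h5 := hbd l hl0 u j
    have h6 : ‖D j (J A l u)‖ ≤ C * ‖u‖ := by
      calc ‖D j (J A l u)‖ = 1 * ‖D j (J A l u)‖ := (one_mul _).symm
        _ ≤ l * ‖D j (J A l u)‖ := mul_le_mul_of_nonneg_right hl1.le (norm_nonneg _)
        _ ≤ C * ‖u‖ := h5
    have h7 : ‖D j u - D j (J A l u)‖ ≤ ‖D j u‖ + C * ‖u‖ :=
      (norm_sub_le _ _).trans (add_le_add le_rfl h6)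
    have h8 : D j (J A l f) = (((l ^ 2)⁻¹ : ℝ) : ℂ) • (D j u - D j (J A l u)) := by
      rw [J_of_InDom A hl0 h2, D_smul j _ (En_sub h2.1 (J_mem A hl0 u)),
        D_sub j h2.1 (J_mem A hl0 u)]
      push_cast
      rfl
    rw [h8, RLimit_norm_smul (by positivity), Real.rpow_neg hl0.le, Real.rpow_two]
    calc (l ^ 2)⁻¹ * ‖D j u - D j (J A l u)‖ ≤ (l ^ 2)⁻¹ * (‖D j u‖ + C * ‖u‖) :=
          mul_le_mul_of_nonneg_left h7 (by positivity)
      _ = (‖D j u‖ + C * ‖u‖) * (l ^ 2)⁻¹ := mul_comm _ _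

/-- the truncated operators -/
def RLimitT (A : Coef n) (j : Fin (n + 1)) (a b : ℝ) (f : L2 n) : L2 n :=
  D j (((2 / Real.pi : ℝ) : ℂ) • ∫ l in a..b, J A l f)

theorem RLimitT_eq (A : Coef n) (j : Fin (n + 1)) {a b : ℝ} (ha : 0 < a) (hab : a ≤ b)
    (f : L2 n) : RLimitT A j a b f = ((2 / Real.pi : ℝ) : ℂ) • D j (∫ l in a..b, J A l f) := by
  unfold RLimitT
  rw [D_smul j _ (RLimit_integral_J_mem A ha hab f).1]

theorem RLimitT_eq' (A : Coef n) (j : Fin (n + 1)) {a b : ℝ} (ha : 0 < a) (hab : a ≤ b)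
    (f : L2 n) : RLimitT A j a b f = ((2 / Real.pi : ℝ) : ℂ) • ∫ l in a..b, D j (J A l f) := by
  rw [RLimitT_eq A j ha hab, (RLimit_integral_J_mem A ha hab f).2 j]

theorem RLimitT_add (A : Coef n) (j : Fin (n + 1)) {a b : ℝ} (ha : 0 < a) (hab : a ≤ b)
    (x y : L2 n) : RLimitT A j a b (x + y) = RLimitT A j a b x + RLimitT A j a b y := by
  have hx := (RLimit_integral_J_mem A ha hab x).1
  have hy := (RLimit_integral_J_mem A ha hab y).1
  have e1 : (∫ l in a..b, J A l (x + y))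
      = (∫ l in a..b, J A l x) + ∫ l in a..b, J A l y := by
    rw [← intervalIntegral.integral_add (RLimit_intervalIntegrable A ha hab x)
      (RLimit_intervalIntegrable A ha hab y)]
    refine intervalIntegral.integral_congr fun l _ => ?_
    exact map_add _ _ _
  unfold RLimitT
  rw [e1, smul_add, D_add j (En_smul _ hx) (En_smul _ hy)]

theorem RLimitT_smul (A : Coef n) (j : Fin (n + 1)) {a b : ℝ} (ha : 0 < a) (hab : a ≤ b)
    (c : ℂ) (x : L2 n) : RLimitT A j a b (c • x) = c • RLimitT A j a b x := by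
  have hx := (RLimit_integral_J_mem A ha hab x).1
  have e1 : (∫ l in a..b, J A l (c • x)) = c • ∫ l in a..b, J A l x := by
    rw [← intervalIntegral.integral_smul]
    refine intervalIntegral.integral_congr fun l _ => ?_
    exact map_smul _ _ _
  unfold RLimitT
  rw [e1, smul_comm, D_smul j c (En_smul _ hx)]

theorem RLimitT_bound (A : Coef n) {C : ℝ}
    (hbd : ∀ a b : ℝ, 0 < a → a ≤ b →
      ∀ (f : L2 n) (j : Fin (n + 1)), ‖D j (∫ l in a..b, J A l f)‖ ≤ C * ‖f‖)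
    (j : Fin (n + 1)) {a b : ℝ} (ha : 0 < a) (hab : a ≤ b)
    (x : L2 n) : ‖RLimitT A j a b x‖ ≤ 2 / Real.pi * C * ‖x‖ := by
  have hpi : 0 < 2 / Real.pi := by positivity
  rw [RLimitT_eq A j ha hab, RLimit_norm_smul hpi.le, mul_assoc]
  exact mul_le_mul_of_nonneg_left (hbd a b ha hab x j) hpi.le

/-- `R j f = lim (2/π) ∫_a^b D_j J_l f dl` -/
theorem exists_R (hn : 0 < n) (A : Coef n) : ∃ R : Fin (n + 1) → L2 n →L[ℂ] L2 n, ∀ j f,
    Tendsto (fun p : ℝ × ℝ => D j (((2 / Real.pi : ℝ) : ℂ) • ∫ l in p.1..p.2, J A l f))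
      (𝓝[>] 0 ×ˢ atTop) (𝓝 (R j f)) := by
  obtain ⟨C, hC, hbd⟩ := exists_R_bound A
  have hev : ∀ᶠ p : ℝ × ℝ in 𝓝[>] (0 : ℝ) ×ˢ atTop, 0 < p.1 ∧ p.1 ≤ p.2 := by
    have h1 : ∀ᶠ a : ℝ in 𝓝[>] (0 : ℝ), 0 < a ∧ a ≤ 1 := by
      filter_upwards [Ioc_mem_nhdsGT (zero_lt_one' ℝ)] with a ha
      exact ⟨ha.1, ha.2⟩
    filter_upwards [h1.prod_mk (eventually_ge_atTop (1 : ℝ))] with p hp
    exact ⟨hp.1.1, hp.1.2.trans hp.2⟩
  have key : ∀ j : Fin (n + 1), ∃ R : L2 n →L[ℂ] L2 n, ∀ f,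
      Tendsto (fun p : ℝ × ℝ => RLimitT A j p.1 p.2 f) (𝓝[>] 0 ×ˢ atTop) (𝓝 (R f)) := by
    intro j
    refine RLimit_exists_clm (C := 2 / Real.pi * C)
      (fun (p : ℝ × ℝ) (f : L2 n) => RLimitT A j p.1 p.2 f)
      (by positivity) ?_ ?_ ?_ _ (RLimit_dense hn A) ?_
    · filter_upwards [hev] with p hp x y
      exact RLimitT_add A j hp.1 hp.2 x y
    · filter_upwards [hev] with p hp c x
      exact RLimitT_smul A j hp.1 hp.2 c x
    · filter_upwards [hev] with p hp x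
      exact RLimitT_bound A hbd j hp.1 hp.2 x
    · rintro _ ⟨g, rfl⟩
      have h1 := InDom_J A one_pos (g - J A 1 g)
      have h2 : InDom A (J A 1 (J A 1 g)) (J A 1 (g - J A 1 g)) := by
        have h3 := InDom_J A one_pos (J A 1 g)
        have h10 : ((((1 : ℝ) : ℂ) ^ 2)⁻¹ : ℂ) = 1 := by norm_num
        rw [h10, one_smul] at h3
        rwa [map_sub]
      have h4 := (RLimit_tendsto_integral (RLimit_integrableOn A h1 h2 j)).const_smul
        (((2 / Real.pi : ℝ) : ℂ))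
      refine ⟨_, h4.congr' ?_⟩
      filter_upwards [hev] with p hp
      exact (RLimitT_eq' A j hp.1 hp.2 _).symm
  choose R hR using key
  exact ⟨R, hR⟩

end

end Pool.Agent.W_eb6199
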