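import Pool.Agent.W_eb6199.RLimit

open MeasureTheory Complex Filter Topology
open scoped FourierTransform ComplexInnerProductSpace ENNReal NNReal

namespace Pool.Agent.W_eb6199

noncomputable section

/-! abstract versions (fast to elaborate) -/

section Abs

variable {E : Type*} [NormedAddCommGroup E] [NormedSpace ℂ E]

theorem RPow.abs_zero {J : ℝ → E → E} {D : E → E} {C : ℝ} (hC : 0 < C)
    (hb : ∀ l : ℝ, 0 < l → ∀ f, l * ‖D (J l f)‖ ≤ C * ‖f‖)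
    (hadd : ∀ l : ℝ, 0 < l → ∀ f g, D (J l f) = D (J l g) + D (J l (f - g)))
    (hdom : ∀ μ : ℝ, 0 < μ → ∀ f, ∀ l : ℝ, 0 < l → D (J l (J μ f))
      = D (J μ f) - (l : ℂ) ^ 2 • D (J l (((μ : ℂ) ^ 2)⁻¹ • (f - J μ f))))
    (hlim : ∀ f, Tendsto (fun l : ℝ => J l f) (𝓝[>] 0) (𝓝 f)) (f : E) :
    Tendsto (fun l : ℝ => (l : ℂ) • D (J l f)) (𝓝[>] 0) (𝓝 0) := by
  rw [Metric.tendsto_nhds]
  intro ε hε
  have h1 := (Metric.tendsto_nhds.1 (hlim f)) (ε / (2 * C)) (by positivity)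
  obtain ⟨μ, hμ1, hμ⟩ := (h1.and self_mem_nhdsWithin).exists
  have hμ0 : (0 : ℝ) < μ := hμ
  set u := J μ f with hu
  set g : E := ((μ : ℂ) ^ 2)⁻¹ • (f - J μ f) with hg
  have h2 : Tendsto (fun l : ℝ => l * ‖D u‖ + l ^ 2 * (C * ‖g‖)) (𝓝[>] 0) (𝓝 0) := by
    have : Tendsto (fun l : ℝ => l * ‖D u‖ + l ^ 2 * (C * ‖g‖)) (𝓝 0)
        (𝓝 ((0 : ℝ) * ‖D u‖ + 0 ^ 2 * (C * ‖g‖))) := by
      apply Continuous.tendsto
      fun_prop
    simp only [zero_mul, ne_eq, OfNat.ofNat_ne_zero, not_false_eq_true, zero_pow, add_zero] at this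
    exact this.mono_left nhdsWithin_le_nhds
  have h3 := (Metric.tendsto_nhds.1 h2) (ε / 2) (by positivity)
  filter_upwards [h3, self_mem_nhdsWithin] with l hl3 hl
  have hl0 : (0 : ℝ) < l := hl
  rw [dist_zero_right, Real.norm_of_nonneg (by positivity)] at hl3
  rw [dist_zero_right, norm_smul, Complex.norm_real, Real.norm_of_nonneg hl0.le]
  have e2 : D (J l u) = D u - (l : ℂ) ^ 2 • D (J l g) := hdom μ hμ0 f l hl0
  have e3 : l * ‖D (J l u)‖ ≤ l * ‖D u‖ + l ^ 2 * (C * ‖g‖) := by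
    rw [e2]
    have h5 : ‖(l : ℂ) ^ 2 • D (J l g)‖ = l ^ 2 * ‖D (J l g)‖ := by
      rw [norm_smul, norm_pow, Complex.norm_real, Real.norm_of_nonneg hl0.le]
    have h6 := norm_sub_le (D u) ((l : ℂ) ^ 2 • D (J l g))
    rw [h5] at h6
    have h7 := hb l hl0 g
    calc l * ‖D u - (l : ℂ) ^ 2 • D (J l g)‖
        ≤ l * (‖D u‖ + l ^ 2 * ‖D (J l g)‖) := by gcongr
      _ = l * ‖D u‖ + l ^ 2 * (l * ‖D (J l g)‖) := by ring
      _ ≤ _ := by gcongr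
  have e4 : l * ‖D (J l (f - u))‖ ≤ C * ‖f - u‖ := hb l hl0 (f - u)
  have e5 : C * ‖f - u‖ < ε / 2 := by
    rw [dist_eq_norm, norm_sub_rev] at hμ1
    calc C * ‖f - u‖ < C * (ε / (2 * C)) := by gcongr
      _ = ε / 2 := by field_simp
  rw [hadd l hl0 f u]
  calc l * ‖D (J l u) + D (J l (f - u))‖
      ≤ l * (‖D (J l u)‖ + ‖D (J l (f - u))‖) := by gcongr; exact norm_add_le _ _
    _ = l * ‖D (J l u)‖ + l * ‖D (J l (f - u))‖ := by ring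
    _ < ε := by linarith

theorem RPow.abs_top {J : ℝ → E → E} {D : E → E} {C : ℝ} (hC : 0 < C)
    (hb : ∀ l : ℝ, 0 < l → ∀ f, l * ‖D (J l f)‖ ≤ C * ‖f‖)
    (hadd : ∀ l : ℝ, 0 < l → ∀ f g, D (J l f) = D (J l g) + D (J l (f - g)))
    (hdom : ∀ μ : ℝ, 0 < μ → ∀ f, ∀ l : ℝ, 0 < l → D (J l (f - J μ f))
      = ((l : ℂ) ^ 2)⁻¹ • (D ((μ : ℂ) ^ 2 • J μ f) - D (J l ((μ : ℂ) ^ 2 • J μ f))))
    (hlim : ∀ f, Tendsto (fun l : ℝ => J l f) atTop (𝓝 0)) (f : E) :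
    Tendsto (fun l : ℝ => (l : ℂ) • D (J l f)) atTop (𝓝 0) := by
  rw [Metric.tendsto_nhds]
  intro ε hε
  have h1 := (Metric.tendsto_nhds.1 (hlim f)) (ε / (2 * C)) (by positivity)
  obtain ⟨μ, hμ1, hμ⟩ := (h1.and (eventually_gt_atTop 0)).exists
  have hμ0 : (0 : ℝ) < μ := hμ
  set u : E := (μ : ℂ) ^ 2 • J μ f with hu
  set g : E := f - J μ f with hg
  have h2 : Tendsto (fun l : ℝ => l⁻¹ * ‖D u‖ + l⁻¹ * l⁻¹ * (C * ‖u‖)) atTop (𝓝 0) := by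
    have h := tendsto_inv_atTop_zero (𝕜 := ℝ)
    have := (h.mul_const ‖D u‖).add ((h.mul h).mul_const (C * ‖u‖))
    simpa using this
  have h3 := (Metric.tendsto_nhds.1 h2) (ε / 2) (by positivity)
  filter_upwards [h3, eventually_gt_atTop 0] with l hl3 hl0
  rw [dist_zero_right, Real.norm_of_nonneg (by positivity)] at hl3
  rw [dist_zero_right, norm_smul, Complex.norm_real, Real.norm_of_nonneg hl0.le]
  have e2 : D (J l g) = ((l : ℂ) ^ 2)⁻¹ • (D u - D (J l u)) := hdom μ hμ0 f l hl0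
  have e3 : l * ‖D (J l g)‖ ≤ l⁻¹ * ‖D u‖ + l⁻¹ * l⁻¹ * (C * ‖u‖) := by
    rw [e2, norm_smul, norm_inv, norm_pow, Complex.norm_real, Real.norm_of_nonneg hl0.le]
    have h6 := norm_sub_le (D u) (D (J l u))
    have h7 := hb l hl0 u
    calc l * ((l ^ 2)⁻¹ * ‖D u - D (J l u)‖)
        ≤ l * ((l ^ 2)⁻¹ * (‖D u‖ + ‖D (J l u)‖)) := by gcongr
      _ = l⁻¹ * ‖D u‖ + l⁻¹ * l⁻¹ * (l * ‖D (J l u)‖) := by field_simp
      _ ≤ _ := by gcongr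
  have e4 : l * ‖D (J l (f - g))‖ ≤ C * ‖f - g‖ := hb l hl0 (f - g)
  have e5 : C * ‖f - g‖ < ε / 2 := by
    have : f - g = J μ f := by rw [hg, sub_sub_cancel]
    rw [this]
    rw [dist_zero_right] at hμ1
    calc C * ‖J μ f‖ < C * (ε / (2 * C)) := by gcongr
      _ = ε / 2 := by field_simp
  rw [hadd l hl0 f g]
  calc l * ‖D (J l g) + D (J l (f - g))‖
      ≤ l * (‖D (J l g)‖ + ‖D (J l (f - g))‖) := by gcongr; exact norm_add_le _ _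
    _ = l * ‖D (J l g)‖ + l * ‖D (J l (f - g))‖ := by ring
    _ < ε := by linarith

theorem RPow.abs_zero_pow {D : E → E} {J : ℝ → E → E} {P : ℝ → E} {C : ℝ} {f : E}
    (hb : ∀ l : ℝ, 0 < l → ∀ f, l * ‖D (J l f)‖ ≤ C * ‖f‖)
    (hadd : ∀ l : ℝ, 0 < l → ∀ f g, D (J l f) = D (J l g) + D (J l (f - g)))
    (h1 : Tendsto (fun l : ℝ => (l : ℂ) • D (J l f)) (𝓝[>] 0) (𝓝 0))
    (hP : Tendsto P (𝓝[>] 0) (𝓝 f)) :
    Tendsto (fun l : ℝ => (l : ℂ) • D (J l (P l))) (𝓝[>] 0) (𝓝 0) := by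
  have h2 : Tendsto (fun l : ℝ => C * ‖P l - f‖) (𝓝[>] 0) (𝓝 0) := by
    have := (hP.sub_const f).norm.const_mul C
    simpa using this
  have h3 : Tendsto (fun l : ℝ => (l : ℂ) • D (J l (P l - f))) (𝓝[>] 0) (𝓝 0) := by
    refine squeeze_zero_norm' ?_ h2
    filter_upwards [self_mem_nhdsWithin] with l hl
    have hl0 : (0 : ℝ) < l := hl
    rw [norm_smul, Complex.norm_real, Real.norm_of_nonneg hl0.le]
    exact hb l hl0 _
  have h4 := h1.add h3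
  rw [add_zero] at h4
  refine h4.congr' ?_
  filter_upwards [self_mem_nhdsWithin] with l hl
  have hl0 : (0 : ℝ) < l := hl
  rw [hadd l hl0 (P l) f, smul_add]

theorem RPow.abs_top_pow {D : E → E} {J : ℝ → E → E} {P Q : ℝ → E} {C : ℝ} (hC : 0 < C)
    (hb : ∀ l : ℝ, 0 < l → ∀ f, l * ‖D (J l f)‖ ≤ C * ‖f‖)
    (hPQ : ∀ l : ℝ, 0 < l → ‖P l‖ ≤ ‖Q l‖)
    (hQ : Tendsto Q atTop (𝓝 0)) :
    Tendsto (fun l : ℝ => (l : ℂ) • D (J l (P l))) atTop (𝓝 0) := by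
  have h2 : Tendsto (fun l : ℝ => C * ‖Q l‖) atTop (𝓝 0) := by
    have := hQ.norm.const_mul C
    simpa using this
  refine squeeze_zero_norm' ?_ h2
  filter_upwards [eventually_gt_atTop 0] with l hl0
  rw [norm_smul, Complex.norm_real, Real.norm_of_nonneg hl0.le]
  refine (hb l hl0 _).trans ?_
  gcongr
  exact hPQ l hl0

theorem RPow.abs_D {D : E → E} {M : Set E} (hadd : ∀ u ∈ M, ∀ v ∈ M, D (u + v) = D u + D v)
    (hsub : ∀ u ∈ M, ∀ v ∈ M, D (u - v) = D u - D v)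
    (hsmul : ∀ c : ℂ, ∀ u ∈ M, D (c • u) = c • D u)
    (msub : ∀ u ∈ M, ∀ v ∈ M, u - v ∈ M) (msmul : ∀ c : ℂ, ∀ u ∈ M, c • u ∈ M)
    {α β b a : ℂ} {K2 K1 y x : E} (k2 : K2 ∈ M) (k1 : K1 ∈ M) (my : y ∈ M) (mx : x ∈ M)
    (h : α • K2 = β • K1 + (b • y - a • x)) :
    α • D K2 = β • D K1 + (b • D y - a • D x) := by
  rw [← hsmul α _ k2, h, hadd _ (msmul _ _ k1) _ (msub _ (msmul _ _ my) _ (msmul _ _ mx)),
    hsub _ (msmul _ _ my) _ (msmul _ _ mx), hsmul _ _ k1, hsmul _ _ my, hsmul _ _ mx]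

theorem RPow.abs_step {c : ℝ} {M : ℕ} {a b : ℂ} {K2 K1 y x : E}
    (h : ((2 * (M + 1 : ℕ) : ℝ) : ℂ) • K2 = ((2 * (M + 1 : ℕ) - 1 : ℝ) : ℂ) • K1 + (b • y - a • x)) :
    (c : ℂ) • K1 + ((c / (2 * (M + 1 : ℕ) - 1) : ℝ) : ℂ) • (b • y - a • x)
      = ((c * (2 * (M + 1 : ℕ)) / (2 * (M + 1 : ℕ) - 1) : ℝ) : ℂ) • K2 := by
  have hM1 : (0 : ℝ) < 2 * (M + 1 : ℕ) - 1 := by push_cast; linarith [Nat.cast_nonneg (α := ℝ) M]
  have e1 : (((c * (2 * (M + 1 : ℕ)) / (2 * (M + 1 : ℕ) - 1) : ℝ)) : ℂ)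
      = ((c / (2 * (M + 1 : ℕ) - 1) : ℝ) : ℂ) * ((2 * (M + 1 : ℕ) : ℝ) : ℂ) := by
    push_cast
    ring
  rw [e1, mul_smul, h, smul_add, smul_smul]
  congr 2
  rw [← Complex.ofReal_mul]
  congr 1
  field_simp

theorem RPow.abs_final {F : Filter (ℝ × ℝ)} {G1 G2 : ℝ × ℝ → E} {x y : ℝ × ℝ → E} {c : ℝ} {M : ℕ}
    {R : E}
    (h1 : Tendsto (fun p => (c : ℂ) • G1 p) F (𝓝 R))
    (hb : Tendsto (fun p : ℝ × ℝ => (p.2 : ℂ) • y p) F (𝓝 0))
    (ha : Tendsto (fun p : ℝ × ℝ => (p.1 : ℂ) • x p) F (𝓝 0))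
    (hG : ∀ᶠ p in F, ((2 * (M + 1 : ℕ) : ℝ) : ℂ) • G2 p
      = ((2 * (M + 1 : ℕ) - 1 : ℝ) : ℂ) • G1 p + ((p.2 : ℂ) • y p - (p.1 : ℂ) • x p)) :
    Tendsto (fun p => ((c * (2 * (M + 1 : ℕ)) / (2 * (M + 1 : ℕ) - 1) : ℝ) : ℂ) • G2 p)
      F (𝓝 R) := by
  have h2 := h1.add ((hb.sub ha).const_smul ((c / (2 * (M + 1 : ℕ) - 1) : ℝ) : ℂ))
  rw [sub_zero, smul_zero, add_zero] at h2
  refine h2.congr' ?_
  filter_upwards [hG] with p hp
  exact RPow.abs_step hp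

end Abs

variable {n : ℕ}

/-! the Riesz transform through powers of the resolvent. -/

private theorem map_add_sub_aux {E F : Type*} [AddCommGroup E] [AddCommGroup F] {L : Type*}
    [FunLike L E F] [AddMonoidHomClass L E F] (T : L) (a b : E) : T a = T b + T (a - b) := by
  rw [map_sub, add_sub_cancel]

theorem RPow.D_sub_J (A : Coef n) {l : ℝ} (hl : 0 < l) (j : Fin (n + 1)) (f g : L2 n) :
    D j (J A l f) = D j (J A l g) + D j (J A l (f - g)) := by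
  have h1 : J A l f = J A l g + J A l (f - g) := by
    exact map_add_sub_aux (J A l) f g
  rw [h1]
  exact D_add j (J_mem A hl g) (J_mem A hl (f - g))

/-- `l D_j J_l f → 0` as `l → 0+` -/
theorem RPow.tendsto_zero (A : Coef n) (j : Fin (n + 1)) (f : L2 n) :
    Tendsto (fun l : ℝ => (l : ℂ) • D j (J A l f)) (𝓝[>] 0) (𝓝 0) := by
  obtain ⟨C, hC, hb⟩ := exists_D_J_bound A
  refine RPow.abs_zero (J := fun l f => J A l f) (D := D j) hC (fun l hl f => hb l hl f j)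
    (fun l hl f g => RPow.D_sub_J A hl j f g) (fun μ hμ f l hl => ?_)
    (fun f => tendsto_J_zero A f) f
  have hlc : (l : ℂ) ^ 2 ≠ 0 := pow_ne_zero 2 (by exact_mod_cast hl.ne')
  have hdom := InDom_J A hμ f
  have e1 := J_of_InDom A hl hdom
  have e2 : (l : ℂ) ^ 2 • J A l (((μ : ℂ) ^ 2)⁻¹ • (f - J A μ f)) = J A μ f - J A l (J A μ f) := by
    rw [e1, smul_inv_smul₀ hlc]
  have e3 : J A l (J A μ f) = J A μ f - (l : ℂ) ^ 2 • J A l (((μ : ℂ) ^ 2)⁻¹ • (f - J A μ f)) := by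
    rw [e2, sub_sub_cancel]
  show D j (J A l (J A μ f)) = _
  rw [e3, D_sub j hdom.1 (En_smul _ (J_mem A hl _)), D_smul j _ (J_mem A hl _)]

/-- `l D_j J_l f → 0` as `l → ∞` -/
theorem RPow.tendsto_top (hn : 0 < n) (A : Coef n) (j : Fin (n + 1)) (f : L2 n) :
    Tendsto (fun l : ℝ => (l : ℂ) • D j (J A l f)) atTop (𝓝 0) := by
  obtain ⟨C, hC, hb⟩ := exists_D_J_bound A
  refine RPow.abs_top (J := fun l f => J A l f) (D := D j) hC (fun l hl f => hb l hl f j)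
    (fun l hl f g => RPow.D_sub_J A hl j f g) (fun μ hμ f l hl => ?_)
    (fun f => tendsto_J_atTop hn A f) f
  have hμc : (μ : ℂ) ≠ 0 := by exact_mod_cast hμ.ne'
  have hdom : InDom A ((μ : ℂ) ^ 2 • J A μ f) (f - J A μ f) := by
    have := (InDom_J A hμ f).smul ((μ : ℂ) ^ 2)
    rwa [smul_inv_smul₀ (pow_ne_zero 2 hμc)] at this
  have e1 := J_of_InDom A hl hdom
  show D j (J A l (f - J A μ f)) = _
  rw [e1, D_smul j _ (En_sub hdom.1 (J_mem A hl _)), D_sub j hdom.1 (J_mem A hl _)]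

theorem RPow.Jpow_succ (A : Coef n) (l : ℝ) (k : ℕ) (f : L2 n) :
    (J A l ^ (k + 1)) f = J A l ((J A l ^ k) f) := by
  rw [pow_succ']
  rfl

theorem RPow.tendsto_zero_pow (A : Coef n) (j : Fin (n + 1)) (k : ℕ) (f : L2 n) :
    Tendsto (fun l : ℝ => (l : ℂ) • D j ((J A l ^ (k + 1)) f)) (𝓝[>] 0) (𝓝 0) := by
  obtain ⟨C, hC, hb⟩ := exists_D_J_bound A
  simp only [RPow.Jpow_succ]
  exact RPow.abs_zero_pow (J := fun l f => J A l f) (D := D j)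
    (P := fun l => (J A l ^ k) f) (fun l hl f => hb l hl f j)
    (fun l hl f g => RPow.D_sub_J A hl j f g) (RPow.tendsto_zero A j f) (tendsto_Jpow_zero A k f)

theorem RPow.tendsto_top_pow (hn : 0 < n) (A : Coef n) (j : Fin (n + 1)) (k : ℕ) (f : L2 n) :
    Tendsto (fun l : ℝ => (l : ℂ) • D j ((J A l ^ (k + 1)) f)) atTop (𝓝 0) := by
  rcases k with _ | k
  · simpa only [zero_add, pow_one] using RPow.tendsto_top hn A j f
  · obtain ⟨C, hC, hb⟩ := exists_D_J_bound A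
    simp only [RPow.Jpow_succ A _ (k + 1)]
    refine RPow.abs_top_pow (J := fun l f => J A l f) (D := D j)
      (P := fun l => (J A l ^ (k + 1)) f) (Q := fun l => J A l f) hC (fun l hl f => hb l hl f j)
      (fun l hl => ?_) (tendsto_J_atTop hn A f)
    have h := norm_Jpow_le A hl k (J A l f)
    rw [pow_succ]
    exact h

theorem RPow.step (A : Coef n) {a b : ℝ} (ha : 0 < a) (hab : a ≤ b) (M : ℕ) (j : Fin (n + 1))
    (f : L2 n) : ((2 * (M + 1 : ℕ) : ℝ) : ℂ) • (∫ l in a..b, D j ((J A l ^ (M + 1 + 1)) f))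
      = ((2 * (M + 1 : ℕ) - 1 : ℝ) : ℂ) • (∫ l in a..b, D j ((J A l ^ (M + 1)) f))
        + ((b : ℂ) • D j ((J A b ^ (M + 1)) f) - (a : ℂ) • D j ((J A a ^ (M + 1)) f)) := by
  have k1 := integral_J_mem A ha hab (M + 1) (Nat.succ_ne_zero M) f
  have k2 := integral_J_mem A ha hab (M + 1 + 1) (Nat.succ_ne_zero _) f
  have k3 := integral_Jpow_succ A ha hab (M + 1) f
  have mb : (J A b ^ (M + 1)) f ∈ En n := by
    rw [RPow.Jpow_succ]; exact J_mem A (ha.trans_le hab) _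
  have ma : (J A a ^ (M + 1)) f ∈ En n := by
    rw [RPow.Jpow_succ]; exact J_mem A ha _
  have := RPow.abs_D (D := D j) (M := En n) (fun u hu v hv => D_add j hu hv)
    (fun u hu v hv => D_sub j hu hv) (fun c u hu => D_smul j c hu)
    (fun u hu v hv => En_sub hu hv) (fun c u hu => En_smul c hu) k2.1 k1.1 mb ma k3
  rwa [k2.2 j, k1.2 j] at this

/-- the same operator through powers of the resolvent -/
theorem R_pow (hn : 0 < n) (A : Coef n) {R : Fin (n + 1) → L2 n →L[ℂ] L2 n}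
    (hR : ∀ j f, Tendsto (fun p : ℝ × ℝ => D j (((2 / Real.pi : ℝ) : ℂ) • ∫ l in p.1..p.2, J A l f))
      (𝓝[>] 0 ×ˢ atTop) (𝓝 (R j f))) (M : ℕ) (hM : M ≠ 0) :
    ∃ c : ℝ, 0 < c ∧ ∀ j f,
    Tendsto (fun p : ℝ × ℝ => (c : ℂ) • ∫ l in p.1..p.2, D j ((J A l ^ M) f))
      (𝓝[>] 0 ×ˢ atTop) (𝓝 (R j f)) := by
  have hev : ∀ᶠ p : ℝ × ℝ in 𝓝[>] (0 : ℝ) ×ˢ atTop, 0 < p.1 ∧ p.1 ≤ p.2 := by
    have h1 : ∀ᶠ a : ℝ in 𝓝[>] (0 : ℝ), 0 < a ∧ a < 1 :=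
      Ioo_mem_nhdsGT (by norm_num : (0 : ℝ) < 1)
    have h2 : ∀ᶠ b : ℝ in atTop, (1 : ℝ) ≤ b := eventually_ge_atTop 1
    filter_upwards [h1.prod_mk h2] with p hp
    exact ⟨hp.1.1, hp.1.2.le.trans hp.2⟩
  obtain ⟨M, rfl⟩ := Nat.exists_eq_succ_of_ne_zero hM
  clear hM
  induction M with
  | zero =>
    refine ⟨2 / Real.pi, by positivity, fun j f => ?_⟩
    refine (hR j f).congr' ?_
    filter_upwards [hev] with p hp
    have h := integral_J_mem A hp.1 hp.2 1 one_ne_zero f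
    have h3 := D_smul j ((2 / Real.pi : ℝ) : ℂ) h.1
    rw [h.2 j] at h3
    simp only [pow_one] at h3
    simpa only [Nat.succ_eq_add_one, zero_add, pow_one] using h3
  | succ M ih =>
    obtain ⟨c, hc, ih⟩ := ih
    have hM1 : (0 : ℝ) < 2 * (M + 1 : ℕ) - 1 := by push_cast; linarith [Nat.cast_nonneg (α := ℝ) M]
    refine ⟨c * (2 * (M + 1 : ℕ)) / (2 * (M + 1 : ℕ) - 1), by positivity, fun j f => ?_⟩
    have hb : Tendsto (fun p : ℝ × ℝ => (p.2 : ℂ) • D j ((J A p.2 ^ (M + 1)) f))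
        (𝓝[>] (0 : ℝ) ×ˢ atTop) (𝓝 0) :=
      (RPow.tendsto_top_pow hn A j M f).comp tendsto_snd
    have ha : Tendsto (fun p : ℝ × ℝ => (p.1 : ℂ) • D j ((J A p.1 ^ (M + 1)) f))
        (𝓝[>] (0 : ℝ) ×ˢ atTop) (𝓝 0) :=
      (RPow.tendsto_zero_pow A j M f).comp tendsto_fst
    refine RPow.abs_final (ih j f) hb ha ?_
    filter_upwards [hev] with p hp
    exact RPow.step A hp.1 hp.2 M j f

end

end Pool.Agent.W_eb6199
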