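import Pool.Agent.W_eb6199.Weight
import Pool.Agent.W_eb6199.DwLemmas
import Pool.Agent.W_eb6199.Cubes
import Pool.Agent.W_eb6199.Mul

open MeasureTheory Complex Filter Topology
open scoped FourierTransform ComplexInnerProductSpace ENNReal NNReal

namespace Pool.Agent.W_eb6199

noncomputable section

variable {n : ℕ}

/-! off-diagonal bounds for `S` between cubes. -/

/-- coordinatewise distance between points of two cubes of the same generation -/
theorem scubes_coord {k : ℤ} {m v : Fin (n + 1) → ℤ} {z z₀ : ST n}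
    (hz : z ∈ cube k m) (hz₀ : z₀ ∈ cube k (m + v)) (j : Fin (n + 1)) :
    (|(v j : ℝ)| - 1) ≤ sc k j * |z j - z₀ j| := by
  have h1 := hz j
  have h2 := hz₀ j
  have hs := sc_pos k j
  have e0 : sc k j * |z j - z₀ j| = |sc k j * z j - sc k j * z₀ j| := by
    rw [← mul_sub, abs_mul, abs_of_pos hs]
  rw [e0]
  simp only [Pi.add_apply, Int.cast_add] at h2
  rcases le_total 0 (v j : ℝ) with hv | hv
  · rw [abs_of_nonneg hv]
    have : (v j : ℝ) - 1 ≤ -(sc k j * z j - sc k j * z₀ j) := by linarith only [h1.2, h2.1]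
    exact this.trans (neg_le_abs _)
  · rw [abs_of_nonpos hv]
    have : -(v j : ℝ) - 1 ≤ (sc k j * z j - sc k j * z₀ j) := by linarith only [h1.1, h2.2]
    exact this.trans (le_abs_self _)

theorem scubes_Dw {k : ℤ} {l : ℝ} (hl0 : 0 < l) (hl : l ≤ 2 * ((2 : ℝ) ^ k)⁻¹)
    {m v : Fin (n + 1) → ℤ} {z z₀ : ST n}
    (hz : z ∈ cube k m) (hz₀ : z₀ ∈ cube k (m + v)) :
    (∑ j, |(v j : ℝ)|) / (4 * (n + 1)) - 1 / 4 ≤ Dw l z₀ z / l := by
  have h2k : (0 : ℝ) < (2 : ℝ) ^ k := by positivity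
  have hlk : l * (2 : ℝ) ^ k ≤ 2 := by
    calc l * (2 : ℝ) ^ k ≤ (2 * ((2 : ℝ) ^ k)⁻¹) * (2 : ℝ) ^ k := by gcongr
      _ = 2 := by field_simp
  -- spatial coordinates
  have hsp : ∀ i : Fin n, (|(v i.succ : ℝ)| - 1) / 4 ≤
      Real.sqrt (l ^ 2 + ∑ i : Fin n, (z i.succ - z₀ i.succ) ^ 2) / l := by
    intro i
    have h1 := scubes_coord hz hz₀ i.succ
    rw [sc_succ] at h1
    have h3 : |z i.succ - z₀ i.succ| ≤
        Real.sqrt (l ^ 2 + ∑ i : Fin n, (z i.succ - z₀ i.succ) ^ 2) := by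
      apply Real.abs_le_sqrt
      have : (z i.succ - z₀ i.succ) ^ 2 ≤ ∑ i : Fin n, (z i.succ - z₀ i.succ) ^ 2 :=
        Finset.single_le_sum (f := fun i : Fin n => (z i.succ - z₀ i.succ) ^ 2)
          (fun i _ => sq_nonneg _) (Finset.mem_univ i)
      nlinarith only [this]
    rw [le_div_iff₀ hl0]
    refine le_trans ?_ h3
    have h4 : (0 : ℝ) ≤ |z i.succ - z₀ i.succ| := abs_nonneg _
    -- (|v|-1)/4 * l ≤ (2^k |.|)/4 * l ≤ |.|/2
    calc (|(v i.succ : ℝ)| - 1) / 4 * l ≤ ((2 : ℝ) ^ k * |z i.succ - z₀ i.succ|) / 4 * l := by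
          gcongr
      _ = (l * (2 : ℝ) ^ k) / 4 * |z i.succ - z₀ i.succ| := by ring
      _ ≤ 2 / 4 * |z i.succ - z₀ i.succ| := by gcongr
      _ ≤ |z i.succ - z₀ i.succ| := by linarith only [h4]
  have htm : (|(v 0 : ℝ)| - 1) / 4 ≤ Real.sqrt (l ^ 4 + (z 0 - z₀ 0) ^ 2) / l / l := by
    have h1 := scubes_coord hz hz₀ 0
    rw [sc_zero] at h1
    have h3 : |z 0 - z₀ 0| ≤ Real.sqrt (l ^ 4 + (z 0 - z₀ 0) ^ 2) := by
      apply Real.abs_le_sqrt
      have : 0 ≤ l ^ 4 := by positivity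
      linarith only [this]
    rw [div_div, le_div_iff₀ (by positivity)]
    refine le_trans ?_ h3
    have h4 : (0 : ℝ) ≤ |z 0 - z₀ 0| := abs_nonneg _
    have h44 : (4 : ℝ) ^ k = (2 : ℝ) ^ k * (2 : ℝ) ^ k := by
      rw [← mul_zpow]; norm_num
    calc (|(v 0 : ℝ)| - 1) / 4 * (l * l) ≤ ((4 : ℝ) ^ k * |z 0 - z₀ 0|) / 4 * (l * l) := by
          gcongr
      _ = (l * (2 : ℝ) ^ k) * (l * (2 : ℝ) ^ k) / 4 * |z 0 - z₀ 0| := by rw [h44]; ring
      _ ≤ 2 * 2 / 4 * |z 0 - z₀ 0| := by gcongr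
      _ = |z 0 - z₀ 0| := by ring
  set X := Real.sqrt (l ^ 2 + ∑ i : Fin n, (z i.succ - z₀ i.succ) ^ 2) / l with hX
  set Y := Real.sqrt (l ^ 4 + (z 0 - z₀ 0) ^ 2) / l / l with hY
  have hX0 : 0 ≤ X := by positivity
  have hY0 : 0 ≤ Y := by positivity
  have hD : Dw l z₀ z / l = X + Y := by
    unfold Dw
    rw [add_div]
  rw [hD, Fin.sum_univ_succ]
  have hsum : ∑ i : Fin n, (|(v i.succ : ℝ)| - 1) / 4 ≤ n * X := by
    calc ∑ i : Fin n, (|(v i.succ : ℝ)| - 1) / 4 ≤ ∑ _i : Fin n, X :=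
          Finset.sum_le_sum fun i _ => hsp i
      _ = n * X := by simp
  rw [← Finset.sum_div, Finset.sum_sub_distrib] at hsum
  simp only [Finset.sum_const, Finset.card_univ, Fintype.card_fin, nsmul_eq_mul, mul_one] at hsum
  have hn : (0 : ℝ) ≤ n := Nat.cast_nonneg n
  have hn1 : (0 : ℝ) < 4 * ((n : ℝ) + 1) := by positivity
  rw [sub_le_iff_le_add, div_le_iff₀ hn1]
  nlinarith only [mul_nonneg hn hY0, htm, hX0, hsum]

/-- `‖1_Q S_l F‖ ≤ C e^{-c|Q-R|} ‖F‖` for `F` supported in `R = Q + v` -/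
theorem exists_S_cubes (A : Coef n) : ∃ c C : ℝ, 0 < c ∧ 0 < C ∧ ∀ (k : ℤ) (l : ℝ),
    ((2 : ℝ) ^ k)⁻¹ ≤ l → l ≤ 2 * ((2 : ℝ) ^ k)⁻¹ → ∀ (m v : Fin (n + 1) → ℤ) (F : Fin n → L2 n),
    (∀ i, SuppIn (F i) (cube k (m + v))) →
    ‖mulOp (ind (cube k m)) (S A l F)‖
      ≤ C * Real.exp (-(c * ∑ j, |(v j : ℝ)|)) * Real.sqrt (∑ i, ‖F i‖ ^ 2) := by
  obtain ⟨κ, C₀, hκ, hκ1, hC₀, H⟩ := exists_weighted A
  have hn1 : (0 : ℝ) < (n : ℝ) + 1 := by positivity
  refine ⟨κ / (8 * (n + 1)), Real.sqrt C₀ * Real.exp (κ * (n + 3)) * Real.exp (κ / 8), by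
    positivity, by positivity, ?_⟩
  intro k l hl1 hl2 m v F hF
  have hl : 0 < l := lt_of_lt_of_le (by positivity) hl1
  -- base point
  obtain ⟨z₀, hz₀⟩ : ∃ z₀ : ST n, z₀ ∈ cube k (m + v) := by
    refine ⟨WithLp.toLp 2 fun j => ((m + v) j : ℝ) / sc k j, fun j => ?_⟩
    have := (sc_pos (n := n) k j).ne'
    have h : sc k j * (WithLp.toLp 2 fun j => ((m + v) j : ℝ) / sc k j : ST n) j
        = ((m + v) j : ℝ) := by
      simp only
      field_simp
    rw [h]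
    constructor
    · exact le_rfl
    · linarith only
  set q : ℝ := max ((∑ j, |(v j : ℝ)|) / (4 * (n + 1)) - 1 / 4) 0 with hq
  have hq0 : 0 ≤ q := le_max_right _ _
  set δ : ℝ := 1 / (1 + q) with hδdef
  have hδ : 0 < δ := by positivity
  set ψ : ST n → ℝ := wt κ l δ z₀ with hψ
  have hW : Wt κ l ψ := Wt_wt_self hκ.le hl hδ z₀
  have hbm : BM (ew ψ) := hW.bm_ew hl
  have hmain := H l hl ψ hW 0 F (S A l F) (S_spec A hl F)
  -- upper bound of the data
  have hFi : ∀ i, ‖mulOp (ew ψ) (F i)‖ ≤ Real.exp (κ * (n + 3)) * ‖F i‖ := by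
    intro i
    have hmeas := measurableSet_cube (n := n) k (m + v)
    have e1 : mulOp (ew ψ) (F i) = mulOp (fun z => ew ψ z * ind (cube k (m + v)) z) (F i) := by
      rw [← mulOp_mulOp hbm (BM.ind hmeas), mulOp_ind_of_suppIn hmeas (hF i)]
    rw [e1]
    refine norm_mulOp_le (hbm.mul (BM.ind hmeas)).meas ?_ _
    intro z
    by_cases hz : z ∈ cube k (m + v)
    · have h1 : Dw l z₀ z ≤ (n + 3) * l := Dw_le_of_mem_cube hl1 hz hz₀
      have h2 : ψ z ≤ κ * (n + 3) := by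
        refine (wt_le hκ.le hl hδ z₀ z).trans ?_
        gcongr
        rw [div_le_iff₀ hl]
        exact h1
      rw [ind, Set.indicator_of_mem hz, mul_one, ew, Complex.norm_real, Real.norm_eq_abs,
        abs_of_pos (Real.exp_pos _)]
      exact Real.exp_le_exp.2 h2
    · rw [ind, Set.indicator_of_notMem hz, mul_zero, norm_zero]
      positivity
  -- lower bound of the weight on `Q`
  have hlow : ∀ z ∈ cube k m, κ * q / 2 ≤ ψ z := by
    intro z hz
    have h1 : q ≤ Dw l z₀ z / l := by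
      refine max_le (scubes_Dw hl hl2 hz hz₀) ?_
      have := Dw_nonneg hl z₀ z
      positivity
    have h2 : κ * q / 2 ≤ κ * q / (1 + δ * q) := by
      have : 1 + δ * q ≤ 2 := by
        have : δ * q ≤ 1 := by
          rw [hδdef, div_mul_eq_mul_div, one_mul, div_le_one (by positivity)]
          linarith only
        linarith only [this]
      gcongr
    refine h2.trans ?_
    rw [hψ, wt, mul_div_assoc, mul_div_assoc]
    refine mul_le_mul_of_nonneg_left ?_ hκ.le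
    have hx : 0 ≤ Dw l z₀ z / l := hq0.trans h1
    rw [div_le_div_iff₀ (by positivity) (by positivity)]
    nlinarith only [h1]
  have hQ := measurableSet_cube (n := n) k m
  have hstep : ‖mulOp (ind (cube k m)) (S A l F)‖ ≤
      Real.exp (-(κ * q / 2)) * ‖mulOp (ew ψ) (S A l F)‖ := by
    have e : ‖mulOp (fun z => (Real.exp (-(κ * q / 2)) : ℂ) * ew ψ z) (S A l F)‖ =
        Real.exp (-(κ * q / 2)) * ‖mulOp (ew ψ) (S A l F)‖ := by
      rw [mulOp_const_mul hbm, norm_smul, Complex.norm_real,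
        Real.norm_eq_abs, abs_of_pos (Real.exp_pos _)]
    rw [← e]
    refine norm_mulOp_mono (BM.ind hQ) ((BM.const _).mul hbm) ?_ _
    intro z
    by_cases hz : z ∈ cube k m
    · rw [ind, Set.indicator_of_mem hz, ew, ← Complex.ofReal_mul, ← Real.exp_add, norm_one,
        Complex.norm_real, Real.norm_eq_abs, abs_of_pos (Real.exp_pos _)]
      apply Real.one_le_exp
      linarith only [hlow z hz]
    · rw [ind, Set.indicator_of_notMem hz, norm_zero]
      exact norm_nonneg _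
  -- the weighted norm
  have hnorm : ‖mulOp (ew ψ) (S A l F)‖ ≤
      Real.sqrt C₀ * Real.exp (κ * (n + 3)) * Real.sqrt (∑ i, ‖F i‖ ^ 2) := by
    have h1 : ‖mulOp (ew ψ) (S A l F)‖ ^ 2 ≤
        C₀ * (Real.exp (κ * (n + 3)) ^ 2 * ∑ i, ‖F i‖ ^ 2) := by
      have h0 : 0 ≤ l ^ 2 * eD (mulOp (ew ψ) (S A l F)) := by
        unfold eD
        positivity
      rw [map_zero, norm_zero] at hmain
      have h2 : ∑ i, ‖mulOp (ew ψ) (F i)‖ ^ 2 ≤
          Real.exp (κ * (n + 3)) ^ 2 * ∑ i, ‖F i‖ ^ 2 := by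
        rw [Finset.mul_sum]
        refine Finset.sum_le_sum fun i _ => ?_
        rw [← mul_pow]
        exact pow_le_pow_left₀ (norm_nonneg _) (hFi i) 2
      have h3 : C₀ * (0 ^ 2 + ∑ i, ‖mulOp (ew ψ) (F i)‖ ^ 2) ≤
          C₀ * (Real.exp (κ * (n + 3)) ^ 2 * ∑ i, ‖F i‖ ^ 2) := by
        have : (0 : ℝ) ≤ C₀ := by linarith only [hC₀]
        gcongr
        simpa using h2
      linarith only [hmain, h0, h3]
    have h4 := Real.sqrt_le_sqrt h1
    rw [Real.sqrt_sq (norm_nonneg _), Real.sqrt_mul (by linarith only [hC₀]), Real.sqrt_mul (by positivity),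
      Real.sqrt_sq (Real.exp_pos _).le] at h4
    rw [mul_assoc]
    exact h4
  -- the exponential
  have hexp : Real.exp (-(κ * q / 2)) ≤ Real.exp (κ / 8) *
      Real.exp (-(κ / (8 * (n + 1)) * ∑ j, |(v j : ℝ)|)) := by
    rw [← Real.exp_add]
    apply Real.exp_le_exp.2
    have h1 : (∑ j, |(v j : ℝ)|) / (4 * (n + 1)) - 1 / 4 ≤ q := le_max_left _ _
    have h2 : κ / (8 * (n + 1)) * ∑ j, |(v j : ℝ)| =
        κ / 2 * ((∑ j, |(v j : ℝ)|) / (4 * (n + 1))) := by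
      field_simp
      ring
    rw [h2]
    nlinarith only [hκ, h1]
  calc ‖mulOp (ind (cube k m)) (S A l F)‖
      ≤ Real.exp (-(κ * q / 2)) * ‖mulOp (ew ψ) (S A l F)‖ := hstep
    _ ≤ (Real.exp (κ / 8) * Real.exp (-(κ / (8 * (n + 1)) * ∑ j, |(v j : ℝ)|))) *
        (Real.sqrt C₀ * Real.exp (κ * (n + 3)) * Real.sqrt (∑ i, ‖F i‖ ^ 2)) := by
        gcongr
    _ = _ := by ring

end

end Pool.Agent.W_eb6199
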