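import Mathlib

/-!
# MP_eb6199_an : the objects of the statement

Space-time is `ST n = ℝ^{1+n}` with coordinate `0` the time `t` and coordinates `i.succ` the space
variables `x_i`; `L2 n = L²(ℝ^{1+n}; ℂ)` and `val u` is the function (class) `u` evaluated at
points; `four u` is the Plancherel transform of Mathlib, `û(ζ) = ∫ u(z) e^{-2πi z·ζ} dz`.
-/

open MeasureTheory Complex
open scoped FourierTransform ENNReal

namespace Pool.Agent.W_eb6199.Short

noncomputable section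

/-- space-time `ℝ^{1+n}` -/
abbrev ST (n : ℕ) : Type := EuclideanSpace ℝ (Fin (n + 1))

/-- `L²(ℝ^{1+n}; ℂ)` -/
abbrev L2 (n : ℕ) : Type := Lp (α := ST n) ℂ 2 (volume : Measure (ST n))

variable {n : ℕ}

/-- the value of `u` at `z` (defined for almost every `z`) -/
def val (u : L2 n) (z : ST n) : ℂ := u z

/-- the Plancherel transform -/
def four (u : L2 n) : L2 n := 𝓕 u

/-- the zero element of `L²` -/
def zer : L2 n := 0

/-- the product of a number and an element of `L²` -/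
def smu (c : ℂ) (u : L2 n) : L2 n := c • u

/-- the difference in `L²` -/
def dif (u v : L2 n) : L2 n := u - v

/-- bounded linear operators on `L²` -/
abbrev Op (n : ℕ) : Type := L2 n →L[ℂ] L2 n

/-- the value of an operator -/
def app (R : Op n) (u : L2 n) : L2 n := R u

/-- Bochner integrability over `(0, ∞)` of a function with values in `L²` -/
def BInt (F : ℝ → L2 n) : Prop := IntegrableOn F (Set.Ioi 0)

/-- the Bochner integral over `(0, ∞)` of a function with values in `L²` -/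
def bint (F : ℝ → L2 n) : L2 n := ∫ l in Set.Ioi (0 : ℝ), F l

/-- Lebesgue measure of a set -/
def vol (s : Set (ST n)) : ℝ≥0∞ := volume s

/-- integral over space-time with respect to Lebesgue measure -/
def integ (f : ST n → ℂ) : ℂ := ∫ z, f z

/-- `f` is in `L¹` -/
def InL1 (f : ST n → ℂ) : Prop := Integrable f

/-- the `L¹` norm -/
def norm1 (f : ST n → ℂ) : ℝ := ∫ z, ‖f z‖

/-- `P` holds at almost every point -/
def AEv (P : ST n → Prop) : Prop := ∀ᵐ z, P z

/-- `w` is the image of `u` under the (possibly unbounded) Fourier multiplier with symbol `m` -/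
def FMul (m : ST n → ℂ) (u w : L2 n) : Prop := AEv fun ζ => val (four w) ζ = m ζ * val (four u) ζ

open Classical in
/-- the Fourier multiplier with symbol `m`, where it is defined (`0` elsewhere) -/
def mult (m : ST n → ℂ) (u : L2 n) : L2 n := if h : ∃ w, FMul m u w then h.choose else zer

/-- the symbols of the parabolic gradient: `gsym 0` is the symbol `|2πτ|^{1/2}` of `D_t^{1/2}`
(`τ = ζ 0`) and `gsym i.succ` is the symbol `2πi ξ_i` of `∂_{x_i}`. -/
def gsym (j : Fin (n + 1)) (ζ : ST n) : ℂ :=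
  if j = 0 then (Real.sqrt (2 * Real.pi * |ζ 0|) : ℂ) else 2 * Real.pi * I * (ζ j : ℂ)

/-- the energy space `E = {u ∈ L² : ∇_x u, D_t^{1/2} u ∈ L²}` -/
def En (u : L2 n) : Prop := ∀ j, ∃ w, FMul (gsym j) u w

/-- the components of the parabolic gradient: `D 0 = D_t^{1/2}`, `D i.succ = ∂_{x_i}` -/
def D (j : Fin (n + 1)) (u : L2 n) : L2 n := mult (gsym j) u

/-- the Hilbert transform in time, symbol `i sgn τ` -/
def Ht (u : L2 n) : L2 n := mult (fun ζ => I * (Real.sign (ζ 0) : ℂ)) u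

/-- Real measurable coefficients with `|A ξ·ζ| ≤ M |ξ||ζ|` and `ν |ξ|² ≤ Re (A ξ·conj ξ)` for all
`ξ, ζ ∈ ℂⁿ`, at almost every point. -/
structure IsCoeff (a : Fin n → Fin n → ST n → ℝ) : Prop where
  meas : ∀ i j, Measurable (a i j)
  bounds : ∃ M ν : ℝ, 0 < M ∧ 0 < ν ∧ AEv fun z =>
    (∀ ξ ζ : EuclideanSpace ℂ (Fin n),
      ‖∑ i, (∑ j, (a i j z : ℂ) * ξ j) * ζ i‖ ≤ M * ‖ξ‖ * ‖ζ‖) ∧
    (∀ ξ : EuclideanSpace ℂ (Fin n),
      ν * ‖ξ‖ ^ 2 ≤ (∑ i, (∑ j, (a i j z : ℂ) * ξ j) * (starRingEnd ℂ) (ξ i)).re)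

/-- The form `H(u)(v) = ∬ H_t D_t^{1/2} u · conj (D_t^{1/2} v) + A ∇_x u · conj (∇_x v)`. -/
def formH (a : Fin n → Fin n → ST n → ℝ) (u v : L2 n) : ℂ :=
  integ fun z => val (Ht (D 0 u)) z * (starRingEnd ℂ) (val (D 0 v) z)
    + ∑ i : Fin n, (∑ j : Fin n, (a i j z : ℂ) * val (D j.succ u) z)
        * (starRingEnd ℂ) (val (D i.succ v) z)

/-- The graph of the part of `H` in `L²`: `u` is in the domain and `H u = f`. -/
def IsH (a : Fin n → Fin n → ST n → ℝ) (u f : L2 n) : Prop :=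
  En u ∧ ∀ v, En v → formH a u v = integ fun z => val f z * (starRingEnd ℂ) (val v z)

/-- The part of `H` in `L²` is m-accretive: `Re (Hu, u) ≥ 0`, and for all `l > 0`, `f ∈ L²` the
equation `u + l² H u = f` has exactly one solution. -/
def IsMAccretive (a : Fin n → Fin n → ST n → ℝ) : Prop :=
  (∀ u f, IsH a u f → 0 ≤ (integ fun z => val f z * (starRingEnd ℂ) (val u z)).re) ∧
    ∀ l : ℝ, 0 < l → ∀ f : L2 n, ∃! u : L2 n, IsH a u (smu (((l : ℂ) ^ 2)⁻¹) (dif f u))

open Classical in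
/-- The resolvent `(1 + l² H)^{-1} f`, i.e. the solution `u` of `u + l² H u = f`. -/
def resH (a : Fin n → Fin n → ST n → ℝ) (l : ℝ) (f : L2 n) : L2 n :=
  if h : ∃ u : L2 n, IsH a u (smu (((l : ℂ) ^ 2)⁻¹) (dif f u)) then h.choose else zer

/-- `g = H^{1/2} u` for `u` in the domain of `H`, by Balakrishnan's formula
`H^{1/2} u = (1/π) ∫_0^∞ s^{-1/2} (s + H)^{-1} H u ds = (2/π) ∫_0^∞ (1 + l² H)^{-1} H u dl`
(`s = l^{-2}`), an absolutely convergent integral. -/
def IsSqrtH (a : Fin n → Fin n → ST n → ℝ) (u g : L2 n) : Prop :=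
  ∃ f, IsH a u f ∧ BInt (fun l : ℝ => resH a l f) ∧
    g = smu ((2 / Real.pi : ℝ) : ℂ) (bint fun l : ℝ => resH a l f)

/-- `R = (R_0, R_1, …, R_n)` is the parabolic Riesz transform `𝔻 H^{-1/2}`: bounded operators on
`L²` with `R_j (H^{1/2} u) = 𝔻_j u`, i.e. `R_0 (H^{1/2} u) = D_t^{1/2} u` and
`R_{i+1} (H^{1/2} u) = ∂_{x_i} u`, for all `u` in the domain of `H`. -/
def IsRiesz (a : Fin n → Fin n → ST n → ℝ) (R : Fin (n + 1) → Op n) : Prop :=
  ∀ u g, IsSqrtH a u g → ∀ j, app (R j) g = D j u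

/-- Weak type `(1,1)`: `|{|R f| > α}| ≤ C α^{-1} ‖f‖₁` for all `f ∈ L¹ ∩ L²` and `α > 0`. -/
def WeakType11 (R : Fin (n + 1) → Op n) : Prop :=
  ∃ C : ℝ, 0 ≤ C ∧ ∀ f : L2 n, InL1 (val f) → ∀ α : ℝ, 0 < α →
    vol {z | α < Real.sqrt (∑ j, ‖val (app (R j) f) z‖ ^ 2)}
      ≤ ENNReal.ofReal (C * α⁻¹ * norm1 (val f))

end

end Pool.Agent.W_eb6199.Short
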