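import Pool.Agent.W_eb6199.ShortDefs
import Pool.Agent.W_eb6199.FinalStmt

open MeasureTheory Complex
open scoped FourierTransform ENNReal

namespace Pool.Agent.W_eb6199.Short

noncomputable section

variable {n : ℕ}

theorem FMul_iff (m : ST n → ℂ) (u w : L2 n) : FMul m u w ↔ W_eb6199.FMul m u w := Iff.rfl

theorem D_eq (j : Fin (n + 1)) (u : L2 n) : D j u = W_eb6199.D j u := rfl

theorem Ht_eq (u : L2 n) : Ht u = W_eb6199.Ht u := by
  have h1 : W_eb6199.FMul (fun ζ => I * (Real.sign (ζ 0) : ℂ)) u (W_eb6199.Ht u) :=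
    FMul_fOp BM_Ht u
  have hex : ∃ w, FMul (fun ζ => I * (Real.sign (ζ 0) : ℂ)) u w := ⟨_, h1⟩
  unfold Ht mult
  rw [dif_pos hex]
  exact W_eb6199.FMul.unique hex.choose_spec h1

theorem isCoeff_iff (a : Fin n → Fin n → ST n → ℝ) : IsCoeff a ↔ W_eb6199.IsCoeff a :=
  ⟨fun h => ⟨h.meas, h.bounds⟩, fun h => ⟨h.meas, h.bounds⟩⟩

theorem formH_eq (a : Fin n → Fin n → ST n → ℝ) (u v : L2 n) :
    formH a u v = W_eb6199.formH a u v := by
  unfold formH
  rw [Ht_eq]
  rfl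

theorem isH_iff' (a : Fin n → Fin n → ST n → ℝ) (u f : L2 n) : IsH a u f ↔ W_eb6199.IsH a u f := by
  unfold IsH
  simp only [formH_eq]
  rfl

theorem isH_eq : (IsH : (Fin n → Fin n → ST n → ℝ) → L2 n → L2 n → Prop) = W_eb6199.IsH := by
  funext a u f
  exact propext (isH_iff' a u f)

theorem isMAccretive_eq (a : Fin n → Fin n → ST n → ℝ) :
    IsMAccretive a = W_eb6199.IsMAccretive a := by
  unfold IsMAccretive
  rw [isH_eq]
  rfl

open Classical in
theorem choose_congr {P Q : L2 n → Prop} (h : P = Q) :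
    (if h : ∃ u, P u then h.choose else 0) = (if h : ∃ u, Q u then h.choose else 0) := by
  subst h
  rfl

theorem resH_eq (a : Fin n → Fin n → ST n → ℝ) (l : ℝ) (f : L2 n) :
    resH a l f = W_eb6199.resH a l f := by
  unfold resH W_eb6199.resH
  refine choose_congr (P := fun u : L2 n => IsH a u (smu (((l : ℂ) ^ 2)⁻¹) (dif f u))) ?_
  rw [isH_eq]
  rfl

theorem isSqrtH_eq (a : Fin n → Fin n → ST n → ℝ) (u g : L2 n) :
    IsSqrtH a u g = W_eb6199.IsSqrtH a u g := by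
  unfold IsSqrtH
  simp only [isH_eq, resH_eq]
  rfl

theorem isRiesz_eq (a : Fin n → Fin n → ST n → ℝ) (R : Fin (n + 1) → Op n) :
    IsRiesz a R = W_eb6199.IsRiesz a R := by
  unfold IsRiesz
  simp only [isSqrtH_eq]
  rfl

theorem main_theorem (n : ℕ) (hn : 1 ≤ n) (a : Fin n → Fin n → ST n → ℝ) (ha : IsCoeff a) :
    IsMAccretive a ∧ (∀ u f, IsH a u f → ∃ g, IsSqrtH a u g) ∧
      (∃! R : Fin (n + 1) → Op n, IsRiesz a R) ∧
      ∀ R : Fin (n + 1) → Op n, IsRiesz a R → WeakType11 R := by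
  simp only [isMAccretive_eq, isH_eq, isSqrtH_eq, isRiesz_eq]
  exact W_eb6199.main_theorem n hn a ((isCoeff_iff a).1 ha)

end

end Pool.Agent.W_eb6199.Short
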