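import Pool.Agent.W_eb6199.Smooth

open MeasureTheory Complex Filter Topology
open scoped FourierTransform ComplexInnerProductSpace ENNReal NNReal

namespace Pool.Agent.W_eb6199

noncomputable section

variable {n : ℕ}

/-! `P_k` as an average of translations. -/

/-- the Gaussian density of width `1/a` -/
def sag (a s : ℝ) : ℝ := a * Real.exp (-Real.pi * (a * s) ^ 2)

theorem sag_nonneg {a : ℝ} (ha : 0 < a) (s : ℝ) : 0 ≤ sag a s := by
  unfold sag; positivity

theorem sag_integrable {a : ℝ} (ha : 0 < a) : Integrable (sag a) := by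
  unfold sag
  have h := integrable_exp_neg_mul_sq (b := Real.pi) Real.pi_pos
  exact (h.comp_mul_left' ha.ne').const_mul a

theorem sag_fourier {a : ℝ} (ha : 0 < a) (τ : ℝ) :
    ∫ s : ℝ, (sag a s : ℂ) * Complex.exp (-(2 * Real.pi * I * (s * τ : ℝ))) =
      (Real.exp (-Real.pi * (τ / a) ^ 2) : ℂ) := by
  have h1 : ∀ s : ℝ, (sag a s : ℂ) * Complex.exp (-(2 * Real.pi * I * (s * τ : ℝ))) =
      (fun x : ℝ => (a : ℂ) * (Complex.exp (I * (-(2 * Real.pi * (τ / a)) : ℂ) * x) *
        Complex.exp (-(Real.pi : ℂ) * x ^ 2))) (a * s) := by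
    intro s
    simp only [sag]
    rw [Complex.ofReal_mul, Complex.ofReal_exp, mul_assoc, mul_comm (Complex.exp _)]
    congr 2
    · congr 1
      have : (a : ℂ) ≠ 0 := by exact_mod_cast ha.ne'
      push_cast
      field_simp
    · push_cast; ring_nf
  simp only [h1]
  rw [Measure.integral_comp_mul_left (fun x : ℝ => (a : ℂ) *
    (Complex.exp (I * (-(2 * Real.pi * (τ / a)) : ℂ) * x) *
        Complex.exp (-(Real.pi : ℂ) * x ^ 2))) a, integral_const_mul,
    fourierIntegral_gaussian (by simpa using Real.pi_pos)]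
  have hpi : (Real.pi : ℂ) ≠ 0 := by exact_mod_cast Real.pi_ne_zero
  rw [div_self hpi, Complex.one_cpow, one_mul, abs_of_pos (inv_pos.2 ha), Complex.real_smul,
    ← mul_assoc, Complex.ofReal_inv, inv_mul_cancel₀ (by exact_mod_cast ha.ne'), one_mul,
    Complex.ofReal_exp]
  congr 1
  push_cast
  field_simp
  ring

theorem sag_integral {a : ℝ} (ha : 0 < a) : ∫ s : ℝ, (sag a s : ℂ) = 1 := by
  have h := sag_fourier ha 0
  simpa using h

/-- one factor of the symbol -/
def psj (a : ℝ) (j : Fin (n + 1)) (ζ : ST n) : ℂ := (Real.exp (-Real.pi * (ζ j / a) ^ 2) : ℂ)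

theorem bm_psj (a : ℝ) (j : Fin (n + 1)) : BM (psj (n := n) a j) := by
  refine ⟨?_, 1, ?_⟩
  · unfold psj
    have : Measurable fun ζ : ST n => ζ j := by fun_prop
    fun_prop
  · intro z
    unfold psj
    rw [Complex.norm_real, Real.norm_eq_abs, Real.abs_exp]
    rw [Real.exp_le_one_iff]
    have := Real.pi_pos
    have h2 := sq_nonneg (z j / a)
    nlinarith

theorem psj_FMul {a : ℝ} (j : Fin (n + 1)) (u : L2 n) :
    FMul (fun ζ => 1 - psj a j ζ) u (u - fOp (psj a j) u) := by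
  have h1 := FMul_fOp (bm_psj a j) u
  unfold FMul at h1 ⊢
  have h2 : (𝓕 (u - fOp (psj a j) u) : L2 n) = 𝓕 u - 𝓕 (fOp (psj a j) u) := by
    exact map_sub (Lp.fourierTransformₗᵢ (ST n) ℂ) _ _
  rw [h2]
  filter_upwards [h1, Lp.coeFn_sub (𝓕 u : L2 n) (𝓕 (fOp (psj a j) u) : L2 n)] with ζ h3 h4
  rw [h4, Pi.sub_apply, h3]
  ring

theorem sa_tr_FMul (u : L2 n) (s : ℝ) (j : Fin (n + 1)) :
    FMul (fun ζ => (1 : ℂ) - Complex.exp (-(2 * Real.pi * I * (s * ζ j : ℝ)))) u
      (u - tr (s • ev j) u) := by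
  have h1 := fourier_tr_ev s j u
  unfold FMul
  have h2 : (𝓕 (u - tr (s • ev j) u) : L2 n) = 𝓕 u - 𝓕 (tr (s • ev j) u) := by
    exact map_sub (Lp.fourierTransformₗᵢ (ST n) ℂ) _ _
  rw [h2]
  filter_upwards [h1, Lp.coeFn_sub (𝓕 u : L2 n) (𝓕 (tr (s • ev j) u) : L2 n)] with ζ h3 h4
  rw [h4, Pi.sub_apply, h3]
  ring

theorem sa_one_FMul (v : L2 n) : FMul (fun _ : ST n => (1 : ℂ)) v v := by
  unfold FMul
  filter_upwards with ζ
  rw [one_mul]

theorem sa_inner {a : ℝ} (ha : 0 < a) (j : Fin (n + 1)) (u y : L2 n) :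
    ⟪y, u - fOp (psj a j) u⟫ = ∫ s : ℝ, (sag a s : ℂ) * ⟪y, u - tr (s • ev j) u⟫ := by
  have hu : Measurable fun ζ => ((𝓕 u : L2 n) : ST n → ℂ) ζ :=
    (Lp.stronglyMeasurable (𝓕 u : L2 n)).measurable
  have hy : Measurable fun ζ => ((𝓕 y : L2 n) : ST n → ℂ) ζ :=
    (Lp.stronglyMeasurable (𝓕 y : L2 n)).measurable
  have hint : Integrable (fun ζ : ST n =>
      (starRingEnd ℂ) ((𝓕 y : L2 n) ζ) * (𝓕 u : L2 n) ζ) := by
    have h1 : MemLp (fun ζ => ((𝓕 u : L2 n) : ST n → ℂ) ζ) 2 (volume : Measure (ST n)) :=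
      Lp.memLp _
    have h2 : MemLp (fun ζ => ((𝓕 y : L2 n) : ST n → ℂ) ζ) 2 (volume : Measure (ST n)) :=
      Lp.memLp _
    exact h2.star.integrable_mul h1
  rw [inner_FMul (psj_FMul j u) (sa_one_FMul y)]
  have h1 : ∀ s : ℝ, (sag a s : ℂ) * ⟪y, u - tr (s • ev j) u⟫ =
      ∫ ζ : ST n, (sag a s : ℂ) * ((1 : ℂ) - Complex.exp (-(2 * Real.pi * I * (s * ζ j : ℝ)))) *
      ((starRingEnd ℂ) ((𝓕 y : L2 n) ζ) * (𝓕 u : L2 n) ζ) := by
    intro s
    rw [inner_FMul (sa_tr_FMul u s j) (sa_one_FMul y), ← integral_const_mul]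
    refine integral_congr_ae (Eventually.of_forall fun ζ => ?_)
    simp only [map_one, one_mul]
    ring
  simp only [h1]
  rw [integral_integral_swap]
  · refine integral_congr_ae (Eventually.of_forall fun ζ => ?_)
    beta_reduce
    rw [integral_mul_const, map_one, one_mul]
    congr 1
    have h2 : ∀ s : ℝ, (sag a s : ℂ) *
        ((1 : ℂ) - Complex.exp (-(2 * Real.pi * I * (s * ζ j : ℝ)))) =
        (sag a s : ℂ) - (sag a s : ℂ) * Complex.exp (-(2 * Real.pi * I * (s * ζ j : ℝ))) := by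
      intro s; ring
    simp only [h2]
    rw [integral_sub (sag_integrable ha).ofReal, sag_integral ha, sag_fourier ha]
    · rfl
    · refine (sag_integrable ha).ofReal.mul_bdd (c := 1) ?_ ?_
      · fun_prop
      · refine Eventually.of_forall fun s => ?_
        have e : (-(2 * Real.pi * I * (s * ζ j : ℝ)) : ℂ) =
          ((-(2 * Real.pi * (s * ζ j)) : ℝ) : ℂ) * I := by push_cast; ring
        rw [e, Complex.norm_exp_ofReal_mul_I]
  · have h2 := (sag_integrable ha).ofReal (𝕜 := ℂ) |>.mul_prod hint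
    have h3 := h2.mul_bdd (c := 2) (g := fun z : ℝ × ST n =>
      (1 : ℂ) - Complex.exp (-(2 * Real.pi * I * (z.1 * z.2 j : ℝ)))) (by
        have h0 : Measurable fun z : ℝ × ST n => z.2 j := by fun_prop
        refine Measurable.aestronglyMeasurable ?_
        fun_prop) (Eventually.of_forall fun z => by
        refine (norm_sub_le _ _).trans ?_
        have e : (-(2 * Real.pi * I * (z.1 * z.2 j : ℝ)) : ℂ) =
          ((-(2 * Real.pi * (z.1 * z.2 j)) : ℝ) : ℂ) * I := by push_cast; ring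
        rw [e, Complex.norm_exp_ofReal_mul_I]
        norm_num)
    refine h3.congr (Eventually.of_forall fun z => ?_)
    simp only [Function.uncurry, Complex.coe_algebraMap]
    ring

theorem sa_integrable {a : ℝ} (ha : 0 < a) (j : Fin (n + 1)) (u : L2 n) :
    Integrable fun s : ℝ => sag a s * ‖u - tr (s • ev j) u‖ := by
  refine (sag_integrable ha).mul_bdd (c := 2 * ‖u‖) ?_ ?_
  · have h := continuous_tr_ev j u
    exact (continuous_const.sub h).norm.aestronglyMeasurable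
  · refine Eventually.of_forall fun s => ?_
    rw [norm_norm]
    refine (norm_sub_le _ _).trans ?_
    rw [LinearIsometry.norm_map]
    linarith

/-- one factor -/
theorem sa_one {a : ℝ} (ha : 0 < a) (j : Fin (n + 1)) (u : L2 n) :
    ‖u - fOp (psj a j) u‖ ≤ ∫ s : ℝ, sag a s * ‖u - tr (s • ev j) u‖ := by
  have hnn : 0 ≤ ∫ s : ℝ, sag a s * ‖u - tr (s • ev j) u‖ :=
    integral_nonneg fun s => mul_nonneg (sag_nonneg ha s) (norm_nonneg _)
  set y := u - fOp (psj a j) u with hy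
  rcases eq_or_ne y 0 with h0 | h0
  · rw [h0, norm_zero]; exact hnn
  have h1 : ‖y‖ * ‖y‖ ≤ ‖y‖ * ∫ s : ℝ, sag a s * ‖u - tr (s • ev j) u‖ := by
    have h2 : ‖y‖ * ‖y‖ = ‖(⟪y, y⟫ : ℂ)‖ := by
      rw [inner_self_eq_norm_sq_to_K, norm_pow]
      simp [sq]
    rw [h2]
    nth_rewrite 2 [hy]
    rw [sa_inner ha j u y, ← integral_const_mul]
    refine norm_integral_le_of_norm_le ((sa_integrable ha j u).const_mul _)
      (Eventually.of_forall fun s => ?_)
    rw [norm_mul, Complex.norm_real, Real.norm_eq_abs, abs_of_nonneg (sag_nonneg ha s)]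
    have h3 := norm_inner_le_norm (𝕜 := ℂ) y (u - tr (s • ev j) u)
    calc _ ≤ sag a s * (‖y‖ * ‖u - tr (s • ev j) u‖) :=
          mul_le_mul_of_nonneg_left h3 (sag_nonneg ha s)
      _ = _ := by ring
  exact le_of_mul_le_mul_left h1 (norm_pos_iff.2 h0)

/-- partial products of the symbol -/
def pst (k : ℤ) (T : Finset (Fin (n + 1))) (ζ : ST n) : ℂ :=
  (Real.exp (-Real.pi * ∑ j ∈ T, (ζ j / sc k j) ^ 2) : ℂ)

theorem bm_pst (k : ℤ) (T : Finset (Fin (n + 1))) : BM (pst (n := n) k T) := by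
  refine ⟨?_, 1, ?_⟩
  · unfold pst
    have : Measurable fun ζ : ST n => ∑ j ∈ T, (ζ j / sc k j) ^ 2 := by fun_prop
    fun_prop
  · intro z
    unfold pst
    rw [Complex.norm_real, Real.norm_eq_abs, Real.abs_exp]
    rw [Real.exp_le_one_iff]
    have := Real.pi_pos
    have h2 : 0 ≤ ∑ j ∈ T, (z j / sc k j) ^ 2 := Finset.sum_nonneg fun j _ => sq_nonneg _
    nlinarith

theorem sa_partial (k : ℤ) (u : L2 n) (T : Finset (Fin (n + 1))) :
    ‖u - fOp (pst k T) u‖ ≤ ∑ j ∈ T, ∫ s : ℝ, sag (sc k j) s * ‖u - tr (s • ev j) u‖ := by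
  classical
  induction T using Finset.induction_on with
  | empty =>
    have h : (pst k ∅ : ST n → ℂ) = fun _ => 1 := by
      funext ζ; simp [pst]
    have h2 : fOp (fun _ : ST n => (1 : ℂ)) u = u := by
      exact (FMul_fOp (BM.const 1) u).unique (sa_one_FMul u)
    rw [h, h2]
    simp
  | insert j T hj ih =>
    have h : (pst k (insert j T) : ST n → ℂ) = fun ζ => pst k T ζ * psj (sc k j) j ζ := by
      funext ζ
      simp only [pst, psj]
      rw [← Complex.ofReal_mul, ← Real.exp_add, Finset.sum_insert hj]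
      congr 2
      ring
    rw [h, ← fOp_fOp (bm_pst k T) (bm_psj _ _), Finset.sum_insert hj]
    have e : u - fOp (pst k T) (fOp (psj (sc k j) j) u) =
        fOp (pst k T) (u - fOp (psj (sc k j) j) u) + (u - fOp (pst k T) u) := by
      rw [map_sub]; abel
    rw [e]
    refine (norm_add_le _ _).trans (add_le_add ?_ ih)
    have h1 : ‖fOp (pst k T) (u - fOp (psj (sc k j) j) u)‖ ≤
        1 * ‖u - fOp (psj (sc k j) j) u‖ := by
      refine norm_fOp_le (bm_pst k T).meas ?_ _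
      intro z
      unfold pst
      rw [Complex.norm_real, Real.norm_eq_abs, Real.abs_exp, Real.exp_le_one_iff]
      have := Real.pi_pos
      have h2 : 0 ≤ ∑ j ∈ T, (z j / sc k j) ^ 2 := Finset.sum_nonneg fun j _ => sq_nonneg _
      nlinarith
    rw [one_mul] at h1
    exact h1.trans (sa_one (sc_pos k j) j u)

/-- `P_k` is an average of translations: with the Gaussian density of width `1/sc k j` -/
theorem norm_sub_Pk_le (k : ℤ) (u : L2 n) :
    ‖u - Pk k u‖ ≤ ∑ j : Fin (n + 1), ∫ s : ℝ, sc k j * Real.exp (-Real.pi * (sc k j * s) ^ 2)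
      * ‖u - tr (s • ev j) u‖ := sa_partial k u Finset.univ

end

end Pool.Agent.W_eb6199
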