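import Pool.Agent.W_eb6199.Defs

/-!
# MP_eb6199_an : the objects of the statement

Space-time is `ST n = ℝ^{1+n}` with coordinate `0` the time `t` and coordinates `i.succ` the space
variables `x_i`; `L2 n = L²(ℝ^{1+n}; ℂ)`.  From `Defs`: `FMul m u w` means `ŵ = m û` (Plancherel
transform `𝓕` of Mathlib, `û(ζ) = ∫ u(z) e^{-2πi z·ζ} dz`), `gsym 0 ζ = |2π τ|^{1/2}`
(`τ = ζ 0`), `gsym i.succ ζ = 2πi ζ_i`, `En n = E = {u ∈ L² : ∇_x u, D_t^{1/2} u ∈ L²}`,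
`D 0 u = D_t^{1/2} u`, `D i.succ u = ∂_{x_i} u` for `u ∈ E`, and `Ht` is the Hilbert transform in
time (symbol `i sgn τ`).
-/

open MeasureTheory Complex
open scoped FourierTransform ComplexInnerProductSpace ENNReal NNReal

namespace Pool.Agent.W_eb6199

noncomputable section

variable {n : ℕ}

/-- Real measurable coefficients with `|A ξ·ζ| ≤ M |ξ||ζ|` and `ν |ξ|² ≤ Re (A ξ·conj ξ)` for all
`ξ, ζ ∈ ℂⁿ`, at almost every point. -/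
structure IsCoeff (a : Fin n → Fin n → ST n → ℝ) : Prop where
  meas : ∀ i j, Measurable (a i j)
  bounds : ∃ M ν : ℝ, 0 < M ∧ 0 < ν ∧ ∀ᵐ z ∂(volume : Measure (ST n)),
    (∀ ξ ζ : EuclideanSpace ℂ (Fin n),
      ‖∑ i, (∑ j, (a i j z : ℂ) * ξ j) * ζ i‖ ≤ M * ‖ξ‖ * ‖ζ‖) ∧
    (∀ ξ : EuclideanSpace ℂ (Fin n),
      ν * ‖ξ‖ ^ 2 ≤ (∑ i, (∑ j, (a i j z : ℂ) * ξ j) * (starRingEnd ℂ) (ξ i)).re)

/-- The form `H(u)(v) = ∬ H_t D_t^{1/2} u · conj (D_t^{1/2} v) + A ∇_x u · conj (∇_x v)`. -/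
def formH (a : Fin n → Fin n → ST n → ℝ) (u v : L2 n) : ℂ :=
  ∫ z, ((Ht (D 0 u) : L2 n) z * (starRingEnd ℂ) ((D 0 v) z)
    + ∑ i : Fin n, (∑ j : Fin n, (a i j z : ℂ) * (D j.succ u) z)
        * (starRingEnd ℂ) ((D i.succ v) z))

/-- The graph of the part of `H` in `L²`: `u` is in the domain and `H u = f`. -/
def IsH (a : Fin n → Fin n → ST n → ℝ) (u f : L2 n) : Prop :=
  u ∈ En n ∧ ∀ v ∈ En n, formH a u v = ∫ z, f z * (starRingEnd ℂ) (v z)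

/-- The part of `H` in `L²` is m-accretive: `Re (Hu, u) ≥ 0`, and for all `l > 0`, `f ∈ L²` the
equation `u + l² H u = f` has exactly one solution. -/
def IsMAccretive (a : Fin n → Fin n → ST n → ℝ) : Prop :=
  (∀ u f, IsH a u f → 0 ≤ (∫ z, f z * (starRingEnd ℂ) (u z)).re) ∧
    ∀ l : ℝ, 0 < l → ∀ f : L2 n, ∃! u : L2 n, IsH a u (((l : ℂ) ^ 2)⁻¹ • (f - u))

open Classical in
/-- The resolvent `(1 + l² H)^{-1} f`, i.e. the solution `u` of `u + l² H u = f`. -/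
def resH (a : Fin n → Fin n → ST n → ℝ) (l : ℝ) (f : L2 n) : L2 n :=
  if h : ∃ u : L2 n, IsH a u (((l : ℂ) ^ 2)⁻¹ • (f - u)) then h.choose else 0

/-- `g = H^{1/2} u` for `u` in the domain of `H`, by Balakrishnan's formula
`H^{1/2} u = (1/π) ∫_0^∞ s^{-1/2} (s + H)^{-1} H u ds = (2/π) ∫_0^∞ (1 + l² H)^{-1} H u dl`
(`s = l^{-2}`), an absolutely convergent integral. -/
def IsSqrtH (a : Fin n → Fin n → ST n → ℝ) (u g : L2 n) : Prop :=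
  ∃ f, IsH a u f ∧ IntegrableOn (fun l : ℝ => resH a l f) (Set.Ioi 0) ∧
    g = ((2 / Real.pi : ℝ) : ℂ) • ∫ l in Set.Ioi (0 : ℝ), resH a l f

/-- `R = (R_0, R_1, …, R_n)` is the parabolic Riesz transform `𝔻 H^{-1/2}`: bounded operators on
`L²` with `R_j (H^{1/2} u) = 𝔻_j u`, i.e. `R_0 (H^{1/2} u) = D_t^{1/2} u` and
`R_{i+1} (H^{1/2} u) = ∂_{x_i} u`, for all `u` in the domain of `H`. -/
def IsRiesz (a : Fin n → Fin n → ST n → ℝ) (R : Fin (n + 1) → L2 n →L[ℂ] L2 n) : Prop :=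
  ∀ u g, IsSqrtH a u g → ∀ j, R j g = D j u

/-- Weak type `(1,1)`: `|{|R f| > α}| ≤ C α^{-1} ‖f‖₁` for all `f ∈ L¹ ∩ L²` and `α > 0`. -/
def WeakType11 (R : Fin (n + 1) → L2 n →L[ℂ] L2 n) : Prop :=
  ∃ C : ℝ, 0 ≤ C ∧ ∀ f : L2 n, Integrable (fun z => f z) → ∀ α : ℝ, 0 < α →
    volume {z | α < Real.sqrt (∑ j, ‖(R j f) z‖ ^ 2)}
      ≤ ENNReal.ofReal (C * α⁻¹ * ∫ z, ‖f z‖)

end

end Pool.Agent.W_eb6199
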