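import Pool.Agent.W_eb6199.Defs

open MeasureTheory Complex Filter Topology
open scoped FourierTransform ComplexInnerProductSpace ENNReal NNReal

namespace Pool.Agent.W_eb6199

noncomputable section

variable {n : ℕ}

/-! T36b: cones. -/

/-- bilinear dot product -/
def bdot (w v : Fin n → ℂ) : ℂ := ∑ i, w i * v i

/-- Euclidean norm -/
def nrm (v : Fin n → ℂ) : ℝ := Real.sqrt (∑ i, ‖v i‖ ^ 2)

theorem nrm_eq (v : Fin n → ℂ) : nrm v = ‖(WithLp.toLp 2 v : EuclideanSpace ℂ (Fin n))‖ := by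
  rw [EuclideanSpace.norm_eq]
  rfl

theorem nrm_nonneg (v : Fin n → ℂ) : 0 ≤ nrm v := Real.sqrt_nonneg _

theorem nrm_sq (v : Fin n → ℂ) : nrm v ^ 2 = ∑ i, ‖v i‖ ^ 2 :=
  Real.sq_sqrt (Finset.sum_nonneg fun _ _ => sq_nonneg _)

theorem norm_bdot_le (w v : Fin n → ℂ) : ‖bdot w v‖ ≤ nrm w * nrm v := by
  unfold bdot
  refine (norm_sum_le _ _).trans ?_
  have h : ∑ i, ‖w i * v i‖ = ∑ i, ‖w i‖ * ‖v i‖ :=
    Finset.sum_congr rfl fun i _ => norm_mul _ _
  rw [h]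
  unfold nrm
  rw [← Real.sqrt_mul (Finset.sum_nonneg fun _ _ => sq_nonneg _)]
  refine Real.le_sqrt_of_sq_le ?_
  exact Finset.sum_mul_sq_le_sq_mul_sq _ _ _

theorem exists_cone_net (hn : 0 < n) {ε : ℝ} (hε : 0 < ε) :
    ∃ W : Finset (Fin n → ℂ), (∀ w ∈ W, ∑ i, ‖w i‖ ^ 2 = 1) ∧
      ∀ γ : Fin n → ℂ, ∃ w ∈ W, nrm (fun i => γ i - (nrm γ : ℂ) * w i) ≤ ε * nrm γ := by
  classical
  haveI : Nonempty (Fin n) := ⟨⟨0, hn⟩⟩
  have hcpt : IsCompact (Metric.sphere (0 : EuclideanSpace ℂ (Fin n)) 1) := isCompact_sphere _ _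
  obtain ⟨t, hts, htf, hcov⟩ := hcpt.finite_cover_balls hε
  refine ⟨htf.toFinset.image fun x => (WithLp.ofLp x : Fin n → ℂ), ?_, ?_⟩
  · intro w hw
    rw [Finset.mem_image] at hw
    obtain ⟨x, hx, rfl⟩ := hw
    rw [Set.Finite.mem_toFinset] at hx
    have h1 := hts hx
    rw [mem_sphere_zero_iff_norm, EuclideanSpace.norm_eq] at h1
    have h2 := congrArg (fun y => y ^ 2) h1
    simp only [one_pow] at h2
    rwa [Real.sq_sqrt (Finset.sum_nonneg fun _ _ => sq_nonneg _)] at h2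
  · intro γ
    -- a unit vector exists
    have hunit : ∃ e : EuclideanSpace ℂ (Fin n), ‖e‖ = 1 ∧
        ∀ i, γ i = (nrm γ : ℂ) * e i := by
      by_cases h0 : nrm γ = 0
      · refine ⟨EuclideanSpace.single (Classical.arbitrary _) 1, by simp, ?_⟩
        intro i
        have h1 : ∑ i, ‖γ i‖ ^ 2 = 0 := by rw [← nrm_sq, h0]; norm_num
        rw [Finset.sum_eq_zero_iff_of_nonneg (fun _ _ => sq_nonneg _)] at h1
        have h2 := h1 i (Finset.mem_univ _)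
        rw [h0]
        simpa using h2
      · refine ⟨((nrm γ : ℂ)⁻¹) • (WithLp.toLp 2 γ : EuclideanSpace ℂ (Fin n)), ?_, ?_⟩
        · rw [norm_smul, ← nrm_eq, norm_inv, Complex.norm_real, Real.norm_eq_abs,
            abs_of_nonneg (nrm_nonneg γ)]
          exact inv_mul_cancel₀ h0
        · intro i
          simp only [PiLp.smul_apply, smul_eq_mul]
          rw [← mul_assoc, mul_inv_cancel₀ (by exact_mod_cast h0), one_mul]
    obtain ⟨e, he1, he2⟩ := hunit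
    have hmem : e ∈ Metric.sphere (0 : EuclideanSpace ℂ (Fin n)) 1 := by simp [he1]
    have h3 := hcov hmem
    simp only [Set.mem_iUnion, Metric.mem_ball] at h3
    obtain ⟨x, hx, hdist⟩ := h3
    refine ⟨WithLp.ofLp x, Finset.mem_image.2 ⟨x, (Set.Finite.mem_toFinset _).2 hx, rfl⟩, ?_⟩
    have h4 : (fun i => γ i - (nrm γ : ℂ) * (WithLp.ofLp x : Fin n → ℂ) i)
        = WithLp.ofLp ((nrm γ : ℂ) • (e - x)) := by
      ext i
      simp only [PiLp.smul_apply, PiLp.sub_apply, smul_eq_mul]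
      rw [he2 i]
      simp only [mul_sub]
    rw [h4, nrm_eq]
    rw [WithLp.toLp_ofLp, norm_smul, Complex.norm_real, Real.norm_eq_abs,
      abs_of_nonneg (nrm_nonneg γ), mul_comm]
    rw [dist_eq_norm] at hdist
    exact mul_le_mul_of_nonneg_right hdist.le (nrm_nonneg γ)

theorem cone_lower {w v γ : Fin n → ℂ} {ε : ℝ} (hε : 0 < ε)
    (hγ : nrm (fun i => γ i - (nrm γ : ℂ) * w i) ≤ ε * nrm γ)
    (hv : nrm v ≤ 1 / (4 * ε)) (hw : 3 / 4 ≤ (bdot w v).re) :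
    nrm γ ≤ 2 * ‖bdot γ v‖ := by
  have h1 : bdot γ v = (nrm γ : ℂ) * bdot w v
      + bdot (fun i => γ i - (nrm γ : ℂ) * w i) v := by
    unfold bdot
    rw [Finset.mul_sum, ← Finset.sum_add_distrib]
    refine Finset.sum_congr rfl fun i _ => ?_
    ring
  have h2 : ‖(nrm γ : ℂ) * bdot w v‖ ≥ nrm γ * (3 / 4) := by
    rw [norm_mul, Complex.norm_real, Real.norm_eq_abs, abs_of_nonneg (nrm_nonneg γ)]
    exact mul_le_mul_of_nonneg_left (hw.trans (Complex.re_le_norm _)) (nrm_nonneg γ)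
  have h3 : ‖bdot (fun i => γ i - (nrm γ : ℂ) * w i) v‖ ≤ nrm γ * (1 / 4) := by
    refine (norm_bdot_le _ _).trans ?_
    calc nrm (fun i => γ i - (nrm γ : ℂ) * w i) * nrm v
        ≤ (ε * nrm γ) * (1 / (4 * ε)) :=
          mul_le_mul hγ hv (nrm_nonneg _) (mul_nonneg hε.le (nrm_nonneg _))
      _ = nrm γ * (1 / 4) := by field_simp
  have h4 : ‖(nrm γ : ℂ) * bdot w v‖ ≤ ‖bdot γ v‖
      + ‖bdot (fun i => γ i - (nrm γ : ℂ) * w i) v‖ := by
    have : (nrm γ : ℂ) * bdot w v = bdot γ v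
        - bdot (fun i => γ i - (nrm γ : ℂ) * w i) v := by rw [h1]; ring
    rw [this]
    exact norm_sub_le _ _
  linarith

end

end Pool.Agent.W_eb6199
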