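import Pool.Agent.W_eb6199.TbStop
import Pool.Agent.W_eb6199.TbCone
import Pool.Agent.W_eb6199.EkBasic

open MeasureTheory Complex Filter Topology
open scoped FourierTransform ComplexInnerProductSpace ENNReal NNReal

namespace Pool.Agent.W_eb6199

noncomputable section

variable {n : ℕ}

/-! T36c: measure of the bad set. -/

/-- comparison of integrals over unions of cubes -/
theorem lintegral_le_of_cubes_le {k' : ℤ} {g₁ g₂ : ST n → ℝ≥0∞} {E : Set (ST n)}
    (hE : MeasurableSet E)
    (hE' : ∀ m : Fin (n + 1) → ℤ, cube k' m ⊆ E ∨ Disjoint (cube k' m) E)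
    (h : ∀ m : Fin (n + 1) → ℤ, cube k' m ⊆ E →
      ∫⁻ z in cube k' m, g₁ z ≤ ∫⁻ z in cube k' m, g₂ z) :
    ∫⁻ z in E, g₁ z ≤ ∫⁻ z in E, g₂ z := by
  rw [← lintegral_indicator hE, ← lintegral_indicator hE, lintegral_eq_tsum_cubes k',
    lintegral_eq_tsum_cubes k' (E.indicator g₂)]
  refine ENNReal.tsum_le_tsum fun m => ?_
  rcases hE' m with hm | hm
  · have e : ∀ g : ST n → ℝ≥0∞,
        ∫⁻ z in cube k' m, E.indicator g z = ∫⁻ z in cube k' m, g z := by
      intro g
      refine setLIntegral_congr_fun (measurableSet_cube _ _) ?_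
      intro z hz
      simp [hm hz]
    rw [e, e]
    exact h m hm
  · have e : ∀ g : ST n → ℝ≥0∞, ∫⁻ z in cube k' m, E.indicator g z = 0 := by
      intro g
      have : ∫⁻ z in cube k' m, E.indicator g z = ∫⁻ z in cube k' m, 0 := by
        refine setLIntegral_congr_fun (measurableSet_cube _ _) ?_
        intro z hz
        have : z ∉ E := Set.disjoint_left.1 hm hz
        simp [this]
      rw [this]
      simp
    rw [e, e]

theorem lintegral_biUnion_le_of_cubes_le {I : Finset ℤ} {g₁ g₂ : ST n → ℝ≥0∞}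
    {E : ℤ → Set (ST n)} (hE : ∀ k' ∈ I, MeasurableSet (E k'))
    (hd : (I : Set ℤ).PairwiseDisjoint E)
    (hE' : ∀ k' ∈ I, ∀ m : Fin (n + 1) → ℤ, cube k' m ⊆ E k' ∨ Disjoint (cube k' m) (E k'))
    (h : ∀ k' ∈ I, ∀ m : Fin (n + 1) → ℤ, cube k' m ⊆ E k' →
      ∫⁻ z in cube k' m, g₁ z ≤ ∫⁻ z in cube k' m, g₂ z) :
    ∫⁻ z in ⋃ k' ∈ I, E k', g₁ z ≤ ∫⁻ z in ⋃ k' ∈ I, E k', g₂ z := by
  rw [lintegral_biUnion_finset hd hE, lintegral_biUnion_finset hd hE]
  exact Finset.sum_le_sum fun k' hk' => lintegral_le_of_cubes_le (hE k' hk') (hE' k' hk')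
    (h k' hk')

/-- the bad cubes of the stopping time argument -/
def badP (ε : ℝ) (w : Fin n → ℂ) (F : Fin n → L2 n) (k : ℤ) (m : Fin (n + 1) → ℤ) : Prop :=
  1 / (4 * ε) < nrm (fun i => avg k m (F i)) ∨ (bdot w (fun i => avg k m (F i))).re < 3 / 4

theorem volume_cube_lt_top (k : ℤ) (m : Fin (n + 1) → ℤ) : volume (cube k m) < ∞ := by
  rw [volume_cube]
  exact ENNReal.ofReal_lt_top

theorem tb_integrableOn_cube (k : ℤ) (m : Fin (n + 1) → ℤ) (u : L2 n) :
    IntegrableOn (fun z => u z) (cube k m) := by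
  have h1 : MemLp (fun z => u z) 2 (volume.restrict (cube k m)) := (Lp.memLp u).restrict _
  have : IsFiniteMeasure (volume.restrict (cube (n := n) k m)) :=
    ⟨by rw [Measure.restrict_apply_univ]; exact volume_cube_lt_top k m⟩
  exact h1.integrable (by norm_num)

theorem integrableOn_bdot (w : Fin n → ℂ) (F : Fin n → L2 n) (k : ℤ) (m : Fin (n + 1) → ℤ) :
    IntegrableOn (fun z => bdot w (fun i => F i z)) (cube k m) := by
  unfold bdot
  exact integrable_finsetSum _ fun i _ => (tb_integrableOn_cube k m (F i)).const_mul (w i)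

theorem setIntegral_bdot (w : Fin n → ℂ) (F : Fin n → L2 n) (k : ℤ) (m : Fin (n + 1) → ℤ) :
    ∫ z in cube k m, bdot w (fun i => F i z)
      = (qv n k : ℂ) * bdot w (fun i => avg k m (F i)) := by
  unfold bdot
  rw [integral_finsetSum _ fun i _ => (tb_integrableOn_cube k m (F i)).const_mul (w i),
    Finset.mul_sum]
  refine Finset.sum_congr rfl fun i _ => ?_
  rw [integral_const_mul]
  simp only [avg, Complex.real_smul]
  have hq : (qv n k : ℂ) ≠ 0 := by exact_mod_cast (qv_pos n k).ne'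
  push_cast
  field_simp

theorem setIntegral_re_bdot (w : Fin n → ℂ) (F : Fin n → L2 n) (k : ℤ)
    (m : Fin (n + 1) → ℤ) :
    ∫ z in cube k m, (bdot w (fun i => F i z)).re
      = qv n k * (bdot w (fun i => avg k m (F i))).re := by
  have h := integral_re (𝕜 := ℂ) (integrableOn_bdot w F k m)
  have h2 : ∫ z in cube k m, (bdot w (fun i => F i z)).re
      = (∫ z in cube k m, bdot w (fun i => F i z)).re := h
  rw [h2, setIntegral_bdot]
  simp

theorem bad_measure {k₀ : ℤ} {m₀ : Fin (n + 1) → ℤ} {F : Fin n → L2 n} {w : Fin n → ℂ}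
    {C ε : ℝ} (hC : 1 ≤ C) (hε : 0 < ε) (hε2 : 2048 * C ^ 2 * ε ^ 2 ≤ 1)
    (hw : ∑ i, ‖w i‖ ^ 2 = 1) (hF : ∑ i, ‖F i‖ ^ 2 ≤ C * qv n k₀)
    (havg : 7 / 8 ≤ (bdot w (fun i => avg k₀ m₀ (F i))).re) (K : ℤ) :
    volume {z | z ∈ cube k₀ m₀ ∧ ∃ k' ∈ Finset.Icc k₀ K, badP ε w F k' (idx k' z)}
      ≤ ENNReal.ofReal ((1 - 1 / (128 * C)) * qv n k₀) := by
  classical
  set I := Finset.Icc k₀ K with hI
  set B : ℤ → Set (ST n) := fun k' => firstBad (badP ε w F) k₀ m₀ k' with hB
  set P1 : ℤ → Set (ST n) := fun k' => {z | 1 / (4 * ε) < nrm (fun i => avg k' (idx k' z) (F i))}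
    with hP1
  have hP1m : ∀ k', MeasurableSet (P1 k') := fun k' =>
    measurableSet_bad (fun k m => 1 / (4 * ε) < nrm (fun i => avg k m (F i))) k'
  set E1 : ℤ → Set (ST n) := fun k' => B k' ∩ P1 k' with hE1
  set E2 : ℤ → Set (ST n) := fun k' => B k' \ P1 k' with hE2
  have hBm : ∀ k', MeasurableSet (B k') := fun k' => measurableSet_firstBad _ _ _ _
  have hE1m : ∀ k', MeasurableSet (E1 k') := fun k' => (hBm k').inter (hP1m k')
  have hE2m : ∀ k', MeasurableSet (E2 k') := fun k' => (hBm k').diff (hP1m k')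
  have hdB : (I : Set ℤ).PairwiseDisjoint B := by
    intro a ha b hb hab
    exact disjoint_firstBad _ m₀ (Finset.mem_Icc.1 ha).1 (Finset.mem_Icc.1 hb).1 hab
  have hd1 : (I : Set ℤ).PairwiseDisjoint E1 := fun a ha b hb hab =>
    (hdB ha hb hab).mono Set.inter_subset_left Set.inter_subset_left
  have hd2 : (I : Set ℤ).PairwiseDisjoint E2 := fun a ha b hb hab =>
    (hdB ha hb hab).mono Set.sdiff_subset Set.sdiff_subset
  have hcB : ∀ k' ∈ I, ∀ m : Fin (n + 1) → ℤ, cube k' m ⊆ B k' ∨ Disjoint (cube k' m) (B k') :=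
    fun k' hk' m => cube_subset_or_disjoint_firstBad _ (Finset.mem_Icc.1 hk').1 m₀ m
  have hcP : ∀ k' (m : Fin (n + 1) → ℤ), cube k' m ⊆ P1 k' ∨ Disjoint (cube k' m) (P1 k') := by
    intro k' m
    by_cases hb : 1 / (4 * ε) < nrm (fun i => avg k' m (F i))
    · left
      intro z hz
      rw [mem_cube_iff] at hz
      simp only [hP1, Set.mem_ofPred_eq, hz]
      exact hb
    · right
      rw [Set.disjoint_left]
      intro z hz hz2
      rw [mem_cube_iff] at hz
      simp only [hP1, Set.mem_ofPred_eq, hz] at hz2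
      exact hb hz2
  have hc1 : ∀ k' ∈ I, ∀ m : Fin (n + 1) → ℤ,
      cube k' m ⊆ E1 k' ∨ Disjoint (cube k' m) (E1 k') := by
    intro k' hk' m
    rcases hcB k' hk' m with h1 | h1
    · rcases hcP k' m with h2 | h2
      · exact Or.inl (Set.subset_inter h1 h2)
      · exact Or.inr (h2.mono_right Set.inter_subset_right)
    · exact Or.inr (h1.mono_right Set.inter_subset_left)
  have hc2 : ∀ k' ∈ I, ∀ m : Fin (n + 1) → ℤ,
      cube k' m ⊆ E2 k' ∨ Disjoint (cube k' m) (E2 k') := by
    intro k' hk' m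
    rcases hcB k' hk' m with h1 | h1
    · rcases hcP k' m with h2 | h2
      · right
        rw [Set.disjoint_left]
        intro z hz hz2
        exact hz2.2 (h2 hz)
      · left
        intro z hz
        exact ⟨h1 hz, Set.disjoint_left.1 h2 hz⟩
    · exact Or.inr (h1.mono_right Set.sdiff_subset)
  have hqpos := qv_pos n k₀
  -- the total set
  set U1 := ⋃ k' ∈ I, E1 k' with hU1
  set U2 := ⋃ k' ∈ I, E2 k' with hU2
  have hU1m : MeasurableSet U1 := Finset.measurableSet_biUnion _ fun k' _ => hE1m k'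
  have hU2m : MeasurableSet U2 := Finset.measurableSet_biUnion _ fun k' _ => hE2m k'
  have hsub : {z | z ∈ cube k₀ m₀ ∧ ∃ k' ∈ Finset.Icc k₀ K, badP ε w F k' (idx k' z)}
      ⊆ U1 ∪ U2 := by
    refine (bad_subset_iUnion_firstBad _ _ _ _).trans ?_
    intro z hz
    simp only [Set.mem_iUnion] at hz
    obtain ⟨k', hk', hz⟩ := hz
    by_cases hp : z ∈ P1 k'
    · left
      simp only [hU1, Set.mem_iUnion]
      exact ⟨k', hk', hz, hp⟩
    · right
      simp only [hU2, Set.mem_iUnion]
      exact ⟨k', hk', hz, hp⟩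
  have hU2Q : U2 ⊆ cube k₀ m₀ := by
    intro z hz
    simp only [hU2, Set.mem_iUnion] at hz
    obtain ⟨k', hk', hz⟩ := hz
    exact hz.1.1
  -- first kind
  have hmF : ∀ i, AEMeasurable (fun z => ‖F i z‖ₑ ^ 2) (volume : Measure (ST n)) := fun i =>
    (Lp.aestronglyMeasurable (F i)).enorm.pow_const 2
  have hvol1 : volume U1 ≤ ENNReal.ofReal (16 * ε ^ 2 * (C * qv n k₀)) := by
    have h1 : ∫⁻ z in U1, 1 ≤ ∫⁻ z in U1, ENNReal.ofReal (16 * ε ^ 2) * ∑ i, ‖F i z‖ₑ ^ 2 := by
      refine lintegral_biUnion_le_of_cubes_le (fun k' _ => hE1m k') hd1 hc1 ?_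
      intro k' hk' m hm
      have hbad : 1 / (4 * ε) < nrm (fun i => avg k' m (F i)) := by
        obtain ⟨z, hz⟩ := cube_nonempty k' m
        have h2 := (hm hz).2
        rw [mem_cube_iff] at hz
        simp only [hP1, Set.mem_ofPred_eq, hz] at h2
        exact h2
      have h3 : ∫⁻ z in cube k' m, 1 = ENNReal.ofReal (qv n k') := by
        rw [setLIntegral_one, volume_cube]
      rw [h3, lintegral_const_mul'' _ (by
        exact (Finset.aemeasurable_fun_sum _ fun i _ => (hmF i).restrict)),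
        lintegral_finsetSum' _ fun i _ => (hmF i).restrict]
      have h4 : ∀ i, ENNReal.ofReal (qv n k' * ‖avg k' m (F i)‖ ^ 2)
          ≤ ∫⁻ z in cube k' m, ‖F i z‖ₑ ^ 2 := by
        intro i
        have h5 := qv_mul_norm_avg_sq_le k' m (F i)
        refine (ENNReal.ofReal_le_ofReal h5).trans ?_
        rw [ofReal_integral_eq_lintegral_ofReal (integrable_norm_sq (F i)).integrableOn
          (Filter.Eventually.of_forall fun z => sq_nonneg _)]
        refine lintegral_mono fun z => ?_
        rw [ENNReal.ofReal_pow (norm_nonneg _), ofReal_norm]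
      calc ENNReal.ofReal (qv n k')
          ≤ ENNReal.ofReal (16 * ε ^ 2 * ∑ i, qv n k' * ‖avg k' m (F i)‖ ^ 2) := by
            refine ENNReal.ofReal_le_ofReal ?_
            rw [← Finset.mul_sum, ← nrm_sq]
            have hq' := qv_pos n k'
            have h6 : 1 ≤ 4 * ε * nrm (fun i => avg k' m (F i)) := by
              rw [div_lt_iff₀ (by positivity)] at hbad
              linarith
            have h7 : 1 ≤ (4 * ε * nrm (fun i => avg k' m (F i))) ^ 2 := one_le_pow₀ h6
            calc qv n k' = qv n k' * 1 := (mul_one _).symm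
              _ ≤ qv n k' * (4 * ε * nrm (fun i => avg k' m (F i))) ^ 2 := by gcongr
              _ = _ := by ring
        _ = ENNReal.ofReal (16 * ε ^ 2) * ∑ i, ENNReal.ofReal (qv n k' * ‖avg k' m (F i)‖ ^ 2) := by
            rw [ENNReal.ofReal_mul (by positivity), ENNReal.ofReal_sum_of_nonneg]
            intro i _
            have hq' := qv_pos n k'
            positivity
        _ ≤ _ := by
            gcongr with i
            exact h4 i
    rw [setLIntegral_one] at h1
    refine h1.trans ?_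
    refine (setLIntegral_le_lintegral _ _).trans ?_
    rw [lintegral_const_mul'' _ (Finset.aemeasurable_fun_sum _ fun i _ => hmF i),
      lintegral_finsetSum' _ fun i _ => hmF i,
      ENNReal.ofReal_mul (p := 16 * ε ^ 2) (q := C * qv n k₀) (by positivity)]
    gcongr
    have h8 : ∑ i, ∫⁻ z, ‖F i z‖ₑ ^ 2 = ENNReal.ofReal (∑ i, ‖F i‖ ^ 2) := by
      rw [ENNReal.ofReal_sum_of_nonneg fun i _ => sq_nonneg _]
      exact Finset.sum_congr rfl fun i _ => (ofReal_norm_sq (F i)).symm
    rw [h8]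
    exact ENNReal.ofReal_le_ofReal hF
  -- second kind
  set φ : ST n → ℝ := fun z => (bdot w (fun i => F i z)).re with hφ
  have hφint : IntegrableOn φ (cube k₀ m₀) := (integrableOn_bdot w F k₀ m₀).re
  have hφintk : ∀ k m, IntegrableOn φ (cube k m) := fun k m => (integrableOn_bdot w F k m).re
  have hvQ : volume.real (cube k₀ m₀) = qv n k₀ := by
    rw [Measure.real, volume_cube, ENNReal.toReal_ofReal hqpos.le]
  have hfinQ : volume (cube k₀ m₀) ≠ ∞ := (volume_cube_lt_top k₀ m₀).ne
  have hvol2 : volume.real U2 ≤ (1 - 1 / (64 * C)) * qv n k₀ := by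
    have hfin2 : volume U2 ≠ ∞ := ne_top_of_le_ne_top hfinQ (measure_mono hU2Q)
    have h1 : ∫⁻ z in U2, ENNReal.ofReal (-(3 / 4 - φ z)) ≤ ∫⁻ z in U2, ENNReal.ofReal (3 / 4 - φ z) := by
      refine lintegral_biUnion_le_of_cubes_le (fun k' _ => hE2m k') hd2 hc2 ?_
      intro k' hk' m hm
      have hbad : (bdot w (fun i => avg k' m (F i))).re < 3 / 4 := by
        obtain ⟨z, hz⟩ := cube_nonempty k' m
        have h2 := (hm hz).2
        have h3 : badP ε w F k' (idx k' z) := (hm hz).1.2.1
        rw [mem_cube_iff] at hz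
        simp only [hP1, Set.mem_ofPred_eq, hz] at h2
        rw [hz] at h3
        rcases h3 with h3 | h3
        · exact absurd h3 h2
        · exact h3
      have hfin : volume (cube k' m) ≠ ∞ := (volume_cube_lt_top k' m).ne
      have hcon : IntegrableOn (fun _ : ST n => (3 / 4 : ℝ)) (cube k' m) := integrableOn_const hfin
      have hint : IntegrableOn (fun z => 3 / 4 - φ z) (cube k' m) := hcon.sub (hφintk k' m)
      have h4 : 0 ≤ ∫ z in cube k' m, (3 / 4 - φ z) := by
        rw [integral_sub hcon (hφintk k' m), setIntegral_const,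
          setIntegral_re_bdot, Measure.real, volume_cube, ENNReal.toReal_ofReal (qv_pos n k').le,
          smul_eq_mul, ← mul_sub]
        have := qv_pos n k'
        have h5 : 0 ≤ 3 / 4 - (bdot w (fun i => avg k' m (F i))).re := by linarith
        positivity
      rw [integral_eq_lintegral_pos_part_sub_lintegral_neg_part hint] at h4
      have hf1 : ∫⁻ z in cube k' m, ENNReal.ofReal (3 / 4 - φ z) ≠ ∞ :=
        (hint.lintegral_lt_top).ne
      have hf2 : ∫⁻ z in cube k' m, ENNReal.ofReal (-(3 / 4 - φ z)) ≠ ∞ :=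
        (hint.neg.lintegral_lt_top).ne
      exact (ENNReal.toReal_le_toReal hf2 hf1).1 (by linarith)
    have hcon2 : IntegrableOn (fun _ : ST n => (3 / 4 : ℝ)) U2 := integrableOn_const hfin2
    have hint2 : IntegrableOn (fun z => 3 / 4 - φ z) U2 := hcon2.sub (hφint.mono_set hU2Q)
    have hf1 : ∫⁻ z in U2, ENNReal.ofReal (3 / 4 - φ z) ≠ ∞ := (hint2.lintegral_lt_top).ne
    have hf2 : ∫⁻ z in U2, ENNReal.ofReal (-(3 / 4 - φ z)) ≠ ∞ :=
      (hint2.neg.lintegral_lt_top).ne
    have h2 : 0 ≤ ∫ z in U2, (3 / 4 - φ z) := by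
      rw [integral_eq_lintegral_pos_part_sub_lintegral_neg_part hint2]
      have := (ENNReal.toReal_le_toReal hf2 hf1).2 h1
      linarith
    rw [integral_sub hcon2 (hφint.mono_set hU2Q), setIntegral_const,
      smul_eq_mul] at h2
    -- integral over the complement
    have h3 : ∫ z in cube k₀ m₀ \ U2, φ z = (∫ z in cube k₀ m₀, φ z) - ∫ z in U2, φ z :=
      setIntegral_sdiff hU2m hφint hU2Q
    have h4 : ∫ z in cube k₀ m₀, φ z ≥ 7 / 8 * qv n k₀ := by
      rw [hφ, setIntegral_re_bdot, mul_comm]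
      exact mul_le_mul_of_nonneg_right havg hqpos.le
    have hpt : ∀ z, φ z ≤ (1 / (16 * C)) * (∑ i, ‖F i z‖ ^ 2) + 4 * C := by
      intro z
      have h5 : φ z ≤ nrm (fun i => F i z) := by
        refine (Complex.re_le_norm _).trans ((norm_bdot_le _ _).trans ?_)
        have : nrm w = 1 := by
          unfold nrm
          rw [hw, Real.sqrt_one]
        rw [this, one_mul]
      have h6 := nrm_sq (fun i => F i z)
      rw [← h6]
      have h7 := nrm_nonneg (fun i => F i z)
      refine h5.trans ?_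
      have hC0 : (0 : ℝ) < C := by linarith
      set x := nrm (fun i => F i z)
      have h8 : 0 ≤ (x - 8 * C) ^ 2 := sq_nonneg _
      rw [← sub_nonneg]
      have h9 : 1 / (16 * C) * x ^ 2 + 4 * C - x = (x - 8 * C) ^ 2 / (16 * C) := by
        field_simp
        ring
      rw [h9]
      positivity
    have hint3 : Integrable (fun z => ∑ i, ‖F i z‖ ^ 2) (volume : Measure (ST n)) :=
      integrable_finsetSum _ fun i _ => integrable_norm_sq (F i)
    have hfin3 : volume (cube k₀ m₀ \ U2) ≠ ∞ :=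
      ne_top_of_le_ne_top hfinQ (measure_mono Set.sdiff_subset)
    have hcon3 : IntegrableOn (fun _ : ST n => 4 * C) (cube k₀ m₀ \ U2) := integrableOn_const hfin3
    have h10 : ∫ z in cube k₀ m₀ \ U2, φ z
        ≤ (1 / (16 * C)) * (C * qv n k₀) + 4 * C * volume.real (cube k₀ m₀ \ U2) := by
      calc ∫ z in cube k₀ m₀ \ U2, φ z
          ≤ ∫ z in cube k₀ m₀ \ U2, ((1 / (16 * C)) * (∑ i, ‖F i z‖ ^ 2) + 4 * C) := by
            refine integral_mono (hφint.mono_set Set.sdiff_subset)
              ((hint3.integrableOn.const_mul _).add hcon3) hpt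
        _ = (1 / (16 * C)) * (∫ z in cube k₀ m₀ \ U2, ∑ i, ‖F i z‖ ^ 2)
            + 4 * C * volume.real (cube k₀ m₀ \ U2) := by
            rw [integral_add (hint3.integrableOn.const_mul _) hcon3,
              integral_const_mul, setIntegral_const, smul_eq_mul]
            ring
        _ ≤ _ := by
            gcongr
            refine (setIntegral_le_integral hint3 (Filter.Eventually.of_forall fun z =>
              Finset.sum_nonneg fun i _ => sq_nonneg _)).trans ?_
            rw [integral_finsetSum _ fun i _ => integrable_norm_sq (F i)]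
            refine le_trans (le_of_eq ?_) hF
            exact Finset.sum_congr rfl fun i _ => (norm_sq_eq_integral (F i)).symm
    have h11 : volume.real (cube k₀ m₀ \ U2) = qv n k₀ - volume.real U2 := by
      rw [measureReal_sdiff hU2Q hU2m hfinQ, hvQ]
    have h12 : volume.real U2 ≤ qv n k₀ := by
      rw [← hvQ]
      exact measureReal_mono hU2Q hfinQ
    have hC0 : (0 : ℝ) < C := by linarith
    have h13 : 1 / (16 * C) * (C * qv n k₀) = qv n k₀ / 16 := by
      field_simp
    rw [h13, h11] at h10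
    have h14 : qv n k₀ / 16 ≤ 4 * C * (qv n k₀ - volume.real U2) := by
      nlinarith
    have h15 : (1 - 1 / (64 * C)) * qv n k₀ = qv n k₀ - qv n k₀ / (64 * C) := by ring
    rw [h15]
    have h16 : qv n k₀ / (64 * C) ≤ qv n k₀ - volume.real U2 := by
      rw [div_le_iff₀ (by positivity)]
      nlinarith
    linarith
  -- conclusion
  have hC0 : (0 : ℝ) < C := by linarith
  have hfin2 : volume U2 ≠ ∞ := ne_top_of_le_ne_top hfinQ (measure_mono hU2Q)
  have hvol2' : volume U2 ≤ ENNReal.ofReal ((1 - 1 / (64 * C)) * qv n k₀) := by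
    rw [← ENNReal.ofReal_toReal hfin2]
    exact ENNReal.ofReal_le_ofReal hvol2
  have h64 : 0 ≤ 1 - 1 / (64 * C) := by
    rw [sub_nonneg, div_le_one (by positivity)]
    linarith
  calc volume {z | z ∈ cube k₀ m₀ ∧ ∃ k' ∈ Finset.Icc k₀ K, badP ε w F k' (idx k' z)}
      ≤ volume (U1 ∪ U2) := measure_mono hsub
    _ ≤ volume U1 + volume U2 := measure_union_le _ _
    _ ≤ ENNReal.ofReal (16 * ε ^ 2 * (C * qv n k₀))
        + ENNReal.ofReal ((1 - 1 / (64 * C)) * qv n k₀) := add_le_add hvol1 hvol2'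
    _ = ENNReal.ofReal (16 * ε ^ 2 * (C * qv n k₀) + (1 - 1 / (64 * C)) * qv n k₀) := by
        rw [ENNReal.ofReal_add (by positivity) (mul_nonneg h64 hqpos.le)]
    _ ≤ _ := by
        refine ENNReal.ofReal_le_ofReal ?_
        have h17 : 16 * ε ^ 2 * C ≤ 1 / (128 * C) := by
          rw [le_div_iff₀ (by positivity)]
          nlinarith
        have h18 : (1 : ℝ) / (64 * C) = 2 * (1 / (128 * C)) := by
          field_simp
          norm_num
        calc 16 * ε ^ 2 * (C * qv n k₀) + (1 - 1 / (64 * C)) * qv n k₀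
            = (16 * ε ^ 2 * C + 1 - 1 / (64 * C)) * qv n k₀ := by ring
          _ ≤ (1 - 1 / (128 * C)) * qv n k₀ := by
              apply mul_le_mul_of_nonneg_right _ hqpos.le
              linarith

end

end Pool.Agent.W_eb6199
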