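import Pool.Agent.W_eb6199.Classical
import Pool.Agent.W_eb6199.Cubes
import Pool.Agent.W_eb6199.EkBasic

open MeasureTheory Complex Filter Topology
open scoped FourierTransform ComplexInnerProductSpace ENNReal NNReal

namespace Pool.Agent.W_eb6199

noncomputable section

variable {n : ℕ}

namespace TF

/-! auxiliary bump functions for the test functions -/

theorem exists_deriv_bound : ∃ C : ℝ, 0 ≤ C ∧ ∀ x : ℝ, ‖deriv Real.smoothTransition x‖ ≤ C := by
  have hc : Continuous (deriv Real.smoothTransition) :=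
    (Real.smoothTransition.contDiff (n := 1)).continuous_deriv le_rfl
  obtain ⟨C, hC⟩ := (isCompact_Icc (a := (0 : ℝ)) (b := 1)).exists_bound_of_continuousOn
    hc.continuousOn
  refine ⟨max C 0, le_max_right _ _, fun x => ?_⟩
  by_cases hx : x ∈ Set.Icc (0 : ℝ) 1
  · exact (hC x hx).trans (le_max_left _ _)
  · have h0 : deriv Real.smoothTransition x = 0 := by
      rw [Set.mem_Icc, not_and_or, not_le, not_le] at hx
      rcases hx with hx | hx
      · have : Real.smoothTransition =ᶠ[𝓝 x] fun _ => 0 := by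
          filter_upwards [Iio_mem_nhds hx] with y hy
          exact Real.smoothTransition.zero_of_nonpos (le_of_lt hy)
        rw [this.deriv_eq]
        simp
      · have : Real.smoothTransition =ᶠ[𝓝 x] fun _ => 1 := by
          filter_upwards [Ioi_mem_nhds hx] with y hy
          exact Real.smoothTransition.one_of_one_le (le_of_lt hy)
        rw [this.deriv_eq]
        simp
    rw [h0, norm_zero]
    exact le_max_right _ _

/-- the Lipschitz constant of the smooth transition function -/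
def CT : ℝ := exists_deriv_bound.choose

theorem CT_nonneg : 0 ≤ CT := exists_deriv_bound.choose_spec.1

theorem trans_lip (x y : ℝ) :
    |Real.smoothTransition x - Real.smoothTransition y| ≤ CT * |x - y| := by
  have h := Convex.norm_image_sub_le_of_norm_deriv_le (f := Real.smoothTransition)
    (s := Set.univ) (x := y) (y := x) (C := CT)
    (fun z _ => ((Real.smoothTransition.contDiff (n := 1)).differentiable one_ne_zero) z)
    (fun z _ => exists_deriv_bound.choose_spec.2 z) convex_univ (Set.mem_univ _)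
    (Set.mem_univ _)
  simpa [Real.norm_eq_abs] using h

/-- one-dimensional bump: zero for `|s| ≥ r`, one for `|s| ≤ r - 1/a`. -/
def bmp (a r s : ℝ) : ℝ :=
  Real.smoothTransition (a * (r - s)) * Real.smoothTransition (a * (r + s))

theorem bmp_nonneg (a r s : ℝ) : 0 ≤ bmp a r s :=
  mul_nonneg (Real.smoothTransition.nonneg _) (Real.smoothTransition.nonneg _)

theorem bmp_le_one (a r s : ℝ) : bmp a r s ≤ 1 :=
  mul_le_one₀ (Real.smoothTransition.le_one _) (Real.smoothTransition.nonneg _)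
    (Real.smoothTransition.le_one _)

theorem abs_bmp_le (a r s : ℝ) : |bmp a r s| ≤ 1 := by
  rw [abs_of_nonneg (bmp_nonneg _ _ _)]; exact bmp_le_one _ _ _

theorem bmp_contDiff (a r : ℝ) : ContDiff ℝ 1 (bmp a r) := by
  unfold bmp
  refine ContDiff.mul ?_ ?_
  · exact Real.smoothTransition.contDiff.comp (by fun_prop)
  · exact Real.smoothTransition.contDiff.comp (by fun_prop)

theorem bmp_zero {a r s : ℝ} (ha : 0 < a) (h : r ≤ |s|) : bmp a r s = 0 := by
  unfold bmp
  rcases le_total 0 s with hs | hs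
  · rw [abs_of_nonneg hs] at h
    rw [Real.smoothTransition.zero_of_nonpos (by
      have : r - s ≤ 0 := by linarith
      exact mul_nonpos_of_nonneg_of_nonpos ha.le this), zero_mul]
  · rw [abs_of_nonpos hs] at h
    rw [Real.smoothTransition.zero_of_nonpos (x := a * (r + s)) (by
      have : r + s ≤ 0 := by linarith
      exact mul_nonpos_of_nonneg_of_nonpos ha.le this), mul_zero]

theorem bmp_one {a r s : ℝ} (ha : 0 < a) (h : |s| ≤ r - 1 / a) : bmp a r s = 1 := by
  unfold bmp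
  rw [abs_le] at h
  have h1 : 1 ≤ a * (r - s) := by
    have : 1 / a ≤ r - s := by linarith
    rwa [div_le_iff₀' ha] at this
  have h2 : 1 ≤ a * (r + s) := by
    have : 1 / a ≤ r + s := by linarith
    rwa [div_le_iff₀' ha] at this
  rw [Real.smoothTransition.one_of_one_le h1, Real.smoothTransition.one_of_one_le h2, mul_one]

theorem bmp_lip {a : ℝ} (ha : 0 < a) (r s s' : ℝ) :
    |bmp a r s - bmp a r s'| ≤ 2 * a * CT * |s - s'| := by
  unfold bmp
  set x := Real.smoothTransition (a * (r - s))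
  set y := Real.smoothTransition (a * (r + s))
  set x' := Real.smoothTransition (a * (r - s'))
  set y' := Real.smoothTransition (a * (r + s'))
  have h1 : |x - x'| ≤ CT * (a * |s - s'|) := by
    refine (trans_lip _ _).trans (le_of_eq ?_)
    have : a * (r - s) - a * (r - s') = a * (s' - s) := by ring
    rw [this, abs_mul, abs_of_pos ha, abs_sub_comm]
  have h2 : |y - y'| ≤ CT * (a * |s - s'|) := by
    refine (trans_lip _ _).trans (le_of_eq ?_)
    have : a * (r + s) - a * (r + s') = a * (s - s') := by ring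
    rw [this, abs_mul, abs_of_pos ha]
  have hy : |y| ≤ 1 := by
    rw [abs_of_nonneg (Real.smoothTransition.nonneg _)]; exact Real.smoothTransition.le_one _
  have hx' : |x'| ≤ 1 := by
    rw [abs_of_nonneg (Real.smoothTransition.nonneg _)]; exact Real.smoothTransition.le_one _
  have e : x * y - x' * y' = (x - x') * y + x' * (y - y') := by ring
  rw [e]
  refine (abs_add_le _ _).trans ?_
  rw [abs_mul, abs_mul]
  have e1 : |x - x'| * |y| ≤ CT * (a * |s - s'|) * 1 :=
    mul_le_mul h1 hy (abs_nonneg _) (by have := CT_nonneg; positivity)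
  have e2 : |x'| * |y - y'| ≤ 1 * (CT * (a * |s - s'|)) :=
    mul_le_mul hx' h2 (abs_nonneg _) zero_le_one
  linarith

/-- rescaled coordinates, centred in the cube `(k,m)` -/
def yc (k : ℤ) (m : Fin (n + 1) → ℤ) (j : Fin (n + 1)) (z : ST n) : ℝ :=
  sc k j * z j - (m j + 1 / 2)

theorem contDiff_yc (k : ℤ) (m : Fin (n + 1) → ℤ) (j : Fin (n + 1)) :
    ContDiff ℝ 1 (yc k m j) := by
  unfold yc
  fun_prop

theorem continuous_yc (k : ℤ) (m : Fin (n + 1) → ℤ) (j : Fin (n + 1)) :
    Continuous (yc k m j) := (contDiff_yc k m j).continuous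

theorem yc_line (k : ℤ) (m : Fin (n + 1) → ℤ) (j i : Fin (n + 1)) (z : ST n) (t : ℝ) :
    yc k m j (z + t • ev i) = yc k m j z + if j = i then sc k j * t else 0 := by
  unfold yc ev
  by_cases h : j = i
  · subst h
    simp
    ring
  · simp [h]

/-- product bump -/
def chi (a r : ℝ) (k : ℤ) (m : Fin (n + 1) → ℤ) (z : ST n) : ℝ :=
  ∏ j, bmp a r (yc k m j z)

theorem contDiff_chi (a r : ℝ) (k : ℤ) (m : Fin (n + 1) → ℤ) : ContDiff ℝ 1 (chi a r k m) := by
  unfold chi
  exact contDiff_prod (fun j _ => (bmp_contDiff a r).comp (contDiff_yc k m j))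

theorem chi_nonneg (a r : ℝ) (k : ℤ) (m : Fin (n + 1) → ℤ) (z : ST n) : 0 ≤ chi a r k m z :=
  Finset.prod_nonneg (fun _ _ => bmp_nonneg _ _ _)

theorem chi_le_one (a r : ℝ) (k : ℤ) (m : Fin (n + 1) → ℤ) (z : ST n) : chi a r k m z ≤ 1 :=
  Finset.prod_le_one (fun _ _ => bmp_nonneg _ _ _) (fun _ _ => bmp_le_one _ _ _)

theorem chi_zero {a r : ℝ} (ha : 0 < a) (k : ℤ) (m : Fin (n + 1) → ℤ) {z : ST n}
    {j : Fin (n + 1)} (h : r ≤ |yc k m j z|) : chi a r k m z = 0 :=
  Finset.prod_eq_zero (Finset.mem_univ j) (bmp_zero ha h)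

theorem chi_one {a r : ℝ} (ha : 0 < a) (k : ℤ) (m : Fin (n + 1) → ℤ) {z : ST n}
    (h : ∀ j, |yc k m j z| ≤ r - 1 / a) : chi a r k m z = 1 :=
  Finset.prod_eq_one (fun j _ => bmp_one ha (h j))

theorem chi_lip {a : ℝ} (ha : 0 < a) (r : ℝ) (k : ℤ) (m : Fin (n + 1) → ℤ) (i : Fin (n + 1))
    (z : ST n) (t : ℝ) :
    |chi a r k m (z + t • ev i) - chi a r k m z| ≤ 2 * a * CT * sc k i * |t| := by
  classical
  unfold chi
  rw [← Finset.mul_prod_erase _ _ (Finset.mem_univ i), ← Finset.mul_prod_erase _ _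
    (Finset.mem_univ i)]
  have h1 : ∏ j ∈ Finset.univ.erase i, bmp a r (yc k m j (z + t • ev i))
      = ∏ j ∈ Finset.univ.erase i, bmp a r (yc k m j z) := by
    refine Finset.prod_congr rfl (fun j hj => ?_)
    rw [yc_line, if_neg (Finset.ne_of_mem_erase hj), add_zero]
  rw [h1, ← sub_mul, abs_mul]
  have h2 : |∏ j ∈ Finset.univ.erase i, bmp a r (yc k m j z)| ≤ 1 := by
    rw [abs_of_nonneg (Finset.prod_nonneg (fun _ _ => bmp_nonneg _ _ _))]
    exact Finset.prod_le_one (fun _ _ => bmp_nonneg _ _ _) (fun _ _ => bmp_le_one _ _ _)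
  have h3 := bmp_lip ha r (yc k m i (z + t • ev i)) (yc k m i z)
  have h4 : |yc k m i (z + t • ev i) - yc k m i z| = sc k i * |t| := by
    rw [yc_line, if_pos rfl, add_sub_cancel_left, abs_mul, abs_of_pos (sc_pos k i)]
  rw [h4] at h3
  calc |bmp a r (yc k m i (z + t • ev i)) - bmp a r (yc k m i z)| *
        |∏ j ∈ Finset.univ.erase i, bmp a r (yc k m j z)|
      ≤ (2 * a * CT * (sc k i * |t|)) * 1 := by
        refine mul_le_mul h3 h2 (abs_nonneg _) ?_
        have := CT_nonneg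
        have := sc_pos k i
        positivity
    _ = 2 * a * CT * sc k i * |t| := by ring

/-- directional derivatives -/
theorem hasDerivAt_line {g : ST n → ℂ} {z : ST n} (hg : DifferentiableAt ℝ g z)
    (j : Fin (n + 1)) : HasDerivAt (fun t : ℝ => g (z + t • ev j)) (pd j g z) 0 := by
  have h1 : HasDerivAt (fun t : ℝ => z + t • ev j) (ev j) 0 := by
    have := ((hasDerivAt_id (0 : ℝ)).smul_const (ev j : ST n)).const_add z
    simpa using this
  have h2 : HasFDerivAt g (fderiv ℝ g z) (z + (0 : ℝ) • ev j) := by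
    simpa using hg.hasFDerivAt
  exact h2.comp_hasDerivAt 0 h1

theorem pd_eq {g : ST n → ℂ} {z : ST n} (hg : DifferentiableAt ℝ g z) (j : Fin (n + 1)) {c : ℂ}
    (h : HasDerivAt (fun t : ℝ => g (z + t • ev j)) c 0) : pd j g z = c :=
  (hasDerivAt_line hg j).unique h

theorem norm_pd_le {g : ST n → ℂ} {z : ST n} (hg : DifferentiableAt ℝ g z) (j : Fin (n + 1))
    {K : ℝ} (hK : 0 ≤ K) (h : ∀ t : ℝ, ‖g (z + t • ev j) - g z‖ ≤ K * |t|) : ‖pd j g z‖ ≤ K := by
  refine HasDerivAt.le_of_lip' (hasDerivAt_line hg j) hK ?_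
  refine Filter.Eventually.of_forall (fun t => ?_)
  simpa using h t

theorem pd_mul {f g : ST n → ℂ} {z : ST n} (hf : DifferentiableAt ℝ f z)
    (hg : DifferentiableAt ℝ g z) (j : Fin (n + 1)) :
    pd j (fun z => f z * g z) z = f z * pd j g z + g z * pd j f z := by
  unfold pd
  rw [fderiv_fun_mul hf hg]
  simp

/-- the complex valued bump -/
def chiC (a r : ℝ) (k : ℤ) (m : Fin (n + 1) → ℤ) (z : ST n) : ℂ := (chi a r k m z : ℂ)

theorem contDiff_chiC (a r : ℝ) (k : ℤ) (m : Fin (n + 1) → ℤ) : ContDiff ℝ 1 (chiC a r k m) := by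
  unfold chiC
  exact Complex.ofRealCLM.contDiff.comp (contDiff_chi a r k m)

theorem norm_chiC_le (a r : ℝ) (k : ℤ) (m : Fin (n + 1) → ℤ) (z : ST n) :
    ‖chiC a r k m z‖ ≤ 1 := by
  unfold chiC
  rw [Complex.norm_real, Real.norm_eq_abs, abs_of_nonneg (chi_nonneg _ _ _ _ _)]
  exact chi_le_one _ _ _ _ _

theorem norm_pd_chiC_le {a : ℝ} (ha : 0 < a) (r : ℝ) (k : ℤ) (m : Fin (n + 1) → ℤ)
    (i : Fin (n + 1)) (z : ST n) : ‖pd i (chiC a r k m) z‖ ≤ 2 * a * CT * sc k i := by
  refine norm_pd_le ((contDiff_chiC a r k m).differentiable one_ne_zero z) i ?_ (fun t => ?_)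
  · have := CT_nonneg
    have := sc_pos k i
    positivity
  · unfold chiC
    rw [← Complex.ofReal_sub, Complex.norm_real, Real.norm_eq_abs]
    exact chi_lip ha r k m i z t

/-- the closed box `|y_j| ≤ r` is compact -/
theorem isCompact_box (r : ℝ) (k : ℤ) (m : Fin (n + 1) → ℤ) :
    IsCompact {z : ST n | ∀ j, |yc k m j z| ≤ r} := by
  refine Metric.isCompact_of_isClosed_isBounded ?_ ?_
  · have : {z : ST n | ∀ j, |yc k m j z| ≤ r} = ⋂ j, {z | |yc k m j z| ≤ r} := by
      ext z; simp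
    rw [this]
    exact isClosed_iInter (fun j => isClosed_le (continuous_yc k m j).abs continuous_const)
  · refine (Metric.isBounded_iff_subset_closedBall 0).2
      ⟨Real.sqrt (∑ j : Fin (n + 1), ((|r| + |(m j : ℝ) + 1 / 2|) / sc k j) ^ 2), fun z hz => ?_⟩
    rw [Metric.mem_closedBall, dist_zero_right, EuclideanSpace.norm_eq]
    refine Real.sqrt_le_sqrt (Finset.sum_le_sum fun j _ => ?_)
    have h1 : |yc k m j z| ≤ |r| := (hz j).trans (le_abs_self r)
    have hs := sc_pos k j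
    have h2 : |sc k j * z j| ≤ |r| + |(m j : ℝ) + 1 / 2| := by
      have e : sc k j * z j = yc k m j z + ((m j : ℝ) + 1 / 2) := by unfold yc; ring
      rw [e]
      exact (abs_add_le _ _).trans (add_le_add h1 le_rfl)
    rw [abs_mul, abs_of_pos hs] at h2
    have h3 : ‖z j‖ ≤ (|r| + |(m j : ℝ) + 1 / 2|) / sc k j := by
      rw [Real.norm_eq_abs, le_div_iff₀ hs]
      linarith
    exact pow_le_pow_left₀ (norm_nonneg _) h3 2

theorem hasCompactSupport_of_box {g : ST n → ℂ} (r : ℝ) (k : ℤ) (m : Fin (n + 1) → ℤ)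
    (h : ∀ z j, r ≤ |yc k m j z| → g z = 0) : HasCompactSupport g := by
  refine HasCompactSupport.intro (isCompact_box r k m) (fun z hz => ?_)
  simp only [Set.mem_ofPred_eq, not_forall, not_le] at hz
  obtain ⟨j, hj⟩ := hz
  exact h z j hj.le

/-- a function supported in the box has derivatives supported in the closed box -/
theorem pd_zero_of_box {g : ST n → ℂ} (r : ℝ) (k : ℤ) (m : Fin (n + 1) → ℤ)
    (h : ∀ z j, r ≤ |yc k m j z| → g z = 0) (i : Fin (n + 1)) (z : ST n) (j : Fin (n + 1))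
    (hz : r < |yc k m j z|) : pd i g z = 0 := by
  have h1 : g =ᶠ[𝓝 z] fun _ => 0 := by
    have hopen : IsOpen {z : ST n | r < |yc k m j z|} :=
      isOpen_lt continuous_const (continuous_yc k m j).abs
    filter_upwards [hopen.mem_nhds hz] with y hy
    exact h y j (le_of_lt hy)
  unfold pd
  rw [h1.fderiv_eq]
  simp

theorem not_mem_star {k : ℤ} {m : Fin (n + 1) → ℤ} {z : ST n} (hz : z ∉ star k m) :
    ∃ j, 3 / 2 ≤ |yc k m j z| := by
  unfold star at hz
  simp only [Set.mem_ofPred_eq, not_forall] at hz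
  obtain ⟨j, hj⟩ := hz
  refine ⟨j, ?_⟩
  unfold yc
  rw [not_and_or, not_le, not_lt] at hj
  rcases hj with hj | hj
  · refine le_trans ?_ (neg_le_abs _)
    linarith
  · refine le_trans ?_ (le_abs_self _)
    linarith

theorem mem_cube_yc {k : ℤ} {m : Fin (n + 1) → ℤ} {z : ST n} (hz : z ∈ cube k m)
    (j : Fin (n + 1)) : |yc k m j z| ≤ 1 / 2 := by
  have := hz j
  unfold yc
  rw [abs_le]
  constructor <;> linarith [this.1, this.2]

/-- `L²` norm of bounded functions supported in `star` -/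
theorem norm_toL2_le {g : ST n → ℂ} (hg : Continuous g) (hc : HasCompactSupport g) {k : ℤ}
    {m : Fin (n + 1) → ℤ} {K : ℝ} (hK : 0 ≤ K) (hb : ∀ z, ‖g z‖ ≤ K)
    (hs : ∀ z, z ∉ star k m → g z = 0) :
    ‖toL2 g‖ ^ 2 ≤ K ^ 2 * (3 ^ (n + 1) * qv n k) := by
  have h1 := ofReal_norm_sq (toL2 g)
  have h2 : ∫⁻ z, ‖toL2 g z‖ₑ ^ 2 ≤ ENNReal.ofReal (K ^ 2 * (3 ^ (n + 1) * qv n k)) := by
    calc ∫⁻ z, ‖toL2 g z‖ₑ ^ 2 = ∫⁻ z, ‖g z‖ₑ ^ 2 := by
          refine lintegral_congr_ae ?_
          filter_upwards [toL2_coe (memLp_of_compact hg hc)] with z hz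
          rw [hz]
      _ ≤ ∫⁻ z, (star k m).indicator (fun _ => ENNReal.ofReal (K ^ 2)) z := by
          refine lintegral_mono (fun z => ?_)
          by_cases hz : z ∈ star k m
          · rw [Set.indicator_of_mem hz, ENNReal.ofReal_pow hK]
            refine pow_le_pow_left' ?_ 2
            rw [← ofReal_norm]
            exact ENNReal.ofReal_le_ofReal (hb z)
          · rw [Set.indicator_of_notMem hz, hs z hz]
            simp
      _ = ENNReal.ofReal (K ^ 2) * volume (star k m) := by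
          rw [lintegral_indicator (measurableSet_star k m), lintegral_const,
            Measure.restrict_apply_univ]
      _ = ENNReal.ofReal (K ^ 2 * (3 ^ (n + 1) * qv n k)) := by
          rw [volume_star, ← ENNReal.ofReal_mul (by positivity)]
  rw [← h1] at h2
  have hq := qv_pos n k
  exact (ENNReal.ofReal_le_ofReal_iff (by positivity)).1 h2

/-- the linear function `∑ conj(w_i) (z_{i+1} - c_{i+1})` -/
def Lin (k : ℤ) (m : Fin (n + 1) → ℤ) (w : Fin n → ℂ) (z : ST n) : ℂ :=
  ∑ i : Fin n, (starRingEnd ℂ) (w i) * ((yc k m i.succ z / sc k i.succ : ℝ) : ℂ)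

theorem contDiff_Lin (k : ℤ) (m : Fin (n + 1) → ℤ) (w : Fin n → ℂ) :
    ContDiff ℝ 1 (Lin k m w) := by
  unfold Lin
  refine ContDiff.sum (fun i _ => ?_)
  refine contDiff_const.mul ?_
  exact Complex.ofRealCLM.contDiff.comp ((contDiff_yc k m i.succ).div_const _)

theorem Lin_line (k : ℤ) (m : Fin (n + 1) → ℤ) (w : Fin n → ℂ) (j : Fin (n + 1)) (z : ST n)
    (t : ℝ) : Lin k m w (z + t • ev j) = Lin k m w z +
      (t : ℂ) * ∑ i : Fin n, (starRingEnd ℂ) (w i) * (if i.succ = j then 1 else 0) := by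
  unfold Lin
  rw [Finset.mul_sum, ← Finset.sum_add_distrib]
  refine Finset.sum_congr rfl (fun i _ => ?_)
  rw [yc_line]
  by_cases h : i.succ = j
  · rw [if_pos h, if_pos h]
    have hs : (sc k i.succ : ℝ) ≠ 0 := (sc_pos k i.succ).ne'
    have : (yc k m i.succ z + sc k i.succ * t) / sc k i.succ
        = yc k m i.succ z / sc k i.succ + t := by
      field_simp
    rw [this]
    push_cast
    ring
  · rw [if_neg h, if_neg h]
    simp

theorem pd_Lin (k : ℤ) (m : Fin (n + 1) → ℤ) (w : Fin n → ℂ) (j : Fin (n + 1)) (z : ST n) :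
    pd j (Lin k m w) z = ∑ i : Fin n, (starRingEnd ℂ) (w i) * (if i.succ = j then 1 else 0) := by
  refine pd_eq ((contDiff_Lin k m w).differentiable one_ne_zero z) j ?_
  have h : (fun t : ℝ => Lin k m w (z + t • ev j)) = fun t : ℝ => Lin k m w z +
      (t : ℂ) * ∑ i : Fin n, (starRingEnd ℂ) (w i) * (if i.succ = j then 1 else 0) := by
    funext t
    exact Lin_line k m w j z t
  rw [h]
  have h1 : HasDerivAt (fun t : ℝ => (t : ℂ)) 1 0 := Complex.ofRealCLM.hasDerivAt
  have := (h1.mul_const (∑ i : Fin n, (starRingEnd ℂ) (w i) *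
    (if i.succ = j then 1 else 0))).const_add (Lin k m w z)
  simpa using this

theorem pd_Lin_zero (k : ℤ) (m : Fin (n + 1) → ℤ) (w : Fin n → ℂ) (z : ST n) :
    pd 0 (Lin k m w) z = 0 := by
  rw [pd_Lin]
  refine Finset.sum_eq_zero (fun i _ => ?_)
  rw [if_neg (Fin.succ_ne_zero i), mul_zero]

theorem pd_Lin_succ (k : ℤ) (m : Fin (n + 1) → ℤ) (w : Fin n → ℂ) (i : Fin n) (z : ST n) :
    pd i.succ (Lin k m w) z = (starRingEnd ℂ) (w i) := by
  rw [pd_Lin, Finset.sum_eq_single i]
  · simp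
  · intro b _ hb
    rw [if_neg (fun h => hb (Fin.succ_injective _ h)), mul_zero]
  · intro h
    exact absurd (Finset.mem_univ i) h

theorem norm_w_le {w : Fin n → ℂ} (hw : ∑ i, ‖w i‖ ^ 2 = 1) (i : Fin n) : ‖w i‖ ≤ 1 := by
  have h1 : ‖w i‖ ^ 2 ≤ 1 := by
    rw [← hw]
    exact Finset.single_le_sum (f := fun i => ‖w i‖ ^ 2) (fun _ _ => by positivity)
      (Finset.mem_univ i)
  nlinarith [norm_nonneg (w i)]

theorem norm_Lin_le (k : ℤ) (m : Fin (n + 1) → ℤ) {w : Fin n → ℂ} (hw : ∑ i, ‖w i‖ ^ 2 = 1)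
    {z : ST n} (hz : ∀ j, |yc k m j z| ≤ 1) : ‖Lin k m w z‖ ≤ n * ((2 : ℝ) ^ k)⁻¹ := by
  unfold Lin
  refine (norm_sum_le _ _).trans ?_
  have h1 : ∀ i ∈ (Finset.univ : Finset (Fin n)),
      ‖(starRingEnd ℂ) (w i) * ((yc k m i.succ z / sc k i.succ : ℝ) : ℂ)‖ ≤ ((2 : ℝ) ^ k)⁻¹ := by
    intro i _
    rw [norm_mul, RCLike.norm_conj, Complex.norm_real, Real.norm_eq_abs, abs_div,
      abs_of_pos (sc_pos k i.succ), sc_succ]
    have h2 : (0 : ℝ) < (2 : ℝ) ^ k := by positivity
    calc ‖w i‖ * (|yc k m i.succ z| / 2 ^ k) ≤ 1 * (1 / 2 ^ k) :=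
          mul_le_mul (norm_w_le hw i) (div_le_div_of_nonneg_right (hz _) h2.le) (by positivity)
            zero_le_one
      _ = ((2 : ℝ) ^ k)⁻¹ := by rw [one_mul, one_div]
  refine (Finset.sum_le_sum h1).trans (le_of_eq ?_)
  rw [Finset.sum_const, Finset.card_univ, Fintype.card_fin, nsmul_eq_mul]

/-- the test function -/
def Ph (k : ℤ) (m : Fin (n + 1) → ℤ) (w : Fin n → ℂ) (z : ST n) : ℂ :=
  chiC 4 1 k m z * Lin k m w z

theorem contDiff_Ph (k : ℤ) (m : Fin (n + 1) → ℤ) (w : Fin n → ℂ) : ContDiff ℝ 1 (Ph k m w) :=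
  (contDiff_chiC 4 1 k m).mul (contDiff_Lin k m w)

theorem Ph_zero (k : ℤ) (m : Fin (n + 1) → ℤ) (w : Fin n → ℂ) (z : ST n) (j : Fin (n + 1))
    (h : 1 ≤ |yc k m j z|) : Ph k m w z = 0 := by
  unfold Ph chiC
  rw [chi_zero (by norm_num) k m h]
  simp

theorem hasCompactSupport_Ph (k : ℤ) (m : Fin (n + 1) → ℤ) (w : Fin n → ℂ) :
    HasCompactSupport (Ph k m w) :=
  hasCompactSupport_of_box 1 k m (Ph_zero k m w)

theorem pd_Ph (k : ℤ) (m : Fin (n + 1) → ℤ) (w : Fin n → ℂ) (j : Fin (n + 1)) (z : ST n) :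
    pd j (Ph k m w) z = chiC 4 1 k m z * pd j (Lin k m w) z
      + Lin k m w z * pd j (chiC 4 1 k m) z :=
  pd_mul ((contDiff_chiC 4 1 k m).differentiable one_ne_zero z)
    ((contDiff_Lin k m w).differentiable one_ne_zero z) j

/-- the common constant -/
def KK (n : ℕ) : ℝ := 8 * CT * n + n + 1

theorem KK_pos (n : ℕ) : 0 < KK n := by
  have := CT_nonneg
  unfold KK
  positivity

theorem norm_Ph_le (k : ℤ) (m : Fin (n + 1) → ℤ) {w : Fin n → ℂ} (hw : ∑ i, ‖w i‖ ^ 2 = 1)
    (z : ST n) : ‖Ph k m w z‖ ≤ KK n * ((2 : ℝ) ^ k)⁻¹ := by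
  have h2 : (0 : ℝ) < ((2 : ℝ) ^ k)⁻¹ := by positivity
  have hK := KK_pos n
  by_cases hz : ∀ j, |yc k m j z| ≤ 1
  · unfold Ph
    rw [norm_mul]
    calc ‖chiC 4 1 k m z‖ * ‖Lin k m w z‖ ≤ 1 * (n * ((2 : ℝ) ^ k)⁻¹) :=
          mul_le_mul (norm_chiC_le _ _ _ _ _) (norm_Lin_le k m hw hz) (norm_nonneg _) zero_le_one
      _ ≤ KK n * ((2 : ℝ) ^ k)⁻¹ := by
          rw [one_mul]
          refine mul_le_mul_of_nonneg_right ?_ h2.le
          have := CT_nonneg
          unfold KK
          have : 0 ≤ 8 * CT * n := by positivity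
          linarith
  · push Not at hz
    obtain ⟨j, hj⟩ := hz
    rw [Ph_zero k m w z j hj.le, norm_zero]
    positivity

theorem pd_Ph_zero_of (k : ℤ) (m : Fin (n + 1) → ℤ) (w : Fin n → ℂ) (i : Fin (n + 1)) (z : ST n)
    (j : Fin (n + 1)) (h : 1 < |yc k m j z|) : pd i (Ph k m w) z = 0 :=
  pd_zero_of_box 1 k m (Ph_zero k m w) i z j h

theorem norm_pd_Ph_zero_le (k : ℤ) (m : Fin (n + 1) → ℤ) {w : Fin n → ℂ}
    (hw : ∑ i, ‖w i‖ ^ 2 = 1) (z : ST n) : ‖pd 0 (Ph k m w) z‖ ≤ KK n * (2 : ℝ) ^ k := by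
  have h2 : (0 : ℝ) < (2 : ℝ) ^ k := by positivity
  have hK := KK_pos n
  have hCT := CT_nonneg
  by_cases hz : ∀ j, |yc k m j z| ≤ 1
  · rw [pd_Ph, pd_Lin_zero, mul_zero, zero_add, norm_mul]
    have h4 : (4 : ℝ) ^ k = (2 : ℝ) ^ k * (2 : ℝ) ^ k := by
      rw [← mul_zpow]; norm_num
    calc ‖Lin k m w z‖ * ‖pd 0 (chiC 4 1 k m) z‖
        ≤ (n * ((2 : ℝ) ^ k)⁻¹) * (2 * 4 * CT * sc (n := n) k 0) :=
          mul_le_mul (norm_Lin_le k m hw hz) (norm_pd_chiC_le (by norm_num) 1 k m 0 z)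
            (norm_nonneg _) (by positivity)
      _ = (8 * CT * n) * (2 : ℝ) ^ k := by
          rw [sc_zero, h4]
          field_simp
          ring
      _ ≤ KK n * (2 : ℝ) ^ k := by
          refine mul_le_mul_of_nonneg_right ?_ h2.le
          unfold KK
          have : (0 : ℝ) ≤ n := Nat.cast_nonneg n
          linarith
  · push Not at hz
    obtain ⟨j, hj⟩ := hz
    rw [pd_Ph_zero_of k m w 0 z j hj, norm_zero]
    positivity

theorem norm_pd_Ph_succ_le (k : ℤ) (m : Fin (n + 1) → ℤ) {w : Fin n → ℂ}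
    (hw : ∑ i, ‖w i‖ ^ 2 = 1) (i : Fin n) (z : ST n) : ‖pd i.succ (Ph k m w) z‖ ≤ KK n := by
  have h2 : (0 : ℝ) < (2 : ℝ) ^ k := by positivity
  have hK := KK_pos n
  have hCT := CT_nonneg
  by_cases hz : ∀ j, |yc k m j z| ≤ 1
  · rw [pd_Ph, pd_Lin_succ]
    refine (norm_add_le _ _).trans ?_
    rw [norm_mul, norm_mul, RCLike.norm_conj]
    have e1 : ‖chiC 4 1 k m z‖ * ‖w i‖ ≤ 1 * 1 :=
      mul_le_mul (norm_chiC_le _ _ _ _ _) (norm_w_le hw i) (norm_nonneg _) zero_le_one
    have e2 : ‖Lin k m w z‖ * ‖pd i.succ (chiC 4 1 k m) z‖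
        ≤ (n * ((2 : ℝ) ^ k)⁻¹) * (2 * 4 * CT * sc k i.succ) :=
      mul_le_mul (norm_Lin_le k m hw hz) (norm_pd_chiC_le (by norm_num) 1 k m i.succ z)
        (norm_nonneg _) (by positivity)
    have e3 : (n * ((2 : ℝ) ^ k)⁻¹) * (2 * 4 * CT * sc k i.succ) = 8 * CT * n := by
      rw [sc_succ]
      field_simp
      ring
    rw [e3] at e2
    unfold KK
    have : (0 : ℝ) ≤ n := Nat.cast_nonneg n
    linarith
  · push Not at hz
    obtain ⟨j, hj⟩ := hz
    rw [pd_Ph_zero_of k m w i.succ z j hj, norm_zero]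
    positivity

theorem pd_Ph_cube (k : ℤ) (m : Fin (n + 1) → ℤ) (w : Fin n → ℂ) (i : Fin n) {z : ST n}
    (hz : z ∈ cube k m) : pd i.succ (Ph k m w) z = (starRingEnd ℂ) (w i) := by
  have h1 : Ph k m w =ᶠ[𝓝 z] Lin k m w := by
    have hopen : IsOpen {y : ST n | ∀ j, |yc k m j y| < 3 / 4} := by
      have : {y : ST n | ∀ j, |yc k m j y| < 3 / 4} = ⋂ j, {y | |yc k m j y| < 3 / 4} := by
        ext y; simp
      rw [this]
      exact isOpen_iInter_of_finite (fun j => isOpen_lt (continuous_yc k m j).abs continuous_const)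
    have hzm : z ∈ {y : ST n | ∀ j, |yc k m j y| < 3 / 4} := fun j =>
      lt_of_le_of_lt (mem_cube_yc hz j) (by norm_num)
    filter_upwards [hopen.mem_nhds hzm] with y hy
    unfold Ph chiC
    rw [chi_one (by norm_num) k m (fun j => by
      have := hy j
      norm_num
      linarith)]
    simp
  unfold pd
  rw [h1.fderiv_eq]
  exact pd_Lin_succ k m w i z

theorem continuous_pd {g : ST n → ℂ} (hg : ContDiff ℝ 1 g) (j : Fin (n + 1)) :
    Continuous (pd j g) := by
  unfold pd
  exact (hg.continuous_fderiv one_ne_zero).clm_apply continuous_const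

theorem hasCompactSupport_pd {g : ST n → ℂ} (hc : HasCompactSupport g) (j : Fin (n + 1)) :
    HasCompactSupport (pd j g) := by
  have h1 := hc.fderiv (𝕜 := ℝ)
  exact h1.comp_left (g := fun L : ST n →L[ℝ] ℂ => L (ev j)) rfl

theorem norm_sq_toL2_Ph (k : ℤ) (m : Fin (n + 1) → ℤ) {w : Fin n → ℂ}
    (hw : ∑ i, ‖w i‖ ^ 2 = 1) :
    ‖toL2 (Ph k m w)‖ ^ 2 ≤ (KK n * ((2 : ℝ) ^ k)⁻¹) ^ 2 * (3 ^ (n + 1) * qv n k) := by
  refine norm_toL2_le (m := m) (contDiff_Ph k m w).continuous (hasCompactSupport_Ph k m w)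
    (by have := KK_pos n; positivity) (norm_Ph_le k m hw) (fun z hz => ?_)
  obtain ⟨j, hj⟩ := not_mem_star hz
  exact Ph_zero k m w z j (by linarith)

theorem norm_sq_toL2_pd (k : ℤ) (m : Fin (n + 1) → ℤ) (w : Fin n → ℂ) (j : Fin (n + 1))
    {K : ℝ} (hK : 0 ≤ K) (hb : ∀ z, ‖pd j (Ph k m w) z‖ ≤ K) :
    ‖toL2 (pd j (Ph k m w))‖ ^ 2 ≤ K ^ 2 * (3 ^ (n + 1) * qv n k) := by
  refine norm_toL2_le (m := m) (continuous_pd (contDiff_Ph k m w) j)
    (hasCompactSupport_pd (hasCompactSupport_Ph k m w) j) hK hb (fun z hz => ?_)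
  obtain ⟨i, hi⟩ := not_mem_star hz
  exact pd_Ph_zero_of k m w j z i (by linarith)

theorem volume_box (a b : Fin (n + 1) → ℝ) :
    volume {z : ST n | ∀ j, a j ≤ z j ∧ z j < b j} = ∏ j, ENNReal.ofReal (b j - a j) := by
  have h := (PiLp.volume_preserving_ofLp (Fin (n + 1))).measure_preimage
    (MeasurableSet.univ_pi (fun j => (measurableSet_Ico (a := a j) (b := b j)))).nullMeasurableSet
  rw [Real.volume_pi_Ico] at h
  rw [← h]
  congr 1
  ext z
  simp [Set.mem_pi]

/-- the thin slabs of the cube -/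
theorem volume_slab (k : ℤ) (m : Fin (n + 1) → ℤ) (i : Fin (n + 1)) {ρ : ℝ} (hρ : 0 ≤ ρ) :
    volume {z : ST n | z ∈ cube k m ∧ 1 / 2 - ρ < |yc k m i z|}
      ≤ ENNReal.ofReal (2 * ρ * qv n k) := by
  classical
  have hq := qv_pos n k
  have hprod : ∀ c : ℝ, 0 ≤ c → ∏ j : Fin (n + 1),
      ENNReal.ofReal (if j = i then c / sc k j else 1 / sc k j) = ENNReal.ofReal (c * qv n k) := by
    intro c hc
    have h1 : volume (cube k m) = ∏ j : Fin (n + 1), ENNReal.ofReal (1 / sc k j) := by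
      have hset : cube k m = {z : ST n | ∀ j, (m j : ℝ) / sc k j ≤ z j ∧
          z j < ((m j : ℝ) + 1) / sc k j} := by
        ext z
        unfold cube
        simp only [Set.mem_ofPred_eq]
        refine forall_congr' (fun j => ?_)
        rw [div_le_iff₀' (sc_pos k j), lt_div_iff₀' (sc_pos k j)]
      rw [hset, volume_box]
      refine Finset.prod_congr rfl (fun j _ => ?_)
      congr 1
      ring
    rw [volume_cube] at h1
    rw [ENNReal.ofReal_mul hc, h1]
    rw [← Finset.mul_prod_erase _ _ (Finset.mem_univ i),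
      ← Finset.mul_prod_erase (Finset.univ) (fun j => ENNReal.ofReal (1 / sc (n := n) k j))
      (Finset.mem_univ i), if_pos rfl, ← mul_assoc, ← ENNReal.ofReal_mul hc]
    congr 1
    · congr 1
      ring
    · refine Finset.prod_congr rfl (fun j hj => ?_)
      rw [if_neg (Finset.ne_of_mem_erase hj)]
  set S1 : Set (ST n) := {z | ∀ j, (if j = i then ((m j : ℝ) + 1 - ρ) / sc k j else
    (m j : ℝ) / sc k j) ≤ z j ∧ z j < ((m j : ℝ) + 1) / sc k j} with hS1
  set S2 : Set (ST n) := {z | ∀ j, (m j : ℝ) / sc k j ≤ z j ∧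
    z j < (if j = i then ((m j : ℝ) + ρ) / sc k j else ((m j : ℝ) + 1) / sc k j)} with hS2
  have hsub : {z : ST n | z ∈ cube k m ∧ 1 / 2 - ρ < |yc k m i z|} ⊆ S1 ∪ S2 := by
    rintro z ⟨hz, hy⟩
    have hcz : ∀ j, (m j : ℝ) / sc k j ≤ z j ∧ z j < ((m j : ℝ) + 1) / sc k j := by
      intro j
      have := hz j
      rw [div_le_iff₀' (sc_pos k j), lt_div_iff₀' (sc_pos k j)]
      exact this
    unfold yc at hy
    rcases lt_abs.1 hy with h | h
    · left
      intro j
      refine ⟨?_, (hcz j).2⟩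
      by_cases hj : j = i
      · subst hj
        rw [if_pos rfl, div_le_iff₀' (sc_pos k j)]
        linarith
      · rw [if_neg hj]
        exact (hcz j).1
    · right
      intro j
      refine ⟨(hcz j).1, ?_⟩
      by_cases hj : j = i
      · subst hj
        rw [if_pos rfl, lt_div_iff₀' (sc_pos k j)]
        linarith
      · rw [if_neg hj]
        exact (hcz j).2
  have hv1 : volume S1 = ENNReal.ofReal (ρ * qv n k) := by
    rw [hS1, volume_box, ← hprod ρ hρ]
    refine Finset.prod_congr rfl (fun j _ => ?_)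
    congr 1
    split_ifs <;> ring
  have hv2 : volume S2 = ENNReal.ofReal (ρ * qv n k) := by
    rw [hS2, volume_box, ← hprod ρ hρ]
    refine Finset.prod_congr rfl (fun j _ => ?_)
    congr 1
    split_ifs <;> ring
  refine (measure_mono hsub).trans ((measure_union_le _ _).trans ?_)
  rw [hv1, hv2, ← ENNReal.ofReal_add (by positivity) (by positivity)]
  refine ENNReal.ofReal_le_ofReal (le_of_eq ?_)
  ring

theorem enorm_setIntegral_le {s : Set (ST n)} (hs : MeasurableSet s) {φ : ST n → ℂ}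
    (hφ : Measurable φ) (u : L2 n) {V : ℝ}
    (hV : ∫⁻ z in s, ‖φ z‖ₑ ^ 2 ≤ ENNReal.ofReal V) (hV0 : 0 ≤ V) :
    ‖∫ z in s, φ z * u z‖ ≤ Real.sqrt V * ‖u‖ := by
  have h1 := lintegral_mul_le hs hφ u
  have h2 : ‖∫ z in s, φ z * u z‖ₑ ≤ ENNReal.ofReal (Real.sqrt V * ‖u‖) := by
    refine (enorm_integral_le_lintegral_enorm _).trans (h1.trans ?_)
    rw [ENNReal.ofReal_mul (Real.sqrt_nonneg _)]
    gcongr
    rw [Real.sqrt_eq_rpow, ← ENNReal.ofReal_rpow_of_nonneg hV0 (by norm_num)]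
    exact ENNReal.rpow_le_rpow hV (by norm_num)
  rw [← ofReal_norm] at h2
  exact (ENNReal.ofReal_le_ofReal_iff (by positivity)).1 h2

theorem integrableOn_L2 {s : Set (ST n)} (hs : volume s ≠ ∞) (u : L2 n) :
    IntegrableOn (fun z => u z) s := by
  have h1 : MemLp (fun z => u z) 2 (volume.restrict s) := (Lp.memLp u).restrict s
  have : IsFiniteMeasure (volume.restrict s : Measure (ST n)) :=
    ⟨by rw [Measure.restrict_apply_univ]; exact lt_of_le_of_ne le_top hs⟩
  exact h1.integrable (by norm_num)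

/-- the averaging estimate -/
theorem norm_integral_D_le (k : ℤ) (m : Fin (n + 1) → ℤ) {v : L2 n} (hv : v ∈ En n) (i : Fin n)
    {ρ : ℝ} (hρ : 0 < ρ) :
    ‖∫ z in cube k m, D i.succ v z‖ ≤
      (2 * (1 / ρ) * CT * (2 : ℝ) ^ k) * Real.sqrt (3 ^ (n + 1) * qv n k) * ‖v‖
      + Real.sqrt ((n + 1) * (2 * ρ * qv n k)) * ‖D i.succ v‖ := by
  have hq := qv_pos n k
  have hCT := CT_nonneg
  set χ : ST n → ℂ := chiC (1 / ρ) (1 / 2) k m with hχ
  have ha : (0 : ℝ) < 1 / ρ := by positivity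
  have hχ0 : ∀ z j, 1 / 2 ≤ |yc k m j z| → χ z = 0 := by
    intro z j h
    rw [hχ]
    unfold chiC
    rw [chi_zero ha k m h]
    simp
  have hχ1 : ∀ z, (∀ j, |yc k m j z| ≤ 1 / 2 - ρ) → χ z = 1 := by
    intro z h
    rw [hχ]
    unfold chiC
    rw [chi_one ha k m (by simpa using h)]
    simp
  have hcd : ContDiff ℝ 1 χ := contDiff_chiC _ _ _ _
  have hcs : HasCompactSupport χ := hasCompactSupport_of_box (1 / 2) k m hχ0
  have hIBP := integral_mul_D hcd hcs hv i
  -- outside of the cube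
  have hout : ∀ z, z ∉ cube k m → χ z = 0 := by
    intro z hz
    unfold cube at hz
    simp only [Set.mem_ofPred_eq, not_forall] at hz
    obtain ⟨j, hj⟩ := hz
    refine hχ0 z j ?_
    unfold yc
    rw [not_and_or, not_le, not_lt] at hj
    rcases hj with hj | hj
    · refine le_trans ?_ (neg_le_abs _)
      linarith
    · refine le_trans ?_ (le_abs_self _)
      linarith
  have hI1 : ∫ z, χ z * D i.succ v z = ∫ z in cube k m, χ z * D i.succ v z := by
    symm
    refine setIntegral_eq_integral_of_forall_compl_eq_zero (fun z hz => ?_)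
    rw [hout z hz, zero_mul]
  have hI2 : ∫ z, pd i.succ χ z * v z = ∫ z in star k m, pd i.succ χ z * v z := by
    symm
    refine setIntegral_eq_integral_of_forall_compl_eq_zero (fun z hz => ?_)
    obtain ⟨j, hj⟩ := not_mem_star hz
    rw [pd_zero_of_box (1 / 2) k m hχ0 i.succ z j (by linarith), zero_mul]
  have hfin : volume (cube k m) ≠ ∞ := by rw [volume_cube]; exact ENNReal.ofReal_ne_top
  have hint := integrableOn_L2 hfin (D i.succ v)
  have hintχ : IntegrableOn (fun z => χ z * D i.succ v z) (cube k m) := by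
    refine Integrable.bdd_mul (c := 1) hint hcd.continuous.aestronglyMeasurable ?_
    exact Filter.Eventually.of_forall (fun z => norm_chiC_le _ _ _ _ _)
  have hsplit : ∫ z in cube k m, D i.succ v z
      = (∫ z in cube k m, χ z * D i.succ v z) + ∫ z in cube k m, (1 - χ z) * D i.succ v z := by
    rw [← integral_add hintχ]
    · refine integral_congr_ae (Filter.Eventually.of_forall (fun z => ?_))
      simp only
      ring
    · have : (fun z => (1 - χ z) * D i.succ v z)
          = fun z => D i.succ v z - χ z * D i.succ v z := by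
        funext z; ring
      rw [this]
      exact hint.sub hintχ
  rw [hsplit, ← hI1, hIBP, hI2]
  refine (norm_add_le _ _).trans (add_le_add ?_ ?_)
  · rw [norm_neg]
    have hK : (0 : ℝ) ≤ 2 * (1 / ρ) * CT * (2 : ℝ) ^ k := by positivity
    have h := enorm_setIntegral_le (measurableSet_star k m) (φ := pd i.succ χ)
      (continuous_pd hcd i.succ).measurable v
      (V := (2 * (1 / ρ) * CT * (2 : ℝ) ^ k) ^ 2 * (3 ^ (n + 1) * qv n k)) (by
        calc ∫⁻ z in star k m, ‖pd i.succ χ z‖ₑ ^ 2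
            ≤ ∫⁻ z in star k m, ENNReal.ofReal ((2 * (1 / ρ) * CT * (2 : ℝ) ^ k) ^ 2) := by
              refine lintegral_mono (fun z => ?_)
              rw [ENNReal.ofReal_pow hK]
              refine pow_le_pow_left' ?_ 2
              rw [← ofReal_norm]
              refine ENNReal.ofReal_le_ofReal ?_
              have := norm_pd_chiC_le ha (1 / 2) k m i.succ z
              rwa [sc_succ] at this
          _ = ENNReal.ofReal ((2 * (1 / ρ) * CT * (2 : ℝ) ^ k) ^ 2 * (3 ^ (n + 1) * qv n k)) := by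
              rw [lintegral_const, Measure.restrict_apply_univ, volume_star,
                ← ENNReal.ofReal_mul (by positivity)]) (by positivity)
    rwa [Real.sqrt_mul (by positivity), Real.sqrt_sq hK] at h
  · refine enorm_setIntegral_le (measurableSet_cube k m) (φ := fun z => 1 - χ z)
      ((continuous_const.sub hcd.continuous).measurable) (D i.succ v) ?_ (by positivity)
    set E : Fin (n + 1) → Set (ST n) := fun j => {z | z ∈ cube k m ∧ 1 / 2 - ρ < |yc k m j z|}
      with hE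
    have hEm : ∀ j, MeasurableSet (E j) := by
      intro j
      refine (measurableSet_cube k m).inter ?_
      exact (isOpen_lt continuous_const (continuous_yc k m j).abs).measurableSet
    calc ∫⁻ z in cube k m, ‖1 - χ z‖ₑ ^ 2
        ≤ ∫⁻ z in cube k m, ∑ j, (E j).indicator (fun _ => (1 : ℝ≥0∞)) z := by
          refine setLIntegral_mono' (measurableSet_cube k m) (fun z hz => ?_)
          by_cases h : ∀ j, |yc k m j z| ≤ 1 / 2 - ρ
          · rw [hχ1 z h]
            simp
          · push Not at h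
            obtain ⟨j, hj⟩ := h
            have h1 : (E j).indicator (fun _ => (1 : ℝ≥0∞)) z = 1 := by
              rw [Set.indicator_of_mem]
              exact ⟨hz, hj⟩
            have h2 : ‖1 - χ z‖ₑ ^ 2 ≤ 1 := by
              have h3 : ‖1 - χ z‖ ≤ 1 := by
                rw [hχ]
                unfold chiC
                have e : (1 : ℂ) - (chi (1 / ρ) (1 / 2) k m z : ℂ)
                    = ((1 - chi (1 / ρ) (1 / 2) k m z : ℝ) : ℂ) := by push_cast; ring
                rw [e, Complex.norm_real, Real.norm_eq_abs, abs_of_nonneg]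
                · linarith [chi_nonneg (1 / ρ) (1 / 2) k m z]
                · linarith [chi_le_one (1 / ρ) (1 / 2) k m z]
              have h4 : ‖1 - χ z‖ₑ ≤ 1 := by
                rw [← ofReal_norm]
                exact ENNReal.ofReal_le_one.2 h3
              exact pow_le_one₀ zero_le h4
            refine h2.trans (le_trans (le_of_eq h1.symm) ?_)
            exact Finset.single_le_sum (f := fun j => (E j).indicator (fun _ => (1 : ℝ≥0∞)) z)
              (fun _ _ => zero_le) (Finset.mem_univ j)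
      _ ≤ ∫⁻ z, ∑ j, (E j).indicator (fun _ => (1 : ℝ≥0∞)) z := setLIntegral_le_lintegral _ _
      _ = ∑ j, volume (E j) := by
          rw [lintegral_finsetSum _ (fun j _ => measurable_const.indicator (hEm j))]
          refine Finset.sum_congr rfl (fun j _ => ?_)
          rw [lintegral_indicator (hEm j), lintegral_const, Measure.restrict_apply_univ, one_mul]
      _ ≤ ∑ _j : Fin (n + 1), ENNReal.ofReal (2 * ρ * qv n k) :=
          Finset.sum_le_sum (fun j _ => volume_slab k m j hρ.le)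
      _ = ENNReal.ofReal ((n + 1) * (2 * ρ * qv n k)) := by
          rw [Finset.sum_const, Finset.card_univ, Fintype.card_fin, nsmul_eq_mul,
            ENNReal.ofReal_mul (p := (n : ℝ) + 1) (by positivity)]
          congr 1
          have e : (n : ℝ) + 1 = ((n + 1 : ℕ) : ℝ) := by push_cast; rfl
          rw [e, ENNReal.ofReal_natCast]

end TF

end

end Pool.Agent.W_eb6199
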