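import Pool.Agent.W_eb6199.Classical
import Pool.Agent.W_eb6199.ResAlg
import Pool.Agent.W_eb6199.Cubes
import Pool.Agent.W_eb6199.EkBasic
import Pool.Agent.W_eb6199.TestFunAux

open MeasureTheory Complex Filter Topology
open scoped FourierTransform ComplexInnerProductSpace ENNReal NNReal

namespace Pool.Agent.W_eb6199

noncomputable section

variable {n : ℕ}

/-! T35: the test functions of the `T(b)` argument. -/

namespace TF

theorem norm_add_sq_le (a b : L2 n) : ‖a + b‖ ^ 2 ≤ 2 * ‖a‖ ^ 2 + 2 * ‖b‖ ^ 2 := by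
  have h1 := norm_add_le a b
  have h2 : ‖a + b‖ ^ 2 ≤ (‖a‖ + ‖b‖) ^ 2 := pow_le_pow_left₀ (norm_nonneg _) h1 2
  nlinarith only [sq_nonneg (‖a‖ - ‖b‖), h2]

theorem eD_add_le {a b : L2 n} (ha : a ∈ En n) (hb : b ∈ En n) :
    eD (a + b) ≤ 2 * eD a + 2 * eD b := by
  unfold eD
  rw [Finset.mul_sum, Finset.mul_sum, ← Finset.sum_add_distrib]
  refine Finset.sum_le_sum (fun j _ => ?_)
  rw [D_add j ha hb]
  exact norm_add_sq_le _ _

theorem eD_smul (c : ℂ) {a : L2 n} (ha : a ∈ En n) : eD (c • a) = ‖c‖ ^ 2 * eD a := by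
  unfold eD
  rw [Finset.mul_sum]
  refine Finset.sum_congr rfl (fun j _ => ?_)
  rw [D_smul j c ha, norm_smul, mul_pow]

end TF

open TF

theorem exists_test (A : Coef n) : ∃ C : ℝ, 0 < C ∧ ∀ ε : ℝ, 0 < ε → ε ≤ 1 →
    ∀ (k : ℤ) (m : Fin (n + 1) → ℤ) (w : Fin n → ℂ), ∑ i, ‖w i‖ ^ 2 = 1 →
    ∃ f h : L2 n, InDom A f h ∧ eD f ≤ C * qv n k ∧
      ‖h‖ ^ 2 ≤ C / ε ^ 2 * (4 : ℝ) ^ k * qv n k ∧
      ∀ i : Fin n, ‖avg k m (D i.succ f) - (starRingEnd ℂ) (w i)‖ ≤ C * ε ^ (1 / 3 : ℝ) := by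
  obtain ⟨C1, hC1, hres⟩ := exists_res_bound A
  have hK := KK_pos n
  have hCT := CT_nonneg
  have hM : 1 ≤ A.M := A.one_le_M
  set K := KK n with hKdef
  set C2 : ℝ := 2 * C1 * K ^ 2 * (1 + n * (n * A.M) ^ 2) with hC2
  have hC2pos : 0 < C2 := by positivity
  set Ca : ℝ := (2 * (n + 1) * K ^ 2 + 2 * C2) * 3 ^ (n + 1) with hCa
  set Cb : ℝ := C2 * 3 ^ (n + 1) with hCb
  set Cc : ℝ := 2 * CT * Real.sqrt C2 * 3 ^ (n + 1) + Real.sqrt (2 * (n + 1) * C2 * 3 ^ (n + 1))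
    with hCc
  have hCapos : 0 < Ca := by positivity
  have hCbpos : 0 < Cb := by positivity
  have hCcpos : 0 ≤ Cc := by positivity
  refine ⟨Ca + Cb + Cc, by positivity, ?_⟩
  intro ε hε hε1 k m w hw
  have hq := qv_pos n k
  have h2k : (0 : ℝ) < (2 : ℝ) ^ k := by positivity
  set Vs : ℝ := 3 ^ (n + 1) * qv n k with hVs
  have hVspos : 0 < Vs := by positivity
  set u := toL2 (Ph k m w) with hu
  set wt := toL2 (pd 0 (Ph k m w)) with hwt
  obtain ⟨huE, hD, hD0⟩ := En_of_contDiff (contDiff_Ph k m w) (hasCompactSupport_Ph k m w)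
  have hF0 : FMul (dsym 0) u wt := FMul_of_contDiff (contDiff_Ph k m w) (hasCompactSupport_Ph k m w) 0
  have hun : ‖u‖ ^ 2 ≤ (K * ((2 : ℝ) ^ k)⁻¹) ^ 2 * Vs := norm_sq_toL2_Ph k m hw
  have hwn : ‖wt‖ ^ 2 ≤ (K * (2 : ℝ) ^ k) ^ 2 * Vs :=
    norm_sq_toL2_pd k m w 0 (by positivity) (norm_pd_Ph_zero_le k m hw)
  have hDn : ∀ i : Fin n, ‖D i.succ u‖ ^ 2 ≤ K ^ 2 * Vs := by
    intro i
    rw [hD i]
    exact norm_sq_toL2_pd k m w i.succ hK.le (norm_pd_Ph_succ_le k m hw i)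
  set l : ℝ := ε * ((2 : ℝ) ^ k)⁻¹ with hl
  have hlpos : 0 < l := by positivity
  have hlC : (l : ℂ) ≠ 0 := by exact_mod_cast hlpos.ne'
  set f := J A l u with hf
  set R := ((l : ℂ)⁻¹) • (u - f) with hR
  have hfE : f ∈ En n := J_mem A hlpos u
  have hRE : R ∈ En n := En_smul _ (En_sub huE hfE)
  have hReq : R = ((A.sg * l : ℝ) : ℂ) • J A l wt + S A l (A.app fun i => D i.succ u) :=
    inv_smul_sub_J A hlpos huE hF0
  -- the two bounds
  have hJw : ‖J A l wt‖ ^ 2 + l ^ 2 * eD (J A l wt) ≤ C1 * ‖wt‖ ^ 2 := by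
    have := hres l hlpos wt 0 _ (J_spec A hlpos wt)
    simpa using this
  have hSF : ‖S A l (A.app fun i => D i.succ u)‖ ^ 2
      + l ^ 2 * eD (S A l (A.app fun i => D i.succ u))
      ≤ C1 * ∑ i, ‖A.app (fun i => D i.succ u) i‖ ^ 2 := by
    have := hres l hlpos 0 (A.app fun i => D i.succ u) _ (S_spec A hlpos _)
    simpa using this
  have hFs : ∑ i, ‖A.app (fun i => D i.succ u) i‖ ^ 2 ≤ (n * A.M) ^ 2 * (n * (K ^ 2 * Vs)) := by
    refine (Coef.sum_norm_app_sq_le A _).trans ?_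
    refine mul_le_mul_of_nonneg_left ?_ (by positivity)
    refine (Finset.sum_le_sum (fun i _ => hDn i)).trans (le_of_eq ?_)
    rw [Finset.sum_const, Finset.card_univ, Fintype.card_fin, nsmul_eq_mul]
  have hsg : A.sg ^ 2 = 1 := by
    rcases A.sg_eq with h | h <;> rw [h] <;> norm_num
  have hcn : ‖((A.sg * l : ℝ) : ℂ)‖ ^ 2 = l ^ 2 := by
    rw [Complex.norm_real, Real.norm_eq_abs, sq_abs, mul_pow, hsg, one_mul]
  have hlw : l ^ 2 * ‖wt‖ ^ 2 ≤ K ^ 2 * Vs := by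
    calc l ^ 2 * ‖wt‖ ^ 2 ≤ l ^ 2 * ((K * (2 : ℝ) ^ k) ^ 2 * Vs) :=
          mul_le_mul_of_nonneg_left hwn (by positivity)
      _ = ε ^ 2 * (K ^ 2 * Vs) := by
          rw [hl]; field_simp
      _ ≤ 1 * (K ^ 2 * Vs) := by
          refine mul_le_mul_of_nonneg_right ?_ (by positivity)
          exact pow_le_one₀ hε.le hε1
      _ = K ^ 2 * Vs := one_mul _
  have hRbound : ‖R‖ ^ 2 + l ^ 2 * eD R ≤ C2 * Vs := by
    have e1 : ‖R‖ ^ 2 ≤ 2 * (l ^ 2 * ‖J A l wt‖ ^ 2)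
        + 2 * ‖S A l (A.app fun i => D i.succ u)‖ ^ 2 := by
      rw [hReq]
      refine (norm_add_sq_le _ _).trans (le_of_eq ?_)
      rw [norm_smul, mul_pow, hcn]
    have e2 : eD R ≤ 2 * (l ^ 2 * eD (J A l wt)) + 2 * eD (S A l (A.app fun i => D i.succ u)) := by
      rw [hReq]
      refine (eD_add_le (En_smul _ (J_mem A hlpos wt)) (S_mem A hlpos _)).trans (le_of_eq ?_)
      rw [eD_smul _ (J_mem A hlpos wt), hcn]
    have e3 : l ^ 2 * (‖J A l wt‖ ^ 2 + l ^ 2 * eD (J A l wt)) ≤ C1 * (K ^ 2 * Vs) := by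
      calc l ^ 2 * (‖J A l wt‖ ^ 2 + l ^ 2 * eD (J A l wt)) ≤ l ^ 2 * (C1 * ‖wt‖ ^ 2) :=
            mul_le_mul_of_nonneg_left hJw (by positivity)
        _ = C1 * (l ^ 2 * ‖wt‖ ^ 2) := by ring
        _ ≤ C1 * (K ^ 2 * Vs) := mul_le_mul_of_nonneg_left hlw hC1.le
    have e4 : C1 * ∑ i, ‖A.app (fun i => D i.succ u) i‖ ^ 2
        ≤ C1 * ((n * A.M) ^ 2 * (n * (K ^ 2 * Vs))) := mul_le_mul_of_nonneg_left hFs hC1.le
    have e5 : C2 * Vs = 2 * (C1 * (K ^ 2 * Vs)) + 2 * (C1 * ((n * A.M) ^ 2 * (n * (K ^ 2 * Vs)))) := by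
      rw [hC2]; ring
    have e6 : l ^ 2 * eD R ≤ l ^ 2 * (2 * (l ^ 2 * eD (J A l wt))
        + 2 * eD (S A l (A.app fun i => D i.succ u))) :=
      mul_le_mul_of_nonneg_left e2 (by positivity)
    rw [e5]
    have e7 := add_le_add e3 (hSF.trans e4)
    linarith only [e1, e6, e7]
  -- v = f - u
  set v := f - u with hv
  have hvE : v ∈ En n := En_sub hfE huE
  have hvR : v = (-(l : ℂ)) • R := by
    rw [hR, smul_smul, neg_mul, mul_inv_cancel₀ hlC, neg_smul, one_smul, hv, neg_sub]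
  have hvn : ‖v‖ ^ 2 = l ^ 2 * ‖R‖ ^ 2 := by
    rw [hvR, norm_smul, norm_neg, Complex.norm_real, Real.norm_eq_abs, mul_pow, sq_abs]
  have hve : eD v = l ^ 2 * eD R := by
    rw [hvR, eD_smul _ hRE, norm_neg, Complex.norm_real, Real.norm_eq_abs, sq_abs]
  have heR := eD_nonneg R
  have hv1 : ‖v‖ ^ 2 ≤ l ^ 2 * (C2 * Vs) := by
    rw [hvn]
    refine mul_le_mul_of_nonneg_left ?_ (by positivity)
    have : 0 ≤ l ^ 2 * eD R := by positivity
    linarith only [hRbound, this]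
  have hv2 : eD v ≤ C2 * Vs := by
    rw [hve]
    have : 0 ≤ ‖R‖ ^ 2 := by positivity
    linarith only [hRbound, this]
  have hfuv : f = u + v := by rw [hv]; abel
  -- eD u
  have heu : eD u ≤ (n + 1) * K ^ 2 * Vs := by
    rw [eD_eq]
    have e1 : ‖D 0 u‖ ^ 2 ≤ K ^ 2 * Vs := by
      refine hD0.trans ?_
      have h1 : ‖u‖ ≤ (K * ((2 : ℝ) ^ k)⁻¹) * Real.sqrt Vs := by
        refine (pow_le_pow_iff_left₀ (norm_nonneg _) (by positivity) two_ne_zero).1 ?_
        rw [mul_pow, Real.sq_sqrt hVspos.le]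
        exact hun
      have h2 : ‖wt‖ ≤ (K * (2 : ℝ) ^ k) * Real.sqrt Vs := by
        refine (pow_le_pow_iff_left₀ (norm_nonneg _) (by positivity) two_ne_zero).1 ?_
        rw [mul_pow, Real.sq_sqrt hVspos.le]
        exact hwn
      calc ‖u‖ * ‖wt‖ ≤ ((K * ((2 : ℝ) ^ k)⁻¹) * Real.sqrt Vs) * ((K * (2 : ℝ) ^ k) * Real.sqrt Vs) :=
            mul_le_mul h1 h2 (norm_nonneg _) (by positivity)
        _ = K ^ 2 * (Real.sqrt Vs * Real.sqrt Vs) := by field_simp
        _ = K ^ 2 * Vs := by rw [Real.mul_self_sqrt hVspos.le]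
    have e2 : gD u ≤ n * (K ^ 2 * Vs) := by
      unfold gD
      refine (Finset.sum_le_sum (fun i _ => hDn i)).trans (le_of_eq ?_)
      rw [Finset.sum_const, Finset.card_univ, Fintype.card_fin, nsmul_eq_mul]
    have e3 : K ^ 2 * Vs + n * (K ^ 2 * Vs) = (n + 1) * K ^ 2 * Vs := by ring
    exact (add_le_add e1 e2).trans e3.le
  refine ⟨f, ((l : ℂ) ^ 2)⁻¹ • (u - f), InDom_J A hlpos u, ?_, ?_, ?_⟩
  · -- energy
    have h1 : eD f ≤ 2 * eD u + 2 * eD v := by
      rw [hfuv]; exact eD_add_le huE hvE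
    have h2 : eD f ≤ Ca * qv n k := by
      refine h1.trans ?_
      have e : Ca * qv n k = 2 * ((n + 1) * K ^ 2 * Vs) + 2 * (C2 * Vs) := by
        rw [hCa, hVs]; ring
      rw [e]
      linarith only [hv2, heu]
    refine h2.trans (mul_le_mul_of_nonneg_right ?_ hq.le)
    linarith only [hCbpos, hCcpos]
  · have h1 : ‖((l : ℂ) ^ 2)⁻¹ • (u - f)‖ ^ 2 = (l ^ 2)⁻¹ ^ 2 * ‖v‖ ^ 2 := by
      rw [norm_smul, mul_pow, norm_inv, norm_pow, Complex.norm_real, Real.norm_eq_abs, sq_abs,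
        hv, norm_sub_rev]
    have h4 : (4 : ℝ) ^ k = (2 : ℝ) ^ k * (2 : ℝ) ^ k := by
      rw [← mul_zpow]; norm_num
    rw [h1]
    calc (l ^ 2)⁻¹ ^ 2 * ‖v‖ ^ 2 ≤ (l ^ 2)⁻¹ ^ 2 * (l ^ 2 * (C2 * Vs)) :=
          mul_le_mul_of_nonneg_left hv1 (by positivity)
      _ = Cb / ε ^ 2 * (4 : ℝ) ^ k * qv n k := by
          rw [hCb, hVs, hl, h4]
          field_simp
      _ ≤ (Ca + Cb + Cc) / ε ^ 2 * (4 : ℝ) ^ k * qv n k := by
          have : Cb / ε ^ 2 ≤ (Ca + Cb + Cc) / ε ^ 2 :=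
            div_le_div_of_nonneg_right (by linarith only [hCapos, hCcpos]) (by positivity)
          exact mul_le_mul_of_nonneg_right (mul_le_mul_of_nonneg_right this (by positivity)) hq.le
  · intro i
    have hfin : volume (cube k m) ≠ ∞ := by rw [volume_cube]; exact ENNReal.ofReal_ne_top
    have hsum : ∫ z in cube k m, D i.succ f z
        = (∫ z in cube k m, D i.succ u z) + ∫ z in cube k m, D i.succ v z := by
      rw [← integral_add (integrableOn_L2 hfin _) (integrableOn_L2 hfin _)]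
      refine integral_congr_ae ?_
      have h1 : D i.succ f = D i.succ u + D i.succ v := by
        rw [hfuv]; exact D_add i.succ huE hvE
      refine ae_restrict_of_ae ?_
      rw [h1]
      filter_upwards [Lp.coeFn_add (D i.succ u) (D i.succ v)] with z hz
      rw [hz, Pi.add_apply]
    have hmain : ∫ z in cube k m, D i.succ u z = (qv n k : ℂ) * (starRingEnd ℂ) (w i) := by
      calc ∫ z in cube k m, D i.succ u z = ∫ z in cube k m, (starRingEnd ℂ) (w i) := by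
            refine integral_congr_ae ?_
            have h1 : ∀ᵐ z ∂(volume.restrict (cube k m)), D i.succ u z = pd i.succ (Ph k m w) z := by
              refine ae_restrict_of_ae ?_
              rw [hD i]
              exact toL2_coe (memLp_of_compact (continuous_pd (contDiff_Ph k m w) i.succ)
                (hasCompactSupport_pd (hasCompactSupport_Ph k m w) i.succ))
            filter_upwards [h1, ae_restrict_mem (measurableSet_cube k m)] with z hz hzc
            rw [hz]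
            exact pd_Ph_cube k m w i hzc
        _ = (qv n k : ℂ) * (starRingEnd ℂ) (w i) := by
            rw [setIntegral_const, Measure.real, volume_cube, ENNReal.toReal_ofReal hq.le]
            simp
    have havg : avg k m (D i.succ f) - (starRingEnd ℂ) (w i)
        = ((qv n k)⁻¹ : ℝ) • ∫ z in cube k m, D i.succ v z := by
      unfold avg
      rw [hsum, hmain, smul_add]
      have : ((qv n k)⁻¹ : ℝ) • ((qv n k : ℂ) * (starRingEnd ℂ) (w i)) = (starRingEnd ℂ) (w i) := by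
        rw [Complex.real_smul, ← mul_assoc]
        have h0 : (qv n k : ℂ) ≠ 0 := by exact_mod_cast hq.ne'
        push_cast
        rw [inv_mul_cancel₀ h0, one_mul]
      rw [this]
      ring
    rw [havg, norm_smul, Real.norm_eq_abs, abs_of_pos (by positivity)]
    set ρ : ℝ := ε ^ (2 / 3 : ℝ) with hρ
    have hρpos : 0 < ρ := Real.rpow_pos_of_pos hε _
    set e3 : ℝ := ε ^ (1 / 3 : ℝ) with he3
    have he3pos : 0 < e3 := Real.rpow_pos_of_pos hε _
    have hρ3 : ρ = e3 ^ 2 := by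
      rw [hρ, he3, ← Real.rpow_natCast, ← Real.rpow_mul hε.le]
      norm_num
    have hε3 : ε = e3 ^ 3 := by
      rw [he3, ← Real.rpow_natCast, ← Real.rpow_mul hε.le]
      norm_num
    have hI := norm_integral_D_le k m hvE i hρpos
    have hvnorm : ‖v‖ ≤ l * Real.sqrt (C2 * Vs) := by
      refine (pow_le_pow_iff_left₀ (norm_nonneg _) (by positivity) two_ne_zero).1 ?_
      rw [mul_pow, Real.sq_sqrt (by positivity)]
      exact hv1
    have hDv : ‖D i.succ v‖ ≤ Real.sqrt (C2 * Vs) := by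
      refine Real.le_sqrt_of_sq_le ?_
      exact (norm_D_sq_le i.succ v).trans hv2
    have hb1 : (2 * (1 / ρ) * CT * (2 : ℝ) ^ k) * Real.sqrt (3 ^ (n + 1) * qv n k) * ‖v‖
        ≤ (2 * CT * Real.sqrt C2 * 3 ^ (n + 1)) * e3 * qv n k := by
      calc (2 * (1 / ρ) * CT * (2 : ℝ) ^ k) * Real.sqrt (3 ^ (n + 1) * qv n k) * ‖v‖
          ≤ (2 * (1 / ρ) * CT * (2 : ℝ) ^ k) * Real.sqrt (3 ^ (n + 1) * qv n k)
              * (l * Real.sqrt (C2 * Vs)) :=
            mul_le_mul_of_nonneg_left hvnorm (mul_nonneg (mul_nonneg (mul_nonneg (mul_nonneg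
              zero_le_two (one_div_pos.2 hρpos).le) hCT) h2k.le) (Real.sqrt_nonneg _))
        _ = (2 * (1 / ρ) * CT * (2 : ℝ) ^ k * l) * (Real.sqrt Vs * Real.sqrt (C2 * Vs)) := by
            rw [← hVs]; ring
        _ = (2 * (1 / ρ) * CT * (2 : ℝ) ^ k * l) * (Real.sqrt C2 * Vs) := by
            congr 1
            rw [Real.sqrt_mul hC2pos.le]
            calc Real.sqrt Vs * (Real.sqrt C2 * Real.sqrt Vs)
                = Real.sqrt C2 * (Real.sqrt Vs * Real.sqrt Vs) := by ring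
              _ = Real.sqrt C2 * Vs := by rw [Real.mul_self_sqrt hVspos.le]
        _ = (2 * CT * Real.sqrt C2 * 3 ^ (n + 1)) * e3 * qv n k := by
            rw [hl, hVs, hρ3]
            conv_lhs => rw [hε3]
            field_simp
    have hb2 : Real.sqrt ((n + 1) * (2 * ρ * qv n k)) * ‖D i.succ v‖
        ≤ Real.sqrt (2 * (n + 1) * C2 * 3 ^ (n + 1)) * e3 * qv n k := by
      calc Real.sqrt ((n + 1) * (2 * ρ * qv n k)) * ‖D i.succ v‖
          ≤ Real.sqrt ((n + 1) * (2 * ρ * qv n k)) * Real.sqrt (C2 * Vs) :=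
            mul_le_mul_of_nonneg_left hDv (Real.sqrt_nonneg _)
        _ = Real.sqrt ((2 * (n + 1) * C2 * 3 ^ (n + 1)) * (e3 * qv n k) ^ 2) := by
            rw [← Real.sqrt_mul (by positivity)]
            congr 1
            rw [hVs, hρ3]
            ring
        _ = Real.sqrt (2 * (n + 1) * C2 * 3 ^ (n + 1)) * e3 * qv n k := by
            rw [Real.sqrt_mul (by positivity), Real.sqrt_sq (by positivity)]
            ring
    calc (qv n k)⁻¹ * ‖∫ z in cube k m, D i.succ v z‖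
        ≤ (qv n k)⁻¹ * ((2 * CT * Real.sqrt C2 * 3 ^ (n + 1)) * e3 * qv n k
          + Real.sqrt (2 * (n + 1) * C2 * 3 ^ (n + 1)) * e3 * qv n k) :=
          mul_le_mul_of_nonneg_left (hI.trans (add_le_add hb1 hb2)) (by positivity)
      _ = Cc * e3 := by
          rw [hCc]
          field_simp
      _ ≤ (Ca + Cb + Cc) * e3 := mul_le_mul_of_nonneg_right (by linarith only [hCapos, hCbpos]) he3pos.le

end

end Pool.Agent.W_eb6199
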