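import Pool.Agent.W_eb6199.Principal
import Pool.Agent.W_eb6199.TestFun
import Pool.Agent.W_eb6199.TbMeas

open MeasureTheory Complex Filter Topology
open scoped FourierTransform ComplexInnerProductSpace ENNReal NNReal

namespace Pool.Agent.W_eb6199

noncomputable section

variable {n : ℕ}

/-! T36: Carleson measure estimate for `γ` (stopping time argument). -/

theorem nrm_add_le (v w : Fin n → ℂ) : nrm (fun i => v i + w i) ≤ nrm v + nrm w := by
  rw [nrm_eq, nrm_eq, nrm_eq]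
  exact norm_add_le (WithLp.toLp 2 v : EuclideanSpace ℂ (Fin n)) (WithLp.toLp 2 w)

theorem bdot_conj {w : Fin n → ℂ} (hw : ∑ i, ‖w i‖ ^ 2 = 1) :
    bdot w (fun i => (starRingEnd ℂ) (w i)) = 1 := by
  unfold bdot
  have h : ∀ i, w i * (starRingEnd ℂ) (w i) = ((‖w i‖ ^ 2 : ℝ) : ℂ) := by
    intro i
    rw [Complex.mul_conj, Complex.normSq_eq_norm_sq]
  simp_rw [h]
  rw [← Complex.ofReal_sum, hw, Complex.ofReal_one]

theorem sum_inv_four_zpow_le (k₀ K : ℤ) :
    ∑ k ∈ Finset.Icc k₀ K, ((4 : ℝ) ^ k)⁻¹ ≤ (4 / 3) * ((4 : ℝ) ^ k₀)⁻¹ := by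
  by_cases hK : K < k₀
  · rw [Finset.Icc_eq_empty (by omega), Finset.sum_empty]
    positivity
  push Not at hK
  have key : ∑ k ∈ Finset.Icc k₀ K, ((4 : ℝ) ^ k)⁻¹
      = (4 / 3) * ((4 : ℝ) ^ k₀)⁻¹ - (1 / 3) * ((4 : ℝ) ^ K)⁻¹ := by
    induction K, hK using Int.leInduction with
    | base =>
      rw [Finset.Icc_self, Finset.sum_singleton]
      ring
    | succ K hK ih =>
      have h1 : Finset.Icc k₀ (K + 1) = insert (K + 1) (Finset.Icc k₀ K) := by
        ext x
        simp only [Finset.mem_Icc, Finset.mem_insert]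
        omega
      rw [h1, Finset.sum_insert (by simp), ih, zpow_add₀ (by norm_num : (4 : ℝ) ≠ 0)]
      have : ((4 : ℝ) ^ K) ≠ 0 := by positivity
      field_simp
      ring
  rw [key]
  have : (0 : ℝ) < ((4 : ℝ) ^ K)⁻¹ := by positivity
  linarith only [this]

theorem enorm_add_sq_le (a b : ℂ) : ‖a + b‖ₑ ^ 2 ≤ 2 * ‖a‖ₑ ^ 2 + 2 * ‖b‖ₑ ^ 2 := by
  have h : ‖a + b‖ ^ 2 ≤ 2 * ‖a‖ ^ 2 + 2 * ‖b‖ ^ 2 := by
    have h1 := norm_add_le a b
    have h2 := norm_nonneg (a + b)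
    nlinarith only [sq_nonneg (‖a‖ - ‖b‖), h1, h2]
  have h3 := ENNReal.ofReal_le_ofReal h
  rw [ENNReal.ofReal_add (by positivity) (by positivity), ENNReal.ofReal_mul (by norm_num),
    ENNReal.ofReal_mul (by norm_num), ENNReal.ofReal_pow (norm_nonneg _),
    ENNReal.ofReal_pow (norm_nonneg _), ENNReal.ofReal_pow (norm_nonneg _), ofReal_norm,
    ofReal_norm, ofReal_norm] at h3
  simpa using h3

theorem sum_enorm_sq (v : Fin n → ℂ) : ∑ i, ‖v i‖ₑ ^ 2 = ENNReal.ofReal (nrm v ^ 2) := by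
  rw [nrm_sq, ENNReal.ofReal_sum_of_nonneg fun _ _ => sq_nonneg _]
  refine Finset.sum_congr rfl fun i _ => ?_
  rw [ENNReal.ofReal_pow (norm_nonneg _), ofReal_norm]

theorem norm_sq_inv_smul_le {A : Coef n} {l : ℝ} (hl : 0 < l) {f h : L2 n}
    (hf : InDom A f h) : ‖((l : ℂ)⁻¹ • (f - J A l f) : L2 n)‖ ^ 2 ≤ l ^ 2 * ‖h‖ ^ 2 := by
  have h1 : (l : ℂ) • J A l h = (l : ℂ)⁻¹ • (f - J A l f) := by
    have hl' : (l : ℂ) ≠ 0 := by exact_mod_cast hl.ne'
    have h3 : (l : ℂ) * ((l : ℂ) ^ 2)⁻¹ = (l : ℂ)⁻¹ := by field_simp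
    exact ((congrArg (fun x : L2 n => (l : ℂ) • x) (J_of_InDom A hl hf)).trans
      (smul_smul (l : ℂ) (((l : ℂ) ^ 2)⁻¹) _)).trans (by rw [h3])
  have h2 : ‖J A l h‖ ≤ ‖h‖ := norm_J_le A hl h
  have h4 : ‖((l : ℂ)⁻¹ • (f - J A l f) : L2 n)‖ = l * ‖J A l h‖ := by
    refine (congrArg norm h1).symm.trans ((norm_smul (l : ℂ) _).trans ?_)
    rw [Complex.norm_real, Real.norm_eq_abs, abs_of_pos hl]
  have h5 : (l * ‖J A l h‖) ^ 2 ≤ l ^ 2 * ‖h‖ ^ 2 := by
    rw [mul_pow]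
    gcongr
  exact (congrArg (fun x : ℝ => x ^ 2) h4).le.trans h5

theorem sum_lint_le (I : Finset ℤ) (Y : ℤ → L2 n) (Z : ℤ → ST n → ℂ) :
    ∑ k ∈ I, ∫⁻ z, ‖Z k z‖ₑ ^ 2
      ≤ 2 * (∑ k ∈ I, ∫⁻ z, ‖Y k z - Z k z‖ₑ ^ 2)
        + 2 * ENNReal.ofReal (∑ k ∈ I, ‖Y k‖ ^ 2) := by
  have h1 : ∀ k, ∫⁻ z, ‖Z k z‖ₑ ^ 2
      ≤ 2 * (∫⁻ z, ‖Y k z - Z k z‖ₑ ^ 2) + 2 * ENNReal.ofReal (‖Y k‖ ^ 2) := by
    intro k
    rw [ofReal_norm_sq (Y k), ← lintegral_const_mul' _ _ (by norm_num),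
      ← lintegral_const_mul' _ _ (by norm_num), ← lintegral_add_right']
    · refine lintegral_mono fun z => ?_
      have h2 := enorm_add_sq_le (-(Y k z - Z k z)) (Y k z)
      rw [enorm_neg] at h2
      refine le_trans (le_of_eq ?_) h2
      congr 2
      ring
    · exact ((Lp.aestronglyMeasurable (Y k)).enorm.pow_const 2).const_mul 2
  refine (Finset.sum_le_sum fun k _ => h1 k).trans (le_of_eq ?_)
  rw [Finset.sum_add_distrib, ← Finset.mul_sum, ENNReal.ofReal_sum_of_nonneg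
    fun _ _ => sq_nonneg _, ← Finset.mul_sum]

/-- the total of the principal part of the test function -/
theorem sum_principal_test {A : Coef n} {C s : ℝ} (hC : 0 ≤ C) (hs1 : 1 ≤ s) (hs2 : s ≤ 2)
    {γ : ℤ → Fin n → ST n → ℂ} (hγ : IsGam A C s γ) {f h : L2 n} (hf : InDom A f h)
    (k₀ K : ℤ) :
    ∑ k ∈ Finset.Icc k₀ K, ∫⁻ z, ‖∑ i, γ k i z * Ek k (D i.succ f) z‖ₑ ^ 2
      ≤ ENNReal.ofReal (2 * (C * eD f) + 2 * ((16 / 3) * ((4 : ℝ) ^ k₀)⁻¹ * ‖h‖ ^ 2)) := by
  have hmain := hγ.main f hf.1 (Finset.Icc k₀ K)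
  have he : 0 ≤ eD f := eD_nonneg f
  have hXn : ∀ k : ℤ, ‖(((s * ((2 : ℝ) ^ k)⁻¹ : ℝ) : ℂ)⁻¹ •
      (f - J A (s * ((2 : ℝ) ^ k)⁻¹) f) : L2 n)‖ ^ 2 ≤ 4 * ((4 : ℝ) ^ k)⁻¹ * ‖h‖ ^ 2 := by
    intro k
    have hl : 0 < s * ((2 : ℝ) ^ k)⁻¹ := by positivity
    refine (norm_sq_inv_smul_le hl hf).trans ?_
    have h3 : (s * ((2 : ℝ) ^ k)⁻¹) ^ 2 ≤ 4 * ((4 : ℝ) ^ k)⁻¹ := by
      have h4 : ((2 : ℝ) ^ k)⁻¹ ^ 2 = ((4 : ℝ) ^ k)⁻¹ := by
        rw [inv_pow, ← zpow_natCast, ← zpow_mul, mul_comm k, zpow_mul]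
        norm_num
      rw [mul_pow, h4]
      have : s ^ 2 ≤ 4 := by nlinarith only [hs1, hs2]
      have h5 : (0 : ℝ) < ((4 : ℝ) ^ k)⁻¹ := by positivity
      nlinarith only [h4, this]
    gcongr
  refine (sum_lint_le (Finset.Icc k₀ K) (fun k => (((s * ((2 : ℝ) ^ k)⁻¹ : ℝ) : ℂ)⁻¹ •
    (f - J A (s * ((2 : ℝ) ^ k)⁻¹) f) : L2 n))
    (fun k z => ∑ i, γ k i z * Ek k (D i.succ f) z)).trans ?_
  have hsum : ∑ k ∈ Finset.Icc k₀ K, ‖(((s * ((2 : ℝ) ^ k)⁻¹ : ℝ) : ℂ)⁻¹ •
      (f - J A (s * ((2 : ℝ) ^ k)⁻¹) f) : L2 n)‖ ^ 2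
      ≤ (16 / 3) * ((4 : ℝ) ^ k₀)⁻¹ * ‖h‖ ^ 2 := by
    refine (Finset.sum_le_sum fun k _ => hXn k).trans ?_
    rw [← Finset.sum_mul, ← Finset.mul_sum]
    have h6 := sum_inv_four_zpow_le k₀ K
    have h7 : 0 ≤ ‖h‖ ^ 2 := sq_nonneg _
    nlinarith only [h6]
  have hR : ENNReal.ofReal (2 * (C * eD f) + 2 * ((16 / 3) * ((4 : ℝ) ^ k₀)⁻¹ * ‖h‖ ^ 2))
      = 2 * ENNReal.ofReal (C * eD f)
        + 2 * ENNReal.ofReal ((16 / 3) * ((4 : ℝ) ^ k₀)⁻¹ * ‖h‖ ^ 2) := by
    have h4 : (0 : ℝ) < (4 : ℝ) ^ k₀ := by positivity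
    rw [ENNReal.ofReal_add (by positivity) (by positivity),
      ENNReal.ofReal_mul (p := 2) (q := C * eD f) (by norm_num),
      ENNReal.ofReal_mul (p := 2) (q := (16 / 3) * ((4 : ℝ) ^ k₀)⁻¹ * ‖h‖ ^ 2)
        (by norm_num)]
    simp
  rw [hR]
  exact add_le_add (mul_le_mul_right hmain _)
    (mul_le_mul_right (ENNReal.ofReal_le_ofReal hsum) _)

theorem measurable_nrm_gam {γ : Fin n → ST n → ℂ} (hγ : ∀ i, Measurable (γ i)) :
    Measurable fun z => nrm (fun i => γ i z) := by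
  unfold nrm
  exact (Finset.measurable_fun_sum _ fun i _ => (hγ i).norm.pow_const 2).sqrt

theorem exists_carleson (A : Coef n) (C : ℝ) : ∃ C' : ℝ, 0 < C' ∧ ∀ (s : ℝ), 1 ≤ s → s ≤ 2 →
    ∀ γ : ℤ → Fin n → ST n → ℂ, IsGam A C s γ → ∀ (k₀ K : ℤ) (m : Fin (n + 1) → ℤ),
    ∑ k ∈ Finset.Icc k₀ K, ∫⁻ z in cube k₀ m, ∑ i, ‖γ k i z‖ₑ ^ 2
      ≤ ENNReal.ofReal (C' * qv n k₀) := by
  classical
  rcases Nat.eq_zero_or_pos n with hn | hn
  · subst hn
    refine ⟨1, one_pos, ?_⟩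
    intro s _ _ γ _ k₀ K m
    simp
  obtain ⟨Ct, hCt, htest⟩ := exists_test A
  set C0 : ℝ := max (max C Ct) 1 with hC0
  have hC01 : 1 ≤ C0 := le_max_right _ _
  have hCC0 : C ≤ C0 := (le_max_left _ _).trans (le_max_left _ _)
  have hCtC0 : Ct ≤ C0 := (le_max_right _ _).trans (le_max_left _ _)
  have hC0pos : 0 < C0 := by linarith only [hC01]
  have hnR : (1 : ℝ) ≤ n := by exact_mod_cast hn
  set ε : ℝ := min (1 / (46 * C0)) ((1 / (8 * n * C0)) ^ 3) with hε
  have hεpos : 0 < ε := by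
    rw [hε]
    refine lt_min (by positivity) (by positivity)
  have hε46 : ε * (46 * C0) ≤ 1 := by
    have : ε ≤ 1 / (46 * C0) := min_le_left _ _
    rwa [le_div_iff₀ (by positivity)] at this
  have hε1 : ε ≤ 1 := by nlinarith only [hC01, hε46]
  have hε2 : 2048 * C0 ^ 2 * ε ^ 2 ≤ 1 := by
    have h1 : (ε * (46 * C0)) ^ 2 ≤ 1 := by
      have : 0 ≤ ε * (46 * C0) := by positivity
      exact pow_le_one₀ this hε46
    nlinarith only [h1]
  have hε3 : ε ^ (1 / 3 : ℝ) ≤ 1 / (8 * n * C0) := by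
    have h1 : ε ≤ (1 / (8 * n * C0)) ^ 3 := min_le_right _ _
    have h2 : ((1 / (8 * n * C0)) ^ 3) ^ (1 / 3 : ℝ) = 1 / (8 * n * C0) := by
      rw [← Real.rpow_natCast, ← Real.rpow_mul (by positivity)]
      norm_num
    rw [← h2]
    exact Real.rpow_le_rpow hεpos.le h1 (by norm_num)
  obtain ⟨W, hW1, hW2⟩ := exists_cone_net hn hεpos
  set C₁ : ℝ := 4 * (2 * (C0 * C0) + 2 * ((16 / 3) * (C0 / ε ^ 2))) with hC₁
  have hC₁pos : 0 < C₁ := by positivity
  set η : ℝ := 1 / (128 * C0) with hη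
  have hηpos : 0 < η := by positivity
  have hη1 : η ≤ 1 := by
    rw [hη, div_le_one (by positivity)]
    linarith only [hC01]
  refine ⟨(W.card + 1) * (C₁ / η), by positivity, ?_⟩
  intro s hs1 hs2 γ hγ k₀ K m
  -- a single cone
  have hcone : ∀ w ∈ W, ∀ (k₀ : ℤ) (m : Fin (n + 1) → ℤ),
      ∑ k ∈ Finset.Icc k₀ K, ∫⁻ z in cube k₀ m,
        {z | nrm (fun i => γ k i z - (nrm (fun i => γ k i z) : ℂ) * w i)
          ≤ ε * nrm (fun i => γ k i z)}.indicator (fun z => ∑ i, ‖γ k i z‖ₑ ^ 2) z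
      ≤ ENNReal.ofReal (C₁ / η * qv n k₀) := by
    intro w hw
    refine stop_induction (G := fun k z =>
      {z | nrm (fun i => γ k i z - (nrm (fun i => γ k i z) : ℂ) * w i)
          ≤ ε * nrm (fun i => γ k i z)}.indicator (fun z => ∑ i, ‖γ k i z‖ₑ ^ 2) z)
      hC₁pos.le hηpos hη1 ?_
    intro k₀ m hk₀
    obtain ⟨f, h, hfh, hf1, hf2, hf3⟩ := htest ε hεpos hε1 k₀ m w (hW1 w hw)
    have hq := qv_pos n k₀
    have hnw : nrm w = 1 := by
      unfold nrm
      rw [hW1 w hw, Real.sqrt_one]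
    -- average close to conj w
    set a : Fin n → ℂ := fun i => avg k₀ m (D i.succ f) with ha
    have hdiff : nrm (fun i => a i - (starRingEnd ℂ) (w i)) ≤ 1 / 8 := by
      unfold nrm
      refine Real.sqrt_le_iff.2 ⟨by norm_num, ?_⟩
      calc ∑ i, ‖a i - (starRingEnd ℂ) (w i)‖ ^ 2
          ≤ ∑ _i : Fin n, (1 / (8 * (n : ℝ))) ^ 2 := by
            refine Finset.sum_le_sum fun i _ => ?_
            refine pow_le_pow_left₀ (norm_nonneg _) ?_ 2
            refine (hf3 i).trans ?_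
            calc Ct * ε ^ (1 / 3 : ℝ) ≤ C0 * (1 / (8 * n * C0)) := by gcongr
              _ = 1 / (8 * n) := by field_simp
        _ = n * (1 / (8 * (n : ℝ))) ^ 2 := by simp
        _ ≤ (1 / 8) ^ 2 := by
            have : (n : ℝ) * (1 / (8 * n)) ^ 2 = (1 / 64) / n := by
              field_simp
              norm_num
            rw [this, div_le_iff₀ (by positivity)]
            nlinarith only [hnR]
    have hre : 7 / 8 ≤ (bdot w a).re := by
      have h1 : bdot w a = 1 + bdot w (fun i => a i - (starRingEnd ℂ) (w i)) := by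
        rw [← bdot_conj (hW1 w hw)]
        unfold bdot
        rw [← Finset.sum_add_distrib]
        refine Finset.sum_congr rfl fun i _ => ?_
        ring
      have h2 : ‖bdot w (fun i => a i - (starRingEnd ℂ) (w i))‖ ≤ 1 / 8 := by
        refine (norm_bdot_le _ _).trans ?_
        rw [hnw, one_mul]
        exact hdiff
      have h3 := Complex.abs_re_le_norm (bdot w (fun i => a i - (starRingEnd ℂ) (w i)))
      rw [h1, Complex.add_re, Complex.one_re]
      have h4 := neg_abs_le (bdot w (fun i => a i - (starRingEnd ℂ) (w i))).re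
      linarith only [h2, h3, h4]
    have hF : ∑ i : Fin n, ‖D i.succ f‖ ^ 2 ≤ C0 * qv n k₀ := by
      have h1 : ∑ i : Fin n, ‖D i.succ f‖ ^ 2 ≤ eD f := by
        rw [eD_eq]
        unfold gD
        nlinarith only
      refine h1.trans (hf1.trans ?_)
      gcongr
    refine ⟨badP ε w (fun i => D i.succ f), ?_, ?_, ?_⟩
    · -- the cube itself is good
      rintro (hb | hb)
      · have h1 : nrm a ≤ 9 / 8 := by
          have h2 : nrm (fun i => (a i - (starRingEnd ℂ) (w i)) + (starRingEnd ℂ) (w i))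
              ≤ _ := nrm_add_le _ _
          have h3 : nrm (fun i => (starRingEnd ℂ) (w i)) = 1 := by
            rw [← hnw]
            unfold nrm
            congr 1
            refine Finset.sum_congr rfl fun i _ => ?_
            rw [Complex.norm_conj]
          have h4 : (fun i => (a i - (starRingEnd ℂ) (w i)) + (starRingEnd ℂ) (w i)) = a := by
            ext i; ring
          rw [h4, h3] at h2
          linarith only [hdiff, h2]
        have h5 : (9 : ℝ) / 8 ≤ 1 / (4 * ε) := by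
          rw [le_div_iff₀ (by positivity)]
          have : ε ≤ 1 / 46 := by
            rw [le_div_iff₀ (by norm_num)]
            nlinarith only [hC01, hε46]
          linarith only [this]
        linarith only [hb, h1, h5]
      · change (bdot w a).re < 3 / 4 at hb
        linarith only [hre, hb]
    · -- the good part
      have hgood : ∀ k ∈ Finset.Icc k₀ K, ∫⁻ z in {z | z ∈ cube k₀ m ∧
          ∀ k' ∈ Finset.Icc k₀ k, ¬ badP ε w (fun i => D i.succ f) k' (idx k' z)},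
          {z | nrm (fun i => γ k i z - (nrm (fun i => γ k i z) : ℂ) * w i)
          ≤ ε * nrm (fun i => γ k i z)}.indicator (fun z => ∑ i, ‖γ k i z‖ₑ ^ 2) z
          ≤ 4 * ∫⁻ z, ‖∑ i, γ k i z * Ek k (D i.succ f) z‖ₑ ^ 2 := by
        intro k hk
        have hgm : MeasurableSet {z : ST n | z ∈ cube k₀ m ∧
            ∀ k' ∈ Finset.Icc k₀ k, ¬ badP ε w (fun i => D i.succ f) k' (idx k' z)} := by
          have he : {z : ST n | z ∈ cube k₀ m ∧
              ∀ k' ∈ Finset.Icc k₀ k, ¬ badP ε w (fun i => D i.succ f) k' (idx k' z)}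
              = cube k₀ m ∩ ⋂ k' ∈ Finset.Icc k₀ k,
                {z : ST n | badP ε w (fun i => D i.succ f) k' (idx k' z)}ᶜ := by
            ext z
            simp only [Set.mem_ofPred_eq, Set.mem_inter_iff, Set.mem_iInter, Set.mem_compl_iff]
          rw [he]
          exact (measurableSet_cube _ _).inter (Finset.measurableSet_biInter _ fun k' _ =>
            (measurableSet_bad (badP ε w fun i => D i.succ f) k').compl)
        rw [← lintegral_const_mul' _ _ (by norm_num)]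
        refine le_trans ?_ (setLIntegral_le_lintegral
          {z : ST n | z ∈ cube k₀ m ∧
            ∀ k' ∈ Finset.Icc k₀ k, ¬ badP ε w (fun i => D i.succ f) k' (idx k' z)} _)
        have hE : ∀ i : Fin n, ∀ᵐ z ∂(volume : Measure (ST n)),
            Ek k (D i.succ f) z = avg k (idx k z) (D i.succ f) := fun i => Ek_coe k (D i.succ f)
        have hE' := ae_all_iff.2 hE
        refine lintegral_mono_ae ?_
        rw [ae_restrict_iff' hgm]
        filter_upwards [hE'] with z hz hzg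
        by_cases hzc : z ∈ {z | nrm (fun i => γ k i z - (nrm (fun i => γ k i z) : ℂ) * w i)
          ≤ ε * nrm (fun i => γ k i z)}
        · rw [Set.indicator_of_mem hzc, sum_enorm_sq]
          have hnb := hzg.2 k (Finset.mem_Icc.2 ⟨(Finset.mem_Icc.1 hk).1, le_rfl⟩)
          unfold badP at hnb
          push Not at hnb
          have h1 := cone_lower hεpos hzc hnb.1 hnb.2
          have h2 : bdot (fun i => γ k i z) (fun i => avg k (idx k z) (D i.succ f))
              = ∑ i, γ k i z * Ek k (D i.succ f) z := by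
            unfold bdot
            exact Finset.sum_congr rfl fun i _ => by rw [hz i]
          rw [h2] at h1
          calc ENNReal.ofReal (nrm (fun i => γ k i z) ^ 2)
              ≤ ENNReal.ofReal (4 * ‖∑ i, γ k i z * Ek k (D i.succ f) z‖ ^ 2) := by
                refine ENNReal.ofReal_le_ofReal ?_
                have h3 := nrm_nonneg (fun i => γ k i z)
                nlinarith only [h1, h3]
            _ = _ := by
                rw [ENNReal.ofReal_mul (by norm_num), ENNReal.ofReal_pow (norm_nonneg _),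
                  ofReal_norm]
                norm_num
        · rw [Set.indicator_of_notMem hzc]
          exact zero_le
      refine (Finset.sum_le_sum hgood).trans ?_
      rw [← Finset.mul_sum]
      have hC0' : 0 ≤ C0 := hC0pos.le
      by_cases hCneg : 0 ≤ C
      · refine (mul_le_mul_right (sum_principal_test hCneg hs1 hs2 hγ hfh k₀ K) _).trans ?_
        have h4 : (4 : ℝ≥0∞) = ENNReal.ofReal 4 := by norm_num
        rw [h4, ← ENNReal.ofReal_mul (by norm_num)]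
        refine ENNReal.ofReal_le_ofReal ?_
        have he : 0 ≤ eD f := eD_nonneg f
        have h5 : C * eD f ≤ C0 * (C0 * qv n k₀) := by
          calc C * eD f ≤ C0 * eD f := by gcongr
            _ ≤ C0 * (C0 * qv n k₀) := by
                gcongr
                refine hf1.trans ?_
                gcongr
        have h6 : (16 / 3) * ((4 : ℝ) ^ k₀)⁻¹ * ‖h‖ ^ 2 ≤ (16 / 3) * (C0 / ε ^ 2 * qv n k₀) := by
          have h7 : ((4 : ℝ) ^ k₀)⁻¹ * ‖h‖ ^ 2 ≤ C0 / ε ^ 2 * qv n k₀ := by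
            rw [inv_mul_le_iff₀ (by positivity)]
            refine hf2.trans ?_
            have h8 : Ct / ε ^ 2 ≤ C0 / ε ^ 2 := by gcongr
            calc Ct / ε ^ 2 * (4 : ℝ) ^ k₀ * qv n k₀ ≤ C0 / ε ^ 2 * (4 : ℝ) ^ k₀ * qv n k₀ := by
                  gcongr
              _ = _ := by ring
          linarith only [h7]
        have h9 : C₁ * qv n k₀ = 4 * (2 * (C0 * (C0 * qv n k₀))
            + 2 * ((16 / 3) * (C0 / ε ^ 2 * qv n k₀))) := by
          rw [hC₁]; ring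
        rw [h9]
        linarith only [h5, h6]
      · -- C negative : the local bound forces γ = 0 a.e.
        push Not at hCneg
        have hzero : ∀ k, ∀ᵐ z ∂(volume : Measure (ST n)), ∀ i, γ k i z = 0 := by
          intro k
          rw [ae_all_iff]
          intro i
          have h1 : ∫⁻ z, ‖γ k i z‖ₑ ^ 2 = 0 := by
            rw [lintegral_eq_tsum_cubes k]
            rw [ENNReal.tsum_eq_zero]
            intro m'
            have h2 := hγ.loc k m' i
            have h3 : ENNReal.ofReal (C * qv n k) = 0 :=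
              ENNReal.ofReal_of_nonpos (mul_nonpos_of_nonpos_of_nonneg hCneg.le (qv_pos n k).le)
            rw [h3] at h2
            exact le_antisymm h2 (zero_le)
          rw [lintegral_eq_zero_iff ((hγ.meas k i).enorm.pow_const 2)] at h1
          filter_upwards [h1] with z hz
          simpa using hz
        have h2 : ∀ k, ∫⁻ z, ‖∑ i, γ k i z * Ek k (D i.succ f) z‖ₑ ^ 2 = 0 := by
          intro k
          rw [← lintegral_zero (μ := (volume : Measure (ST n)))]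
          refine lintegral_congr_ae ?_
          filter_upwards [hzero k] with z hz
          simp [hz]
        simp [h2]
    · exact bad_measure hC01 hεpos hε2 (hW1 w hw) hF hre K
  -- sum over the cones
  have hmeas : ∀ (w : Fin n → ℂ) (k : ℤ), Measurable (
      {z | nrm (fun i => γ k i z - (nrm (fun i => γ k i z) : ℂ) * w i)
          ≤ ε * nrm (fun i => γ k i z)}.indicator (fun z => ∑ i, ‖γ k i z‖ₑ ^ 2)) := by
    intro w k
    have hm1 := measurable_nrm_gam (hγ.meas k)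
    have hm2 : Measurable fun z => nrm (fun i => γ k i z - (nrm (fun i => γ k i z) : ℂ) * w i) := by
      refine measurable_nrm_gam (γ := fun i z => γ k i z - (nrm (fun i => γ k i z) : ℂ) * w i) ?_
      intro i
      exact (hγ.meas k i).sub ((Complex.measurable_ofReal.comp hm1).mul_const _)
    refine Measurable.indicator ?_ (measurableSet_le hm2 (hm1.const_mul ε))
    exact Finset.measurable_fun_sum _ fun i _ => (hγ.meas k i).enorm.pow_const 2
  have hsum : ∀ k, ∫⁻ z in cube k₀ m, ∑ i, ‖γ k i z‖ₑ ^ 2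
      ≤ ∑ w ∈ W, ∫⁻ z in cube k₀ m,
        {z | nrm (fun i => γ k i z - (nrm (fun i => γ k i z) : ℂ) * w i)
          ≤ ε * nrm (fun i => γ k i z)}.indicator (fun z => ∑ i, ‖γ k i z‖ₑ ^ 2) z := by
    intro k
    rw [← lintegral_finsetSum _ fun w _ => hmeas w k]
    refine lintegral_mono fun z => ?_
    obtain ⟨w, hwW, hw⟩ := hW2 (fun i => γ k i z)
    have h1 : ∑ i, ‖γ k i z‖ₑ ^ 2 = {z | nrm (fun i => γ k i z - (nrm (fun i => γ k i z) : ℂ) * w i)
          ≤ ε * nrm (fun i => γ k i z)}.indicator (fun z => ∑ i, ‖γ k i z‖ₑ ^ 2) z := by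
      rw [Set.indicator_of_mem]
      exact hw
    rw [h1]
    exact Finset.single_le_sum (f := fun w : Fin n → ℂ =>
      {z | nrm (fun i => γ k i z - (nrm (fun i => γ k i z) : ℂ) * w i)
          ≤ ε * nrm (fun i => γ k i z)}.indicator (fun z => ∑ i, ‖γ k i z‖ₑ ^ 2) z)
      (fun _ _ => zero_le) hwW
  calc ∑ k ∈ Finset.Icc k₀ K, ∫⁻ z in cube k₀ m, ∑ i, ‖γ k i z‖ₑ ^ 2
      ≤ ∑ k ∈ Finset.Icc k₀ K, ∑ w ∈ W, ∫⁻ z in cube k₀ m,
        {z | nrm (fun i => γ k i z - (nrm (fun i => γ k i z) : ℂ) * w i)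
          ≤ ε * nrm (fun i => γ k i z)}.indicator (fun z => ∑ i, ‖γ k i z‖ₑ ^ 2) z :=
        Finset.sum_le_sum fun k _ => hsum k
    _ = ∑ w ∈ W, ∑ k ∈ Finset.Icc k₀ K, ∫⁻ z in cube k₀ m,
        {z | nrm (fun i => γ k i z - (nrm (fun i => γ k i z) : ℂ) * w i)
          ≤ ε * nrm (fun i => γ k i z)}.indicator (fun z => ∑ i, ‖γ k i z‖ₑ ^ 2) z :=
        Finset.sum_comm
    _ ≤ ∑ w ∈ W, ENNReal.ofReal (C₁ / η * qv n k₀) :=
        Finset.sum_le_sum fun w hw => hcone w hw k₀ m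
    _ = (W.card : ℝ≥0∞) * ENNReal.ofReal (C₁ / η * qv n k₀) := by
        rw [Finset.sum_const, nsmul_eq_mul]
    _ ≤ _ := by
        have hq := qv_pos n k₀
        have h1 : (W.card : ℝ≥0∞) = ENNReal.ofReal (W.card : ℝ) := by
          rw [ENNReal.ofReal_natCast]
        rw [h1, ← ENNReal.ofReal_mul (by positivity)]
        refine ENNReal.ofReal_le_ofReal ?_
        have h2 : 0 ≤ C₁ / η * qv n k₀ := by positivity
        nlinarith only [h2]

end

end Pool.Agent.W_eb6199
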