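import Pool.Agent.W_eb6199.Cubes

open MeasureTheory Complex Filter Topology
open scoped FourierTransform ComplexInnerProductSpace ENNReal NNReal

namespace Pool.Agent.W_eb6199

noncomputable section

variable {n : ℕ}

/-! T36a: abstract stopping time induction. -/

theorem measurableSet_bad (bad : ℤ → (Fin (n + 1) → ℤ) → Prop) (k : ℤ) :
    MeasurableSet {z : ST n | bad k (idx k z)} := by
  have h : MeasurableSet {m : Fin (n + 1) → ℤ | bad k m} := (Set.to_countable _).measurableSet
  exact measurable_idx k h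

/-- first bad generation equal to `k'` -/
def firstBad (bad : ℤ → (Fin (n + 1) → ℤ) → Prop) (k₀ : ℤ) (m : Fin (n + 1) → ℤ) (k' : ℤ) :
    Set (ST n) :=
  {z | z ∈ cube k₀ m ∧ bad k' (idx k' z) ∧ ∀ k'' ∈ Finset.Ico k₀ k', ¬ bad k'' (idx k'' z)}

theorem measurableSet_firstBad (bad : ℤ → (Fin (n + 1) → ℤ) → Prop) (k₀ : ℤ)
    (m : Fin (n + 1) → ℤ) (k' : ℤ) : MeasurableSet (firstBad bad k₀ m k') := by
  have h : firstBad bad k₀ m k' = cube k₀ m ∩ ({z | bad k' (idx k' z)} ∩
      ⋂ k'' ∈ Finset.Ico k₀ k', {z : ST n | bad k'' (idx k'' z)}ᶜ) := by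
    ext z
    simp only [firstBad, Set.mem_ofPred_eq, Set.mem_inter_iff, Set.mem_iInter, Set.mem_compl_iff]
  rw [h]
  refine (measurableSet_cube _ _).inter ((measurableSet_bad bad k').inter ?_)
  exact Finset.measurableSet_biInter _ fun k'' _ => (measurableSet_bad bad k'').compl

theorem cube_subset_or_disjoint_firstBad (bad : ℤ → (Fin (n + 1) → ℤ) → Prop) {k₀ k' : ℤ}
    (h : k₀ ≤ k') (m m' : Fin (n + 1) → ℤ) :
    cube k' m' ⊆ firstBad bad k₀ m k' ∨ Disjoint (cube k' m') (firstBad bad k₀ m k') := by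
  by_cases hne : (cube k' m' ∩ firstBad bad k₀ m k').Nonempty
  · left
    obtain ⟨z, hz1, hz2, hz3, hz4⟩ := hne
    intro z' hz'
    have hidx : idx k' z = idx k' z' := by
      rw [mem_cube_iff.1 hz1, mem_cube_iff.1 hz']
    refine ⟨?_, ?_, ?_⟩
    · rw [mem_cube_iff] at hz2 ⊢
      rw [← idx_eq_of_le h hidx, hz2]
    · rw [← hidx]; exact hz3
    · intro k'' hk''
      have hk : k'' ≤ k' := (Finset.mem_Ico.1 hk'').2.le
      rw [← idx_eq_of_le hk hidx]
      exact hz4 k'' hk''
  · right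
    rw [Set.disjoint_iff_inter_eq_empty]
    exact Set.not_nonempty_iff_eq_empty.1 hne

theorem bad_subset_iUnion_firstBad (bad : ℤ → (Fin (n + 1) → ℤ) → Prop) (k₀ : ℤ)
    (m : Fin (n + 1) → ℤ) (k : ℤ) :
    {z | z ∈ cube k₀ m ∧ ∃ k' ∈ Finset.Icc k₀ k, bad k' (idx k' z)}
      ⊆ ⋃ k' ∈ Finset.Icc k₀ k, firstBad bad k₀ m k' := by
  classical
  rintro z ⟨hz, hzg⟩
  have hne : ((Finset.Icc k₀ k).filter fun k' => bad k' (idx k' z)).Nonempty := by
    obtain ⟨k', hk', hb⟩ := hzg
    exact ⟨k', Finset.mem_filter.2 ⟨hk', hb⟩⟩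
  set k₁ := ((Finset.Icc k₀ k).filter fun k' => bad k' (idx k' z)).min' hne with hk₁
  have hk₁mem := Finset.min'_mem _ hne
  rw [← hk₁] at hk₁mem
  rw [Finset.mem_filter] at hk₁mem
  simp only [Set.mem_iUnion]
  refine ⟨k₁, hk₁mem.1, hz, hk₁mem.2, ?_⟩
  intro k'' hk'' hbad
  rw [Finset.mem_Ico] at hk''
  have : k₁ ≤ k'' := by
    rw [hk₁]
    apply Finset.min'_le
    rw [Finset.mem_filter, Finset.mem_Icc]
    refine ⟨⟨hk''.1, ?_⟩, hbad⟩
    have := (Finset.mem_Icc.1 hk₁mem.1).2
    omega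
  omega

theorem disjoint_firstBad (bad : ℤ → (Fin (n + 1) → ℤ) → Prop) {k₀ : ℤ}
    (m : Fin (n + 1) → ℤ) {a b : ℤ} (ha : k₀ ≤ a) (hb : k₀ ≤ b) (hab : a ≠ b) :
    Disjoint (firstBad bad k₀ m a) (firstBad bad k₀ m b) := by
  have key2 : ∀ a b : ℤ, k₀ ≤ a → a < b →
      Disjoint (firstBad bad k₀ m a) (firstBad bad k₀ m b) := by
    intro a b ha hab
    rw [Set.disjoint_left]
    rintro z ⟨-, hz1, -⟩ ⟨-, -, hz2⟩
    exact hz2 a (Finset.mem_Ico.2 ⟨ha, hab⟩) hz1
  rcases lt_or_gt_of_ne hab with hlt | hlt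
  · exact key2 a b ha hlt
  · exact (key2 b a hb hlt).symm

/-- bounds on cubes of generation `k'` give bounds on unions of such cubes -/
theorem sum_lintegral_le_of_cubes {G : ℤ → ST n → ℝ≥0∞} {K k' : ℤ} {C : ℝ≥0∞}
    (h : ∀ m : Fin (n + 1) → ℤ,
      ∑ k ∈ Finset.Icc k' K, ∫⁻ z in cube k' m, G k z ≤ C * volume (cube k' m))
    {E : Set (ST n)} (hE : MeasurableSet E)
    (hE' : ∀ m : Fin (n + 1) → ℤ, cube k' m ⊆ E ∨ Disjoint (cube k' m) E) :
    ∑ k ∈ Finset.Icc k' K, ∫⁻ z in E, G k z ≤ C * volume E := by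
  classical
  have h1 : ∀ k, ∫⁻ z in E, G k z = ∑' m : Fin (n + 1) → ℤ, ∫⁻ z in cube k' m, E.indicator (G k) z := by
    intro k
    rw [← lintegral_indicator hE, lintegral_eq_tsum_cubes k']
  have h2 : volume E = ∑' m : Fin (n + 1) → ℤ, ∫⁻ z in cube k' m, E.indicator 1 z := by
    rw [← lintegral_eq_tsum_cubes k', lintegral_indicator_one hE]
  simp_rw [h1]
  rw [h2, ← ENNReal.tsum_mul_left, ← Summable.tsum_finsetSum (fun k _ => ENNReal.summable)]
  refine ENNReal.tsum_le_tsum fun m => ?_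
  rcases hE' m with hm | hm
  · have e1 : ∀ k, ∫⁻ z in cube k' m, E.indicator (G k) z = ∫⁻ z in cube k' m, G k z := by
      intro k
      refine setLIntegral_congr_fun (measurableSet_cube _ _) ?_
      intro z hz
      simp [hm hz]
    have e2 : ∫⁻ z in cube k' m, E.indicator (1 : ST n → ℝ≥0∞) z = volume (cube k' m) := by
      have : ∫⁻ z in cube k' m, E.indicator (1 : ST n → ℝ≥0∞) z = ∫⁻ z in cube k' m, 1 := by
        refine setLIntegral_congr_fun (measurableSet_cube _ _) ?_
        intro z hz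
        simp [hm hz]
      rw [this]
      simp
    simp_rw [e1]
    rw [e2]
    exact h m
  · have e1 : ∀ k, ∫⁻ z in cube k' m, E.indicator (G k) z = 0 := by
      intro k
      have : ∫⁻ z in cube k' m, E.indicator (G k) z = ∫⁻ z in cube k' m, 0 := by
        refine setLIntegral_congr_fun (measurableSet_cube _ _) ?_
        intro z hz
        have : z ∉ E := Set.disjoint_left.1 hm hz
        simp [this]
      rw [this]
      simp
    simp_rw [e1]
    simp

theorem lintegral_biUnion_finset_le' {ι : Type*} (s : Finset ι) (t : ι → Set (ST n))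
    (f : ST n → ℝ≥0∞) :
    ∫⁻ z in ⋃ i ∈ s, t i, f z ≤ ∑ i ∈ s, ∫⁻ z in t i, f z := by
  classical
  induction s using Finset.induction_on with
  | empty => simp
  | insert a s ha ih =>
    rw [Finset.set_biUnion_insert, Finset.sum_insert ha]
    refine (lintegral_union_le _ _ _).trans ?_
    gcongr

theorem stop_induction {G : ℤ → ST n → ℝ≥0∞} {K : ℤ} {C₁ η : ℝ}
    (hC₁ : 0 ≤ C₁) (hη : 0 < η) (hη1 : η ≤ 1)
    (h : ∀ (k₀ : ℤ) (m : Fin (n + 1) → ℤ), k₀ ≤ K →
      ∃ bad : ℤ → (Fin (n + 1) → ℤ) → Prop, ¬ bad k₀ m ∧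
      (∑ k ∈ Finset.Icc k₀ K, ∫⁻ z in {z | z ∈ cube k₀ m ∧
          ∀ k' ∈ Finset.Icc k₀ k, ¬ bad k' (idx k' z)}, G k z
        ≤ ENNReal.ofReal (C₁ * qv n k₀)) ∧
      volume {z | z ∈ cube k₀ m ∧ ∃ k' ∈ Finset.Icc k₀ K, bad k' (idx k' z)}
        ≤ ENNReal.ofReal ((1 - η) * qv n k₀)) :
    ∀ (k₀ : ℤ) (m : Fin (n + 1) → ℤ),
      ∑ k ∈ Finset.Icc k₀ K, ∫⁻ z in cube k₀ m, G k z ≤ ENNReal.ofReal (C₁ / η * qv n k₀) := by
  classical
  -- induction on the number of generations
  have key : ∀ (N : ℕ) (k₀ : ℤ), K + 1 - k₀ ≤ N → ∀ m : Fin (n + 1) → ℤ,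
      ∑ k ∈ Finset.Icc k₀ K, ∫⁻ z in cube k₀ m, G k z ≤ ENNReal.ofReal (C₁ / η * qv n k₀) := by
    intro N
    induction N with
    | zero =>
      intro k₀ hk₀ m
      have : Finset.Icc k₀ K = ∅ := by
        apply Finset.Icc_eq_empty
        intro hh
        push_cast at hk₀
        omega
      rw [this]
      simp
    | succ N ih =>
      intro k₀ hk₀ m
      by_cases hK : K < k₀
      · have : Finset.Icc k₀ K = ∅ := Finset.Icc_eq_empty (by omega)
        rw [this]
        simp
      push Not at hK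
      obtain ⟨bad, hb0, hb1, hb2⟩ := h k₀ m hK
      set good : ℤ → Set (ST n) := fun k => {z | z ∈ cube k₀ m ∧
          ∀ k' ∈ Finset.Icc k₀ k, ¬ bad k' (idx k' z)} with hgood
      -- decomposition of the cube
      have hdec : ∀ k ∈ Finset.Icc k₀ K, ∫⁻ z in cube k₀ m, G k z
          ≤ (∫⁻ z in good k, G k z)
            + ∑ k' ∈ Finset.Icc k₀ k, ∫⁻ z in firstBad bad k₀ m k', G k z := by
        intro k hk
        have hsub : cube k₀ m ⊆ good k ∪ ⋃ k' ∈ Finset.Icc k₀ k, firstBad bad k₀ m k' := by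
          intro z hz
          by_cases hzg : ∀ k' ∈ Finset.Icc k₀ k, ¬ bad k' (idx k' z)
          · left
            exact ⟨hz, hzg⟩
          · right
            push Not at hzg
            exact bad_subset_iUnion_firstBad bad k₀ m k ⟨hz, hzg⟩
        refine (lintegral_mono_set hsub).trans ?_
        refine (lintegral_union_le _ _ _).trans ?_
        gcongr
        exact lintegral_biUnion_finset_le' _ _ _
      -- each first bad set
      have hfb : ∀ k' ∈ Finset.Icc k₀ K,
          ∑ k ∈ Finset.Icc k' K, ∫⁻ z in firstBad bad k₀ m k', G k z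
            ≤ ENNReal.ofReal (C₁ / η) * volume (firstBad bad k₀ m k') := by
        intro k' hk'
        rw [Finset.mem_Icc] at hk'
        rcases eq_or_lt_of_le hk'.1 with hk0 | hk0
        · -- k' = k₀ : empty
          have hempty : firstBad bad k₀ m k' = ∅ := by
            ext z
            simp only [firstBad, Set.mem_ofPred_eq, Set.mem_empty_iff_false, iff_false]
            rintro ⟨h1, h2, -⟩
            rw [mem_cube_iff] at h1
            rw [← hk0, h1] at h2
            exact hb0 h2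
          rw [hempty]
          simp
        · refine sum_lintegral_le_of_cubes ?_ (measurableSet_firstBad _ _ _ _)
            (cube_subset_or_disjoint_firstBad bad hk'.1 m)
          intro m'
          rw [volume_cube, ← ENNReal.ofReal_mul (by positivity)]
          refine ih k' ?_ m'
          push_cast at hk₀
          omega
      have hvol : ∑ k' ∈ Finset.Icc k₀ K, volume (firstBad bad k₀ m k')
          ≤ ENNReal.ofReal ((1 - η) * qv n k₀) := by
        refine le_trans ?_ hb2
        rw [← measure_biUnion_finset]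
        · refine measure_mono ?_
          intro z hz
          simp only [Set.mem_iUnion] at hz
          obtain ⟨k', hk', hz1, hz2, -⟩ := hz
          exact ⟨hz1, k', hk', hz2⟩
        · intro a ha b hb hab
          exact disjoint_firstBad bad m (Finset.mem_Icc.1 ha).1 (Finset.mem_Icc.1 hb).1 hab
        · intro k' _
          exact measurableSet_firstBad _ _ _ _
      calc ∑ k ∈ Finset.Icc k₀ K, ∫⁻ z in cube k₀ m, G k z
          ≤ ∑ k ∈ Finset.Icc k₀ K, ((∫⁻ z in good k, G k z)
            + ∑ k' ∈ Finset.Icc k₀ k, ∫⁻ z in firstBad bad k₀ m k', G k z) :=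
            Finset.sum_le_sum hdec
        _ = (∑ k ∈ Finset.Icc k₀ K, ∫⁻ z in good k, G k z)
            + ∑ k' ∈ Finset.Icc k₀ K, ∑ k ∈ Finset.Icc k' K,
                ∫⁻ z in firstBad bad k₀ m k', G k z := by
            rw [Finset.sum_add_distrib]
            congr 1
            refine Finset.sum_comm' ?_
            intro x y
            simp only [Finset.mem_Icc]
            omega
        _ ≤ ENNReal.ofReal (C₁ * qv n k₀)
            + ∑ k' ∈ Finset.Icc k₀ K, ENNReal.ofReal (C₁ / η) * volume (firstBad bad k₀ m k') := by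
            gcongr with k' hk'
            exact hfb k' hk'
        _ ≤ ENNReal.ofReal (C₁ * qv n k₀)
            + ENNReal.ofReal (C₁ / η) * ENNReal.ofReal ((1 - η) * qv n k₀) := by
            rw [← Finset.mul_sum]
            gcongr
        _ = ENNReal.ofReal (C₁ / η * qv n k₀) := by
            have hq := (qv_pos n k₀).le
            rw [← ENNReal.ofReal_mul (by positivity), ← ENNReal.ofReal_add (by positivity)
              (mul_nonneg (by positivity) (mul_nonneg (by linarith) hq))]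
            congr 1
            field_simp
            ring
  intro k₀ m
  refine key (K + 1 - k₀).toNat k₀ ?_ m
  exact Int.self_le_toNat _

end

end Pool.Agent.W_eb6199
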