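import Pool.Agent.W_eb6199.RPow
import Pool.Agent.W_eb6199.L1off
import Pool.Agent.W_eb6199.L1contr

open MeasureTheory Complex Filter Topology
open scoped FourierTransform ComplexInnerProductSpace ENNReal NNReal

namespace Pool.Agent.W_eb6199

noncomputable section

variable {n : ℕ}

/-! T41: the two inputs of the abstract theorem for `T = R j`, `P k = J_{2^{-k}}^m`. -/

theorem WI_le_N1 (s : Set (ST n)) (u : ST n → ℂ) : ∫⁻ z in s, ‖u z‖ₑ ≤ N1 u :=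
  setLIntegral_le_lintegral _ _

theorem WI_add_le (s : Set (ST n)) (u v : L2 n) :
    ∫⁻ z in s, ‖(u + v : L2 n) z‖ₑ ≤ (∫⁻ z in s, ‖u z‖ₑ) + ∫⁻ z in s, ‖v z‖ₑ := by
  rw [← lintegral_add_left' (Lp.aestronglyMeasurable u).enorm.restrict]
  refine lintegral_mono_ae (ae_restrict_of_ae ?_)
  filter_upwards [Lp.coeFn_add u v] with z hz
  rw [hz, Pi.add_apply]
  exact enorm_add_le _ _

theorem WI_sub_le (s : Set (ST n)) (u v : L2 n) :
    ∫⁻ z in s, ‖(u - v : L2 n) z‖ₑ ≤ (∫⁻ z in s, ‖u z‖ₑ) + ∫⁻ z in s, ‖v z‖ₑ := by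
  rw [← lintegral_add_left' (Lp.aestronglyMeasurable u).enorm.restrict]
  refine lintegral_mono_ae (ae_restrict_of_ae ?_)
  filter_upwards [Lp.coeFn_sub u v] with z hz
  rw [hz, Pi.sub_apply]
  exact enorm_sub_le

theorem WI_smul (s : Set (ST n)) (c : ℂ) (u : L2 n) :
    ∫⁻ z in s, ‖(c • u : L2 n) z‖ₑ = ‖c‖ₑ * ∫⁻ z in s, ‖u z‖ₑ := by
  rw [← lintegral_const_mul'' _ (Lp.aestronglyMeasurable u).enorm.restrict]
  refine lintegral_congr_ae (ae_restrict_of_ae ?_)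
  filter_upwards [Lp.coeFn_smul c u] with z hz
  rw [hz, Pi.smul_apply, enorm_smul]

theorem WI_sum_le (s : Set (ST n)) {ι : Type*} (F : Finset ι) (u : ι → L2 n) :
    ∫⁻ z in s, ‖(∑ i ∈ F, u i : L2 n) z‖ₑ ≤ ∑ i ∈ F, ∫⁻ z in s, ‖u i z‖ₑ := by
  classical
  induction F using Finset.induction_on with
  | empty =>
    rw [Finset.sum_empty, Finset.sum_empty]
    refine le_of_eq ?_
    rw [lintegral_congr_ae (g := fun _ => 0)]
    · simp
    · refine ae_restrict_of_ae ?_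
      filter_upwards [Lp.coeFn_zero ℂ 2 (volume : Measure (ST n))] with z hz
      rw [hz]
      simp
  | insert a F ha ih =>
    rw [Finset.sum_insert ha, Finset.sum_insert ha]
    exact (WI_add_le s _ _).trans (add_le_add le_rfl ih)

theorem WI_cancel {l : ℝ} (hl : 0 < l) {K : ℝ} {X Y : ℝ≥0∞}
    (h : ENNReal.ofReal l * X ≤ ENNReal.ofReal (l * K) * Y) : X ≤ ENNReal.ofReal K * Y := by
  rw [ENNReal.ofReal_mul hl.le, mul_assoc] at h
  exact (ENNReal.mul_le_mul_iff_right (by simpa using hl) ENNReal.ofReal_ne_top).1 h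

/-- `J_l (1 - J_r) = (r/l)² (1 - J_l) J_r` -/
theorem WI_J_sub (A : Coef n) {l r : ℝ} (hl : 0 < l) (hr : 0 < r) (f : L2 n) :
    J A l (f - J A r f) = (((r / l) ^ 2 : ℝ) : ℂ) • (J A r f - J A l (J A r f)) := by
  have h := J_J A hl hr f
  have hl' : ((l : ℂ) ^ 2) ≠ 0 := by
    simp [hl.ne']
  have h2 : (l : ℂ) ^ 2 • J A l (f - J A r f) = (r : ℂ) ^ 2 • (J A r f - J A l (J A r f)) := by
    rw [map_sub, smul_sub, smul_sub]
    rw [sub_smul] at h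
    have h3 : (l : ℂ) ^ 2 • J A l f = ((l : ℂ) ^ 2 • J A l (J A r f) - (r : ℂ) ^ 2 • J A l (J A r f))
        + (r : ℂ) ^ 2 • J A r f := by
      rw [h]; abel
    rw [h3]; abel
  have h4 := congrArg (fun x => ((l : ℂ) ^ 2)⁻¹ • x) h2
  simp only [smul_smul, inv_mul_cancel₀ hl', one_smul] at h4
  rw [h4]
  congr 1
  push_cast
  field_simp

theorem WI_pow_succ' (T : L2 n →L[ℂ] L2 n) (k : ℕ) (f : L2 n) :
    (T ^ (k + 1)) f = T ((T ^ k) f) := by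
  rw [pow_succ']
  rfl

theorem WI_pow_succ (T : L2 n →L[ℂ] L2 n) (k : ℕ) (f : L2 n) :
    (T ^ (k + 1)) f = (T ^ k) (T f) := by
  rw [pow_succ]
  rfl

theorem WI_Jpow_mem (A : Coef n) {l : ℝ} (hl : 0 < l) {M : ℕ} (hM : M ≠ 0) (f : L2 n) :
    (J A l ^ M) f ∈ En n := by
  obtain ⟨M, rfl⟩ := Nat.exists_eq_succ_of_ne_zero hM
  rw [Nat.succ_eq_add_one, WI_pow_succ']
  exact J_mem A hl _

/-- large scales -/
theorem WI_large (A : Coef n) {M : ℕ} (hM : M ≠ 0) {C₁ C₂ : ℝ} (hC₁ : 0 ≤ C₁) (hC₂ : 0 ≤ C₂)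
    (h1 : ∀ l : ℝ, 0 < l → ∀ (g : L2 n) (j : Fin (n + 1)),
      ENNReal.ofReal l * N1 (D j ((J A l ^ M) g)) ≤ ENNReal.ofReal C₁ * N1 g)
    (h2 : ∀ l : ℝ, 0 < l → ∀ (g : L2 n) (j : Fin (n + 1)),
      ENNReal.ofReal l * N1 (D j ((J A l ^ (M + 1)) g)) ≤ ENNReal.ofReal C₂ * N1 g)
    {l r : ℝ} (hl : 0 < l) (hr : 0 < r) (m : ℕ) (b : L2 n) (j : Fin (n + 1)) (s : Set (ST n)) :
    ∫⁻ z in s, ‖D j ((J A l ^ (M + 1)) (b - (J A r ^ m) b)) z‖ₑ ≤
      ENNReal.ofReal (m * ((r / l) ^ 2 * ((C₁ + C₂) / l))) * N1 b := by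
  have e1 : b - (J A r ^ m) b = ∑ i ∈ Finset.range m, ((J A r ^ i) b - (J A r ^ (i + 1)) b) := by
    rw [Finset.sum_range_sub' (fun i => (J A r ^ i) b)]
    simp
  have e2 : ∀ i : ℕ, (J A l ^ (M + 1)) ((J A r ^ i) b - (J A r ^ (i + 1)) b) =
      (((r / l) ^ 2 : ℝ) : ℂ) • ((J A l ^ M) (J A r ((J A r ^ i) b))
        - (J A l ^ (M + 1)) (J A r ((J A r ^ i) b))) := by
    intro i
    rw [WI_pow_succ' (J A r) i, WI_pow_succ (J A l) M, WI_pow_succ (J A l) M,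
      WI_J_sub A hl hr, map_smul, map_sub]
  have e3 : ∀ i : ℕ, D j ((J A l ^ (M + 1)) ((J A r ^ i) b - (J A r ^ (i + 1)) b)) =
      (((r / l) ^ 2 : ℝ) : ℂ) • (D j ((J A l ^ M) (J A r ((J A r ^ i) b)))
        - D j ((J A l ^ (M + 1)) (J A r ((J A r ^ i) b)))) := by
    intro i
    rw [e2, D_smul _ _ (En_sub (WI_Jpow_mem A hl hM _) (WI_Jpow_mem A hl M.succ_ne_zero _)),
      D_sub _ (WI_Jpow_mem A hl hM _) (WI_Jpow_mem A hl M.succ_ne_zero _)]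
  have hterm : ∀ i : ℕ, ∫⁻ z in s,
      ‖D j ((J A l ^ (M + 1)) ((J A r ^ i) b - (J A r ^ (i + 1)) b)) z‖ₑ ≤
      ENNReal.ofReal ((r / l) ^ 2 * ((C₁ + C₂) / l)) * N1 b := by
    intro i
    have hb : N1 (J A r ((J A r ^ i) b)) ≤ N1 b := by
      have := N1_Jpow_le A hr (i + 1) b
      rwa [WI_pow_succ'] at this
    have b1 : N1 (D j ((J A l ^ M) (J A r ((J A r ^ i) b)))) ≤ ENNReal.ofReal (C₁ / l) * N1 b := by
      refine (WI_cancel hl (K := C₁ / l) ?_).trans (mul_le_mul' le_rfl hb)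
      rw [mul_div_cancel₀ _ hl.ne']
      exact h1 l hl _ j
    have b2 : N1 (D j ((J A l ^ (M + 1)) (J A r ((J A r ^ i) b)))) ≤
        ENNReal.ofReal (C₂ / l) * N1 b := by
      refine (WI_cancel hl (K := C₂ / l) ?_).trans (mul_le_mul' le_rfl hb)
      rw [mul_div_cancel₀ _ hl.ne']
      exact h2 l hl _ j
    rw [e3, WI_smul]
    have hn : ‖(((r / l) ^ 2 : ℝ) : ℂ)‖ₑ = ENNReal.ofReal ((r / l) ^ 2) := by
      rw [← ofReal_norm, Complex.norm_real, Real.norm_of_nonneg (by positivity)]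
    rw [hn, ENNReal.ofReal_mul (by positivity : (0 : ℝ) ≤ (r / l) ^ 2), mul_assoc]
    refine mul_le_mul' le_rfl ((WI_sub_le s _ _).trans ?_)
    rw [add_div, ENNReal.ofReal_add (by positivity) (by positivity), add_mul]
    exact add_le_add ((WI_le_N1 s _).trans b1) ((WI_le_N1 s _).trans b2)
  rw [e1, map_sum, D_sum _ _ fun i _ => WI_Jpow_mem A hl M.succ_ne_zero _]
  refine (WI_sum_le s _ _).trans ((Finset.sum_le_sum fun i _ => hterm i).trans ?_)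
  rw [Finset.sum_const, Finset.card_range, nsmul_eq_mul, ENNReal.ofReal_mul (Nat.cast_nonneg m),
    ENNReal.ofReal_natCast, mul_assoc]

/-- all scales -/
theorem WI_bound (A : Coef n) : ∃ M : ℕ, M ≠ 0 ∧ ∃ m₁ : ℕ, ∀ m : ℕ, m₁ ≤ m → ∃ C : ℝ, 0 < C ∧
    ∀ (j : Fin (n + 1)) (k : ℤ) (i₀ : Fin (n + 1) → ℤ) (b : L2 n), SuppIn b (cube k i₀) →
    ∀ l : ℝ, 0 < l →
    ∫⁻ z in (star k i₀)ᶜ, ‖D j ((J A l ^ M) (b - (J A ((2 : ℝ) ^ k)⁻¹ ^ m) b)) z‖ₑ ≤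
      ENNReal.ofReal (C * ((((2 : ℝ) ^ k)⁻¹) ^ 2 / (l + ((2 : ℝ) ^ k)⁻¹) ^ 3)) * N1 b := by
  obtain ⟨m₂, h₂⟩ := exists_N1_D A
  obtain ⟨m₃, h₃⟩ := exists_N1_D_off A
  obtain ⟨C₁, hC₁, H₁⟩ := h₂ (m₂ + m₃ + 1) (by omega)
  obtain ⟨C₂, hC₂, H₂⟩ := h₂ (m₂ + m₃ + 1 + 1) (by omega)
  obtain ⟨C₃, hC₃, H₃⟩ := h₃ (m₂ + m₃ + 1 + 1) (by omega)
  refine ⟨m₂ + m₃ + 1 + 1, by omega, max m₂ 1, fun m hm => ?_⟩
  obtain ⟨C₄, hC₄, H₄⟩ := h₂ m (by omega)
  have hm0 : m ≠ 0 := by omega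
  have hm1 : (1 : ℝ) ≤ m := by exact_mod_cast (by omega : 1 ≤ m)
  refine ⟨8 * (m * (C₁ + C₂)) + 8 * (C₃ + C₄), by positivity, fun j k i₀ b hb l hl => ?_⟩
  set r : ℝ := ((2 : ℝ) ^ k)⁻¹ with hrdef
  have hr : 0 < r := by positivity
  rcases le_total r l with hrl | hlr
  · refine (WI_large A (by omega) hC₁.le hC₂.le H₁ H₂ hl hr m b j _).trans ?_
    refine mul_le_mul' (ENNReal.ofReal_le_ofReal ?_) le_rfl
    have k1 : r ^ 2 / (2 * l) ^ 3 ≤ r ^ 2 / (l + r) ^ 3 := by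
      refine div_le_div_of_nonneg_left (by positivity) (by positivity) ?_
      exact pow_le_pow_left₀ (by positivity) (by linarith only [hrl]) 3
    have k2 : (m : ℝ) * ((r / l) ^ 2 * ((C₁ + C₂) / l)) =
        8 * (m * (C₁ + C₂)) * (r ^ 2 / (2 * l) ^ 3) := by
      field_simp
      ring
    rw [k2]
    have k3 : 0 ≤ 8 * (C₃ + C₄) * (r ^ 2 / (l + r) ^ 3) := by positivity
    have k4 : 8 * (m * (C₁ + C₂)) * (r ^ 2 / (2 * l) ^ 3) ≤
        8 * (m * (C₁ + C₂)) * (r ^ 2 / (l + r) ^ 3) :=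
      mul_le_mul_of_nonneg_left k1 (by positivity)
    rw [add_mul]
    linarith only [k3, k4]
  · have k1 : 1 / r ≤ 8 * (r ^ 2 / (l + r) ^ 3) := by
      have : r ^ 2 / (2 * r) ^ 3 ≤ r ^ 2 / (l + r) ^ 3 := by
        refine div_le_div_of_nonneg_left (by positivity) (by positivity) ?_
        exact pow_le_pow_left₀ (by positivity) (by linarith only [hlr]) 3
      have h8 : 1 / r = 8 * (r ^ 2 / (2 * r) ^ 3) := by
        field_simp
        ring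
      rw [h8]
      linarith only [this]
    have b1 : ∫⁻ z in (star k i₀)ᶜ, ‖D j ((J A l ^ (m₂ + m₃ + 1 + 1)) b) z‖ₑ ≤
        ENNReal.ofReal (C₃ * (1 / r)) * N1 b := by
      refine WI_cancel hl ?_
      have := H₃ k i₀ l hl hlr b hb j
      refine this.trans (le_of_eq ?_)
      congr 2
      rw [hrdef, one_div, inv_inv]
      ring
    have b2 : ∫⁻ z in (star k i₀)ᶜ, ‖D j ((J A l ^ (m₂ + m₃ + 1 + 1)) ((J A r ^ m) b)) z‖ₑ ≤
        ENNReal.ofReal (C₄ * (1 / r)) * N1 b := by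
      rw [Jpow_comm A hl hr]
      refine (WI_le_N1 _ _).trans ?_
      refine WI_cancel hr ?_
      have := H₄ r hr ((J A l ^ (m₂ + m₃ + 1 + 1)) b) j
      refine this.trans ?_
      rw [show r * (C₄ * (1 / r)) = C₄ by field_simp]
      exact mul_le_mul' le_rfl (N1_Jpow_le A hl _ b)
    rw [map_sub, D_sub _ (WI_Jpow_mem A hl (by omega) _) (WI_Jpow_mem A hl (by omega) _)]
    refine (WI_sub_le _ _ _).trans ((add_le_add b1 b2).trans ?_)
    rw [← add_mul, ← ENNReal.ofReal_add (by positivity) (by positivity)]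
    refine mul_le_mul' (ENNReal.ofReal_le_ofReal ?_) le_rfl
    have k3 : 0 ≤ 8 * (m * (C₁ + C₂)) * (r ^ 2 / (l + r) ^ 3) := by positivity
    have k4 : (C₃ + C₄) * (1 / r) ≤ (C₃ + C₄) * (8 * (r ^ 2 / (l + r) ^ 3)) :=
      mul_le_mul_of_nonneg_left k1 (by positivity)
    nlinarith only [k3, k4]

theorem WI_inner_le {s : Set (ST n)} (hs : MeasurableSet s) {g : L2 n}
    (hg : ∀ᵐ z ∂(volume : Measure (ST n)), ‖g z‖ ≤ 1) (hgs : SuppIn g s) (v : L2 n) {K : ℝ}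
    (hK : 0 ≤ K) (hv : ∫⁻ z in s, ‖v z‖ₑ ≤ ENNReal.ofReal K) : ‖⟪g, v⟫‖ ≤ K := by
  have h1 : ‖⟪g, v⟫‖ₑ ≤ ∫⁻ z in s, ‖v z‖ₑ := by
    rw [L2.inner_def]
    refine (enorm_integral_le_lintegral_enorm _).trans ?_
    rw [← lintegral_indicator hs]
    refine lintegral_mono_ae ?_
    filter_upwards [hg, hgs] with z hz hz'
    by_cases hzs : z ∈ s
    · rw [Set.indicator_of_mem hzs, ← ofReal_norm, ← ofReal_norm]
      refine ENNReal.ofReal_le_ofReal ((norm_inner_le_norm _ _).trans ?_)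
      calc ‖g z‖ * ‖v z‖ ≤ 1 * ‖v z‖ := mul_le_mul_of_nonneg_right hz (norm_nonneg _)
        _ = ‖v z‖ := one_mul _
    · rw [hz' hzs, inner_zero_left]
      simp
  have h2 := h1.trans hv
  rw [← ofReal_norm] at h2
  exact (ENNReal.ofReal_le_ofReal_iff hK).1 h2

theorem WI_integral {r : ℝ} (hr : 0 < r) {a b : ℝ} (ha : 0 < a) (hab : a ≤ b) :
    IntervalIntegrable (fun l : ℝ => r ^ 2 / (l + r) ^ 3) volume a b ∧
      ∫ l in a..b, r ^ 2 / (l + r) ^ 3 ≤ 1 := by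
  have hpos : ∀ x ∈ Set.uIcc a b, 0 < x + r := by
    intro x hx
    rw [Set.uIcc_of_le hab] at hx
    linarith only [hx.1, hr, ha]
  have hi : IntervalIntegrable (fun l : ℝ => r ^ 2 / (l + r) ^ 3) volume a b := by
    refine ContinuousOn.intervalIntegrable ?_
    refine continuousOn_const.div (by fun_prop) fun x hx => ?_
    exact pow_ne_zero 3 (hpos x hx).ne'
  refine ⟨hi, ?_⟩
  have hd : ∀ x ∈ Set.uIcc a b, HasDerivAt (fun l : ℝ => -(r ^ 2 / 2) * ((l + r) ^ 2)⁻¹)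
      (r ^ 2 / (x + r) ^ 3) x := by
    intro x hx
    have hx' := (hpos x hx).ne'
    have h1 : HasDerivAt (fun l : ℝ => (l + r) ^ 2) (2 * (x + r)) x := by
      have h0 : HasDerivAt (fun l : ℝ => l + r) 1 x := (hasDerivAt_id x).add_const r
      have := h0.fun_pow 2
      simpa using this
    have h2 := (h1.fun_inv (pow_ne_zero 2 hx')).const_mul (-(r ^ 2 / 2))
    refine h2.congr_deriv ?_
    field_simp
  rw [intervalIntegral.integral_eq_sub_of_hasDerivAt hd hi]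
  have ha' : 0 < a + r := by linarith only [hr, ha]
  have hb' : 0 < b + r := by linarith only [hr, ha, hab]
  have h3 : r ^ 2 * ((a + r) ^ 2)⁻¹ ≤ 1 := by
    rw [← div_eq_mul_inv, div_le_one (by positivity)]
    exact pow_le_pow_left₀ hr.le (by linarith only [ha]) 2
  have h4 : 0 ≤ r ^ 2 * ((b + r) ^ 2)⁻¹ := by positivity
  linarith only [h3, h4]

theorem exists_weak_input (hn : 0 < n) (A : Coef n) {R : Fin (n + 1) → L2 n →L[ℂ] L2 n}
    (hR : ∀ j f, Tendsto (fun p : ℝ × ℝ => D j (((2 / Real.pi : ℝ) : ℂ) • ∫ l in p.1..p.2, J A l f))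
      (𝓝[>] 0 ×ˢ atTop) (𝓝 (R j f))) :
    ∃ m₁ : ℕ, ∀ m : ℕ, m₁ ≤ m → ∃ C : ℝ, 0 < C ∧ ∀ (j : Fin (n + 1)) (k : ℤ)
      (i₀ : Fin (n + 1) → ℤ) (b : L2 n), SuppIn b (cube k i₀) →
      ∫⁻ z in (star k i₀)ᶜ, ‖R j (b - (J A ((2 : ℝ) ^ k)⁻¹ ^ m) b) z‖ₑ
        ≤ ENNReal.ofReal C * N1 b := by
  obtain ⟨M, hM, m₁, hm₁⟩ := WI_bound A
  obtain ⟨c, hc, hRc⟩ := R_pow hn A hR M hM
  refine ⟨m₁, fun m hm => ?_⟩
  obtain ⟨C, hC, H⟩ := hm₁ m hm
  refine ⟨c * C, by positivity, fun j k i₀ b hb => ?_⟩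
  set r : ℝ := ((2 : ℝ) ^ k)⁻¹ with hrdef
  have hr : 0 < r := by positivity
  set h : L2 n := b - (J A r ^ m) b with hh
  have hfin : N1 b ≠ ∞ := N1_ne_top_of_suppIn hb
  have hN : N1 b = ENNReal.ofReal (N1 b).toReal := (ENNReal.ofReal_toReal hfin).symm
  set B : ℝ := (N1 b).toReal with hB
  have hB0 : 0 ≤ B := ENNReal.toReal_nonneg
  have hs : MeasurableSet (star k i₀)ᶜ := (measurableSet_star k i₀).compl
  rw [hN, ← ENNReal.ofReal_mul (by positivity)]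
  refine lintegral_le_of_dual hs (by positivity) fun g hg hgs _ => ?_
  have hlim : Tendsto (fun p : ℝ × ℝ => ‖⟪g, (c : ℂ) • ∫ l in p.1..p.2, D j ((J A l ^ M) h)⟫‖)
      (𝓝[>] 0 ×ˢ atTop) (𝓝 ‖⟪g, R j h⟫‖) :=
    ((tendsto_const_nhds (x := g)).inner (hRc j h)).norm
  refine le_of_tendsto hlim ?_
  have hev : ∀ᶠ p : ℝ × ℝ in 𝓝[>] 0 ×ˢ atTop, (0 < p.1 ∧ p.1 < 1) ∧ 1 < p.2 := by
    have e1 : ∀ᶠ x : ℝ in 𝓝[>] 0, 0 < x ∧ x < 1 := by
      filter_upwards [Ioo_mem_nhdsGT (zero_lt_one' ℝ)] with x hx using hx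
    exact e1.prod_mk (eventually_gt_atTop (1 : ℝ))
  filter_upwards [hev] with p hp
  obtain ⟨⟨hp0, hp1⟩, hp2⟩ := hp
  have hab : p.1 ≤ p.2 := by linarith only [hp2, hp1]
  have hint : IntervalIntegrable (fun l => D j ((J A l ^ M) h)) volume p.1 p.2 := by
    refine ((continuousOn_D_Jpow A M hM j h).mono ?_).intervalIntegrable
    rw [Set.uIcc_of_le hab]
    exact fun x hx => lt_of_lt_of_le hp0 hx.1
  have hcomm := (innerSL ℂ g).intervalIntegral_comp_comm hint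
  simp only [innerSL_apply_apply] at hcomm
  rw [inner_smul_right, norm_mul, ← hcomm, Complex.norm_real, Real.norm_of_nonneg hc.le, mul_assoc]
  refine mul_le_mul_of_nonneg_left ?_ hc.le
  obtain ⟨hi, hi1⟩ := WI_integral hr hp0 hab
  calc ‖∫ l in p.1..p.2, ⟪g, D j ((J A l ^ M) h)⟫‖
      ≤ ∫ l in p.1..p.2, (C * B) * (r ^ 2 / (l + r) ^ 3) := by
        refine intervalIntegral.norm_integral_le_of_norm_le hab ?_ (hi.const_mul _)
        refine Filter.Eventually.of_forall fun l hl => ?_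
        have hl0 : 0 < l := hp0.trans hl.1
        have hpos : 0 ≤ r ^ 2 / (l + r) ^ 3 := by positivity
        refine WI_inner_le hs hg hgs _ (by positivity) ?_
        refine (H j k i₀ b hb l hl0).trans (le_of_eq ?_)
        rw [hN, ← ENNReal.ofReal_mul (by positivity)]
        congr 1
        ring
    _ = (C * B) * ∫ l in p.1..p.2, r ^ 2 / (l + r) ^ 3 := intervalIntegral.integral_const_mul _ _
    _ ≤ (C * B) * 1 := mul_le_mul_of_nonneg_left hi1 (by positivity)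
    _ = C * B := mul_one _

end

end Pool.Agent.W_eb6199
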